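import Mathlib
import Pool.Agent.H88.LG.M00

set_option autoImplicit false

/-! Locally free actions of SL(3,R) on compact 9-manifolds, file M01: this file joins several modules to save build time. -/

section S_H88_LF_GBA

/-!
# GBA: the size functions `nrm`, `nd` and the balls `Bl`
-/

set_option autoImplicit false

open Set Filter
open scoped Topology

namespace Pool.Agent.H88.LF

theorem nrm_nonneg (A : Mat) : 0 ≤ nrm A :=
  Finset.sum_nonneg fun _ _ => Finset.sum_nonneg fun _ _ => abs_nonneg _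

theorem nrm_zero : nrm (0 : Mat) = 0 := by simp [nrm]

theorem nrm_one : nrm (1 : Mat) = 3 := by
  simp [nrm, Fin.sum_univ_three, Matrix.one_apply]
  norm_num

theorem abs_le_nrm (A : Mat) (i j : Fin 3) : |A i j| ≤ nrm A := by
  have h1 : |A i j| ≤ ∑ j, |A i j| :=
    Finset.single_le_sum (f := fun j => |A i j|) (fun _ _ => abs_nonneg _) (Finset.mem_univ j)
  have h2 : ∑ j, |A i j| ≤ nrm A :=
    Finset.single_le_sum (f := fun i => ∑ j, |A i j|)
      (fun _ _ => Finset.sum_nonneg fun _ _ => abs_nonneg _) (Finset.mem_univ i)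
  exact h1.trans h2

theorem nrm_eq_zero_iff (A : Mat) : nrm A = 0 ↔ A = 0 := by
  constructor
  · intro h
    ext i j
    have := abs_le_nrm A i j
    rw [h] at this
    simpa using abs_nonpos_iff.mp this
  · rintro rfl; exact nrm_zero

theorem nrm_add_le (A B : Mat) : nrm (A + B) ≤ nrm A + nrm B := by
  unfold nrm
  rw [← Finset.sum_add_distrib]
  refine Finset.sum_le_sum fun i _ => ?_
  rw [← Finset.sum_add_distrib]
  refine Finset.sum_le_sum fun j _ => ?_
  rw [Matrix.add_apply]
  exact abs_add_le _ _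

theorem nrm_neg (A : Mat) : nrm (-A) = nrm A := by
  simp [nrm]

theorem nrm_sub_le (A B : Mat) : nrm (A - B) ≤ nrm A + nrm B := by
  rw [sub_eq_add_neg, ← nrm_neg B]
  exact nrm_add_le _ _

theorem nrm_sub_comm (A B : Mat) : nrm (A - B) = nrm (B - A) := by
  rw [← nrm_neg (A - B), neg_sub]

theorem nrm_smul (a : ℝ) (A : Mat) : nrm (a • A) = |a| * nrm A := by
  simp [nrm, abs_mul, Finset.mul_sum]

theorem nrm_mul_le (A B : Mat) : nrm (A * B) ≤ nrm A * nrm B := by
  have hrow : ∀ k, ∑ j, |B k j| ≤ nrm B := fun k =>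
    Finset.single_le_sum (f := fun i => ∑ j, |B i j|)
      (fun _ _ => Finset.sum_nonneg fun _ _ => abs_nonneg _) (Finset.mem_univ k)
  have h1 : ∀ i, ∑ j, |(A * B) i j| ≤ (∑ k, |A i k|) * nrm B := by
    intro i
    calc ∑ j, |(A * B) i j| ≤ ∑ j, ∑ k, |A i k| * |B k j| := by
          refine Finset.sum_le_sum fun j _ => ?_
          rw [Matrix.mul_apply]
          refine (Finset.abs_sum_le_sum_abs _ _).trans (le_of_eq ?_)
          exact Finset.sum_congr rfl fun k _ => abs_mul _ _
      _ = ∑ k, |A i k| * ∑ j, |B k j| := by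
          rw [Finset.sum_comm]
          exact Finset.sum_congr rfl fun k _ => by rw [Finset.mul_sum]
      _ ≤ ∑ k, |A i k| * nrm B :=
          Finset.sum_le_sum fun k _ => mul_le_mul_of_nonneg_left (hrow k) (abs_nonneg _)
      _ = (∑ k, |A i k|) * nrm B := by rw [Finset.sum_mul]
  calc nrm (A * B) ≤ ∑ i, (∑ k, |A i k|) * nrm B := Finset.sum_le_sum fun i _ => h1 i
    _ = nrm A * nrm B := by rw [← Finset.sum_mul]; rfl

theorem nrm_le_of_entries (A : Mat) (r : ℝ) (h : ∀ i j, |A i j| ≤ r) : nrm A ≤ 9 * r := by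
  calc nrm A ≤ ∑ _i : Fin 3, ∑ _j : Fin 3, r :=
        Finset.sum_le_sum fun i _ => Finset.sum_le_sum fun j _ => h i j
    _ = 9 * r := by simp; ring

theorem continuous_nrm : Continuous nrm := by
  unfold nrm
  refine continuous_finsetSum _ fun i _ => continuous_finsetSum _ fun j _ => ?_
  exact (continuous_id.matrix_elem i j).abs

theorem continuous_nd : Continuous nd := by
  unfold nd
  exact continuous_nrm.comp (closedEmb_val.continuous.sub continuous_const)

theorem nd_nonneg (g : G) : 0 ≤ nd g := nrm_nonneg _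

theorem nd_one : nd 1 = 0 := by
  unfold nd
  simp [nrm_zero]

theorem nd_eq_zero_iff (g : G) : nd g = 0 ↔ g = 1 := by
  unfold nd
  rw [nrm_eq_zero_iff, sub_eq_zero]
  constructor
  · intro h; exact Subtype.ext (by rw [h]; rfl)
  · rintro rfl; rfl

theorem nrm_le_nd (g : G) : nrm g.1 ≤ 3 + nd g := by
  have h : g.1 = 1 + (g.1 - 1) := by abel
  have := nrm_add_le 1 (g.1 - 1)
  rw [← h, nrm_one] at this
  exact this

theorem GBA_nine (A : Mat) : nrm A = |A 0 0| + |A 0 1| + |A 0 2| + (|A 1 0| + |A 1 1| + |A 1 2|)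
    + (|A 2 0| + |A 2 1| + |A 2 2|) := by
  simp [nrm, Fin.sum_univ_three]

theorem GBA_det (A : Mat) : |A.det| ≤ nrm A ^ 3 := by
  rw [GBA_nine, Matrix.det_fin_three]
  have key : ∀ a b c d e f g h i : ℝ,
      |a * e * i - a * f * h - b * d * i + b * f * g + c * d * h - c * e * g| ≤
        (|a| + |b| + |c|) * (|d| + |e| + |f|) * (|g| + |h| + |i|) := by
    intro a b c d e f g h i
    have t : |a * e * i - a * f * h - b * d * i + b * f * g + c * d * h - c * e * g| ≤
        |a| * |e| * |i| + |a| * |f| * |h| + |b| * |d| * |i| + |b| * |f| * |g| + |c| * |d| * |h|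
          + |c| * |e| * |g| := by
      have e1 : ∀ x y z : ℝ, |x| * |y| * |z| = |x * y * z| := fun x y z => by
        rw [abs_mul, abs_mul]
      rw [e1, e1, e1, e1, e1, e1]
      rw [abs_le]
      constructor <;>
      linarith [neg_abs_le (a * e * i), le_abs_self (a * e * i), neg_abs_le (a * f * h),
        le_abs_self (a * f * h), neg_abs_le (b * d * i), le_abs_self (b * d * i),
        neg_abs_le (b * f * g), le_abs_self (b * f * g), neg_abs_le (c * d * h),
        le_abs_self (c * d * h), neg_abs_le (c * e * g), le_abs_self (c * e * g)]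
    refine t.trans ?_
    generalize ha : |a| = a'
    generalize hb : |b| = b'
    generalize hc : |c| = c'
    generalize hd : |d| = d'
    generalize he : |e| = e'
    generalize hf : |f| = f'
    generalize hg : |g| = g'
    generalize hh : |h| = h'
    generalize hi : |i| = i'
    have pa : 0 ≤ a' := ha ▸ abs_nonneg a
    have pb : 0 ≤ b' := hb ▸ abs_nonneg b
    have pc : 0 ≤ c' := hc ▸ abs_nonneg c
    have pd : 0 ≤ d' := hd ▸ abs_nonneg d
    have pe : 0 ≤ e' := he ▸ abs_nonneg e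
    have pf : 0 ≤ f' := hf ▸ abs_nonneg f
    have pg : 0 ≤ g' := hg ▸ abs_nonneg g
    have ph : 0 ≤ h' := hh ▸ abs_nonneg h
    have pi : 0 ≤ i' := hi ▸ abs_nonneg i
    have eq : (a' + b' + c') * (d' + e' + f') * (g' + h' + i') =
      (a' * e' * i' + a' * f' * h' + b' * d' * i' + b' * f' * g' + c' * d' * h' + c' * e' * g') +
      (a' * d' * g' + a' * d' * h' + a' * d' * i' + a' * e' * g' + a' * e' * h' + a' * f' * g'
      + a' * f' * i' + b' * d' * g' + b' * d' * h' + b' * e' * g' + b' * e' * h' + b' * e' * i'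
      + b' * f' * h' + b' * f' * i' + c' * d' * g' + c' * d' * i' + c' * e' * h' + c' * e' * i'
      + c' * f' * g' + c' * f' * h' + c' * f' * i') := by ring
    rw [eq]
    have : 0 ≤ (a' * d' * g' + a' * d' * h' + a' * d' * i' + a' * e' * g' + a' * e' * h'
      + a' * f' * g' + a' * f' * i' + b' * d' * g' + b' * d' * h' + b' * e' * g' + b' * e' * h'
      + b' * e' * i' + b' * f' * h' + b' * f' * i' + c' * d' * g' + c' * d' * i' + c' * e' * h'
      + c' * e' * i' + c' * f' * g' + c' * f' * h' + c' * f' * i') := by positivity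
    linarith
  refine (key _ _ _ _ _ _ _ _ _).trans ?_
  set x := |A 0 0| + |A 0 1| + |A 0 2| with hx
  set y := |A 1 0| + |A 1 1| + |A 1 2| with hy
  set z := |A 2 0| + |A 2 1| + |A 2 2| with hz
  have px : 0 ≤ x := by positivity
  have py : 0 ≤ y := by positivity
  have pz : 0 ≤ z := by positivity
  have eq : (x + y + z) ^ 3 = x * y * z + (x ^ 3 + y ^ 3 + z ^ 3 + 3 * x ^ 2 * y + 3 * x ^ 2 * z +
    3 * x * y ^ 2 + 3 * x * z ^ 2 + 3 * y ^ 2 * z + 3 * y * z ^ 2 + 5 * x * y * z) := by ring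
  rw [eq]
  have : 0 ≤ (x ^ 3 + y ^ 3 + z ^ 3 + 3 * x ^ 2 * y + 3 * x ^ 2 * z +
    3 * x * y ^ 2 + 3 * x * z ^ 2 + 3 * y ^ 2 * z + 3 * y * z ^ 2 + 5 * x * y * z) := by positivity
  linarith

theorem one_le_nrm (g : G) : 1 ≤ nrm g.1 := by
  have h := GBA_det g.1
  rw [g.2, abs_one] at h
  by_contra hc
  push Not at hc
  have h0 := nrm_nonneg g.1
  have : nrm g.1 ^ 3 < 1 := pow_lt_one₀ h0 hc (by norm_num)
  linarith

/-- `gh - 1 = (g-1)h + (h-1)` -/
theorem nd_mul_le (g h : G) : nd (g * h) ≤ nd g * nrm h.1 + nd h := by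
  unfold nd
  have e : (g * h).1 - 1 = (g.1 - 1) * h.1 + (h.1 - 1) := by
    rw [Matrix.SpecialLinearGroup.coe_mul]; noncomm_ring
  rw [e]
  exact (nrm_add_le _ _).trans (by linarith [nrm_mul_le (g.1 - 1) h.1])

/-- `gh - 1 = (g-1) + g(h-1)` -/
theorem nd_mul_le' (g h : G) : nd (g * h) ≤ nd g + nrm g.1 * nd h := by
  unfold nd
  have e : (g * h).1 - 1 = (g.1 - 1) + g.1 * (h.1 - 1) := by
    rw [Matrix.SpecialLinearGroup.coe_mul]; noncomm_ring
  rw [e]
  exact (nrm_add_le _ _).trans (by linarith [nrm_mul_le g.1 (h.1 - 1)])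

theorem GBA_adj (A : Mat) : nrm A.adjugate ≤ nrm A ^ 2 := by
  rw [GBA_nine, GBA_nine, Matrix.adjugate_fin_three]
  have key : ∀ a b c d : ℝ, |a * b - c * d| ≤ |a| * |b| + |c| * |d| := fun a b c d => by
    have := abs_sub (a * b) (c * d)
    rwa [abs_mul, abs_mul] at this
  have key' : ∀ a b c d : ℝ, |-(a * b) + c * d| ≤ |a| * |b| + |c| * |d| := fun a b c d => by
    have := abs_add_le (-(a * b)) (c * d)
    rwa [abs_neg, abs_mul, abs_mul] at this
  simp only [Matrix.of_apply, Matrix.cons_val', Matrix.cons_val_zero, Matrix.cons_val_one,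
    Matrix.cons_val, Matrix.cons_val_fin_one]
  set a := A 0 0
  set b := A 0 1
  set c := A 0 2
  set d := A 1 0
  set e := A 1 1
  set f := A 1 2
  set g := A 2 0
  set h := A 2 1
  set i := A 2 2
  have h1 := key e i f h
  have h2 := key' b i c h
  have h3 := key b f c e
  have h4 := key' d i f g
  have h5 := key a i c g
  have h6 := key' a f c d
  have h7 := key d h e g
  have h8 := key' a h b g
  have h9 := key a e b d
  have pa := abs_nonneg a
  have pb := abs_nonneg b
  have pc := abs_nonneg c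
  have pd := abs_nonneg d
  have pe := abs_nonneg e
  have pf := abs_nonneg f
  have pg := abs_nonneg g
  have ph := abs_nonneg h
  have pi := abs_nonneg i
  refine (add_le_add (add_le_add (add_le_add (add_le_add h1 h2) h3)
    (add_le_add (add_le_add h4 h5) h6)) (add_le_add (add_le_add h7 h8) h9)).trans ?_
  generalize |a| = a' at *
  generalize |b| = b' at *
  generalize |c| = c' at *
  generalize |d| = d' at *
  generalize |e| = e' at *
  generalize |f| = f' at *
  generalize |g| = g' at *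
  generalize |h| = h' at *
  generalize |i| = i' at *
  clear h1 h2 h3 h4 h5 h6 h7 h8 h9 key key'
  rw [← sub_nonneg]
  have eq : (a' + b' + c' + (d' + e' + f') + (g' + h' + i')) ^ 2 -
    (e' * i' + f' * h' + (b' * i' + c' * h') + (b' * f' + c' * e') +
    (d' * i' + f' * g' + (a' * i' + c' * g') + (a' * f' + c' * d')) +
    (d' * h' + e' * g' + (a' * h' + b' * g') + (a' * e' + b' * d'))) =
    a' ^ 2 + b' ^ 2 + c' ^ 2 + d' ^ 2 + e' ^ 2 + f' ^ 2 + g' ^ 2 + h' ^ 2 + i' ^ 2 +
    (e' * i' + f' * h' + (b' * i' + c' * h') + (b' * f' + c' * e') +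
    (d' * i' + f' * g' + (a' * i' + c' * g') + (a' * f' + c' * d')) +
    (d' * h' + e' * g' + (a' * h' + b' * g') + (a' * e' + b' * d'))) +
    2 * (a' * b' + a' * c' + b' * c' + d' * e' + d' * f' + e' * f' + g' * h' + g' * i' + h' * i' +
     a' * d' + a' * g' + d' * g' + b' * e' + b' * h' + e' * h' + c' * f' + c' * i' + f' * i') := by
    ring
  rw [eq]
  positivity

/-- The entries of the inverse are 2 by 2 minors. -/
theorem nrm_inv_le (g : G) : nrm (g⁻¹).1 ≤ nrm g.1 ^ 2 := by
  rw [Matrix.SpecialLinearGroup.coe_inv]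
  exact GBA_adj _

/-- `g⁻¹ - 1 = g⁻¹(1-g)` -/
theorem nd_inv_le (g : G) : nd g⁻¹ ≤ nrm (g⁻¹).1 * nd g := by
  unfold nd
  have e0 : (g⁻¹).1 * g.1 = 1 := by
    rw [← Matrix.SpecialLinearGroup.coe_mul, inv_mul_cancel]; rfl
  have e : (g⁻¹).1 - 1 = (g⁻¹).1 * (1 - g.1) := by
    rw [mul_sub, e0, mul_one]
  rw [e, nrm_sub_comm g.1 1]
  exact nrm_mul_le _ _

theorem nd_inv_le_of_small (g : G) (h : nd g ≤ 1 / 2) : nd g⁻¹ ≤ 2 * nd g := by
  -- `g⁻¹ - 1 = (1 - g) + (g⁻¹ - 1)(1 - g)`
  have e0 : (g⁻¹).1 * g.1 = 1 := by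
    rw [← Matrix.SpecialLinearGroup.coe_mul, inv_mul_cancel]; rfl
  have e : (g⁻¹).1 - 1 = (1 - g.1) + ((g⁻¹).1 - 1) * (1 - g.1) := by
    rw [sub_mul, mul_sub, e0]; noncomm_ring
  have h1 : nd g⁻¹ ≤ nd g + nd g⁻¹ * nd g := by
    unfold nd
    conv_lhs => rw [e]
    refine (nrm_add_le _ _).trans ?_
    rw [nrm_sub_comm g.1 1]
    linarith [nrm_mul_le ((g⁻¹).1 - 1) (1 - g.1)]
  nlinarith [nd_nonneg g, nd_nonneg g⁻¹]

theorem nd_conj_le (q g : G) : nd (q * g * q⁻¹) ≤ nrm q.1 * nd g * nrm (q⁻¹).1 := by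
  unfold nd
  have e0 : q.1 * (q⁻¹).1 = 1 := by
    rw [← Matrix.SpecialLinearGroup.coe_mul, mul_inv_cancel]; rfl
  have e : (q * g * q⁻¹).1 - 1 = q.1 * (g.1 - 1) * (q⁻¹).1 := by
    rw [Matrix.SpecialLinearGroup.coe_mul, Matrix.SpecialLinearGroup.coe_mul, mul_sub, sub_mul,
      mul_one, e0]
  rw [e]
  refine (nrm_mul_le _ _).trans ?_
  exact mul_le_mul_of_nonneg_right (nrm_mul_le _ _) (nrm_nonneg _)

/-- `g h⁻¹ - 1 = (g - h) h⁻¹` -/
theorem nd_mul_inv_le (g h : G) : nd (g * h⁻¹) ≤ nrm (g.1 - h.1) * nrm (h⁻¹).1 := by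
  unfold nd
  have e0 : h.1 * (h⁻¹).1 = 1 := by
    rw [← Matrix.SpecialLinearGroup.coe_mul, mul_inv_cancel]; rfl
  have e : (g * h⁻¹).1 - 1 = (g.1 - h.1) * (h⁻¹).1 := by
    rw [Matrix.SpecialLinearGroup.coe_mul, sub_mul, e0]
  rw [e]
  exact nrm_mul_le _ _

theorem GBA_compact_mat (C : ℝ) : IsCompact {A : Mat | nrm A ≤ C} := by
  have hK : IsCompact (Set.pi univ (fun _ : Fin 3 => Set.pi univ (fun _ : Fin 3 =>
      Set.Icc (-C) C)) : Set (Fin 3 → Fin 3 → ℝ)) :=
    isCompact_univ_pi fun _ => isCompact_univ_pi fun _ => isCompact_Icc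
  have hK' : IsCompact ({A : Mat | ∀ i, i ∈ univ → ∀ j, j ∈ univ → A i j ∈ Set.Icc (-C) C}) := hK
  refine hK'.of_isClosed_subset (isClosed_le continuous_nrm continuous_const) ?_
  intro A hA i _ j _
  have := (abs_le_nrm A i j).trans hA
  exact abs_le.mp this

theorem isCompact_nrm_le (C : ℝ) : IsCompact {g : G | nrm g.1 ≤ C} :=
  closedEmb_val.isCompact_preimage (GBA_compact_mat C)

theorem isClosed_Bl_aux (r : ℝ) : IsClosed (Bl r) := isClosed_le continuous_nd continuous_const

theorem isCompact_Bl (r : ℝ) : IsCompact (Bl r) := by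
  refine (isCompact_nrm_le (3 + r)).of_isClosed_subset (isClosed_Bl_aux r) ?_
  intro g hg
  have h1 : nd g ≤ r := hg
  have := nrm_le_nd g
  show nrm g.1 ≤ 3 + r
  linarith

theorem measurableSet_Bl (r : ℝ) : MeasurableSet (Bl r) := (isClosed_Bl_aux r).measurableSet

theorem isOpen_nd_lt (r : ℝ) : IsOpen {g : G | nd g < r} := isOpen_lt continuous_nd continuous_const

theorem Bl_mem_nhds {r : ℝ} (hr : 0 < r) : Bl r ∈ 𝓝 (1 : G) := by
  refine Filter.mem_of_superset ((isOpen_nd_lt r).mem_nhds ?_) ?_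
  · show nd 1 < r
    rwa [nd_one]
  · intro g hg
    have hg' : nd g < r := hg
    exact le_of_lt hg'

theorem GBA_basis_mat (B : Mat) :
    (𝓝 B).HasBasis (fun r : ℝ => 0 < r) (fun r => {A : Mat | nrm (A - B) ≤ r}) := by
  have hb : (𝓝 B).HasBasis (fun r : ℝ => 0 < r)
      (fun r => {A : Mat | ∀ i j, |A i j - B i j| ≤ r}) := by
    have h0 := @Metric.nhds_basis_closedBall (Fin 3 → Fin 3 → ℝ) _ B
    have h2 : (@nhds (Fin 3 → Fin 3 → ℝ) _ B).HasBasis (fun r : ℝ => 0 < r)
      (fun r => {A : Fin 3 → Fin 3 → ℝ | ∀ i j, |A i j - B i j| ≤ r}) := ?_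
    exact h2
    refine h0.congr (fun _ => Iff.rfl) ?_
    intro r hr
    ext A
    constructor
    · intro h i j
      have h1 := (dist_pi_le_iff (le_of_lt hr)).mp (Metric.mem_closedBall.mp h) i
      have h2 := (dist_pi_le_iff (le_of_lt hr)).mp h1 j
      rwa [Real.dist_eq] at h2
    · intro h
      refine Metric.mem_closedBall.mpr ((dist_pi_le_iff (le_of_lt hr)).mpr fun i => ?_)
      refine (dist_pi_le_iff (le_of_lt hr)).mpr fun j => ?_
      rw [Real.dist_eq]
      exact h i j
  refine hb.to_hasBasis ?_ ?_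
  · intro r hr
    refine ⟨r, hr, fun A hA i j => ?_⟩
    have := (abs_le_nrm (A - B) i j).trans hA
    rwa [Matrix.sub_apply] at this
  · intro r hr
    refine ⟨r / 9, by positivity, fun A hA => ?_⟩
    have := nrm_le_of_entries (A - B) (r / 9) (fun i j => by
      rw [Matrix.sub_apply]; exact hA i j)
    show nrm (A - B) ≤ r
    linarith

theorem nhds_one_basis_Bl : (𝓝 (1 : G)).HasBasis (fun r : ℝ => 0 < r) Bl := by
  have h := (GBA_basis_mat ((1 : G).1)).comap (fun g : G => (g.1 : Mat))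
  rw [← closedEmb_val.isInducing.nhds_eq_comap] at h
  exact h

theorem Bl_mono {r s : ℝ} (h : r ≤ s) : Bl r ⊆ Bl s := fun _ hg => le_trans hg h

/-- Near `g`: the elements `b * g` with `b` small. -/
theorem nhds_basis_Bl_mul (g : G) :
    (𝓝 g).HasBasis (fun r : ℝ => 0 < r) (fun r => {h | nd (h * g⁻¹) ≤ r}) := by
  have h1 : 𝓝 g = comap (fun h : G => h * g⁻¹) (𝓝 (1 : G)) := by
    have := (Homeomorph.mulRight (g⁻¹ : G)).comap_nhds_eq (1 : G)
    rw [show (fun h : G => h * g⁻¹) = ⇑(Homeomorph.mulRight (g⁻¹ : G)) from rfl, this]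
    congr 1
    rw [Homeomorph.mulRight_symm]
    simp
  rw [h1]
  exact nhds_one_basis_Bl.comap _

theorem exists_bound_of_isCompact {Q : Set G} (hQ : IsCompact Q) :
    ∃ C : ℝ, 1 ≤ C ∧ ∀ q ∈ Q, nrm q.1 ≤ C ∧ nrm (q⁻¹).1 ≤ C := by
  have c1 : Continuous (fun g : G => nrm g.1) := continuous_nrm.comp closedEmb_val.continuous
  have c2 : Continuous (fun g : G => nrm (g⁻¹).1) := c1.comp continuous_inv
  obtain ⟨C1, h1⟩ := (hQ.image c1).bddAbove
  obtain ⟨C2, h2⟩ := (hQ.image c2).bddAbove
  refine ⟨max 1 (max C1 C2), le_max_left _ _, fun q hq => ⟨?_, ?_⟩⟩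
  · exact (h1 ⟨q, hq, rfl⟩).trans ((le_max_left _ _).trans (le_max_right _ _))
  · exact (h2 ⟨q, hq, rfl⟩).trans ((le_max_right _ _).trans (le_max_right _ _))

/-- Finite cover of a compact set by translates of a small ball. -/
theorem exists_finite_cover {Q : Set G} (hQ : IsCompact Q) {r : ℝ} (hr : 0 < r) :
    ∃ F : Finset G, (∀ f ∈ F, f ∈ Q) ∧ ∀ q ∈ Q, ∃ f ∈ F, q * f⁻¹ ∈ Bl r := by
  obtain ⟨t, ht, hcov⟩ := hQ.elim_nhds_subcover (fun g => {h | nd (h * g⁻¹) ≤ r})
    (fun g _ => (nhds_basis_Bl_mul g).mem_of_mem hr)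
  refine ⟨t, ht, fun q hq => ?_⟩
  have := hcov hq
  simp only [mem_iUnion] at this
  obtain ⟨f, hf, hq'⟩ := this
  exact ⟨f, hf, hq'⟩

theorem tendsto_one_iff_nd {α : Type*} {l : Filter α} {u : α → G} :
    Tendsto u l (𝓝 1) ↔ Tendsto (fun a => nd (u a)) l (𝓝 0) := by
  constructor
  · intro h
    have := (continuous_nd.tendsto 1).comp h
    rwa [nd_one] at this
  · intro h
    rw [nhds_one_basis_Bl.tendsto_right_iff]
    intro r hr
    filter_upwards [h.eventually (gt_mem_nhds hr)] with a ha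
    exact le_of_lt ha

end Pool.Agent.H88.LF

end S_H88_LF_GBA

section S_H88_LF_GBB

/-!
# GBB: the diagonal subgroup `D` and the root groups `U`
-/

set_option autoImplicit false

open Set Filter
open scoped Topology

namespace Pool.Agent.H88.LF

theorem cmp_add (v w : ℝ × ℝ) (i : Fin 3) : cmp (v + w) i = cmp v i + cmp w i := by
  fin_cases i
  · rfl
  · rfl
  · simp only [cmp, Fin.reduceFinMk, Matrix.cons_val, Prod.fst_add, Prod.snd_add]; ring

theorem cmp_neg (v : ℝ × ℝ) (i : Fin 3) : cmp (-v) i = -cmp v i := by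
  fin_cases i
  · rfl
  · rfl
  · simp only [cmp, Fin.reduceFinMk, Matrix.cons_val, Prod.fst_neg, Prod.snd_neg]; ring

theorem cmp_smul (a : ℝ) (v : ℝ × ℝ) (i : Fin 3) : cmp (a • v) i = a * cmp v i := by
  fin_cases i
  · rfl
  · rfl
  · simp only [cmp, Fin.reduceFinMk, Matrix.cons_val, Prod.smul_fst, Prod.smul_snd, smul_eq_mul]; ring

theorem cmp_sum (v : ℝ × ℝ) : cmp v 0 + cmp v 1 + cmp v 2 = 0 := by
  simp only [cmp, Matrix.cons_val]; ring

theorem abs_cmp_le (v : ℝ × ℝ) (i : Fin 3) : |cmp v i| ≤ 2 * ‖v‖ := by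
  have h1 : |v.1| ≤ ‖v‖ := norm_fst_le v
  have h2 : |v.2| ≤ ‖v‖ := norm_snd_le v
  have h0 : 0 ≤ ‖v‖ := norm_nonneg v
  have h1' := abs_le.1 h1
  have h2' := abs_le.1 h2
  rw [abs_le]
  fin_cases i
  · simp only [cmp, Fin.zero_eta, Matrix.cons_val]
    constructor <;> linarith [h1'.1, h1'.2]
  · simp only [cmp, Fin.mk_one, Matrix.cons_val]
    constructor <;> linarith [h2'.1, h2'.2]
  · simp only [cmp, Fin.reduceFinMk, Matrix.cons_val]
    constructor <;> linarith [h1'.1, h1'.2, h2'.1, h2'.2]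

theorem norm_le_cmp (v : ℝ × ℝ) : ∃ i, ‖v‖ ≤ |cmp v i| := by
  rcases le_total ‖v.1‖ ‖v.2‖ with h | h
  · refine ⟨1, ?_⟩
    rw [Prod.norm_def, max_eq_right h]
    exact le_of_eq rfl
  · refine ⟨0, ?_⟩
    rw [Prod.norm_def, max_eq_left h]
    exact le_of_eq rfl

/-- Some difference of coordinates is at least `‖v‖`. -/
theorem exists_pair (v : ℝ × ℝ) : ∃ i l : Fin 3, i ≠ l ∧ ‖v‖ ≤ |cmp v i - cmp v l| := by
  by_contra hcon
  push Not at hcon
  have hs := cmp_sum v
  have h01 := abs_lt.1 (hcon 0 1 (by decide))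
  have h02 := abs_lt.1 (hcon 0 2 (by decide))
  have h12 := abs_lt.1 (hcon 1 2 (by decide))
  obtain ⟨i, hi⟩ := norm_le_cmp v
  have key : |cmp v i| < ‖v‖ := by
    rw [abs_lt]
    fin_cases i
    · simp only [Fin.zero_eta]
      constructor <;> linarith [h01.1, h01.2, h02.1, h02.2, h12.1, h12.2]
    · simp only [Fin.mk_one]
      constructor <;> linarith [h01.1, h01.2, h02.1, h02.2, h12.1, h12.2]
    · simp only [Fin.reduceFinMk]
      constructor <;> linarith [h01.1, h01.2, h02.1, h02.2, h12.1, h12.2]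
  exact absurd hi (not_le.2 key)

/-- Vectors with prescribed coordinates of sum zero. -/
theorem exists_cmp (x : Fin 3 → ℝ) (h : x 0 + x 1 + x 2 = 0) :
    ∃ v : ℝ × ℝ, ∀ i, cmp v i = x i := by
  refine ⟨(x 0, x 1), fun i => ?_⟩
  fin_cases i
  · rfl
  · rfl
  · simp only [cmp, Fin.reduceFinMk, Matrix.cons_val]; linarith

theorem continuous_cmp (i : Fin 3) : Continuous (fun v => cmp v i) := by
  fin_cases i
  · exact continuous_fst
  · exact continuous_snd
  · exact continuous_fst.neg.sub continuous_snd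

theorem D_val (v : ℝ × ℝ) : (D v).1 = Matrix.diagonal (fun i => Real.exp (cmp v i)) := rfl

theorem D_zero : D 0 = 1 := by
  apply Subtype.ext
  rw [D_val]
  have h : (fun i => Real.exp (cmp 0 i)) = fun _ => 1 := by
    funext i
    have h1 := cmp_smul 0 0 i
    rw [zero_smul, zero_mul] at h1
    rw [h1, Real.exp_zero]
  rw [h, Matrix.diagonal_one]
  rfl

theorem D_add (v w : ℝ × ℝ) : D (v + w) = D v * D w := by
  apply Subtype.ext
  rw [D_val]
  change _ = (D v).1 * (D w).1
  rw [D_val, D_val, Matrix.diagonal_mul_diagonal]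
  congr 1
  funext i
  rw [cmp_add, Real.exp_add]

theorem D_neg (v : ℝ × ℝ) : D (-v) = (D v)⁻¹ := by
  apply eq_inv_of_mul_eq_one_left
  rw [← D_add, neg_add_cancel, D_zero]

theorem D_comm (v w : ℝ × ℝ) : D v * D w = D w * D v := by
  rw [← D_add, ← D_add, add_comm]

theorem D_nsmul (n : ℕ) (v : ℝ × ℝ) : D ((n : ℝ) • v) = (D v) ^ n := by
  induction n with
  | zero => rw [Nat.cast_zero, zero_smul, D_zero, pow_zero]
  | succ n ih => rw [Nat.cast_succ, add_smul, one_smul, D_add, ih, pow_succ]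

theorem continuous_D : Continuous D := by
  rw [closedEmb_val.isEmbedding.continuous_iff]
  change Continuous (fun v => Matrix.diagonal (fun i => Real.exp (cmp v i)))
  refine Continuous.matrix_diagonal (continuous_pi fun i => ?_)
  exact Real.continuous_exp.comp (continuous_cmp i)

/-- Entries of a conjugate by `D v`. -/
theorem D_conj_entry (v : ℝ × ℝ) (M : Mat) (i j : Fin 3) :
    ((D v).1 * M * ((D v)⁻¹).1) i j = Real.exp (cmp v i - cmp v j) * M i j := by
  rw [← D_neg, D_val, D_val, Matrix.mul_diagonal, Matrix.diagonal_mul, cmp_neg, sub_eq_add_neg,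
    Real.exp_add]
  ring

theorem nrm_D_le (v : ℝ × ℝ) : nrm (D v).1 ≤ 3 * Real.exp (2 * ‖v‖) := by
  have h : ∀ i, Real.exp (cmp v i) ≤ Real.exp (2 * ‖v‖) := fun i =>
    Real.exp_le_exp.2 ((le_abs_self _).trans (abs_cmp_le v i))
  have h0 : nrm (D v).1 = Real.exp (cmp v 0) + Real.exp (cmp v 1) + Real.exp (cmp v 2) := by
    rw [D_val]
    simp [nrm, Fin.sum_univ_three, Matrix.diagonal_apply]
  rw [h0]
  linarith [h 0, h 1, h 2]

theorem nrm_D_inv_le (v : ℝ × ℝ) : nrm ((D v)⁻¹).1 ≤ 3 * Real.exp (2 * ‖v‖) := by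
  rw [← D_neg, ← norm_neg v]
  exact nrm_D_le (-v)

theorem isCompact_D_image (r : ℝ) : IsCompact (D '' {v | ‖v‖ ≤ r}) := by
  refine IsCompact.image ?_ continuous_D
  have h : {v : ℝ × ℝ | ‖v‖ ≤ r} = Metric.closedBall 0 r := by
    ext v
    simp
  rw [h]
  exact isCompact_closedBall 0 r

theorem U_val (i l : Fin 3) (h : i ≠ l) (s : ℝ) : (U i l h s).1 = Matrix.transvection i l s := rfl

theorem U_zero (i l : Fin 3) (h : i ≠ l) : U i l h 0 = 1 := by
  apply Subtype.ext
  rw [U_val, Matrix.transvection_zero]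
  rfl

theorem U_add (i l : Fin 3) (h : i ≠ l) (s t : ℝ) : U i l h (s + t) = U i l h s * U i l h t := by
  apply Subtype.ext
  change _ = (U i l h s).1 * (U i l h t).1
  rw [U_val, U_val, U_val, Matrix.transvection_mul_transvection_same i l h]

theorem U_neg (i l : Fin 3) (h : i ≠ l) (s : ℝ) : U i l h (-s) = (U i l h s)⁻¹ := by
  apply eq_inv_of_mul_eq_one_left
  rw [← U_add, neg_add_cancel, U_zero]

theorem continuous_U (i l : Fin 3) (h : i ≠ l) : Continuous (U i l h) := by
  rw [closedEmb_val.isEmbedding.continuous_iff]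
  change Continuous (fun s => Matrix.transvection i l s)
  refine continuous_matrix fun a b => ?_
  by_cases hab : i = a ∧ l = b
  · simp only [Matrix.transvection, Matrix.add_apply, Matrix.single_apply, hab, and_self, if_true]
    fun_prop
  · simp only [Matrix.transvection, Matrix.add_apply, Matrix.single_apply, hab, if_false]
    fun_prop

theorem nd_U (i l : Fin 3) (h : i ≠ l) (s : ℝ) : nd (U i l h s) = |s| := by
  have h1 : (U i l h s).1 - 1 = Matrix.single i l s := by
    rw [U_val, Matrix.transvection, add_sub_cancel_left]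
  rw [nd, h1, nrm]
  rw [Finset.sum_eq_single i, Finset.sum_eq_single l]
  · rw [Matrix.single_apply_same]
  · intro b _ hb
    rw [Matrix.single_apply_of_ne, abs_zero]
    exact fun h => hb h.2.symm
  · exact fun h => absurd (Finset.mem_univ _) h
  · intro a _ ha
    refine Finset.sum_eq_zero fun b _ => ?_
    rw [Matrix.single_apply_of_ne, abs_zero]
    exact fun h => ha h.1.symm
  · exact fun h => absurd (Finset.mem_univ _) h

/-- `D(v) U_il(s) = U_il(s e^{v_i-v_l}) D(v)` -/
theorem D_mul_U (v : ℝ × ℝ) (i l : Fin 3) (h : i ≠ l) (s : ℝ) :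
    D v * U i l h s = U i l h (Real.exp (cmp v i - cmp v l) * s) * D v := by
  apply Subtype.ext
  change (D v).1 * (U i l h s).1 = (U i l h (Real.exp (cmp v i - cmp v l) * s)).1 * (D v).1
  rw [U_val, U_val, D_val]
  ext a b
  rw [Matrix.diagonal_mul, Matrix.mul_diagonal]
  simp only [Matrix.transvection, Matrix.add_apply, Matrix.single_apply, Matrix.one_apply]
  by_cases hab : i = a ∧ l = b
  · obtain ⟨rfl, rfl⟩ := hab
    simp only [h, and_self, if_true, if_false, zero_add]
    rw [mul_assoc, mul_comm s, ← mul_assoc, ← Real.exp_add]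
    congr 2
    ring
  · simp only [hab, if_false, add_zero]
    by_cases h2 : a = b
    · subst h2
      ring
    · simp [h2]

theorem rot_add (i l : Fin 3) (h : i ≠ l) (s t : ℝ) :
    rot i l h (s + t) = rot i l h s * rot i l h t := by
  apply Subtype.ext
  change rotMat i l (s + t) = rotMat i l s * rotMat i l t
  ext a b
  rw [Matrix.mul_apply, Fin.sum_univ_three]
  simp only [rotMat, Real.cos_add, Real.sin_add]
  fin_cases i <;> fin_cases l <;> first | exact absurd rfl h | skip
  all_goals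
    fin_cases a <;> fin_cases b <;> simp <;> ring

theorem rot_zero (i l : Fin 3) (h : i ≠ l) : rot i l h 0 = 1 := by
  apply Subtype.ext
  change rotMat i l 0 = 1
  ext a b
  simp only [rotMat, Real.cos_zero, Real.sin_zero, Matrix.one_apply]
  fin_cases i <;> fin_cases l <;> first | exact absurd rfl h | skip
  all_goals
    fin_cases a <;> fin_cases b <;> simp

theorem rot_neg (i l : Fin 3) (h : i ≠ l) (s : ℝ) : rot i l h (-s) = (rot i l h s)⁻¹ := by
  apply eq_inv_of_mul_eq_one_left
  rw [← rot_add, neg_add_cancel, rot_zero]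

theorem continuous_rot (i l : Fin 3) (h : i ≠ l) : Continuous (rot i l h) := by
  rw [closedEmb_val.isEmbedding.continuous_iff]
  change Continuous (fun s => rotMat i l s)
  refine continuous_matrix fun a b => ?_
  simp only [rotMat]
  split_ifs
  · exact Real.continuous_cos
  · exact Real.continuous_sin.neg
  · exact Real.continuous_sin
  · exact continuous_const
  · exact continuous_const

/-- One compact symmetric set contains all rotations. -/
theorem exists_compact_rot : ∃ Q : Set G, IsCompact Q ∧ (∀ q ∈ Q, q⁻¹ ∈ Q) ∧ (1 : G) ∈ Q ∧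
    ∀ (i l : Fin 3) (h : i ≠ l) (θ : ℝ), rot i l h θ ∈ Q := by
  have hK : IsCompact {M : Mat | ∀ a b, M a b ∈ Set.Icc (-1 : ℝ) 1} := by
    have h1 : IsCompact (Set.pi (Set.univ : Set (Fin 3)) fun _ =>
        Set.pi (Set.univ : Set (Fin 3)) fun _ => Set.Icc (-1 : ℝ) 1) :=
      isCompact_univ_pi fun _ => isCompact_univ_pi fun _ => isCompact_Icc
    have h2 : {M : Mat | ∀ a b, M a b ∈ Set.Icc (-1 : ℝ) 1} = (Set.pi (Set.univ : Set (Fin 3))
        fun _ => Set.pi (Set.univ : Set (Fin 3)) fun _ => Set.Icc (-1 : ℝ) 1) :=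
      Set.ext fun M => ⟨fun h a _ b _ => h a b, fun h a b => h a trivial b trivial⟩
    rw [h2]
    exact h1
  have hQ1 : IsCompact {g : G | ∀ a b, g.1 a b ∈ Set.Icc (-1 : ℝ) 1} :=
    closedEmb_val.isCompact_preimage hK
  have hcl : IsClosed {g : G | ∀ a b, (g⁻¹).1 a b ∈ Set.Icc (-1 : ℝ) 1} :=
    (hQ1.isClosed).preimage continuous_inv
  have hrot : ∀ (i l : Fin 3) (h : i ≠ l) (θ : ℝ) (a b : Fin 3),
      (rot i l h θ).1 a b ∈ Set.Icc (-1 : ℝ) 1 := by
    intro i l h θ a b
    change rotMat i l θ a b ∈ Set.Icc (-1 : ℝ) 1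
    simp only [rotMat]
    split_ifs
    · exact ⟨Real.neg_one_le_cos θ, Real.cos_le_one θ⟩
    · exact ⟨neg_le_neg (Real.sin_le_one θ), by linarith [Real.neg_one_le_sin θ]⟩
    · exact ⟨Real.neg_one_le_sin θ, Real.sin_le_one θ⟩
    · constructor <;> norm_num
    · constructor <;> norm_num
  refine ⟨{g : G | ∀ a b, g.1 a b ∈ Set.Icc (-1 : ℝ) 1} ∩
    {g : G | ∀ a b, (g⁻¹).1 a b ∈ Set.Icc (-1 : ℝ) 1}, hQ1.inter_right hcl, ?_, ?_, ?_⟩
  · rintro q ⟨h1, h2⟩
    refine ⟨h2, ?_⟩
    simp only [Set.mem_ofPred_eq, inv_inv]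
    exact h1
  · have h1 : (1 : G) = rot 0 1 (by decide) 0 := (rot_zero 0 1 (by decide)).symm
    refine ⟨?_, ?_⟩
    · rw [h1]
      exact hrot 0 1 (by decide) 0
    · simp only [Set.mem_ofPred_eq, inv_one]
      rw [h1]
      exact hrot 0 1 (by decide) 0
  · intro i l h θ
    refine ⟨hrot i l h θ, ?_⟩
    simp only [Set.mem_ofPred_eq]
    rw [← rot_neg]
    exact hrot i l h (-θ)

end Pool.Agent.H88.LF

end S_H88_LF_GBB

section S_H88_LF_GBC

/-!
# GBC: generation of `G`

`SL(3,ℝ)` is generated by transvections (Mathlib: `diagonal_transvection_induction'` for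
`Matrix.SpecialLinearGroup`); a coordinate diagonal matrix is a product of six transvections.
`U i l s = (U i l (s/n))^n` with small factors.
-/

set_option autoImplicit false

open Set Filter
open scoped Topology Pointwise

namespace Pool.Agent.H88.LF

/-- A diagonal element of a coordinate `SL(2)` as a product of six root elements. -/
private theorem gbc_diag (i j : Fin 3) (hij : i ≠ j) (c : ℝ) (hc : c ≠ 0) :
    Matrix.SpecialLinearGroup.diag2n hij c hc =
      U i j hij c * U j i hij.symm (-c⁻¹) * U i j hij c * U i j hij (-1) * U j i hij.symm 1 *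
        U i j hij (-1) := by
  apply Subtype.ext
  simp only [Matrix.SpecialLinearGroup.coe_mul, Matrix.SpecialLinearGroup.diag2n_coe, U_val]
  ext a b
  fin_cases i <;> fin_cases j <;> first | exact absurd rfl hij | skip
  all_goals
    fin_cases a <;> fin_cases b <;>
      simp [Matrix.mul_apply, Fin.sum_univ_three, Matrix.transvection, Matrix.single,
        Matrix.diagonal, hc, Matrix.one_apply]

/-- A property of products which holds for root elements holds everywhere. -/
private theorem gbc_induction (P : G → Prop)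
    (hU : ∀ (i l : Fin 3) (hil : i ≠ l) (s : ℝ), P (U i l hil s))
    (hmul : ∀ g h, P g → P h → P (g * h)) (g : G) : P g := by
  refine Matrix.SpecialLinearGroup.diagonal_transvection_induction' P g ?_ ?_ hmul
  · intro i j hij c hc
    rw [gbc_diag i j hij c hc]
    exact hmul _ _ (hmul _ _ (hmul _ _ (hmul _ _ (hmul _ _ (hU _ _ _ _) (hU _ _ _ _))
      (hU _ _ _ _)) (hU _ _ _ _)) (hU _ _ _ _)) (hU _ _ _ _)
  · intro i j hij a
    exact hU i j hij a

/-- A subgroup containing all root groups is everything. -/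
theorem subgroup_eq_top (Γ : Subgroup G) (h : ∀ (i l : Fin 3) (hil : i ≠ l) (s : ℝ),
    U i l hil s ∈ Γ) : Γ = ⊤ := by
  rw [Subgroup.eq_top_iff']
  exact gbc_induction (fun g => g ∈ Γ) h (fun g h hg hh => Γ.mul_mem hg hh)

theorem BP_mul {r : ℝ} {m n : ℕ} {g h : G} (hg : g ∈ BP r m) (hh : h ∈ BP r n) :
    g * h ∈ BP r (m + n) := by
  induction m generalizing g with
  | zero =>
    have h1 : g = 1 := hg
    rw [h1, one_mul, Nat.zero_add]
    exact hh
  | succ m ih =>
    obtain ⟨b, hb, g', hg', rfl⟩ := hg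
    rw [Nat.add_right_comm, mul_assoc]
    exact ⟨b, hb, g' * h, ih hg', rfl⟩

theorem BP_mono {r : ℝ} (hr : 0 ≤ r) {m n : ℕ} (hmn : m ≤ n) : BP r m ⊆ BP r n := by
  have hone : ∀ k : ℕ, (1 : G) ∈ BP r k := by
    intro k
    induction k with
    | zero => exact rfl
    | succ k ih => exact ⟨1, (by show nd 1 ≤ r; rw [nd_one]; exact hr), 1, ih, (mul_one 1).symm⟩
  obtain ⟨k, rfl⟩ := Nat.exists_eq_add_of_le hmn
  intro g hg
  have h1 := BP_mul hg (hone k)
  rwa [mul_one] at h1

/-- Every element is a product of elements of a small ball. -/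
theorem exists_mem_BP {r : ℝ} (hr : 0 < r) (g : G) : ∃ n, g ∈ BP r n := by
  refine gbc_induction (fun g => ∃ n, g ∈ BP r n) ?_ ?_ g
  · intro i l hil s
    obtain ⟨n, hn⟩ := exists_nat_gt (|s| / r)
    have hn0 : (0 : ℝ) < n := lt_of_le_of_lt (div_nonneg (abs_nonneg s) hr.le) hn
    have hb : U i l hil (s / n) ∈ Bl r := by
      show nd (U i l hil (s / n)) ≤ r
      rw [nd_U, abs_div, abs_of_pos hn0, div_le_iff₀ hn0]
      rw [div_lt_iff₀ hr] at hn
      linarith
    have key : ∀ k : ℕ, U i l hil (k * (s / n)) ∈ BP r k := by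
      intro k
      induction k with
      | zero => simp only [Nat.cast_zero, zero_mul, U_zero]; exact rfl
      | succ k ih =>
        refine ⟨U i l hil (s / n), hb, _, ih, ?_⟩
        rw [← U_add]
        congr 1
        push_cast
        ring
    refine ⟨n, ?_⟩
    have h1 := key n
    rwa [mul_div_cancel₀ s hn0.ne'] at h1
  · rintro g h ⟨m, hm⟩ ⟨n, hn⟩
    exact ⟨m + n, BP_mul hm hn⟩

theorem isCompact_BP (r : ℝ) (n : ℕ) : IsCompact (BP r n) := by
  induction n with
  | zero => exact isCompact_singleton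
  | succ n ih =>
    have h1 := (isCompact_Bl r).mul ih
    have h2 : BP r (n + 1) = Bl r * BP r n := by
      ext g
      constructor
      · rintro ⟨b, hb, g', hg', rfl⟩
        exact Set.mul_mem_mul hb hg'
      · rintro ⟨b, hb, g', hg', rfl⟩
        exact ⟨b, hb, g', hg', rfl⟩
    rw [h2]
    exact h1

/-- A compact set is contained in some `BP r n`. -/
theorem exists_subset_BP {r : ℝ} (hr : 0 < r) {Q : Set G} (hQ : IsCompact Q) :
    ∃ n, Q ⊆ BP r n := by
  obtain ⟨F, -, hF⟩ := exists_finite_cover hQ hr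
  choose N hN using fun g : G => exists_mem_BP hr g
  refine ⟨F.sup N + 1, ?_⟩
  intro q hq
  obtain ⟨f, hf, hqf⟩ := hF q hq
  refine ⟨q * f⁻¹, hqf, f, BP_mono hr.le (Finset.le_sup hf) (hN f), ?_⟩
  group

/-- A nonempty set stable under left multiplication by a small ball is everything. -/
theorem eq_univ_of_Bl_mul {r : ℝ} (hr : 0 < r) {S : Set G} (hne : S.Nonempty)
    (hS : ∀ b ∈ Bl r, ∀ g ∈ S, b * g ∈ S) : S = univ := by
  obtain ⟨s, hs⟩ := hne
  have key : ∀ n : ℕ, ∀ g ∈ BP r n, g * s ∈ S := by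
    intro n
    induction n with
    | zero =>
      intro g hg
      have h1 : g = 1 := hg
      rw [h1, one_mul]
      exact hs
    | succ n ih =>
      rintro g ⟨b, hb, g', hg', rfl⟩
      rw [mul_assoc]
      exact hS b hb _ (ih g' hg')
  rw [Set.eq_univ_iff_forall]
  intro g
  obtain ⟨n, hn⟩ := exists_mem_BP hr (g * s⁻¹)
  have h1 := key n _ hn
  rwa [inv_mul_cancel_right] at h1

/-- `G` is perfect in the form: a homomorphism to a commutative group is trivial. -/
theorem hom_trivial {A : Type*} [CommGroup A] (f : G →* A) (g : G) : f g = 1 := by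
  refine gbc_induction (fun g => f g = 1) ?_ ?_ g
  · intro i l hil s
    -- choose `v` with `cmp v i - cmp v l = log 2`
    obtain ⟨v, hv⟩ := exists_cmp (fun k => if k = i then Real.log 2 / 2 else
      if k = l then -(Real.log 2 / 2) else 0) (by
        fin_cases i <;> fin_cases l <;> first | exact absurd rfl hil | skip
        all_goals simp)
    have h1 : Real.exp (cmp v i - cmp v l) = 2 := by
      rw [hv i, hv l]
      simp only [if_true, if_neg hil.symm]
      rw [show Real.log 2 / 2 - -(Real.log 2 / 2) = Real.log 2 by ring]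
      exact Real.exp_log (by norm_num)
    have h2 := D_mul_U v i l hil s
    rw [h1] at h2
    have h3 := congrArg f h2
    rw [map_mul, map_mul, two_mul, U_add, map_mul] at h3
    have h4 : f (U i l hil s) = f (U i l hil s) * f (U i l hil s) := by
      have : f (D v) * f (U i l hil s) = f (D v) * (f (U i l hil s) * f (U i l hil s)) := by
        rw [h3]; exact mul_comm _ _
      exact mul_left_cancel this
    exact left_eq_mul.1 h4
  · intro g h hg hh
    rw [map_mul, hg, hh, one_mul]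

end Pool.Agent.H88.LF

end S_H88_LF_GBC

section S_H88_LF_GBD

/-!
# GBD: Haar measure of `G`, unimodularity

The modular character of `G` is a homomorphism to a commutative group, so trivial
(`Mathlib.MeasureTheory.Group.ModularCharacter`, `hom_trivial`).
-/

set_option autoImplicit false

open MeasureTheory Set Filter
open scoped Topology ENNReal

namespace Pool.Agent.H88.LF

theorem gbd_modular (g : G) : Measure.modularCharacterFun g = 1 := by
  have h := hom_trivial (Measure.modularCharacter (G := G)).toHomUnits g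
  have h2 := congrArg Units.val h
  exact h2

instance instRightInv : (hG).IsMulRightInvariant := by
  refine ⟨fun g => ?_⟩
  have h1 : Measure.haarScalarFactor (Measure.map (· * g) hG) hG = 1 := by
    rw [← Measure.modularCharacterFun_eq_haarScalarFactor hG g, gbd_modular]
  rw [Measure.isMulLeftInvariant_eq_smul (Measure.map (· * g) hG) hG, h1, one_smul]

instance instInvInv : (hG).IsInvInvariant := by
  constructor
  set μ : Measure G := hG with hμ
  let c : ℝ≥0∞ := Measure.haarScalarFactor μ.inv μ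
  have hc : μ.inv = c • μ := Measure.isMulLeftInvariant_eq_smul μ.inv μ
  have h0 : Measure.map Inv.inv (Measure.map Inv.inv μ) = c ^ 2 • μ := by
    rw [← Measure.inv_def μ, hc, Measure.map_smul, ← Measure.inv_def μ, hc, smul_smul, pow_two]
  have μeq : μ = c ^ 2 • μ := by
    rw [Measure.map_map continuous_inv.measurable continuous_inv.measurable] at h0
    simpa only [inv_involutive, Function.Involutive.comp_self, Measure.map_id] using h0
  have K : TopologicalSpace.PositiveCompacts G := Classical.arbitrary _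
  have h1 : c ^ 2 * μ K = 1 ^ 2 * μ K := by
    conv_rhs => rw [μeq]
    simp
  have h2 : c ^ 2 = 1 ^ 2 :=
    (ENNReal.mul_left_inj (Measure.measure_pos_of_nonempty_interior _ K.interior_nonempty).ne'
          K.isCompact.measure_lt_top.ne).1 h1
  have h3 : c = 1 := (ENNReal.pow_right_strictMono two_ne_zero).injective h2
  rw [hc, h3, one_smul]

theorem hG_Bl_lt_top (r : ℝ) : hG (Bl r) < ∞ := (isCompact_Bl r).measure_lt_top

theorem hG_Bl_pos {r : ℝ} (hr : 0 < r) : 0 < hG (Bl r) :=
  Measure.measure_pos_of_mem_nhds hG (Bl_mem_nhds hr)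

/-- Almost everywhere statements are stable under left translation. -/
theorem ae_mul_left (g : G) {p : G → Prop} (h : ∀ᵐ x ∂hG, p x) : ∀ᵐ x ∂hG, p (g * x) :=
  (measurePreserving_mul_left hG g).quasiMeasurePreserving.ae h

/-- Almost everywhere statements are stable under right translation. -/
theorem ae_mul_right (g : G) {p : G → Prop} (h : ∀ᵐ x ∂hG, p x) : ∀ᵐ x ∂hG, p (x * g) :=
  (measurePreserving_mul_right hG g).quasiMeasurePreserving.ae h

/-- A property which holds almost everywhere in all translates of a ball holds almost everywhere. -/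
theorem ae_of_ae_Bl {r : ℝ} (hr : 0 < r) {p : G → Prop}
    (h : ∀ g : G, ∀ᵐ x ∂(hG.restrict (Bl r)), p (x * g)) : ∀ᵐ x ∂hG, p x := by
  have h1 : ∀ g : G, ∀ᵐ x ∂hG, x * g⁻¹ ∈ Bl r → p x := by
    intro g
    have h2 := (ae_restrict_iff' (measurableSet_Bl r)).1 (h g)
    have h3 := ae_mul_right g⁻¹ h2
    filter_upwards [h3] with x hx hx2
    have := hx hx2
    rwa [inv_mul_cancel_right] at this
  have h4 : ∀ g : G, {x : G | x * g⁻¹ ∈ Bl r} ∈ 𝓝 g := by
    intro g
    have h5 : Tendsto (fun x : G => x * g⁻¹) (𝓝 g) (𝓝 (g * g⁻¹)) :=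
      (continuous_mul_const g⁻¹).tendsto g
    rw [mul_inv_cancel] at h5
    exact h5 (Bl_mem_nhds hr)
  obtain ⟨t, ht, hcov⟩ := TopologicalSpace.countable_cover_nhds h4
  have h6 : ∀ᵐ x ∂hG, ∀ g ∈ t, x * g⁻¹ ∈ Bl r → p x :=
    (ae_ball_iff ht).2 fun g _ => h1 g
  filter_upwards [h6] with x hx
  have hx2 : x ∈ ⋃ g ∈ t, {x : G | x * g⁻¹ ∈ Bl r} := by rw [hcov]; trivial
  obtain ⟨g, hg, hxg⟩ := Set.mem_iUnion₂.1 hx2
  exact hx g hg hxg

theorem lintegral_mul_left (f : G → ℝ≥0∞) (g : G) : ∫⁻ x, f (g * x) ∂hG = ∫⁻ x, f x ∂hG :=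
  lintegral_mul_left_eq_self f g

theorem lintegral_mul_right (f : G → ℝ≥0∞) (g : G) :
    ∫⁻ x, f (x * g) ∂hG = ∫⁻ x, f x ∂hG :=
  lintegral_mul_right_eq_self f g

end Pool.Agent.H88.LF

end S_H88_LF_GBD

section S_H88_LF_GBE

/-!
# GBE: ergodicity of `G` acting on itself

`H = {h : f(hg) = f(g) for a.e. g}` is a subgroup (null sets are stable under left translation)
containing all root groups, so it is `G` (`subgroup_eq_top`).  Fubini (`f` measurable): for a.e. `g`, for a.e. `h`:
`f(hg) = f(g)`; fix such a `g`; by right invariance of null sets `f` is a.e. equal to `f(g)`.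
-/

set_option autoImplicit false

open MeasureTheory Set Filter
open scoped Topology ENNReal

namespace Pool.Agent.H88.LF

/-- ERG for functions. -/
theorem erg_fun {E : Type} [MeasurableSpace E] [TopologicalSpace E]
    [TopologicalSpace.PseudoMetrizableSpace E] [BorelSpace E] [SecondCountableTopology E]
    [T2Space E] (f : G → E) (hf : Measurable f)
    (h : ∀ (i l : Fin 3) (hil : i ≠ l) (s : ℝ), ∀ᵐ g ∂hG, f (U i l hil s * g) = f g) :
    ∃ c, ∀ᵐ g ∂hG, f g = c := by
  let H : Subgroup G :=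
    { carrier := {h | ∀ᵐ g ∂hG, f (h * g) = f g}
      one_mem' := by
        show ∀ᵐ g ∂hG, f (1 * g) = f g
        refine Eventually.of_forall fun g => ?_
        rw [one_mul]
      mul_mem' := by
        intro a b ha hb
        show ∀ᵐ g ∂hG, f (a * b * g) = f g
        filter_upwards [ae_mul_left b ha, hb] with g h1 h2
        rw [mul_assoc, h1, h2]
      inv_mem' := by
        intro a ha
        show ∀ᵐ g ∂hG, f (a⁻¹ * g) = f g
        filter_upwards [ae_mul_left a⁻¹ ha] with g h1
        rw [← h1, mul_inv_cancel_left] }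
  have hH : H = ⊤ := subgroup_eq_top H h
  have h1 : ∀ a : G, ∀ᵐ g ∂hG, f (a * g) = f g := by
    intro a
    have : a ∈ H := by rw [hH]; trivial
    exact this
  have hmeas : MeasurableSet {x : G × G | f (x.1 * x.2) = f x.2} :=
    measurableSet_eq_fun (hf.comp measurable_mul) (hf.comp measurable_snd)
  have h2 : ∀ᵐ g ∂hG, ∀ᵐ a ∂hG, f (a * g) = f g :=
    (Measure.ae_ae_comm hmeas).1 (Eventually.of_forall h1)
  obtain ⟨g, hg⟩ := h2.exists
  refine ⟨f g, ?_⟩
  filter_upwards [ae_mul_right g⁻¹ hg] with a ha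
  rw [← ha, inv_mul_cancel_right]

/-- ERG for sets: an almost invariant set of positive measure has full measure. -/
theorem erg_set (S : Set G) (hS : MeasurableSet S) (hpos : hG S ≠ 0)
    (h : ∀ (i l : Fin 3) (hil : i ≠ l) (s : ℝ), ∀ᵐ g ∂hG, g ∈ S → U i l hil s * g ∈ S) :
    ∀ᵐ g ∂hG, g ∈ S := by
  classical
  obtain ⟨c, hc⟩ := erg_fun (S.indicator (fun _ => (1 : ℝ))) (measurable_const.indicator hS) (by
    intro i l hil s
    filter_upwards [h i l hil s, ae_mul_left (U i l hil s) (h i l hil (-s))] with g h1 h2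
    by_cases hg : g ∈ S
    · rw [Set.indicator_of_mem hg, Set.indicator_of_mem (h1 hg)]
    · have h3 : U i l hil s * g ∉ S := by
        intro h4
        have h5 := h2 h4
        rw [← mul_assoc, U_neg, inv_mul_cancel, one_mul] at h5
        exact hg h5
      rw [Set.indicator_of_notMem hg, Set.indicator_of_notMem h3])
  by_cases hc1 : c = 1
  · filter_upwards [hc] with g hg
    by_contra h1
    rw [Set.indicator_of_notMem h1, hc1] at hg
    exact zero_ne_one hg
  · exfalso
    apply hpos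
    have h2 : ∀ᵐ g ∂hG, g ∉ S := by
      filter_upwards [hc] with g hg h1
      rw [Set.indicator_of_mem h1] at hg
      exact hc1 hg.symm
    rw [ae_iff] at h2
    simpa using h2

end Pool.Agent.H88.LF

end S_H88_LF_GBE
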