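import Mathlib
import Pool.Agent.H88.LG.M00

set_option autoImplicit false

/-! Locally free actions of SL(3,R) on compact 9-manifolds, file M02: this file joins several modules to save build time. -/

section S_H88_LF_ALGA

/-!
# ALGA: conjugation stable data used in ALG
-/

set_option autoImplicit false

open Set Filter
open scoped Topology

namespace Pool.Agent.H88.LF

theorem alg_cval : Continuous (fun g : G => g.1) := closedEmb_val.continuous

theorem alg_vinv (g : G) : g.1 * (g⁻¹).1 = 1 := by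
  have h : (g * g⁻¹).1 = (1 : G).1 := by rw [mul_inv_cancel]
  rwa [Matrix.SpecialLinearGroup.coe_mul, Matrix.SpecialLinearGroup.coe_one] at h

theorem alg_invv (g : G) : (g⁻¹).1 * g.1 = 1 := by
  have h : (g⁻¹ * g).1 = (1 : G).1 := by rw [inv_mul_cancel]
  rwa [Matrix.SpecialLinearGroup.coe_mul, Matrix.SpecialLinearGroup.coe_one] at h

theorem alg_mulv (g h : G) : (g * h).1 = g.1 * h.1 := Matrix.SpecialLinearGroup.coe_mul g h

theorem alg_onev : (1 : G).1 = (1 : Mat) := Matrix.SpecialLinearGroup.coe_one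

/-- If `g.1 * M = 1` then `M` is the inverse. -/
theorem alg_inv_eq (g : G) (M : Mat) (h : g.1 * M = 1) : (g⁻¹).1 = M := by
  calc (g⁻¹).1 = (g⁻¹).1 * (g.1 * M) := by rw [h, mul_one]
    _ = M := by rw [← mul_assoc, alg_invv, one_mul]

theorem alg_nd_cont : Continuous nd := by
  unfold nd nrm
  refine continuous_finsetSum _ fun i _ => continuous_finsetSum _ fun j _ => ?_
  refine Continuous.abs ?_
  have h : Continuous (fun g : G => g.1 - (1 : Mat)) := alg_cval.sub continuous_const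
  exact (continuous_apply j).comp ((continuous_apply i).comp h)

/-- Everything that is used about `Λ`; stable under conjugation. -/
structure AlgGood (L : Subgroup G) (A : G → ℝ → ℝ) (S : Submodule ℝ Mat) : Prop where
  hA : ∀ h ∈ L, ∃ a b : ℝ, a ≠ 0 ∧ ∀ s, A h s = a * s + b
  hmul : ∀ h ∈ L, ∀ h' ∈ L, ∀ s, A (h * h') s = A h (A h' s)
  hi : ∃ U ∈ 𝓝 (1 : G), ∀ h ∈ L, (∃ s, A h s = s) → ∀ g : G, g * h * g⁻¹ ∈ U → h = 1
  hK : ∃ K : Set G, IsCompact K ∧ ∀ g : G, ∃ p ∈ K, p * g ∈ L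
  comm : ∀ Z ∈ S, ∀ W ∈ S, Z * W = W * Z
  inv : ∀ h ∈ L, ∀ Z ∈ S, h.1 * Z * (h⁻¹).1 ∈ S
  span : S ≤ Submodule.span ℝ {Z : Mat | Z ∈ S ∧ ∃ h ∈ L, Z = h.1 - 1}
  small : ∃ U ∈ 𝓝 (1 : G), ∀ h ∈ L, h ∈ U → h.1 - 1 ∈ S
  ne : ∃ h ∈ L, h ≠ 1 ∧ h.1 - 1 ∈ S

/-- conjugation as a linear map -/
def algConj (g : G) : Mat →ₗ[ℝ] Mat where
  toFun Z := g.1 * Z * (g⁻¹).1
  map_add' Z W := by rw [mul_add, add_mul]
  map_smul' c Z := by simp

theorem algConj_apply (g : G) (Z : Mat) : algConj g Z = g.1 * Z * (g⁻¹).1 := rfl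

theorem algConj_mul (g h : G) (Z : Mat) : algConj (g * h) Z = algConj g (algConj h Z) := by
  rw [algConj_apply, algConj_apply, algConj_apply, mul_inv_rev, alg_mulv, alg_mulv]
  simp only [mul_assoc]

theorem algConj_one (Z : Mat) : algConj 1 Z = Z := by
  rw [algConj_apply, inv_one, alg_onev, one_mul, mul_one]

theorem algConj_sub_one (g h : G) : algConj g (h.1 - 1) = (g * h * g⁻¹).1 - 1 := by
  rw [algConj_apply, mul_sub, sub_mul, mul_one, alg_vinv, alg_mulv, alg_mulv]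

theorem algConj_prod (g : G) (Z W : Mat) : algConj g (Z * W) = algConj g Z * algConj g W := by
  rw [algConj_apply, algConj_apply, algConj_apply]
  calc g.1 * (Z * W) * (g⁻¹).1 = g.1 * Z * 1 * W * (g⁻¹).1 := by simp only [mul_one, mul_assoc]
    _ = g.1 * Z * ((g⁻¹).1 * g.1) * W * (g⁻¹).1 := by rw [alg_invv]
    _ = _ := by simp only [mul_assoc]

theorem algConj_inv_cancel (g : G) (Z : Mat) : algConj g (algConj g⁻¹ Z) = Z := by
  rw [← algConj_mul, mul_inv_cancel, algConj_one]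

theorem algConj_inv_cancel' (g : G) (Z : Mat) : algConj g⁻¹ (algConj g Z) = Z := by
  rw [← algConj_mul, inv_mul_cancel, algConj_one]

theorem alg_conj_cont (g : G) : Continuous (fun h : G => g * h * g⁻¹) := by fun_prop

theorem alg_conj_nhds (g : G) {U : Set G} (hU : U ∈ 𝓝 (1 : G)) :
    {h : G | g * h * g⁻¹ ∈ U} ∈ 𝓝 (1 : G) := by
  have h1 : Tendsto (fun h : G => g * h * g⁻¹) (𝓝 1) (𝓝 (g * 1 * g⁻¹)) :=
    (alg_conj_cont g).tendsto 1
  rw [mul_one, mul_inv_cancel] at h1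
  exact h1 hU

/-- Conjugation stability. -/
theorem AlgGood.conj {L : Subgroup G} {A : G → ℝ → ℝ} {S : Submodule ℝ Mat}
    (H : AlgGood L A S) (g0 : G) :
    AlgGood (L.comap (MulAut.conj g0⁻¹).toMonoidHom) (fun h => A (g0⁻¹ * h * g0))
      (S.comap (algConj g0⁻¹)) := by
  have hmem : ∀ h : G, h ∈ L.comap (MulAut.conj g0⁻¹).toMonoidHom ↔ g0⁻¹ * h * g0 ∈ L := by
    intro h
    rw [Subgroup.mem_comap]
    simp
  have hSmem : ∀ Z : Mat, Z ∈ S.comap (algConj g0⁻¹) ↔ algConj g0⁻¹ Z ∈ S := fun Z => Iff.rfl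
  have hinvc : ∀ h : G, algConj g0⁻¹ (h.1 - 1) = (g0⁻¹ * h * g0).1 - 1 := by
    intro h
    rw [algConj_sub_one, inv_inv]
  refine ⟨?_, ?_, ?_, ?_, ?_, ?_, ?_, ?_, ?_⟩
  · intro h hh
    exact H.hA _ ((hmem h).1 hh)
  · intro h hh h' hh' s
    have := H.hmul _ ((hmem h).1 hh) _ ((hmem h').1 hh') s
    show A (g0⁻¹ * (h * h') * g0) s = A (g0⁻¹ * h * g0) (A (g0⁻¹ * h' * g0) s)
    rw [← this]
    congr 1
    group
  · obtain ⟨U, hU, hU2⟩ := H.hi
    refine ⟨U, hU, ?_⟩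
    intro h hh hfix g hg
    have h1 := hU2 _ ((hmem h).1 hh) hfix (g * g0) (by
      have : g * g0 * (g0⁻¹ * h * g0) * (g * g0)⁻¹ = g * h * g⁻¹ := by group
      rw [this]; exact hg)
    calc h = g0 * (g0⁻¹ * h * g0) * g0⁻¹ := by group
      _ = 1 := by rw [h1]; group
  · obtain ⟨K, hK, hK2⟩ := H.hK
    refine ⟨(fun p => g0 * p) '' K, hK.image (by fun_prop), ?_⟩
    intro g
    obtain ⟨p, hp, hpg⟩ := hK2 (g * g0)
    refine ⟨g0 * p, ⟨p, hp, rfl⟩, ?_⟩
    rw [hmem]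
    have : g0⁻¹ * (g0 * p * g) * g0 = p * (g * g0) := by group
    rw [this]; exact hpg
  · intro Z hZ W hW
    have h1 := H.comm _ ((hSmem Z).1 hZ) _ ((hSmem W).1 hW)
    rw [← algConj_prod, ← algConj_prod] at h1
    have h2 := congrArg (algConj g0) h1
    rwa [algConj_inv_cancel, algConj_inv_cancel] at h2
  · intro h hh Z hZ
    have h1 := H.inv _ ((hmem h).1 hh) _ ((hSmem Z).1 hZ)
    rw [← algConj_apply] at h1
    rw [← algConj_apply, hSmem, ← algConj_mul]
    rw [← algConj_mul] at h1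
    have : g0⁻¹ * h * g0 * g0⁻¹ = g0⁻¹ * h := by group
    rwa [this] at h1
  · intro Z hZ
    have h1 : ∀ Y ∈ Submodule.span ℝ {Z : Mat | Z ∈ S ∧ ∃ h ∈ L, Z = h.1 - 1},
        algConj g0 Y ∈ Submodule.span ℝ {Z : Mat | Z ∈ S.comap (algConj g0⁻¹) ∧
          ∃ h ∈ L.comap (MulAut.conj g0⁻¹).toMonoidHom, Z = h.1 - 1} := by
      intro Y hY
      induction hY using Submodule.span_induction with
      | mem Y hY =>
        obtain ⟨hYS, h, hh, rfl⟩ := hY
        apply Submodule.subset_span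
        refine ⟨?_, g0 * h * g0⁻¹, ?_, algConj_sub_one g0 h⟩
        · rw [hSmem, algConj_inv_cancel']; exact hYS
        · rw [hmem]
          have : g0⁻¹ * (g0 * h * g0⁻¹) * g0 = h := by group
          rw [this]; exact hh
      | zero => rw [map_zero]; exact Submodule.zero_mem _
      | add x y _ _ hx hy => rw [map_add]; exact Submodule.add_mem _ hx hy
      | smul a x _ hx => rw [map_smul]; exact Submodule.smul_mem _ a hx
    have h2 := h1 _ (H.span ((hSmem Z).1 hZ))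
    rwa [algConj_inv_cancel] at h2
  · obtain ⟨U, hU, hU2⟩ := H.small
    refine ⟨{h | g0⁻¹ * h * (g0⁻¹)⁻¹ ∈ U}, alg_conj_nhds g0⁻¹ hU, ?_⟩
    intro h hh hhU
    rw [hSmem, hinvc]
    refine hU2 _ ((hmem h).1 hh) ?_
    have h3 : g0⁻¹ * h * (g0⁻¹)⁻¹ ∈ U := hhU
    rwa [inv_inv] at h3
  · obtain ⟨h, hh, hne, hS⟩ := H.ne
    refine ⟨g0 * h * g0⁻¹, ?_, ?_, ?_⟩
    · rw [hmem]
      have : g0⁻¹ * (g0 * h * g0⁻¹) * g0 = h := by group
      rw [this]; exact hh
    · intro h1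
      apply hne
      calc h = g0⁻¹ * (g0 * h * g0⁻¹) * g0 := by group
        _ = 1 := by rw [h1]; group
    · rw [hSmem, hinvc]
      have : g0⁻¹ * (g0 * h * g0⁻¹) * g0 = h := by group
      rw [this]; exact hS

end Pool.Agent.H88.LF

end S_H88_LF_ALGA

section S_H88_LF_ALGB

/-!
# ALGB: a conjugate of the nilpotent elementary matrix lies in `S`; shape of `S`
-/

set_option autoImplicit false

open Set Filter
open scoped Topology

namespace Pool.Agent.H88.LF

/-- The elementary matrix. -/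
def algE : Mat := !![0, 0, 1; 0, 0, 0; 0, 0, 0]

theorem AlgGood.seq {L : Subgroup G} {A : G → ℝ → ℝ} {S : Submodule ℝ Mat}
    (H : AlgGood L A S) (g : ℕ → G) :
    ∃ (p : G) (φ : ℕ → ℕ) (P : ℕ → G), StrictMono φ ∧ (∀ n, P n * g (φ n) ∈ L) ∧
      Tendsto P atTop (𝓝 p) := by
  obtain ⟨K, hK, h⟩ := H.hK
  choose P0 hP0 hP1 using fun n => h (g n)
  obtain ⟨p, _, φ, hφ, ht⟩ := hK.tendsto_subseq hP0
  exact ⟨p, φ, P0 ∘ φ, hφ, fun n => hP1 (φ n), ht⟩

/-- limit of entries -/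
theorem alg_entry_lim {P : ℕ → G} {p : G} (h : Tendsto P atTop (𝓝 p)) (i j : Fin 3) :
    Tendsto (fun n => (P n).1 i j) atTop (𝓝 (p.1 i j)) := by
  have h1 : Tendsto (fun n => (P n).1) atTop (𝓝 p.1) := (alg_cval.tendsto p).comp h
  have h2 : Continuous (fun M : Mat => M i j) := (continuous_apply j).comp (continuous_apply i)
  exact (h2.tendsto p.1).comp h1

theorem alg_mul_apply (M N : Mat) (i j : Fin 3) :
    (M * N) i j = M i 0 * N 0 j + M i 1 * N 1 j + M i 2 * N 2 j := by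
  rw [Matrix.mul_apply, Fin.sum_univ_three]

/-- A matrix all of whose conjugates have vanishing lower left entry is scalar. -/
theorem alg_scalar (Z : Mat)
    (H : ∀ g g' : Mat, g.det = 1 → g * g' = 1 → (g * Z * g') 2 0 = 0) :
    Z = Z 0 0 • (1 : Mat) := by
  have e1 := H 1 1 (by simp) (by simp)
  have h1 := H (!![0, 0, 1; 1, 0, 0; 0, 1, 0]) (!![0, 1, 0; 0, 0, 1; 1, 0, 0])
    (by simp [Matrix.det_fin_three])
    (by ext i j; rw [alg_mul_apply]; fin_cases i <;> fin_cases j <;> simp)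
  have h2 := H (!![0, 1, 0; 0, 0, 1; 1, 0, 0]) (!![0, 0, 1; 1, 0, 0; 0, 1, 0])
    (by simp [Matrix.det_fin_three])
    (by ext i j; rw [alg_mul_apply]; fin_cases i <;> fin_cases j <;> simp)
  have h3 := H (!![0, 0, 1; 0, -1, 0; 1, 0, 0]) (!![0, 0, 1; 0, -1, 0; 1, 0, 0])
    (by simp [Matrix.det_fin_three])
    (by ext i j; rw [alg_mul_apply]; fin_cases i <;> fin_cases j <;> simp)
  have h4 := H (!![0, 1, 0; 1, 0, 0; 0, 0, -1]) (!![0, 1, 0; 1, 0, 0; 0, 0, -1])
    (by simp [Matrix.det_fin_three])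
    (by ext i j; rw [alg_mul_apply]; fin_cases i <;> fin_cases j <;> simp)
  have h5 := H (!![-1, 0, 0; 0, 0, 1; 0, 1, 0]) (!![-1, 0, 0; 0, 0, 1; 0, 1, 0])
    (by simp [Matrix.det_fin_three])
    (by ext i j; rw [alg_mul_apply]; fin_cases i <;> fin_cases j <;> simp)
  have h6 := H (!![1, 0, 0; 0, 1, 0; 1, 0, 1]) (!![1, 0, 0; 0, 1, 0; -1, 0, 1])
    (by simp [Matrix.det_fin_three])
    (by ext i j; rw [alg_mul_apply]; fin_cases i <;> fin_cases j <;> simp)
  have h7 := H (!![1, 0, 0; 0, 0, -1; 1, 1, 0]) (!![1, 0, 0; -1, 0, 1; 0, -1, 0])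
    (by simp [Matrix.det_fin_three])
    (by ext i j; rw [alg_mul_apply]; fin_cases i <;> fin_cases j <;> simp)
  simp only [alg_mul_apply] at h1 h2 h3 h4 h5 h6 h7
  simp at e1 h1 h2 h3 h4 h5 h6 h7
  ext i j
  rw [Matrix.smul_apply, Matrix.one_apply, smul_eq_mul]
  fin_cases i <;> fin_cases j <;> simp <;> linarith

theorem algE_sq : algE * algE = 0 := by
  ext i j; rw [alg_mul_apply]; fin_cases i <;> fin_cases j <;> simp [algE]

theorem algE_mid (Y : Mat) : algE * Y * algE = Y 2 0 • algE := by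
  ext i j; simp only [alg_mul_apply]; fin_cases i <;> fin_cases j <;> simp [algE]

/-- `1 + t E` -/
def algU (t : ℝ) : G := ⟨1 + t • algE, by rw [Matrix.det_fin_three]; simp [algE]⟩

theorem algU_val (t : ℝ) : (algU t).1 = 1 + t • algE := rfl

theorem algU_inv (t : ℝ) : ((algU t)⁻¹).1 = 1 - t • algE := by
  apply alg_inv_eq
  rw [algU_val, mul_sub, mul_one, add_mul, one_mul, Matrix.mul_smul, Matrix.smul_mul, algE_sq,
    smul_zero, smul_zero, add_zero, add_sub_cancel_right]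

theorem algU_conj (t : ℝ) (Y : Mat) :
    algConj (algU t) Y = Y + t • (algE * Y - Y * algE) - t ^ 2 • (algE * Y * algE) := by
  rw [algConj_apply, algU_inv, algU_val, add_mul, one_mul, mul_sub, mul_one, add_mul, smul_sub]
  simp only [Matrix.smul_mul, Matrix.mul_smul, smul_smul, pow_two]
  abel

theorem alg_F_cont (Y : Mat) : Continuous (fun z : G × ℝ =>
    algConj z.1 (z.2 ^ 2 • Y + z.2 • (algE * Y - Y * algE) - algE * Y * algE)) := by
  have c1 : Continuous (fun z : G × ℝ => z.1.1) := alg_cval.comp continuous_fst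
  have c2 : Continuous (fun z : G × ℝ => (z.1⁻¹).1) :=
    alg_cval.comp (continuous_inv.comp continuous_fst)
  have c3 : Continuous (fun z : G × ℝ => (z.2 ^ 2 • Y + z.2 • (algE * Y - Y * algE)
    - algE * Y * algE)) := by fun_prop
  exact (c1.mul c3).mul c2

theorem alg_not_scalar (h : G) (hne : h ≠ 1) :
    ∃ g g' : Mat, g.det = 1 ∧ g * g' = 1 ∧ (g * (h.1 - 1) * g') 2 0 ≠ 0 := by
  by_contra hcon
  push Not at hcon
  have hsc := alg_scalar (h.1 - 1) hcon
  set c : ℝ := (h.1 - 1) 0 0 with hc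
  have hval : h.1 = (1 + c) • (1 : Mat) := by
    rw [add_smul, one_smul, ← hsc]; abel
  have hdet : h.1.det = 1 := h.2
  rw [hval, Matrix.det_smul, Matrix.det_one, mul_one, Fintype.card_fin] at hdet
  have h1 : 1 + c = 1 := by
    have : (1 + c) ^ 3 = 1 ^ 3 := by rw [hdet]; norm_num
    exact (Odd.strictMono_pow (by decide : Odd 3)).injective this
  apply hne
  apply Subtype.ext
  rw [hval, h1, one_smul]
  rfl

/-- Step 4: a conjugate of `E` lies in `S`. -/
theorem AlgGood.nilp {L : Subgroup G} {A : G → ℝ → ℝ} {S : Submodule ℝ Mat}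
    (H : AlgGood L A S) : ∃ q : G, algConj q algE ∈ S := by
  obtain ⟨h, hh, hne, hS⟩ := H.ne
  obtain ⟨g, g', hg, hgg, hne2⟩ := alg_not_scalar h hne
  generalize h.1 - 1 = Z at hS hne2
  obtain ⟨γ, hγ⟩ : ∃ γ : G, γ.1 = g := ⟨⟨g, hg⟩, rfl⟩
  have hγi : (γ⁻¹).1 = g' := alg_inv_eq γ g' (by rw [hγ]; exact hgg)
  obtain ⟨Y, hY⟩ : ∃ Y : Mat, Y = g * Z * g' := ⟨_, rfl⟩
  rw [← hY] at hne2
  have hYc : algConj γ Z = Y := by rw [algConj_apply, hγi, hγ, hY]
  obtain ⟨p, φ, P, hφ, hP, hlim⟩ := H.seq (fun n => algU ((n : ℝ) + 1) * γ)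
  have hxlim : Tendsto (fun n => 1 / ((φ n : ℝ) + 1)) atTop (𝓝 0) :=
    (tendsto_one_div_add_atTop_nhds_zero_nat).comp hφ.tendsto_atTop
  have hlim2 := ((alg_F_cont Y).tendsto (p, 0)).comp (hlim.prodMk_nhds hxlim)
  have hmem : ∀ n, algConj (P n) ((1 / ((φ n : ℝ) + 1)) ^ 2 • Y + (1 / ((φ n : ℝ) + 1)) •
      (algE * Y - Y * algE) - algE * Y * algE) ∈ S := by
    intro n
    have h1 := H.inv _ (hP n) Z hS
    have ht0 : ((φ n : ℝ) + 1) ≠ 0 := by positivity
    generalize ((φ n : ℝ) + 1) = t at ht0 h1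
    rw [← algConj_apply, ← mul_assoc, algConj_mul, hYc, algConj_mul, algU_conj] at h1
    have h2 : Y + t • (algE * Y - Y * algE) - t ^ 2 • (algE * Y * algE) =
      t ^ 2 • ((1 / t) ^ 2 • Y + (1 / t) • (algE * Y - Y * algE) - algE * Y * algE) := by
      have e1 : t ^ 2 * (1 / t) ^ 2 = 1 := by field_simp
      have e2 : t ^ 2 * (1 / t) = t := by field_simp
      rw [smul_sub (t ^ 2), smul_add, smul_smul, smul_smul, e1, e2, one_smul]
    rw [h2, map_smul] at h1
    have h3 := S.smul_mem (t ^ 2)⁻¹ h1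
    rwa [smul_smul, inv_mul_cancel₀ (pow_ne_zero 2 ht0), one_smul] at h3
  have hcl : IsClosed (S : Set Mat) := S.closed_of_finiteDimensional
  have hfin : algConj p ((0 : ℝ) ^ 2 • Y + (0 : ℝ) • (algE * Y - Y * algE) - algE * Y * algE) ∈
      S := hcl.mem_of_tendsto hlim2 (Eventually.of_forall hmem)
  have h4 : (0 : ℝ) ^ 2 • Y + (0 : ℝ) • (algE * Y - Y * algE) - algE * Y * algE =
      (- Y 2 0) • algE := by
    rw [algE_mid, zero_smul, zero_pow (two_ne_zero), zero_smul, neg_smul, add_zero, zero_sub]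
  rw [h4, map_smul] at hfin
  refine ⟨p, ?_⟩
  have h5 := S.smul_mem (- Y 2 0)⁻¹ hfin
  rwa [smul_smul, inv_mul_cancel₀ (neg_ne_zero.2 hne2), one_smul] at h5

end Pool.Agent.H88.LF

end S_H88_LF_ALGB

section S_H88_LF_ALGC

/-!
# ALGC: if `E ∈ S` then `S` consists of strictly upper triangular matrices with `p q = 0`
-/

set_option autoImplicit false

open Set Filter
open scoped Topology

namespace Pool.Agent.H88.LF

theorem AlgGood.shape {L : Subgroup G} {A : G → ℝ → ℝ} {S : Submodule ℝ Mat}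
    (H : AlgGood L A S) (hE : algE ∈ S) {Z : Mat} (hZ : Z ∈ S) :
    Z 1 0 = 0 ∧ Z 2 0 = 0 ∧ Z 2 1 = 0 ∧ Z 2 2 = Z 0 0 := by
  have h := H.comm Z hZ algE hE
  have h1 := congrFun (congrFun h 1) 2
  have h2 := congrFun (congrFun h 2) 2
  have h3 := congrFun (congrFun h 0) 1
  have h4 := congrFun (congrFun h 0) 2
  simp only [alg_mul_apply] at h1 h2 h3 h4
  simp [algE] at h1 h2 h3 h4
  exact ⟨h1, h2, h3.symm, h4.symm⟩

theorem alg_det_upper {Z : Mat} (h1 : Z 1 0 = 0) (h2 : Z 2 0 = 0) (h3 : Z 2 1 = 0) :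
    Z.det = Z 0 0 * Z 1 1 * Z 2 2 := by
  rw [Matrix.det_fin_three, h1, h2, h3]; ring

theorem algConj_det (g : G) (Z : Mat) : (algConj g Z).det = Z.det := by
  have h1 : g.1.det = 1 := g.2
  have h2 : (g⁻¹).1.det = 1 := (g⁻¹).2
  rw [algConj_apply, Matrix.det_mul, Matrix.det_mul, h1, h2]; ring

theorem algConj_trace (g : G) (Z : Mat) : (algConj g Z).trace = Z.trace := by
  rw [algConj_apply, Matrix.trace_mul_comm, ← mul_assoc, alg_invv, one_mul]

theorem algConj_id (g : G) : algConj g 1 = 1 := by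
  rw [algConj_apply, mul_one, alg_vinv]

/-- The matrix `1 + t E10`. -/
def algV (t : ℝ) : G := ⟨!![1, 0, 0; t, 1, 0; 0, 0, 1], by rw [Matrix.det_fin_three]; simp⟩

theorem algV_inv (t : ℝ) : ((algV t)⁻¹).1 = !![1, 0, 0; -t, 1, 0; 0, 0, 1] := by
  apply alg_inv_eq
  ext i j; rw [alg_mul_apply]; fin_cases i <;> fin_cases j <;> simp [algV]

theorem algV_conj (t : ℝ) (M : Mat) :
    algConj (algV t) M 1 0 = M 1 0 + t * M 0 0 - t * (M 1 1 + t * M 0 1) := by
  rw [algConj_apply, algV_inv]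
  simp only [alg_mul_apply]
  simp [algV]
  ring

theorem algConj_lim {P : ℕ → G} {p : G} (h : Tendsto P atTop (𝓝 p)) (M : Mat) (i j : Fin 3) :
    Tendsto (fun n => algConj (P n) M i j) atTop (𝓝 (algConj p M i j)) := by
  have c1 : Continuous (fun z : G => algConj z M) :=
    (alg_cval.mul continuous_const).mul (alg_cval.comp continuous_inv)
  have h2 : Continuous (fun M : Mat => M i j) := (continuous_apply j).comp (continuous_apply i)
  exact ((h2.comp c1).tendsto p).comp h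

/-- eigenvalues are preserved -/
theorem AlgGood.eig {L : Subgroup G} {A : G → ℝ → ℝ} {S : Submodule ℝ Mat}
    (H : AlgGood L A S) (hE : algE ∈ S) {Z : Mat} (hZ : Z ∈ S) (hne : Z 1 1 ≠ Z 0 0)
    {k : G} (hk : k ∈ L) :
    (algConj k Z) 0 0 = Z 0 0 ∧ (algConj k Z) 1 1 = Z 1 1 := by
  have hZ' : algConj k Z ∈ S := H.inv k hk Z hZ
  obtain ⟨a1, a2, a3, a4⟩ := H.shape hE hZ
  obtain ⟨b1, b2, b3, b4⟩ := H.shape hE hZ'
  have hdet : ∀ x : ℝ, (algConj k Z - x • 1).det = (Z - x • 1).det := by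
    intro x
    rw [← algConj_det k (Z - x • 1), map_sub, map_smul, algConj_id]
  have htr := algConj_trace k Z
  rw [Matrix.trace_fin_three, Matrix.trace_fin_three] at htr
  have hdet' : ∀ x : ℝ, ((algConj k Z) 0 0 - x) * ((algConj k Z) 1 1 - x) *
      ((algConj k Z) 2 2 - x) = (Z 0 0 - x) * (Z 1 1 - x) * (Z 2 2 - x) := by
    intro x
    have := hdet x
    rw [alg_det_upper, alg_det_upper] at this
    · simpa [Matrix.sub_apply, Matrix.smul_apply] using this
    all_goals simp [a1, a2, a3, b1, b2, b3]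
  generalize algConj k Z 0 0 = c' at *
  generalize algConj k Z 1 1 = d' at *
  have e1 := hdet' (Z 0 0)
  have e2 := hdet' (Z 1 1)
  rw [b4, a4] at e1 e2 htr
  generalize Z 0 0 = c at *
  generalize Z 1 1 = d at *
  have e1' : (c' - c) * ((d' - c) * (c' - c)) = 0 := by linear_combination e1
  have e2' : (c' - d) * ((d' - d) * (c' - d)) = 0 := by linear_combination e2
  by_cases hc : c' = c
  · refine ⟨hc, ?_⟩
    subst hc; linarith
  · exfalso
    have h1 : c' - c ≠ 0 := sub_ne_zero.2 hc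
    have h2 : d' - c = 0 := by
      rcases mul_eq_zero.1 e1' with h | h
      · exact absurd h h1
      · rcases mul_eq_zero.1 h with h | h
        · exact h
        · exact absurd h h1
    have h3 : d' = c := by linarith
    subst h3
    have h4 : d' - d ≠ 0 := sub_ne_zero.2 (Ne.symm hne)
    have h5 : c' - d = 0 := by
      rcases mul_eq_zero.1 e2' with h | h
      · exact h
      · rcases mul_eq_zero.1 h with h | h
        · exact absurd h h4
        · exact h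
    apply hne
    linarith

/-- Step 5, first part. -/
theorem AlgGood.cd {L : Subgroup G} {A : G → ℝ → ℝ} {S : Submodule ℝ Mat}
    (H : AlgGood L A S) (hE : algE ∈ S) {Z : Mat} (hZ : Z ∈ S) : Z 1 1 = Z 0 0 := by
  by_contra hne
  obtain ⟨a1, a2, a3, a4⟩ := H.shape hE hZ
  set W : Mat := Z - Z 0 0 • 1 with hW
  have hfix : ∀ k ∈ L, algConj k (W * W) = W * W := by
    intro k hk
    have hZ' : algConj k Z ∈ S := H.inv k hk Z hZ
    obtain ⟨b1, b2, b3, b4⟩ := H.shape hE hZ'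
    obtain ⟨c1, c2⟩ := H.eig hE hZ hne hk
    have hc := H.comm Z hZ _ hZ'
    have hc01 := congrFun (congrFun hc 0) 1
    have hc12 := congrFun (congrFun hc 1) 2
    rw [alg_mul_apply, alg_mul_apply] at hc01 hc12
    rw [algConj_prod, hW, map_sub, map_smul, algConj_id]
    generalize algConj k Z = Z' at *
    rw [a3, b3, c1, c2] at hc01
    rw [a1, b1, c2, b4, c1, a4] at hc12
    have p1 : Z' 0 1 = Z 0 1 := by
      have : (Z 0 0 - Z 1 1) * (Z' 0 1 - Z 0 1) = 0 := by linear_combination hc01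
      rcases mul_eq_zero.1 this with h | h
      · exact absurd (by linarith) hne
      · linarith
    have p2 : Z' 1 2 = Z 1 2 := by
      have : (Z 1 1 - Z 0 0) * (Z' 1 2 - Z 1 2) = 0 := by linear_combination hc12
      rcases mul_eq_zero.1 this with h | h
      · exact absurd (by linarith) hne
      · linarith
    ext i j
    rw [alg_mul_apply, alg_mul_apply]
    fin_cases i <;> fin_cases j <;>
      simp [a1, a2, a3, a4, b1, b2, b3, b4, c1, c2, p1, p2]
  obtain ⟨σ, hσ1, hσ2⟩ : ∃ σ : ℝ, σ ^ 2 = 1 ∧ 0 ≤ σ * (Z 0 1 * (Z 1 1 - Z 0 0)) := by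
    rcases le_total 0 (Z 0 1 * (Z 1 1 - Z 0 0)) with h | h
    · exact ⟨1, by norm_num, by linarith⟩
    · exact ⟨-1, by norm_num, by linarith⟩
  obtain ⟨p, φ, P, hφ, hP, hlim⟩ := H.seq (fun n => algV (σ * ((n : ℝ) + 1)))
  have hconj : ∀ n, algConj (P n)⁻¹ (W * W) 1 0 =
      algConj (algV (σ * ((φ n : ℝ) + 1))) (W * W) 1 0 := by
    intro n
    have h1 := hfix _ (hP n)
    rw [algConj_mul] at h1
    rw [← h1, algConj_inv_cancel', h1]
  have hlim2 := algConj_lim (hlim.inv) (W * W) 1 0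
  have hlim3 := hlim2.pow 2
  have hδ : 0 < (Z 1 1 - Z 0 0) ^ 2 := by
    have : Z 1 1 - Z 0 0 ≠ 0 := sub_ne_zero.2 hne
    positivity
  have hW00 : (W * W) 0 0 = 0 := by rw [alg_mul_apply]; simp [hW, a1, a2]
  have hW10 : (W * W) 1 0 = 0 := by rw [alg_mul_apply]; simp [hW, a1, a2]
  have hW11 : (W * W) 1 1 = (Z 1 1 - Z 0 0) ^ 2 := by
    rw [alg_mul_apply]; simp [hW, a1, a3]; ring
  have hW01 : (W * W) 0 1 = Z 0 1 * (Z 1 1 - Z 0 0) := by
    rw [alg_mul_apply]; simp [hW, a3]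
  refine not_tendsto_nhds_of_tendsto_atTop ?_ _ hlim3
  have hmono : ∀ n, ((φ n : ℝ) + 1) * ((Z 1 1 - Z 0 0) ^ 2) ^ 2 ≤
      (algConj (P⁻¹ n) (W * W) 1 0) ^ 2 := by
    intro n
    rw [Pi.inv_apply, hconj n, algV_conj, hW00, hW10, hW11, hW01]
    have ht : 1 ≤ (φ n : ℝ) + 1 := by
      have : (0 : ℝ) ≤ φ n := Nat.cast_nonneg _
      linarith
    generalize (φ n : ℝ) + 1 = t at ht
    generalize (Z 1 1 - Z 0 0) ^ 2 = D at hδ
    generalize Z 0 1 * (Z 1 1 - Z 0 0) = B at hσ2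
    have e : (0 + σ * t * 0 - σ * t * (D + σ * t * B)) ^ 2 =
        t ^ 2 * (D + t * (σ * B)) ^ 2 := by
      linear_combination (t ^ 2 * (D + t * (σ * B)) ^ 2) * hσ1
    rw [e]
    have h1 : D ≤ D + t * (σ * B) := by
      have : 0 ≤ t * (σ * B) := mul_nonneg (by linarith) hσ2
      linarith
    have h2 : D ^ 2 ≤ (D + t * (σ * B)) ^ 2 := pow_le_pow_left₀ hδ.le h1 2
    have h3 : t ≤ t ^ 2 := by nlinarith
    exact mul_le_mul h3 h2 (by positivity) (by positivity)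
  refine tendsto_atTop_mono hmono ?_
  have h4 : Tendsto (fun n => ((φ n : ℝ) + 1)) atTop atTop :=
    tendsto_atTop_add_const_right _ _ (tendsto_natCast_atTop_atTop.comp hφ.tendsto_atTop)
  exact h4.atTop_mul_const (by positivity)

/-- Step 5: `S` is strictly upper triangular. -/
theorem AlgGood.strict {L : Subgroup G} {A : G → ℝ → ℝ} {S : Submodule ℝ Mat}
    (H : AlgGood L A S) (hE : algE ∈ S) {Z : Mat} (hZ : Z ∈ S) :
    Z 0 0 = 0 ∧ Z 1 1 = 0 ∧ Z 2 2 = 0 := by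
  have h1 : ∀ Z ∈ Submodule.span ℝ {Z : Mat | Z ∈ S ∧ ∃ h ∈ L, Z = h.1 - 1}, Z 0 0 = 0 := by
    intro Y hY
    induction hY using Submodule.span_induction with
    | mem Y hY =>
      obtain ⟨hYS, h, hh, he⟩ := hY
      obtain ⟨a1, a2, a3, a4⟩ := H.shape hE hYS
      have a5 := H.cd hE hYS
      have hdet : (Y + 1).det = 1 := by
        rw [he, sub_add_cancel]; exact h.2
      rw [alg_det_upper] at hdet
      · simp [a4, a5] at hdet
        have h3 : Y 0 0 + 1 = 1 := by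
          have : (Y 0 0 + 1) ^ 3 = 1 ^ 3 := by linear_combination hdet
          exact (Odd.strictMono_pow (by decide : Odd 3)).injective this
        linarith
      all_goals simp [a1, a2, a3]
    | zero => rfl
    | add x y _ _ hx hy => rw [Matrix.add_apply, hx, hy, add_zero]
    | smul a x _ hx => rw [Matrix.smul_apply, hx, smul_zero]
  have h2 := h1 Z (H.span hZ)
  obtain ⟨a1, a2, a3, a4⟩ := H.shape hE hZ
  exact ⟨h2, by rw [H.cd hE hZ, h2], by rw [a4, h2]⟩

end Pool.Agent.H88.LF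

end S_H88_LF_ALGC

section S_H88_LF_ALGD

/-!
# ALGD: steps 6 and 7
-/

set_option autoImplicit false

open Set Filter
open scoped Topology

namespace Pool.Agent.H88.LF

theorem algConj_mul_right (h : G) (Z : Mat) : algConj h Z * h.1 = h.1 * Z := by
  rw [algConj_apply, mul_assoc, alg_invv, mul_one]

theorem algD_val (v : ℝ × ℝ) (i j : Fin 3) :
    (D v).1 i j = if i = j then Real.exp (cmp v i) else 0 := by
  show Matrix.diagonal _ i j = _
  rw [Matrix.diagonal_apply]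

theorem algD_inv (v : ℝ × ℝ) (i j : Fin 3) :
    ((D v)⁻¹).1 i j = if i = j then Real.exp (- cmp v i) else 0 := by
  have h : ((D v)⁻¹).1 = Matrix.diagonal (fun i => Real.exp (- cmp v i)) := by
    apply alg_inv_eq
    show Matrix.diagonal _ * _ = _
    rw [Matrix.diagonal_mul_diagonal, ← Matrix.diagonal_one]
    congr 1
    funext i
    rw [← Real.exp_add, add_neg_cancel, Real.exp_zero]
  rw [h, Matrix.diagonal_apply]

/-- Step 6. -/
theorem AlgGood.pq {L : Subgroup G} {A : G → ℝ → ℝ} {S : Submodule ℝ Mat}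
    (H : AlgGood L A S) (hE : algE ∈ S) {Z : Mat} (hZ : Z ∈ S) : Z 0 1 * Z 1 2 = 0 := by
  by_contra hpq
  obtain ⟨a1, a2, a3, _⟩ := H.shape hE hZ
  obtain ⟨a4, a5, a6⟩ := H.strict hE hZ
  have hone : ∀ h ∈ L, h.1 1 1 = 1 ∧ h.1 1 0 = 0 := by
    intro h hh
    have hZ' : algConj h Z ∈ S := H.inv h hh Z hZ
    obtain ⟨b1, b2, b3, _⟩ := H.shape hE hZ'
    obtain ⟨b4, b5, b6⟩ := H.strict hE hZ'
    have hc := congrFun (congrFun (H.comm Z hZ _ hZ') 0) 2
    have hm := algConj_mul_right h Z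
    have hm2 : algConj h Z * algConj h Z * h.1 = h.1 * (Z * Z) := by
      rw [mul_assoc, hm, ← mul_assoc, hm, mul_assoc]
    have hdet : h.1.det = 1 := h.2
    rw [Matrix.det_fin_three] at hdet
    have m01 := congrFun (congrFun hm 0) 1
    have m12 := congrFun (congrFun hm 1) 2
    have n12 := congrFun (congrFun hm2 1) 2
    have n22 := congrFun (congrFun hm2 2) 2
    have n01 := congrFun (congrFun hm2 0) 1
    have n02 := congrFun (congrFun hm2 0) 2
    simp only [alg_mul_apply] at hc m01 m12 n12 n22 n01 n02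
    generalize algConj h Z = Z' at *
    rw [a1, a2, a3, a4, a5, a6, b1, b2, b3, b4, b5, b6] at *
    simp only [zero_mul, mul_zero, add_zero, zero_add] at hc m01 m12 n12 n22 n01 n02
    have e10 : h.1 1 0 = 0 := by
      rcases mul_eq_zero.1 n12.symm with h | h
      · exact h
      · exact absurd h hpq
    have e20 : h.1 2 0 = 0 := by
      rcases mul_eq_zero.1 n22.symm with h | h
      · exact h
      · exact absurd h hpq
    rw [e10, e20] at hdet
    have hne : h.1 0 0 ≠ 0 := by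
      intro h0; rw [h0] at hdet; simp at hdet
    have e21 : h.1 2 1 = 0 := by
      rcases mul_eq_zero.1 n01 with h' | h'
      · exfalso
        rw [h', zero_mul] at n02
        rcases mul_eq_zero.1 n02.symm with h'' | h''
        · exact hne h''
        · exact hpq h''
      · exact h'
    rw [e21] at hdet m01
    rw [e10] at m12
    simp only [zero_mul, mul_zero, add_zero, zero_add, sub_zero] at hdet m01 m12
    refine ⟨?_, e10⟩
    have h1 : Z 0 1 * Z 1 2 * (h.1 1 1 * h.1 1 1 - h.1 0 0 * h.1 2 2) = 0 := by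
      have x1 : (h.1 1 1 * h.1 2 2) * (Z 0 1 * Z' 1 2) =
        (h.1 1 1 * h.1 2 2) * (Z' 0 1 * Z 1 2) := by rw [hc]
      linear_combination x1 - h.1 1 1 * Z 0 1 * m12 + h.1 2 2 * Z 1 2 * m01
    have h2 : h.1 1 1 * h.1 1 1 = h.1 0 0 * h.1 2 2 := by
      rcases mul_eq_zero.1 h1 with h | h
      · exact absurd h hpq
      · linarith
    have h3 : (h.1 1 1) ^ 3 = 1 ^ 3 := by
      linear_combination (h.1 1 1) * h2 + hdet
    exact (Odd.strictMono_pow (by decide : Odd 3)).injective h3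
  obtain ⟨p, φ, P, hφ, hP, hlim⟩ := H.seq (fun n => D ((n : ℝ), - (n : ℝ)))
  have hent := alg_entry_lim hlim 1 1
  refine not_tendsto_nhds_of_tendsto_atTop ?_ _ hent
  have hval : ∀ n, Real.exp (φ n) = (P n).1 1 1 := by
    intro n
    obtain ⟨h1, _⟩ := hone _ (hP n)
    rw [alg_mulv, alg_mul_apply, algD_val, algD_val, algD_val] at h1
    simp [cmp] at h1
    rw [Real.exp_neg] at h1
    have := Real.exp_pos (φ n : ℝ)
    field_simp at h1
    exact h1.symm
  refine Tendsto.congr hval ?_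
  exact Real.tendsto_exp_atTop.comp (tendsto_natCast_atTop_atTop.comp hφ.tendsto_atTop)

/-- unipotent upper triangular -/
def AlgUni (h : G) : Prop :=
  h.1 1 0 = 0 ∧ h.1 2 0 = 0 ∧ h.1 2 1 = 0 ∧ h.1 0 0 = 1 ∧ h.1 1 1 = 1 ∧ h.1 2 2 = 1

theorem alg_tendsto_one {ψ : ℕ → G}
    (h : ∀ i j, Tendsto (fun n => (ψ n).1 i j) atTop (𝓝 ((1 : Mat) i j))) :
    Tendsto ψ atTop (𝓝 1) := by
  rw [closedEmb_val.isInducing.tendsto_nhds_iff]
  refine tendsto_pi_nhds.2 fun i => tendsto_pi_nhds.2 fun j => ?_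
  have := h i j
  rwa [← alg_onev] at this

theorem algUni_contract {h : G} (hu : AlgUni h) :
    Tendsto (fun n : ℕ => D (-(n : ℝ), 0) * h * (D (-(n : ℝ), 0))⁻¹) atTop (𝓝 1) := by
  obtain ⟨u1, u2, u3, u4, u5, u6⟩ := hu
  have hexp : Tendsto (fun n : ℕ => Real.exp (-(n : ℝ))) atTop (𝓝 0) :=
    Real.tendsto_exp_neg_atTop_nhds_zero.comp tendsto_natCast_atTop_atTop
  apply alg_tendsto_one
  intro i j
  have hval : ∀ n : ℕ, (D (-(n : ℝ), 0) * h * (D (-(n : ℝ), 0))⁻¹).1 i j =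
      Real.exp (cmp (-(n : ℝ), 0) i) * h.1 i j * Real.exp (- cmp (-(n : ℝ), 0) j) := by
    intro n
    rw [alg_mulv, alg_mulv]
    simp only [alg_mul_apply, algD_val, algD_inv]
    fin_cases i <;> fin_cases j <;> simp
  simp only [hval]
  have t0 : Tendsto (fun n : ℕ => (0 : ℝ)) atTop (𝓝 0) := tendsto_const_nhds
  fin_cases i <;> fin_cases j
  · simp [cmp, u4, Real.exp_neg]
  · have h1 := (hexp.mul_const (h.1 0 1)).mul_const (Real.exp 0)
    simpa [cmp] using h1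
  · have h1 := (hexp.mul_const (h.1 0 2)).mul hexp
    simpa [cmp] using h1
  · simp [cmp, u1]
  · simp [cmp, u5]
  · have h1 := hexp.const_mul (h.1 1 2)
    simpa [cmp] using h1
  · simp [cmp, u2]
  · simp [cmp, u3]
  · simp [cmp, u6, Real.exp_neg]

theorem AlgUni.mul {g h : G} (hg : AlgUni g) (hh : AlgUni h) : AlgUni (g * h) := by
  obtain ⟨u1, u2, u3, u4, u5, u6⟩ := hg
  obtain ⟨v1, v2, v3, v4, v5, v6⟩ := hh
  unfold AlgUni
  rw [alg_mulv]
  simp only [alg_mul_apply, u1, u2, u3, u4, u5, u6, v1, v2, v3, v4, v5, v6]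
  norm_num

/-- The cofactor description of the inverse. -/
theorem alg_inv_entries (h : G) : (h⁻¹).1 = Matrix.adjugate h.1 := rfl

theorem AlgUni.inv {h : G} (hh : AlgUni h) : AlgUni h⁻¹ := by
  obtain ⟨v1, v2, v3, v4, v5, v6⟩ := hh
  have e := alg_invv h
  have e00 := congrFun (congrFun e 0) 0
  have e10 := congrFun (congrFun e 1) 0
  have e20 := congrFun (congrFun e 2) 0
  have e01 := congrFun (congrFun e 0) 1
  have e11 := congrFun (congrFun e 1) 1
  have e21 := congrFun (congrFun e 2) 1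
  have e22 := congrFun (congrFun e 2) 2
  simp only [alg_mul_apply, v1, v2, v3, v4, v5, v6] at e00 e10 e20 e01 e11 e21 e22
  simp at e00 e10 e20 e01 e11 e21 e22
  refine ⟨e10, e20, ?_, e00, ?_, ?_⟩
  · rw [e20] at e21; simpa using e21
  · rw [e10] at e11; simpa using e11
  · rw [e20] at e21 e22
    simp at e21
    rw [e21] at e22; simpa using e22

end Pool.Agent.H88.LF

end S_H88_LF_ALGD

section S_H88_LF_ALGE

/-!
# ALGE: step 7
-/

set_option autoImplicit false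
set_option linter.unusedSimpArgs false

open Set Filter
open scoped Topology

namespace Pool.Agent.H88.LF

variable {L : Subgroup G} {A : G → ℝ → ℝ} {S : Submodule ℝ Mat}

theorem AlgGood.A_one (H : AlgGood L A S) (s : ℝ) : A 1 s = s := by
  obtain ⟨a, b, ha, hab⟩ := H.hA 1 L.one_mem
  have h1 := H.hmul 1 L.one_mem 1 L.one_mem s
  rw [one_mul, hab (A 1 s)] at h1
  have h2 := hab s
  have h3 : a * (A 1 s - s) = 0 := by linarith
  rcases mul_eq_zero.1 h3 with h | h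
  · exact absurd h ha
  · linarith

/-- unipotent elements act by translations -/
theorem AlgGood.uni_one (H : AlgGood L A S) {h : G} (hh : h ∈ L) (hu : AlgUni h)
    (hfix : ∃ s, A h s = s) : h = 1 := by
  obtain ⟨U, hU, hU2⟩ := H.hi
  have h1 := (algUni_contract hu).eventually hU
  obtain ⟨n, hn⟩ := h1.exists
  exact hU2 h hh hfix _ hn

theorem AlgGood.uni_trans (H : AlgGood L A S) {h : G} (hh : h ∈ L) (hu : AlgUni h) :
    ∃ τ : ℝ, ∀ s, A h s = s + τ := by
  by_cases hfix : ∃ s, A h s = s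
  · have := H.uni_one hh hu hfix
    subst this
    exact ⟨0, fun s => by rw [H.A_one, add_zero]⟩
  · obtain ⟨a, b, ha, hab⟩ := H.hA h hh
    by_cases ha1 : a = 1
    · exact ⟨b, fun s => by rw [hab, ha1, one_mul]⟩
    · exfalso
      apply hfix
      refine ⟨b / (1 - a), ?_⟩
      have : 1 - a ≠ 0 := sub_ne_zero.2 (Ne.symm ha1)
      rw [hab]
      field_simp
      ring

theorem AlgGood.A_inv (H : AlgGood L A S) {h : G} (hh : h ∈ L) (s : ℝ) :
    A h (A h⁻¹ s) = s := by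
  rw [← H.hmul h hh _ (L.inv_mem hh), mul_inv_cancel, H.A_one]

theorem AlgGood.A_inv' (H : AlgGood L A S) {h : G} (hh : h ∈ L) (s : ℝ) :
    A h⁻¹ (A h s) = s := by
  rw [← H.hmul _ (L.inv_mem hh) _ hh, inv_mul_cancel, H.A_one]

/-- the linear part of an inverse -/
theorem AlgGood.inv_lin (H : AlgGood L A S) {h : G} (hh : h ∈ L) {a b : ℝ} (ha : a ≠ 0)
    (hab : ∀ s, A h s = a * s + b) (s : ℝ) : A h⁻¹ s = a⁻¹ * s - a⁻¹ * b := by
  have h1 := H.A_inv hh s
  rw [hab] at h1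
  field_simp
  linarith

theorem AlgGood.comm_trans (H : AlgGood L A S) {x y : G} (hx : x ∈ L) (hy : y ∈ L) :
    ∃ t : ℝ, ∀ s, A (x * y * x⁻¹ * y⁻¹) s = s + t := by
  obtain ⟨a, b, ha, hab⟩ := H.hA x hx
  obtain ⟨c, d, hc, hcd⟩ := H.hA y hy
  have hx' := L.inv_mem hx
  have hy' := L.inv_mem hy
  refine ⟨b + a * d - c * b - d, fun s => ?_⟩
  rw [H.hmul _ (L.mul_mem (L.mul_mem hx hy) hx') _ hy', H.hmul _ (L.mul_mem hx hy) _ hx',
    H.hmul _ hx _ hy, H.inv_lin hy hc hcd, H.inv_lin hx ha hab, hcd, hab]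
  field_simp
  ring

/-- elements with `h - 1 ∈ S` are unipotent -/
theorem AlgGood.uni_of_S (H : AlgGood L A S) (hE : algE ∈ S) {h : G} (hS : h.1 - 1 ∈ S) :
    AlgUni h := by
  obtain ⟨a1, a2, a3, _⟩ := H.shape hE hS
  obtain ⟨a4, a5, a6⟩ := H.strict hE hS
  simp [Matrix.sub_apply] at a1 a2 a3 a4 a5 a6
  exact ⟨a1, a2, a3, by linarith, by linarith, by linarith⟩

/-- commutators of `L` centralise the elements with `h - 1 ∈ S` -/
theorem AlgGood.comm_S (H : AlgGood L A S) (hE : algE ∈ S) {x y : G} (hx : x ∈ L) (hy : y ∈ L)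
    {h : G} (hh : h ∈ L) (hS : h.1 - 1 ∈ S) :
    (x * y * x⁻¹ * y⁻¹) * h * (x * y * x⁻¹ * y⁻¹)⁻¹ = h := by
  obtain ⟨t, ht⟩ := H.comm_trans hx hy
  have hk : x * y * x⁻¹ * y⁻¹ ∈ L :=
    L.mul_mem (L.mul_mem (L.mul_mem hx hy) (L.inv_mem hx)) (L.inv_mem hy)
  generalize x * y * x⁻¹ * y⁻¹ = k at *
  have hu := H.uni_of_S hE hS
  obtain ⟨τ, hτ⟩ := H.uni_trans hh hu
  have hk' := L.inv_mem hk
  have hS' : (k * h * k⁻¹).1 - 1 ∈ S := by
    rw [← algConj_sub_one]
    exact H.inv k hk _ hS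
  have hu' := H.uni_of_S hE hS'
  have h1 : h⁻¹ * (k * h * k⁻¹) = 1 := by
    refine H.uni_one (L.mul_mem (L.inv_mem hh) (L.mul_mem (L.mul_mem hk hh) hk'))
      (hu.inv.mul hu') ⟨0, ?_⟩
    have hkinv : ∀ s, A k⁻¹ s = s - t := by
      intro s
      have := H.inv_lin hk one_ne_zero (b := t) (by intro s; rw [ht, one_mul]) s
      rw [this]; ring
    have hhinv : ∀ s, A h⁻¹ s = s - τ := by
      intro s
      have := H.inv_lin hh one_ne_zero (b := τ) (by intro s; rw [hτ, one_mul]) s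
      rw [this]; ring
    rw [H.hmul _ (L.inv_mem hh) _ (L.mul_mem (L.mul_mem hk hh) hk'),
      H.hmul _ (L.mul_mem hk hh) _ hk', H.hmul _ hk _ hh, hkinv, hτ, ht, hhinv]
    ring
  calc k * h * k⁻¹ = h * (h⁻¹ * (k * h * k⁻¹)) := by group
    _ = h := by rw [h1, mul_one]

/-- commutators of `L` centralise `S` -/
theorem AlgGood.comm_S' (H : AlgGood L A S) (hE : algE ∈ S) {x y : G} (hx : x ∈ L) (hy : y ∈ L)
    {Z : Mat} (hZ : Z ∈ S) : algConj (x * y * x⁻¹ * y⁻¹) Z = Z := by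
  have h1 : ∀ Z ∈ Submodule.span ℝ {Z : Mat | Z ∈ S ∧ ∃ h ∈ L, Z = h.1 - 1},
      algConj (x * y * x⁻¹ * y⁻¹) Z = Z := by
    intro Y hY
    induction hY using Submodule.span_induction with
    | mem Y hY =>
      obtain ⟨hYS, h, hh, rfl⟩ := hY
      rw [algConj_sub_one, H.comm_S hE hx hy hh hYS]
    | zero => exact map_zero _
    | add x y _ _ hx hy => rw [map_add, hx, hy]
    | smul a x _ hx => rw [map_smul, hx]
  exact h1 Z (H.span hZ)

/-- a unipotent upper triangular element of `L` is in `1 + S` -/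
theorem AlgGood.uni_S (H : AlgGood L A S) {h : G} (hh : h ∈ L) (hu : AlgUni h) :
    h.1 - 1 ∈ S := by
  obtain ⟨p, φ, P, hφ, hP, hlim⟩ := H.seq (fun n => D (-(n : ℝ), 0))
  obtain ⟨U, hU, hU2⟩ := H.small
  have h1 : Tendsto (fun n => P n * (D (-(φ n : ℝ), 0) * h * (D (-(φ n : ℝ), 0))⁻¹) * (P n)⁻¹)
      atTop (𝓝 (p * 1 * p⁻¹)) :=
    (hlim.mul ((algUni_contract hu).comp hφ.tendsto_atTop)).mul hlim.inv
  rw [mul_one, mul_inv_cancel] at h1
  obtain ⟨n, hn⟩ := (h1.eventually hU).exists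
  have hk := hP n
  set k : G := P n * D (-(φ n : ℝ), 0) with hkdef
  have h2 : P n * (D (-(φ n : ℝ), 0) * h * (D (-(φ n : ℝ), 0))⁻¹) * (P n)⁻¹ = k * h * k⁻¹ := by
    rw [hkdef]; group
  rw [h2] at hn
  have h3 := hU2 _ (L.mul_mem (L.mul_mem hk hh) (L.inv_mem hk)) hn
  rw [← algConj_sub_one] at h3
  have h4 := H.inv k⁻¹ (L.inv_mem hk) _ h3
  rw [← algConj_apply, algConj_inv_cancel'] at h4
  exact h4

/-- case distinction -/
theorem AlgGood.cases (H : AlgGood L A S) (hE : algE ∈ S) :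
    (∀ Z ∈ S, Z 0 1 = 0) ∨ (∀ Z ∈ S, Z 1 2 = 0) := by
  by_contra hcon
  push Not at hcon
  obtain ⟨⟨Z, hZ, hZ1⟩, ⟨W, hW, hW1⟩⟩ := hcon
  have h1 := H.pq hE hZ
  have h2 := H.pq hE hW
  have h3 := H.pq hE (S.add_mem hZ hW)
  have h4 : Z 1 2 = 0 := by
    rcases mul_eq_zero.1 h1 with h | h
    · exact absurd h hZ1
    · exact h
  have h5 : W 0 1 = 0 := by
    rcases mul_eq_zero.1 h2 with h | h
    · exact h
    · exact absurd h hW1
  rw [Matrix.add_apply, Matrix.add_apply, h4, h5, add_zero, zero_add] at h3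
  rcases mul_eq_zero.1 h3 with h | h
  · exact hZ1 h
  · exact hW1 h

/-- first case: the plane `⟨e1,e2⟩` -/
theorem AlgGood.caseB (H : AlgGood L A S) (hE : algE ∈ S) (h0 : ∀ Z ∈ S, Z 0 1 = 0) :
    (∀ h ∈ L, h.1 2 0 = 0 ∧ h.1 2 1 = 0) ∧ ∀ x ∈ L, ∀ y ∈ L,
      (x * y * x⁻¹ * y⁻¹).1 0 0 = 1 ∧ (x * y * x⁻¹ * y⁻¹).1 0 1 = 0 ∧
      (x * y * x⁻¹ * y⁻¹).1 1 0 = 0 ∧ (x * y * x⁻¹ * y⁻¹).1 1 1 = 1 := by
  by_cases hq : ∃ Z ∈ S, Z 1 2 ≠ 0
  · obtain ⟨Z, hZ, hZq⟩ := hq
    obtain ⟨a1, a2, a3, _⟩ := H.shape hE hZ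
    obtain ⟨a4, a5, a6⟩ := H.strict hE hZ
    have a7 := h0 Z hZ
    constructor
    · intro h hh
      have hE' : algConj h algE ∈ S := H.inv h hh _ hE
      have hZ' : algConj h Z ∈ S := H.inv h hh _ hZ
      obtain ⟨b1, b2, b3, _⟩ := H.shape hE hE'
      obtain ⟨b4, b5, b6⟩ := H.strict hE hE'
      obtain ⟨c1, c2, c3, _⟩ := H.shape hE hZ'
      obtain ⟨c4, c5, c6⟩ := H.strict hE hZ'
      have e := congrFun (congrFun (algConj_mul_right h algE) 2) 2
      have f := congrFun (congrFun (algConj_mul_right h Z) 2) 2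
      rw [alg_mul_apply, alg_mul_apply, b2, b3, b6] at e
      rw [alg_mul_apply, alg_mul_apply, c2, c3, c6, a6] at f
      simp [algE] at e
      rw [← e] at f
      simp at f
      refine ⟨e.symm, ?_⟩
      rcases f with h | h
      · exact h
      · exact absurd h hZq
    · intro x hx y hy
      have c1 := H.comm_S' hE hx hy hE
      have c2 := H.comm_S' hE hx hy hZ
      generalize x * y * x⁻¹ * y⁻¹ = k at *
      have e1 := algConj_mul_right k algE
      have e2 := algConj_mul_right k Z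
      rw [c1] at e1
      rw [c2] at e2
      have hdet : k.1.det = 1 := k.2
      rw [Matrix.det_fin_three] at hdet
      have i12 := congrFun (congrFun e1 1) 2
      have i22 := congrFun (congrFun e1 2) 2
      have i01 := congrFun (congrFun e1 0) 1
      have i02 := congrFun (congrFun e1 0) 2
      have j02 := congrFun (congrFun e2 0) 2
      have j12 := congrFun (congrFun e2 1) 2
      simp only [alg_mul_apply, a1, a2, a3, a4, a5, a6, a7] at i12 i22 i01 i02 j02 j12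
      simp [algE] at i12 i22 i01 i02 j02 j12
      rw [← i12, ← i22] at hdet
      rw [i01] at hdet
      rw [← i12] at j12
      have k11 : k.1 1 1 = k.1 2 2 := by
        have h1 : Z 1 2 * (k.1 1 1 - k.1 2 2) = 0 := by linear_combination -j12
        rcases mul_eq_zero.1 h1 with h | h
        · exact absurd h hZq
        · linarith
      rw [k11, ← i02] at hdet
      have k22 : k.1 2 2 = 1 := by
        have : (k.1 2 2) ^ 3 = 1 ^ 3 := by linear_combination hdet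
        exact (Odd.strictMono_pow (by decide : Odd 3)).injective this
      have k01 : k.1 0 1 = 0 := by
        have h1 : Z 1 2 * k.1 0 1 = 0 := by
          rw [← i02] at j02
          linear_combination -j02
        rcases mul_eq_zero.1 h1 with h | h
        · exact absurd h hZq
        · exact h
      exact ⟨by rw [← i02, k22], k01, i12.symm, by rw [k11, k22]⟩
  · push Not at hq
    have hup : ∀ h ∈ L, h.1 1 0 = 0 ∧ h.1 2 0 = 0 ∧ h.1 2 1 = 0 := by
      intro h hh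
      have hE' : algConj h algE ∈ S := H.inv h hh _ hE
      obtain ⟨b1, b2, b3, _⟩ := H.shape hE hE'
      obtain ⟨b4, b5, b6⟩ := H.strict hE hE'
      have b7 := h0 _ hE'
      have b8 := hq _ hE'
      have e := algConj_mul_right h algE
      have e02 := congrFun (congrFun e 0) 2
      have e12 := congrFun (congrFun e 1) 2
      have e22 := congrFun (congrFun e 2) 2
      have e01 := congrFun (congrFun e 0) 1
      simp only [alg_mul_apply] at e02 e12 e22 e01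
      rw [b4, b7] at e02 e01
      rw [b1, b5, b8] at e12
      rw [b2, b3, b6] at e22
      simp [algE] at e02 e12 e22 e01
      have hdet : h.1.det = 1 := h.2
      rw [Matrix.det_fin_three, ← e12, ← e22] at hdet
      refine ⟨e12.symm, e22.symm, ?_⟩
      rcases e01 with h' | h'
      · exfalso
        rw [h', zero_mul] at e02
        rw [← e02] at hdet
        simp at hdet
      · exact h'
    refine ⟨fun h hh => ⟨(hup h hh).2.1, (hup h hh).2.2⟩, ?_⟩
    intro x hx y hy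
    have hx' := L.inv_mem hx
    have hy' := L.inv_mem hy
    have hk : x * y * x⁻¹ * y⁻¹ ∈ L := L.mul_mem (L.mul_mem (L.mul_mem hx hy) hx') hy'
    have hu : AlgUni (x * y * x⁻¹ * y⁻¹) := by
      obtain ⟨k1, k2, k3⟩ := hup _ hk
      obtain ⟨x1, x2, x3⟩ := hup _ hx
      obtain ⟨y1, y2, y3⟩ := hup _ hy
      obtain ⟨x1', x2', x3'⟩ := hup _ hx'
      obtain ⟨y1', y2', y3'⟩ := hup _ hy'
      have ex := alg_vinv x
      have ey := alg_vinv y
      have ex0 := congrFun (congrFun ex 0) 0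
      have ex1 := congrFun (congrFun ex 1) 1
      have ex2 := congrFun (congrFun ex 2) 2
      have ey0 := congrFun (congrFun ey 0) 0
      have ey1 := congrFun (congrFun ey 1) 1
      have ey2 := congrFun (congrFun ey 2) 2
      simp only [alg_mul_apply, x1, x2, x3, y1, y2, y3, x1', x2', x3', y1', y2', y3'] at ex0 ex1 ex2 ey0 ey1 ey2
      simp at ex0 ex1 ex2 ey0 ey1 ey2
      refine ⟨k1, k2, k3, ?_, ?_, ?_⟩
      · rw [alg_mulv, alg_mulv, alg_mulv]
        simp only [alg_mul_apply, x1, x2, x3, y1, y2, y3, x1', x2', x3', y1', y2', y3']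
        linear_combination ex0 * (y.1 0 0 * (y⁻¹).1 0 0) + ey0
      · rw [alg_mulv, alg_mulv, alg_mulv]
        simp only [alg_mul_apply, x1, x2, x3, y1, y2, y3, x1', x2', x3', y1', y2', y3']
        linear_combination ex1 * (y.1 1 1 * (y⁻¹).1 1 1) + ey1
      · rw [alg_mulv, alg_mulv, alg_mulv]
        simp only [alg_mul_apply, x1, x2, x3, y1, y2, y3, x1', x2', x3', y1', y2', y3']
        linear_combination ex2 * (y.1 2 2 * (y⁻¹).1 2 2) + ey2
    have hS := H.uni_S hk hu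
    have h1 := h0 _ hS
    obtain ⟨u1, u2, u3, u4, u5, u6⟩ := hu
    refine ⟨u4, ?_, u1, u5⟩
    rw [Matrix.sub_apply] at h1
    simpa using h1

/-- second case: the quotient by `⟨e1⟩` -/
theorem AlgGood.caseC (H : AlgGood L A S) (hE : algE ∈ S) (h0 : ∀ Z ∈ S, Z 1 2 = 0)
    (hp : ∃ Z ∈ S, Z 0 1 ≠ 0) :
    (∀ h ∈ L, h.1 1 0 = 0 ∧ h.1 2 0 = 0) ∧ ∀ x ∈ L, ∀ y ∈ L,
      (x * y * x⁻¹ * y⁻¹).1 1 1 = 1 ∧ (x * y * x⁻¹ * y⁻¹).1 1 2 = 0 ∧
      (x * y * x⁻¹ * y⁻¹).1 2 1 = 0 ∧ (x * y * x⁻¹ * y⁻¹).1 2 2 = 1 := by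
  obtain ⟨Z, hZ, hZp⟩ := hp
  obtain ⟨a1, a2, a3, _⟩ := H.shape hE hZ
  obtain ⟨a4, a5, a6⟩ := H.strict hE hZ
  have a7 := h0 Z hZ
  constructor
  · intro h hh
    have hE' : algConj h algE ∈ S := H.inv h hh _ hE
    obtain ⟨b1, b2, b3, _⟩ := H.shape hE hE'
    obtain ⟨b4, b5, b6⟩ := H.strict hE hE'
    have b7 := h0 _ hE'
    have e := congrFun (congrFun (algConj_mul_right h algE) 2) 2
    have f := congrFun (congrFun (algConj_mul_right h algE) 1) 2
    rw [alg_mul_apply, alg_mul_apply, b2, b3, b6] at e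
    rw [alg_mul_apply, alg_mul_apply, b1, b5, b7] at f
    simp [algE] at e f
    exact ⟨f.symm, e.symm⟩
  · intro x hx y hy
    have c1 := H.comm_S' hE hx hy hE
    have c2 := H.comm_S' hE hx hy hZ
    generalize x * y * x⁻¹ * y⁻¹ = k at *
    have e1 := algConj_mul_right k algE
    have e2 := algConj_mul_right k Z
    rw [c1] at e1
    rw [c2] at e2
    have hdet : k.1.det = 1 := k.2
    rw [Matrix.det_fin_three] at hdet
    have i12 := congrFun (congrFun e1 1) 2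
    have i22 := congrFun (congrFun e1 2) 2
    have i01 := congrFun (congrFun e1 0) 1
    have i02 := congrFun (congrFun e1 0) 2
    have j01 := congrFun (congrFun e2 0) 1
    have j02 := congrFun (congrFun e2 0) 2
    simp only [alg_mul_apply, a1, a2, a3, a4, a5, a6, a7] at i12 i22 i01 i02 j01 j02
    simp [algE] at i12 i22 i01 i02 j01 j02
    rw [← i12, ← i22, i01] at hdet
    rw [i01] at j01
    have k11 : k.1 1 1 = k.1 0 0 := by
      have h1 : Z 0 1 * (k.1 1 1 - k.1 0 0) = 0 := by linear_combination j01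
      rcases mul_eq_zero.1 h1 with h | h
      · exact absurd h hZp
      · linarith
    have k12 : k.1 1 2 = 0 := by
      have h1 : Z 0 1 * k.1 1 2 = 0 := by
        rw [i02] at j02
        linear_combination j02
      rcases mul_eq_zero.1 h1 with h | h
      · exact absurd h hZp
      · exact h
    rw [k11, i02] at hdet
    have k00 : k.1 0 0 = 1 := by
      have : (k.1 0 0) ^ 3 = 1 ^ 3 := by linear_combination hdet
      exact (Odd.strictMono_pow (by decide : Odd 3)).injective this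
    exact ⟨by rw [k11, k00], k12, i01, by rw [i02, k00]⟩

end Pool.Agent.H88.LF

end S_H88_LF_ALGE

section S_H88_LF_ALGF

/-!
# ALGF: step 8
-/

set_option autoImplicit false

open Set Filter
open scoped Topology

namespace Pool.Agent.H88.LF

variable {L : Subgroup G} {A : G → ℝ → ℝ} {S : Submodule ℝ Mat}

/-- Step 8, abstract form. -/
theorem alg_final (H : AlgGood L A S) (B : Set G) (β : G → Matrix (Fin 2) (Fin 2) ℝ)
    (hLB : ∀ h ∈ L, h ∈ B) (hBmul : ∀ g ∈ B, ∀ h ∈ B, g * h ∈ B) (hBinv : ∀ g ∈ B, g⁻¹ ∈ B)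
    (hBcl : IsClosed B) (hβc : Continuous β)
    (hβmul : ∀ g ∈ B, ∀ h ∈ B, β (g * h) = β g * β h)
    (hβcomm : ∀ x ∈ L, ∀ y ∈ L, β (x * y * x⁻¹ * y⁻¹) = 1)
    (hβne : ∀ g ∈ B, β g 0 0 ≠ 0 ∨ β g 1 0 ≠ 0)
    (hβsurj : ∀ t f1 f2 : ℝ, 0 < t → 0 < f1 ^ 2 + f2 ^ 2 →
      ∃ g ∈ B, β g = !![t * f1, t * f2; -f2, f1]) : False := by
  have hcomm : ∀ x ∈ L, ∀ y ∈ L, β x * β y = β y * β x := by
    intro x hx y hy
    have hx' := L.inv_mem hx
    have hy' := L.inv_mem hy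
    have hk : x * y * x⁻¹ * y⁻¹ ∈ L := L.mul_mem (L.mul_mem (L.mul_mem hx hy) hx') hy'
    rw [← hβmul x (hLB x hx) y (hLB y hy), ← hβmul y (hLB y hy) x (hLB x hx)]
    have e : x * y = (x * y * x⁻¹ * y⁻¹) * (y * x) := by group
    rw [e, hβmul _ (hLB _ hk) _ (hLB _ (L.mul_mem hy hx)), hβcomm x hx y hy, one_mul]
  have key : ∀ f1 f2 : ℝ, 0 < f1 ^ 2 + f2 ^ 2 → ∃ u v : ℝ, (u ≠ 0 ∨ v ≠ 0) ∧
      ∃ (z : ℕ → G) (c : ℕ → ℝ), (∀ n, z n ∈ L) ∧
        Tendsto (fun n => c n • β (z n)) atTop (𝓝 !![u * f1, u * f2; v * f1, v * f2]) := by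
    intro f1 f2 hf
    choose g hgB hg using fun n : ℕ => hβsurj ((n : ℝ) + 1) f1 f2 (by positivity) hf
    obtain ⟨p, φ, P, hφ, hP, hlim⟩ := H.seq g
    have hPB : ∀ n, P n ∈ B := by
      intro n
      have : P n = P n * g (φ n) * (g (φ n))⁻¹ := by group
      rw [this]
      exact hBmul _ (hLB _ (hP n)) _ (hBinv _ (hgB _))
    have hpB : p ∈ B := hBcl.mem_of_tendsto hlim (Eventually.of_forall hPB)
    refine ⟨β p 0 0, β p 1 0, hβne p hpB, fun n => P n * g (φ n),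
      fun n => 1 / ((φ n : ℝ) + 1), hP, ?_⟩
    have hx : Tendsto (fun n => 1 / ((φ n : ℝ) + 1)) atTop (𝓝 0) :=
      (tendsto_one_div_add_atTop_nhds_zero_nat).comp hφ.tendsto_atTop
    have hF : Continuous (fun z : G × ℝ =>
        β z.1 * !![f1, f2; z.2 * (-f2), z.2 * f1]) := by
      refine (hβc.comp continuous_fst).mul ?_
      refine continuous_matrix fun i j => ?_
      fin_cases i <;> fin_cases j <;> simp <;> fun_prop
    have h1 := (hF.tendsto (p, 0)).comp (hlim.prodMk_nhds hx)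
    have h2 : (fun n => (1 / ((φ n : ℝ) + 1)) • β (P n * g (φ n))) =
        (fun z : G × ℝ => β z.1 * !![f1, f2; z.2 * (-f2), z.2 * f1]) ∘
          (fun n => (P n, 1 / ((φ n : ℝ) + 1))) := by
      funext n
      have ht : ((φ n : ℝ) + 1) ≠ 0 := by positivity
      rw [hβmul _ (hPB n) _ (hgB _), hg, ← Matrix.mul_smul]
      show _ = β (P n) * _
      congr 1
      ext i j
      fin_cases i <;> fin_cases j <;> simp <;> field_simp
    have h3 : !![β p 0 0 * f1, β p 0 0 * f2; β p 1 0 * f1, β p 1 0 * f2] =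
        (fun z : G × ℝ => β z.1 * !![f1, f2; z.2 * (-f2), z.2 * f1]) (p, 0) := by
      ext i j
      fin_cases i <;> fin_cases j <;> simp [Matrix.mul_apply, Fin.sum_univ_two]
    rw [h2, h3]
    exact h1
  have hlimcomm : ∀ (z w : ℕ → G) (c d : ℕ → ℝ) (X Y : Matrix (Fin 2) (Fin 2) ℝ),
      (∀ n, z n ∈ L) → (∀ n, w n ∈ L) → Tendsto (fun n => c n • β (z n)) atTop (𝓝 X) →
      Tendsto (fun n => d n • β (w n)) atTop (𝓝 Y) → X * Y = Y * X := by
    intro z w c d X Y hz hw hX hY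
    have h1 := hX.mul hY
    have h2 := hY.mul hX
    have h3 : (fun n => c n • β (z n) * d n • β (w n)) =
        fun n => d n • β (w n) * c n • β (z n) := by
      funext n
      rw [Matrix.smul_mul, Matrix.mul_smul, Matrix.smul_mul, Matrix.mul_smul,
        hcomm _ (hz n) _ (hw n), smul_comm]
    rw [h3] at h1
    exact tendsto_nhds_unique h1 h2
  obtain ⟨u0, u1, hu, z, c, hz, hX⟩ := key 1 0 (by norm_num)
  obtain ⟨v0, v1, hv, z', c', hz', hY⟩ := key 0 1 (by norm_num)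
  obtain ⟨w0, w1, hw, z'', c'', hz'', hW⟩ := key 1 1 (by norm_num)
  have e1 := hlimcomm _ _ _ _ _ _ hz hz' hX hY
  have e2 := hlimcomm _ _ _ _ _ _ hz hz'' hX hW
  have a01 := congrFun (congrFun e1 0) 1
  have a11 := congrFun (congrFun e1 1) 1
  have a10 := congrFun (congrFun e1 1) 0
  have b01 := congrFun (congrFun e2 0) 1
  have b11 := congrFun (congrFun e2 1) 1
  have b10 := congrFun (congrFun e2 1) 0
  simp [Matrix.mul_apply, Fin.sum_univ_two] at a01 a11 a10 b01 b11 b10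
  have hv0 : v0 = 0 := by
    rcases hu with h | h
    · exact a01.resolve_left h
    · exact a11.resolve_left h
  have hv1 : v1 ≠ 0 := by
    rcases hv with h | h
    · exact absurd hv0 h
    · exact h
  have hu1 : u1 = 0 := by
    rcases a10 with h | h
    · exact absurd h hv1
    · exact h
  have hu0 : u0 ≠ 0 := by
    rcases hu with h | h
    · exact h
    · exact absurd hu1 h
  have hw0 : w0 = 0 := by
    rcases b01 with h | h
    · exact absurd h hu0
    · exact h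
  rw [hu1, hw0] at b10
  simp at b10
  have hw1 : w1 = 0 := by
    rcases b10 with h | h
    · exact h
    · exact absurd h hu0
  rcases hw with h | h
  · exact h hw0
  · exact h hw1

theorem alg_ent_cont (i j : Fin 3) : Continuous (fun g : G => g.1 i j) := by
  have h2 : Continuous (fun M : Mat => M i j) := (continuous_apply j).comp (continuous_apply i)
  exact h2.comp alg_cval

theorem alg_endB (H : AlgGood L A S) (hB : ∀ h ∈ L, h.1 2 0 = 0 ∧ h.1 2 1 = 0)
    (hC : ∀ x ∈ L, ∀ y ∈ L,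
      (x * y * x⁻¹ * y⁻¹).1 0 0 = 1 ∧ (x * y * x⁻¹ * y⁻¹).1 0 1 = 0 ∧
      (x * y * x⁻¹ * y⁻¹).1 1 0 = 0 ∧ (x * y * x⁻¹ * y⁻¹).1 1 1 = 1) : False := by
  refine alg_final H {g | g.1 2 0 = 0 ∧ g.1 2 1 = 0}
    (fun g => !![g.1 0 0, g.1 0 1; g.1 1 0, g.1 1 1]) hB ?_ ?_ ?_ ?_ ?_ ?_ ?_ ?_
  · rintro g ⟨g1, g2⟩ h ⟨h1, h2⟩
    constructor <;> rw [alg_mulv, alg_mul_apply] <;> simp [g1, g2, h1, h2]
  · rintro g ⟨g1, g2⟩
    have e := alg_vinv g
    have e0 := congrFun (congrFun e 2) 0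
    have e1 := congrFun (congrFun e 2) 1
    have e2 := congrFun (congrFun e 2) 2
    rw [alg_mul_apply, g1, g2] at e0 e1 e2
    simp at e0 e1 e2
    have hne : g.1 2 2 ≠ 0 := by
      intro h; rw [h] at e2; simp at e2
    exact ⟨e0.resolve_left hne, e1.resolve_left hne⟩
  · exact (isClosed_eq (alg_ent_cont 2 0) continuous_const).inter
      (isClosed_eq (alg_ent_cont 2 1) continuous_const)
  · refine continuous_matrix fun i j => ?_
    fin_cases i <;> fin_cases j <;> exact alg_ent_cont _ _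
  · rintro g ⟨g1, g2⟩ h ⟨h1, h2⟩
    ext i j
    rw [Matrix.mul_apply, Fin.sum_univ_two]
    fin_cases i <;> fin_cases j <;> simp [alg_mul_apply, h1, h2]
  · intro x hx y hy
    obtain ⟨c1, c2, c3, c4⟩ := hC x hx y hy
    show !![_, _; _, _] = (1 : Matrix (Fin 2) (Fin 2) ℝ)
    rw [c1, c2, c3, c4]
    ext i j
    fin_cases i <;> fin_cases j <;> simp
  · rintro g ⟨g1, g2⟩
    by_contra hcon
    push Not at hcon
    obtain ⟨h1, h2⟩ := hcon
    simp at h1 h2
    have hdet : g.1.det = 1 := g.2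
    rw [Matrix.det_fin_three, g1, g2, h1, h2] at hdet
    simp at hdet
  · intro t f1 f2 ht hf
    refine ⟨⟨!![t * f1, t * f2, 0; -f2, f1, 0; 0, 0, 1 / (t * (f1 ^ 2 + f2 ^ 2))], ?_⟩, ?_, ?_⟩
    · rw [Matrix.det_fin_three]
      simp
      field_simp
    · constructor <;> simp
    · ext i j
      fin_cases i <;> fin_cases j <;> simp

theorem alg_endC (H : AlgGood L A S) (hB : ∀ h ∈ L, h.1 1 0 = 0 ∧ h.1 2 0 = 0)
    (hC : ∀ x ∈ L, ∀ y ∈ L,
      (x * y * x⁻¹ * y⁻¹).1 1 1 = 1 ∧ (x * y * x⁻¹ * y⁻¹).1 1 2 = 0 ∧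
      (x * y * x⁻¹ * y⁻¹).1 2 1 = 0 ∧ (x * y * x⁻¹ * y⁻¹).1 2 2 = 1) : False := by
  refine alg_final H {g | g.1 1 0 = 0 ∧ g.1 2 0 = 0}
    (fun g => !![g.1 1 1, g.1 1 2; g.1 2 1, g.1 2 2]) hB ?_ ?_ ?_ ?_ ?_ ?_ ?_ ?_
  · rintro g ⟨g1, g2⟩ h ⟨h1, h2⟩
    constructor <;> rw [alg_mulv, alg_mul_apply] <;> simp [g1, g2, h1, h2]
  · rintro g ⟨g1, g2⟩
    have e := alg_invv g
    have e0 := congrFun (congrFun e 0) 0
    have e1 := congrFun (congrFun e 1) 0
    have e2 := congrFun (congrFun e 2) 0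
    rw [alg_mul_apply, g1, g2] at e0 e1 e2
    simp at e0 e1 e2
    have hne : g.1 0 0 ≠ 0 := by
      intro h; rw [h] at e0; simp at e0
    exact ⟨e1.resolve_right hne, e2.resolve_right hne⟩
  · exact (isClosed_eq (alg_ent_cont 1 0) continuous_const).inter
      (isClosed_eq (alg_ent_cont 2 0) continuous_const)
  · refine continuous_matrix fun i j => ?_
    fin_cases i <;> fin_cases j <;> exact alg_ent_cont _ _
  · rintro g ⟨g1, g2⟩ h ⟨h1, h2⟩
    ext i j
    rw [Matrix.mul_apply, Fin.sum_univ_two]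
    fin_cases i <;> fin_cases j <;> simp [alg_mul_apply, g1, g2]
  · intro x hx y hy
    obtain ⟨c1, c2, c3, c4⟩ := hC x hx y hy
    show !![_, _; _, _] = (1 : Matrix (Fin 2) (Fin 2) ℝ)
    rw [c1, c2, c3, c4]
    ext i j
    fin_cases i <;> fin_cases j <;> simp
  · rintro g ⟨g1, g2⟩
    by_contra hcon
    push Not at hcon
    obtain ⟨h1, h2⟩ := hcon
    simp at h1 h2
    have hdet : g.1.det = 1 := g.2
    rw [Matrix.det_fin_three, g1, g2, h1, h2] at hdet
    simp at hdet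
  · intro t f1 f2 ht hf
    refine ⟨⟨!![1 / (t * (f1 ^ 2 + f2 ^ 2)), 0, 0; 0, t * f1, t * f2; 0, -f2, f1], ?_⟩, ?_, ?_⟩
    · rw [Matrix.det_fin_three]
      simp
      field_simp
    · constructor <;> simp
    · ext i j
      fin_cases i <;> fin_cases j <;> simp

/-- The end: there is no good data with `E ∈ S`. -/
theorem AlgGood.absurdE (H : AlgGood L A S) (hE : algE ∈ S) : False := by
  by_cases h0 : ∀ Z ∈ S, Z 0 1 = 0
  · obtain ⟨hB, hC⟩ := H.caseB hE h0
    exact alg_endB H hB hC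
  · have h1 : ∀ Z ∈ S, Z 1 2 = 0 := by
      rcases H.cases hE with h | h
      · exact absurd h h0
      · exact h
    push Not at h0
    obtain ⟨hB, hC⟩ := H.caseC hE h1 h0
    exact alg_endC H hB hC

/-- There is no good data. -/
theorem AlgGood.absurd (H : AlgGood L A S) : False := by
  obtain ⟨q, hq⟩ := H.nilp
  refine (H.conj q⁻¹).absurdE ?_
  show algConj (q⁻¹)⁻¹ algE ∈ S
  rw [inv_inv]
  exact hq

end Pool.Agent.H88.LF

end S_H88_LF_ALGF

section S_H88_LF_ALG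

/-!
# ALG (blueprint section 12): there is no subgroup Lambda of SL(3,ℝ) with an affine action on ℝ
# satisfying (i) and (iii)

Steps 1 to 3 (construction of the space `S`); the remaining steps are in ALGA - ALGF.
-/

set_option autoImplicit false

open Set Filter
open scoped Topology

namespace Pool.Agent.H88.LF

/-- Step 1: small elements. -/
theorem alg_small (Λ : Subgroup G) (A : G → ℝ → ℝ)
    (hA : ∀ h ∈ Λ, ∃ a b : ℝ, a ≠ 0 ∧ ∀ s, A h s = a * s + b)
    (Q : Set G) (hQ : IsCompact Q) (R : ℝ)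
    (hiii : ∀ (g : G) (s : ℝ), ∃ h ∈ Λ, g * h⁻¹ ∈ Q ∧ |A h s| ≤ R)
    {U : Set G} (hU : U ∈ 𝓝 (1 : G)) : ∃ h ∈ Λ, h ∈ U ∧ h ≠ 1 := by
  by_contra hcon
  push Not at hcon
  choose h hh hq hR using fun n : ℕ => hiii 1 (n : ℝ)
  have hq' : ∀ n, (h n)⁻¹ ∈ Q := fun n => by simpa using hq n
  obtain ⟨q, _, φ, hφ, hlim⟩ := hQ.tendsto_subseq hq'
  have hc : Continuous (fun z : G × G => z.1 * z.2⁻¹) := by fun_prop
  have h1 : Tendsto (fun z : G × G => z.1 * z.2⁻¹) (𝓝 (q, q)) (𝓝 1) := by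
    have := hc.tendsto (q, q)
    simpa using this
  have h2 := h1 hU
  rw [mem_map, nhds_prod_eq] at h2
  obtain ⟨V, hV, W, hW, hVW⟩ := mem_prod_iff.1 h2
  have h3 := hlim.eventually hV
  have h4 := hlim.eventually hW
  obtain ⟨N, hN⟩ := (h3.and h4).exists_forall_of_atTop
  have heq : ∀ n ≥ N, h (φ n) = h (φ N) := by
    intro n hn
    have hm : ((h (φ n))⁻¹, (h (φ N))⁻¹) ∈ V ×ˢ W := ⟨(hN n hn).1, (hN N le_rfl).2⟩
    have h5 : (h (φ n))⁻¹ * ((h (φ N))⁻¹)⁻¹ ∈ U := hVW hm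
    have h6 := hcon _ (Λ.mul_mem (Λ.inv_mem (hh _)) (Λ.inv_mem (Λ.inv_mem (hh _)))) h5
    rw [inv_inv, inv_mul_eq_one] at h6
    exact h6
  obtain ⟨a, b, ha, hab⟩ := hA _ (hh (φ N))
  have hbd : ∀ n ≥ N, |a| * (φ n : ℝ) ≤ R + |b| := by
    intro n hn
    have h7 := hR (φ n)
    rw [heq n hn, hab] at h7
    have h8 : |a * (φ n : ℝ)| ≤ |a * (φ n : ℝ) + b| + |b| := by
      have := abs_add_le (a * (φ n : ℝ) + b) (-b)
      rw [abs_neg, add_neg_cancel_right] at this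
      exact this
    rw [abs_mul, abs_of_nonneg (Nat.cast_nonneg (φ n) : (0 : ℝ) ≤ φ n)] at h8
    linarith
  have h9 : Tendsto (fun n => |a| * (φ n : ℝ)) atTop atTop :=
    (tendsto_natCast_atTop_atTop.comp hφ.tendsto_atTop).const_mul_atTop (abs_pos.2 ha)
  obtain ⟨n, hn1, hn2⟩ := ((h9.eventually_gt_atTop (R + |b|)).and (eventually_ge_atTop N)).exists
  linarith [hbd n hn2]

/-- the span of the `h - 1`, `h ∈ Λ ∩ U` -/
def algT (Λ : Subgroup G) (U : Set G) : Submodule ℝ Mat :=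
  Submodule.span ℝ {Z : Mat | ∃ h ∈ Λ, h ∈ U ∧ Z = h.1 - 1}

theorem algT_mono (Λ : Subgroup G) {U U' : Set G} (h : U ⊆ U') : algT Λ U ≤ algT Λ U' := by
  apply Submodule.span_mono
  rintro Z ⟨x, hx, hxU, rfl⟩
  exact ⟨x, hx, h hxU, rfl⟩

theorem algT_mem (Λ : Subgroup G) {U : Set G} {h : G} (hh : h ∈ Λ) (hU : h ∈ U) :
    h.1 - 1 ∈ algT Λ U := Submodule.subset_span ⟨h, hh, hU, rfl⟩

theorem algT_induction (Λ : Subgroup G) (U : Set G) {p : Mat → Prop}
    (hm : ∀ h ∈ Λ, h ∈ U → p (h.1 - 1)) (h0 : p 0) (ha : ∀ x y, p x → p y → p (x + y))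
    (hs : ∀ (c : ℝ) x, p x → p (c • x)) {Z : Mat} (hZ : Z ∈ algT Λ U) : p Z := by
  unfold algT at hZ
  induction hZ using Submodule.span_induction with
  | mem Z hZ =>
    obtain ⟨x, hx, hxU, rfl⟩ := hZ
    exact hm x hx hxU
  | zero => exact h0
  | add a b _ _ h1 h2 => exact ha a b h1 h2
  | smul c a _ h1 => exact hs c a h1

theorem algT_stab (Λ : Subgroup G) : ∃ U1 ∈ 𝓝 (1 : G), ∀ U ∈ 𝓝 (1 : G),
    algT Λ U1 = algT Λ (U ∩ U1) := by
  classical
  have hex : ∃ m : ℕ, ∃ U ∈ 𝓝 (1 : G), Module.finrank ℝ (algT Λ U) = m :=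
    ⟨_, univ, univ_mem, rfl⟩
  obtain ⟨U1, hU1, hU1m⟩ := Nat.find_spec hex
  refine ⟨U1, hU1, fun U hU => ?_⟩
  symm
  refine Submodule.eq_of_le_of_finrank_le (algT_mono Λ inter_subset_right) ?_
  rw [hU1m]
  exact Nat.find_min' hex ⟨_, inter_mem hU hU1, rfl⟩

/-- ALG -/
theorem alg (Λ : Subgroup G) (A : G → ℝ → ℝ)
    (hA : ∀ h ∈ Λ, ∃ a b : ℝ, a ≠ 0 ∧ ∀ s, A h s = a * s + b)
    (hmul : ∀ h ∈ Λ, ∀ h' ∈ Λ, ∀ s, A (h * h') s = A h (A h' s))
    (ρ : ℝ) (hρ : 0 < ρ)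
    (hi : ∀ h ∈ Λ, (∃ s, A h s = s) → ∀ g : G, nd (g * h * g⁻¹) ≤ ρ → h = 1)
    (Q : Set G) (hQ : IsCompact Q) (R : ℝ)
    (hiii : ∀ (g : G) (s : ℝ), ∃ h ∈ Λ, g * h⁻¹ ∈ Q ∧ |A h s| ≤ R) : False := by
  classical
  -- the neighbourhood where `nd ≤ ρ`
  have hU0 : {g : G | nd g ≤ ρ} ∈ 𝓝 (1 : G) := by
    have h1 : nd 1 = 0 := by simp [nd, nrm]
    have h2 : Tendsto nd (𝓝 1) (𝓝 0) := by
      have := alg_nd_cont.tendsto 1
      rwa [h1] at this
    exact h2 (Iic_mem_nhds hρ)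
  have A_one : ∀ s, A 1 s = s := by
    intro s
    obtain ⟨a, b, ha, hab⟩ := hA 1 Λ.one_mem
    have h1 := hmul 1 Λ.one_mem 1 Λ.one_mem s
    rw [one_mul, hab (A 1 s)] at h1
    have h2 := hab s
    have h3 : a * (A 1 s - s) = 0 := by linarith
    rcases mul_eq_zero.1 h3 with h | h
    · exact absurd h ha
    · linarith
  -- small elements are translations
  have htrans : ∀ h ∈ Λ, nd h ≤ ρ → ∃ τ : ℝ, ∀ s, A h s = s + τ := by
    intro h hh hn
    by_cases hfix : ∃ s, A h s = s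
    · have h1 := hi h hh hfix 1 (by simpa using hn)
      subst h1
      exact ⟨0, fun s => by rw [A_one, add_zero]⟩
    · obtain ⟨a, b, ha, hab⟩ := hA h hh
      by_cases ha1 : a = 1
      · exact ⟨b, fun s => by rw [hab, ha1, one_mul]⟩
      · exfalso
        apply hfix
        refine ⟨b / (1 - a), ?_⟩
        have : 1 - a ≠ 0 := sub_ne_zero.2 (Ne.symm ha1)
        rw [hab]
        field_simp
        ring
  -- small elements commute
  obtain ⟨V, hV, hcommV⟩ : ∃ V ∈ 𝓝 (1 : G), ∀ x ∈ Λ, x ∈ V → ∀ y ∈ Λ, y ∈ V →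
      x * y = y * x := by
    have hc : Continuous (fun z : G × G => z.1 * z.2 * z.1⁻¹ * z.2⁻¹) := by fun_prop
    have h1 : Tendsto (fun z : G × G => z.1 * z.2 * z.1⁻¹ * z.2⁻¹) (𝓝 (1, 1)) (𝓝 1) := by
      have := hc.tendsto (1, 1)
      simpa using this
    have h2 := h1 hU0
    rw [mem_map, nhds_prod_eq] at h2
    obtain ⟨V1, hV1, W1, hW1, hVW⟩ := mem_prod_iff.1 h2
    refine ⟨V1 ∩ W1 ∩ {g : G | nd g ≤ ρ}, inter_mem (inter_mem hV1 hW1) hU0, ?_⟩
    rintro x hx ⟨⟨hx1, hx2⟩, hx3⟩ y hy ⟨⟨hy1, hy2⟩, hy3⟩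
    obtain ⟨τ, hτ⟩ := htrans x hx hx3
    obtain ⟨σ, hσ⟩ := htrans y hy hy3
    have hx' := Λ.inv_mem hx
    have hy' := Λ.inv_mem hy
    have hxi : ∀ s, A x⁻¹ s = s - τ := by
      intro s
      have h3 := hmul x hx x⁻¹ hx' s
      rw [mul_inv_cancel, A_one, hτ] at h3
      linarith
    have hyi : ∀ s, A y⁻¹ s = s - σ := by
      intro s
      have h3 := hmul y hy y⁻¹ hy' s
      rw [mul_inv_cancel, A_one, hσ] at h3
      linarith
    have hk : x * y * x⁻¹ * y⁻¹ ∈ Λ := Λ.mul_mem (Λ.mul_mem (Λ.mul_mem hx hy) hx') hy'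
    have h4 : x * y * x⁻¹ * y⁻¹ = 1 := by
      refine hi _ hk ⟨0, ?_⟩ 1 ?_
      · rw [hmul _ (Λ.mul_mem (Λ.mul_mem hx hy) hx') _ hy', hmul _ (Λ.mul_mem hx hy) _ hx',
          hmul _ hx _ hy, hyi, hxi, hσ, hτ]
        ring
      · have h5 : (x, y) ∈ V1 ×ˢ W1 := ⟨hx1, hy2⟩
        have h6 := hVW h5
        rw [mem_preimage] at h6
        have h7 : x * y * x⁻¹ * y⁻¹ ∈ {g : G | nd g ≤ ρ} := h6
        rw [mem_ofPred_eq] at h7
        rw [one_mul, inv_one, mul_one]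
        exact h7
    calc x * y = (x * y * x⁻¹ * y⁻¹) * (y * x) := by group
      _ = y * x := by rw [h4, one_mul]
  -- the spans
  obtain ⟨U1, hU1, hST⟩ := algT_stab Λ
  have hi' : ∃ U ∈ 𝓝 (1 : G), ∀ h ∈ Λ, (∃ s, A h s = s) → ∀ g : G, g * h * g⁻¹ ∈ U → h = 1 := by
    refine ⟨{g : G | nd g ≤ ρ}, hU0, ?_⟩
    intro h hh hf g hg
    rw [mem_ofPred_eq] at hg
    exact hi h hh hf g hg
  refine AlgGood.absurd (L := Λ) (A := A) (S := algT Λ U1)
    ⟨hA, hmul, hi', ?_, ?_, ?_, ?_, ?_, ?_⟩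
  · refine ⟨Q⁻¹, hQ.inv, fun g => ?_⟩
    obtain ⟨h, hh, hq, _⟩ := hiii g 0
    refine ⟨(g * h⁻¹)⁻¹, ?_, ?_⟩
    · rw [Set.mem_inv, inv_inv]; exact hq
    · have : (g * h⁻¹)⁻¹ * g = h := by group
      rw [this]; exact hh
  · rw [hST V hV]
    have h1 : ∀ Z ∈ algT Λ (V ∩ U1), ∀ y ∈ Λ, y ∈ V → Z * (y.1 - 1) = (y.1 - 1) * Z := by
      intro Z hZ y hy hyV
      refine algT_induction Λ (V ∩ U1) (p := fun Z => Z * (y.1 - 1) = (y.1 - 1) * Z)
        ?_ ?_ ?_ ?_ hZ
      · intro x hx hxU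
        have h2 := congrArg (fun g : G => g.1) (hcommV x hx hxU.1 y hy hyV)
        simp only [alg_mulv] at h2
        show (x.1 - 1) * (y.1 - 1) = (y.1 - 1) * (x.1 - 1)
        rw [mul_sub, sub_mul, sub_mul, mul_sub, sub_mul, h2]
        simp only [mul_one, one_mul]
        abel
      · show (0 : Mat) * _ = _ * (0 : Mat)
        rw [zero_mul, mul_zero]
      · intro a b ha hb
        show (a + b) * _ = _ * (a + b)
        rw [add_mul, mul_add, ha, hb]
      · intro c a ha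
        show (c • a) * _ = _ * (c • a)
        rw [Matrix.smul_mul, Matrix.mul_smul, ha]
    intro Z hZ W hW
    refine algT_induction Λ (V ∩ U1) (p := fun W => Z * W = W * Z) ?_ ?_ ?_ ?_ hW
    · intro y hy hyU
      exact h1 Z hZ y hy hyU.1
    · show _ * (0 : Mat) = (0 : Mat) * _
      rw [zero_mul, mul_zero]
    · intro a b ha hb
      show _ * (a + b) = (a + b) * _
      rw [add_mul, mul_add, ha, hb]
    · intro c a ha
      show _ * (c • a) = (c • a) * _
      rw [Matrix.smul_mul, Matrix.mul_smul, ha]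
  · intro k hk Z hZ
    have hUk := alg_conj_nhds k hU1
    rw [hST _ hUk] at hZ
    rw [← algConj_apply]
    refine algT_induction Λ _ (p := fun Z => algConj k Z ∈ algT Λ U1) ?_ ?_ ?_ ?_ hZ
    · intro x hx hxU
      show algConj k (x.1 - 1) ∈ _
      rw [algConj_sub_one]
      exact algT_mem Λ (Λ.mul_mem (Λ.mul_mem hk hx) (Λ.inv_mem hk)) hxU.1
    · show algConj k 0 ∈ _
      rw [map_zero]; exact Submodule.zero_mem _
    · intro a b ha hb
      show algConj k (a + b) ∈ _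
      rw [map_add]; exact Submodule.add_mem _ ha hb
    · intro c a ha
      show algConj k (c • a) ∈ _
      rw [map_smul]; exact Submodule.smul_mem _ c ha
  · apply Submodule.span_le.2
    rintro Z ⟨x, hx, hxU, rfl⟩
    exact Submodule.subset_span ⟨algT_mem Λ hx hxU, x, hx, rfl⟩
  · exact ⟨U1, hU1, fun h hh hU => algT_mem Λ hh hU⟩
  · obtain ⟨h, hh, hhU, hne⟩ := alg_small Λ A hA Q hQ R hiii hU1
    exact ⟨h, hh, hne, algT_mem Λ hh hhU⟩

end Pool.Agent.H88.LF

end S_H88_LF_ALG
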