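import Mathlib
import Pool.Agent.H88.LG.M00
import Pool.Agent.H88.LG.M01

set_option autoImplicit false

/-! Locally free actions of SL(3,R) on compact 9-manifolds, file M03: this file joins several modules to save build time. -/

section S_H29_DEC_Defs

/-!
# Decay of matrix coefficients : definitions

`VRep V H` : a strongly continuous isometric representation of the additive group of a finite
dimensional real inner product space `V` on a Hilbert space `H`.
For a real test function `f` on (the dual of) `V`, `op f φ = ∫ (𝓕⁻ f)(x) N(x) φ dx`.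
-/

namespace Pool.H29.DEC

open MeasureTheory Filter Topology
open scoped FourierTransform SchwartzMap InnerProductSpace ContDiff

noncomputable section

/-- Strongly continuous isometric representation of the vector group `V`. -/
structure VRep (V H : Type) [NormedAddCommGroup V] [InnerProductSpace ℝ V]
    [NormedAddCommGroup H] [InnerProductSpace ℂ H] where
  /-- the operators -/
  N : V → H →L[ℂ] H
  zero : ∀ φ, N 0 φ = φ
  add : ∀ x y φ, N (x + y) φ = N x (N y φ)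
  isom : ∀ x φ, ‖N x φ‖ = ‖φ‖
  cont : ∀ φ, Continuous (fun x => N x φ)

/-- Smooth functions with compact support. -/
def Tst {V : Type} [NormedAddCommGroup V] [InnerProductSpace ℝ V] (f : V → ℝ) : Prop :=
  ContDiff ℝ ∞ f ∧ HasCompactSupport f

variable {V : Type} [NormedAddCommGroup V] [InnerProductSpace ℝ V] [FiniteDimensional ℝ V]
  [MeasurableSpace V] [BorelSpace V]
variable {H : Type} [NormedAddCommGroup H] [InnerProductSpace ℂ H] [CompleteSpace H]

/-- The inverse Fourier transform of a real function. -/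
def ker (f : V → ℝ) : V → ℂ := 𝓕⁻ (fun ξ => (f ξ : ℂ))

/-- `op f φ = ∫ (𝓕⁻ f)(x) N(x) φ dx` -/
def VRep.op (R : VRep V H) (f : V → ℝ) (φ : H) : H := ∫ x, ker f x • R.N x φ

/-- the euclidean plane -/
abbrev V2 : Type := EuclideanSpace ℝ (Fin 2)

/-- rotation of the plane -/
def rot2 (θ : ℝ) (x : V2) : V2 :=
  !₂[Real.cos θ * x 0 - Real.sin θ * x 1, Real.sin θ * x 0 + Real.cos θ * x 1]

/-- the hyperbolic dilation `(x,y) ↦ (e^s x, e^{-s} y)` -/
def dil2 (s : ℝ) (x : V2) : V2 := !₂[Real.exp s * x 0, Real.exp (-s) * x 1]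

/-- radial cut-off: `1` on the ball of radius one, `0` for `‖ξ‖² ≥ 2` -/
def th (ξ : V2) : ℝ := 1 - Real.smoothTransition (‖ξ‖ ^ 2 - 1)

/-- radial cut-off supported away from `0`: used for `0 < t ≤ 1/2` -/
def rh (t : ℝ) (ξ : V2) : ℝ := th (t • ξ) - th (t⁻¹ • ξ)

/-- angular cut-off: `1` for `|ξ 1| ≤ δ ‖ξ‖`, `0` for `|ξ 1| ≥ 2 δ ‖ξ‖` -/
def al (δ : ℝ) (ξ : V2) : ℝ := 1 - Real.smoothTransition ((ξ 1 ^ 2 / (δ ^ 2 * ‖ξ‖ ^ 2) - 1) / 3)

end

end Pool.H29.DEC

end S_H29_DEC_Defs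

section S_H29_DEC_Pla

/-!
# PLA: rotations and dilations of the euclidean plane

Measure preserving: `rotL` via `LinearIsometryEquiv.measurePreserving`; `dilL` via
`MeasureTheory.Measure.map_linearMap_addHaar_eq_smul_addHaar` (determinant `1`), or via
`EuclideanSpace.volume_preserving_...` and products.
-/

namespace Pool.H29.DEC

open MeasureTheory Filter Topology
open scoped InnerProductSpace

noncomputable section

theorem pla_ext {x y : V2} (h0 : x 0 = y 0) (h1 : x 1 = y 1) : x = y := by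
  ext i
  fin_cases i
  · exact h0
  · exact h1

theorem pla_rot_zero (θ : ℝ) (x : V2) :
    rot2 θ x 0 = Real.cos θ * x 0 - Real.sin θ * x 1 := rfl

theorem pla_rot_one (θ : ℝ) (x : V2) :
    rot2 θ x 1 = Real.sin θ * x 0 + Real.cos θ * x 1 := rfl

theorem pla_dil_zero (s : ℝ) (x : V2) : dil2 s x 0 = Real.exp s * x 0 := rfl

theorem pla_dil_one (s : ℝ) (x : V2) : dil2 s x 1 = Real.exp (-s) * x 1 := rfl

theorem pla_inner (x y : V2) : ⟪x, y⟫_ℝ = x 0 * y 0 + x 1 * y 1 := by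
  rw [PiLp.inner_apply, Fin.sum_univ_two]
  simp only [RCLike.inner_apply, conj_trivial]
  ring

theorem rot2_rot2 (θ θ' : ℝ) (x : V2) : rot2 θ (rot2 θ' x) = rot2 (θ + θ') x := by
  apply pla_ext
  · rw [pla_rot_zero, pla_rot_zero, pla_rot_one, pla_rot_zero, Real.cos_add, Real.sin_add]
    ring
  · rw [pla_rot_one, pla_rot_zero, pla_rot_one, pla_rot_one, Real.cos_add, Real.sin_add]
    ring

theorem pla_rot_id (x : V2) : rot2 0 x = x := by
  apply pla_ext
  · rw [pla_rot_zero, Real.cos_zero, Real.sin_zero]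
    ring
  · rw [pla_rot_one, Real.cos_zero, Real.sin_zero]
    ring

/-- The rotation as a linear equivalence. -/
def plaRotE (θ : ℝ) : V2 ≃ₗ[ℝ] V2 where
  toFun := rot2 θ
  invFun := rot2 (-θ)
  map_add' x y := by
    apply pla_ext
    · rw [PiLp.add_apply, pla_rot_zero, pla_rot_zero, pla_rot_zero, PiLp.add_apply,
        PiLp.add_apply]
      ring
    · rw [PiLp.add_apply, pla_rot_one, pla_rot_one, pla_rot_one, PiLp.add_apply,
        PiLp.add_apply]
      ring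
  map_smul' c x := by
    apply pla_ext
    · rw [PiLp.smul_apply, pla_rot_zero, pla_rot_zero, PiLp.smul_apply, PiLp.smul_apply]
      simp only [smul_eq_mul, RingHom.id_apply]
      ring
    · rw [PiLp.smul_apply, pla_rot_one, pla_rot_one, PiLp.smul_apply, PiLp.smul_apply]
      simp only [smul_eq_mul, RingHom.id_apply]
      ring
  left_inv x := by
    show rot2 (-θ) (rot2 θ x) = x
    rw [rot2_rot2, neg_add_cancel, pla_rot_id]
  right_inv x := by
    show rot2 θ (rot2 (-θ) x) = x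
    rw [rot2_rot2, add_neg_cancel, pla_rot_id]

/-- The dilation as a linear equivalence. -/
def plaDilE (s : ℝ) : V2 ≃ₗ[ℝ] V2 where
  toFun := dil2 s
  invFun := dil2 (-s)
  map_add' x y := by
    apply pla_ext
    · rw [PiLp.add_apply, pla_dil_zero, pla_dil_zero, pla_dil_zero, PiLp.add_apply]
      ring
    · rw [PiLp.add_apply, pla_dil_one, pla_dil_one, pla_dil_one, PiLp.add_apply]
      ring
  map_smul' c x := by
    apply pla_ext
    · rw [PiLp.smul_apply, pla_dil_zero, pla_dil_zero, PiLp.smul_apply]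
      simp only [smul_eq_mul, RingHom.id_apply]
      ring
    · rw [PiLp.smul_apply, pla_dil_one, pla_dil_one, PiLp.smul_apply]
      simp only [smul_eq_mul, RingHom.id_apply]
      ring
  left_inv x := by
    show dil2 (-s) (dil2 s x) = x
    apply pla_ext
    · rw [pla_dil_zero, pla_dil_zero, ← mul_assoc, ← Real.exp_add, neg_add_cancel,
        Real.exp_zero, one_mul]
    · rw [pla_dil_one, pla_dil_one, ← mul_assoc, ← Real.exp_add, neg_neg, add_neg_cancel,
        Real.exp_zero, one_mul]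
  right_inv x := by
    show dil2 s (dil2 (-s) x) = x
    apply pla_ext
    · rw [pla_dil_zero, pla_dil_zero, ← mul_assoc, ← Real.exp_add, add_neg_cancel,
        Real.exp_zero, one_mul]
    · rw [pla_dil_one, pla_dil_one, ← mul_assoc, ← Real.exp_add, neg_neg, neg_add_cancel,
        Real.exp_zero, one_mul]

/-- `rot2 θ` as a continuous linear equivalence -/
theorem exists_rotL (θ : ℝ) : ∃ B : V2 ≃L[ℝ] V2, ∀ x, B x = rot2 θ x :=
  ⟨(plaRotE θ).toContinuousLinearEquiv, fun _ => rfl⟩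

/-- `dil2 s` as a continuous linear equivalence -/
theorem exists_dilL (s : ℝ) : ∃ B : V2 ≃L[ℝ] V2, ∀ x, B x = dil2 s x :=
  ⟨(plaDilE s).toContinuousLinearEquiv, fun _ => rfl⟩

theorem inner_rot2 (θ : ℝ) (x y : V2) : ⟪rot2 (-θ) x, y⟫_ℝ = ⟪x, rot2 θ y⟫_ℝ := by
  rw [pla_inner, pla_inner, pla_rot_zero, pla_rot_one, pla_rot_zero, pla_rot_one,
    Real.cos_neg, Real.sin_neg]
  ring

theorem norm_rot2 (θ : ℝ) (x : V2) : ‖rot2 θ x‖ = ‖x‖ := by
  have h1 : ⟪rot2 θ x, rot2 θ x⟫_ℝ = ⟪x, x⟫_ℝ := by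
    rw [pla_inner, pla_inner, pla_rot_zero, pla_rot_one]
    have h2 := Real.sin_sq_add_cos_sq θ
    linear_combination (x 0 ^ 2 + x 1 ^ 2) * h2
  rw [real_inner_self_eq_norm_sq, real_inner_self_eq_norm_sq] at h1
  exact (sq_eq_sq₀ (norm_nonneg _) (norm_nonneg _)).1 h1

theorem inner_dil2 (s : ℝ) (x y : V2) : ⟪dil2 s x, y⟫_ℝ = ⟪x, dil2 s y⟫_ℝ := by
  rw [pla_inner, pla_inner, pla_dil_zero, pla_dil_one, pla_dil_zero, pla_dil_one]
  ring

theorem mp_rot2 (θ : ℝ) : MeasurePreserving (rot2 θ) volume volume := by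
  let e : V2 ≃ₗᵢ[ℝ] V2 := ⟨plaRotE θ, fun x => norm_rot2 θ x⟩
  exact e.measurePreserving

theorem pla_det (s : ℝ) : LinearMap.det (plaDilE s : V2 →ₗ[ℝ] V2) = 1 := by
  rw [← LinearMap.det_toMatrix (EuclideanSpace.basisFun (Fin 2) ℝ).toBasis,
    Matrix.det_fin_two]
  have h : ∀ i j, LinearMap.toMatrix (EuclideanSpace.basisFun (Fin 2) ℝ).toBasis
      (EuclideanSpace.basisFun (Fin 2) ℝ).toBasis (plaDilE s : V2 →ₗ[ℝ] V2) i j =
      dil2 s (EuclideanSpace.single j 1) i := by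
    intro i j
    rw [LinearMap.toMatrix_apply]
    simp
    rfl
  rw [h, h, h, h]
  simp only [pla_dil_zero, pla_dil_one]
  simp [← Real.exp_add]

theorem mp_dil2 (s : ℝ) : MeasurePreserving (dil2 s) volume volume := by
  have hc : Continuous (dil2 s) := (plaDilE s).toContinuousLinearEquiv.continuous
  refine ⟨hc.measurable, ?_⟩
  have h1 := MeasureTheory.Measure.map_linearMap_addHaar_eq_smul_addHaar (volume : Measure V2)
    (f := (plaDilE s : V2 →ₗ[ℝ] V2)) (by rw [pla_det]; exact one_ne_zero)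
  rw [pla_det] at h1
  simp only [inv_one, abs_one, ENNReal.ofReal_one, one_smul] at h1
  exact h1

end

end Pool.H29.DEC

end S_H29_DEC_Pla

section S_H29_DEC_Sec

/-!
# SEC: rotated thin sectors are disjoint

If `|(rot2 θ ξ) 1| < η ‖ξ‖` and `|(rot2 θ' ξ) 1| < η ‖ξ‖` then, with `p = sin θ ξ0 + cos θ ξ1`,
`p' = sin θ' ξ0 + cos θ' ξ1`: `p cos θ' - p' cos θ = ξ0 sin(θ-θ')`, `p' sin θ - p sin θ' = ξ1 sin (θ - θ')`,
so `|sin (θ - θ')| ‖ξ‖ ≤ |p| + |p'| < 2 η ‖ξ‖`.  For `θ = π j/N`, `θ' = π j'/N`, `j ≠ j' < N`: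
`|sin (θ-θ')| ≥ 2/N` (Jordan: `Real.mul_le_sin`: `2/π x ≤ sin x` on `[0,π/2]`, and symmetry).
-/

namespace Pool.H29.DEC

open MeasureTheory Filter Topology
open scoped InnerProductSpace

noncomputable section

theorem dec_sec_sin {N m : ℕ} (h1 : 1 ≤ m) (h2 : m < N) :
    2 / (N : ℝ) ≤ Real.sin (Real.pi * m / N) := by
  have hN : (0 : ℝ) < N := by exact_mod_cast (by omega : 0 < N)
  have key : ∀ k : ℕ, 1 ≤ k → 2 * k ≤ N → 2 / (N : ℝ) ≤ Real.sin (Real.pi * k / N) := by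
    intro k hk1 hk2
    have h3 : Real.pi * k / N ≤ Real.pi / 2 := by
      rw [div_le_div_iff₀ hN two_pos]
      have : (2 * k : ℝ) ≤ N := by exact_mod_cast hk2
      nlinarith [Real.pi_pos]
    have h4 := Real.mul_le_sin (x := Real.pi * k / N) (by positivity) h3
    refine le_trans ?_ h4
    have h5 : 2 / Real.pi * (Real.pi * k / N) = 2 * k / N := by
      field_simp
    rw [h5]
    refine div_le_div_of_nonneg_right ?_ hN.le
    have : (1 : ℝ) ≤ k := by exact_mod_cast hk1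
    linarith
  by_cases h : 2 * m ≤ N
  · exact key m h1 h
  · have h3 := key (N - m) (by omega) (by omega)
    rw [Nat.cast_sub h2.le] at h3
    have h4 : Real.pi * ((N : ℝ) - m) / N = Real.pi - Real.pi * m / N := by
      field_simp
    rwa [h4, Real.sin_pi_sub] at h3

theorem dec_sec_two {η θ θ' : ℝ} {ξ : V2} (h1 : |rot2 θ ξ 1| < η * ‖rot2 θ ξ‖)
    (h2 : |rot2 θ' ξ 1| < η * ‖rot2 θ' ξ‖) : |Real.sin (θ - θ')| < 2 * η := by
  rw [norm_rot2] at h1 h2
  have e1 : rot2 θ ξ 1 = Real.sin θ * ξ 0 + Real.cos θ * ξ 1 := by simp [rot2]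
  have e2 : rot2 θ' ξ 1 = Real.sin θ' * ξ 0 + Real.cos θ' * ξ 1 := by simp [rot2]
  rw [e1] at h1
  rw [e2] at h2
  set p := Real.sin θ * ξ 0 + Real.cos θ * ξ 1 with hp
  set p' := Real.sin θ' * ξ 0 + Real.cos θ' * ξ 1 with hp'
  have hξ : ‖ξ‖ ^ 2 = ξ 0 ^ 2 + ξ 1 ^ 2 := by
    rw [EuclideanSpace.norm_sq_eq, Fin.sum_univ_two, Real.norm_eq_abs, Real.norm_eq_abs, sq_abs,
      sq_abs]
  have hpos : 0 < η * ‖ξ‖ := (abs_nonneg p).trans_lt h1
  have hξ0 : 0 < ‖ξ‖ := by
    rcases (norm_nonneg ξ).eq_or_lt with h | h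
    · rw [← h, mul_zero] at hpos
      exact absurd hpos (lt_irrefl _)
    · exact h
  have hη : 0 < η := (pos_iff_pos_of_mul_pos hpos).2 hξ0
  have h3 : (Real.sin (θ - θ') * ‖ξ‖) ^ 2 = p ^ 2 + p' ^ 2 - 2 * p * p' * Real.cos (θ - θ') := by
    rw [mul_pow, hξ, Real.sin_sub, Real.cos_sub, hp, hp']
    have s1 := Real.sin_sq_add_cos_sq θ
    have s2 := Real.sin_sq_add_cos_sq θ'
    have c1 : Real.cos θ ^ 2 = 1 - Real.sin θ ^ 2 := by linarith
    have c2 : Real.cos θ' ^ 2 = 1 - Real.sin θ' ^ 2 := by linarith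
    ring_nf
    rw [c1, c2]
    ring
  have h4 : (Real.sin (θ - θ') * ‖ξ‖) ^ 2 ≤ (|p| + |p'|) ^ 2 := by
    rw [h3]
    have h5 := Real.neg_one_le_cos (θ - θ')
    have h6 := Real.cos_le_one (θ - θ')
    have h7 : -(2 * p * p' * Real.cos (θ - θ')) ≤ 2 * (|p| * |p'|) := by
      have h8 : |2 * p * p' * Real.cos (θ - θ')| ≤ 2 * (|p| * |p'|) := by
        rw [abs_mul, abs_mul, abs_mul, abs_two]
        have h9 : |Real.cos (θ - θ')| ≤ 1 := Real.abs_cos_le_one _
        have h10 : 0 ≤ 2 * |p| * |p'| := by positivity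
        nlinarith
      exact (neg_le_abs _).trans h8
    have h11 : p ^ 2 = |p| ^ 2 := (sq_abs p).symm
    have h12 : p' ^ 2 = |p'| ^ 2 := (sq_abs p').symm
    nlinarith
  have h5 : |Real.sin (θ - θ') * ‖ξ‖| ≤ |p| + |p'| := abs_le_of_sq_le_sq h4 (by positivity)
  rw [abs_mul, abs_of_pos hξ0] at h5
  have h6 : |Real.sin (θ - θ')| * ‖ξ‖ < 2 * η * ‖ξ‖ := by linarith
  exact lt_of_mul_lt_mul_right h6 hξ0.le

theorem sector_sum (f : V2 → ℝ) (h1 : ∀ ξ, f ξ ≤ 1) (η : ℝ) (N : ℕ)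
    (hN : N * η ≤ 1) (hsup : ∀ ξ, f ξ ≠ 0 → |ξ 1| < η * ‖ξ‖) (ξ : V2) :
    ∑ j ∈ Finset.range N, f (rot2 (Real.pi * j / N) ξ) ≤ 1 := by
  have hdis : ∀ i j : ℕ, i < j → j < N → f (rot2 (Real.pi * i / N) ξ) ≠ 0 →
      f (rot2 (Real.pi * j / N) ξ) ≠ 0 → False := by
    intro i j hij hj hi0 hj0
    have hN0 : (0 : ℝ) < N := by exact_mod_cast (by omega : 0 < N)
    have h2 := dec_sec_two (hsup _ hj0) (hsup _ hi0)
    have h3 := dec_sec_sin (N := N) (m := j - i) (by omega) (by omega)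
    have h4 : Real.pi * j / N - Real.pi * i / N = Real.pi * ((j - i : ℕ) : ℝ) / N := by
      rw [Nat.cast_sub hij.le]
      ring
    rw [h4] at h2
    have h5 : 2 / (N : ℝ) < 2 * η := h3.trans_lt ((le_abs_self _).trans_lt h2)
    rw [div_lt_iff₀ hN0] at h5
    linarith
  by_cases h : ∃ j ∈ Finset.range N, f (rot2 (Real.pi * j / N) ξ) ≠ 0
  · obtain ⟨j, hj, hj0⟩ := h
    rw [Finset.sum_eq_single_of_mem j hj]
    · exact h1 _
    · intro i hi hij
      by_contra h0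
      rw [Finset.mem_range] at hi hj
      rcases lt_or_gt_of_ne hij with h2 | h2
      · exact hdis i j h2 hj h0 hj0
      · exact hdis j i h2 hi hj0 h0
  · push Not at h
    rw [Finset.sum_eq_zero h]
    exact zero_le_one

end

end Pool.H29.DEC

end S_H29_DEC_Sec

section S_H29_DEC_Ker

/-!
# KER: the kernel `ker f = 𝓕⁻ f` of a test function

All facts follow from `HasCompactSupport.toSchwartzMap` (applied to `fun ξ => (f ξ : ℂ)`),
`SchwartzMap.fourierInv_coe`, Fourier inversion for Schwartz functions, and for `ker_mul` from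
`SchwartzMap.convolution_apply` / `SchwartzMap.fourier_convolution`
(`Mathlib/Analysis/Fourier/Convolution.lean`): with `F = 𝓕⁻ f`, `G = 𝓕⁻ g` Schwartz,
`convolution (ContinuousLinearMap.mul ℂ ℂ) F G = 𝓕⁻ (pairing _ (𝓕 F) (𝓕 G)) = 𝓕⁻ (f g)`.
-/

namespace Pool.H29.DEC

open MeasureTheory Filter Topology
open scoped FourierTransform SchwartzMap InnerProductSpace ContDiff ComplexConjugate

noncomputable section

variable {V : Type} [NormedAddCommGroup V] [InnerProductSpace ℝ V] [FiniteDimensional ℝ V]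
  [MeasurableSpace V] [BorelSpace V]

/-- The test function as a Schwartz function. -/
def ker_toS {f : V → ℝ} (hf : Tst f) : 𝓢(V, ℂ) :=
  HasCompactSupport.toSchwartzMap (f := fun ξ => (f ξ : ℂ))
    (hf.2.comp_left (g := fun r : ℝ => (r : ℂ)) (by simp)) (Complex.ofRealCLM.contDiff.comp hf.1)

theorem ker_toS_apply {f : V → ℝ} (hf : Tst f) (ξ : V) : ker_toS hf ξ = (f ξ : ℂ) := rfl

theorem ker_eq_toS {f : V → ℝ} (hf : Tst f) : ((𝓕⁻ (ker_toS hf) : 𝓢(V, ℂ)) : V → ℂ) = ker f := by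
  rw [SchwartzMap.fourierInv_coe]
  rfl

/-- The kernel is a Schwartz function. -/
theorem ker_schwartz {f : V → ℝ} (hf : Tst f) :
    ∃ g : 𝓢(V, ℂ), (g : V → ℂ) = ker f ∧ (∀ ξ, (𝓕 g : 𝓢(V, ℂ)) ξ = (f ξ : ℂ)) := by
  refine ⟨𝓕⁻ (ker_toS hf), ker_eq_toS hf, fun ξ => ?_⟩
  rw [FourierTransform.fourier_fourierInv_eq]
  rfl

theorem ker_continuous {f : V → ℝ} (hf : Tst f) : Continuous (ker f) := by
  rw [← ker_eq_toS hf]
  exact SchwartzMap.continuous _

theorem ker_integrable {f : V → ℝ} (hf : Tst f) : Integrable (ker f) := by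
  rw [← ker_eq_toS hf]
  exact SchwartzMap.integrable _

theorem integral_ker {f : V → ℝ} (hf : Tst f) : ∫ x, ker f x = (f 0 : ℂ) := by
  have h1 : (𝓕 (𝓕⁻ (ker_toS hf)) : 𝓢(V, ℂ)) 0 = (f 0 : ℂ) := by
    rw [FourierTransform.fourier_fourierInv_eq]
    rfl
  rw [← h1, SchwartzMap.fourier_coe, ker_eq_toS hf, Real.fourier_eq]
  refine integral_congr_ae (Eventually.of_forall fun x => ?_)
  simp

/-- rapid decay, see `SchwartzMap.one_add_le_sup_seminorm_apply` -/
theorem ker_decay {f : V → ℝ} (hf : Tst f) (k : ℕ) :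
    ∃ C : ℝ, 0 ≤ C ∧ ∀ x, (1 + ‖x‖) ^ k * ‖ker f x‖ ≤ C := by
  refine ⟨2 ^ k * ((Finset.Iic (k, 0)).sup (fun m => SchwartzMap.seminorm ℝ m.1 m.2)) (𝓕⁻ (ker_toS hf)),
    by positivity, fun x => ?_⟩
  have h := SchwartzMap.one_add_le_sup_seminorm_apply (𝕜 := ℝ) (m := (k, 0)) (k := k) (n := 0) le_rfl le_rfl
    (𝓕⁻ (ker_toS hf)) x
  rw [norm_iteratedFDeriv_zero, ker_eq_toS hf] at h
  exact h

theorem ker_neg (f : V → ℝ) (x : V) : ker f (-x) = conj (ker f x) := by
  unfold ker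
  rw [Real.fourierInv_eq, Real.fourierInv_eq, ← integral_conj]
  refine integral_congr_ae (Eventually.of_forall fun y => ?_)
  simp only [inner_neg_right, Circle.smul_def, smul_eq_mul, map_mul, Complex.conj_ofReal]
  congr 1
  rw [← Circle.coe_inv_eq_conj, ← AddChar.map_neg_eq_inv]

theorem ker_add {f g : V → ℝ} (hf : Tst f) (hg : Tst g) (x : V) :
    ker (fun ξ => f ξ + g ξ) x = ker f x + ker g x := by
  have h1 : ((ker_toS hf + ker_toS hg : 𝓢(V, ℂ)) : V → ℂ) = fun ξ => ((f ξ + g ξ : ℝ) : ℂ) := by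
    funext ξ
    rw [add_apply, ker_toS_apply, ker_toS_apply]
    push_cast
    rfl
  have h2 : ker (fun ξ => f ξ + g ξ) = ((𝓕⁻ (ker_toS hf + ker_toS hg) : 𝓢(V, ℂ)) : V → ℂ) := by
    rw [SchwartzMap.fourierInv_coe, h1]
    rfl
  rw [h2, FourierTransform.fourierInv_add, add_apply, ker_eq_toS hf, ker_eq_toS hg]

theorem ker_smul (c : ℝ) (f : V → ℝ) (x : V) :
    ker (fun ξ => c * f ξ) x = (c : ℂ) * ker f x := by
  unfold ker
  rw [Real.fourierInv_eq, Real.fourierInv_eq, ← integral_const_mul]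
  refine integral_congr_ae (Eventually.of_forall fun y => ?_)
  simp only [Circle.smul_def, smul_eq_mul]
  push_cast
  ring

theorem ker_mul {f g : V → ℝ} (hf : Tst f) (hg : Tst g) (x : V) :
    ker (fun ξ => f ξ * g ξ) x = ∫ y, ker f y * ker g (x - y) := by
  set F : 𝓢(V, ℂ) := 𝓕⁻ (ker_toS hf) with hF
  set K : 𝓢(V, ℂ) := 𝓕⁻ (ker_toS hg) with hK
  have h1 := SchwartzMap.convolution_apply (ContinuousLinearMap.mul ℂ ℂ) F K x
  have h2 : SchwartzMap.convolution (ContinuousLinearMap.mul ℂ ℂ) F K =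
      𝓕⁻ (SchwartzMap.pairing (ContinuousLinearMap.mul ℂ ℂ) (ker_toS hf) (ker_toS hg)) := by
    have e1 : (𝓕⁻ (𝓕 (SchwartzMap.convolution (ContinuousLinearMap.mul ℂ ℂ) F K) : 𝓢(V, ℂ)) : 𝓢(V, ℂ)) =
        SchwartzMap.convolution (ContinuousLinearMap.mul ℂ ℂ) F K :=
      FourierTransform.fourierInv_fourier_eq _
    rw [← e1, SchwartzMap.fourier_convolution,
      hF, hK, FourierTransform.fourier_fourierInv_eq, FourierTransform.fourier_fourierInv_eq]
  have h3 : ker (fun ξ => f ξ * g ξ) =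
      ((SchwartzMap.convolution (ContinuousLinearMap.mul ℂ ℂ) F K : 𝓢(V, ℂ)) : V → ℂ) := by
    rw [h2, SchwartzMap.fourierInv_coe]
    unfold ker
    congr 1
    funext ξ
    rw [SchwartzMap.pairing_apply_apply, ker_toS_apply, ker_toS_apply]
    push_cast
    rfl
  rw [h3, h1, hF, hK, ker_eq_toS hf, ker_eq_toS hg]
  rfl

end

end Pool.H29.DEC

end S_H29_DEC_Ker

section S_H29_DEC_Tst

/-!
# TST: closure properties of test functions (all easy)
-/

namespace Pool.H29.DEC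

open MeasureTheory Filter Topology
open scoped FourierTransform SchwartzMap InnerProductSpace ContDiff

noncomputable section

variable {V : Type} [NormedAddCommGroup V] [InnerProductSpace ℝ V]

theorem Tst.add {f g : V → ℝ} (hf : Tst f) (hg : Tst g) : Tst (fun ξ => f ξ + g ξ) :=
  ⟨hf.1.add hg.1, hf.2.add hg.2⟩

theorem Tst.const_mul (c : ℝ) {f : V → ℝ} (hf : Tst f) : Tst (fun ξ => c * f ξ) :=
  ⟨contDiff_const.mul hf.1, hf.2.comp_left (g := fun y => c * y) (by simp)⟩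

theorem Tst.sub {f g : V → ℝ} (hf : Tst f) (hg : Tst g) : Tst (fun ξ => f ξ - g ξ) := by
  have h := hf.add (hg.const_mul (-1))
  have he : (fun ξ => f ξ - g ξ) = fun ξ => f ξ + -1 * g ξ := by
    funext ξ; ring
  rw [he]
  exact h

theorem Tst.mul {f g : V → ℝ} (hf : Tst f) (hg : Tst g) : Tst (fun ξ => f ξ * g ξ) :=
  ⟨hf.1.mul hg.1, hf.2.mul_right⟩

theorem Tst.sq {f : V → ℝ} (hf : Tst f) : Tst (fun ξ => f ξ ^ 2) :=
  ⟨hf.1.pow 2, hf.2.comp_left (g := fun y => y ^ 2) (by simp)⟩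

theorem Tst.sum {ι : Type} (s : Finset ι) {f : ι → V → ℝ} (hf : ∀ j ∈ s, Tst (f j)) :
    Tst (fun ξ => ∑ j ∈ s, f j ξ) := by
  classical
  induction s using Finset.induction_on with
  | empty =>
    simp only [Finset.sum_empty]
    exact ⟨contDiff_const, HasCompactSupport.zero⟩
  | @insert a s ha ih =>
    simp only [Finset.sum_insert ha]
    exact (hf a (Finset.mem_insert_self a s)).add
      (ih (fun j hj => hf j (Finset.mem_insert_of_mem hj)))

theorem Tst.comp_equiv [FiniteDimensional ℝ V] {f : V → ℝ} (hf : Tst f) (B : V ≃L[ℝ] V) :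
    Tst (fun ξ => f (B ξ)) :=
  ⟨hf.1.comp B.contDiff, hf.2.comp_homeomorph B.toHomeomorph⟩

theorem Tst.comp_smul {f : V → ℝ} (hf : Tst f) {t : ℝ} (ht : t ≠ 0) :
    Tst (fun ξ => f (t • ξ)) :=
  ⟨hf.1.comp (contDiff_const_smul t), hf.2.comp_smul ht⟩

/-- the square root trick: for `f < c` the function `√c - √(c - f)` is a test function -/
theorem Tst.sqrt_trick {f : V → ℝ} (hf : Tst f) {c : ℝ} (hc : 0 < c) (h : ∀ ξ, f ξ < c) :
    Tst (fun ξ => √c - √(c - f ξ)) := by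
  refine ⟨?_, ?_⟩
  · refine contDiff_const.sub ?_
    exact (contDiff_const.sub hf.1).sqrt (fun ξ => (sub_pos.2 (h ξ)).ne')
  · exact hf.2.comp_left (g := fun y => √c - √(c - y)) (by simp)

end

end Pool.H29.DEC

end S_H29_DEC_Tst

section S_H29_DEC_OpA

/-!
# OPA: first properties of `op`

Bochner integrals of `k x • R.N x φ`, `k` integrable: the function `x ↦ R.N x φ` is continuous and
bounded by `‖φ‖` (`Integrable.smul_bdd`/`bdd_mul` or `Integrable.mono'`).
Symmetry: `⟪ψ, N x φ⟫ = ⟪N (-x) ψ, φ⟫` (the `N x` are isometries with inverse `N (-x)`: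
polarisation, or `LinearMap.isometry...`/`inner_map_map`), then substitute `x ↦ -x` and use
`ker_neg`.
-/

namespace Pool.H29.DEC

open MeasureTheory Filter Topology
open scoped FourierTransform SchwartzMap InnerProductSpace ContDiff ComplexConjugate

noncomputable section

variable {V : Type} [NormedAddCommGroup V] [InnerProductSpace ℝ V] [FiniteDimensional ℝ V]
  [MeasurableSpace V] [BorelSpace V]
variable {H : Type} [NormedAddCommGroup H] [InnerProductSpace ℂ H] [CompleteSpace H]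

theorem VRep.integrable_smul (R : VRep V H) {k : V → ℂ} (hk : Integrable k) (φ : H) :
    Integrable (fun x => k x • R.N x φ) := by
  refine Integrable.mono' (hk.norm.mul_const ‖φ‖)
    (hk.aestronglyMeasurable.smul (R.cont φ).aestronglyMeasurable) (Eventually.of_forall fun x => ?_)
  rw [norm_smul, R.isom]

theorem VRep.norm_integral_le (R : VRep V H) {k : V → ℂ} (hk : Integrable k) (φ : H) :
    ‖∫ x, k x • R.N x φ‖ ≤ (∫ x, ‖k x‖) * ‖φ‖ := by
  refine (norm_integral_le_integral_norm _).trans (le_of_eq ?_)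
  rw [← integral_mul_const]
  refine integral_congr_ae (Eventually.of_forall fun x => ?_)
  simp only [norm_smul, R.isom]

theorem VRep.inner_N (R : VRep V H) (x : V) (φ ψ : H) :
    ⟪ψ, R.N x φ⟫_ℂ = ⟪R.N (-x) ψ, φ⟫_ℂ := by
  have h1 : R.N (-x) (R.N x φ) = φ := by rw [← R.add, neg_add_cancel, R.zero]
  have h2 := (LinearIsometry.mk (R.N (-x)).toLinearMap (R.isom (-x))).inner_map_map ψ (R.N x φ)
  have h3 : ⟪R.N (-x) ψ, R.N (-x) (R.N x φ)⟫_ℂ = ⟪ψ, R.N x φ⟫_ℂ := h2
  rw [← h3, h1]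

theorem VRep.op_add_vec (R : VRep V H) {f : V → ℝ} (hf : Tst f) (φ ψ : H) :
    R.op f (φ + ψ) = R.op f φ + R.op f ψ := by
  unfold VRep.op
  rw [← integral_add (R.integrable_smul (ker_integrable hf) φ)
    (R.integrable_smul (ker_integrable hf) ψ)]
  refine integral_congr_ae (Eventually.of_forall fun x => ?_)
  simp only [map_add, smul_add]

theorem VRep.op_sub_vec (R : VRep V H) {f : V → ℝ} (hf : Tst f) (φ ψ : H) :
    R.op f (φ - ψ) = R.op f φ - R.op f ψ := by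
  unfold VRep.op
  rw [← integral_sub (R.integrable_smul (ker_integrable hf) φ)
    (R.integrable_smul (ker_integrable hf) ψ)]
  refine integral_congr_ae (Eventually.of_forall fun x => ?_)
  simp only [map_sub, smul_sub]

theorem VRep.op_smul_vec (R : VRep V H) {f : V → ℝ} (hf : Tst f) (c : ℂ) (φ : H) :
    R.op f (c • φ) = c • R.op f φ := by
  unfold VRep.op
  rw [← integral_smul]
  refine integral_congr_ae (Eventually.of_forall fun x => ?_)
  simp only [map_smul]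
  rw [smul_comm]

theorem VRep.op_add (R : VRep V H) {f g : V → ℝ} (hf : Tst f) (hg : Tst g) (φ : H) :
    R.op (fun ξ => f ξ + g ξ) φ = R.op f φ + R.op g φ := by
  unfold VRep.op
  rw [← integral_add (R.integrable_smul (ker_integrable hf) φ)
    (R.integrable_smul (ker_integrable hg) φ)]
  refine integral_congr_ae (Eventually.of_forall fun x => ?_)
  simp only [ker_add hf hg, add_smul]

theorem VRep.op_const_mul (R : VRep V H) (c : ℝ) {f : V → ℝ} (hf : Tst f) (φ : H) :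
    R.op (fun ξ => c * f ξ) φ = (c : ℂ) • R.op f φ := by
  unfold VRep.op
  rw [← integral_smul]
  refine integral_congr_ae (Eventually.of_forall fun x => ?_)
  simp only [ker_smul, mul_smul]

theorem VRep.op_sub (R : VRep V H) {f g : V → ℝ} (hf : Tst f) (hg : Tst g) (φ : H) :
    R.op (fun ξ => f ξ - g ξ) φ = R.op f φ - R.op g φ := by
  have h1 : (fun ξ => f ξ - g ξ) = fun ξ => f ξ + (-1) * g ξ := by
    funext ξ; ring
  rw [h1, R.op_add hf (hg.const_mul (-1)), R.op_const_mul (-1) hg]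
  push_cast
  rw [neg_one_smul, sub_eq_add_neg]

theorem VRep.op_sum (R : VRep V H) {ι : Type} (s : Finset ι) {f : ι → V → ℝ}
    (hf : ∀ j ∈ s, Tst (f j)) (φ : H) :
    R.op (fun ξ => ∑ j ∈ s, f j ξ) φ = ∑ j ∈ s, R.op (f j) φ := by
  classical
  induction s using Finset.induction_on with
  | empty =>
    unfold VRep.op
    have h0 : ∀ x, ker (fun ξ : V => ∑ j ∈ (∅ : Finset ι), f j ξ) x = 0 := by
      intro x
      have h1 : (fun ξ : V => ∑ j ∈ (∅ : Finset ι), f j ξ) = fun ξ : V => (0:ℝ) * (fun _ : V => (0:ℝ)) ξ := by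
        funext ξ; simp
      rw [h1, ker_smul]
      simp
    simp only [h0, zero_smul, integral_zero]
    rw [Finset.sum_empty]
  | insert a s ha ih =>
    have hs : ∀ j ∈ s, Tst (f j) := fun j hj => hf j (Finset.mem_insert_of_mem hj)
    have h1 : (fun ξ : V => ∑ j ∈ insert a s, f j ξ) = fun ξ => f a ξ + (fun η => ∑ j ∈ s, f j η) ξ := by
      funext ξ; rw [Finset.sum_insert ha]
    rw [h1, R.op_add (hf a (Finset.mem_insert_self a s)) (Tst.sum s hs), ih hs, Finset.sum_insert ha]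

theorem VRep.op_symm (R : VRep V H) {f : V → ℝ} (hf : Tst f) (φ ψ : H) :
    ⟪ψ, R.op f φ⟫_ℂ = ⟪R.op f ψ, φ⟫_ℂ := by
  have hL : ∀ ψ φ : H, ⟪ψ, R.op f φ⟫_ℂ = ∫ x, ker f x * ⟪ψ, R.N x φ⟫_ℂ := by
    intro ψ φ
    unfold VRep.op
    rw [← integral_inner (R.integrable_smul (ker_integrable hf) φ)]
    refine integral_congr_ae (Eventually.of_forall fun x => ?_)
    simp only [inner_smul_right]
  rw [hL ψ φ, ← inner_conj_symm, hL φ ψ, ← integral_conj,
    ← integral_neg_eq_self (fun x => conj (ker f x * ⟪φ, R.N x ψ⟫_ℂ))]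
  refine integral_congr_ae (Eventually.of_forall fun x => ?_)
  simp only [map_mul, ker_neg, Complex.conj_conj, inner_conj_symm]
  rw [R.inner_N x φ ψ]

theorem VRep.op_comm_N (R : VRep V H) {f : V → ℝ} (hf : Tst f) (x : V) (φ : H) :
    R.N x (R.op f φ) = R.op f (R.N x φ) := by
  unfold VRep.op
  rw [← ContinuousLinearMap.integral_comp_comm _ (R.integrable_smul (ker_integrable hf) φ)]
  refine integral_congr_ae (Eventually.of_forall fun y => ?_)
  simp only [map_smul]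
  rw [← R.add, ← R.add, add_comm]

/-- `op f` maps closed invariant subspaces to themselves
(`Convex.integral_mem` does not apply directly; use the orthogonal complement:
`⟪ψ, op f φ⟫ = ∫ ker f x * ⟪ψ, N x φ⟫ = 0` for `ψ ∈ Kᗮ`, and `Kᗮᗮ = K`). -/
theorem VRep.op_mem (R : VRep V H) (K : Submodule ℂ H) (hKc : IsClosed (K : Set H))
    (hKi : ∀ x, ∀ φ ∈ K, R.N x φ ∈ K) {f : V → ℝ} (hf : Tst f) {φ : H} (hφ : φ ∈ K) :
    R.op f φ ∈ K := by
  have : CompleteSpace K := hKc.completeSpace_coe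
  have : K.HasOrthogonalProjection := inferInstance
  rw [← K.orthogonal_orthogonal]
  rw [Submodule.mem_orthogonal]
  intro ψ hψ
  unfold VRep.op
  rw [← integral_inner (R.integrable_smul (ker_integrable hf) φ)]
  have h0 : ∀ x, ⟪ψ, ker f x • R.N x φ⟫_ℂ = 0 := by
    intro x
    rw [inner_smul_right, Submodule.inner_left_of_mem_orthogonal (hKi x φ hφ) hψ, mul_zero]
  simp [h0]

end

end Pool.H29.DEC

end S_H29_DEC_OpA

section S_H29_DEC_OpM

/-!
# OPM: `op` is multiplicative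

`op f (op g φ) = ∫ ker f y • N y (∫ ker g z • N z φ dz) dy = ∫∫ ker f y ker g z • N (y+z) φ dz dy`
`= ∫∫ ker f y ker g (x - y) • N x φ dx dy = ∫ (∫ ker f y ker g (x - y) dy) • N x φ dx` (Fubini, the
function `(y,x) ↦ ker f y * ker g (x - y)` is integrable: `Integrable.convolution_integrand` or
the measure preserving map `(y,x) ↦ (y,x-y)`), and `ker_mul`.
-/

namespace Pool.H29.DEC

open MeasureTheory Filter Topology
open scoped FourierTransform SchwartzMap InnerProductSpace ContDiff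

noncomputable section

variable {V : Type} [NormedAddCommGroup V] [InnerProductSpace ℝ V] [FiniteDimensional ℝ V]
  [MeasurableSpace V] [BorelSpace V]
variable {H : Type} [NormedAddCommGroup H] [InnerProductSpace ℂ H] [CompleteSpace H]

theorem VRep.op_mul (R : VRep V H) {f g : V → ℝ} (hf : Tst f) (hg : Tst g) (φ : H) :
    R.op (fun ξ => f ξ * g ξ) φ = R.op f (R.op g φ) := by
  have hint0 : Integrable (fun p : V × V => ker f p.2 * ker g (p.1 - p.2))
      ((volume : Measure V).prod volume) :=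
    Integrable.convolution_integrand (ContinuousLinearMap.mul ℂ ℂ) (ker_integrable hf)
      (ker_integrable hg)
  have hint : Integrable (fun p : V × V => (ker f p.2 * ker g (p.1 - p.2)) • R.N p.1 φ)
      ((volume : Measure V).prod volume) := by
    refine Integrable.mono' (hint0.norm.mul_const ‖φ‖)
      (hint0.aestronglyMeasurable.smul
        ((R.cont φ).comp continuous_fst).aestronglyMeasurable)
      (Eventually.of_forall fun p => ?_)
    rw [norm_smul, R.isom]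
  unfold VRep.op
  calc ∫ x, ker (fun ξ => f ξ * g ξ) x • R.N x φ
      = ∫ x, ∫ y, (ker f y * ker g (x - y)) • R.N x φ := by
        refine integral_congr_ae (Eventually.of_forall fun x => ?_)
        simp only []
        rw [ker_mul hf hg x, integral_smul_const]
    _ = ∫ y, ∫ x, (ker f y * ker g (x - y)) • R.N x φ :=
        integral_integral_swap (f := fun x y => (ker f y * ker g (x - y)) • R.N x φ) hint
    _ = ∫ y, ker f y • R.N y (∫ z, ker g z • R.N z φ) := by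
        refine integral_congr_ae (Eventually.of_forall fun y => ?_)
        simp only []
        rw [← ContinuousLinearMap.integral_comp_comm _
          (R.integrable_smul (ker_integrable hg) φ), ← integral_smul,
          ← integral_sub_right_eq_self (fun z => ker f y • R.N y (ker g z • R.N z φ)) y]
        refine integral_congr_ae (Eventually.of_forall fun x => ?_)
        simp only [map_smul]
        rw [← R.add, add_sub_cancel, mul_smul]

end

end Pool.H29.DEC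

end S_H29_DEC_OpM

section S_H29_DEC_Pos

/-!
# POS: positivity of `op`

`op_le`: let `c' > c`, `σ = √c' - √(c' - f)` (`Tst.sqrt_trick`); then `f = 2 √c' σ - σ²`, so
`c' ‖φ‖² - re ⟪φ, op f φ⟫ = ‖√c' φ - op σ φ‖² ≥ 0` by `op_mul`, `op_symm`; let `c' → c`.
-/

namespace Pool.H29.DEC

open MeasureTheory Filter Topology
open scoped FourierTransform SchwartzMap InnerProductSpace ContDiff

noncomputable section

variable {V : Type} [NormedAddCommGroup V] [InnerProductSpace ℝ V] [FiniteDimensional ℝ V]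
  [MeasurableSpace V] [BorelSpace V]
variable {H : Type} [NormedAddCommGroup H] [InnerProductSpace ℂ H] [CompleteSpace H]

theorem VRep.op_le (R : VRep V H) {f : V → ℝ} (hf : Tst f) {c : ℝ} (hc : 0 ≤ c)
    (h : ∀ ξ, f ξ ≤ c) (φ : H) : (⟪φ, R.op f φ⟫_ℂ).re ≤ c * ‖φ‖ ^ 2 := by
  have key : ∀ c' : ℝ, c < c' → (⟪φ, R.op f φ⟫_ℂ).re ≤ c' * ‖φ‖ ^ 2 := by
    intro c' hc'
    have hc0 : 0 < c' := lt_of_le_of_lt hc hc'
    have hlt : ∀ ξ, f ξ < c' := fun ξ => (h ξ).trans_lt hc'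
    set σ : V → ℝ := fun ξ => √c' - √(c' - f ξ) with hσ
    have hσt : Tst σ := hf.sqrt_trick hc0 hlt
    have hfe : f = fun ξ => (2 * √c') * σ ξ - (fun η => σ η * σ η) ξ := by
      funext ξ
      have h1 : √c' * √c' = c' := Real.mul_self_sqrt hc0.le
      have h2 : √(c' - f ξ) * √(c' - f ξ) = c' - f ξ := Real.mul_self_sqrt (by linarith [hlt ξ])
      simp only [hσ]
      nlinarith
    have e1 : R.op f φ = ((2 * √c' : ℝ) : ℂ) • R.op σ φ - R.op σ (R.op σ φ) := by
      conv_lhs => rw [hfe]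
      rw [R.op_sub (hσt.const_mul _) (hσt.mul hσt), R.op_const_mul _ hσt, R.op_mul hσt hσt]
    have e2 : ‖((√c' : ℝ) : ℂ) • φ - R.op σ φ‖ ^ 2 = c' * ‖φ‖ ^ 2 - (⟪φ, R.op f φ⟫_ℂ).re := by
      rw [@norm_sub_sq ℂ, norm_smul, Complex.norm_real, Real.norm_eq_abs, mul_pow, sq_abs,
        Real.sq_sqrt hc0.le, e1, inner_sub_right, inner_smul_right, inner_smul_left,
        R.op_symm hσt (R.op σ φ) φ, ← inner_self_eq_norm_sq (𝕜 := ℂ) (R.op σ φ)]
      simp only [Complex.conj_ofReal, RCLike.re_to_complex, Complex.sub_re, Complex.re_ofReal_mul]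
      ring
    nlinarith [sq_nonneg ‖((√c' : ℝ) : ℂ) • φ - R.op σ φ‖]
  have hlim : Tendsto (fun c' : ℝ => c' * ‖φ‖ ^ 2) (𝓝[>] c) (𝓝 (c * ‖φ‖ ^ 2)) :=
    ((continuous_id.mul continuous_const).tendsto c).mono_left nhdsWithin_le_nhds
  exact ge_of_tendsto hlim (eventually_nhdsWithin_of_forall fun c' hc' => key c' hc')

/-- `‖op f φ‖² = ⟪op f φ, op f φ⟫ = ⟪φ, op f (op f φ)⟫ = ⟪φ, op (f²) φ⟫` -/
theorem VRep.op_norm_sq (R : VRep V H) {f : V → ℝ} (hf : Tst f) (φ : H) :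
    ‖R.op f φ‖ ^ 2 = (⟪φ, R.op (fun ξ => f ξ ^ 2) φ⟫_ℂ).re := by
  have h1 : (fun ξ => f ξ ^ 2) = fun ξ => f ξ * f ξ := by
    funext ξ; ring
  rw [h1, R.op_mul hf hf, R.op_symm hf (R.op f φ) φ, ← inner_self_eq_norm_sq (𝕜 := ℂ) (R.op f φ)]
  rfl

theorem VRep.op_norm_le (R : VRep V H) {f : V → ℝ} (hf : Tst f) {c : ℝ} (hc : 0 ≤ c)
    (h : ∀ ξ, |f ξ| ≤ c) (φ : H) : ‖R.op f φ‖ ≤ c * ‖φ‖ := by
  have h1 : ‖R.op f φ‖ ^ 2 ≤ (c * ‖φ‖) ^ 2 := by
    rw [R.op_norm_sq hf, mul_pow]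
    refine R.op_le hf.sq (sq_nonneg c) (fun ξ => ?_) φ
    rw [← sq_abs (f ξ)]
    exact pow_le_pow_left₀ (abs_nonneg _) (h ξ) 2
  exact le_of_sq_le_sq h1 (by positivity)

end

end Pool.H29.DEC

end S_H29_DEC_Pos

section S_H29_DEC_Eqv

/-!
# EQV: equivariance of `op` under linear maps and dilations

`op_equiv`: `ker (f ∘ C) x = ∫ exp(2πi⟪ξ,x⟫) f (C ξ) dξ = ∫ exp(2πi⟪C⁻¹η,x⟫) f η dη` and
`⟪C⁻¹ η, x⟫ = ⟪η, B⁻¹ x⟫`, so `ker (f ∘ C) x = ker f (B⁻¹ x)`; substitute `x = B y`.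
`op_scale`: `ker (f (t • ·)) x = t^{-d} ker f (x / t)`; substitute `x = t y`
(`MeasureTheory.Measure.integral_comp_smul`).
-/

namespace Pool.H29.DEC

open MeasureTheory Filter Topology
open scoped FourierTransform SchwartzMap InnerProductSpace ContDiff

noncomputable section

variable {V : Type} [NormedAddCommGroup V] [InnerProductSpace ℝ V] [FiniteDimensional ℝ V]
  [MeasurableSpace V] [BorelSpace V]
variable {H : Type} [NormedAddCommGroup H] [InnerProductSpace ℂ H] [CompleteSpace H]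

theorem VRep.op_equiv (R : VRep V H) (B C : V ≃L[ℝ] V)
    (hB : MeasurePreserving (fun x => B x) (volume : Measure V) volume)
    (hC : MeasurePreserving (fun x => C x) (volume : Measure V) volume)
    (hadj : ∀ x y, ⟪C x, y⟫_ℝ = ⟪x, B y⟫_ℝ) (A : H →L[ℂ] H)
    (hA : ∀ x φ, A (R.N x φ) = R.N (B x) (A φ)) {f : V → ℝ} (hf : Tst f) (φ : H) :
    A (R.op f φ) = R.op (fun ξ => f (C ξ)) (A φ) := by
  have hker : ∀ x, ker (fun ξ => f (C ξ)) (B x) = ker f x := by
    intro x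
    unfold ker
    rw [Real.fourierInv_eq, Real.fourierInv_eq]
    have h1 := hC.integral_comp C.toHomeomorph.measurableEmbedding
      (fun η : V => (Real.fourierChar ⟪η, x⟫_ℝ) • ((f η : ℝ) : ℂ))
    rw [← h1]
    congr 1
    funext ξ
    rw [hadj]
  have h2 := hB.integral_comp B.toHomeomorph.measurableEmbedding
    (fun x : V => ker (fun ξ => f (C ξ)) x • R.N x (A φ))
  unfold VRep.op
  rw [← h2, ← ContinuousLinearMap.integral_comp_comm A (R.integrable_smul (ker_integrable hf) φ)]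
  congr 1
  funext x
  rw [map_smul, hA, hker]

theorem VRep.op_scale (R : VRep V H) {f : V → ℝ} (hf : Tst f) {t : ℝ} (ht : 0 < t) (φ : H) :
    R.op (fun ξ => f (t • ξ)) φ = ∫ y, ker f y • R.N (t • y) φ := by
  set c : ℝ := |(t ^ Module.finrank ℝ V)⁻¹| with hc
  have hc0 : c ≠ 0 := by
    rw [hc]
    positivity
  have hker : ∀ y, ker (fun ξ => f (t • ξ)) (t • y) = c • ker f y := by
    intro y
    unfold ker
    rw [Real.fourierInv_eq, Real.fourierInv_eq]
    have h1 := Measure.integral_comp_smul (volume : Measure V)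
      (fun η : V => (Real.fourierChar ⟪η, y⟫_ℝ) • ((f η : ℝ) : ℂ)) t
    rw [← hc] at h1
    rw [← h1]
    congr 1
    funext ξ
    rw [inner_smul_right, inner_smul_left]
    rfl
  have h2 := Measure.integral_comp_smul (volume : Measure V)
    (fun x : V => ker (fun ξ => f (t • ξ)) x • R.N x φ) t
  rw [← hc] at h2
  have h3 : (fun y : V => ker (fun ξ => f (t • ξ)) (t • y) • R.N (t • y) φ) =
      fun y => c • (ker f y • R.N (t • y) φ) := by
    funext y
    rw [hker, smul_assoc]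
  rw [h3, integral_smul] at h2
  unfold VRep.op
  exact ((smul_right_injective H hc0) h2).symm

end

end Pool.H29.DEC

end S_H29_DEC_Eqv

section S_H29_DEC_SecOp

/-!
# SECOP: `op` of a function supported in a thin sector is small on rotation invariant vectors

`‖op f φ‖² = re ⟪φ, op (f²) φ⟫`.  For `g = f²`: `k θ (op g φ) = op (g ∘ rot2 (-θ)) (k θ φ)`
(`op_equiv` with `B = rot2 θ`, `C = rot2 (-θ)`), so
`⟪φ, op g φ⟫ = ⟪k θ φ, k θ (op g φ)⟫ = ⟪φ, op (g ∘ rot2 (-θ)) φ⟫` for all `θ`.  Sum over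
`-θ = π j / N`, `j < N`, `N = ⌊1/η⌋ ≥ 1` and use `sector_sum`, `op_sum`, `op_le`:
`N ‖op f φ‖² ≤ ‖φ‖²`, `1/N ≤ 2 η`.
-/

namespace Pool.H29.DEC

open MeasureTheory Filter Topology
open scoped InnerProductSpace

noncomputable section

variable {H : Type} [NormedAddCommGroup H] [InnerProductSpace ℂ H] [CompleteSpace H]

theorem VRep.sector_op (R : VRep V2 H) (k : ℝ → H →L[ℂ] H)
    (hk : ∀ θ x φ, k θ (R.N x φ) = R.N (rot2 θ x) (k θ φ))
    (hiso : ∀ θ φ, ‖k θ φ‖ = ‖φ‖) {φ : H} (hφ : ∀ θ, k θ φ = φ)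
    {f : V2 → ℝ} (hf : Tst f) (h1 : ∀ ξ, |f ξ| ≤ 1) {η : ℝ} (hη : 0 < η) (hη' : η ≤ 1)
    (hsup : ∀ ξ, f ξ ≠ 0 → |ξ 1| < η * ‖ξ‖) : ‖R.op f φ‖ ^ 2 ≤ 2 * η * ‖φ‖ ^ 2 := by
  -- the value does not depend on the rotation
  have hrot : ∀ θ : ℝ, ⟪φ, R.op (fun ξ => f ξ ^ 2) φ⟫_ℂ =
      ⟪φ, R.op (fun ξ => f (rot2 θ ξ) ^ 2) φ⟫_ℂ := by
    intro θ
    obtain ⟨B, hB⟩ := exists_rotL (-θ)
    obtain ⟨C, hC⟩ := exists_rotL θ
    have hBf : (fun x => B x) = rot2 (-θ) := funext hB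
    have hCf : (fun x => C x) = rot2 θ := funext hC
    have h2 := R.op_equiv B C (by rw [hBf]; exact mp_rot2 _) (by rw [hCf]; exact mp_rot2 _)
      (by
        intro x y
        rw [hC, hB]
        have h3 := inner_rot2 (-θ) x y
        rwa [neg_neg] at h3)
      (k (-θ)) (by intro x ψ; rw [hB]; exact hk (-θ) x ψ) hf.sq φ
    have h4 := (LinearIsometry.mk (k (-θ)).toLinearMap (hiso (-θ))).inner_map_map φ
      (R.op (fun ξ => f ξ ^ 2) φ)
    have h5 : ⟪k (-θ) φ, k (-θ) (R.op (fun ξ => f ξ ^ 2) φ)⟫_ℂ =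
      ⟪φ, R.op (fun ξ => f ξ ^ 2) φ⟫_ℂ := h4
    rw [← h5, h2, hφ (-θ)]
    have h6 : (fun ξ => f (C ξ) ^ 2) = fun ξ => f (rot2 θ ξ) ^ 2 := by
      funext ξ; rw [hC]
    rw [h6]
  have hT : ∀ θ : ℝ, Tst (fun ξ => f (rot2 θ ξ) ^ 2) := by
    intro θ
    obtain ⟨C, hC⟩ := exists_rotL θ
    have h6 : (fun ξ => f (rot2 θ ξ) ^ 2) = fun ξ => (fun ζ => f ζ ^ 2) (C ξ) := by
      funext ξ; rw [hC]
    rw [h6]
    exact hf.sq.comp_equiv C
  set N : ℕ := ⌊1 / η⌋₊ with hN
  have h1η : 1 ≤ 1 / η := by rw [le_div_iff₀ hη]; linarith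
  have hN1 : 1 ≤ N := by
    rw [hN, Nat.one_le_floor_iff]
    exact h1η
  have hN0 : (0 : ℝ) < N := by exact_mod_cast hN1
  have hN1' : (1 : ℝ) ≤ N := by exact_mod_cast hN1
  have hNη : N * η ≤ 1 := by
    have h2 : (N : ℝ) ≤ 1 / η := Nat.floor_le (by positivity)
    rwa [le_div_iff₀ hη] at h2
  have hNη2 : 1 ≤ 2 * η * N := by
    have h2 : 1 / η < N + 1 := Nat.lt_floor_add_one _
    have h3 : 1 / η < 2 * N := by linarith
    rw [div_lt_iff₀ hη] at h3
    linarith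
  have hsum := R.op_sum (Finset.range N) (f := fun j ξ => f (rot2 (Real.pi * j / N) ξ) ^ 2)
    (fun j _ => hT _) φ
  have hle := R.op_le (f := fun ξ => ∑ j ∈ Finset.range N, f (rot2 (Real.pi * j / N) ξ) ^ 2)
    (Tst.sum (Finset.range N) (f := fun j ξ => f (rot2 (Real.pi * j / N) ξ) ^ 2)
      (fun j _ => hT _)) zero_le_one
    (fun ξ => sector_sum (fun ζ => f ζ ^ 2) (fun ζ => by
        have h2 := h1 ζ
        have h3 := abs_nonneg (f ζ)
        rw [← sq_abs]
        nlinarith) η N hNη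
      (fun ζ hζ => hsup ζ (fun h0 => hζ (by simp [h0]))) ξ) φ
  rw [hsum, inner_sum, Complex.re_sum, one_mul] at hle
  have h7 : ∀ j ∈ Finset.range N, (⟪φ, R.op (fun ξ => f (rot2 (Real.pi * j / N) ξ) ^ 2) φ⟫_ℂ).re =
      ‖R.op f φ‖ ^ 2 := by
    intro j _
    rw [← hrot, R.op_norm_sq hf]
  rw [Finset.sum_congr rfl h7, Finset.sum_const, Finset.card_range, nsmul_eq_mul] at hle
  have h8 : (N : ℝ) * ‖R.op f φ‖ ^ 2 ≤ N * (2 * η * ‖φ‖ ^ 2) := by
    refine hle.trans ?_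
    have h9 : 0 ≤ ‖φ‖ ^ 2 := sq_nonneg _
    nlinarith
  exact le_of_mul_le_mul_left h8 hN0

end

end Pool.H29.DEC

end S_H29_DEC_SecOp

section S_H29_DEC_Cut

/-!
# CUT: the radial and angular cut-offs

`Real.smoothTransition` is `0` for `x ≤ 0`, `1` for `x ≥ 1`, in `[0,1]`, smooth.
`rh t ξ = th (t ξ) - th (ξ/t)` for `0 < t ≤ 1/2`: where `th (ξ/t) ≠ 0` one has `‖ξ‖² < 2 t²`, so
`‖t ξ‖² ≤ 1` and `th (t ξ) = 1`.  `rh t ξ = 0` for `‖ξ‖ ≤ t`.  The function `al δ` is smooth away from `0`.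
-/

namespace Pool.H29.DEC

open MeasureTheory Filter Topology
open scoped InnerProductSpace ContDiff

noncomputable section

theorem cut_th_eq_zero {ξ : V2} (h : 2 ≤ ‖ξ‖ ^ 2) : th ξ = 0 := by
  unfold th
  rw [Real.smoothTransition.one_of_one_le (by linarith), sub_self]

theorem cut_th_eq_one {ξ : V2} (h : ‖ξ‖ ^ 2 ≤ 1) : th ξ = 1 := by
  unfold th
  rw [Real.smoothTransition.zero_of_nonpos (by linarith), sub_zero]

theorem cut_th_smooth : ContDiff ℝ ∞ th := by
  unfold th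
  exact contDiff_const.sub (Real.smoothTransition.contDiff.comp
    ((contDiff_norm_sq ℝ).sub contDiff_const))

theorem th_tst : Tst th := by
  refine ⟨cut_th_smooth, ?_⟩
  refine HasCompactSupport.intro (isCompact_closedBall (0 : V2) 2) ?_
  intro ξ hξ
  apply cut_th_eq_zero
  rw [Metric.mem_closedBall, dist_zero_right, not_le] at hξ
  nlinarith

theorem th_zero : th 0 = 1 := by
  apply cut_th_eq_one
  simp

theorem th_nonneg (ξ : V2) : 0 ≤ th ξ := by
  unfold th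
  linarith [Real.smoothTransition.le_one (‖ξ‖ ^ 2 - 1)]

theorem th_le_one (ξ : V2) : th ξ ≤ 1 := by
  unfold th
  linarith [Real.smoothTransition.nonneg (‖ξ‖ ^ 2 - 1)]

theorem cut_norm_sq (ξ : V2) : ‖ξ‖ ^ 2 = ξ 0 ^ 2 + ξ 1 ^ 2 := by
  rw [EuclideanSpace.norm_sq_eq, Fin.sum_univ_two, Real.norm_eq_abs, Real.norm_eq_abs, sq_abs,
    sq_abs]

theorem th_rot2 (θ : ℝ) (ξ : V2) : th (rot2 θ ξ) = th ξ := by
  unfold th
  have h : ‖rot2 θ ξ‖ ^ 2 = ‖ξ‖ ^ 2 := by
    rw [cut_norm_sq, cut_norm_sq]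
    have h0 : rot2 θ ξ 0 = Real.cos θ * ξ 0 - Real.sin θ * ξ 1 := rfl
    have h1 : rot2 θ ξ 1 = Real.sin θ * ξ 0 + Real.cos θ * ξ 1 := rfl
    rw [h0, h1]
    have h2 := Real.sin_sq_add_cos_sq θ
    linear_combination (ξ 0 ^ 2 + ξ 1 ^ 2) * h2
  rw [h]

theorem cut_comp_tst {c : ℝ} (hc : 0 < c) : Tst (fun ξ : V2 => th (c • ξ)) := by
  refine ⟨cut_th_smooth.comp (contDiff_const_smul c), ?_⟩
  refine HasCompactSupport.intro (isCompact_closedBall (0 : V2) (2 / c)) ?_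
  intro ξ hξ
  apply cut_th_eq_zero
  rw [Metric.mem_closedBall, dist_zero_right, not_le, div_lt_iff₀ hc] at hξ
  rw [norm_smul, Real.norm_eq_abs, abs_of_pos hc]
  nlinarith

theorem rh_tst {t : ℝ} (ht : 0 < t) : Tst (rh t) := by
  have h1 := cut_comp_tst ht
  have h2 := cut_comp_tst (inv_pos.2 ht)
  exact ⟨h1.1.sub h2.1, h1.2.sub h2.2⟩

theorem cut_scale {c : ℝ} (hc : 0 < c) (ξ : V2) : ‖c • ξ‖ ^ 2 = c ^ 2 * ‖ξ‖ ^ 2 := by
  rw [norm_smul, Real.norm_eq_abs, abs_of_pos hc, mul_pow]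

theorem rh_nonneg {t : ℝ} (ht : 0 < t) (ht' : t ≤ 1 / 2) (ξ : V2) : 0 ≤ rh t ξ := by
  unfold rh
  by_cases h : 2 ≤ ‖t⁻¹ • ξ‖ ^ 2
  · rw [cut_th_eq_zero h, sub_zero]
    exact th_nonneg _
  · rw [not_le, cut_scale (inv_pos.2 ht), inv_pow, inv_mul_lt_iff₀ (by positivity)] at h
    rw [cut_th_eq_one (ξ := t • ξ), sub_nonneg]
    · exact th_le_one _
    · rw [cut_scale ht]
      have h1 : t ^ 2 ≤ 1 / 4 := by nlinarith
      have h2 : 0 ≤ t ^ 2 := sq_nonneg t
      have h3 : 0 ≤ ‖ξ‖ ^ 2 := sq_nonneg _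
      nlinarith

theorem rh_le_one {t : ℝ} (ξ : V2) : rh t ξ ≤ 1 := by
  unfold rh
  linarith [th_le_one (t • ξ), th_nonneg (t⁻¹ • ξ)]

theorem rh_eq_zero {t : ℝ} (ht : 0 < t) (ht' : t ≤ 1 / 2) (ξ : V2) (h : ‖ξ‖ ≤ t) :
    rh t ξ = 0 := by
  unfold rh
  have h0 : 0 ≤ ‖ξ‖ := norm_nonneg ξ
  have h1 : ‖ξ‖ ^ 2 ≤ t ^ 2 := pow_le_pow_left₀ h0 h 2
  rw [cut_th_eq_one (ξ := t • ξ), cut_th_eq_one (ξ := t⁻¹ • ξ), sub_self]
  · rw [cut_scale (inv_pos.2 ht), inv_pow, inv_mul_le_iff₀ (by positivity), mul_one]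
    exact h1
  · rw [cut_scale ht]
    have h2 : t ^ 2 ≤ 1 / 4 := by nlinarith
    have h3 : 0 ≤ ‖ξ‖ ^ 2 := sq_nonneg _
    nlinarith

theorem al_nonneg (δ : ℝ) (ξ : V2) : 0 ≤ al δ ξ := by
  unfold al
  linarith [Real.smoothTransition.le_one ((ξ 1 ^ 2 / (δ ^ 2 * ‖ξ‖ ^ 2) - 1) / 3)]

theorem al_le_one (δ : ℝ) (ξ : V2) : al δ ξ ≤ 1 := by
  unfold al
  linarith [Real.smoothTransition.nonneg ((ξ 1 ^ 2 / (δ ^ 2 * ‖ξ‖ ^ 2) - 1) / 3)]

theorem cut_al_smooth {δ : ℝ} (hδ : 0 < δ) {ξ : V2} (hξ : ξ ≠ 0) : ContDiffAt ℝ ∞ (al δ) ξ := by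
  unfold al
  have h1 : ContDiffAt ℝ ∞ (fun ξ : V2 => ξ 1 ^ 2) ξ :=
    ((EuclideanSpace.proj (𝕜 := ℝ) (1 : Fin 2)).contDiff.pow 2).contDiffAt
  have h2 : ContDiffAt ℝ ∞ (fun ξ : V2 => δ ^ 2 * ‖ξ‖ ^ 2) ξ :=
    (contDiff_const.mul (contDiff_norm_sq ℝ)).contDiffAt
  have h3 : δ ^ 2 * ‖ξ‖ ^ 2 ≠ 0 := by
    have : 0 < ‖ξ‖ := norm_pos_iff.2 hξ
    positivity
  have h4 : ContDiffAt ℝ ∞ (fun ξ : V2 => (ξ 1 ^ 2 / (δ ^ 2 * ‖ξ‖ ^ 2) - 1) / 3) ξ :=
    ((h1.div h2 h3).sub contDiffAt_const).div_const 3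
  exact contDiffAt_const.sub (Real.smoothTransition.contDiff.contDiffAt.comp ξ h4)

theorem rh_al_tst {t : ℝ} (ht : 0 < t) (ht' : t ≤ 1 / 2) {δ : ℝ} (hδ : 0 < δ) :
    Tst (fun ξ => rh t ξ * al δ ξ) := by
  refine ⟨?_, (rh_tst ht).2.mul_right⟩
  rw [contDiff_iff_contDiffAt]
  intro ξ
  by_cases hξ : ξ = 0
  · have h1 : (fun ξ : V2 => rh t ξ * al δ ξ) =ᶠ[𝓝 ξ] fun _ => (0 : ℝ) := by
      rw [hξ]
      filter_upwards [Metric.closedBall_mem_nhds (0 : V2) ht] with η hη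
      rw [Metric.mem_closedBall, dist_zero_right] at hη
      rw [rh_eq_zero ht ht' η hη, zero_mul]
    exact contDiffAt_const.congr_of_eventuallyEq h1
  · exact (rh_tst ht).1.contDiffAt.mul (cut_al_smooth hδ hξ)

theorem cut_pos {t : ℝ} (ht : 0 < t) (ht' : t ≤ 1 / 2) (ξ : V2) (h : rh t ξ ≠ 0) : 0 < ‖ξ‖ := by
  by_contra hc
  exact h (rh_eq_zero ht ht' ξ ((not_lt.1 hc).trans ht.le))

theorem rh_al_ne {t : ℝ} (ht : 0 < t) (ht' : t ≤ 1 / 2) {δ : ℝ} (hδ : 0 < δ) (ξ : V2)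
    (h : rh t ξ * al δ ξ ≠ 0) : |ξ 1| < 2 * δ * ‖ξ‖ := by
  have h1 : 0 < ‖ξ‖ := cut_pos ht ht' ξ (left_ne_zero_of_mul h)
  have h2 : al δ ξ ≠ 0 := right_ne_zero_of_mul h
  have h3 : (ξ 1 ^ 2 / (δ ^ 2 * ‖ξ‖ ^ 2) - 1) / 3 < 1 := by
    by_contra hc
    apply h2
    unfold al
    rw [Real.smoothTransition.one_of_one_le (not_lt.1 hc), sub_self]
  have h4 : ξ 1 ^ 2 / (δ ^ 2 * ‖ξ‖ ^ 2) < 4 := by linarith
  rw [div_lt_iff₀ (by positivity)] at h4
  apply abs_lt_of_sq_lt_sq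
  · calc ξ 1 ^ 2 < 4 * (δ ^ 2 * ‖ξ‖ ^ 2) := h4
      _ = (2 * δ * ‖ξ‖) ^ 2 := by ring
  · positivity

theorem rh_al_ne' {t : ℝ} (ht : 0 < t) (ht' : t ≤ 1 / 2) {δ : ℝ} (hδ : 0 < δ) (ξ : V2)
    (h : rh t ξ - rh t ξ * al δ ξ ≠ 0) : δ * ‖ξ‖ < |ξ 1| := by
  have h0 : rh t ξ * (1 - al δ ξ) ≠ 0 := by
    intro hc
    apply h
    rw [← hc]
    ring
  have h1 : 0 < ‖ξ‖ := cut_pos ht ht' ξ (left_ne_zero_of_mul h0)
  have h2 : 1 - al δ ξ ≠ 0 := right_ne_zero_of_mul h0
  have h3 : 0 < (ξ 1 ^ 2 / (δ ^ 2 * ‖ξ‖ ^ 2) - 1) / 3 := by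
    by_contra hc
    apply h2
    unfold al
    rw [Real.smoothTransition.zero_of_nonpos (not_lt.1 hc)]
    ring
  have h4 : 1 < ξ 1 ^ 2 / (δ ^ 2 * ‖ξ‖ ^ 2) := by linarith
  rw [lt_div_iff₀ (by positivity), one_mul] at h4
  have h5 : (δ * ‖ξ‖) ^ 2 < ξ 1 ^ 2 := by
    calc (δ * ‖ξ‖) ^ 2 = δ ^ 2 * ‖ξ‖ ^ 2 := by ring
      _ < ξ 1 ^ 2 := h4
  have h6 := sq_lt_sq.1 h5
  rwa [abs_of_nonneg (by positivity)] at h6

end

end Pool.H29.DEC

end S_H29_DEC_Cut

section S_H29_DEC_LimZ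

/-!
# LIMZ: `op f(t •) φ → φ` as `t → 0` if `f 0 = 1`

By `op_scale` and `integral_ker`:
`op f(t •) φ - φ = ∫ ker f y • (N (t y) φ - φ) dy`, dominated convergence.
-/

namespace Pool.H29.DEC

open MeasureTheory Filter Topology
open scoped FourierTransform SchwartzMap InnerProductSpace ContDiff

noncomputable section

variable {V : Type} [NormedAddCommGroup V] [InnerProductSpace ℝ V] [FiniteDimensional ℝ V]
  [MeasurableSpace V] [BorelSpace V]
variable {H : Type} [NormedAddCommGroup H] [InnerProductSpace ℂ H] [CompleteSpace H]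

theorem VRep.lim_zero (R : VRep V H) {f : V → ℝ} (hf : Tst f) (h0 : f 0 = 1) (φ : H) :
    Tendsto (fun t : ℝ => R.op (fun ξ => f (t • ξ)) φ) (𝓝[>] 0) (𝓝 φ) := by
  have hlim : ∫ y, ker f y • φ = φ := by
    rw [integral_smul_const, integral_ker hf, h0]
    simp
  have h1 : Tendsto (fun t : ℝ => ∫ y, ker f y • R.N (t • y) φ) (𝓝[>] 0) (𝓝 (∫ y, ker f y • φ)) := by
    refine tendsto_integral_filter_of_dominated_convergence (fun y => ‖ker f y‖ * ‖φ‖) ?_ ?_
      ((ker_integrable hf).norm.mul_const ‖φ‖) ?_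
    · refine Eventually.of_forall fun t => ?_
      have hc : Continuous (fun y : V => R.N (t • y) φ) :=
        (R.cont φ).comp (continuous_const_smul t)
      exact (ker_integrable hf).aestronglyMeasurable.smul hc.aestronglyMeasurable
    · refine Eventually.of_forall fun t => Eventually.of_forall fun y => ?_
      rw [norm_smul, R.isom]
    · refine Eventually.of_forall fun y => ?_
      have hc : Continuous (fun t : ℝ => R.N (t • y) φ) :=
        (R.cont φ).comp (continuous_id.smul continuous_const)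
      have h2 : Tendsto (fun t : ℝ => R.N (t • y) φ) (𝓝 0) (𝓝 φ) := by
        have h3 := hc.tendsto 0
        rwa [zero_smul, R.zero] at h3
      exact tendsto_const_nhds.smul (h2.mono_left nhdsWithin_le_nhds)
  rw [hlim] at h1
  refine h1.congr' ?_
  filter_upwards [self_mem_nhdsWithin] with t ht
  exact (R.op_scale hf ht φ).symm

end

end Pool.H29.DEC

end S_H29_DEC_LimZ

section S_H29_DEC_LimI

/-!
# LIMI: `op f(t •) φ → 0` as `t → ∞` on a subspace without invariant vectors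

(a) `lim_top_aux`: for `φ = ψ - N z ψ`: by `op_scale`
`op f(t •) φ = ∫ (ker f y - ker f (y - z/t)) • N (t y) ψ dy`, of norm
`≤ ‖ψ‖ ∫ ‖ker f y - ker f (y - z/t)‖ dy → 0` by dominated convergence (`ker_decay` with
`k > dim V`: for `‖w‖ ≤ 1`, `‖ker f (y - w)‖ ≤ C (1+‖y-w‖)^{-k} ≤ 2^k C (1+‖y‖)^{-k}`,
`integrable_one_add_norm`).
(b) The span of the vectors `ψ - N z ψ`, `ψ ∈ K`, is dense in `K`: a vector `η ∈ K` orthogonal to all
of them is fixed by all `N z` (`⟪η, ψ - N z ψ⟫ = ⟪η - N (-z) η, ψ⟫`, take `ψ = η - N (-z) η`), so `0`.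
(c) `‖op f(t •) φ‖ ≤ c ‖φ‖` with `c` independent of `t` (`op_norm_le`; `f` is bounded).
-/

namespace Pool.H29.DEC

open MeasureTheory Filter Topology
open scoped FourierTransform SchwartzMap InnerProductSpace ContDiff

noncomputable section

variable {V : Type} [NormedAddCommGroup V] [InnerProductSpace ℝ V] [FiniteDimensional ℝ V]
  [MeasurableSpace V] [BorelSpace V]
variable {H : Type} [NormedAddCommGroup H] [InnerProductSpace ℂ H] [CompleteSpace H]

/-- the representation `x ↦ N (t x)` -/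
def VRep.limi_scale (R : VRep V H) (t : ℝ) : VRep V H where
  N := fun x => R.N (t • x)
  zero := fun φ => by rw [smul_zero, R.zero]
  add := fun x y φ => by rw [smul_add, R.add]
  isom := fun x φ => R.isom _ φ
  cont := fun φ => (R.cont φ).comp (continuous_const_smul t)

theorem limi_dom {f : V → ℝ} (hf : Tst f) (z : V) :
    Tendsto (fun t : ℝ => ∫ y, ‖ker f y - ker f (y - t⁻¹ • z)‖) atTop (𝓝 0) := by
  set n : ℕ := Module.finrank ℝ V + 1 with hn
  obtain ⟨C, hC, hdec⟩ := ker_decay hf n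
  have hcont := ker_continuous hf
  have hb : ∀ y, ‖ker f y‖ ≤ C * (1 + ‖y‖) ^ (-(n : ℝ)) := by
    intro y
    have h1 : 0 < 1 + ‖y‖ := by positivity
    rw [Real.rpow_neg h1.le, Real.rpow_natCast, ← div_eq_mul_inv, le_div_iff₀ (by positivity)]
    linarith [hdec y, mul_comm ((1 + ‖y‖) ^ n) ‖ker f y‖]
  have hb2 : ∀ w y : V, ‖w‖ ≤ 1 → ‖ker f (y - w)‖ ≤ 2 ^ n * C * (1 + ‖y‖) ^ (-(n : ℝ)) := by
    intro w y hw
    have h1 : 0 < 1 + ‖y‖ := by positivity
    rw [Real.rpow_neg h1.le, Real.rpow_natCast, ← div_eq_mul_inv, le_div_iff₀ (by positivity)]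
    have h2 : 1 + ‖y‖ ≤ 2 * (1 + ‖y - w‖) := by
      have h3 : ‖y‖ ≤ ‖y - w‖ + ‖w‖ := by
        calc ‖y‖ = ‖(y - w) + w‖ := by rw [sub_add_cancel]
          _ ≤ ‖y - w‖ + ‖w‖ := norm_add_le _ _
      have h4 : 0 ≤ ‖y - w‖ := norm_nonneg _
      linarith
    calc ‖ker f (y - w)‖ * (1 + ‖y‖) ^ n ≤ ‖ker f (y - w)‖ * (2 * (1 + ‖y - w‖)) ^ n := by
          apply mul_le_mul_of_nonneg_left _ (norm_nonneg _)
          exact pow_le_pow_left₀ h1.le h2 n
      _ = 2 ^ n * ((1 + ‖y - w‖) ^ n * ‖ker f (y - w)‖) := by rw [mul_pow]; ring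
      _ ≤ 2 ^ n * C := by
          apply mul_le_mul_of_nonneg_left (hdec _)
          positivity
  have h0 : (0 : ℝ) = ∫ _y : V, (0 : ℝ) := by simp
  rw [h0]
  refine tendsto_integral_filter_of_dominated_convergence
    (fun y : V => (C + 2 ^ n * C) * (1 + ‖y‖) ^ (-(n : ℝ))) ?_ ?_ ?_ ?_
  · exact Eventually.of_forall fun t =>
      ((hcont.sub (hcont.comp (continuous_id.sub continuous_const))).norm).aestronglyMeasurable
  · filter_upwards [eventually_ge_atTop (max 1 ‖z‖)] with t ht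
    have ht1 : 1 ≤ t := (le_max_left _ _).trans ht
    have ht0 : 0 < t := by linarith
    have hz : ‖z‖ ≤ t := (le_max_right _ _).trans ht
    have hw : ‖t⁻¹ • z‖ ≤ 1 := by
      rw [norm_smul, norm_inv, Real.norm_eq_abs, abs_of_pos ht0, inv_mul_le_iff₀ ht0, mul_one]
      exact hz
    refine Eventually.of_forall fun y => ?_
    rw [norm_norm]
    calc ‖ker f y - ker f (y - t⁻¹ • z)‖ ≤ ‖ker f y‖ + ‖ker f (y - t⁻¹ • z)‖ := norm_sub_le _ _
      _ ≤ C * (1 + ‖y‖) ^ (-(n : ℝ)) + 2 ^ n * C * (1 + ‖y‖) ^ (-(n : ℝ)) :=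
          add_le_add (hb y) (hb2 _ y hw)
      _ = (C + 2 ^ n * C) * (1 + ‖y‖) ^ (-(n : ℝ)) := by ring
  · apply Integrable.const_mul
    apply integrable_one_add_norm
    rw [hn]
    push_cast
    linarith
  · refine Eventually.of_forall fun y => ?_
    have h1 : Tendsto (fun t : ℝ => y - t⁻¹ • z) atTop (𝓝 (y - (0 : ℝ) • z)) :=
      tendsto_const_nhds.sub (tendsto_inv_atTop_zero.smul_const z)
    rw [zero_smul, sub_zero] at h1
    have h2 : Tendsto (fun t : ℝ => ker f (y - t⁻¹ • z)) atTop (𝓝 (ker f y)) :=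
      (hcont.tendsto y).comp h1
    have h3 : Tendsto (fun t : ℝ => ‖ker f y - ker f (y - t⁻¹ • z)‖) atTop
        (𝓝 ‖ker f y - ker f y‖) := (tendsto_const_nhds.sub h2).norm
    rwa [sub_self, norm_zero] at h3

theorem VRep.lim_top_aux (R : VRep V H) {f : V → ℝ} (hf : Tst f) (ψ : H) (z : V) :
    Tendsto (fun t : ℝ => R.op (fun ξ => f (t • ξ)) (ψ - R.N z ψ)) atTop (𝓝 0) := by
  have hki := ker_integrable hf
  have hkey : ∀ t : ℝ, 0 < t → ‖R.op (fun ξ => f (t • ξ)) (ψ - R.N z ψ)‖ ≤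
      (∫ y, ‖ker f y - ker f (y - t⁻¹ • z)‖) * ‖ψ‖ := by
    intro t ht
    set Rt : VRep V H := R.limi_scale t with hRt
    have hN : ∀ y φ, Rt.N y φ = R.N (t • y) φ := fun y φ => rfl
    have hks : Integrable (fun y => ker f (y - t⁻¹ • z)) := hki.comp_sub_right (t⁻¹ • z)
    have h1 : R.op (fun ξ => f (t • ξ)) (ψ - R.N z ψ) =
        ∫ y, (ker f y - ker f (y - t⁻¹ • z)) • Rt.N y ψ := by
      rw [R.op_scale hf ht]
      have h2 : ∀ y, ker f y • R.N (t • y) (ψ - R.N z ψ) =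
          ker f y • Rt.N y ψ - ker f y • Rt.N (y + t⁻¹ • z) ψ := by
        intro y
        rw [map_sub, smul_sub, ← R.add, hN, hN, smul_add, smul_smul, mul_inv_cancel₀ ht.ne',
          one_smul]
      have h3 : Integrable (fun y => ker f (y - t⁻¹ • z) • Rt.N y ψ) :=
        Rt.integrable_smul hks ψ
      have h4 : Integrable (fun y => ker f y • Rt.N (y + t⁻¹ • z) ψ) := by
        have h5 := h3.comp_add_right (t⁻¹ • z)
        simpa only [add_sub_cancel_right] using h5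
      have h6 : ∫ y, ker f y • Rt.N (y + t⁻¹ • z) ψ = ∫ y, ker f (y - t⁻¹ • z) • Rt.N y ψ := by
        rw [← integral_add_right_eq_self (fun y => ker f (y - t⁻¹ • z) • Rt.N y ψ) (t⁻¹ • z)]
        simp only [add_sub_cancel_right]
      simp only [h2]
      rw [integral_sub (Rt.integrable_smul hki ψ) h4, h6,
        ← integral_sub (Rt.integrable_smul hki ψ) h3]
      simp only [sub_smul]
    rw [h1]
    exact Rt.norm_integral_le (hki.sub hks) ψ
  have hlim : Tendsto (fun t : ℝ => (∫ y, ‖ker f y - ker f (y - t⁻¹ • z)‖) * ‖ψ‖) atTop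
      (𝓝 0) := by
    have h1 := (limi_dom hf z).mul_const ‖ψ‖
    rwa [zero_mul] at h1
  refine squeeze_zero_norm' ?_ hlim
  filter_upwards [eventually_gt_atTop (0 : ℝ)] with t ht
  exact hkey t ht

theorem VRep.lim_top (R : VRep V H) {f : V → ℝ} (hf : Tst f) (K : Submodule ℂ H)
    (hKc : IsClosed (K : Set H)) (hKi : ∀ x, ∀ φ ∈ K, R.N x φ ∈ K)
    (hK0 : ∀ φ ∈ K, (∀ x, R.N x φ = φ) → φ = 0) {φ : H} (hφ : φ ∈ K) :
    Tendsto (fun t : ℝ => R.op (fun ξ => f (t • ξ)) φ) atTop (𝓝 0) := by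
  obtain ⟨c, hc⟩ := hf.2.exists_bound_of_continuous hf.1.continuous
  have hc0 : 0 ≤ c := (norm_nonneg _).trans (hc 0)
  have hT : ∀ t : ℝ, 0 < t → Tst (fun ξ => f (t • ξ)) := fun t ht => hf.comp_smul ht.ne'
  have hbound : ∀ t : ℝ, 0 < t → ∀ η : H, ‖R.op (fun ξ => f (t • ξ)) η‖ ≤ c * ‖η‖ :=
    fun t ht η => R.op_norm_le (hT t ht) hc0 (fun ξ => hc _) η
  -- the closed subspace of vectors with limit zero
  let A : Submodule ℂ H :=
    { carrier := {η | Tendsto (fun t : ℝ => R.op (fun ξ => f (t • ξ)) η) atTop (𝓝 0)}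
      add_mem' := by
        intro a b ha hb
        have h1 := Tendsto.add ha hb
        rw [add_zero] at h1
        refine h1.congr' ?_
        filter_upwards [eventually_gt_atTop (0 : ℝ)] with t ht
        exact (R.op_add_vec (hT t ht) a b).symm
      zero_mem' := by
        have h1 : Tendsto (fun _ : ℝ => (0 : H)) atTop (𝓝 0) := tendsto_const_nhds
        refine h1.congr' ?_
        filter_upwards [eventually_gt_atTop (0 : ℝ)] with t ht
        have h2 := hbound t ht 0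
        rw [norm_zero, mul_zero] at h2
        exact (norm_le_zero_iff.1 h2).symm
      smul_mem' := by
        intro d a ha
        have h1 := Tendsto.const_smul ha d
        rw [smul_zero] at h1
        refine h1.congr' ?_
        filter_upwards [eventually_gt_atTop (0 : ℝ)] with t ht
        exact (R.op_smul_vec (hT t ht) d a).symm }
  have hA : ∀ η, η ∈ A ↔ Tendsto (fun t : ℝ => R.op (fun ξ => f (t • ξ)) η) atTop (𝓝 0) :=
    fun η => Iff.rfl
  have hAc : IsClosed (A : Set H) := by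
    apply isClosed_of_closure_subset
    intro η hη
    show η ∈ A
    rw [hA, Metric.tendsto_nhds]
    intro ε hε
    have hδ : 0 < ε / (2 * (c + 1)) := by positivity
    obtain ⟨η', hη', hd⟩ := Metric.mem_closure_iff.1 hη _ hδ
    have h1 := Metric.tendsto_nhds.1 ((hA η').1 hη') (ε / 2) (by positivity)
    filter_upwards [h1, eventually_gt_atTop (0 : ℝ)] with t ht ht0
    rw [dist_zero_right] at ht ⊢
    have h2 : R.op (fun ξ => f (t • ξ)) η =
        R.op (fun ξ => f (t • ξ)) (η - η') + R.op (fun ξ => f (t • ξ)) η' := by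
      rw [← R.op_add_vec (hT t ht0), sub_add_cancel]
    have h3 : c * ‖η - η'‖ ≤ ε / 2 := by
      rw [dist_eq_norm] at hd
      have h4 : c * ‖η - η'‖ ≤ c * (ε / (2 * (c + 1))) := mul_le_mul_of_nonneg_left hd.le hc0
      have h5 : c * (ε / (2 * (c + 1))) ≤ ε / 2 := by
        rw [mul_div_assoc', div_le_div_iff₀ (by positivity) (by norm_num)]
        nlinarith
      exact h4.trans h5
    calc ‖R.op (fun ξ => f (t • ξ)) η‖
        ≤ ‖R.op (fun ξ => f (t • ξ)) (η - η')‖ + ‖R.op (fun ξ => f (t • ξ)) η'‖ := by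
          rw [h2]
          exact norm_add_le _ _
      _ < c * ‖η - η'‖ + ε / 2 := add_lt_add_of_le_of_lt (hbound t ht0 _) ht
      _ ≤ ε := by linarith
  -- the span of the differences
  set D : Submodule ℂ H :=
    (Submodule.span ℂ {x | ∃ ψ ∈ K, ∃ z, x = ψ - R.N z ψ}).topologicalClosure with hD
  have hDA : D ≤ A := by
    apply Submodule.topologicalClosure_minimal _ _ hAc
    rw [Submodule.span_le]
    rintro x ⟨ψ, _, z, rfl⟩
    exact R.lim_top_aux hf ψ z
  have hDK : D ≤ K := by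
    apply Submodule.topologicalClosure_minimal _ _ hKc
    rw [Submodule.span_le]
    rintro x ⟨ψ, hψ, z, rfl⟩
    exact K.sub_mem hψ (hKi z ψ hψ)
  have hDc : IsClosed (D : Set H) := Submodule.isClosed_topologicalClosure _
  haveI : CompleteSpace D := hDc.completeSpace_coe
  set P : H := (D.starProjection φ : H) with hP
  have hPD : P ∈ D := D.starProjection_apply_mem φ
  have horth : ∀ w ∈ D, ⟪w, φ - P⟫_ℂ = 0 := by
    intro w hw
    exact (Submodule.mem_orthogonal D _).1 (D.sub_starProjection_mem_orthogonal φ) w hw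
  set η : H := φ - P with hη
  have hηK : η ∈ K := K.sub_mem hφ (hDK hPD)
  have hinv : ∀ x, R.N x η = η := by
    intro x
    have hψ : η - R.N x η ∈ K := K.sub_mem hηK (hKi x η hηK)
    have h1 : (η - R.N x η) - R.N (-x) (η - R.N x η) ∈ D := by
      apply Submodule.le_topologicalClosure
      apply Submodule.subset_span
      exact ⟨_, hψ, -x, rfl⟩
    have h2 := horth _ h1
    have h3 : ⟪η, (η - R.N x η) - R.N (-x) (η - R.N x η)⟫_ℂ = 0 := by
      rw [← inner_conj_symm, h2, map_zero]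
    rw [inner_sub_right, R.inner_N, neg_neg, ← inner_sub_left] at h3
    have h4 := inner_self_eq_zero.1 h3
    exact (sub_eq_zero.1 h4).symm
  have hη0 : η = 0 := hK0 η hηK hinv
  have hφP : φ = P := sub_eq_zero.1 hη0
  have hφA : φ ∈ A := by
    rw [hφP]
    exact hDA hPD
  exact (hA φ).1 hφA

end

end Pool.H29.DEC

end S_H29_DEC_LimI

section S_H29_DEC_Main

/-!
# MAIN: decay of matrix coefficients of `SL2 ⋉ ℝ²`, abstract form
-/

namespace Pool.H29.DEC

open MeasureTheory Filter Topology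
open scoped InnerProductSpace

noncomputable section

variable {H : Type} [NormedAddCommGroup H] [InnerProductSpace ℂ H] [CompleteSpace H]

private theorem main_lim (R : VRep V2 H) (K : Submodule ℂ H)
    (hKc : IsClosed (K : Set H)) (hKi : ∀ x, ∀ φ ∈ K, R.N x φ ∈ K)
    (hK0 : ∀ φ ∈ K, (∀ x, R.N x φ = φ) → φ = 0) {φ : H} (hφK : φ ∈ K) :
    Tendsto (fun t : ℝ => R.op (rh t) φ) (𝓝[>] 0) (𝓝 φ) := by
  have h1 := R.lim_zero th_tst th_zero φ
  have h2 := (R.lim_top th_tst K hKc hKi hK0 hφK).comp tendsto_inv_nhdsGT_zero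
  have h3 := h1.sub h2
  rw [sub_zero] at h3
  refine h3.congr' ?_
  filter_upwards [self_mem_nhdsWithin] with t ht
  have ht' : (0 : ℝ) < t := ht
  have := R.op_sub (f := fun ξ => th (t • ξ)) (g := fun ξ => th (t⁻¹ • ξ))
    (th_tst.comp_smul ht'.ne') (th_tst.comp_smul (inv_ne_zero ht'.ne')) φ
  exact this.symm

private theorem main_fix (R : VRep V2 H) (k : ℝ → H →L[ℂ] H)
    (hk : ∀ θ x φ, k θ (R.N x φ) = R.N (rot2 θ x) (k θ φ))
    (hiso : ∀ θ φ, ‖k θ φ‖ = ‖φ‖) {ψ : H} (hψ : ∀ θ, k θ ψ = ψ) {f : V2 → ℝ} (hf : Tst f)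
    (θ : ℝ) : ‖R.op f ψ‖ = ‖R.op (fun ξ => f (rot2 θ ξ)) ψ‖ := by
  obtain ⟨B, hB⟩ := exists_rotL (-θ)
  obtain ⟨C, hC⟩ := exists_rotL θ
  have hBm : MeasurePreserving (fun x => B x) (volume : Measure V2) volume := by
    have : (fun x => B x) = rot2 (-θ) := funext hB
    rw [this]
    exact mp_rot2 _
  have hCm : MeasurePreserving (fun x => C x) (volume : Measure V2) volume := by
    have : (fun x => C x) = rot2 θ := funext hC
    rw [this]
    exact mp_rot2 _
  have h := R.op_equiv B C hBm hCm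
    (by
      intro x y
      rw [hB, hC]
      have := inner_rot2 (-θ) x y
      rwa [neg_neg] at this)
    (k (-θ)) (by intro x φ; rw [hk, hB]) hf ψ
  rw [hψ] at h
  have h2 : (fun ξ => f (C ξ)) = (fun ξ => f (rot2 θ ξ)) := by
    funext ξ; rw [hC]
  rw [h2] at h
  rw [← h, hiso]

private theorem main_dil (R : VRep V2 H) (s : ℝ) (A : H →L[ℂ] H)
    (hA : ∀ x φ, A (R.N x φ) = R.N (dil2 s x) (A φ)) {f : V2 → ℝ} (hf : Tst f) (φ : H) :
    A (R.op f φ) = R.op (fun ξ => f (dil2 s ξ)) (A φ) := by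
  obtain ⟨B, hB⟩ := exists_dilL s
  have hBm : MeasurePreserving (fun x => B x) (volume : Measure V2) volume := by
    have : (fun x => B x) = dil2 s := funext hB
    rw [this]
    exact mp_dil2 _
  have h := R.op_equiv B B hBm hBm
    (by
      intro x y
      rw [hB, hB]
      exact inner_dil2 s x y)
    A (by intro x φ; rw [hA, hB]) hf φ
  rw [h]
  congr 1
  funext ξ
  rw [hB]

private theorem main_dil_tst (s : ℝ) {f : V2 → ℝ} (hf : Tst f) :
    Tst (fun ξ => f (dil2 s ξ)) := by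
  obtain ⟨B, hB⟩ := exists_dilL s
  have := hf.comp_equiv B
  have h2 : (fun ξ => f (B ξ)) = (fun ξ => f (dil2 s ξ)) := by
    funext ξ; rw [hB]
  rwa [h2] at this

private theorem main_rot_tst (θ : ℝ) {f : V2 → ℝ} (hf : Tst f) :
    Tst (fun ξ => f (rot2 θ ξ)) := by
  obtain ⟨B, hB⟩ := exists_rotL θ
  have := hf.comp_equiv B
  have h2 : (fun ξ => f (B ξ)) = (fun ξ => f (rot2 θ ξ)) := by
    funext ξ; rw [hB]
  rwa [h2] at this

theorem VRep.decay (R : VRep V2 H) (K : Submodule ℂ H)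
    (hKc : IsClosed (K : Set H)) (hKi : ∀ x, ∀ φ ∈ K, R.N x φ ∈ K)
    (hK0 : ∀ φ ∈ K, (∀ x, R.N x φ = φ) → φ = 0) (k : ℝ → H →L[ℂ] H)
    (hk : ∀ θ x φ, k θ (R.N x φ) = R.N (rot2 θ x) (k θ φ))
    (hiso : ∀ θ φ, ‖k θ φ‖ = ‖φ‖) (s : ℝ) (A : H →L[ℂ] H)
    (hA : ∀ x φ, A (R.N x φ) = R.N (dil2 s x) (A φ)) (hAiso : ∀ φ, ‖A φ‖ = ‖φ‖)
    {φ ψ : H} (hφK : φ ∈ K) (hφ : ∀ θ, k θ φ = φ) (hψ : ∀ θ, k θ ψ = ψ) :
    ‖⟪ψ, A φ⟫_ℂ‖ ≤ 4 * Real.exp (-s / 2) * ‖φ‖ * ‖ψ‖ := by
  set δ : ℝ := Real.exp (-s) with hδdef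
  have hδ : 0 < δ := Real.exp_pos _
  set e : ℝ := Real.exp (-s / 2) with hedef
  have he : 0 < e := Real.exp_pos _
  have hee : e ^ 2 = δ := by
    rw [hedef, hδdef, ← Real.exp_nat_mul]
    congr 1
    push_cast
    ring
  by_cases hsmall : 1 / 2 < δ
  · -- trivial bound
    have h1 : ‖⟪ψ, A φ⟫_ℂ‖ ≤ ‖ψ‖ * ‖φ‖ := by
      have := norm_inner_le_norm (𝕜 := ℂ) ψ (A φ)
      rwa [hAiso] at this
    have h2 : (1 : ℝ) ≤ 4 * e := by nlinarith
    have h3 : ‖ψ‖ * ‖φ‖ ≤ 4 * e * (‖ψ‖ * ‖φ‖) :=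
      le_mul_of_one_le_left (mul_nonneg (norm_nonneg _) (norm_nonneg _)) h2
    calc ‖⟪ψ, A φ⟫_ℂ‖ ≤ ‖ψ‖ * ‖φ‖ := h1
      _ ≤ 4 * e * (‖ψ‖ * ‖φ‖) := h3
      _ = 4 * e * ‖φ‖ * ‖ψ‖ := by ring
  · have hδ2 : δ ≤ 1 / 2 := not_lt.mp hsmall
    have key : ∀ t : ℝ, 0 < t → t ≤ 1 / 2 →
        ‖⟪ψ, A (R.op (rh t) φ)⟫_ℂ‖ ≤ 4 * e * ‖φ‖ * ‖ψ‖ := by
      intro t ht ht'
      have hχ1 : Tst (fun ξ => rh t ξ * al δ ξ) := rh_al_tst ht ht' hδ
      have hχ2 : Tst (fun ξ => rh t ξ - rh t ξ * al δ ξ) := (rh_tst ht).sub hχ1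
      have hsplit : R.op (rh t) φ = R.op (fun ξ => rh t ξ * al δ ξ) φ +
          R.op (fun ξ => rh t ξ - rh t ξ * al δ ξ) φ := by
        rw [← R.op_add hχ1 hχ2]
        congr 1
        funext ξ
        ring
      have hr0 := fun ξ => rh_nonneg ht ht' ξ
      have hr1 := fun ξ => rh_le_one (t := t) ξ
      have ha0 := fun ξ => al_nonneg δ ξ
      have ha1 := fun ξ => al_le_one δ ξ
      -- first term
      have b1 : ‖R.op (fun ξ => rh t ξ * al δ ξ) φ‖ ≤ 2 * e * ‖φ‖ := by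
        have h := R.sector_op k hk hiso hφ hχ1
          (by
            intro ξ
            rw [abs_of_nonneg (mul_nonneg (hr0 ξ) (ha0 ξ))]
            exact mul_le_one₀ (hr1 ξ) (ha0 ξ) (ha1 ξ))
          (η := 2 * δ) (by positivity) (by linarith)
          (by
            intro ξ hξ
            exact rh_al_ne ht ht' hδ ξ hξ)
        apply abs_le_of_sq_le_sq' _ (by positivity) |>.2
        calc ‖R.op (fun ξ => rh t ξ * al δ ξ) φ‖ ^ 2 ≤ 2 * (2 * δ) * ‖φ‖ ^ 2 := h
          _ = (2 * e * ‖φ‖) ^ 2 := by rw [← hee]; ring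
      -- second term
      set χ : V2 → ℝ := fun ξ => rh t ξ - rh t ξ * al δ ξ with hχdef
      have hχ3 : Tst (fun ξ => χ (dil2 s ξ)) := main_dil_tst s hχ2
      have hχ4 : Tst (fun ξ => χ (dil2 s (rot2 (Real.pi / 2) ξ))) :=
        main_rot_tst (Real.pi / 2) hχ3
      have b2 : ‖R.op (fun ξ => χ (dil2 s ξ)) ψ‖ ≤ 3 / 2 * e * ‖ψ‖ := by
        rw [main_fix R k hk hiso hψ hχ3 (Real.pi / 2)]
        have h := R.sector_op k hk hiso hψ hχ4
          (by
            intro ξ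
            simp only [hχdef]
            have h1 := hr0 (dil2 s (rot2 (Real.pi / 2) ξ))
            have h2 := hr1 (dil2 s (rot2 (Real.pi / 2) ξ))
            have h3 := ha0 (dil2 s (rot2 (Real.pi / 2) ξ))
            have h4 := ha1 (dil2 s (rot2 (Real.pi / 2) ξ))
            rw [abs_le]
            constructor <;> nlinarith)
          (η := δ) hδ (by linarith)
          (by
            intro ξ hξ
            have h5 := rh_al_ne' ht ht' hδ _ hξ
            have h6 : (dil2 s (rot2 (Real.pi / 2) ξ)) 1 = δ * ξ 0 := by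
              simp [dil2, rot2, hδdef]
            have h7 : (dil2 s (rot2 (Real.pi / 2) ξ)) 0 = - (Real.exp s * ξ 1) := by
              simp [dil2, rot2]
            have h8 : |(dil2 s (rot2 (Real.pi / 2) ξ)) 0| ≤ ‖dil2 s (rot2 (Real.pi / 2) ξ)‖ := by
              have := PiLp.norm_apply_le (dil2 s (rot2 (Real.pi / 2) ξ)) 0
              simpa using this
            have h9 : |ξ 0| ≤ ‖ξ‖ := by
              have := PiLp.norm_apply_le ξ 0
              simpa using this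
            rw [h6, abs_mul, abs_of_pos hδ] at h5
            have h10 := lt_of_mul_lt_mul_left h5 hδ.le
            rw [h7, abs_neg, abs_mul, abs_of_pos (Real.exp_pos s)] at h8
            have h11 : Real.exp s * |ξ 1| < ‖ξ‖ := by linarith
            have h12 : δ * Real.exp s = 1 := by
              rw [hδdef, ← Real.exp_add]
              simp
            calc |ξ 1| = δ * (Real.exp s * |ξ 1|) := by rw [← mul_assoc, h12, one_mul]
              _ < δ * ‖ξ‖ := mul_lt_mul_of_pos_left h11 hδ)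
        apply abs_le_of_sq_le_sq' _ (by positivity) |>.2
        calc ‖R.op (fun ξ => χ (dil2 s (rot2 (Real.pi / 2) ξ))) ψ‖ ^ 2
            ≤ 2 * δ * ‖ψ‖ ^ 2 := h
          _ ≤ (3 / 2 * e * ‖ψ‖) ^ 2 := by
            rw [← hee]
            nlinarith [mul_nonneg (sq_nonneg e) (sq_nonneg ‖ψ‖)]
      have c1 : ‖⟪ψ, A (R.op (fun ξ => rh t ξ * al δ ξ) φ)⟫_ℂ‖ ≤ ‖ψ‖ * (2 * e * ‖φ‖) := by
        refine (norm_inner_le_norm _ _).trans ?_
        rw [hAiso]
        exact mul_le_mul_of_nonneg_left b1 (norm_nonneg _)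
      have c2 : ‖⟪ψ, A (R.op χ φ)⟫_ℂ‖ ≤ (3 / 2 * e * ‖ψ‖) * ‖φ‖ := by
        rw [main_dil R s A hA hχ2 φ, R.op_symm hχ3]
        refine (norm_inner_le_norm _ _).trans ?_
        rw [hAiso]
        exact mul_le_mul_of_nonneg_right b2 (norm_nonneg _)
      rw [hsplit, map_add, inner_add_right]
      refine (norm_add_le _ _).trans ?_
      have h13 : 0 ≤ e * (‖φ‖ * ‖ψ‖) := by positivity
      nlinarith
    have hlim : Tendsto (fun t : ℝ => ‖⟪ψ, A (R.op (rh t) φ)⟫_ℂ‖) (𝓝[>] 0)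
        (𝓝 ‖⟪ψ, A φ⟫_ℂ‖) := by
      have h1 := main_lim R K hKc hKi hK0 hφK
      have h2 : Continuous (fun η : H => ‖⟪ψ, A η⟫_ℂ‖) := by fun_prop
      exact (h2.tendsto φ).comp h1
    refine le_of_tendsto hlim ?_
    have h4 : Set.Ioc (0 : ℝ) (1 / 2) ∈ 𝓝[>] (0 : ℝ) := Ioc_mem_nhdsGT (by norm_num)
    filter_upwards [h4] with t ht
    exact key t ht.1 ht.2

end

end Pool.H29.DEC

end S_H29_DEC_Main

section S_H29_DEC_Mau

/-!
# MAU: Mautner's lemma for `SL(3,ℝ)`

Let `φ` be fixed by the root group `U i m`, `l` the third index.  For `λ > 0`, `ε ≠ 0`: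
`U i m ((λ-1)/ε) * U m i ε * U i m ((1/λ-1)/ε)` has the `(i,m)` block `[λ, 0; ε, 1/λ]`, so it tends to
`diag(λ at i, 1/λ at m, 1 at l)` as `ε → 0`, while `⟪φ, π(·) φ⟫ = ⟪φ, π(U m i ε) φ⟫ → ‖φ‖²`.  So
`⟪φ, π(d) φ⟫ = ‖φ‖²`, i.e. `π(d) φ = φ`, for `d = d_λ`.  If `d_a > d_b` then
`d^{-n} U a b s d^n = U a b (s (d_a/d_b)^{-n}) → 1`, so
`‖π(U a b s) φ - φ‖ = ‖π(d^{-n} U a b s d^n) φ - φ‖ → 0`: with `λ = 2` this gives all root groups
`(i,m), (i,l), (l,m)`, with `λ = 1/2` the groups `(m,i), (l,i), (m,l)`.  So all transvections fix `φ`, and (same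
argument for every pair, any `λ ≠ 0`, or directly) all diagonal matrices in `G`;
`Matrix.diagonal_transvection_induction` with
`P A := A.det = 1 ∧ ∀ h, R.π ⟨A, h⟩ φ = φ` gives all of `G`.
-/

set_option autoImplicit false

open MeasureTheory Set Filter
open scoped Topology InnerProductSpace

namespace Pool.Agent.H88.LF

/-- entries of the diagonal matrix -/
noncomputable def MAU_e (i m : Fin 3) (c : ℝ) : Fin 3 → ℝ := fun a =>
  if a = i then c else if a = m then c⁻¹ else 1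

theorem MAU_det (i m : Fin 3) (h : i ≠ m) {c : ℝ} (hc : c ≠ 0) :
    (Matrix.diagonal (MAU_e i m c) : Mat).det = 1 := by
  rw [Matrix.det_diagonal, Fin.prod_univ_three]
  have h1 := mul_inv_cancel₀ hc
  have h2 := inv_mul_cancel₀ hc
  fin_cases i <;> fin_cases m <;> first | exact absurd rfl h | skip
  all_goals simp [MAU_e, h1, h2]

/-- the diagonal element -/
noncomputable def MAU_d (i m : Fin 3) (h : i ≠ m) (c : ℝ) (hc : c ≠ 0) : G :=
  ⟨Matrix.diagonal (MAU_e i m c), MAU_det i m h hc⟩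

theorem MAU_U_cont (i m : Fin 3) (h : i ≠ m) : Continuous (U i m h) := by
  rw [closedEmb_val.isEmbedding.continuous_iff]
  change Continuous fun s => Matrix.transvection i m s
  unfold Matrix.transvection
  refine continuous_const.add ?_
  refine continuous_matrix fun a b => ?_
  simp only [Matrix.single_apply]
  split_ifs
  · exact continuous_id
  · exact continuous_const

theorem MAU_U_zero (i m : Fin 3) (h : i ≠ m) : U i m h 0 = 1 := by
  apply Subtype.ext
  change (Matrix.transvection i m (0 : ℝ) : Mat) = (1 : Mat)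
  exact Matrix.transvection_zero i m

theorem MAU_prod (i m : Fin 3) (h : i ≠ m) (c ε : ℝ) (hc : c ≠ 0) (hε : ε ≠ 0) :
    U i m h ((c - 1) / ε) * U m i h.symm ε * U i m h ((c⁻¹ - 1) / ε) =
      MAU_d i m h c hc * U m i h.symm (ε * c) := by
  apply Subtype.ext
  change Matrix.transvection i m ((c - 1) / ε) * Matrix.transvection m i ε *
    Matrix.transvection i m ((c⁻¹ - 1) / ε) =
      Matrix.diagonal (MAU_e i m c) * Matrix.transvection m i (ε * c)
  ext a b
  fin_cases i <;> fin_cases m <;> first | exact absurd rfl h | skip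
  all_goals
    fin_cases a <;> fin_cases b <;>
    simp [Matrix.mul_apply, Matrix.transvection, Fin.sum_univ_three, Matrix.one_apply,
      Matrix.single_apply, MAU_e, Matrix.diagonal_apply]
  all_goals try field_simp
  all_goals try ring

theorem MAU_fix_d {H : Type} [NormedAddCommGroup H] [InnerProductSpace ℂ H]
    (R : URep H) (i m : Fin 3) (h : i ≠ m) (φ : H) (hφ : ∀ s, R.π (U i m h s) φ = φ)
    (c : ℝ) (hc : c ≠ 0) : R.π (MAU_d i m h c hc) φ = φ := by
  have h1 : ∀ ε : ℝ, ε ≠ 0 →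
      ‖R.π (MAU_d i m h c hc * U m i h.symm (ε * c)) φ - φ‖ = ‖R.π (U m i h.symm ε) φ - φ‖ := by
    intro ε hε
    rw [← MAU_prod i m h c ε hc hε, R.mul, R.mul, hφ]
    nth_rewrite 2 [← hφ ((c - 1) / ε)]
    rw [← map_sub, R.isom]
  have h2 : Tendsto (fun ε : ℝ => ‖R.π (MAU_d i m h c hc * U m i h.symm (ε * c)) φ - φ‖)
      (𝓝[≠] 0) (𝓝 ‖R.π (MAU_d i m h c hc) φ - φ‖) := by
    have e1 : Continuous fun ε : ℝ => ‖R.π (MAU_d i m h c hc * U m i h.symm (ε * c)) φ - φ‖ := by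
      have e2 : Continuous fun ε : ℝ => MAU_d i m h c hc * U m i h.symm (ε * c) :=
        continuous_const.mul ((MAU_U_cont m i h.symm).comp (by fun_prop))
      exact (((R.cont φ).comp e2).sub continuous_const).norm
    have e3 := (e1.tendsto 0).mono_left (nhdsWithin_le_nhds (s := {0}ᶜ))
    simpa [MAU_U_zero] using e3
  have h3 : Tendsto (fun ε : ℝ => ‖R.π (U m i h.symm ε) φ - φ‖) (𝓝[≠] 0) (𝓝 0) := by
    have e1 : Continuous fun ε : ℝ => ‖R.π (U m i h.symm ε) φ - φ‖ :=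
      (((R.cont φ).comp (MAU_U_cont m i h.symm)).sub continuous_const).norm
    have e3 := (e1.tendsto 0).mono_left (nhdsWithin_le_nhds (s := {0}ᶜ))
    simpa [MAU_U_zero, R.one] using e3
  have h4 : Tendsto (fun ε : ℝ => ‖R.π (MAU_d i m h c hc * U m i h.symm (ε * c)) φ - φ‖)
      (𝓝[≠] 0) (𝓝 0) := by
    refine h3.congr' ?_
    filter_upwards [self_mem_nhdsWithin] with ε hε
    exact (h1 ε hε).symm
  have h5 := tendsto_nhds_unique h2 h4
  rw [norm_eq_zero, sub_eq_zero] at h5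
  exact h5

/-- the weight -/
noncomputable def MAU_w (i m : Fin 3) : Fin 3 → ℝ := fun a =>
  if a = i then 1 else if a = m then -1 else 0

theorem MAU_e_exp (i m : Fin 3) (x : ℝ) (a : Fin 3) :
    MAU_e i m (Real.exp x) a = Real.exp (MAU_w i m a * x) := by
  unfold MAU_e MAU_w
  split_ifs
  · rw [one_mul]
  · rw [neg_one_mul, Real.exp_neg]
  · rw [zero_mul, Real.exp_zero]

theorem MAU_w_ne (i m : Fin 3) (h : i ≠ m) (a b : Fin 3) (hab : a ≠ b) :
    MAU_w i m b - MAU_w i m a ≠ 0 := by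
  fin_cases i <;> fin_cases m <;> first | exact absurd rfl h | skip
  all_goals
    fin_cases a <;> fin_cases b <;> first | exact absurd rfl hab | skip
  all_goals norm_num [MAU_w]

theorem MAU_conj (i m : Fin 3) (h : i ≠ m) (a b : Fin 3) (hab : a ≠ b) (s x : ℝ) :
    U a b hab s * MAU_d i m h (Real.exp x) (Real.exp_ne_zero x) =
      MAU_d i m h (Real.exp x) (Real.exp_ne_zero x) *
        U a b hab (s * Real.exp ((MAU_w i m b - MAU_w i m a) * x)) := by
  apply Subtype.ext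
  change Matrix.transvection a b s * Matrix.diagonal (MAU_e i m (Real.exp x)) =
    Matrix.diagonal (MAU_e i m (Real.exp x)) * Matrix.transvection a b _
  ext p q
  rw [Matrix.mul_diagonal, Matrix.diagonal_mul, MAU_e_exp, MAU_e_exp]
  simp only [Matrix.transvection, Matrix.add_apply, Matrix.single_apply, Matrix.one_apply]
  by_cases h1 : a = p ∧ b = q
  · obtain ⟨rfl, rfl⟩ := h1
    simp only [hab, if_false, and_self, if_true, zero_add]
    rw [sub_mul, Real.exp_sub]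
    have := Real.exp_ne_zero (MAU_w i m a * x)
    field_simp
  · rw [if_neg h1, if_neg h1, add_zero]
    by_cases h2 : p = q
    · subst h2
      simp
    · simp [h2]

theorem MAU_fix_U {H : Type} [NormedAddCommGroup H] [InnerProductSpace ℂ H]
    (R : URep H) (i m : Fin 3) (h : i ≠ m) (φ : H) (hφ : ∀ s, R.π (U i m h s) φ = φ)
    (a b : Fin 3) (hab : a ≠ b) (s : ℝ) : R.π (U a b hab s) φ = φ := by
  have hw := MAU_w_ne i m h a b hab
  have h1 : ∀ n : ℕ, ‖R.π (U a b hab s) φ - φ‖ =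
      ‖R.π (U a b hab (s * Real.exp (-(n : ℝ)))) φ - φ‖ := by
    intro n
    have e1 := MAU_conj i m h a b hab s (-(n : ℝ) / (MAU_w i m b - MAU_w i m a))
    have e2 : (MAU_w i m b - MAU_w i m a) * (-(n : ℝ) / (MAU_w i m b - MAU_w i m a)) = -(n : ℝ) := by
      field_simp
    rw [e2] at e1
    have hd := MAU_fix_d R i m h φ hφ (Real.exp (-(n : ℝ) / (MAU_w i m b - MAU_w i m a)))
      (Real.exp_ne_zero _)
    have e3 : R.π (U a b hab s) φ = R.π (MAU_d i m h
        (Real.exp (-(n : ℝ) / (MAU_w i m b - MAU_w i m a))) (Real.exp_ne_zero _))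
          (R.π (U a b hab (s * Real.exp (-(n : ℝ)))) φ) := by
      rw [← R.mul, ← e1, R.mul, hd]
    rw [e3]
    have e4 : ∀ ψ : H, ‖R.π (MAU_d i m h
        (Real.exp (-(n : ℝ) / (MAU_w i m b - MAU_w i m a))) (Real.exp_ne_zero _)) ψ - φ‖ =
          ‖ψ - φ‖ := by
      intro ψ
      have e5 : R.π (MAU_d i m h
        (Real.exp (-(n : ℝ) / (MAU_w i m b - MAU_w i m a))) (Real.exp_ne_zero _)) ψ - φ =
        R.π (MAU_d i m h
        (Real.exp (-(n : ℝ) / (MAU_w i m b - MAU_w i m a))) (Real.exp_ne_zero _)) (ψ - φ) := by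
        rw [map_sub, hd]
      rw [e5, R.isom]
    rw [e4]
  have h2 : Tendsto (fun n : ℕ => ‖R.π (U a b hab (s * Real.exp (-(n : ℝ)))) φ - φ‖) atTop
      (𝓝 0) := by
    have e1 : Continuous fun t : ℝ => ‖R.π (U a b hab t) φ - φ‖ :=
      (((R.cont φ).comp (MAU_U_cont a b hab)).sub continuous_const).norm
    have e2 : Tendsto (fun n : ℕ => s * Real.exp (-(n : ℝ))) atTop (𝓝 0) := by
      have e3 := (Real.tendsto_exp_neg_atTop_nhds_zero.comp
        (tendsto_natCast_atTop_atTop (R := ℝ))).const_mul s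
      simpa using e3
    have e4 := (e1.tendsto 0).comp e2
    simpa [MAU_U_zero, R.one, Function.comp_def] using e4
  have h3 : Tendsto (fun _ : ℕ => ‖R.π (U a b hab s) φ - φ‖) atTop (𝓝 0) :=
    h2.congr fun n => (h1 n).symm
  have h4 := tendsto_nhds_unique tendsto_const_nhds h3
  rw [norm_eq_zero, sub_eq_zero] at h4
  exact h4

theorem MAU_fix_diag {H : Type} [NormedAddCommGroup H] [InnerProductSpace ℂ H]
    (R : URep H) (φ : H) (hφ : ∀ (a b : Fin 3) (hab : a ≠ b) (s : ℝ), R.π (U a b hab s) φ = φ)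
    (e : Fin 3 → ℝ) (he : (Matrix.diagonal e : Mat).det = 1) :
    R.π ⟨Matrix.diagonal e, he⟩ φ = φ := by
  have h0 : e 0 * e 1 * e 2 = 1 := by
    rw [Matrix.det_diagonal, Fin.prod_univ_three] at he
    exact he
  have hn0 : e 0 ≠ 0 := fun h => by simp [h] at h0
  have hn1 : e 1 ≠ 0 := fun h => by simp [h] at h0
  have h1 : (⟨Matrix.diagonal e, he⟩ : G) = MAU_d 0 2 (by decide) (e 0) hn0 *
      MAU_d 1 2 (by decide) (e 1) hn1 := by
    apply Subtype.ext
    change Matrix.diagonal e = Matrix.diagonal (MAU_e 0 2 (e 0)) * Matrix.diagonal (MAU_e 1 2 (e 1))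
    rw [Matrix.diagonal_mul_diagonal]
    congr 1
    funext a
    fin_cases a
    · simp [MAU_e]
    · simp [MAU_e]
    · have : e 2 = (e 0)⁻¹ * (e 1)⁻¹ := by
        field_simp
        linarith
      simp [MAU_e, this]
  rw [h1, R.mul, MAU_fix_d R 1 2 _ φ (fun s => hφ 1 2 _ s), MAU_fix_d R 0 2 _ φ (fun s => hφ 0 2 _ s)]

theorem mautner {H : Type} [NormedAddCommGroup H] [InnerProductSpace ℂ H]
    (R : URep H) (i m : Fin 3) (h : i ≠ m) (φ : H) (hφ : ∀ s, R.π (U i m h s) φ = φ) (g : G) :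
    R.π g φ = φ := by
  have hU := MAU_fix_U R i m h φ hφ
  have key : ∃ hg : (g.1).det = 1, R.π ⟨g.1, hg⟩ φ = φ := by
    apply Matrix.diagonal_transvection_induction
      (P := fun A : Mat => ∃ hA : A.det = 1, R.π ⟨A, hA⟩ φ = φ)
    · intro e he
      have he' : (Matrix.diagonal e : Mat).det = 1 := by rw [he]; exact g.2
      exact ⟨he', MAU_fix_diag R φ hU e he'⟩
    · intro t
      refine ⟨t.det, ?_⟩
      exact hU t.i t.j t.hij t.c
    · rintro A B ⟨hA, hA'⟩ ⟨hB, hB'⟩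
      refine ⟨by rw [Matrix.det_mul, hA, hB, one_mul], ?_⟩
      have e2 := R.mul (⟨A, hA⟩ : Matrix.SpecialLinearGroup (Fin 3) ℝ)
        (⟨B, hB⟩ : Matrix.SpecialLinearGroup (Fin 3) ℝ) φ
      rw [hB', hA'] at e2
      exact e2
  obtain ⟨_, hg⟩ := key
  exact hg

end Pool.Agent.H88.LF

end S_H29_DEC_Mau

section S_H29_DEC_Grp

/-!
# GRP: the semidirect product inside `SL(3,ℝ)` (explicit 3x3 matrix identities)

`nn i l m x = 1 + x0 E_im + x1 E_lm` (product of two commuting transvections).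
`D_add` and `rot_add` are in `GBB`.
-/

set_option autoImplicit false

open MeasureTheory Set Filter
open scoped Topology InnerProductSpace

namespace Pool.Agent.H88.LF

open Pool.H29.DEC

noncomputable section

/-- the abelian group of matrices `1 + x0 E_im + x1 E_lm` -/
def nn (i l m : Fin 3) (him : i ≠ m) (hlm : l ≠ m) (x : V2) : G :=
  U i m him (x 0) * U l m hlm (x 1)

theorem grp_coe (i l m : Fin 3) (him : i ≠ m) (hlm : l ≠ m) (x : V2) (a b : Fin 3) :
    (nn i l m him hlm x).1 a b = (if a = b then 1 else 0) + (if a = i ∧ b = m then x 0 else 0) +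
      (if a = l ∧ b = m then x 1 else 0) := by
  have h1 : (nn i l m him hlm x).1 = 1 + Matrix.single i m (x 0) + Matrix.single l m (x 1) := by
    show Matrix.transvection i m (x 0) * Matrix.transvection l m (x 1) = _
    unfold Matrix.transvection
    rw [add_mul, mul_add, mul_add, Matrix.single_mul_single_of_ne (h := hlm.symm)]
    simp only [mul_one, one_mul, add_zero]
    abel
  rw [h1]
  simp only [Matrix.add_apply, Matrix.one_apply, Matrix.single_apply, eq_comm]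

theorem nn_zero (i l m : Fin 3) (him : i ≠ m) (hlm : l ≠ m) : nn i l m him hlm 0 = 1 := by
  apply Subtype.ext
  ext a b
  rw [grp_coe]
  simp [Matrix.one_apply]

theorem nn_add (i l m : Fin 3) (hil : i ≠ l) (him : i ≠ m) (hlm : l ≠ m) (x y : V2) :
    nn i l m him hlm (x + y) = nn i l m him hlm x * nn i l m him hlm y := by
  apply Subtype.ext
  ext a b
  rw [Matrix.SpecialLinearGroup.coe_mul, Matrix.mul_apply, Fin.sum_univ_three]
  simp only [grp_coe]
  fin_cases i <;> fin_cases l <;> first | exact absurd rfl hil | skip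
  all_goals fin_cases m <;> first | exact absurd rfl him | exact absurd rfl hlm | skip
  all_goals fin_cases a <;> fin_cases b <;> simp
  all_goals ring

theorem nn_cont (i l m : Fin 3) (him : i ≠ m) (hlm : l ≠ m) :
    Continuous (nn i l m him hlm) := by
  rw [closedEmb_val.isEmbedding.continuous_iff]
  apply continuous_matrix
  intro a b
  simp only [Function.comp_apply, grp_coe]
  refine Continuous.add (Continuous.add continuous_const ?_) ?_
  · by_cases h : a = i ∧ b = m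
    · simp only [h, and_self, if_true]; fun_prop
    · simp only [h, if_false]; exact continuous_const
  · by_cases h : a = l ∧ b = m
    · simp only [h, and_self, if_true]; fun_prop
    · simp only [h, if_false]; exact continuous_const

theorem nn_e0 (i l m : Fin 3) (him : i ≠ m) (hlm : l ≠ m) (s : ℝ) :
    nn i l m him hlm !₂[s, 0] = U i m him s := by
  have h1 : U l m hlm 0 = 1 := by
    apply Subtype.ext
    show Matrix.transvection l m 0 = 1
    simp
  unfold nn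
  simp [h1]

theorem rot_nn (i l m : Fin 3) (hil : i ≠ l) (him : i ≠ m) (hlm : l ≠ m) (θ : ℝ) (x : V2) :
    rot i l hil θ * nn i l m him hlm x = nn i l m him hlm (rot2 θ x) * rot i l hil θ := by
  apply Subtype.ext
  ext a b
  rw [Matrix.SpecialLinearGroup.coe_mul, Matrix.SpecialLinearGroup.coe_mul, Matrix.mul_apply,
    Matrix.mul_apply, Fin.sum_univ_three, Fin.sum_univ_three]
  simp only [grp_coe, rot, rotMat, rot2]
  fin_cases i <;> fin_cases l <;> first | exact absurd rfl hil | skip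
  all_goals fin_cases m <;> first | exact absurd rfl him | exact absurd rfl hlm | skip
  all_goals fin_cases a <;> fin_cases b <;> simp
  all_goals ring

/-- the vector `v'` with `cmp v' = s (e_i - e_l)` -/
def vs (i l : Fin 3) (s : ℝ) : ℝ × ℝ :=
  ((if i = 0 then s else if l = 0 then -s else 0), (if i = 1 then s else if l = 1 then -s else 0))

theorem grp_cmp_vs (i l : Fin 3) (hil : i ≠ l) (s : ℝ) (a : Fin 3) :
    cmp (vs i l s) a = if a = i then s else if a = l then -s else 0 := by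
  fin_cases i <;> fin_cases l <;> first | exact absurd rfl hil | skip
  all_goals fin_cases a <;> simp [cmp, vs]

theorem grp_D (v : ℝ × ℝ) (a b : Fin 3) :
    (D v).1 a b = if a = b then Real.exp (cmp v a) else 0 := by
  show Matrix.diagonal _ a b = _
  rw [Matrix.diagonal_apply]

theorem D_vs_nn (i l m : Fin 3) (hil : i ≠ l) (him : i ≠ m) (hlm : l ≠ m) (s : ℝ) (x : V2) :
    D (vs i l s) * nn i l m him hlm x = nn i l m him hlm (dil2 s x) * D (vs i l s) := by
  apply Subtype.ext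
  ext a b
  rw [Matrix.SpecialLinearGroup.coe_mul, Matrix.SpecialLinearGroup.coe_mul, Matrix.mul_apply,
    Matrix.mul_apply, Fin.sum_univ_three, Fin.sum_univ_three]
  simp only [grp_coe, grp_D, grp_cmp_vs i l hil, dil2]
  fin_cases i <;> fin_cases l <;> first | exact absurd rfl hil | skip
  all_goals fin_cases m <;> first | exact absurd rfl him | exact absurd rfl hlm | skip
  all_goals fin_cases a <;> fin_cases b <;> simp

/-- the part of `D v` which is scalar on the plane `(i,l)` commutes with the rotations -/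
theorem D_comm_rot (i l : Fin 3) (hil : i ≠ l) (v : ℝ × ℝ) (θ : ℝ) :
    D (v - vs i l ((cmp v i - cmp v l) / 2)) * rot i l hil θ =
      rot i l hil θ * D (v - vs i l ((cmp v i - cmp v l) / 2)) := by
  have hsub : ∀ a, cmp (v - vs i l ((cmp v i - cmp v l) / 2)) a =
      cmp v a - cmp (vs i l ((cmp v i - cmp v l) / 2)) a := by
    intro a
    fin_cases a <;> simp [cmp]
    ring
  have hil' : cmp (v - vs i l ((cmp v i - cmp v l) / 2)) i =
      cmp (v - vs i l ((cmp v i - cmp v l) / 2)) l := by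
    rw [hsub, hsub, grp_cmp_vs i l hil, grp_cmp_vs i l hil]
    simp [hil.symm]
    ring
  generalize v - vs i l ((cmp v i - cmp v l) / 2) = w at hil'
  apply Subtype.ext
  ext a b
  rw [Matrix.SpecialLinearGroup.coe_mul, Matrix.SpecialLinearGroup.coe_mul]
  have h1 : ((D w).1 * (rot i l hil θ).1) a b = Real.exp (cmp w a) * (rot i l hil θ).1 a b := by
    rw [D_val, Matrix.diagonal_mul]
  have h2 : ((rot i l hil θ).1 * (D w).1) a b = (rot i l hil θ).1 a b * Real.exp (cmp w b) := by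
    rw [D_val, Matrix.mul_diagonal]
  rw [h1, h2, mul_comm]
  by_cases hab : a = b
  · rw [hab]
  · by_cases hz : (rot i l hil θ).1 a b = 0
    · rw [hz]; simp
    · have h3 : (a = i ∧ b = l) ∨ (a = l ∧ b = i) := by
        by_contra hcon
        push Not at hcon
        apply hz
        show rotMat i l θ a b = 0
        unfold rotMat
        rw [if_neg, if_neg, if_neg, if_neg hab]
        · exact fun h => hcon.2 h.1 h.2
        · exact fun h => hcon.1 h.1 h.2
        · rintro (⟨h, h'⟩ | ⟨h, h'⟩)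
          · exact hab (h.trans h'.symm)
          · exact hab (h.trans h'.symm)
      rcases h3 with ⟨rfl, rfl⟩ | ⟨rfl, rfl⟩
      · rw [hil']
      · rw [hil']

theorem rot_periodic (i l : Fin 3) (hil : i ≠ l) (θ : ℝ) :
    rot i l hil (θ + 2 * Real.pi) = rot i l hil θ := by
  apply Subtype.ext
  ext a b
  simp only [rot, rotMat, Real.cos_add_two_pi, Real.sin_add_two_pi]

theorem rot_cont (i l : Fin 3) (hil : i ≠ l) : Continuous (rot i l hil) := by
  rw [closedEmb_val.isEmbedding.continuous_iff]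
  apply continuous_matrix
  intro a b
  simp only [Function.comp_apply, rot, rotMat]
  split_ifs <;> fun_prop

end

end Pool.Agent.H88.LF

end S_H29_DEC_Grp

section S_H88_LF_DEC

/-!
# DEC (blueprint section 3): exponential decay of averaged matrix coefficients

The abstract theorem (representations of the euclidean plane normalised by rotations and a hyperbolic
dilation) is `Pool.H29.DEC.VRep.decay`; Mautner's lemma is `mautner`; matrix identities in `Grp`.
This file does the averaging over rotations and the reduction.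
-/

set_option autoImplicit false

open MeasureTheory Set Filter
open scoped Topology InnerProductSpace

namespace Pool.Agent.H88.LF

open Pool.H29.DEC

private theorem dec_inner {H : Type} [NormedAddCommGroup H] [InnerProductSpace ℂ H]
    (R : URep H) (g : G) (φ ψ : H) : ⟪R.π g φ, R.π g ψ⟫_ℂ = ⟪φ, ψ⟫_ℂ := by
  let L : H →ₗᵢ[ℂ] H := ⟨(R.π g).toLinearMap, R.isom g⟩
  exact L.inner_map_map φ ψ

/-- the representation of the plane -/
private noncomputable def decV {H : Type} [NormedAddCommGroup H] [InnerProductSpace ℂ H]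
    (R : URep H) (i l m : Fin 3) (hil : i ≠ l) (him : i ≠ m) (hlm : l ≠ m) : VRep V2 H where
  N := fun x => R.π (nn i l m him hlm x)
  zero := fun φ => by rw [nn_zero, R.one]
  add := fun x y φ => by rw [nn_add i l m hil him hlm, R.mul]
  isom := fun x φ => R.isom _ φ
  cont := fun φ => (R.cont φ).comp (nn_cont i l m him hlm)

private theorem dec_D_zero : D 0 = 1 := by
  have h := D_add 0 0
  rw [add_zero] at h
  exact (mul_eq_left.mp h.symm)

private theorem dec_vs_neg (i l : Fin 3) (s : ℝ) : vs i l (-s) + vs i l s = 0 := by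
  unfold vs
  ext <;> simp <;> split_ifs <;> simp

private theorem dec_core {H : Type} [NormedAddCommGroup H] [InnerProductSpace ℂ H]
    [CompleteSpace H]
    (R : URep H) (K : Submodule ℂ H) (hKc : IsClosed (K : Set H))
    (hKi : ∀ g, ∀ φ ∈ K, R.π g φ ∈ K)
    (hK0 : ∀ φ ∈ K, (∀ g, R.π g φ = φ) → φ = 0) (i l : Fin 3) (h : i ≠ l) (s : ℝ)
    (φ ψ : H) (hφ : φ ∈ K) (hφr : ∀ θ, R.π (rot i l h θ) φ = φ)
    (hψr : ∀ θ, R.π (rot i l h θ) ψ = ψ) :
    ‖⟪ψ, R.π (D (vs i l s)) φ⟫_ℂ‖ ≤ 4 * Real.exp (-s / 2) * ‖φ‖ * ‖ψ‖ := by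
  obtain ⟨m, him, hlm⟩ : ∃ m : Fin 3, i ≠ m ∧ l ≠ m := by
    clear hφr hψr
    revert i l
    decide
  refine (decV R i l m h him hlm).decay K hKc (fun x φ hφ => hKi _ φ hφ) ?_
    (fun θ => R.π (rot i l h θ)) ?_ (fun θ φ => R.isom _ φ) s (R.π (D (vs i l s))) ?_
    (fun φ => R.isom _ φ) hφ hφr hψr
  · intro η hη hfix
    refine hK0 η hη (fun g => mautner R i m him η (fun t => ?_) g)
    have := hfix !₂[t, 0]
    change R.π (nn i l m him hlm !₂[t, 0]) η = η at this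
    rwa [nn_e0] at this
  · intro θ x η
    change R.π (rot i l h θ) (R.π (nn i l m him hlm x) η) =
      R.π (nn i l m him hlm (rot2 θ x)) (R.π (rot i l h θ) η)
    rw [← R.mul, ← R.mul, rot_nn i l m h him hlm]
  · intro x η
    change R.π (D (vs i l s)) (R.π (nn i l m him hlm x) η) =
      R.π (nn i l m him hlm (dil2 s x)) (R.π (D (vs i l s)) η)
    rw [← R.mul, ← R.mul, D_vs_nn i l m h him hlm]

private theorem dec_core' {H : Type} [NormedAddCommGroup H] [InnerProductSpace ℂ H]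
    [CompleteSpace H]
    (R : URep H) (K : Submodule ℂ H) (hKc : IsClosed (K : Set H))
    (hKi : ∀ g, ∀ φ ∈ K, R.π g φ ∈ K)
    (hK0 : ∀ φ ∈ K, (∀ g, R.π g φ = φ) → φ = 0) (i l : Fin 3) (h : i ≠ l) (s : ℝ)
    (φ ψ : H) (hφ : φ ∈ K) (hψ : ψ ∈ K) (hφr : ∀ θ, R.π (rot i l h θ) φ = φ)
    (hψr : ∀ θ, R.π (rot i l h θ) ψ = ψ) :
    ‖⟪ψ, R.π (D (vs i l s)) φ⟫_ℂ‖ ≤ 4 * Real.exp (-|s| / 2) * ‖φ‖ * ‖ψ‖ := by
  rcases le_total 0 s with hs | hs
  · rw [abs_of_nonneg hs]
    exact dec_core R K hKc hKi hK0 i l h s φ ψ hφ hφr hψr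
  · rw [abs_of_nonpos hs]
    have h1 := dec_core R K hKc hKi hK0 i l h (-s) ψ φ hψ hψr hφr
    have h2 : ⟪R.π (D (vs i l (-s))) ψ, φ⟫_ℂ = ⟪ψ, R.π (D (vs i l s)) φ⟫_ℂ := by
      rw [← dec_inner R (D (vs i l (-s))) ψ (R.π (D (vs i l s)) φ), ← R.mul, ← D_add,
        dec_vs_neg, dec_D_zero, R.one]
    rw [← h2, norm_inner_symm]
    calc ‖⟪φ, R.π (D (vs i l (-s))) ψ⟫_ℂ‖ ≤ 4 * Real.exp (-(-s) / 2) * ‖ψ‖ * ‖φ‖ := h1
      _ = 4 * Real.exp (-(-s) / 2) * ‖φ‖ * ‖ψ‖ := by ring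

section avg

variable {H : Type} [NormedAddCommGroup H] [InnerProductSpace ℂ H] [CompleteSpace H]

/-- average over the rotations -/
private noncomputable def decAv (R : URep H) (i l : Fin 3) (h : i ≠ l) (φ : H) : H :=
  ∫ θ in (0:ℝ)..(2 * Real.pi), R.π (rot i l h θ) φ

private theorem decAv_cont (R : URep H) (i l : Fin 3) (h : i ≠ l) (φ : H) :
    Continuous (fun θ => R.π (rot i l h θ) φ) :=
  (R.cont φ).comp (rot_cont i l h)

private theorem decAv_mem (R : URep H) (i l : Fin 3) (h : i ≠ l)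
    (K : Submodule ℂ H) (hKc : IsClosed (K : Set H))
    (hKi : ∀ g, ∀ φ ∈ K, R.π g φ ∈ K) (φ : H) (hφ : φ ∈ K) : decAv R i l h φ ∈ K := by
  have : CompleteSpace K := hKc.completeSpace_coe
  rw [← Submodule.starProjection_eq_self_iff (K := K), decAv,
    ← ContinuousLinearMap.intervalIntegral_comp_comm _
      ((decAv_cont R i l h φ).intervalIntegrable _ _)]
  congr 1
  funext θ
  exact Submodule.starProjection_eq_self_iff.mpr (hKi _ φ hφ)

private theorem decAv_rot (R : URep H) (i l : Fin 3) (h : i ≠ l) (φ : H) (τ : ℝ) :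
    R.π (rot i l h τ) (decAv R i l h φ) = decAv R i l h φ := by
  unfold decAv
  rw [← ContinuousLinearMap.intervalIntegral_comp_comm _
      ((decAv_cont R i l h φ).intervalIntegrable _ _)]
  have h1 : (fun θ => R.π (rot i l h τ) (R.π (rot i l h θ) φ)) =
      (fun θ => (fun θ => R.π (rot i l h θ) φ) (τ + θ)) := by
    funext θ
    rw [← R.mul, ← rot_add]
  rw [h1, intervalIntegral.integral_comp_add_left (fun θ => R.π (rot i l h θ) φ)]
  have hp : Function.Periodic (fun θ => R.π (rot i l h θ) φ) (2 * Real.pi) := by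
    intro θ
    simp only [rot_periodic]
  have h2 := hp.intervalIntegral_add_eq τ 0
  rw [zero_add] at h2
  rw [add_zero]
  exact h2

private theorem decAv_norm (R : URep H) (i l : Fin 3) (h : i ≠ l) (φ : H) :
    ‖decAv R i l h φ‖ ≤ 2 * Real.pi * ‖φ‖ := by
  unfold decAv
  have h1 := intervalIntegral.norm_integral_le_of_norm_le_const
    (a := 0) (b := 2 * Real.pi) (C := ‖φ‖) (f := fun θ => R.π (rot i l h θ) φ)
    (fun θ _ => (R.isom _ φ).le)
  rw [sub_zero, abs_of_pos Real.two_pi_pos] at h1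
  linarith

private theorem dec_double (R : URep H) (i l : Fin 3) (h : i ≠ l) (g : G) (φ ψ : H) :
    ∫ θ' in (0:ℝ)..(2 * Real.pi), ∫ θ in (0:ℝ)..(2 * Real.pi),
        inner ℂ (R.π (rot i l h θ') ψ) (R.π (g * rot i l h θ) φ) =
      ⟪decAv R i l h ψ, R.π g (decAv R i l h φ)⟫_ℂ := by
  have h1 : ∀ θ', ∫ θ in (0:ℝ)..(2 * Real.pi),
      inner ℂ (R.π (rot i l h θ') ψ) (R.π (g * rot i l h θ) φ) =
      ⟪R.π (rot i l h θ') ψ, R.π g (decAv R i l h φ)⟫_ℂ := by
    intro θ'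
    have h2 := ContinuousLinearMap.intervalIntegral_comp_comm
      ((innerSL ℂ (R.π (rot i l h θ') ψ)).comp (R.π g))
      ((decAv_cont R i l h φ).intervalIntegrable (μ := volume) 0 (2 * Real.pi))
    simp only [ContinuousLinearMap.comp_apply, innerSL_apply_apply] at h2
    rw [decAv, ← h2]
    congr 1
    funext θ
    rw [R.mul]
  simp only [h1]
  set w := R.π g (decAv R i l h φ) with hw
  have h3 := ContinuousLinearMap.intervalIntegral_comp_comm
      (innerSL ℂ w)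
      ((decAv_cont R i l h ψ).intervalIntegrable (μ := volume) 0 (2 * Real.pi))
  simp only [innerSL_apply_apply] at h3
  have h4 : ⟪decAv R i l h ψ, w⟫_ℂ = (starRingEnd ℂ) ⟪w, decAv R i l h ψ⟫_ℂ :=
    (inner_conj_symm _ _).symm
  rw [h4, decAv, ← h3, intervalIntegral.integral_of_le Real.two_pi_pos.le,
    intervalIntegral.integral_of_le Real.two_pi_pos.le, ← integral_conj]
  congr 1
  funext θ'
  exact (inner_conj_symm _ _).symm

end avg

/-- DEC -/
theorem dec {H : Type} [NormedAddCommGroup H] [InnerProductSpace ℂ H] [CompleteSpace H]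
    (R : URep H) (K : Submodule ℂ H) (hKc : IsClosed (K : Set H))
    (hKi : ∀ g, ∀ φ ∈ K, R.π g φ ∈ K)
    (hK0 : ∀ φ ∈ K, (∀ g, R.π g φ = φ) → φ = 0) (i l : Fin 3) (h : i ≠ l) (v : ℝ × ℝ)
    (φ ψ : H) (hφ : φ ∈ K) (hψ : ψ ∈ K) :
    ‖∫ θ' in (0:ℝ)..(2 * Real.pi), ∫ θ in (0:ℝ)..(2 * Real.pi),
        inner ℂ (R.π (rot i l h θ') ψ) (R.π (D v * rot i l h θ) φ)‖ ≤
      1000 * Real.exp (-|cmp v i - cmp v l| / 4) * ‖φ‖ * ‖ψ‖ := by
  rw [dec_double]
  set s : ℝ := (cmp v i - cmp v l) / 2 with hs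
  set φ0 := decAv R i l h φ with hφ0
  set ψ0 := decAv R i l h ψ with hψ0
  set φ1 := R.π (D (v - vs i l s)) φ0 with hφ1
  have hφ0K : φ0 ∈ K := decAv_mem R i l h K hKc hKi φ hφ
  have hψ0K : ψ0 ∈ K := decAv_mem R i l h K hKc hKi ψ hψ
  have hφ1K : φ1 ∈ K := hKi _ _ hφ0K
  have hφ1r : ∀ θ, R.π (rot i l h θ) φ1 = φ1 := by
    intro θ
    rw [hφ1, ← R.mul, ← D_comm_rot i l h v θ, R.mul, hφ0, decAv_rot]
  have hψ0r : ∀ θ, R.π (rot i l h θ) ψ0 = ψ0 := fun θ => decAv_rot R i l h ψ θ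
  have e1 : R.π (D v) φ0 = R.π (D (vs i l s)) φ1 := by
    rw [hφ1, ← R.mul, ← D_add]
    congr 2
    rw [add_sub_cancel]
  rw [e1]
  have hb := dec_core' R K hKc hKi hK0 i l h s φ1 ψ0 hφ1K hψ0K hφ1r hψ0r
  have hn1 : ‖φ1‖ ≤ 2 * Real.pi * ‖φ‖ := by
    rw [hφ1, R.isom]
    exact decAv_norm R i l h φ
  have hn2 : ‖ψ0‖ ≤ 2 * Real.pi * ‖ψ‖ := decAv_norm R i l h ψ
  have hexp : Real.exp (-|s| / 2) = Real.exp (-|cmp v i - cmp v l| / 4) := by
    congr 1
    rw [hs, abs_div]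
    simp
    ring
  rw [hexp] at hb
  set E := Real.exp (-|cmp v i - cmp v l| / 4) with hE
  have hE0 : 0 < E := Real.exp_pos _
  have hpi : Real.pi < 3.15 := Real.pi_lt_d2
  have hpi0 : 0 < Real.pi := Real.pi_pos
  calc ‖⟪ψ0, R.π (D (vs i l s)) φ1⟫_ℂ‖ ≤ 4 * E * ‖φ1‖ * ‖ψ0‖ := hb
    _ ≤ 4 * E * (2 * Real.pi * ‖φ‖) * (2 * Real.pi * ‖ψ‖) := by gcongr
    _ = (16 * (Real.pi * Real.pi)) * (E * ‖φ‖ * ‖ψ‖) := by ring
    _ ≤ 1000 * (E * ‖φ‖ * ‖ψ‖) := by
        apply mul_le_mul_of_nonneg_right _ (by positivity)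
        nlinarith
    _ = 1000 * E * ‖φ‖ * ‖ψ‖ := by ring

end Pool.Agent.H88.LF

end S_H88_LF_DEC

section S_H88_LF_KOOP

/-!
# KOOP: the half density (Koopman) representation

`(π(g)φ)(y) = √(J(g⁻¹,y)) φ(g⁻¹y)` on `L²(Y,μ;ℂ)`.  Well defined and isometric by `qi` (apply it to `‖φ‖²`; `qi`
also shows that `g⁻¹ •` pulls back null sets to null sets), `π(gh) = π(g)π(h)` by the cocycle identity, strongly
continuous: for `φ` continuous with compact support and `g → g0` use local compactness of `G` (supports stay in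
a compact set, uniform convergence, `μ` finite on compacts), then density of `C_c(Y)` in `L²` and `‖π(g)‖ = 1`.
Note `J(1,y) = 1` (from `coc` and positivity).
-/

set_option autoImplicit false

open MeasureTheory Set Filter
open scoped Topology ENNReal

namespace Pool.Agent.H88.LF

section KOOP

variable {Y : Type} [TopologicalSpace Y] [MeasurableSpace Y] [MulAction G Y] {μ : Measure Y}

/-- KOOP: pointwise formula -/
noncomputable def KOOP_K (d : KD Y μ) (g : G) (f : Y → ℂ) (y : Y) : ℂ :=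
  ((Real.sqrt (d.J g⁻¹ y) : ℝ) : ℂ) * f (g⁻¹ • y)

theorem KOOP_J_one (d : KD Y μ) (y : Y) : d.J 1 y = 1 := by
  have h := d.coc 1 1 y
  rw [mul_one, one_smul] at h
  have hp := d.pos 1 y
  field_simp at h
  nlinarith [h, hp]

theorem KOOP_enorm_sq (d : KD Y μ) (g : G) (f : Y → ℂ) (y : Y) :
    ‖KOOP_K d g f y‖ₑ ^ 2 = ‖f (g⁻¹ • y)‖ₑ ^ 2 * ENNReal.ofReal (d.J g⁻¹ y) := by
  unfold KOOP_K
  rw [enorm_mul, mul_pow, mul_comm]
  congr 1
  rw [← ofReal_norm, Complex.norm_real, Real.norm_eq_abs, abs_of_nonneg (Real.sqrt_nonneg _),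
    ← ENNReal.ofReal_pow (Real.sqrt_nonneg _), Real.sq_sqrt (d.pos _ _).le]

variable [BorelSpace Y] [ContinuousSMul G Y]

theorem KOOP_meas_smul (g : G) : Measurable (fun y : Y => g • y) :=
  (continuous_const_smul g).measurable

theorem KOOP_cont_J (d : KD Y μ) (g : G) : Continuous (fun y : Y => d.J g y) :=
  d.cont.comp (Continuous.prodMk_right g)

theorem KOOP_qmp (d : KD Y μ) (g : G) :
    Measure.QuasiMeasurePreserving (fun y : Y => g⁻¹ • y) μ μ := by
  refine ⟨KOOP_meas_smul _, ?_⟩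
  refine Measure.AbsolutelyContinuous.mk (fun s hs h0 => ?_)
  rw [Measure.map_apply (KOOP_meas_smul _) hs]
  have h := d.qi g (s.indicator 1) (measurable_one.indicator hs)
  rw [lintegral_indicator_one hs, h0] at h
  have hm : Measurable (fun y => (s.indicator (1 : Y → ℝ≥0∞)) (g⁻¹ • y) *
      ENNReal.ofReal (d.J g⁻¹ y)) :=
    ((measurable_one.indicator hs).comp (KOOP_meas_smul _)).mul
      (KOOP_cont_J d g⁻¹).measurable.ennreal_ofReal
  rw [lintegral_eq_zero_iff hm] at h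
  have : ∀ᵐ y ∂μ, y ∉ (fun y : Y => g⁻¹ • y) ⁻¹' s := by
    filter_upwards [h] with y hy hys
    have hJ : ENNReal.ofReal (d.J g⁻¹ y) ≠ 0 := by
      simpa using d.pos g⁻¹ y
    have h1 : (s.indicator (1 : Y → ℝ≥0∞)) (g⁻¹ • y) = 1 :=
      indicator_of_mem (s := s) (a := g⁻¹ • y) hys _
    simp only [h1, one_mul, Pi.zero_apply] at hy
    exact hJ hy
  rw [ae_iff] at this
  simp only [not_not] at this
  exact this

theorem KOOP_lint (d : KD Y μ) (g : G) (f : Y → ℂ) (hf : Measurable f) :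
    ∫⁻ y, ‖KOOP_K d g f y‖ₑ ^ 2 ∂μ = ∫⁻ y, ‖f y‖ₑ ^ 2 ∂μ := by
  rw [← d.qi g (fun y => ‖f y‖ₑ ^ 2) (by fun_prop)]
  exact lintegral_congr (fun y => KOOP_enorm_sq d g f y)

theorem KOOP_ae_congr (d : KD Y μ) (g : G) {f f' : Y → ℂ} (h : f =ᵐ[μ] f') :
    KOOP_K d g f =ᵐ[μ] KOOP_K d g f' := by
  have := (KOOP_qmp d g).ae h
  filter_upwards [this] with y hy
  unfold KOOP_K
  rw [hy]

theorem KOOP_eLpNorm_eq (f : Y → ℂ) :
    eLpNorm f 2 μ = (∫⁻ y, ‖f y‖ₑ ^ 2 ∂μ) ^ (1 / 2 : ℝ) := by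
  rw [eLpNorm_eq_lintegral_rpow_enorm_toReal (by norm_num) (by norm_num)]
  norm_num

theorem KOOP_eLpNorm (d : KD Y μ) (g : G) (f : Y → ℂ) (hf : Measurable f) :
    eLpNorm (KOOP_K d g f) 2 μ = eLpNorm f 2 μ := by
  rw [KOOP_eLpNorm_eq, KOOP_eLpNorm_eq, KOOP_lint d g f hf]

theorem KOOP_meas (d : KD Y μ) (g : G) (f : Y → ℂ) (hf : Measurable f) :
    Measurable (KOOP_K d g f) := by
  unfold KOOP_K
  refine Measurable.mul ?_ (hf.comp (KOOP_meas_smul _))
  exact (Complex.continuous_ofReal.comp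
    (Real.continuous_sqrt.comp (KOOP_cont_J d g⁻¹))).measurable

theorem KOOP_memLp (d : KD Y μ) (g : G) (φ : Lp ℂ 2 μ) :
    MemLp (KOOP_K d g (φ : Y → ℂ)) 2 μ := by
  have hφ : Measurable (φ : Y → ℂ) := (Lp.stronglyMeasurable φ).measurable
  refine ⟨(KOOP_meas d g _ hφ).aestronglyMeasurable, ?_⟩
  rw [KOOP_eLpNorm d g _ hφ]
  exact (Lp.memLp φ).2

/-- KOOP: the operator -/
noncomputable def KOOP_op (d : KD Y μ) (g : G) (φ : Lp ℂ 2 μ) : Lp ℂ 2 μ :=
  (KOOP_memLp d g φ).toLp _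

theorem KOOP_op_ae (d : KD Y μ) (g : G) (φ : Lp ℂ 2 μ) :
    (KOOP_op d g φ : Y → ℂ) =ᵐ[μ] KOOP_K d g (φ : Y → ℂ) :=
  MemLp.coeFn_toLp _

theorem KOOP_op_norm (d : KD Y μ) (g : G) (φ : Lp ℂ 2 μ) : ‖KOOP_op d g φ‖ = ‖φ‖ := by
  unfold KOOP_op
  rw [Lp.norm_toLp, Lp.norm_def, KOOP_eLpNorm d g _ (Lp.stronglyMeasurable φ).measurable]

/-- KOOP: the operator as a linear isometry -/
noncomputable def KOOP_lin (d : KD Y μ) (g : G) : Lp ℂ 2 μ →ₗᵢ[ℂ] Lp ℂ 2 μ where
  toFun := KOOP_op d g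
  map_add' φ ψ := by
    refine Lp.ext ?_
    have h1 := KOOP_op_ae d g (φ + ψ)
    have h2 := KOOP_op_ae d g φ
    have h3 := KOOP_op_ae d g ψ
    have h4 := KOOP_ae_congr d g (Lp.coeFn_add φ ψ)
    have h5 := Lp.coeFn_add (KOOP_op d g φ) (KOOP_op d g ψ)
    filter_upwards [h1, h2, h3, h4, h5] with y h1 h2 h3 h4 h5
    rw [h1, h4, h5, Pi.add_apply, h2, h3]
    unfold KOOP_K
    simp only [Pi.add_apply]
    ring
  map_smul' c φ := by
    refine Lp.ext ?_
    have h1 := KOOP_op_ae d g (c • φ)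
    have h2 := KOOP_op_ae d g φ
    have h4 := KOOP_ae_congr d g (Lp.coeFn_smul c φ)
    have h5 := Lp.coeFn_smul c (KOOP_op d g φ)
    filter_upwards [h1, h2, h4, h5] with y h1 h2 h4 h5
    simp only [RingHom.id_apply]
    rw [h1, h4, h5, Pi.smul_apply, h2]
    unfold KOOP_K
    simp only [Pi.smul_apply, smul_eq_mul]
    ring
  norm_map' φ := KOOP_op_norm d g φ

theorem KOOP_lin_ae (d : KD Y μ) (g : G) (φ : Lp ℂ 2 μ) :
    (KOOP_lin d g φ : Y → ℂ) =ᵐ[μ] KOOP_K d g (φ : Y → ℂ) := KOOP_op_ae d g φ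

theorem KOOP_lin_one (d : KD Y μ) (φ : Lp ℂ 2 μ) : KOOP_lin d 1 φ = φ := by
  refine Lp.ext ?_
  filter_upwards [KOOP_lin_ae d 1 φ] with y h1
  rw [h1]
  unfold KOOP_K
  rw [inv_one, KOOP_J_one, one_smul, Real.sqrt_one, Complex.ofReal_one, one_mul]

theorem KOOP_lin_mul (d : KD Y μ) (g h : G) (φ : Lp ℂ 2 μ) :
    KOOP_lin d (g * h) φ = KOOP_lin d g (KOOP_lin d h φ) := by
  refine Lp.ext ?_
  have h1 := KOOP_lin_ae d (g * h) φ
  have h2 := KOOP_lin_ae d g (KOOP_lin d h φ)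
  have h3 := KOOP_ae_congr d g (KOOP_lin_ae d h φ)
  filter_upwards [h1, h2, h3] with y h1 h2 h3
  rw [h1, h2, h3]
  unfold KOOP_K
  rw [mul_inv_rev, mul_smul, d.coc, mul_comm (d.J h⁻¹ (g⁻¹ • y)), Real.sqrt_mul (d.pos _ _).le]
  push_cast
  ring

variable [T2Space Y] [LocallyCompactSpace Y] [SecondCountableTopology Y]
  [IsFiniteMeasureOnCompacts μ]

theorem KOOP_contp (d : KD Y μ) (f : Y → ℂ) (hf : Continuous f) :
    Continuous (fun p : G × Y => KOOP_K d p.1 f p.2) := by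
  unfold KOOP_K
  refine Continuous.mul ?_ ?_
  · refine Complex.continuous_ofReal.comp (Real.continuous_sqrt.comp ?_)
    exact d.cont.comp (continuous_fst.inv.prodMk continuous_snd)
  · exact hf.comp (continuous_fst.inv.smul continuous_snd)

theorem KOOP_contg (d : KD Y μ) (f : Y → ℂ) (hf : Continuous f) (y : Y) :
    Continuous (fun g : G => KOOP_K d g f y) := by
  unfold KOOP_K
  refine Continuous.mul ?_ ?_
  · refine Complex.continuous_ofReal.comp (Real.continuous_sqrt.comp ?_)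
    exact d.cont.comp (continuous_inv.prodMk continuous_const)
  · exact hf.comp (continuous_inv.smul continuous_const)

theorem KOOP_contd (d : KD Y μ) (f : Y → ℂ) (hf : Continuous f) (g0 : G) (y : Y) :
    Tendsto (fun g : G => ‖KOOP_K d g f y - KOOP_K d g0 f y‖ₑ ^ 2) (𝓝 g0) (𝓝 0) := by
  have h2 : Continuous (fun g : G => ‖KOOP_K d g f y - KOOP_K d g0 f y‖ₑ) :=
    ((KOOP_contg d f hf y).sub continuous_const).enorm
  have h1 : Continuous (fun g : G => ‖KOOP_K d g f y - KOOP_K d g0 f y‖ₑ ^ 2) :=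
    (ENNReal.continuous_pow 2).comp h2
  have h3 := h1.tendsto g0
  rw [sub_self, enorm_zero, zero_pow two_ne_zero] at h3
  exact h3

theorem KOOP_cont_cc (d : KD Y μ) (f : Y → ℂ) (hf : Continuous f) (hc : HasCompactSupport f)
    (g0 : G) :
    Tendsto (fun g => eLpNorm (fun y => KOOP_K d g f y - KOOP_K d g0 f y) 2 μ) (𝓝 g0) (𝓝 0) := by
  have hFc := KOOP_contp d f hf
  obtain ⟨N, hNc, hN⟩ := exists_compact_mem_nhds g0
  -- the compact set of supports
  have hK : IsCompact ((fun p : G × Y => p.1 • p.2) '' (N ×ˢ tsupport f)) :=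
    (hNc.prod hc).image continuous_smul
  set K := (fun p : G × Y => p.1 • p.2) '' (N ×ˢ tsupport f) with hKdef
  have hzero : ∀ g ∈ N, ∀ y, y ∉ K → KOOP_K d g f y = 0 := by
    intro g hg y hy
    unfold KOOP_K
    have : g⁻¹ • y ∉ tsupport f := by
      intro h
      exact hy ⟨(g, g⁻¹ • y), ⟨hg, h⟩, by simp⟩
    rw [image_eq_zero_of_notMem_tsupport this, mul_zero]
  obtain ⟨C, hC⟩ := (hNc.prod hK).exists_bound_of_continuousOn hFc.continuousOn
  have hbd : ∀ g ∈ N, ∀ y ∈ K, ‖KOOP_K d g f y‖ ≤ C := fun g hg y hy => hC (g, y) ⟨hg, hy⟩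
  have hg0 : g0 ∈ N := mem_of_mem_nhds hN
  have hkey : Tendsto (fun g => ∫⁻ y, ‖KOOP_K d g f y - KOOP_K d g0 f y‖ₑ ^ 2 ∂μ) (𝓝 g0)
      (𝓝 (∫⁻ y, (0 : ℝ≥0∞) ∂μ)) := by
    refine tendsto_lintegral_filter_of_dominated_convergence
      (K.indicator (fun _ => (ENNReal.ofReal (C + C)) ^ 2)) ?_ ?_ ?_ ?_
    · refine Eventually.of_forall (fun g => ?_)
      have h1 := (KOOP_meas d g f hf.measurable).sub (KOOP_meas d g0 f hf.measurable)
      exact (h1.enorm).pow_const 2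
    · filter_upwards [hN] with g hg
      refine Eventually.of_forall (fun y => ?_)
      by_cases hy : y ∈ K
      · rw [indicator_of_mem hy]
        gcongr
        rw [← ofReal_norm]
        refine ENNReal.ofReal_le_ofReal ?_
        exact (norm_sub_le _ _).trans (add_le_add (hbd g hg y hy) (hbd g0 hg0 y hy))
      · rw [indicator_of_notMem hy, hzero g hg y hy, hzero g0 hg0 y hy]
        simp
    · rw [lintegral_indicator_const hK.isClosed.measurableSet]
      exact ENNReal.mul_ne_top (ENNReal.pow_ne_top ENNReal.ofReal_ne_top) hK.measure_lt_top.ne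
    · exact Eventually.of_forall (fun y => KOOP_contd d f hf g0 y)
  have h5 : Tendsto (fun g => (∫⁻ y, ‖KOOP_K d g f y - KOOP_K d g0 f y‖ₑ ^ 2 ∂μ) ^ (1 / 2 : ℝ))
      (𝓝 g0) (𝓝 (0 ^ (1 / 2 : ℝ))) := by
    rw [lintegral_zero] at hkey
    exact (ENNReal.continuous_rpow_const.tendsto _).comp hkey
  rw [ENNReal.zero_rpow_of_pos (by norm_num)] at h5
  refine h5.congr (fun g => ?_)
  rw [KOOP_eLpNorm_eq]

theorem KOOP_cont (d : KD Y μ) (φ : Lp ℂ 2 μ) : Continuous (fun g => KOOP_lin d g φ) := by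
  rw [continuous_iff_continuousAt]
  intro g0
  rw [ContinuousAt, Metric.tendsto_nhds]
  intro ε hε
  obtain ⟨f, hfc, hfe, hfcont, hfm⟩ :=
    (Lp.memLp φ).exists_hasCompactSupport_eLpNorm_sub_le (by norm_num)
      (ε := ENNReal.ofReal (ε / 4)) (by simpa using hε)
  set ψ : Lp ℂ 2 μ := hfm.toLp f with hψ
  have hφψ : ‖φ - ψ‖ ≤ ε / 4 := by
    have h1 : φ - ψ = ((Lp.memLp φ).sub hfm).toLp _ := by
      rw [MemLp.toLp_sub (Lp.memLp φ) hfm, Lp.toLp_coeFn]
    rw [h1, Lp.norm_toLp]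
    exact ENNReal.toReal_le_of_le_ofReal (by linarith) hfe
  have hψK : ∀ g, (KOOP_lin d g ψ : Y → ℂ) =ᵐ[μ] KOOP_K d g f := fun g =>
    (KOOP_lin_ae d g ψ).trans (KOOP_ae_congr d g (MemLp.coeFn_toLp _))
  have hcc := KOOP_cont_cc d f hfcont hfc g0
  have hev := hcc.eventually (gt_mem_nhds (show (0 : ℝ≥0∞) < ENNReal.ofReal (ε / 4) by simpa using hε))
  filter_upwards [hev] with g hg
  have h2 : ‖KOOP_lin d g ψ - KOOP_lin d g0 ψ‖ ≤ ε / 4 := by
    rw [Lp.norm_def]
    refine ENNReal.toReal_le_of_le_ofReal (by linarith) ?_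
    refine le_of_eq_of_le ?_ hg.le
    refine eLpNorm_congr_ae ?_
    filter_upwards [Lp.coeFn_sub (KOOP_lin d g ψ) (KOOP_lin d g0 ψ), hψK g, hψK g0] with y h1 h2 h3
    rw [h1, Pi.sub_apply, h2, h3]
  have h3 : ‖KOOP_lin d g φ - KOOP_lin d g ψ‖ ≤ ε / 4 := by
    rw [← map_sub, LinearIsometry.norm_map]; exact hφψ
  have h4 : ‖KOOP_lin d g0 ψ - KOOP_lin d g0 φ‖ ≤ ε / 4 := by
    rw [← map_sub, LinearIsometry.norm_map, norm_sub_rev]; exact hφψ
  rw [dist_eq_norm]
  have h5 : KOOP_lin d g φ - KOOP_lin d g0 φ = (KOOP_lin d g φ - KOOP_lin d g ψ) +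
      (KOOP_lin d g ψ - KOOP_lin d g0 ψ) + (KOOP_lin d g0 ψ - KOOP_lin d g0 φ) := by abel
  rw [h5]
  refine lt_of_le_of_lt (norm_add₃_le) ?_
  linarith

end KOOP

/-- KOOP -/
theorem koop {Y : Type} [TopologicalSpace Y] [T2Space Y] [LocallyCompactSpace Y]
    [SecondCountableTopology Y] [MeasurableSpace Y] [BorelSpace Y] [MulAction G Y]
    [ContinuousSMul G Y] (μ : Measure Y) [IsFiniteMeasureOnCompacts μ] (d : KD Y μ) :
    ∃ R : URep (Lp ℂ 2 μ), d.IsKoop R := by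
  refine ⟨⟨fun g => (KOOP_lin d g).toContinuousLinearMap, fun φ => KOOP_lin_one d φ,
    fun g h φ => KOOP_lin_mul d g h φ, fun g φ => (KOOP_lin d g).norm_map φ,
    fun φ => KOOP_cont d φ⟩, ?_⟩
  intro g φ
  exact KOOP_lin_ae d g φ

end Pool.Agent.H88.LF

end S_H88_LF_KOOP

section S_H88_LF_COC

/-!
# COC (end of blueprint section 7): polynomial growth of `G/Γ` and uniform discreteness imply cocompactness

`Γ` is a discrete (countable) subgroup.  `λ` = the `G`-invariant measure on `G ⧸ Γ` (image of Haar measure restricted to a Borel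
fundamental domain; `Mathlib.MeasureTheory.Measure.Haar.Quotient`).  If `U ⊆ G` is such that `u ↦ uΓ` is injective on `U` then
`λ(UΓ/Γ) = haar U`; in general `λ(UΓ/Γ) ≤ haar U`.
(a) Suppose `λ(G/Γ) = ∞`.  Then `L²(G/Γ)` has no nonzero invariant vector (an invariant function is a.e. constant: `f(gy)=f(y)` a.e.
for every `g`, Fubini, transitivity).  Apply `dec` to the Koopman representation (`koop` with `J = 1`), `K = ⊤`, `(i,l) = (0,1)`, `v = (t,-t)`,
`φ = 1_{BP 1 n Γ/Γ}`, `ψ = 1_{BP 1 (n+m) Γ/Γ}` where `m` is such that all `rot θ'⁻¹ * D v * rot θ` lie in `BP 1 m` (compact set, `BP 1 m` exhausts `G`: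
`G` is generated by small elements).  Then `⟪π(rot θ')ψ, π(D v rot θ)φ⟫ = λ(BP 1 n Γ/Γ)`, so `(2π)² λ_n ≤ 1000 e^{-t/2} √(λ_n λ_{n+m})`; for `t` large
`λ_{n+m} ≥ 2 λ_n` for all `n`: exponential growth.  But `λ_n ≤ C(n+1)^p haar(Bl 1)` by `hpoly`.  Contradiction.
(b) So `λ(G/Γ) < ∞`.  Choose `r` small so that `nd(b⁻¹b')≤ρ` for `b, b' ∈ Bl r`; the sets `Bl r g Γ/Γ` have measure `haar(Bl r)` by `hUD`
(`b g γ = b' g` gives `nd(gγg⁻¹) ≤ ρ`).  A maximal family of pairwise disjoint such sets is finite: `g_1..g_m`; then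
`G = ∪ (Bl r)⁻¹ Bl r g_l Γ`, `K = ∪ (Bl r)⁻¹ Bl r g_l`.
-/

set_option autoImplicit false

open MeasureTheory Set Filter
open scoped Topology ENNReal Pointwise NNReal

namespace Pool.Agent.H88.LF



/-! ### Topology of `G` -/

theorem coc_continuous_val : Continuous (fun g : G => (g.1 : Mat)) := closedEmb_val.continuous

theorem coc_continuous_nrm : Continuous (fun A : Mat => nrm A) := by
  unfold nrm
  refine continuous_finsetSum _ fun i _ => continuous_finsetSum _ fun j _ => ?_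
  exact continuous_abs.comp ((continuous_apply j).comp (continuous_apply i))

theorem coc_continuous_nd : Continuous nd := by
  unfold nd
  exact coc_continuous_nrm.comp (coc_continuous_val.sub continuous_const)

theorem coc_nd_one : nd 1 = 0 := by
  simp [nd, nrm]

theorem coc_isClosed_Bl (r : ℝ) : IsClosed (Bl r) := isClosed_le coc_continuous_nd continuous_const

theorem coc_isCompact_Bl (r : ℝ) : IsCompact (Bl r) := by
  have h1 : IsCompact {A : Mat | nrm (A - 1) ≤ r} := by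
    have hc : IsClosed {A : Mat | nrm (A - 1) ≤ r} :=
      isClosed_le (coc_continuous_nrm.comp (continuous_id.sub continuous_const)) continuous_const
    have h2 : IsCompact (Set.univ.pi (fun i => Set.univ.pi (fun j => Set.Icc ((1 : Mat) i j - r) ((1 : Mat) i j + r))) : Set Mat) :=
      isCompact_univ_pi fun i => isCompact_univ_pi fun j => isCompact_Icc
    refine h2.of_isClosed_subset hc ?_
    intro A hA i _ j _
    change Mat at A
    have h3 : |(A - 1) i j| ≤ nrm (A - 1) := by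
      unfold nrm
      refine le_trans ?_ (Finset.single_le_sum (f := fun i => ∑ j, |(A - 1) i j|)
        (fun i _ => Finset.sum_nonneg fun j _ => abs_nonneg _) (Finset.mem_univ i))
      exact Finset.single_le_sum (f := fun j => |(A - 1) i j|) (fun j _ => abs_nonneg _) (Finset.mem_univ j)
    have h4 := abs_le.1 (h3.trans hA)
    rw [Matrix.sub_apply] at h4
    exact ⟨by linarith [h4.1], by linarith [h4.2]⟩
  exact closedEmb_val.isCompact_preimage h1

theorem coc_Bl_mem_nhds (r : ℝ) (hr : 0 < r) : Bl r ∈ 𝓝 (1 : G) := by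
  have : {g : G | nd g < r} ∈ 𝓝 (1 : G) :=
    (isOpen_lt coc_continuous_nd continuous_const).mem_nhds (by simpa [coc_nd_one] using hr)
  exact mem_of_superset this (fun g hg => le_of_lt (show nd g < r from hg))

instance coc_polishG : PolishSpace G := by
  have : PolishSpace Mat := inferInstanceAs (PolishSpace (Fin 3 → Fin 3 → ℝ))
  exact closedEmb_val.polishSpace

/-! ### Products of small elements -/

theorem coc_BP_isCompact (r : ℝ) (n : ℕ) : IsCompact (BP r n) := by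
  induction n with
  | zero => exact isCompact_singleton
  | succ n ih =>
    have : BP r (n + 1) = Bl r * BP r n := by
      ext g
      simp only [BP, mem_ofPred_eq, Set.mem_mul]
      constructor
      · rintro ⟨b, hb, g', hg', rfl⟩; exact ⟨b, hb, g', hg', rfl⟩
      · rintro ⟨b, hb, g', hg', rfl⟩; exact ⟨b, hb, g', hg', rfl⟩
    rw [this]
    exact (coc_isCompact_Bl r).mul ih

theorem coc_BP_mul (r : ℝ) (m n : ℕ) {g h : G} (hg : g ∈ BP r m) (hh : h ∈ BP r n) :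
    g * h ∈ BP r (n + m) := by
  induction m generalizing g with
  | zero =>
    have : g = 1 := hg
    subst this; simpa using hh
  | succ m ih =>
    obtain ⟨b, hb, g', hg', rfl⟩ := hg
    exact ⟨b, hb, g' * h, ih hg', by rw [mul_assoc]⟩

theorem coc_BP_pow (r : ℝ) (n : ℕ) {g : G} (hg : g ∈ Bl r) : g ^ n ∈ BP r n := by
  induction n with
  | zero => simp [BP]
  | succ n ih => exact ⟨g, hg, g ^ n, ih, by rw [pow_succ']⟩

theorem coc_one_mem_Bl : (1 : G) ∈ Bl 1 := by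
  simp [Bl, coc_nd_one]


/-! ### Unimodularity -/

/-- A homomorphism into the nonnegative reals kills all transvections. -/
theorem coc_char_U (f : G →* ℝ≥0) (i j : Fin 3) (h : i ≠ j) (c : ℝ) : f (U i j h c) = 1 := by
  obtain ⟨k, hki, hkj⟩ : ∃ k : Fin 3, k ≠ i ∧ k ≠ j := by
    fin_cases i <;> fin_cases j <;> first | exact absurd rfl h | decide
  have e : U i k hki.symm 1 * U k j hkj c = U i j h c * (U k j hkj c * U i k hki.symm 1) := by
    apply Subtype.ext
    change Matrix.transvection i k 1 * Matrix.transvection k j c =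
      Matrix.transvection i j c * (Matrix.transvection k j c * Matrix.transvection i k 1)
    ext a b
    fin_cases i <;> fin_cases j <;> (try exact absurd rfl h) <;> fin_cases k <;>
      (try exact absurd rfl hki) <;> (try exact absurd rfl hkj) <;> fin_cases a <;> fin_cases b <;>
      simp [Matrix.transvection, Matrix.mul_apply, Fin.sum_univ_three, Matrix.single, Matrix.one_apply]
  have e2 := congrArg f e
  rw [map_mul, map_mul, map_mul, mul_comm (f (U k j hkj c))] at e2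
  have hne : f (U i k hki.symm 1) * f (U k j hkj c) ≠ 0 := by
    rw [← map_mul]
    intro h0
    have h1 : f (U i k hki.symm 1 * U k j hkj c) * f ((U i k hki.symm 1 * U k j hkj c)⁻¹) = 1 := by
      rw [← map_mul, mul_inv_cancel, map_one]
    rw [h0, zero_mul] at h1
    exact zero_ne_one h1
  have e3 : 1 * (f (U i k hki.symm 1) * f (U k j hkj c)) =
      f (U i j h c) * (f (U i k hki.symm 1) * f (U k j hkj c)) := by
    rw [one_mul]; exact e2
  exact (mul_right_cancel₀ hne e3).symm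

theorem coc_char_list (f : G →* ℝ≥0) (L : List (Matrix.TransvectionStruct (Fin 3) ℝ)) :
    ∃ g : G, g.1 = (L.map Matrix.TransvectionStruct.toMatrix).prod ∧ f g = 1 := by
  induction L with
  | nil => exact ⟨1, rfl, map_one f⟩
  | cons t L ih =>
    obtain ⟨g, hg, hf⟩ := ih
    refine ⟨U t.i t.j t.hij t.c * g, ?_, ?_⟩
    · rw [List.map_cons, List.prod_cons, ← hg]; rfl
    · rw [map_mul, coc_char_U, hf, one_mul]

/-- The cyclic permutation. -/
def coc_P : G := ⟨!![0,1,0;0,0,1;1,0,0], by rw [Matrix.det_fin_three]; simp⟩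

/-- Diagonal elements. -/
noncomputable def coc_dg (a b c : ℝ) (h : a * b * c = 1) : G :=
  ⟨Matrix.diagonal ![a, b, c], by
    rw [Matrix.det_diagonal, Fin.prod_univ_three]; simpa using h⟩

theorem coc_char_dg (f : G →* ℝ≥0) (a b c : ℝ) (h : a * b * c = 1) : f (coc_dg a b c h) = 1 := by
  have key : ∀ (a b c : ℝ) (h : a * b * c = 1), f (coc_dg a b c h) =
      f (coc_dg b c a (by rw [← h]; ring)) := by
    intro a b c h
    have e : coc_P * coc_dg a b c h = coc_dg b c a (by rw [← h]; ring) * coc_P := by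
      apply Subtype.ext
      change (!![0,1,0;0,0,1;1,0,0] : Mat) * Matrix.diagonal ![a,b,c] =
        Matrix.diagonal ![b,c,a] * (!![0,1,0;0,0,1;1,0,0] : Mat)
      ext i j
      fin_cases i <;> fin_cases j <;> simp [Matrix.mul_apply, Matrix.diagonal]
    have e2 := congrArg f e
    rw [map_mul, map_mul, mul_comm (f coc_P)] at e2
    have hne : f coc_P ≠ 0 := by
      intro h0
      have h1 : f coc_P * f coc_P⁻¹ = 1 := by rw [← map_mul, mul_inv_cancel, map_one]
      rw [h0, zero_mul] at h1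
      exact zero_ne_one h1
    exact mul_right_cancel₀ hne e2
  have h3 : coc_dg a b c h * coc_dg b c a (by rw [← h]; ring) * coc_dg c a b (by rw [← h]; ring) = 1 := by
    apply Subtype.ext
    change Matrix.diagonal ![a,b,c] * Matrix.diagonal ![b,c,a] * Matrix.diagonal ![c,a,b] = (1 : Mat)
    rw [Matrix.diagonal_mul_diagonal, Matrix.diagonal_mul_diagonal, ← Matrix.diagonal_one]
    congr 1
    ext i
    fin_cases i <;> simp <;> nlinarith [h]
  have h4 := congrArg f h3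
  rw [map_mul, map_mul, map_one, ← key b c a (by rw [← h]; ring), ← key a b c h] at h4
  have h5 : (f (coc_dg a b c h)) ^ 3 = 1 := by rw [← h4]; ring
  exact (pow_eq_one_iff_of_nonneg (zero_le) (by norm_num : (3:ℕ) ≠ 0)).1 h5

theorem coc_char (f : G →* ℝ≥0) (g : G) : f g = 1 := by
  obtain ⟨L, L', D, hD⟩ := Matrix.Pivot.exists_list_transvec_mul_diagonal_mul_list_transvec g.1
  obtain ⟨g1, h1, hf1⟩ := coc_char_list f L
  obtain ⟨g2, h2, hf2⟩ := coc_char_list f L'
  have hdet : D 0 * D 1 * D 2 = 1 := by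
    have h3 : (g.1).det = 1 := g.2
    rw [hD, ← h1, ← h2, Matrix.det_mul, Matrix.det_mul, g1.2, g2.2, Matrix.det_diagonal,
      Fin.prod_univ_three] at h3
    simpa using h3
  have e : g = g1 * coc_dg (D 0) (D 1) (D 2) hdet * g2 := by
    apply Subtype.ext
    change g.1 = g1.1 * Matrix.diagonal ![D 0, D 1, D 2] * g2.1
    rw [hD, h1, h2]
    congr 3
    ext i; fin_cases i <;> rfl
  rw [e, map_mul, map_mul, hf1, hf2, coc_char_dg, one_mul, one_mul]

instance coc_rightInv : (hG).IsMulRightInvariant where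
  map_mul_right_eq_self g := by
    have h : Measure.modularCharacterFun g = 1 := coc_char (Measure.modularCharacter (G := G)) g
    rw [Measure.map_right_mul_eq_modularCharacterFun_smul, h, one_smul]




section quot

variable {Γ : Subgroup G} {ρ : ℝ}

/-- A small open set. -/
theorem coc_exists_V (ρ : ℝ) (hρ : 0 < ρ) : ∃ V : Set G, IsOpen V ∧ (1 : G) ∈ V ∧
    V ⊆ Bl 1 ∧ ∀ b ∈ V, ∀ b' ∈ V, nd (b⁻¹ * b') ≤ ρ := by
  have hc : Continuous (fun p : G × G => nd (p.1⁻¹ * p.2)) :=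
    coc_continuous_nd.comp ((continuous_fst.inv).mul continuous_snd)
  have ho : IsOpen {p : G × G | nd (p.1⁻¹ * p.2) < ρ} := isOpen_lt hc continuous_const
  have hm : ((1 : G), (1 : G)) ∈ {p : G × G | nd (p.1⁻¹ * p.2) < ρ} := by
    simpa [coc_nd_one] using hρ
  obtain ⟨u, v, hu, hv, h1u, h1v, huv⟩ := isOpen_prod_iff.1 ho 1 1 hm
  have hB : IsOpen {g : G | nd g < 1} := isOpen_lt coc_continuous_nd continuous_const
  refine ⟨u ∩ v ∩ {g : G | nd g < 1}, (hu.inter hv).inter hB, ⟨⟨h1u, h1v⟩, ?_⟩, ?_, ?_⟩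
  · simp [coc_nd_one]
  · intro g hg
    exact le_of_lt (show nd g < 1 from hg.2)
  · intro b hb b' hb'
    have h := @huv (b, b') ⟨hb.1.1, hb'.1.2⟩
    rw [mem_ofPred_eq] at h
    exact le_of_lt h

theorem coc_discrete (hρ : 0 < ρ) (hUD : ∀ γ ∈ Γ, nd γ ≤ ρ → γ = 1) : DiscreteTopology Γ := by
  apply discreteTopology_of_isOpen_singleton_one
  have : ({1} : Set Γ) = (fun γ : Γ => nd γ.1) ⁻¹' (Iio ρ) := by
    ext γ
    simp only [mem_singleton_iff, mem_preimage, mem_Iio]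
    constructor
    · rintro rfl
      simpa [coc_nd_one] using hρ
    · intro h
      exact Subtype.ext (hUD γ.1 γ.2 h.le)
  rw [this]
  exact isOpen_Iio.preimage (coc_continuous_nd.comp continuous_subtype_val)

theorem coc_t2 [DiscreteTopology Γ] : T2Space (G ⧸ Γ) := by
  have : ProperlyDiscontinuousSMul Γ.op G :=
    Γ.properlyDiscontinuousSMul_opposite_of_tendsto_cofinite
      (Γ.tendsto_coe_cofinite_of_discrete ⟨inferInstance⟩)
  have h : T2Space (Quotient (MulAction.orbitRel Γ.op G)) := inferInstance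
  exact h

theorem coc_countable [DiscreteTopology Γ] : Countable Γ := by
  have : SecondCountableTopology Γ := inferInstance
  exact countable_of_Lindelof_of_discrete

/-- The sets `x Γ`-saturation. -/
def coc_T (Γ : Subgroup G) (W : ℕ → Set G) (n : ℕ) : Set G := {x | ∃ γ ∈ Γ, x * γ ∈ W n}

/-- The fundamental domain. -/
def coc_F (Γ : Subgroup G) (W : ℕ → Set G) : Set G :=
  {x | ∃ n, x ∈ W n ∧ ∀ m, m < n → x ∉ coc_T Γ W m}

theorem coc_F_meas (W : ℕ → Set G) (hW : ∀ n, IsOpen (W n)) (hT : ∀ n, IsOpen (coc_T Γ W n)) :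
    MeasurableSet (coc_F Γ W) := by
  have : coc_F Γ W = ⋃ n, (W n ∩ ⋂ m, ⋂ (_ : m < n), (coc_T Γ W m)ᶜ) := by
    ext x; simp [coc_F]
  rw [this]
  exact MeasurableSet.iUnion fun n => (hW n).measurableSet.inter
    (MeasurableSet.iInter fun m => MeasurableSet.iInter fun _ => (hT m).measurableSet.compl)

theorem coc_T_open (W : ℕ → Set G) (hW : ∀ n, IsOpen (W n)) (n : ℕ) : IsOpen (coc_T Γ W n) := by
  have : coc_T Γ W n = ⋃ γ ∈ Γ, (fun x => x * γ) ⁻¹' (W n) := by
    ext x; simp [coc_T]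
  rw [this]
  exact isOpen_biUnion fun γ _ => (hW n).preimage (continuous_mul_const γ)

theorem coc_fund (W : ℕ → Set G) (hW : ∀ n, IsOpen (W n)) (hcov : ∀ x, ∃ n, x ∈ W n)
    (hinj : ∀ n, ∀ x ∈ W n, ∀ γ ∈ Γ, x * γ ∈ W n → γ = 1) :
    IsFundamentalDomain Γ.op (coc_F Γ W) hG := by
  classical
  refine IsFundamentalDomain.mk' ?_ ?_
  · apply MeasurableSet.nullMeasurableSet
    exact coc_F_meas W hW (coc_T_open W hW)
  · intro x
    have hex : ∃ n, x ∈ coc_T Γ W n := by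
      obtain ⟨n, hn⟩ := hcov x
      exact ⟨n, 1, Γ.one_mem, by simpa using hn⟩
    have hTinv : ∀ m, ∀ γ ∈ Γ, x * γ ∈ coc_T Γ W m ↔ x ∈ coc_T Γ W m := by
      intro m γ hγ
      constructor
      · rintro ⟨δ, hδ, h⟩
        exact ⟨γ * δ, Γ.mul_mem hγ hδ, by rwa [← mul_assoc]⟩
      · rintro ⟨δ, hδ, h⟩
        exact ⟨γ⁻¹ * δ, Γ.mul_mem (Γ.inv_mem hγ) hδ, by rwa [← mul_assoc, mul_inv_cancel_right]⟩
    have hmem : ∀ γ ∈ Γ, x * γ ∈ coc_F Γ W ↔ x * γ ∈ W (Nat.find hex) := by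
      intro γ hγ
      simp only [coc_F, mem_ofPred_eq]
      constructor
      · rintro ⟨n, h1, h2⟩
        have h3 : n = Nat.find hex := by
          refine le_antisymm ?_ (Nat.find_min' hex ⟨γ, hγ, h1⟩)
          by_contra hlt
          rw [not_le] at hlt
          exact h2 _ hlt ((hTinv _ γ hγ).2 (Nat.find_spec hex))
        rwa [h3] at h1
      · intro h
        refine ⟨_, h, ?_⟩
        intro m hm h4
        exact Nat.find_min hex hm ((hTinv m γ hγ).1 h4)
    obtain ⟨γ, hγ, h⟩ := Nat.find_spec hex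
    refine ⟨⟨MulOpposite.op γ, by simpa using hγ⟩, ?_, ?_⟩
    · exact (hmem γ hγ).2 h
    · rintro ⟨δ, hδ⟩ h5
      have hδ' : δ.unop ∈ Γ := hδ
      have h6 : x * δ.unop ∈ W (Nat.find hex) := (hmem _ hδ').1 h5
      have h7 := hinj _ _ h (γ⁻¹ * δ.unop) (Γ.mul_mem (Γ.inv_mem hγ) hδ')
        (by rwa [← mul_assoc, mul_inv_cancel_right])
      apply Subtype.ext
      apply MulOpposite.unop_injective
      change δ.unop = γ
      exact (inv_mul_eq_one.1 h7).symm

end quot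



section meas

variable {Γ : Subgroup G}

/-- The quotient map. -/
abbrev coc_pi (Γ : Subgroup G) : G → G ⧸ Γ := QuotientGroup.mk

theorem coc_pi_eq {x y : G} : coc_pi Γ x = coc_pi Γ y ↔ ∃ γ ∈ Γ, x * γ = y := by
  rw [QuotientGroup.eq]
  constructor
  · intro h; exact ⟨_, h, by rw [mul_inv_cancel_left]⟩
  · rintro ⟨γ, hγ, rfl⟩; rwa [inv_mul_cancel_left]

theorem coc_preimage (K : Set G) : coc_pi Γ ⁻¹' (coc_pi Γ '' K) = ⋃ g : Γ.op, g • K := by
  ext x
  simp only [mem_preimage, mem_image, mem_iUnion]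
  constructor
  · rintro ⟨k, hk, h⟩
    obtain ⟨γ, hγ, rfl⟩ := coc_pi_eq.1 h
    exact ⟨⟨MulOpposite.op γ, by simpa using hγ⟩, k, hk, rfl⟩
  · rintro ⟨⟨δ, hδ⟩, k, hk, rfl⟩
    exact ⟨k, hk, coc_pi_eq.2 ⟨δ.unop, hδ, rfl⟩⟩

theorem coc_pi_cont : Continuous (coc_pi Γ) := continuous_quotient_mk'

theorem coc_pi_open : IsOpenMap (coc_pi Γ) := QuotientGroup.isOpenMap_coe

/-- Everything we need about the quotient measure. -/
theorem coc_measure [DiscreteTopology Γ] [Countable Γ] [T2Space (G ⧸ Γ)]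
    (V : Set G) (hVo : IsOpen V) (h1V : (1 : G) ∈ V) (hVB : V ⊆ Bl 1)
    (hV : ∀ b ∈ V, ∀ b' ∈ V, ∀ g : G, ∀ γ ∈ Γ, b * g * γ = b' * g → γ = 1) :
    ∃ lam : Measure (G ⧸ Γ), SMulInvariantMeasure G (G ⧸ Γ) lam ∧ IsLocallyFiniteMeasure lam ∧
      (∀ K : Set G, MeasurableSet (coc_pi Γ '' K) → lam (coc_pi Γ '' K) ≤ hG K) ∧
      (∀ K : Set G, MeasurableSet K → MeasurableSet (coc_pi Γ '' K) → InjOn (coc_pi Γ) K →
        lam (coc_pi Γ '' K) = hG K) ∧
      (∀ N : Set (G ⧸ Γ), MeasurableSet N → hG (coc_pi Γ ⁻¹' N) = 0 → lam N = 0) := by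
  classical
  have hop : Countable Γ.op := (Subgroup.equivOp Γ).symm.countable_iff.2 inferInstance
  obtain ⟨s, hsc, hs⟩ := TopologicalSpace.countable_cover_nhds
    (f := fun g : G => (fun x => x * g⁻¹) ⁻¹' V)
    (fun g => (hVo.preimage (continuous_mul_const g⁻¹)).mem_nhds (by simpa using h1V))
  have hsne : s.Nonempty := by
    by_contra hne
    rw [not_nonempty_iff_eq_empty] at hne
    subst hne
    have : (1 : G) ∈ (univ : Set G) := mem_univ _
    rw [← hs] at this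
    simp at this
  obtain ⟨e, he⟩ := hsc.exists_eq_range hsne
  set W : ℕ → Set G := fun n => (fun x => x * (e n)⁻¹) ⁻¹' V with hWdef
  have hWo : ∀ n, IsOpen (W n) := fun n => hVo.preimage (continuous_mul_const _)
  have hcov : ∀ x, ∃ n, x ∈ W n := by
    intro x
    have : x ∈ (univ : Set G) := mem_univ _
    rw [← hs] at this
    simp only [mem_iUnion] at this
    obtain ⟨g, hg, hx⟩ := this
    rw [he] at hg
    obtain ⟨n, rfl⟩ := hg
    exact ⟨n, hx⟩
  have hinj : ∀ n, ∀ x ∈ W n, ∀ γ ∈ Γ, x * γ ∈ W n → γ = 1 := by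
    intro n x hx γ hγ hxγ
    refine hV _ hx _ hxγ (e n) γ hγ ?_
    simp
  have hF : IsFundamentalDomain Γ.op (coc_F Γ W) hG := coc_fund W hWo hcov hinj
  have hFm : MeasurableSet (coc_F Γ W) := coc_F_meas W hWo (coc_T_open W hWo)
  set lam : Measure (G ⧸ Γ) := (hG.restrict (coc_F Γ W)).map (coc_pi Γ) with hlam
  have hap : ∀ N : Set (G ⧸ Γ), MeasurableSet N → lam N = hG (coc_pi Γ ⁻¹' N ∩ coc_F Γ W) := by
    intro N hN
    rw [hlam, Measure.map_apply coc_pi_cont.measurable hN,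
      Measure.restrict_apply (coc_pi_cont.measurable hN)]
  have hle : ∀ K : Set G, MeasurableSet (coc_pi Γ '' K) → lam (coc_pi Γ '' K) ≤ hG K := by
    intro K hK
    rw [hap _ hK, coc_preimage, iUnion_inter, hF.measure_eq_tsum K]
    exact measure_iUnion_le _
  refine ⟨lam, ?_, ?_, hle, ?_, ?_⟩
  · have i1 : QuotientMeasureEqMeasurePreimage (G := Γ.op) hG lam :=
      hF.quotientMeasureEqMeasurePreimage_quotientMeasure
    have i2 : HasFundamentalDomain Γ.op G hG := ⟨⟨_, hF⟩⟩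
    exact QuotientMeasureEqMeasurePreimage.smulInvariantMeasure_quotient hG
  · refine ⟨fun y => ?_⟩
    obtain ⟨g, rfl⟩ := QuotientGroup.mk_surjective y
    set U : Set G := (fun x => x * g⁻¹) ⁻¹' V with hU
    have hUo : IsOpen U := hVo.preimage (continuous_mul_const _)
    refine ⟨coc_pi Γ '' U, (coc_pi_open U hUo).mem_nhds ⟨g, by simpa [hU] using h1V, rfl⟩, ?_⟩
    refine lt_of_le_of_lt (hle U (coc_pi_open U hUo).measurableSet) ?_
    rw [hU, measure_preimage_mul_right]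
    exact lt_of_le_of_lt (measure_mono hVB) (coc_isCompact_Bl 1).measure_lt_top
  · intro K hKm hK hKi
    rw [hap _ hK, coc_preimage, iUnion_inter, hF.measure_eq_tsum K]
    apply measure_iUnion
    · intro a b hab
      apply Disjoint.mono inter_subset_left inter_subset_left
      rw [Set.disjoint_left]
      rintro x ⟨k, hk, hka⟩ ⟨k', hk', hkb⟩
      apply hab
      have h1 : k * (a : Gᵐᵒᵖ).unop = x := hka
      have h2 : k' * (b : Gᵐᵒᵖ).unop = x := hkb
      have ha' : (a : Gᵐᵒᵖ).unop ∈ Γ := a.2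
      have hb' : (b : Gᵐᵒᵖ).unop ∈ Γ := b.2
      have h3 : coc_pi Γ k = coc_pi Γ k' :=
        (coc_pi_eq.2 ⟨_, ha', h1⟩).trans (coc_pi_eq.2 ⟨_, hb', h2⟩).symm
      have h4 := hKi hk hk' h3
      subst h4
      apply Subtype.ext
      apply MulOpposite.unop_injective
      exact mul_left_cancel (h1.trans h2.symm)
    · intro a
      exact (hKm.const_smul a).inter hFm
  · intro N hN h0
    rw [hap N hN]
    exact measure_mono_null inter_subset_left h0

end meas



section koop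

variable {Γ : Subgroup G} [T2Space (G ⧸ Γ)] (lam : Measure (G ⧸ Γ))
  [SMulInvariantMeasure G (G ⧸ Γ) lam] [IsLocallyFiniteMeasure lam]

/-- Koopman data with trivial cocycle. -/
noncomputable def coc_KD : KD (G ⧸ Γ) lam where
  J := fun _ _ => 1
  pos := fun _ _ => one_pos
  cont := continuous_const
  coc := fun _ _ _ => by norm_num
  qi := by
    intro g f hf
    simp only [ENNReal.ofReal_one, mul_one]
    exact (measurePreserving_smul g⁻¹ lam).lintegral_comp hf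

theorem coc_noInv (h0 : ∀ N : Set (G ⧸ Γ), MeasurableSet N → hG (coc_pi Γ ⁻¹' N) = 0 → lam N = 0)
    (hinf : lam univ = ⊤) (R : URep (Lp ℂ 2 lam)) (hR : (coc_KD lam).IsKoop R)
    (φ : Lp ℂ 2 lam) (hφ : ∀ g, R.π g φ = φ) : φ = 0 := by
  have hm : Measurable (φ : G ⧸ Γ → ℂ) := (Lp.stronglyMeasurable φ).measurable
  have h1 : ∀ g : G, ∀ᵐ y ∂lam, (φ : G ⧸ Γ → ℂ) (g • y) = (φ : G ⧸ Γ → ℂ) y := by
    intro g
    have h2 := hR g⁻¹ φ
    rw [hφ g⁻¹] at h2
    filter_upwards [h2] with y hy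
    rw [hy]
    simp [coc_KD]
  have hS : MeasurableSet {p : G × (G ⧸ Γ) | (φ : G ⧸ Γ → ℂ) (p.1 • p.2) = (φ : G ⧸ Γ → ℂ) p.2} := by
    apply measurableSet_eq_fun
    · exact hm.comp (continuous_smul).measurable
    · exact hm.comp measurable_snd
  have h3 : ∀ᵐ y ∂lam, ∀ᵐ g ∂hG, (φ : G ⧸ Γ → ℂ) (g • y) = (φ : G ⧸ Γ → ℂ) y :=
    (Measure.ae_ae_comm hS).1 (Eventually.of_forall h1)
  have hne : (ae lam).NeBot := by
    rw [ae_neBot]
    rintro rfl
    simp at hinf
  obtain ⟨y0, hy0⟩ := h3.exists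
  obtain ⟨g0, rfl⟩ := QuotientGroup.mk_surjective y0
  set c : ℂ := (φ : G ⧸ Γ → ℂ) (QuotientGroup.mk g0) with hc
  have h4 : ∀ᵐ y ∂lam, (φ : G ⧸ Γ → ℂ) y = c := by
    have hN : MeasurableSet {y : G ⧸ Γ | ¬ (φ : G ⧸ Γ → ℂ) y = c} :=
      (measurableSet_eq_fun hm measurable_const).compl
    refine h0 _ hN ?_
    have h5 : hG ((fun g => g * g0) ⁻¹' (coc_pi Γ ⁻¹' {y : G ⧸ Γ | ¬ (φ : G ⧸ Γ → ℂ) y = c})) = 0 := by
      exact hy0
    rwa [measure_preimage_mul_right] at h5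
  have h6 : (φ : G ⧸ Γ → ℂ) =ᵐ[lam] fun _ => c := h4
  have h7 : MemLp (fun _ : G ⧸ Γ => c) 2 lam := (memLp_congr_ae h6).1 (Lp.memLp φ)
  rw [memLp_const_iff (by norm_num) (by norm_num)] at h7
  rcases h7 with h7 | h7
  · rw [Lp.eq_zero_iff_ae_eq_zero]
    rw [h7] at h6
    exact h6
  · rw [hinf] at h7
    exact absurd h7 (lt_irrefl _)

omit [IsLocallyFiniteMeasure lam] in
/-- Matrix coefficients of indicator functions. -/
theorem coc_inner (R : URep (Lp ℂ 2 lam)) (hR : (coc_KD lam).IsKoop R) (A B : Set (G ⧸ Γ))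
    (hA : MeasurableSet A) (hB : MeasurableSet B) (hA' : lam A ≠ ⊤) (hB' : lam B ≠ ⊤) (g h : G)
    (hgh : ∀ y ∈ A, (h⁻¹ * g) • y ∈ B) :
    inner ℂ (R.π h (indicatorConstLp 2 hB hB' (1:ℂ))) (R.π g (indicatorConstLp 2 hA hA' (1:ℂ))) =
      ((lam A).toReal : ℂ) := by
  rw [L2.inner_def]
  have e1 : ∀ (g : G) (A : Set (G ⧸ Γ)) (hA : MeasurableSet A) (hA' : lam A ≠ ⊤),
      (R.π g (indicatorConstLp 2 hA hA' (1:ℂ)) : G ⧸ Γ → ℂ) =ᵐ[lam]
        fun y => A.indicator (fun _ => (1:ℂ)) (g⁻¹ • y) := by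
    intro g A hA hA'
    have h2 := hR g (indicatorConstLp 2 hA hA' (1:ℂ))
    have h3 : ∀ᵐ y ∂lam, (indicatorConstLp 2 hA hA' (1:ℂ) : G ⧸ Γ → ℂ) (g⁻¹ • y) =
        A.indicator (fun _ => (1:ℂ)) (g⁻¹ • y) :=
      (measurePreserving_smul g⁻¹ lam).quasiMeasurePreserving.ae
        (indicatorConstLp_coeFn (p := 2) (hs := hA) (hμs := hA') (c := (1:ℂ)))
    filter_upwards [h2, h3] with y hy hy2
    rw [hy, hy2]
    simp [coc_KD]
  have e2 : (fun a => inner ℂ ((R.π h (indicatorConstLp 2 hB hB' (1:ℂ)) : G ⧸ Γ → ℂ) a)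
      ((R.π g (indicatorConstLp 2 hA hA' (1:ℂ)) : G ⧸ Γ → ℂ) a)) =ᵐ[lam]
      fun y => A.indicator (fun _ => (1:ℂ)) (g⁻¹ • y) := by
    filter_upwards [e1 g A hA hA', e1 h B hB hB'] with y hy hy2
    rw [hy, hy2]
    by_cases hyA : g⁻¹ • y ∈ A
    · have hyB : h⁻¹ • y ∈ B := by
        have := hgh _ hyA
        rwa [smul_smul, mul_assoc, mul_inv_cancel, mul_one] at this
      simp [hyA, hyB]
    · simp [hyA]
  rw [integral_congr_ae e2]
  have hmp := (measurePreserving_smul g⁻¹ lam)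
  have e3 : ∫ y, A.indicator (fun _ => (1:ℂ)) (g⁻¹ • y) ∂lam = ∫ y, A.indicator (fun _ => (1:ℂ)) y ∂lam :=
    MeasurePreserving.integral_comp' (f := MeasurableEquiv.smul g⁻¹) hmp (fun y => A.indicator (fun _ => (1:ℂ)) y)
  rw [e3, integral_indicator_const _ hA]
  simp [Measure.real]

end koop



theorem coc_oneParam (f : ℝ → G) (hadd : ∀ a b, f (a + b) = f a * f b)
    (hc : Continuous fun s => nd (f s)) (R : ℝ) : ∃ N, ∀ s, |s| ≤ R → f s ∈ BP 1 N := by
  have hf0 : f 0 = 1 := by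
    have h := hadd 0 0
    rw [add_zero] at h
    exact (mul_eq_left.1 h.symm)
  have hnd0 : nd (f 0) < 1 := by rw [hf0, coc_nd_one]; norm_num
  have hev : ∀ᶠ s in 𝓝 (0:ℝ), nd (f s) < 1 := hc.continuousAt.eventually_lt continuousAt_const hnd0
  obtain ⟨δ, hδ, hδs⟩ := Metric.eventually_nhds_iff.1 hev
  obtain ⟨N, hN⟩ := exists_nat_gt (R / δ)
  refine ⟨N + 1, fun s hs => ?_⟩
  have hN1 : (0:ℝ) < (N:ℝ) + 1 := by positivity
  have hsmall : |s / ((N:ℝ) + 1)| < δ := by
    rw [abs_div, abs_of_pos hN1, div_lt_iff₀ hN1]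
    have : R < δ * N := by rwa [div_lt_iff₀ hδ, mul_comm] at hN
    nlinarith
  have hb : f (s / ((N:ℝ) + 1)) ∈ Bl 1 := by
    have h := hδs (y := s / ((N:ℝ) + 1)) (by rw [Real.dist_eq, sub_zero]; exact hsmall)
    exact le_of_lt h
  have hpow : ∀ (x : ℝ) (k : ℕ), f x ^ k = f (k * x) := by
    intro x k
    induction k with
    | zero => simp [hf0]
    | succ k ih => rw [pow_succ, ih, ← hadd]; congr 1; push_cast; ring
  have h1 := coc_BP_pow 1 (N + 1) hb
  rw [hpow] at h1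
  have h2 : ((N + 1 : ℕ) : ℝ) * (s / ((N:ℝ) + 1)) = s := by
    push_cast
    field_simp
  rwa [h2] at h1

theorem coc_rot_add (h : (0 : Fin 3) ≠ 1) (a b : ℝ) :
    rot 0 1 h (a + b) = rot 0 1 h a * rot 0 1 h b := by
  apply Subtype.ext
  change rotMat 0 1 (a + b) = rotMat 0 1 a * rotMat 0 1 b
  ext i j
  fin_cases i <;> fin_cases j <;>
    simp [rotMat, Matrix.mul_apply, Fin.sum_univ_three, Real.cos_add, Real.sin_add] <;> ring

theorem coc_D_add (t a b : ℝ) :
    D ((a + b) * t, -((a + b) * t)) = D (a * t, -(a * t)) * D (b * t, -(b * t)) := by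
  apply Subtype.ext
  change Matrix.diagonal _ = Matrix.diagonal _ * Matrix.diagonal _
  rw [Matrix.diagonal_mul_diagonal]
  congr 1
  ext i
  rw [← Real.exp_add]
  congr 1
  fin_cases i <;> simp [cmp] <;> ring

theorem coc_rot_cont (h : (0 : Fin 3) ≠ 1) : Continuous fun s => nd (rot 0 1 h s) := by
  unfold nd nrm
  refine continuous_finsetSum _ fun i _ => continuous_finsetSum _ fun j _ => ?_
  refine continuous_abs.comp ?_
  change Continuous fun s => (rotMat 0 1 s - 1) i j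
  simp only [Matrix.sub_apply]
  refine Continuous.sub ?_ continuous_const
  unfold rotMat
  fin_cases i <;> fin_cases j <;> simp <;> fun_prop

theorem coc_D_cont (t : ℝ) : Continuous fun s => nd (D (s * t, -(s * t))) := by
  unfold nd nrm
  refine continuous_finsetSum _ fun i _ => continuous_finsetSum _ fun j _ => ?_
  refine continuous_abs.comp ?_
  change Continuous fun s => (Matrix.diagonal (fun i => Real.exp (cmp (s * t, -(s * t)) i)) - 1) i j
  simp only [Matrix.sub_apply]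
  refine Continuous.sub ?_ continuous_const
  fin_cases i <;> fin_cases j <;> simp [cmp, Matrix.diagonal] <;> fun_prop

theorem coc_exists_m (h : (0 : Fin 3) ≠ 1) (t : ℝ) : ∃ m : ℕ, ∀ θ θ' : ℝ, |θ| ≤ 2 * Real.pi →
    |θ'| ≤ 2 * Real.pi → (rot 0 1 h θ')⁻¹ * (D (t, -t) * rot 0 1 h θ) ∈ BP 1 m := by
  obtain ⟨N, hN⟩ := coc_oneParam (fun s => rot 0 1 h s) (coc_rot_add h) (coc_rot_cont h) (2 * Real.pi)
  obtain ⟨M, hM⟩ := coc_oneParam (fun s => D (s * t, -(s * t))) (coc_D_add t) (coc_D_cont t) 1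
  have hrot0 : rot 0 1 h 0 = 1 := by
    have e := coc_rot_add h 0 0
    rw [add_zero] at e
    exact (mul_eq_left.1 e.symm)
  have hinv : ∀ θ, (rot 0 1 h θ)⁻¹ = rot 0 1 h (-θ) := by
    intro θ
    rw [inv_eq_iff_mul_eq_one, ← coc_rot_add h, add_neg_cancel, hrot0]
  refine ⟨(N + M) + N, fun θ θ' hθ hθ' => ?_⟩
  rw [hinv]
  refine coc_BP_mul 1 N (N + M) (hN _ (by rwa [abs_neg])) (coc_BP_mul 1 M N ?_ (hN _ hθ))
  have := hM 1 (by simp)
  simpa using this

section growth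

variable {Γ : Subgroup G} [T2Space (G ⧸ Γ)] (lam : Measure (G ⧸ Γ))
  [SMulInvariantMeasure G (G ⧸ Γ) lam] [IsLocallyFiniteMeasure lam]

theorem coc_step (h0 : ∀ N : Set (G ⧸ Γ), MeasurableSet N → hG (coc_pi Γ ⁻¹' N) = 0 → lam N = 0)
    (hinf : lam univ = ⊤) : ∃ m : ℕ, ∀ n : ℕ,
      2 * (lam (coc_pi Γ '' BP 1 n)).toReal ≤ (lam (coc_pi Γ '' BP 1 (n + m))).toReal := by
  have h01 : (0 : Fin 3) ≠ 1 := by decide
  set t : ℝ := 2 * Real.log 1000 with ht
  obtain ⟨m, hm⟩ := coc_exists_m h01 t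
  refine ⟨m, fun n => ?_⟩
  obtain ⟨R, hR⟩ := koop lam (coc_KD lam)
  have hcpt : ∀ k, IsCompact (coc_pi Γ '' BP 1 k) := fun k => (coc_BP_isCompact 1 k).image coc_pi_cont
  have hms : ∀ k, MeasurableSet (coc_pi Γ '' BP 1 k) := fun k => (hcpt k).measurableSet
  have hfin : ∀ k, lam (coc_pi Γ '' BP 1 k) ≠ ⊤ := fun k => (hcpt k).measure_lt_top.ne
  set φ : Lp ℂ 2 lam := indicatorConstLp 2 (hms n) (hfin n) (1:ℂ) with hφ
  set ψ : Lp ℂ 2 lam := indicatorConstLp 2 (hms (n + m)) (hfin (n + m)) (1:ℂ) with hψ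
  have hd := dec R ⊤ isClosed_univ (fun _ _ _ => trivial)
    (fun φ _ hφ => coc_noInv lam h0 hinf R hR φ hφ) 0 1 h01 (t, -t) φ ψ trivial trivial
  have hin : ∀ θ' ∈ Set.uIcc 0 (2 * Real.pi), ∀ θ ∈ Set.uIcc 0 (2 * Real.pi),
      inner ℂ (R.π (rot 0 1 h01 θ') ψ) (R.π (D (t, -t) * rot 0 1 h01 θ) φ) =
        ((lam (coc_pi Γ '' BP 1 n)).toReal : ℂ) := by
    intro θ' hθ' θ hθ
    have hp : (0:ℝ) ≤ 2 * Real.pi := by positivity
    rw [Set.uIcc_of_le hp] at hθ hθ'
    refine coc_inner lam R hR _ _ (hms n) (hms (n + m)) (hfin n) (hfin (n + m)) _ _ ?_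
    rintro y ⟨x, hx, rfl⟩
    refine ⟨(rot 0 1 h01 θ')⁻¹ * (D (t, -t) * rot 0 1 h01 θ) * x, ?_, rfl⟩
    have := coc_BP_mul 1 m n (hm θ θ' (abs_le.2 ⟨by linarith [hθ.1], hθ.2⟩)
      (abs_le.2 ⟨by linarith [hθ'.1], hθ'.2⟩)) hx
    exact this
  have hint : (∫ θ' in (0:ℝ)..(2 * Real.pi), ∫ θ in (0:ℝ)..(2 * Real.pi),
        inner ℂ (R.π (rot 0 1 h01 θ') ψ) (R.π (D (t, -t) * rot 0 1 h01 θ) φ)) =
      (((2 * Real.pi) * ((2 * Real.pi) * (lam (coc_pi Γ '' BP 1 n)).toReal) : ℝ) : ℂ) := by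
    have e1 : (∫ θ' in (0:ℝ)..(2 * Real.pi), ∫ θ in (0:ℝ)..(2 * Real.pi),
        inner ℂ (R.π (rot 0 1 h01 θ') ψ) (R.π (D (t, -t) * rot 0 1 h01 θ) φ)) =
        ∫ θ' in (0:ℝ)..(2 * Real.pi), ∫ θ in (0:ℝ)..(2 * Real.pi),
          ((lam (coc_pi Γ '' BP 1 n)).toReal : ℂ) := by
      refine intervalIntegral.integral_congr fun θ' hθ' => ?_
      exact intervalIntegral.integral_congr fun θ hθ => hin θ' hθ' θ hθ
    rw [e1]
    simp only [intervalIntegral.integral_const, sub_zero]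
    push_cast
    simp
  rw [hint, Complex.norm_real, Real.norm_eq_abs] at hd
  have hexp : Real.exp (-|cmp (t, -t) 0 - cmp (t, -t) 1| / 4) = 1 / 1000 := by
    have e1 : cmp (t, -t) 0 - cmp (t, -t) 1 = 4 * Real.log 1000 := by
      simp [cmp, ht]; ring
    have e2 : 0 < Real.log 1000 := Real.log_pos (by norm_num)
    rw [e1, abs_of_pos (by positivity)]
    have e3 : -(4 * Real.log 1000) / 4 = -Real.log 1000 := by ring
    rw [e3, Real.exp_neg, Real.exp_log (by norm_num)]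
    norm_num
  rw [hexp] at hd
  have hn : ∀ k, ‖(indicatorConstLp 2 (hms k) (hfin k) (1:ℂ) : Lp ℂ 2 lam)‖ ^ 2 =
      (lam (coc_pi Γ '' BP 1 k)).toReal := by
    intro k
    rw [norm_indicatorConstLp (by norm_num) (by norm_num)]
    rw [norm_one, one_mul]
    simp only [Measure.real, ENNReal.toReal_ofNat]
    rw [← Real.sqrt_eq_rpow, Real.sq_sqrt ENNReal.toReal_nonneg]
  have hx := hn n
  have hy := hn (n + m)
  rw [← hφ] at hx
  rw [← hψ] at hy
  rw [← hx] at hd ⊢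
  rw [← hy]
  have hpi : 3 < Real.pi := Real.pi_gt_three
  have hx0 : 0 ≤ ‖φ‖ := norm_nonneg _
  have hy0 : 0 ≤ ‖ψ‖ := norm_nonneg _
  have h1 : 36 * ‖φ‖ ^ 2 ≤ ‖φ‖ * ‖ψ‖ := by
    have h2 : 2 * Real.pi * (2 * Real.pi * ‖φ‖ ^ 2) ≤ ‖φ‖ * ‖ψ‖ := by
      refine (le_abs_self _).trans (hd.trans (le_of_eq ?_))
      ring
    refine le_trans ?_ h2
    have h3 : 36 ≤ 2 * Real.pi * (2 * Real.pi) := by nlinarith
    nlinarith [sq_nonneg ‖φ‖]
  rcases hx0.eq_or_lt with h | h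
  · rw [← h]; simp
  · have h4 : 36 * ‖φ‖ ≤ ‖ψ‖ := by
      by_contra hlt
      rw [not_le] at hlt
      have := mul_lt_mul_of_pos_left hlt h
      nlinarith
    nlinarith

end growth



theorem coc_growth_absurd (a : ℕ → ℝ) (m p : ℕ) (C : ℝ) (h1 : 0 < a 1)
    (h2 : ∀ n, 2 * a n ≤ a (n + m)) (h3 : ∀ n, a n ≤ C * ((n:ℝ) + 1) ^ p) : False := by
  have h4 : ∀ k : ℕ, 2 ^ k * a 1 ≤ a (1 + k * m) := by
    intro k
    induction k with
    | zero => simp
    | succ k ih =>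
      have := h2 (1 + k * m)
      have e : 1 + (k + 1) * m = 1 + k * m + m := by ring
      rw [e, pow_succ]
      linarith
  have h5 : ∀ k : ℕ, a 1 ≤ (|C| * ((m:ℝ) + 2) ^ p * 2) * (((k + 1 : ℕ) : ℝ) ^ p * (1 / 2) ^ (k + 1)) := by
    intro k
    have e1 := (h4 k).trans (h3 _)
    have e2 : (((1 + k * m : ℕ) : ℝ) + 1) ≤ ((m:ℝ) + 2) * ((k:ℝ) + 1) := by
      push_cast
      nlinarith [show (0:ℝ) ≤ (m:ℝ) from Nat.cast_nonneg m, show (0:ℝ) ≤ (k:ℝ) from Nat.cast_nonneg k]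
    have e3 : C * (((1 + k * m : ℕ) : ℝ) + 1) ^ p ≤ |C| * (((m:ℝ) + 2) * ((k:ℝ) + 1)) ^ p := by
      refine mul_le_mul (le_abs_self C) (pow_le_pow_left₀ (by positivity) e2 p) (by positivity) (abs_nonneg C)
    have e4 := e1.trans e3
    rw [mul_pow] at e4
    have e5 : a 1 ≤ (|C| * (((m:ℝ) + 2) ^ p * ((k:ℝ) + 1) ^ p)) / 2 ^ k := by
      rw [le_div_iff₀ (by positivity)]
      linarith
    refine e5.trans (le_of_eq ?_)
    push_cast
    rw [pow_succ, one_div, inv_pow]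
    field_simp
  have h6 : Tendsto (fun k : ℕ => (|C| * ((m:ℝ) + 2) ^ p * 2) * (((k + 1 : ℕ) : ℝ) ^ p * (1 / 2 : ℝ) ^ (k + 1)))
      atTop (𝓝 ((|C| * ((m:ℝ) + 2) ^ p * 2) * 0)) := by
    refine Tendsto.const_mul _ ?_
    have := tendsto_pow_const_mul_const_pow_of_abs_lt_one p (r := (1/2:ℝ)) (by rw [abs_of_pos] <;> norm_num)
    exact this.comp (tendsto_add_atTop_nat 1)
  rw [mul_zero] at h6
  have h7 := ge_of_tendsto' h6 h5
  linarith

/-- COC -/
theorem cocompact_of_poly (Γ : Subgroup G) (ρ : ℝ) (hρ : 0 < ρ)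
    (hUD : ∀ g : G, ∀ γ ∈ Γ, nd (g * γ * g⁻¹) ≤ ρ → γ = 1) (p : ℕ) (C : ℝ)
    (hpoly : ∀ n : ℕ, ∃ F : Finset G, (F.card : ℝ) ≤ C * ((n:ℝ) + 1) ^ p ∧
      ∀ g ∈ BP 1 n, ∃ b ∈ Bl 1, ∃ f ∈ F, ∃ γ ∈ Γ, g = b * f * γ) :
    ∃ K : Set G, IsCompact K ∧ ∀ g : G, ∃ k ∈ K, ∃ γ ∈ Γ, g = k * γ := by
  classical
  obtain ⟨V, hVo, h1V, hVB, hVd⟩ := coc_exists_V ρ hρ
  have hd : DiscreteTopology Γ := coc_discrete hρ (fun γ hγ h => hUD 1 γ hγ (by simpa using h))
  have ht2 : T2Space (G ⧸ Γ) := coc_t2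
  have hct : Countable Γ := coc_countable
  have hV : ∀ b ∈ V, ∀ b' ∈ V, ∀ g : G, ∀ γ ∈ Γ, b * g * γ = b' * g → γ = 1 := by
    intro b hb b' hb' g γ hγ h
    refine hUD g γ hγ ?_
    have e : g * γ * g⁻¹ = b⁻¹ * b' := by
      have e1 : g * γ = b⁻¹ * (b' * g) := by rw [← h]; group
      rw [e1]; group
    rw [e]
    exact hVd b hb b' hb'
  obtain ⟨lam, hsm, hlf, hle, heq, h0⟩ := coc_measure V hVo h1V hVB hV
  have hVpos : 0 < hG V := hVo.measure_pos hG ⟨1, h1V⟩
  have hVfin : hG V < ⊤ := lt_of_le_of_lt (measure_mono hVB) (coc_isCompact_Bl 1).measure_lt_top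
  -- translates
  have hopV : ∀ g, IsOpen ((fun x => x * g⁻¹) ⁻¹' V) := fun g => hVo.preimage (continuous_mul_const _)
  have hinjV : ∀ g, InjOn (coc_pi Γ) ((fun x => x * g⁻¹) ⁻¹' V) := by
    intro g x hx y hy hxy
    obtain ⟨γ, hγ, rfl⟩ := coc_pi_eq.1 hxy
    have : γ = 1 := hV (x * g⁻¹) hx _ hy g γ hγ (by group)
    rw [this, mul_one]
  have hmeasV : ∀ g, lam (coc_pi Γ '' ((fun x => x * g⁻¹) ⁻¹' V)) = hG V := by
    intro g
    rw [heq _ (hopV g).measurableSet (coc_pi_open _ (hopV g)).measurableSet (hinjV g),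
      measure_preimage_mul_right]
  by_cases hinf : lam univ = ⊤
  · exfalso
    obtain ⟨m, hm⟩ := coc_step lam h0 hinf
    have hcpt : ∀ k, IsCompact (coc_pi Γ '' BP 1 k) := fun k => (coc_BP_isCompact 1 k).image coc_pi_cont
    refine coc_growth_absurd (fun n => (lam (coc_pi Γ '' BP 1 n)).toReal) m p
      (C * (hG (Bl 1)).toReal) ?_ hm ?_
    · have h1 : coc_pi Γ '' V ⊆ coc_pi Γ '' BP 1 1 := by
        apply image_mono
        intro g hg
        exact ⟨g, hVB hg, 1, rfl, by rw [mul_one]⟩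
      have h2 : lam (coc_pi Γ '' V) = hG V := by
        have := hmeasV 1
        simpa using this
      exact ENNReal.toReal_pos (lt_of_lt_of_le (h2 ▸ hVpos) (measure_mono h1)).ne'
        (hcpt 1).measure_lt_top.ne
    · intro n
      obtain ⟨F, hF, hF2⟩ := hpoly n
      have h1 : coc_pi Γ '' BP 1 n ⊆ ⋃ f ∈ F, coc_pi Γ '' ((fun x => x * f⁻¹) ⁻¹' Bl 1) := by
        rintro y ⟨g, hg, rfl⟩
        obtain ⟨b, hb, f, hf, γ, hγ, rfl⟩ := hF2 g hg
        simp only [mem_iUnion]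
        refine ⟨f, hf, b * f, by simpa using hb, ?_⟩
        exact coc_pi_eq.2 ⟨γ, hγ, rfl⟩
      have h2 : lam (coc_pi Γ '' BP 1 n) ≤ F.card * hG (Bl 1) := by
        refine (measure_mono h1).trans ((measure_biUnion_finset_le _ _).trans ?_)
        have h3 : ∀ f ∈ F, lam (coc_pi Γ '' ((fun x => x * f⁻¹) ⁻¹' Bl 1)) ≤ hG (Bl 1) := by
          intro f _
          refine (hle _ ?_).trans (le_of_eq (measure_preimage_mul_right _ _ _))
          have : IsCompact ((fun x => x * f⁻¹) ⁻¹' Bl 1) :=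
            (Homeomorph.mulRight f⁻¹).isCompact_preimage.2 (coc_isCompact_Bl 1)
          exact (this.image coc_pi_cont).measurableSet
        refine (Finset.sum_le_sum h3).trans (le_of_eq ?_)
        rw [Finset.sum_const, nsmul_eq_mul]
      have hBfin : hG (Bl 1) ≠ ⊤ := (coc_isCompact_Bl 1).measure_lt_top.ne
      have h3 := ENNReal.toReal_mono (ENNReal.mul_ne_top (ENNReal.natCast_ne_top _) hBfin) h2
      rw [ENNReal.toReal_mul, ENNReal.toReal_natCast] at h3
      refine h3.trans ?_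
      have h4 : (F.card : ℝ) * (hG (Bl 1)).toReal ≤ (C * ((n:ℝ) + 1) ^ p) * (hG (Bl 1)).toReal :=
        mul_le_mul_of_nonneg_right hF ENNReal.toReal_nonneg
      refine h4.trans (le_of_eq ?_)
      ring
  · -- finite volume
    set P : Finset G → Prop := fun S => (S : Set G).PairwiseDisjoint
      (fun g => coc_pi Γ '' ((fun x => x * g⁻¹) ⁻¹' V)) with hP
    obtain ⟨N, hN⟩ : ∃ N : ℕ, ∀ S, P S → S.card ≤ N := by
      obtain ⟨N, hN⟩ := exists_nat_gt (lam univ / hG V).toReal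
      refine ⟨N, fun S hS => ?_⟩
      have h1 : lam (⋃ g ∈ S, coc_pi Γ '' ((fun x => x * g⁻¹) ⁻¹' V)) = S.card * hG V := by
        rw [measure_biUnion_finset hS (fun g _ => (coc_pi_open _ (hopV g)).measurableSet)]
        rw [Finset.sum_congr rfl (fun g _ => hmeasV g), Finset.sum_const, nsmul_eq_mul]
      have h2 : (S.card : ℝ≥0∞) * hG V ≤ lam univ := h1 ▸ measure_mono (subset_univ _)
      have h3 : (S.card : ℝ≥0∞) ≤ lam univ / hG V :=
        (ENNReal.le_div_iff_mul_le (Or.inl hVpos.ne') (Or.inl hVfin.ne)).2 h2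
      have h4 : lam univ / hG V ≠ ⊤ := ENNReal.div_ne_top hinf hVpos.ne'
      have h5 := ENNReal.toReal_mono h4 h3
      rw [ENNReal.toReal_natCast] at h5
      exact_mod_cast (h5.trans hN.le)
    have hP0 : P ∅ := by simp [hP]
    obtain ⟨S, hS, hSmax⟩ : ∃ S, P S ∧ ∀ S', P S' → S'.card ≤ S.card := by
      have hex : ∃ k, ∃ S, P S ∧ S.card = k := ⟨0, ∅, hP0, rfl⟩
      have hb : ∀ k, (∃ S, P S ∧ S.card = k) → k ≤ N := by
        rintro k ⟨S, hS, rfl⟩; exact hN S hS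
      obtain ⟨S, hS, hSc⟩ := Nat.findGreatest_spec (P := fun k => ∃ S, P S ∧ S.card = k)
        (Nat.zero_le N) ⟨∅, hP0, rfl⟩
      refine ⟨S, hS, fun S' hS' => ?_⟩
      rw [hSc]
      exact Nat.le_findGreatest (hN S' hS') ⟨S', hS', rfl⟩
    have hQc : IsCompact (Bl 1) := coc_isCompact_Bl 1
    refine ⟨((Bl 1)⁻¹ * Bl 1) * (S : Set G), (hQc.inv.mul hQc).mul S.finite_toSet.isCompact, ?_⟩
    intro g
    have hfind : ∃ s ∈ S, ¬ Disjoint (coc_pi Γ '' ((fun x => x * g⁻¹) ⁻¹' V))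
        (coc_pi Γ '' ((fun x => x * s⁻¹) ⁻¹' V)) := by
      by_cases hgS : g ∈ S
      · refine ⟨g, hgS, ?_⟩
        rw [disjoint_self]
        intro hbot
        have h1 : coc_pi Γ g ∈ coc_pi Γ '' ((fun x => x * g⁻¹) ⁻¹' V) := ⟨g, by simpa using h1V, rfl⟩
        rw [hbot] at h1
        exact h1
      · by_contra hcon
        push Not at hcon
        have hP' : P (insert g S) := by
          rw [hP]
          simp only [Finset.coe_insert]
          exact hS.insert (fun s hs _ => hcon s hs)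
        have := hSmax _ hP'
        rw [Finset.card_insert_of_notMem hgS] at this
        omega
    obtain ⟨s, hs, hdis⟩ := hfind
    rw [Set.not_disjoint_iff] at hdis
    obtain ⟨y, ⟨x, hx, rfl⟩, ⟨x', hx', hxx⟩⟩ := hdis
    obtain ⟨γ, hγ, hγ2⟩ := coc_pi_eq.1 hxx
    refine ⟨((x * g⁻¹)⁻¹ * (x' * s⁻¹)) * s, ?_, γ, hγ, ?_⟩
    · exact Set.mul_mem_mul (Set.mul_mem_mul (Set.inv_mem_inv.2 (hVB hx)) (hVB hx')) hs
    · rw [← hγ2]; group



end Pool.Agent.H88.LF

end S_H88_LF_COC
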