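import Mathlib
import Pool.Agent.H88.LG.M00
import Pool.Agent.H88.LG.M01

set_option autoImplicit false

/-! Locally free actions of SL(3,R) on compact 9-manifolds, file M04: this file joins several modules to save build time. -/

section S_H88_LF_FBA

/-!
# FBA: calculus of arrows (blueprint section 1)

An arrow `(i,t) → (j,τ)` is `k` with `c i t = k • c j τ`.  By `inj` the local continuation is unique: if `c i t = k • c j τ`
with `t` near `t0` and `k` near `k0` then `k0⁻¹ c i t = (k0⁻¹k) • c j τ = (k0⁻¹ kf t) • c j (τf t)`, so `k = kf t`, `τ = τf t`.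
Everything below follows from this, the chain rule, and compactness.
-/

set_option autoImplicit false

open MeasureTheory Set Filter
open scoped Topology

namespace Pool.Agent.H88.LF

variable {X : Type} [TopologicalSpace X] [MulAction G X]

theorem fba_continuousAt_iff {f : ℝ → G} {t0 : ℝ} :
    ContinuousAt f t0 ↔ ContinuousAt (fun t => ((f t).1 : Mat)) t0 :=
  closedEmb_val.isEmbedding.continuousAt_iff


theorem FB.continuousAt_kf (S : FB X) {i j : Fin S.n} {t0 τ0 : ℝ} {k0 : G}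
    (h : S.Arr i j t0 τ0 k0) : ContinuousAt (S.kf i j t0 τ0 k0) t0 := by
  rw [fba_continuousAt_iff]
  have h1 := (S.kf_τf_spec h).2.2.1
  refine continuousAt_pi.2 fun a => continuousAt_pi.2 fun b => ?_
  exact (h1 a b).continuousAt

theorem fba_continuousAt_τf (S : FB X) {i j : Fin S.n} {t0 τ0 : ℝ} {k0 : G}
    (h : S.Arr i j t0 τ0 k0) : ContinuousAt (S.τf i j t0 τ0 k0) t0 :=
  (S.kf_τf_spec h).2.2.2.1.continuousAt

theorem fba_eventually_abs {f : ℝ → ℝ} {t0 : ℝ} (hf : ContinuousAt f t0) (h : |f t0| < 1) :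
    ∀ᶠ t in 𝓝 t0, |f t| < 1 :=
  (hf.abs).eventually_lt continuousAt_const h

theorem fba_eventually_nd {f : ℝ → G} {t0 : ℝ} (hf : ContinuousAt f t0) {ε : ℝ} (hε : 0 < ε) :
    ∀ᶠ t in 𝓝 t0, nd ((f t0)⁻¹ * f t) < ε := by
  have h1 : ContinuousAt (fun t => nd ((f t0)⁻¹ * f t)) t0 :=
    (continuous_nd.comp (continuous_const_mul ((f t0)⁻¹))).continuousAt.comp hf
  refine h1.eventually_lt continuousAt_const ?_
  simp only [inv_mul_cancel, nd_one]
  exact hε

/-- Uniqueness of the local continuation. -/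
theorem FB.near (S : FB X) {i j : Fin S.n} {t0 τ0 : ℝ} {k0 : G} (h : S.Arr i j t0 τ0 k0) :
    ∃ ε > 0, ∀ (t τ : ℝ) (k : G), |t - t0| < ε → nd (k0⁻¹ * k) < ε → S.Arr i j t τ k →
      k = S.kf i j t0 τ0 k0 t ∧ τ = S.τf i j t0 τ0 k0 t := by
  obtain ⟨h1, h2, h3, h4, h5, h6⟩ := S.kf_τf_spec h
  have hρ0 : 0 < S.ρ0 := by
    have := S.hρ1; have := S.hρ; linarith
  have e1 : ∀ᶠ t in 𝓝 t0, |S.τf i j t0 τ0 k0 t| < 1 :=
    fba_eventually_abs (fba_continuousAt_τf S h) (by rw [h2]; exact h.2.1)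
  have e2 := fba_eventually_nd (S.continuousAt_kf h) hρ0
  rw [h1] at e2
  obtain ⟨δ, hδ, hall⟩ := Metric.eventually_nhds_iff.1 (e1.and (e2.and h6))
  refine ⟨min δ S.ρ0, lt_min hδ hρ0, fun t τ k ht hk harr => ?_⟩
  obtain ⟨g1, g2, g3⟩ := hall (y := t) (by
    rw [Real.dist_eq]; exact lt_of_lt_of_le ht (min_le_left _ _))
  have h7 : (k0⁻¹ * k) • S.c j τ = (k0⁻¹ * S.kf i j t0 τ0 k0 t) •
      S.c j (S.τf i j t0 τ0 k0 t) := by
    rw [mul_smul, mul_smul, ← g3, ← harr.2.2]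
  obtain ⟨h8, h9⟩ := S.inj j _ _ _ _ harr.2.1 g1 (lt_of_lt_of_le hk (min_le_right _ _)) g2 h7
  exact ⟨mul_left_cancel h8, h9⟩

/-- Near an arrow, the continuation consists of arrows. -/
theorem FB.eventually_arr (S : FB X) {i j : Fin S.n} {t0 τ0 : ℝ} {k0 : G}
    (h : S.Arr i j t0 τ0 k0) :
    ∀ᶠ t in 𝓝 t0, S.Arr i j t (S.τf i j t0 τ0 k0 t) (S.kf i j t0 τ0 k0 t) := by
  obtain ⟨h1, h2, h3, h4, h5, h6⟩ := S.kf_τf_spec h
  have e1 : ∀ᶠ t in 𝓝 t0, |S.τf i j t0 τ0 k0 t| < 1 :=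
    fba_eventually_abs (fba_continuousAt_τf S h) (by rw [h2]; exact h.2.1)
  have e2 : ∀ᶠ t in 𝓝 t0, |t| < 1 := fba_eventually_abs continuousAt_id h.1
  filter_upwards [e1, e2, h6] with t g1 g2 g3
  exact ⟨g2, g1, g3⟩

/-- Another local continuation, continuous at `t0`, agrees with the chosen one near `t0`. -/
theorem FB.cont_unique (S : FB X) {i j : Fin S.n} {t0 τ0 : ℝ} {k0 : G} (h : S.Arr i j t0 τ0 k0)
    (k : ℝ → G) (τ : ℝ → ℝ) (hk : ContinuousAt k t0) (hτ : ContinuousAt τ t0)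
    (hk0 : k t0 = k0) (hτ0 : τ t0 = τ0) (he : ∀ᶠ t in 𝓝 t0, S.c i t = k t • S.c j (τ t)) :
    ∀ᶠ t in 𝓝 t0, k t = S.kf i j t0 τ0 k0 t ∧ τ t = S.τf i j t0 τ0 k0 t := by
  obtain ⟨ε, hε, hn⟩ := S.near h
  have e1 : ∀ᶠ t in 𝓝 t0, |τ t| < 1 := fba_eventually_abs hτ (by rw [hτ0]; exact h.2.1)
  have e2 : ∀ᶠ t in 𝓝 t0, |t| < 1 := fba_eventually_abs continuousAt_id h.1
  have e3 := fba_eventually_nd hk hε
  rw [hk0] at e3
  have e4 : ∀ᶠ t in 𝓝 t0, |t - t0| < ε := by
    have := Metric.ball_mem_nhds t0 hε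
    filter_upwards [this] with t ht
    rwa [Metric.mem_ball, Real.dist_eq] at ht
  filter_upwards [e1, e2, e3, e4, he] with t g1 g2 g3 g4 g5
  exact hn t (τ t) (k t) g4 g3 ⟨g2, g1, g5⟩

/-- `kf` and `τf` are `C²` near `t0`, in particular continuous near `t0`. -/
theorem FB.eventually_contDiffAt (S : FB X) {i j : Fin S.n} {t0 τ0 : ℝ} {k0 : G}
    (h : S.Arr i j t0 τ0 k0) :
    ∀ᶠ t in 𝓝 t0, (∀ a b, ContDiffAt ℝ 2 (fun t => (S.kf i j t0 τ0 k0 t).1 a b) t) ∧
      ContDiffAt ℝ 2 (S.τf i j t0 τ0 k0) t ∧ ContinuousAt (S.kf i j t0 τ0 k0) t := by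
  obtain ⟨h1, h2, h3, h4, h5, h6⟩ := S.kf_τf_spec h
  have e1 : ∀ᶠ t in 𝓝 t0, ∀ a b, ContDiffAt ℝ 2 (fun t => (S.kf i j t0 τ0 k0 t).1 a b) t := by
    rw [eventually_all]
    intro a
    rw [eventually_all]
    intro b
    exact (h3 a b).eventually (by decide)
  have e2 := h4.eventually (by decide)
  filter_upwards [e1, e2] with t g1 g2
  refine ⟨g1, g2, ?_⟩
  rw [fba_continuousAt_iff]
  refine continuousAt_pi.2 fun a => continuousAt_pi.2 fun b => ?_
  exact (g1 a b).continuousAt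

theorem FB.hasDerivAt_τf (S : FB X) {i j : Fin S.n} {t0 τ0 : ℝ} {k0 : G}
    (h : S.Arr i j t0 τ0 k0) :
    HasDerivAt (S.τf i j t0 τ0 k0) (S.dτ i j t0 τ0 k0) t0 :=
  ((S.kf_τf_spec h).2.2.2.1.differentiableAt (by decide)).hasDerivAt

theorem fba_dk_mul (S : FB X) {i j : Fin S.n} {t0 τ0 : ℝ} {k0 : G} :
    S.dk i j t0 τ0 k0 * k0.1 = Matrix.of
      (fun a b => deriv (fun t => (S.kf i j t0 τ0 k0 t).1 a b) t0) := by
  unfold FB.dk
  have e0 : (k0⁻¹).1 * k0.1 = 1 := by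
    rw [← Matrix.SpecialLinearGroup.coe_mul, inv_mul_cancel]; rfl
  rw [Matrix.mul_assoc, e0, Matrix.mul_one]

theorem FB.hasDerivAt_kf (S : FB X) {i j : Fin S.n} {t0 τ0 : ℝ} {k0 : G}
    (h : S.Arr i j t0 τ0 k0) (a b : Fin 3) :
    HasDerivAt (fun t => (S.kf i j t0 τ0 k0 t).1 a b) ((S.dk i j t0 τ0 k0 * k0.1) a b) t0 := by
  rw [fba_dk_mul]
  exact (((S.kf_τf_spec h).2.2.1 a b).differentiableAt (by decide)).hasDerivAt

theorem FB.dτ_ne_zero (S : FB X) {i j : Fin S.n} {t0 τ0 : ℝ} {k0 : G}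
    (h : S.Arr i j t0 τ0 k0) : S.dτ i j t0 τ0 k0 ≠ 0 :=
  (S.kf_τf_spec h).2.2.2.2.1

/-- The derivatives of the arrows on the local continuation. -/
theorem FB.eventually_dτ (S : FB X) {i j : Fin S.n} {t0 τ0 : ℝ} {k0 : G}
    (h : S.Arr i j t0 τ0 k0) :
    ∀ᶠ t in 𝓝 t0,
      S.dτ i j t (S.τf i j t0 τ0 k0 t) (S.kf i j t0 τ0 k0 t) = deriv (S.τf i j t0 τ0 k0) t ∧
      ∀ a b, (S.dk i j t (S.τf i j t0 τ0 k0 t) (S.kf i j t0 τ0 k0 t) *
        (S.kf i j t0 τ0 k0 t).1) a b = deriv (fun t => (S.kf i j t0 τ0 k0 t).1 a b) t := by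
  have h6 := (S.kf_τf_spec h).2.2.2.2.2
  filter_upwards [S.eventually_arr h, S.eventually_contDiffAt h, h6.eventually_nhds]
    with t g1 g2 g3
  have g4 := S.cont_unique g1 (S.kf i j t0 τ0 k0) (S.τf i j t0 τ0 k0) g2.2.2
    g2.2.1.continuousAt rfl rfl g3
  constructor
  · unfold FB.dτ
    refine (Filter.EventuallyEq.deriv_eq ?_).symm
    filter_upwards [g4] with s hs
    exact hs.2
  · intro a b
    rw [fba_dk_mul, Matrix.of_apply]
    refine (Filter.EventuallyEq.deriv_eq ?_).symm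
    filter_upwards [g4] with s hs
    rw [hs.1]

theorem FB.arr_refl (S : FB X) (i : Fin S.n) {t : ℝ} (ht : |t| < 1) : S.Arr i i t t 1 :=
  ⟨ht, ht, (one_smul _ _).symm⟩

theorem FB.arr_symm (S : FB X) {i j : Fin S.n} {t τ : ℝ} {k : G} (h : S.Arr i j t τ k) :
    S.Arr j i τ t k⁻¹ :=
  ⟨h.2.1, h.1, by rw [h.2.2, inv_smul_smul]⟩

theorem FB.arr_trans (S : FB X) {i j l : Fin S.n} {t τ υ : ℝ} {k k' : G}
    (h : S.Arr i j t τ k) (h' : S.Arr j l τ υ k') : S.Arr i l t υ (k * k') :=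
  ⟨h.1, h'.2.1, by rw [h.2.2, h'.2.2, mul_smul]⟩

end Pool.Agent.H88.LF

end S_H88_LF_FBA

section S_H88_LF_FBA2

/-!
# FBA2: composition rules for the derivatives of arrows (chain rule, product rule, `FB.cont_unique`)
-/

set_option autoImplicit false

open MeasureTheory Set Filter
open scoped Topology

namespace Pool.Agent.H88.LF

variable {X : Type} [TopologicalSpace X] [MulAction G X]

/-- The local continuation of the identity arrow. -/
theorem fba2_refl (S : FB X) (i : Fin S.n) {t : ℝ} (ht : |t| < 1) :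
    ∀ᶠ s in 𝓝 t, 1 = S.kf i i t t 1 s ∧ s = S.τf i i t t 1 s := by
  refine S.cont_unique (S.arr_refl i ht) (fun _ => 1) (fun s => s) continuousAt_const
    continuousAt_id rfl rfl ?_
  exact Filter.Eventually.of_forall fun s => (one_smul G _).symm

theorem FB.dτ_refl (S : FB X) (i : Fin S.n) {t : ℝ} (ht : |t| < 1) : S.dτ i i t t 1 = 1 := by
  have h : S.τf i i t t 1 =ᶠ[𝓝 t] fun s => s :=
    (fba2_refl S i ht).mono fun s hs => hs.2.symm
  unfold FB.dτ
  rw [h.deriv_eq]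
  exact deriv_id t

theorem FB.dk_refl (S : FB X) (i : Fin S.n) {t : ℝ} (ht : |t| < 1) : S.dk i i t t 1 = 0 := by
  have h0 : Matrix.of (fun a b => deriv (fun s => (S.kf i i t t 1 s).1 a b) t) = (0 : Mat) := by
    ext a b
    have h : (fun s => (S.kf i i t t 1 s).1 a b) =ᶠ[𝓝 t] fun _ => (1 : G).1 a b :=
      (fba2_refl S i ht).mono fun s hs => by
        show (S.kf i i t t 1 s).1 a b = (1 : G).1 a b
        rw [← hs.1]
    rw [Matrix.of_apply, h.deriv_eq, deriv_const]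
    rfl
  unfold FB.dk
  rw [h0, zero_mul]

/-- The local continuation of a composition of arrows. -/
theorem fba2_trans (S : FB X) {i j l : Fin S.n} {t τ υ : ℝ} {k k' : G}
    (h : S.Arr i j t τ k) (h' : S.Arr j l τ υ k') :
    ∀ᶠ s in 𝓝 t, S.kf i j t τ k s * S.kf j l τ υ k' (S.τf i j t τ k s) =
        S.kf i l t υ (k * k') s ∧
      S.τf j l τ υ k' (S.τf i j t τ k s) = S.τf i l t υ (k * k') s := by
  obtain ⟨h1, h2, -, h3, -, h4⟩ := S.kf_τf_spec h
  obtain ⟨h1', h2', -, h3', -, h4'⟩ := S.kf_τf_spec h'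
  have c1 : ContinuousAt (S.τf i j t τ k) t := h3.continuousAt
  have c2 : Tendsto (S.τf i j t τ k) (𝓝 t) (𝓝 τ) := by
    have := c1.tendsto
    rwa [h2] at this
  have c3 : ContinuousAt (S.kf j l τ υ k') (S.τf i j t τ k t) := by
    rw [h2]
    exact S.continuousAt_kf h'
  have c4 : ContinuousAt (S.τf j l τ υ k') (S.τf i j t τ k t) := by
    rw [h2]
    exact h3'.continuousAt
  refine S.cont_unique (S.arr_trans h h')
    (fun s => S.kf i j t τ k s * S.kf j l τ υ k' (S.τf i j t τ k s))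
    (fun s => S.τf j l τ υ k' (S.τf i j t τ k s))
    ((S.continuousAt_kf h).mul (ContinuousAt.comp (f := S.τf i j t τ k) c3 c1))
    (ContinuousAt.comp (f := S.τf i j t τ k) c4 c1) ?_ ?_ ?_
  · show S.kf i j t τ k t * S.kf j l τ υ k' (S.τf i j t τ k t) = k * k'
    rw [h2, h1, h1']
  · show S.τf j l τ υ k' (S.τf i j t τ k t) = υ
    rw [h2, h2']
  · filter_upwards [h4, c2.eventually h4'] with s e1 e2
    rw [e1, mul_smul, ← e2]

theorem FB.dτ_trans (S : FB X) {i j l : Fin S.n} {t τ υ : ℝ} {k k' : G}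
    (h : S.Arr i j t τ k) (h' : S.Arr j l τ υ k') :
    S.dτ i l t υ (k * k') = S.dτ i j t τ k * S.dτ j l τ υ k' := by
  have e : S.τf i l t υ (k * k') =ᶠ[𝓝 t] fun s => S.τf j l τ υ k' (S.τf i j t τ k s) :=
    (fba2_trans S h h').mono fun s hs => hs.2.symm
  have d2 : HasDerivAt (S.τf j l τ υ k') (S.dτ j l τ υ k') (S.τf i j t τ k t) := by
    rw [(S.kf_τf_spec h).2.1]
    exact S.hasDerivAt_τf h'
  have d : HasDerivAt (fun s => S.τf j l τ υ k' (S.τf i j t τ k s))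
      (S.dτ j l τ υ k' * S.dτ i j t τ k) t := d2.comp t (S.hasDerivAt_τf h)
  conv_lhs => unfold FB.dτ
  rw [e.deriv_eq, d.deriv, mul_comm]

theorem FB.dk_trans (S : FB X) {i j l : Fin S.n} {t τ υ : ℝ} {k k' : G}
    (h : S.Arr i j t τ k) (h' : S.Arr j l τ υ k') :
    S.dk i l t υ (k * k') =
      S.dk i j t τ k + S.dτ i j t τ k • (k.1 * S.dk j l τ υ k' * (k⁻¹).1) := by
  obtain ⟨h1, h2, -⟩ := S.kf_τf_spec h
  obtain ⟨h1', h2', -⟩ := S.kf_τf_spec h'
  have hm : Matrix.of (fun a b => deriv (fun s => (S.kf i l t υ (k * k') s).1 a b) t) =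
      S.dk i j t τ k * k.1 * k'.1 + S.dτ i j t τ k • (k.1 * (S.dk j l τ υ k' * k'.1)) := by
    ext a b
    have e : (fun s => (S.kf i l t υ (k * k') s).1 a b) =ᶠ[𝓝 t]
        fun s => ∑ x, (S.kf i j t τ k s).1 a x *
          (S.kf j l τ υ k' (S.τf i j t τ k s)).1 x b :=
      (fba2_trans S h h').mono fun s hs => by
        show (S.kf i l t υ (k * k') s).1 a b = _
        rw [← hs.1]
        exact Matrix.mul_apply
    have d2 : ∀ x, HasDerivAt (fun s => (S.kf j l τ υ k' (S.τf i j t τ k s)).1 x b)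
        ((S.dk j l τ υ k' * k'.1) x b * S.dτ i j t τ k) t := by
      intro x
      have d3 : HasDerivAt (fun s => (S.kf j l τ υ k' s).1 x b)
          ((S.dk j l τ υ k' * k'.1) x b) (S.τf i j t τ k t) := by
        rw [h2]
        exact S.hasDerivAt_kf h' x b
      exact d3.comp t (S.hasDerivAt_τf h)
    have d : HasDerivAt (fun s => ∑ x, (S.kf i j t τ k s).1 a x *
          (S.kf j l τ υ k' (S.τf i j t τ k s)).1 x b)
        (∑ x, ((S.dk i j t τ k * k.1) a x * (S.kf j l τ υ k' (S.τf i j t τ k t)).1 x b +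
          (S.kf i j t τ k t).1 a x * ((S.dk j l τ υ k' * k'.1) x b * S.dτ i j t τ k))) t :=
      HasDerivAt.fun_sum fun x _ => (S.hasDerivAt_kf h a x).mul (d2 x)
    rw [Matrix.of_apply, e.deriv_eq, d.deriv, h2, h1, h1', Matrix.add_apply, Matrix.smul_apply,
      Matrix.mul_apply (M := S.dk i j t τ k * k.1), Matrix.mul_apply (M := k.1), smul_eq_mul,
      Finset.mul_sum, ← Finset.sum_add_distrib]
    refine Finset.sum_congr rfl fun x _ => ?_
    ring
  have hk : k.1 * (k⁻¹).1 = 1 := by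
    have := congrArg (fun g : G => g.1) (mul_inv_cancel k)
    exact this
  have hk' : k'.1 * (k'⁻¹).1 = 1 := by
    have := congrArg (fun g : G => g.1) (mul_inv_cancel k')
    exact this
  have hinv : ((k * k')⁻¹ : G).1 = (k'⁻¹).1 * (k⁻¹).1 := by
    rw [mul_inv_rev]
    rfl
  conv_lhs => unfold FB.dk
  rw [hm, hinv, add_mul, smul_mul_assoc]
  have e1 : S.dk i j t τ k * k.1 * k'.1 * ((k'⁻¹).1 * (k⁻¹).1) = S.dk i j t τ k := by
    rw [Matrix.mul_assoc (S.dk i j t τ k * k.1), ← Matrix.mul_assoc k'.1, hk', Matrix.one_mul,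
      Matrix.mul_assoc, hk, Matrix.mul_one]
  have e2 : k.1 * (S.dk j l τ υ k' * k'.1) * ((k'⁻¹).1 * (k⁻¹).1) =
      k.1 * S.dk j l τ υ k' * (k⁻¹).1 := by
    rw [← Matrix.mul_assoc k.1, Matrix.mul_assoc (k.1 * S.dk j l τ υ k'), ← Matrix.mul_assoc k'.1,
      hk', Matrix.one_mul]
  rw [e1, e2]

theorem FB.dτ_symm (S : FB X) {i j : Fin S.n} {t τ : ℝ} {k : G} (h : S.Arr i j t τ k) :
    S.dτ j i τ t k⁻¹ = (S.dτ i j t τ k)⁻¹ := by
  have e := S.dτ_trans h (S.arr_symm h)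
  rw [mul_inv_cancel, S.dτ_refl i h.1] at e
  exact eq_inv_of_mul_eq_one_right e.symm

/-- `det k = 1` differentiated. -/
theorem FB.trace_dk (S : FB X) {i j : Fin S.n} {t τ : ℝ} {k : G} (h : S.Arr i j t τ k) :
    Matrix.trace (S.dk i j t τ k) = 0 := by
  have d := S.hasDerivAt_kf h
  have h1 := (S.kf_τf_spec h).1
  generalize S.dk i j t τ k = M at d ⊢
  generalize S.kf i j t τ k = f at d h1
  have e : ∀ s, (f s).1 0 0 * (f s).1 1 1 * (f s).1 2 2 - (f s).1 0 0 * (f s).1 1 2 * (f s).1 2 1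
      - (f s).1 0 1 * (f s).1 1 0 * (f s).1 2 2 + (f s).1 0 1 * (f s).1 1 2 * (f s).1 2 0
      + (f s).1 0 2 * (f s).1 1 0 * (f s).1 2 1 - (f s).1 0 2 * (f s).1 1 1 * (f s).1 2 0 = 1 := by
    intro s
    rw [← Matrix.det_fin_three]
    exact (f s).2
  have D := (((((((d 0 0).mul (d 1 1)).mul (d 2 2)).sub (((d 0 0).mul (d 1 2)).mul (d 2 1))).sub
    (((d 0 1).mul (d 1 0)).mul (d 2 2))).add (((d 0 1).mul (d 1 2)).mul (d 2 0))).add
    (((d 0 2).mul (d 1 0)).mul (d 2 1))).sub (((d 0 2).mul (d 1 1)).mul (d 2 0))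
  have D2 : HasDerivAt (fun _ : ℝ => (1 : ℝ)) _ t :=
    D.congr_of_eventuallyEq (Filter.Eventually.of_forall fun s => (e s).symm)
  have D3 := D2.unique (hasDerivAt_const t (1 : ℝ))
  have e1 := e t
  rw [h1] at e1
  simp only [Pi.mul_apply, h1, Matrix.mul_apply, Fin.sum_univ_three] at D3
  rw [Matrix.trace_fin_three]
  linear_combination D3 - (M 0 0 + M 1 1 + M 2 2) * e1

end Pool.Agent.H88.LF

end S_H88_LF_FBA2

section S_H88_LF_FBA3

/-!
# FBA3: continuity of the derivatives of arrows, compactness, finite values, straight structures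

Near a given arrow all arrows are `(t, τf t, kf t)` (`FB.near`), where `dτ = deriv τf t`, `dk` are continuous (`FB.eventually_dτ`).
-/

set_option autoImplicit false

open MeasureTheory Set Filter
open scoped Topology

namespace Pool.Agent.H88.LF

variable {X : Type} [TopologicalSpace X] [MulAction G X]

theorem FBA3_nd_nhds (k0 : G) {ε : ℝ} (hε : 0 < ε) : ∀ᶠ k in 𝓝 k0, nd (k0⁻¹ * k) < ε := by
  have h1 : Continuous fun k : G => nd (k0⁻¹ * k) := continuous_nd.comp (by fun_prop)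
  have h2 : nd (k0⁻¹ * k0) < ε := by
    rw [inv_mul_cancel, nd_one]; exact hε
  exact h1.continuousAt.eventually_lt_const h2

/-- near an arrow all arrows lie on the continuation -/
theorem FBA3_near (S : FB X) {i j : Fin S.n} {p0 : ℝ × ℝ × G}
    (h : S.Arr i j p0.1 p0.2.1 p0.2.2) :
    ∀ᶠ p : ℝ × ℝ × G in 𝓝[{p | S.Arr i j p.1 p.2.1 p.2.2}] p0,
      p.2.2 = S.kf i j p0.1 p0.2.1 p0.2.2 p.1 ∧ p.2.1 = S.τf i j p0.1 p0.2.1 p0.2.2 p.1 := by
  obtain ⟨ε, hε, hnear⟩ := S.near h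
  have h1 : ∀ᶠ p : ℝ × ℝ × G in 𝓝 p0, |p.1 - p0.1| < ε := by
    have hc : Continuous fun p : ℝ × ℝ × G => |p.1 - p0.1| := by fun_prop
    refine hc.continuousAt.eventually_lt_const ?_
    simpa using hε
  have h2 : ∀ᶠ p : ℝ × ℝ × G in 𝓝 p0, nd (p0.2.2⁻¹ * p.2.2) < ε := by
    have hc : Tendsto (fun p : ℝ × ℝ × G => p.2.2) (𝓝 p0) (𝓝 p0.2.2) := by
      have : Continuous fun p : ℝ × ℝ × G => p.2.2 := by fun_prop
      exact this.tendsto p0
    exact hc.eventually (FBA3_nd_nhds p0.2.2 hε)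
  filter_upwards [mem_nhdsWithin_of_mem_nhds h1, mem_nhdsWithin_of_mem_nhds h2,
    self_mem_nhdsWithin] with p hp1 hp2 hp3
  exact hnear p.1 p.2.1 p.2.2 hp1 hp2 hp3

theorem FBA3_fst_tendsto (p0 : ℝ × ℝ × G) (s : Set (ℝ × ℝ × G)) :
    Tendsto (fun p : ℝ × ℝ × G => p.1) (𝓝[s] p0) (𝓝 p0.1) := by
  have : Continuous fun p : ℝ × ℝ × G => p.1 := by fun_prop
  exact (this.tendsto p0).mono_left nhdsWithin_le_nhds

theorem FBA3_deriv_cont {f : ℝ → ℝ} {t0 : ℝ} (hf : ContDiffAt ℝ 2 f t0) :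
    ContinuousAt (deriv f) t0 := by
  have h1 : ContDiffAt ℝ 1 (fderiv ℝ f) t0 := hf.fderiv_right (m := 1) (by norm_num)
  have h2 : ContinuousAt (fderiv ℝ f) t0 := h1.continuousAt
  have h3 : deriv f = fun t => fderiv ℝ f t 1 := by
    funext t
    exact fderiv_apply_one_eq_deriv.symm
  rw [h3]
  exact h2.clm_apply continuousAt_const

/-- `dτ` is continuous on the set of arrows. -/
theorem FB.continuousOn_dτ (S : FB X) (i j : Fin S.n) :
    ContinuousOn (fun p : ℝ × ℝ × G => S.dτ i j p.1 p.2.1 p.2.2)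
      {p | S.Arr i j p.1 p.2.1 p.2.2} := by
  intro p0 h
  have h' : S.Arr i j p0.1 p0.2.1 p0.2.2 := h
  have h1 := FBA3_near S h'
  have h2 := (FBA3_fst_tendsto p0 {p | S.Arr i j p.1 p.2.1 p.2.2}).eventually (S.eventually_dτ h')
  have h3 : (fun p : ℝ × ℝ × G => S.dτ i j p.1 p.2.1 p.2.2) =ᶠ[𝓝[{p | S.Arr i j p.1 p.2.1 p.2.2}] p0]
      fun p => deriv (S.τf i j p0.1 p0.2.1 p0.2.2) p.1 := by
    filter_upwards [h1, h2] with p hp1 hp2
    rw [hp1.1, hp1.2]
    exact hp2.1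
  have h4 : Tendsto (fun p : ℝ × ℝ × G => deriv (S.τf i j p0.1 p0.2.1 p0.2.2) p.1)
      (𝓝[{p | S.Arr i j p.1 p.2.1 p.2.2}] p0) (𝓝 (deriv (S.τf i j p0.1 p0.2.1 p0.2.2) p0.1)) :=
    Tendsto.comp (FBA3_deriv_cont (S.kf_τf_spec h').2.2.2.1) (FBA3_fst_tendsto p0 _)
  exact h4.congr' h3.symm

theorem FBA3_dk_eq {S : FB X} {i j : Fin S.n} {t τ : ℝ} {k : G} {M : Mat}
    (h : ∀ a b, (S.dk i j t τ k * k.1) a b = M a b) : S.dk i j t τ k = M * (k⁻¹).1 := by
  have h1 : S.dk i j t τ k * k.1 = M := by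
    ext a b
    exact h a b
  have h2 : k.1 * (k⁻¹).1 = 1 := by
    rw [← Matrix.SpecialLinearGroup.coe_mul, mul_inv_cancel]; rfl
  rw [← h1, mul_assoc, h2, mul_one]

/-- `dk` is continuous on the set of arrows. -/
theorem FB.continuousOn_dk (S : FB X) (i j : Fin S.n) :
    ContinuousOn (fun p : ℝ × ℝ × G => S.dk i j p.1 p.2.1 p.2.2)
      {p | S.Arr i j p.1 p.2.1 p.2.2} := by
  intro p0 h
  have h' : S.Arr i j p0.1 p0.2.1 p0.2.2 := h
  have h1 := FBA3_near S h'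
  have h2 := (FBA3_fst_tendsto p0 {p | S.Arr i j p.1 p.2.1 p.2.2}).eventually (S.eventually_dτ h')
  let M : ℝ → Mat := fun t => Matrix.of fun a b =>
    deriv (fun t => (S.kf i j p0.1 p0.2.1 p0.2.2 t).1 a b) t
  have h3 : (fun p : ℝ × ℝ × G => S.dk i j p.1 p.2.1 p.2.2) =ᶠ[𝓝[{p | S.Arr i j p.1 p.2.1 p.2.2}] p0]
      fun p => M p.1 * (p.2.2⁻¹).1 := by
    filter_upwards [h1, h2] with p hp1 hp2
    apply FBA3_dk_eq
    intro a b
    rw [hp1.1, hp1.2]
    exact hp2.2 a b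
  have hM : ContinuousAt M p0.1 := by
    refine continuousAt_pi.2 fun a => continuousAt_pi.2 fun b => ?_
    exact FBA3_deriv_cont ((S.kf_τf_spec h').2.2.1 a b)
  have h4 : Tendsto (fun p : ℝ × ℝ × G => M p.1 * (p.2.2⁻¹).1)
      (𝓝[{p | S.Arr i j p.1 p.2.1 p.2.2}] p0) (𝓝 (M p0.1 * (p0.2.2⁻¹).1)) := by
    have e1 : Tendsto (fun p : ℝ × ℝ × G => M p.1) (𝓝[{p | S.Arr i j p.1 p.2.1 p.2.2}] p0)
      (𝓝 (M p0.1)) := Tendsto.comp (g := M) (y := 𝓝 p0.1) hM (FBA3_fst_tendsto p0 _)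
    have e2 : Continuous fun p : ℝ × ℝ × G => (p.2.2⁻¹).1 :=
      closedEmb_val.continuous.comp (by fun_prop)
    exact e1.mul ((e2.tendsto p0).mono_left nhdsWithin_le_nhds)
  have h5 : S.dk i j p0.1 p0.2.1 p0.2.2 = M p0.1 * (p0.2.2⁻¹).1 :=
    h3.eq_of_nhdsWithin h
  have h6 := h4.congr' h3.symm
  rw [← h5] at h6
  exact h6

/-- Arrows over compact sets form a compact set. -/
theorem FB.isCompact_arr [T2Space X] [ContinuousSMul G X] (S : FB X) (i j : Fin S.n) (r : ℝ)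
    (hr : r < 1) (Q : Set G) (hQ : IsCompact Q) :
    IsCompact {p : ℝ × ℝ × G | |p.1| ≤ r ∧ |p.2.1| ≤ r ∧ p.2.2 ∈ Q ∧
      S.Arr i j p.1 p.2.1 p.2.2} := by
  have hK : IsCompact (Icc (-r) r ×ˢ Icc (-r) r ×ˢ Q) :=
    isCompact_Icc.prod (isCompact_Icc.prod hQ)
  have hlt : ∀ t ∈ Icc (-r) r, |t| < 1 := fun t ht => (abs_le.2 ht).trans_lt hr
  have hf : ContinuousOn (fun p : ℝ × ℝ × G => (S.c i p.1, p.2.2 • S.c j p.2.1))
      (Icc (-r) r ×ˢ Icc (-r) r ×ˢ Q) := by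
    rintro ⟨t, τ, k⟩ ⟨ht, hτ, hk⟩
    apply ContinuousAt.continuousWithinAt
    have e1 : ContinuousAt (fun p : ℝ × ℝ × G => S.c i p.1) (t, τ, k) :=
      ContinuousAt.comp (f := fun p : ℝ × ℝ × G => p.1) (g := S.c i) (S.cont i t (hlt t ht))
        continuousAt_fst
    have e2 : ContinuousAt (fun p : ℝ × ℝ × G => S.c j p.2.1) (t, τ, k) :=
      ContinuousAt.comp (f := fun p : ℝ × ℝ × G => p.2.1) (g := S.c j) (S.cont j τ (hlt τ hτ))
        (by fun_prop)
    have e3 : ContinuousAt (fun p : ℝ × ℝ × G => p.2.2) (t, τ, k) := by fun_prop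
    exact e1.prodMk (e3.smul e2)
  have hcl := hf.preimage_isClosed_of_isClosed hK.isClosed isClosed_diagonal
  have heq : {p : ℝ × ℝ × G | |p.1| ≤ r ∧ |p.2.1| ≤ r ∧ p.2.2 ∈ Q ∧
      S.Arr i j p.1 p.2.1 p.2.2} = (Icc (-r) r ×ˢ Icc (-r) r ×ˢ Q) ∩
      (fun p : ℝ × ℝ × G => (S.c i p.1, p.2.2 • S.c j p.2.1)) ⁻¹' diagonal X := by
    ext ⟨t, τ, k⟩
    constructor
    · rintro ⟨h1, h2, h3, h4⟩
      exact ⟨⟨abs_le.1 h1, abs_le.1 h2, h3⟩, h4.2.2⟩
    · rintro ⟨⟨h1, h2, h3⟩, h4⟩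
      exact ⟨abs_le.2 h1, abs_le.2 h2, h3, hlt t h1, hlt τ h2, h4⟩
  rw [heq]
  exact hK.of_isClosed_subset hcl inter_subset_left

/-- A function on arrows which is constant along all local continuations takes finitely many
values on compact sets of arrows (here as a statement about an arbitrary function `f`). -/
theorem FB.finite_values [T2Space X] [ContinuousSMul G X] {E : Type*} (S : FB X) (i j : Fin S.n)
    (f : ℝ → ℝ → G → E)
    (hf : ∀ t0 τ0 k0, S.Arr i j t0 τ0 k0 → ∀ᶠ t in 𝓝 t0,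
      f t (S.τf i j t0 τ0 k0 t) (S.kf i j t0 τ0 k0 t) = f t0 τ0 k0)
    (r : ℝ) (hr : r < 1) (Q : Set G) (hQ : IsCompact Q) :
    Set.Finite {e | ∃ t τ k, |t| ≤ r ∧ |τ| ≤ r ∧ k ∈ Q ∧ S.Arr i j t τ k ∧ e = f t τ k} := by
  have hK := S.isCompact_arr i j r hr Q hQ
  let F : ℝ × ℝ × G → E := fun p => f p.1 p.2.1 p.2.2
  have key : Set.Finite (F '' ({p : ℝ × ℝ × G | |p.1| ≤ r ∧ |p.2.1| ≤ r ∧ p.2.2 ∈ Q ∧
      S.Arr i j p.1 p.2.1 p.2.2})) := by
    refine hK.induction_on (p := fun s => Set.Finite (F '' s)) ?_ ?_ ?_ ?_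
    · simp
    · intro s t hst ht
      exact ht.subset (image_mono hst)
    · intro s t hs ht
      rw [image_union]
      exact hs.union ht
    · intro p0 hp0
      obtain ⟨h1, h2, h3, h4⟩ := hp0
      have e1 := FBA3_near S h4
      have e2 := (FBA3_fst_tendsto p0 {p | S.Arr i j p.1 p.2.1 p.2.2}).eventually (hf _ _ _ h4)
      have e3 : ∀ᶠ p : ℝ × ℝ × G in 𝓝[{p | S.Arr i j p.1 p.2.1 p.2.2}] p0, F p = F p0 := by
        filter_upwards [e1, e2] with p hp1 hp2
        change f p.1 p.2.1 p.2.2 = f p0.1 p0.2.1 p0.2.2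
        rw [hp1.1, hp1.2]
        exact hp2
      refine ⟨{p | F p = F p0}, ?_, ?_⟩
      · exact nhdsWithin_mono p0 (fun p hp => hp.2.2.2) e3
      · refine (finite_singleton (F p0)).subset ?_
        rintro _ ⟨p, hp, rfl⟩
        exact hp
  refine key.subset ?_
  rintro e ⟨t, τ, k, h1, h2, h3, h4, rfl⟩
  exact ⟨(t, τ, k), ⟨h1, h2, h3, h4⟩, rfl⟩

theorem FBA3_bound1 [T2Space X] [ContinuousSMul G X] (S : FB X) (r : ℝ) (hr : r < 1)
    (Q : Set G) (hQ : IsCompact Q) (i j : Fin S.n) :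
    ∃ C : ℝ, 1 ≤ C ∧ ∀ (t τ : ℝ) (k : G), |t| ≤ r → |τ| ≤ r → k ∈ Q →
      S.Arr i j t τ k → |S.dτ i j t τ k| ≤ C ∧ C⁻¹ ≤ |S.dτ i j t τ k| ∧
        nrm (S.dk i j t τ k) ≤ C := by
  have hK := S.isCompact_arr i j r hr Q hQ
  have hsub : {p : ℝ × ℝ × G | |p.1| ≤ r ∧ |p.2.1| ≤ r ∧ p.2.2 ∈ Q ∧
      S.Arr i j p.1 p.2.1 p.2.2} ⊆ {p | S.Arr i j p.1 p.2.1 p.2.2} := fun p hp => hp.2.2.2
  have c1 := (S.continuousOn_dτ i j).mono hsub
  have c2 := (S.continuousOn_dk i j).mono hsub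
  obtain ⟨C1, hC1⟩ := hK.exists_bound_of_continuousOn c1
  obtain ⟨C2, hC2⟩ := hK.exists_bound_of_continuousOn
    (c1.inv₀ fun p hp => S.dτ_ne_zero hp.2.2.2)
  obtain ⟨C3, hC3⟩ := hK.exists_bound_of_continuousOn (continuous_nrm.comp_continuousOn c2)
  refine ⟨max 1 (max C1 (max C2 C3)), le_max_left _ _, fun t τ k h1 h2 h3 h4 => ?_⟩
  have hp : ((t, τ, k) : ℝ × ℝ × G) ∈ {p : ℝ × ℝ × G | |p.1| ≤ r ∧ |p.2.1| ≤ r ∧ p.2.2 ∈ Q ∧
      S.Arr i j p.1 p.2.1 p.2.2} := ⟨h1, h2, h3, h4⟩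
  have d1 := hC1 _ hp
  have d2 := hC2 _ hp
  have d3 := hC3 _ hp
  have hd : 0 < |S.dτ i j t τ k| := abs_pos.2 (S.dτ_ne_zero h4)
  have m1 : C1 ≤ max 1 (max C1 (max C2 C3)) := (le_max_left _ _).trans (le_max_right _ _)
  have m2 : C2 ≤ max 1 (max C1 (max C2 C3)) :=
    ((le_max_left _ _).trans (le_max_right _ _)).trans (le_max_right _ _)
  have m3 : C3 ≤ max 1 (max C1 (max C2 C3)) :=
    ((le_max_right _ _).trans (le_max_right _ _)).trans (le_max_right _ _)
  refine ⟨?_, ?_, ?_⟩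
  · exact le_trans d1 m1
  · have d2' : |S.dτ i j t τ k|⁻¹ ≤ max 1 (max C1 (max C2 C3)) := by
      have : ‖(S.dτ i j t τ k)⁻¹‖ = |S.dτ i j t τ k|⁻¹ := by rw [norm_inv, Real.norm_eq_abs]
      rw [← this]
      exact le_trans d2 m2
    rw [inv_le_comm₀ (lt_of_lt_of_le one_pos (le_max_left _ _)) hd]
    exact d2'
  · refine le_trans ((le_abs_self _).trans ?_) m3
    exact d3

/-- Uniform bounds for the derivatives of arrows over compact sets. -/
theorem FB.exists_bound_arr [T2Space X] [ContinuousSMul G X] (S : FB X) (r : ℝ) (hr : r < 1)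
    (Q : Set G) (hQ : IsCompact Q) :
    ∃ C : ℝ, 1 ≤ C ∧ ∀ (i j : Fin S.n) (t τ : ℝ) (k : G), |t| ≤ r → |τ| ≤ r → k ∈ Q →
      S.Arr i j t τ k → |S.dτ i j t τ k| ≤ C ∧ C⁻¹ ≤ |S.dτ i j t τ k| ∧
        nrm (S.dk i j t τ k) ≤ C := by
  choose C hC1 hC using FBA3_bound1 S r hr Q hQ
  have hle : ∀ i j, C i j ≤ 1 + ∑ i, ∑ j, C i j := by
    intro i j
    have h0 : ∀ i j, 0 ≤ C i j := fun i j => le_trans zero_le_one (hC1 i j)
    have e1 : C i j ≤ ∑ j, C i j :=
      Finset.single_le_sum (f := fun j => C i j) (fun j _ => h0 i j) (Finset.mem_univ j)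
    have e2 : ∑ j, C i j ≤ ∑ i, ∑ j, C i j :=
      Finset.single_le_sum (f := fun i => ∑ j, C i j)
        (fun i _ => Finset.sum_nonneg fun j _ => h0 i j) (Finset.mem_univ i)
    linarith
  refine ⟨1 + ∑ i, ∑ j, C i j, ?_, fun i j t τ k h1 h2 h3 h4 => ?_⟩
  · have : 0 ≤ ∑ i, ∑ j, C i j := Finset.sum_nonneg fun i _ => Finset.sum_nonneg fun j _ =>
      le_trans zero_le_one (hC1 i j)
    linarith
  · obtain ⟨d1, d2, d3⟩ := hC i j t τ k h1 h2 h3 h4
    refine ⟨d1.trans (hle i j), ?_, d3.trans (hle i j)⟩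
    exact (inv_anti₀ (lt_of_lt_of_le one_pos (hC1 i j)) (hle i j)).trans d2

/-- In a straight structure the group component of the continuation is constant. -/
theorem FB.Straight.kf_const {S : FB X} (hS : S.Straight) {i j : Fin S.n} {t0 τ0 : ℝ} {k0 : G}
    (h : S.Arr i j t0 τ0 k0) : ∀ᶠ t in 𝓝 t0, S.kf i j t0 τ0 k0 t = k0 := by
  obtain ⟨τ, hτ0, hτ, _, he⟩ := hS i j t0 τ0 k0 h
  have h1 := S.cont_unique h (fun _ => k0) τ continuousAt_const hτ.continuousAt rfl hτ0 he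
  filter_upwards [h1] with t ht
  exact ht.1.symm

theorem FB.Straight.dk_eq_zero {S : FB X} (hS : S.Straight) {i j : Fin S.n} {t0 τ0 : ℝ} {k0 : G}
    (h : S.Arr i j t0 τ0 k0) : S.dk i j t0 τ0 k0 = 0 := by
  have h1 := hS.kf_const h
  unfold FB.dk
  have h2 : (Matrix.of fun a b => deriv (fun t => (S.kf i j t0 τ0 k0 t).1 a b) t0 : Mat) = 0 := by
    ext a b
    rw [Matrix.of_apply, Matrix.zero_apply]
    have h3 : (fun t => (S.kf i j t0 τ0 k0 t).1 a b) =ᶠ[𝓝 t0] fun _ => k0.1 a b := by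
      filter_upwards [h1] with t ht
      rw [ht]
    rw [h3.deriv_eq, deriv_const]
  rw [h2, zero_mul]

theorem FB.Aff.straight {S : FB X} (hS : S.Aff) : S.Straight := by
  intro i j t0 τ0 k0 h
  obtain ⟨α, hα, he⟩ := hS i j t0 τ0 k0 h
  have hd : HasDerivAt (fun t : ℝ => τ0 + α * (t - t0)) α t0 := by
    simpa using (((hasDerivAt_id t0).sub_const t0).const_mul α).const_add τ0
  refine ⟨fun t => τ0 + α * (t - t0), by simp, by fun_prop, ?_, he⟩
  rw [hd.deriv]
  exact hα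

end Pool.Agent.H88.LF

end S_H88_LF_FBA3

section S_H88_LF_FBB

/-!
# FBB: topology of flow boxes (blueprint section 1)

Everything from `inj`, `opn`, `cover`, continuity of the action and compactness of `X`.
-/

set_option autoImplicit false

open MeasureTheory Set Filter
open scoped Topology

namespace Pool.Agent.H88.LF

variable {X : Type} [MetricSpace X] [CompactSpace X] [MulAction G X] [ContinuousSMul G X]

/-- The flow box map `(h,t) ↦ h • c i t` is open on `|t| < 1`. -/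
theorem FB.isOpen_image (S : FB X) (i : Fin S.n) (V : Set (G × ℝ)) (hV : IsOpen V)
    (h1 : ∀ p ∈ V, |p.2| < 1) : IsOpen ((fun p : G × ℝ => p.1 • S.c i p.2) '' V) := by
  rw [isOpen_iff_mem_nhds]
  rintro _ ⟨⟨h, t⟩, hp, rfl⟩
  have ht : |t| < 1 := h1 _ hp
  have hφ : ContinuousAt (fun q : G × ℝ => (h * q.1, q.2)) (1, t) :=
    ((continuous_const.mul continuous_fst).prodMk continuous_snd).continuousAt
  have h2 : (fun q : G × ℝ => (h * q.1, q.2)) ⁻¹' V ∈ 𝓝 ((1 : G), t) := by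
    refine hφ.preimage_mem_nhds ?_
    show V ∈ 𝓝 (h * 1, t)
    rw [mul_one]
    exact hV.mem_nhds hp
  rw [nhds_prod_eq, Filter.mem_prod_iff] at h2
  obtain ⟨U1, hU1, U2, hU2, hU⟩ := h2
  obtain ⟨r1, hr1, hr1'⟩ := nhds_one_basis_Bl.mem_iff.1 hU1
  obtain ⟨r2, hr2, hr2'⟩ := Metric.mem_nhds_iff.1 hU2
  have h3 := S.opn i t ht (min r1 r2) (lt_min hr1 hr2)
  have h4 : (fun y : X => h⁻¹ • y) ⁻¹' {x | ∃ (h : G) (t' : ℝ), nd h < min r1 r2 ∧
      |t' - t| < min r1 r2 ∧ |t'| < 1 ∧ x = h • S.c i t'} ∈ 𝓝 (h • S.c i t) := by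
    refine (continuous_const_smul h⁻¹).continuousAt.preimage_mem_nhds ?_
    rw [inv_smul_smul]
    exact h3
  refine Filter.mem_of_superset h4 ?_
  rintro y ⟨h', t', h5, h6, h7, h8⟩
  refine ⟨(h * h', t'), ?_, ?_⟩
  · refine hU (show ((h', t') : G × ℝ) ∈ U1 ×ˢ U2 from ⟨hr1' ?_, hr2' ?_⟩)
    · exact (h5.trans_le (min_le_left _ _)).le
    · rw [Metric.mem_ball, Real.dist_eq]
      exact h6.trans_le (min_le_right _ _)
  · show (h * h') • S.c i t' = y
    rw [mul_smul, ← h8, smul_inv_smul]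

theorem FB.continuousOn_map (S : FB X) (i : Fin S.n) :
    ContinuousOn (fun p : G × ℝ => p.1 • S.c i p.2) {p | |p.2| < 1} := by
  rintro ⟨g, t⟩ ht
  refine ContinuousAt.continuousWithinAt ?_
  have h1 : ContinuousAt (fun p : G × ℝ => S.c i p.2) (g, t) :=
    ContinuousAt.comp (f := fun p : G × ℝ => p.2) (g := S.c i) (S.cont i t ht) continuousAt_snd
  exact continuousAt_fst.smul h1

/-- The saturation of an open set of parameters is open. -/
theorem FB.isOpen_sat (S : FB X) (i : Fin S.n) (I : Set ℝ) (hI : IsOpen I)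
    (h1 : ∀ t ∈ I, |t| < 1) : IsOpen {x : X | ∃ (g : G), ∃ t ∈ I, x = g • S.c i t} := by
  have h2 : {x : X | ∃ (g : G), ∃ t ∈ I, x = g • S.c i t} =
      (fun p : G × ℝ => p.1 • S.c i p.2) '' (univ ×ˢ I) := by
    ext x
    constructor
    · rintro ⟨g, t, ht, rfl⟩
      exact ⟨(g, t), ⟨mem_univ _, ht⟩, rfl⟩
    · rintro ⟨⟨g, t⟩, ⟨-, ht⟩, rfl⟩
      exact ⟨g, t, ht, rfl⟩
  rw [h2]
  exact S.isOpen_image i _ (isOpen_univ.prod hI) (fun p hp => h1 _ hp.2)

/-- Uniform discreteness of stabilisers (ULF). -/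
theorem FB.ulf (S : FB X) : ∃ ρ > 0, ∀ (x : X) (k : G), nd k ≤ ρ → k • x = x → k = 1 := by
  refine ⟨S.ρ1, S.hρ1, ?_⟩
  intro x k hk hkx
  obtain ⟨h1, h2, h3⟩ := S.rep_spec x
  have hρ1 := S.hρ1
  have hρ := S.hρ
  have hρ0 := S.hρ0
  have h4 : nd (k * S.rh x) < S.ρ0 := by
    have h5 := nd_mul_le k (S.rh x)
    have h6 := nrm_le_nd (S.rh x)
    have h7 : nd k * nrm (S.rh x).1 ≤ S.ρ1 * 4 := by
      refine mul_le_mul hk (by linarith) (nrm_nonneg _) hρ1.le
    linarith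
  have h8 : (k * S.rh x) • S.c (S.ri x) (S.rt x) = S.rh x • S.c (S.ri x) (S.rt x) := by
    rw [mul_smul, ← h3, hkx]
  have h9 := S.inj (S.ri x) (k * S.rh x) (S.rh x) (S.rt x) (S.rt x) (by linarith) (by linarith)
    h4 (by linarith) h8
  exact mul_eq_right.1 h9.1

/-- Quantitative form of ULF by compactness. -/
theorem ulf_close (ρ : ℝ) (hρ : ∀ (x : X) (k : G), nd k ≤ ρ → k • x = x → k = 1) (ε : ℝ)
    (hε : 0 < ε) :
    ∃ ε1 > 0, ∀ (x : X) (k : G), nd k ≤ ρ → dist (k • x) x ≤ ε1 → nd k ≤ ε := by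
  let Z : Set (G × X) := (Bl ρ ∩ {k | ε ≤ nd k}) ×ˢ univ
  have hZ : IsCompact Z := by
    refine IsCompact.prod ?_ isCompact_univ
    exact (isCompact_Bl ρ).inter_right (isClosed_le continuous_const continuous_nd)
  have hf : Continuous (fun p : G × X => dist (p.1 • p.2) p.2) :=
    (continuous_smul).dist continuous_snd
  rcases Z.eq_empty_or_nonempty with hZe | hZn
  · refine ⟨1, one_pos, fun x k hk _ => ?_⟩
    by_contra hcon
    have : ((k, x) : G × X) ∈ Z := ⟨⟨hk, (not_le.1 hcon).le⟩, mem_univ _⟩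
    rw [hZe] at this
    exact this
  · obtain ⟨⟨k0, x0⟩, hz0, hmin⟩ := hZ.exists_isMinOn hZn hf.continuousOn
    have hpos : 0 < dist (k0 • x0) x0 := by
      rw [dist_pos]
      intro h
      have h1 := hρ x0 k0 hz0.1.1 h
      have h2 : ε ≤ nd k0 := hz0.1.2
      rw [h1, nd_one] at h2
      linarith
    refine ⟨dist (k0 • x0) x0 / 2, by positivity, fun x k hk hd => ?_⟩
    by_contra hcon
    have h3 : ((k, x) : G × X) ∈ Z := ⟨⟨hk, (not_le.1 hcon).le⟩, mem_univ _⟩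
    have h4 : dist (k0 • x0) x0 ≤ dist (k • x) x := hmin h3
    linarith

/-- Small group elements move points little, uniformly. -/
theorem small_move (ε : ℝ) (hε : 0 < ε) :
    ∃ ρ > 0, ∀ (x : X) (k : G), nd k ≤ ρ → dist (k • x) x ≤ ε := by
  have hf : Continuous (fun p : G × X => dist (p.1 • p.2) p.2) :=
    (continuous_smul).dist continuous_snd
  have h1 : ∀ᶠ k in 𝓝 (1 : G), ∀ x ∈ (univ : Set X), dist (k • x) x < ε := by
    refine isCompact_univ.eventually_forall_of_forall_eventually (fun x _ => ?_)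
    have h2 : dist ((1 : G) • x) x < ε := by rw [one_smul, dist_self]; exact hε
    exact (hf.tendsto ((1 : G), x)).eventually (gt_mem_nhds h2)
  obtain ⟨ρ, hρ, hρ'⟩ := nhds_one_basis_Bl.mem_iff.1 h1
  exact ⟨ρ, hρ, fun x k hk => (hρ' hk x (mem_univ x)).le⟩

theorem FB.cur_zero (S : FB X) (x : X) : S.cur x 0 = x := by
  unfold FB.cur
  rw [add_zero]
  exact (S.rep_spec x).2.2.symm

/-- The curves `cur x` stay near `x`, uniformly. -/
theorem FB.cur_close (S : FB X) (ε : ℝ) (hε : 0 < ε) :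
    ∃ δ > 0, δ ≤ 1 / 4 ∧ ∀ (x : X) (s : ℝ), |s| ≤ δ → dist (S.cur x s) x ≤ ε := by
  let K : Set (G × ℝ) := Bl S.ρ1 ×ˢ Icc (-(1 / 2) : ℝ) (1 / 2)
  have hK : IsCompact K := (isCompact_Bl _).prod isCompact_Icc
  have h1 : ∀ i : Fin S.n, ∀ᶠ s in 𝓝 (0 : ℝ), ∀ p ∈ K,
      dist (p.1 • S.c i (p.2 + s)) (p.1 • S.c i p.2) < ε := by
    intro i
    refine hK.eventually_forall_of_forall_eventually (P := fun (s : ℝ) (p : G × ℝ) =>
      dist (p.1 • S.c i (p.2 + s)) (p.1 • S.c i p.2) < ε) ?_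
    rintro ⟨g, t⟩ ⟨-, ht⟩
    have ht1 : |t| < 1 := by
      rw [abs_lt]
      constructor <;> linarith [ht.1, ht.2]
    have hc1 : ContinuousAt (fun z : ℝ × (G × ℝ) => S.c i (z.2.2 + z.1)) (0, (g, t)) := by
      refine ContinuousAt.comp (f := fun z : ℝ × (G × ℝ) => z.2.2 + z.1) (g := S.c i) ?_ ?_
      · show ContinuousAt (S.c i) (t + 0)
        rw [add_zero]
        exact S.cont i t ht1
      · exact ((continuous_snd.comp continuous_snd).add continuous_fst).continuousAt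
    have hc2 : ContinuousAt (fun z : ℝ × (G × ℝ) => S.c i z.2.2) (0, (g, t)) := by
      refine ContinuousAt.comp (f := fun z : ℝ × (G × ℝ) => z.2.2) (g := S.c i) ?_ ?_
      · exact S.cont i t ht1
      · exact (continuous_snd.comp continuous_snd).continuousAt
    have hg : ContinuousAt (fun z : ℝ × (G × ℝ) => z.2.1) (0, (g, t)) :=
      (continuous_fst.comp continuous_snd).continuousAt
    have hd : ContinuousAt (fun z : ℝ × (G × ℝ) =>
        dist (z.2.1 • S.c i (z.2.2 + z.1)) (z.2.1 • S.c i z.2.2)) (0, (g, t)) :=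
      (hg.smul hc1).dist (hg.smul hc2)
    have h0 : dist (g • S.c i (t + 0)) (g • S.c i t) < ε := by
      rw [add_zero, dist_self]
      exact hε
    exact hd.tendsto.eventually (gt_mem_nhds h0)
  have h2 : ∀ᶠ s in 𝓝 (0 : ℝ), ∀ i : Fin S.n, ∀ p ∈ K,
      dist (p.1 • S.c i (p.2 + s)) (p.1 • S.c i p.2) < ε := Filter.eventually_all.2 h1
  obtain ⟨δ, hδ, hδ'⟩ := Metric.mem_nhds_iff.1 h2
  refine ⟨min (δ / 2) (1 / 4), lt_min (by positivity) (by norm_num), min_le_right _ _, ?_⟩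
  intro x s hs
  obtain ⟨h3, h4, h5⟩ := S.rep_spec x
  have hsm : s ∈ Metric.ball (0 : ℝ) δ := by
    rw [Metric.mem_ball, dist_zero_right, Real.norm_eq_abs]
    have := hs.trans (min_le_left _ _)
    linarith
  have hmem : ((S.rh x, S.rt x) : G × ℝ) ∈ K := by
    refine ⟨h3.le, ?_⟩
    have := abs_lt.1 h4
    exact ⟨this.1.le, this.2.le⟩
  have h6 := hδ' hsm (S.ri x) _ hmem
  have h7 : dist (S.cur x s) (S.rh x • S.c (S.ri x) (S.rt x)) < ε := h6
  rw [← h5] at h7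
  exact h7.le

theorem CO_smul {x : X} (h : CO x) (g : G) : CO (g • x) := by
  obtain ⟨K, hK, hKx⟩ := h
  refine ⟨(fun k => k * g⁻¹) '' K, hK.image (continuous_mul_const _), ?_⟩
  intro a
  obtain ⟨k, hk, h1⟩ := hKx (a * g)
  refine ⟨k * g⁻¹, ⟨k, hk, rfl⟩, ?_⟩
  rw [← mul_smul, ← mul_smul, inv_mul_cancel_right, h1]

theorem CO_smul_iff {x : X} (g : G) : CO (g • x) ↔ CO x := by
  constructor
  · intro h
    have h1 := CO_smul h g⁻¹
    rwa [inv_smul_smul] at h1
  · exact fun h => CO_smul h g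

/-- A compact orbit meets a closed transversal in finitely many points. -/
theorem FB.finite_plaques (S : FB X) (x : X) (K : Set G) (hK : IsCompact K) (i : Fin S.n) (r : ℝ)
    (hr : r < 1) : Set.Finite {t : ℝ | |t| ≤ r ∧ ∃ k ∈ K, S.c i t = k • x} := by
  obtain ⟨F, -, hF⟩ := exists_finite_cover hK S.hρ1
  have hρ1 := S.hρ1
  have hρ := S.hρ
  have hρ0 := S.hρ0
  have hsub : {t : ℝ | |t| ≤ r ∧ ∃ k ∈ K, S.c i t = k • x} ⊆
      ⋃ f ∈ F, {t : ℝ | |t| ≤ r ∧ ∃ b ∈ Bl S.ρ1, S.c i t = b • (f • x)} := by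
    rintro t ⟨ht, k, hk, h1⟩
    obtain ⟨f, hf, hkf⟩ := hF k hk
    simp only [mem_iUnion]
    refine ⟨f, hf, ht, k * f⁻¹, hkf, ?_⟩
    rw [← mul_smul, inv_mul_cancel_right]
    exact h1
  refine Set.Finite.subset (F.finite_toSet.biUnion (fun f _ => ?_)) hsub
  refine Set.Subsingleton.finite ?_
  rintro t ⟨ht, b, hb, h1⟩ t' ⟨ht', b', hb', h2⟩
  have hinv : ∀ b ∈ Bl S.ρ1, nd b⁻¹ < S.ρ0 := by
    intro b hb
    have hb1 : nd b ≤ S.ρ1 := hb
    have h3 := nd_inv_le_of_small b (by linarith)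
    linarith
  have h4 : b⁻¹ • S.c i t = b'⁻¹ • S.c i t' := by
    rw [h1, h2, inv_smul_smul, inv_smul_smul]
  exact (S.inj i b⁻¹ b'⁻¹ t t' (by linarith) (by linarith) (hinv b hb) (hinv b' hb') h4).2

/-- If the orbit of `x` is covered by `B • y_m`, finitely many `y_m` in the orbit and `B` compact, it is
a compact orbit. -/
theorem CO_of_finite {x : X} (B : Set G) (hB : IsCompact B) (F : Finset G)
    (h : ∀ g : G, ∃ b ∈ B, ∃ f ∈ F, g • x = (b * f) • x) : CO x := by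
  refine ⟨⋃ f ∈ F, (fun b => b * f) '' B, ?_, ?_⟩
  · exact F.isCompact_biUnion (fun f _ => hB.image (continuous_mul_const f))
  · intro g
    obtain ⟨b, hb, f, hf, h1⟩ := h g
    refine ⟨b * f, ?_, h1⟩
    simp only [mem_iUnion]
    exact ⟨f, hf, b, hb, rfl⟩

/-- A point without compact orbit has infinitely many plaques in one flow box. -/
theorem FB.exists_infinite_plaques (S : FB X) (x : X) (hx : ¬ CO x) :
    ∃ j : Fin S.n, Set.Infinite {s : ℝ | |s| ≤ 1 / 2 ∧ ∃ g : G, S.c j s = g • x} := by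
  classical
  by_contra hcon
  push Not at hcon
  have hfin : ∀ j : Fin S.n, Set.Finite {s : ℝ | |s| ≤ 1 / 2 ∧ ∃ g : G, S.c j s = g • x} :=
    fun j => hcon j
  have hch : ∀ (j : Fin S.n) (s : ℝ), ∃ g : G,
      (∃ g : G, S.c j s = g • x) → S.c j s = g • x := by
    intro j s
    by_cases h : ∃ g : G, S.c j s = g • x
    · obtain ⟨g, hg⟩ := h
      exact ⟨g, fun _ => hg⟩
    · exact ⟨1, fun h' => absurd h' h⟩
  choose γ hγ using hch
  refine hx (CO_of_finite (Bl S.ρ1) (isCompact_Bl _)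
    (Finset.univ.biUnion (fun j => (hfin j).toFinset.image (γ j))) ?_)
  intro g
  obtain ⟨h1, h2, h3⟩ := S.rep_spec (g • x)
  have h4 : S.c (S.ri (g • x)) (S.rt (g • x)) = ((S.rh (g • x))⁻¹ * g) • x := by
    rw [mul_smul, eq_inv_smul_iff]
    exact h3.symm
  have h5 := hγ (S.ri (g • x)) (S.rt (g • x)) ⟨_, h4⟩
  refine ⟨S.rh (g • x), h1.le, γ (S.ri (g • x)) (S.rt (g • x)), ?_, ?_⟩
  · rw [Finset.mem_biUnion]
    refine ⟨S.ri (g • x), Finset.mem_univ _, ?_⟩
    rw [Finset.mem_image]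
    refine ⟨S.rt (g • x), ?_, rfl⟩
    rw [Set.Finite.mem_toFinset]
    exact ⟨h2.le, _, h4⟩
  · rw [mul_smul, ← h5]
    exact h3

end Pool.Agent.H88.LF

end S_H88_LF_FBB

section S_H88_LF_FBC

/-!
# FBC: the transverse norm `W` and the cocycle `J` (blueprint section 2)
-/

set_option autoImplicit false

open MeasureTheory Set Filter
open scoped Topology

namespace Pool.Agent.H88.LF

section
variable {X : Type} [TopologicalSpace X] [MulAction G X]

/-- `J` computed in any representation; from `rule`. -/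
theorem TN.J_eq {S : FB X} (T : TN S) (g h : G) (i : Fin S.n) (t : ℝ) (ht : |t| < 1) :
    T.J g (h • S.c i t) = T.W (g * h) i t / T.W h i t := by
  obtain ⟨-, h2, h3⟩ := S.rep_spec (h • S.c i t)
  unfold TN.J
  set x := h • S.c i t with hx
  set k := S.rh x with hk
  set j := S.ri x with hj
  set τ := S.rt x with hτ
  have hτ1 : |τ| < 1 := by linarith
  have harr : S.Arr i j t τ (h⁻¹ * k) := by
    refine ⟨ht, hτ1, ?_⟩
    rw [mul_smul, ← h3, hx, inv_smul_smul]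
  have r1 := T.rule i j t τ _ harr (g * h)
  have r2 := T.rule i j t τ _ harr h
  rw [show g * h * (h⁻¹ * k) = g * k by group] at r1
  rw [show h * (h⁻¹ * k) = k by group] at r2
  have p2 := T.pos h i t ht
  have p3 := T.pos k j τ hτ1
  have hd : |S.dτ i j t τ (h⁻¹ * k)| ≠ 0 := by
    intro h0
    rw [h0, mul_zero] at r2
    exact p2.ne' r2
  rw [r1, r2, mul_div_mul_right _ _ hd]

theorem FBC_half {t : ℝ} (h : |t| < 1 / 2) : |t| < 1 := by linarith

theorem TN.J_pos {S : FB X} (T : TN S) (g : G) (x : X) : 0 < T.J g x := by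
  obtain ⟨-, h2, -⟩ := S.rep_spec x
  exact div_pos (T.pos _ _ _ (FBC_half h2)) (T.pos _ _ _ (FBC_half h2))

theorem TN.J_mul {S : FB X} (T : TN S) (g h : G) (x : X) :
    T.J (g * h) x = T.J g (h • x) * T.J h x := by
  obtain ⟨-, h2, h3⟩ := S.rep_spec x
  have h4 : T.J g (h • x) =
      T.W (g * (h * S.rh x)) (S.ri x) (S.rt x) / T.W (h * S.rh x) (S.ri x) (S.rt x) := by
    conv_lhs => rw [h3, ← mul_smul]
    exact T.J_eq g (h * S.rh x) _ _ (FBC_half h2)
  have p1 := T.pos (h * S.rh x) (S.ri x) (S.rt x) (FBC_half h2)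
  rw [h4]
  unfold TN.J
  rw [mul_assoc, div_mul_div_cancel₀ p1.ne']

theorem TN.J_one {S : FB X} (T : TN S) (x : X) : T.J 1 x = 1 := by
  obtain ⟨-, h2, -⟩ := S.rep_spec x
  unfold TN.J
  rw [one_mul]
  exact div_self (T.pos _ _ _ (FBC_half h2)).ne'

theorem TN.J_inv {S : FB X} (T : TN S) (g : G) (x : X) : T.J g⁻¹ (g • x) = (T.J g x)⁻¹ := by
  have h := T.J_mul g⁻¹ g x
  rw [inv_mul_cancel, T.J_one] at h
  exact eq_inv_of_mul_eq_one_left h.symm

/-- `W(qg;i,t) = J(q, g c i t) W(g;i,t)` -/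
theorem TN.W_mul {S : FB X} (T : TN S) (q g : G) (i : Fin S.n) (t : ℝ) (ht : |t| < 1) :
    T.W (q * g) i t = T.J q (g • S.c i t) * T.W g i t := by
  rw [T.J_eq q g i t ht, div_mul_cancel₀ _ (T.pos g i t ht).ne']

theorem TN.w_pos {S : FB X} (T : TN S) (x : X) : 0 < T.w x :=
  T.pos _ _ _ (FBC_half (S.rep_spec x).2.1)

end

/-- positive continuous functions on compact sets are bounded above and below -/
theorem FBC_bound {Y : Type*} [TopologicalSpace Y] {K : Set Y} (hK : IsCompact K) {f : Y → ℝ}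
    (hf : ContinuousOn f K) (hpos : ∀ y ∈ K, 0 < f y) :
    ∃ C : ℝ, 1 ≤ C ∧ ∀ y ∈ K, C⁻¹ ≤ f y ∧ f y ≤ C := by
  obtain ⟨M, hM⟩ := hK.bddAbove_image hf
  obtain ⟨M', hM'⟩ := hK.bddAbove_image (hf.inv₀ fun y hy => (hpos y hy).ne')
  refine ⟨max 1 (max M M'), le_max_left _ _, fun y hy => ⟨?_, ?_⟩⟩
  · have h1 : (f y)⁻¹ ≤ max 1 (max M M') :=
      (hM' (mem_image_of_mem _ hy)).trans ((le_max_right _ _).trans (le_max_right _ _))
    have h2 : 0 < (f y)⁻¹ := inv_pos.2 (hpos y hy)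
    have h3 := inv_anti₀ h2 h1
    rwa [inv_inv] at h3
  · exact (hM (mem_image_of_mem _ hy)).trans ((le_max_left _ _).trans (le_max_right _ _))

/-- uniform constants over finite families -/
theorem FBC_fin {n : ℕ} {P : Fin n → ℝ → Prop} (h : ∀ i, ∃ C : ℝ, 1 ≤ C ∧ P i C)
    (hmono : ∀ i C C', 1 ≤ C → C ≤ C' → P i C → P i C') : ∃ C : ℝ, 1 ≤ C ∧ ∀ i, P i C := by
  choose c hc hP using h
  refine ⟨1 + ∑ i, c i, ?_, fun i => ?_⟩
  · have : 0 ≤ ∑ i, c i := Finset.sum_nonneg fun i _ => zero_le_one.trans (hc i)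
    linarith
  · refine hmono i _ _ (hc i) ?_ (hP i)
    have := Finset.single_le_sum (f := c) (fun i _ => zero_le_one.trans (hc i))
      (Finset.mem_univ i)
    linarith

variable {X : Type} [MetricSpace X] [CompactSpace X] [MulAction G X] [ContinuousSMul G X]

theorem TN.continuous_J {S : FB X} (T : TN S) : Continuous (fun p : G × X => T.J p.1 p.2) := by
  rw [continuous_iff_continuousAt]
  rintro ⟨g0, x0⟩
  obtain ⟨-, h2, h3⟩ := S.rep_spec x0
  set h0 := S.rh x0 with hh0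
  set i := S.ri x0 with hi
  set t0 := S.rt x0 with ht0
  have ht1 : |t0| < 1 := FBC_half h2
  intro N hN
  have hopen : IsOpen {p : G × ℝ | |p.2| < 1} :=
    isOpen_lt (continuous_abs.comp continuous_snd) continuous_const
  -- the function in coordinates
  set f : G × G × ℝ → ℝ := fun p => T.W (p.1 * p.2.1) i p.2.2 / T.W p.2.1 i p.2.2 with hf
  have hfc : ContinuousAt f (g0, h0, t0) := by
    have c1 : ContinuousAt (fun p : G × ℝ => T.W p.1 i p.2) (g0 * h0, t0) :=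
      (T.cont i).continuousAt (hopen.mem_nhds ht1)
    have c2 : ContinuousAt (fun p : G × ℝ => T.W p.1 i p.2) (h0, t0) :=
      (T.cont i).continuousAt (hopen.mem_nhds ht1)
    have e1 : ContinuousAt (fun p : G × G × ℝ => (p.1 * p.2.1, p.2.2)) (g0, h0, t0) := by
      fun_prop
    have e2 : ContinuousAt (fun p : G × G × ℝ => p.2) (g0, h0, t0) := by fun_prop
    have d1 : ContinuousAt (fun p : G × G × ℝ => T.W (p.1 * p.2.1) i p.2.2) (g0, h0, t0) :=
      ContinuousAt.comp (g := fun p : G × ℝ => T.W p.1 i p.2)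
        (f := fun p : G × G × ℝ => (p.1 * p.2.1, p.2.2)) c1 e1
    have d2 : ContinuousAt (fun p : G × G × ℝ => T.W p.2.1 i p.2.2) (g0, h0, t0) :=
      ContinuousAt.comp (g := fun p : G × ℝ => T.W p.1 i p.2)
        (f := fun p : G × G × ℝ => p.2) c2 e2
    exact d1.div d2 (T.pos _ _ _ ht1).ne'
  have hval : T.J g0 x0 = f (g0, h0, t0) := rfl
  simp only at hN
  rw [hval] at hN
  have hpre := hfc hN
  rw [mem_map, nhds_prod_eq, mem_prod_iff] at hpre
  obtain ⟨A, hA, B, hB, hAB⟩ := hpre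
  obtain ⟨V, hVB, hVo, hVm⟩ := mem_nhds_iff.1 (inter_mem hB (hopen.mem_nhds ht1))
  have himg := S.isOpen_image i V hVo (fun p hp => (hVB hp).2)
  have hx0 : x0 ∈ (fun p : G × ℝ => p.1 • S.c i p.2) '' V := ⟨(h0, t0), hVm, h3.symm⟩
  rw [mem_map, nhds_prod_eq, mem_prod_iff]
  refine ⟨A, hA, _, himg.mem_nhds hx0, ?_⟩
  rintro ⟨g, x⟩ ⟨hg, p, hp, rfl⟩
  change T.J g (p.1 • S.c i p.2) ∈ N
  rw [T.J_eq g p.1 i p.2 (hVB hp).2]
  exact hAB (show (g, p) ∈ A ×ˢ B from ⟨hg, (hVB hp).1⟩)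

theorem TN.J_bound {S : FB X} (T : TN S) {Q : Set G} (hQ : IsCompact Q) :
    ∃ C : ℝ, 1 ≤ C ∧ ∀ q ∈ Q, ∀ x : X, C⁻¹ ≤ T.J q x ∧ T.J q x ≤ C := by
  obtain ⟨C, hC, h⟩ := FBC_bound (hQ.prod (isCompact_univ (X := X))) T.continuous_J.continuousOn
    (fun p _ => T.J_pos p.1 p.2)
  exact ⟨C, hC, fun q hq x => h (q, x) ⟨hq, mem_univ _⟩⟩

theorem FBC_cpt {Q : Set G} (hQ : IsCompact Q) (r : ℝ) :
    IsCompact (Q ×ˢ {t : ℝ | |t| ≤ r}) := by
  have : {t : ℝ | |t| ≤ r} = Icc (-r) r := by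
    ext t; simp [abs_le]
  rw [this]
  exact hQ.prod isCompact_Icc

theorem TN.W_bound {S : FB X} (T : TN S) {Q : Set G} (hQ : IsCompact Q) (r : ℝ) (hr : r < 1) :
    ∃ C : ℝ, 1 ≤ C ∧ ∀ q ∈ Q, ∀ (i : Fin S.n) (t : ℝ), |t| ≤ r →
      C⁻¹ ≤ T.W q i t ∧ T.W q i t ≤ C := by
  have key : ∀ i : Fin S.n, ∃ C : ℝ, 1 ≤ C ∧ ∀ q ∈ Q, ∀ t : ℝ, |t| ≤ r →
      C⁻¹ ≤ T.W q i t ∧ T.W q i t ≤ C := by
    intro i
    obtain ⟨C, hC, h⟩ := FBC_bound (FBC_cpt hQ r) (f := fun p : G × ℝ => T.W p.1 i p.2)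
      ((T.cont i).mono fun p hp => lt_of_le_of_lt hp.2 hr)
      (fun p hp => T.pos _ _ _ (lt_of_le_of_lt hp.2 hr))
    exact ⟨C, hC, fun q hq t ht => h (q, t) ⟨hq, ht⟩⟩
  obtain ⟨C, hC, h⟩ := FBC_fin key (by
    intro i C C' h1 hCC h q hq t ht
    obtain ⟨h2, h3⟩ := h q hq t ht
    exact ⟨(inv_anti₀ (by linarith) hCC).trans h2, h3.trans hCC⟩)
  exact ⟨C, hC, fun q hq i t ht => h i q hq t ht⟩

/-- Lipschitz bound for `log W` in `t`. -/
theorem TN.logW_lip {S : FB X} (T : TN S) {Q : Set G} (hQ : IsCompact Q) (r : ℝ) (hr : r < 1) :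
    ∃ C : ℝ, 1 ≤ C ∧ ∀ q ∈ Q, ∀ (i : Fin S.n) (t t' : ℝ), |t| ≤ r → |t'| ≤ r →
      |Real.log (T.W q i t) - Real.log (T.W q i t')| ≤ C * |t - t'| := by
  have key : ∀ i : Fin S.n, ∃ C : ℝ, 1 ≤ C ∧ ∀ q ∈ Q, ∀ t : ℝ, |t| ≤ r →
      |T.W' q i t / T.W q i t| ≤ C := by
    intro i
    have hc : ContinuousOn (fun p : G × ℝ => T.W' p.1 i p.2 / T.W p.1 i p.2)
        (Q ×ˢ {t : ℝ | |t| ≤ r}) :=
      ContinuousOn.div ((T.cont' i).mono fun p hp => lt_of_le_of_lt hp.2 hr)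
        ((T.cont i).mono fun p hp => lt_of_le_of_lt hp.2 hr)
        (fun p hp => (T.pos _ _ _ (lt_of_le_of_lt hp.2 hr)).ne')
    obtain ⟨M, hM⟩ := (FBC_cpt hQ r).bddAbove_image hc.norm
    refine ⟨max 1 M, le_max_left _ _, fun q hq t ht => ?_⟩
    have := hM (mem_image_of_mem _ (show (q, t) ∈ Q ×ˢ {t : ℝ | |t| ≤ r} from ⟨hq, ht⟩))
    rw [Real.norm_eq_abs] at this
    exact this.trans (le_max_right _ _)
  obtain ⟨C, hC, h⟩ := FBC_fin key (by
    intro i C C' _ hCC h q hq t ht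
    exact (h q hq t ht).trans hCC)
  · refine ⟨C, hC, fun q hq i t t' ht ht' => ?_⟩
    have hd : ∀ s ∈ Icc (-r) r, HasDerivWithinAt (fun s => Real.log (T.W q i s))
        (T.W' q i s / T.W q i s) (Icc (-r) r) s := by
      intro s hs
      have hs1 : |s| < 1 := lt_of_le_of_lt (abs_le.2 hs) hr
      exact ((T.der q i s hs1).log (T.pos q i s hs1).ne').hasDerivWithinAt
    have hb : ∀ s ∈ Icc (-r) r, ‖T.W' q i s / T.W q i s‖ ≤ C := by
      intro s hs
      rw [Real.norm_eq_abs]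
      exact h i q hq s (abs_le.2 hs)
    have := (convex_Icc (-r) r).norm_image_sub_le_of_norm_hasDerivWithin_le hd hb
      (abs_le.1 ht') (abs_le.1 ht)
    simpa [Real.norm_eq_abs] using this

theorem TN.w_bound {S : FB X} (T : TN S) : ∃ C : ℝ, 1 ≤ C ∧ ∀ x : X, C⁻¹ ≤ T.w x ∧ T.w x ≤ C := by
  obtain ⟨C, hC, h⟩ := T.W_bound (isCompact_Bl S.ρ1) (1 / 2) (by norm_num)
  refine ⟨C, hC, fun x => ?_⟩
  obtain ⟨h1, h2, -⟩ := S.rep_spec x
  exact h _ h1.le _ _ h2.le

/-- Growth of `J` along the diagonal group: divide `v` into `⌈‖v‖⌉` steps of length at most `1`. -/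
theorem TN.J_D_bound {S : FB X} (T : TN S) :
    ∃ C0 : ℝ, 1 ≤ C0 ∧ ∀ (v : ℝ × ℝ) (x : X),
      Real.exp (-(C0 * (‖v‖ + 1))) ≤ T.J (D v) x ∧
        T.J (D v) x ≤ Real.exp (C0 * (‖v‖ + 1)) := by
  obtain ⟨C, hC, h⟩ := T.J_bound (isCompact_D_image 1)
  have hlog : 0 ≤ Real.log C := Real.log_nonneg hC
  have hpow : ∀ (g : G), g ∈ D '' {v | ‖v‖ ≤ 1} → ∀ (m : ℕ) (x : X),
      (C⁻¹) ^ m ≤ T.J (g ^ m) x ∧ T.J (g ^ m) x ≤ C ^ m := by
    intro g hg m
    induction m with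
    | zero => intro x; simp [T.J_one]
    | succ m ih =>
      intro x
      rw [pow_succ g, T.J_mul]
      obtain ⟨h1, h2⟩ := ih (g • x)
      obtain ⟨h3, h4⟩ := h g hg x
      have hCi : 0 < C⁻¹ := inv_pos.2 (by linarith)
      constructor
      · rw [pow_succ]
        exact mul_le_mul h1 h3 hCi.le (T.J_pos _ _).le
      · rw [pow_succ]
        exact mul_le_mul h2 h4 (T.J_pos _ _).le (by positivity)
  refine ⟨2 * Real.log C + 1, by linarith, fun v x => ?_⟩
  set m : ℕ := ⌈‖v‖⌉₊ + 1 with hm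
  have hm1 : ‖v‖ ≤ m := by
    rw [hm]
    push_cast
    linarith [Nat.le_ceil ‖v‖]
  have hm2 : (m : ℝ) ≤ ‖v‖ + 2 := by
    rw [hm]
    push_cast
    linarith [Nat.ceil_lt_add_one (norm_nonneg v)]
  have hm0 : (0 : ℝ) < m := by
    rw [hm]
    push_cast
    positivity
  have hv : v = (m : ℝ) • ((m : ℝ)⁻¹ • v) := by
    rw [smul_smul, mul_inv_cancel₀ hm0.ne', one_smul]
  have hin : D ((m : ℝ)⁻¹ • v) ∈ D '' {v | ‖v‖ ≤ 1} := by
    refine ⟨_, ?_, rfl⟩
    change ‖(m : ℝ)⁻¹ • v‖ ≤ 1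
    rw [norm_smul, norm_inv, Real.norm_of_nonneg hm0.le, inv_mul_le_iff₀ hm0, mul_one]
    exact hm1
  have hD : D v = D ((m : ℝ)⁻¹ • v) ^ m := by
    conv_lhs => rw [hv]
    exact D_nsmul m _
  obtain ⟨h1, h2⟩ := hpow _ hin m x
  rw [← hD] at h1 h2
  have hCm : C ^ m = Real.exp (m * Real.log C) := by
    rw [mul_comm, Real.exp_mul, Real.exp_log (by linarith), Real.rpow_natCast]
  have hle : (m : ℝ) * Real.log C ≤ (2 * Real.log C + 1) * (‖v‖ + 1) := by
    have := norm_nonneg v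
    nlinarith
  constructor
  · refine le_trans ?_ h1
    rw [inv_pow, hCm, ← Real.exp_neg]
    exact Real.exp_le_exp.2 (neg_le_neg hle)
  · refine h2.trans ?_
    rw [hCm]
    exact Real.exp_le_exp.2 hle

end Pool.Agent.H88.LF

end S_H88_LF_FBC

section S_H88_LF_LFA

/-!
# LFA (blueprint section 11): affine curves and unique continuation

An affine curve on `I` is locally `s ↦ k • c j (τ + α(s-s0))`, `|τ| < 1`, `α ≠ 0`.
`match`: `f = k • c j (τ+α(s-s0))` near `s0`, `f' = k' • c j' (τ'+α'(s-s0'))` near `s0'` and `f s0 = g • f' s0'`: an arrow `(j,τ) → (j',τ')`, `k⁻¹ g k'`; by `Aff` `c j (τ+x) = (k⁻¹gk') • c j' (τ'+βx)` for small `x`,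
so `f s = g • k' • c j' (τ' + βα(s-s0)) = g • f'(s0' + (βα/α')(s-s0))`.
`unique_cont`: the set of `s ∈ I` near which `f = f'` is open; it is closed in `I`: if `s_m → s ∈ I`, then `f s = f' s` by continuity, `match` gives `f x = f'(s+λ(x-s))` near `s`; for `x = s_m` near which also `f = f'`:
`f'(s+λ(x-s)) = f' x`, and `f'` is injective near `s` (flow box), so `λ = 1`.
-/

set_option autoImplicit false
set_option linter.unusedSectionVars false

open MeasureTheory Set Filter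
open scoped Topology

namespace Pool.Agent.H88.LF

variable {X : Type} [MetricSpace X] [CompactSpace X] [MulAction G X] [ContinuousSMul G X]

/-- Affine curves. -/
def FB.ACurve (S : FB X) (I : Set ℝ) (f : ℝ → X) : Prop :=
  ∀ s0 ∈ I, ∃ (k : G) (j : Fin S.n) (τ α : ℝ), |τ| < 1 ∧ α ≠ 0 ∧
    ∀ᶠ s in 𝓝 s0, f s = k • S.c j (τ + α * (s - s0))

theorem FB.acurve_chart (S : FB X) (k : G) (j : Fin S.n) (τ α : ℝ) (hα : α ≠ 0) :
    S.ACurve {s | |τ + α * s| < 1} (fun s => k • S.c j (τ + α * s)) := by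
  intro s0 hs0
  refine ⟨k, j, τ + α * s0, α, hs0, hα, Eventually.of_forall fun s => ?_⟩
  have h : τ + α * s0 + α * (s - s0) = τ + α * s := by ring
  simp only [h]

theorem FB.ACurve.comp_affine {S : FB X} {I : Set ℝ} {f : ℝ → X} (hf : S.ACurve I f) (a b : ℝ)
    (ha : a ≠ 0) : S.ACurve {s | a * s + b ∈ I} (fun s => f (a * s + b)) := by
  intro s0 hs0
  obtain ⟨k, j, τ, α, hτ, hα, hev⟩ := hf (a * s0 + b) hs0
  refine ⟨k, j, τ, α * a, hτ, mul_ne_zero hα ha, ?_⟩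
  have hc : Continuous (fun s : ℝ => a * s + b) := by fun_prop
  filter_upwards [(hc.tendsto s0).eventually hev] with s hs
  rw [hs]
  have h : τ + α * (a * s + b - (a * s0 + b)) = τ + α * a * (s - s0) := by ring
  rw [h]

theorem FB.ACurve.smul {S : FB X} {I : Set ℝ} {f : ℝ → X} (hf : S.ACurve I f) (g : G) :
    S.ACurve I (fun s => g • f s) := by
  intro s0 hs0
  obtain ⟨k, j, τ, α, hτ, hα, hev⟩ := hf s0 hs0
  refine ⟨g * k, j, τ, α, hτ, hα, ?_⟩
  filter_upwards [hev] with s hs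
  rw [hs, mul_smul]

/-- An affine curve is injective and continuous near every point. -/
theorem LFA_chart_cont (S : FB X) (k : G) (j : Fin S.n) (τ α s0 : ℝ) (hτ : |τ| < 1) :
    ContinuousAt (fun s => k • S.c j (τ + α * (s - s0))) s0 := by
  have h1 : ContinuousAt (fun s : ℝ => τ + α * (s - s0)) s0 := by fun_prop
  have h2 : ContinuousAt (S.c j) (τ + α * (s0 - s0)) := by
    rw [sub_self, mul_zero, add_zero]
    exact S.cont j τ hτ
  have h3 : ContinuousAt (fun s => S.c j (τ + α * (s - s0))) s0 :=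
    ContinuousAt.comp (f := fun s : ℝ => τ + α * (s - s0)) h2 h1
  exact h3.const_smul k

theorem FB.ACurve.continuousAt {S : FB X} {I : Set ℝ} {f : ℝ → X} (hf : S.ACurve I f) {s : ℝ}
    (hs : s ∈ I) : ContinuousAt f s := by
  obtain ⟨k, j, τ, α, hτ, hα, hev⟩ := hf s hs
  exact (LFA_chart_cont S k j τ α s hτ).congr (hev.mono fun x hx => hx.symm)

theorem FB.ACurve.match {S : FB X} (hS : S.Aff) {I I' : Set ℝ} {f f' : ℝ → X}
    (hf : S.ACurve I f) (hf' : S.ACurve I' f') {s0 s0' : ℝ} (h0 : s0 ∈ I) (h0' : s0' ∈ I')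
    (g : G) (h : f s0 = g • f' s0') :
    ∃ lam : ℝ, lam ≠ 0 ∧ ∀ᶠ s in 𝓝 s0, f s = g • f' (s0' + lam * (s - s0)) := by
  obtain ⟨k, j, τ, α, hτ, hα, hev⟩ := hf s0 h0
  obtain ⟨k', j', τ', α', hτ', hα', hev'⟩ := hf' s0' h0'
  have e1 : f s0 = k • S.c j τ := by
    rw [hev.self_of_nhds, sub_self, mul_zero, add_zero]
  have e2 : f' s0' = k' • S.c j' τ' := by
    rw [hev'.self_of_nhds, sub_self, mul_zero, add_zero]
  have harr : S.Arr j j' τ τ' (k⁻¹ * g * k') := by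
    refine ⟨hτ, hτ', ?_⟩
    rw [mul_smul, mul_smul, ← e2, ← h, e1, inv_smul_smul]
  obtain ⟨β, hβ, hevβ⟩ := hS j j' τ τ' _ harr
  refine ⟨β * α / α', div_ne_zero (mul_ne_zero hβ hα) hα', ?_⟩
  have hc1 : Tendsto (fun s : ℝ => τ + α * (s - s0)) (𝓝 s0) (𝓝 τ) := by
    have : Continuous (fun s : ℝ => τ + α * (s - s0)) := by fun_prop
    have h3 := this.tendsto s0
    rwa [sub_self, mul_zero, add_zero] at h3
  have hc2 : Tendsto (fun s : ℝ => s0' + β * α / α' * (s - s0)) (𝓝 s0) (𝓝 s0') := by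
    have : Continuous (fun s : ℝ => s0' + β * α / α' * (s - s0)) := by fun_prop
    have h3 := this.tendsto s0
    rwa [sub_self, mul_zero, add_zero] at h3
  filter_upwards [hev, hc1.eventually hevβ, hc2.eventually hev'] with s h1 h2 h3
  rw [h1, h3, h2, mul_smul, mul_smul, smul_inv_smul]
  congr 3
  field_simp
  ring

/-- Points near `s0` with the same value of an affine curve are equal. -/
theorem LFA_inj {S : FB X} {I : Set ℝ} {f : ℝ → X} (hf : S.ACurve I f) {s0 : ℝ} (h0 : s0 ∈ I) :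
    ∃ N ∈ 𝓝 s0, ∀ x ∈ N, ∀ y ∈ N, f x = f y → x = y := by
  obtain ⟨k, j, τ, α, hτ, hα, hev⟩ := hf s0 h0
  have hc1 : Tendsto (fun s : ℝ => τ + α * (s - s0)) (𝓝 s0) (𝓝 τ) := by
    have : Continuous (fun s : ℝ => τ + α * (s - s0)) := by fun_prop
    have h3 := this.tendsto s0
    rwa [sub_self, mul_zero, add_zero] at h3
  have hlt : ∀ᶠ s in 𝓝 s0, |τ + α * (s - s0)| < 1 :=
    hc1.eventually ((isOpen_lt continuous_abs continuous_const).mem_nhds hτ)
  refine ⟨_, hev.and hlt, ?_⟩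
  rintro x ⟨hx1, hx2⟩ y ⟨hy1, hy2⟩ hxy
  rw [hx1, hy1] at hxy
  have h1 := smul_left_cancel k hxy
  have hρ : nd (1 : G) < S.ρ0 := by
    rw [nd_one]
    have := S.hρ1
    have := S.hρ
    linarith
  have h2 := (S.inj j 1 1 _ _ hx2 hy2 hρ hρ (by rw [one_smul, one_smul]; exact h1)).2
  have h3 : α * (x - y) = 0 := by linarith
  rcases mul_eq_zero.1 h3 with h4 | h4
  · exact absurd h4 hα
  · linarith

theorem FB.ACurve.unique_cont {S : FB X} (hS : S.Aff) {I : Set ℝ} (hI : IsOpen I)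
    (hIc : IsPreconnected I) {f f' : ℝ → X} (hf : S.ACurve I f) (hf' : S.ACurve I f') {s0 : ℝ}
    (h0 : s0 ∈ I) (h : ∀ᶠ s in 𝓝 s0, f s = f' s) : ∀ s ∈ I, f s = f' s := by
  have hu : IsOpen {s | ∀ᶠ x in 𝓝 s, f x = f' x} := isOpen_setOfPred_eventually_nhds
  have hsub : I ⊆ {s | ∀ᶠ x in 𝓝 s, f x = f' x} := by
    refine hIc.subset_of_closure_inter_subset hu ⟨s0, h0, h⟩ ?_
    rintro s ⟨hsc, hsI⟩
    by_contra hsu
    rw [mem_closure_iff_frequently] at hsc
    -- equality at `s`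
    have heq : f s = f' s := by
      by_contra hne
      have h1 : ∀ᶠ x in 𝓝 s, f x ≠ f' x := by
        have hc : ContinuousAt (fun x => (f x, f' x)) s :=
          (hf.continuousAt hsI).prodMk (hf'.continuousAt hsI)
        exact hc.eventually ((isOpen_ne_fun continuous_fst continuous_snd).mem_nhds hne)
      obtain ⟨x, hx1, hx2⟩ := (hsc.and_eventually h1).exists
      exact hx2 hx1.self_of_nhds
    obtain ⟨lam, -, hlam⟩ := hf.match hS hf' hsI hsI 1 (by rw [one_smul]; exact heq)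
    obtain ⟨N, hN, hinj⟩ := LFA_inj hf' hsI
    have hc : Tendsto (fun x : ℝ => s + lam * (x - s)) (𝓝 s) (𝓝 s) := by
      have : Continuous (fun x : ℝ => s + lam * (x - s)) := by fun_prop
      have h3 := this.tendsto s
      rwa [sub_self, mul_zero, add_zero] at h3
    have hlam1 : lam = 1 := by
      have h2 : ∀ᶠ x in 𝓝 s, f x = (1 : G) • f' (s + lam * (x - s)) ∧ x ∈ N ∧
          s + lam * (x - s) ∈ N :=
        hlam.and (Filter.Eventually.and hN (hc.eventually hN))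
      obtain ⟨x, hx1, hx2, hx3, hx4⟩ := (hsc.and_eventually h2).exists
      have hxs : x ≠ s := fun hxs => hsu (by rw [← hxs]; exact hx1)
      rw [one_smul] at hx2
      have h5 := hinj x hx3 _ hx4 (by rw [← hx2]; exact hx1.self_of_nhds.symm)
      have h6 : (lam - 1) * (x - s) = 0 := by linarith
      rcases mul_eq_zero.1 h6 with h7 | h7
      · linarith
      · exact absurd (by linarith) hxs
    apply hsu
    filter_upwards [hlam] with x hx
    rw [hx, one_smul, hlam1, one_mul]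
    congr 1
    ring
  intro s hs
  exact (hsub hs).self_of_nhds

end Pool.Agent.H88.LF

end S_H88_LF_LFA

section S_H88_LF_LFB

/-!
# LFB (blueprint section 11): the leaf `Φ : ℝ → X`

Base point `x0 = c i0 0` (some `i0` exists as `X` is nonempty).  For `g` with `J(g,x0)` small let `g • x0 = h • c j τ` be the normal representation; `Aff` for the arrow `g⁻¹h : (i0,0) → (j,τ)`:
`c i0 s = (g⁻¹h) • c j (τ + α s)` near `0`, and `|α| = |dτ| = W(g;i0,0)/W(h;j,τ) ≤ C J(g,x0)`.  For `R > 0` choose `g` with `|α| R ≤ 1/4`: `Φ_R(s) = (g⁻¹h) • c j (τ+αs)` is an affine curve on `(-R,R)` (and on a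
larger interval), injective there (`S.inj` with `h = h' = 1` after cancelling), equal to `c i0` near `0`.  By `unique_cont` the `Φ_R` agree on common intervals; `Φ(s) = Φ_{|s|+1}(s)`.
-/

set_option autoImplicit false

open MeasureTheory Set Filter
open scoped Topology

namespace Pool.Agent.H88.LF

variable {X : Type} [MetricSpace X] [CompactSpace X] [MulAction G X] [ContinuousSMul G X]

/-- The derivative of an arrow in terms of `W`. -/
theorem FB.abs_dτ_eq {S : FB X} (T : TN S) {i j : Fin S.n} {t τ : ℝ} {k : G}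
    (h : S.Arr i j t τ k) : |S.dτ i j t τ k| = T.W 1 i t / T.W k j τ := by
  have h1 := T.rule i j t τ k h 1
  rw [one_mul] at h1
  have h2 := T.pos k j τ h.2.1
  rw [eq_div_iff h2.ne', h1, mul_comm]

/-- the derivative of an affine arrow -/
theorem LFB_dτ {S : FB X} {i j : Fin S.n} {t0 τ0 α : ℝ} {k0 : G} (h : S.Arr i j t0 τ0 k0)
    (he : ∀ᶠ t in 𝓝 t0, S.c i t = k0 • S.c j (τ0 + α * (t - t0))) :
    S.dτ i j t0 τ0 k0 = α := by
  have hc : Continuous fun t : ℝ => τ0 + α * (t - t0) := by fun_prop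
  have h1 := S.cont_unique h (fun _ => k0) (fun t => τ0 + α * (t - t0)) continuousAt_const
    hc.continuousAt rfl (by simp) he
  have h2 : S.τf i j t0 τ0 k0 =ᶠ[𝓝 t0] fun t => τ0 + α * (t - t0) := by
    filter_upwards [h1] with t ht
    exact ht.2.symm
  unfold FB.dτ
  rw [h2.deriv_eq]
  have h3 : HasDerivAt (fun t : ℝ => τ0 + α * (t - t0)) (α * 1) t0 :=
    (((hasDerivAt_id t0).sub_const t0).const_mul α).const_add τ0
  rw [h3.deriv, mul_one]

/-- long affine charts around the base point -/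
theorem LFB_chart (S : FB X) (hS : S.Aff) (T : TN S)
    (hJ : ∀ (x : X) (ε : ℝ), 0 < ε → ∃ g : G, T.J g x < ε) (i0 : Fin S.n) (R : ℝ) (hR : 0 < R) :
    ∃ (k : G) (j : Fin S.n) (τ α : ℝ), |τ| < 1 / 2 ∧ α ≠ 0 ∧ |α| * R ≤ 1 / 4 ∧
      ∀ᶠ s in 𝓝 (0 : ℝ), S.c i0 s = k • S.c j (τ + α * s) := by
  obtain ⟨C, hC, hW⟩ := T.W_bound (isCompact_Bl S.ρ1) (1 / 2) (by norm_num)
  have h0 : |(0 : ℝ)| < 1 := by rw [abs_zero]; exact one_pos
  have hW0 := T.pos 1 i0 0 h0
  have hε : 0 < 1 / (4 * R * C * T.W 1 i0 0) := by positivity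
  obtain ⟨g, hg⟩ := hJ (S.c i0 0) _ hε
  obtain ⟨h1, h2, h3⟩ := S.rep_spec (g • S.c i0 0)
  set h := S.rh (g • S.c i0 0) with hh
  set j := S.ri (g • S.c i0 0) with hj
  set τ := S.rt (g • S.c i0 0) with hτ
  have hτ1 : |τ| < 1 := by linarith
  have harr : S.Arr i0 j 0 τ (g⁻¹ * h) := by
    refine ⟨h0, hτ1, ?_⟩
    rw [mul_smul, ← h3, inv_smul_smul]
  obtain ⟨α, hα, he⟩ := hS i0 j 0 τ (g⁻¹ * h) harr
  refine ⟨g⁻¹ * h, j, τ, α, h2, hα, ?_, ?_⟩
  · have hd := LFB_dτ harr he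
    have hr := T.rule i0 j 0 τ _ harr g
    rw [hd, mul_inv_cancel_left] at hr
    have hJe := T.J_eq g 1 i0 0 h0
    rw [one_smul, mul_one] at hJe
    rw [hJe, div_lt_div_iff₀ hW0 (by positivity)] at hg
    have hWh := hW h h1.le j τ h2.le
    have hCpos : 0 < C := by linarith
    have hCinv : C⁻¹ * C = 1 := inv_mul_cancel₀ hCpos.ne'
    -- |α| * R * 4 ≤ 1
    have e1 : |α| * C⁻¹ ≤ T.W g i0 0 := by
      rw [hr, mul_comm]
      exact mul_le_mul_of_nonneg_right hWh.1 (abs_nonneg _)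
    have e2 : |α| ≤ T.W g i0 0 * C := by
      have := mul_le_mul_of_nonneg_right e1 hCpos.le
      rwa [mul_assoc, hCinv, mul_one] at this
    have e3 : T.W g i0 0 * C * (4 * R) < 1 := by
      have e4 : T.W g i0 0 * (4 * R * C * T.W 1 i0 0) =
          (T.W g i0 0 * C * (4 * R)) * T.W 1 i0 0 := by ring
      rw [e4] at hg
      exact lt_of_mul_lt_mul_right hg hW0.le
    have e5 : |α| * (4 * R) ≤ T.W g i0 0 * C * (4 * R) :=
      mul_le_mul_of_nonneg_right e2 (by positivity)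
    linarith
  · filter_upwards [he] with s hs
    rw [hs, sub_zero]

/-- LFB -/
theorem exists_leaf (S : FB X) (hS : S.Aff) (T : TN S)
    (hJ : ∀ (x : X) (ε : ℝ), 0 < ε → ∃ g : G, T.J g x < ε) [Nonempty X] :
    ∃ Φ : ℝ → X, S.ACurve univ Φ ∧ Function.Injective Φ := by
  obtain ⟨x⟩ := ‹Nonempty X›
  set i0 := S.ri x with hi0
  have hch : ∀ n : ℕ, ∃ (k : G) (j : Fin S.n) (τ α : ℝ), |τ| < 1 / 2 ∧ α ≠ 0 ∧
      |α| * ((n : ℝ) + 1) ≤ 1 / 4 ∧ ∀ᶠ s in 𝓝 (0 : ℝ), S.c i0 s = k • S.c j (τ + α * s) :=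
    fun n => LFB_chart S hS T hJ i0 ((n : ℝ) + 1) (by positivity)
  choose k j τ α h1 h2 h3 h4 using hch
  -- the charts
  set F : ℕ → ℝ → X := fun n s => k n • S.c (j n) (τ n + α n * s) with hF
  have hin : ∀ (n : ℕ) (s : ℝ), |s| < (n : ℝ) + 1 → |τ n + α n * s| < 1 := by
    intro n s hs
    have e1 : |α n * s| ≤ 1 / 4 := by
      rw [abs_mul]
      exact (mul_le_mul_of_nonneg_left hs.le (abs_nonneg _)).trans (h3 n)
    have e2 := abs_add_le (τ n) (α n * s)
    have := h1 n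
    linarith
  have hcur : ∀ n : ℕ, S.ACurve (Ioo (-((n : ℝ) + 1)) ((n : ℝ) + 1)) (F n) := by
    intro n s0 hs0
    exact S.acurve_chart (k n) (j n) (τ n) (α n) (h2 n) s0 (hin n s0 (abs_lt.2 hs0))
  have hmono : ∀ {n m : ℕ}, n ≤ m → ∀ s : ℝ, |s| < (n : ℝ) + 1 → F n s = F m s := by
    intro n m hnm s hs
    have hnm' : (n : ℝ) ≤ m := by exact_mod_cast hnm
    have hcm : S.ACurve (Ioo (-((n : ℝ) + 1)) ((n : ℝ) + 1)) (F m) := by
      intro s0 hs0
      refine hcur m s0 ⟨?_, ?_⟩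
      · have := hs0.1
        linarith
      · have := hs0.2
        linarith
    refine FB.ACurve.unique_cont hS isOpen_Ioo isPreconnected_Ioo (hcur n) hcm (s0 := 0) ?_ ?_ s
      (abs_lt.1 hs)
    · constructor
      · have : (0 : ℝ) ≤ n := Nat.cast_nonneg n
        linarith
      · positivity
    · filter_upwards [h4 n, h4 m] with s e1 e2
      rw [hF]
      simp only
      rw [← e1, ← e2]
  have hagree : ∀ (n m : ℕ) (s : ℝ), |s| < (n : ℝ) + 1 → |s| < (m : ℝ) + 1 → F n s = F m s := by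
    intro n m s hn hm
    rcases le_total n m with h | h
    · exact hmono h s hn
    · exact (hmono h s hm).symm
  have hceil : ∀ s : ℝ, |s| < (⌈|s|⌉₊ : ℝ) + 1 := fun s => by
    have := Nat.le_ceil |s|
    linarith
  set Φ : ℝ → X := fun s => F ⌈|s|⌉₊ s with hΦ
  have hΦF : ∀ (n : ℕ) (s : ℝ), |s| < (n : ℝ) + 1 → Φ s = F n s := fun n s hs =>
    hagree _ n s (hceil s) hs
  refine ⟨Φ, ?_, ?_⟩
  · intro s0 _
    obtain ⟨k', j', τ', α', e1, e2, e3⟩ := hcur ⌈|s0|⌉₊ s0 (abs_lt.1 (hceil s0))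
    refine ⟨k', j', τ', α', e1, e2, ?_⟩
    have hopen : IsOpen {s : ℝ | |s| < (⌈|s0|⌉₊ : ℝ) + 1} :=
      isOpen_lt continuous_abs continuous_const
    filter_upwards [e3, hopen.mem_nhds (hceil s0)] with s e4 e5
    rw [hΦF _ s e5]
    exact e4
  · intro s s' hss
    set n := max ⌈|s|⌉₊ ⌈|s'|⌉₊ with hn
    have e1 : |s| < (n : ℝ) + 1 := by
      refine (hceil s).trans_le ?_
      have : ((⌈|s|⌉₊ : ℕ) : ℝ) ≤ n := by exact_mod_cast le_max_left _ _
      linarith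
    have e2 : |s'| < (n : ℝ) + 1 := by
      refine (hceil s').trans_le ?_
      have : ((⌈|s'|⌉₊ : ℕ) : ℝ) ≤ n := by exact_mod_cast le_max_right _ _
      linarith
    rw [hΦF n s e1, hΦF n s' e2] at hss
    have e3 : S.c (j n) (τ n + α n * s) = S.c (j n) (τ n + α n * s') := by
      have := congrArg (fun y => (k n)⁻¹ • y) hss
      simp only [hF, inv_smul_smul] at this
      exact this
    have hρ0 : 0 < S.ρ0 := by
      have := S.hρ1
      have := S.hρ
      linarith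
    have e4 := (S.inj (j n) 1 1 _ _ (hin n s e1) (hin n s' e2) (by rw [nd_one]; exact hρ0)
      (by rw [nd_one]; exact hρ0) (by rw [one_smul, one_smul]; exact e3)).2
    have e5 : α n * s = α n * s' := by linarith
    exact mul_left_cancel₀ (h2 n) e5

end Pool.Agent.H88.LF

end S_H88_LF_LFB

section S_H88_LF_LEAF

/-!
# LEAF (blueprint section 11): the group `Λ` and its affine action

`Φ : ℝ → X` an injective affine curve.  If `g • Φ s = Φ s'` for some `s,s'` then by `match` and `unique_cont` (on `univ`) `g • Φ s = Φ (a s + b)` for all `s`, with `a ≠ 0`.  `Λ = {h : ∃ s s', h • Φ s = Φ s'}` is a subgroup,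
`A h s` = the unique `s'` with `h • Φ s = Φ s'` (and `A h s = s` for `h ∉ Λ`).  Composition: `(hh') Φ s = h Φ(A h' s) = Φ(A h (A h' s))`.
(i) `ρ` from `ulf`: `h Φ s = Φ s`, so `g h g⁻¹` fixes `g Φ s`.
(iii) For each `i` such that `c i t = g • Φ s` for some `t, g, s` (`|t|<1`) fix such data `(t_i,g_i,s_i)`; by `match` and `unique_cont` on `(-1,1)`: `c i t = g_i • Φ(a_i t + b_i)` for all `|t| < 1`.  Given `g, s`: normal representation
`g • Φ s = h • c i t = (h g_i) • Φ(a_i t + b_i)`, `nd h < ρ1`, `|t| < 1/2`; `h' = (h g_i)⁻¹ g ∈ Λ`, `A h' s = a_i t + b_i`, `g h'⁻¹ = h g_i`.  `Q = ⋃_i Bl ρ1 * g_i`, `R = max_i (|a_i| + |b_i|)`.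
-/

set_option autoImplicit false

open MeasureTheory Set Filter
open scoped Topology

namespace Pool.Agent.H88.LF

variable {X : Type} [MetricSpace X] [CompactSpace X] [MulAction G X] [ContinuousSMul G X]

theorem LEAF_ext (S : FB X) (hS : S.Aff) (Φ : ℝ → X) (hΦ : S.ACurve univ Φ) (g : G)
    (s0 s0' : ℝ) (h : g • Φ s0 = Φ s0') :
    ∃ a b : ℝ, a ≠ 0 ∧ ∀ s, g • Φ s = Φ (a * s + b) := by
  have hf := hΦ.smul g
  obtain ⟨lam, hlam, hev⟩ := FB.ACurve.match hS hf hΦ (mem_univ s0) (mem_univ s0') 1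
    (by rw [one_smul]; exact h)
  refine ⟨lam, s0' - lam * s0, hlam, ?_⟩
  have hf' := hΦ.comp_affine lam (s0' - lam * s0) hlam
  have hf'' : S.ACurve univ (fun s => Φ (lam * s + (s0' - lam * s0))) := by
    intro x _
    exact hf' x (mem_univ _)
  have key := FB.ACurve.unique_cont hS isOpen_univ isPreconnected_univ hf hf'' (mem_univ s0) ?_
  · intro s
    exact key s (mem_univ s)
  · filter_upwards [hev] with s hs
    rw [hs, one_smul]
    congr 1
    ring

theorem LEAF_chart (S : FB X) (hS : S.Aff) (Φ : ℝ → X) (hΦ : S.ACurve univ Φ) (i : Fin S.n) :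
    ∃ (g : G) (a b : ℝ), (∃ (t : ℝ) (g : G) (s : ℝ), |t| < 1 ∧ S.c i t = g • Φ s) →
      ∀ t, |t| < 1 → S.c i t = g • Φ (a * t + b) := by
  by_cases hP : ∃ (t : ℝ) (g : G) (s : ℝ), |t| < 1 ∧ S.c i t = g • Φ s
  · obtain ⟨t0, g, s0, ht0, h0⟩ := hP
    have hc := FB.acurve_chart S 1 i 0 1 one_ne_zero
    have hc' : S.ACurve {t : ℝ | |t| < 1} (S.c i) := by
      intro x hx
      have hx' : x ∈ {s : ℝ | |0 + 1 * s| < 1} := by
        show |0 + 1 * x| < 1
        rw [zero_add, one_mul]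
        exact hx
      obtain ⟨k, j, τ, α, h1, h2, h3⟩ := hc x hx'
      refine ⟨k, j, τ, α, h1, h2, ?_⟩
      filter_upwards [h3] with s hs
      rw [← hs]
      simp
    obtain ⟨lam, hlam, hev⟩ := FB.ACurve.match hS hc' hΦ (show t0 ∈ {t : ℝ | |t| < 1} from ht0)
      (mem_univ s0) g h0
    refine ⟨g, lam, s0 - lam * t0, fun _ => ?_⟩
    have hf' := (hΦ.comp_affine lam (s0 - lam * t0) hlam).smul g
    have hf'' : S.ACurve {t : ℝ | |t| < 1} (fun s => g • Φ (lam * s + (s0 - lam * t0))) := by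
      intro x _
      exact hf' x (mem_univ _)
    have hI : {t : ℝ | |t| < 1} = Ioo (-1) 1 := by
      ext t
      exact (abs_lt : |t| < 1 ↔ -1 < t ∧ t < 1)
    have hop : IsOpen {t : ℝ | |t| < 1} := by
      rw [hI]
      exact isOpen_Ioo
    have hpc : IsPreconnected {t : ℝ | |t| < 1} := by
      rw [hI]
      exact isPreconnected_Ioo
    refine FB.ACurve.unique_cont hS hop hpc hc' hf'' (show t0 ∈ {t : ℝ | |t| < 1} from ht0) ?_
    filter_upwards [hev] with s hs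
    rw [hs]
    congr 2
    ring
  · exact ⟨1, 0, 0, fun h => absurd h hP⟩

theorem leaf_of_curve (S : FB X) (hS : S.Aff) (Φ : ℝ → X) (hΦ : S.ACurve univ Φ)
    (hinj : Function.Injective Φ) :
    ∃ (Λ : Subgroup G) (A : G → ℝ → ℝ),
      (∀ h ∈ Λ, ∃ a b : ℝ, a ≠ 0 ∧ ∀ s, A h s = a * s + b) ∧
      (∀ h ∈ Λ, ∀ h' ∈ Λ, ∀ s, A (h * h') s = A h (A h' s)) ∧
      (∃ ρ > 0, ∀ h ∈ Λ, (∃ s, A h s = s) → ∀ g : G, nd (g * h * g⁻¹) ≤ ρ → h = 1) ∧
      ∃ Q : Set G, IsCompact Q ∧ ∃ R : ℝ, ∀ (g : G) (s : ℝ), ∃ h ∈ Λ, g * h⁻¹ ∈ Q ∧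
        |A h s| ≤ R := by
  classical
  let Λ : Subgroup G :=
    { carrier := {h | ∃ s s', h • Φ s = Φ s'}
      one_mem' := ⟨0, 0, one_smul _ _⟩
      mul_mem' := by
        rintro h h' ⟨s, s', hs⟩ ⟨u, u', hu⟩
        obtain ⟨a, b, -, hab⟩ := LEAF_ext S hS Φ hΦ h s s' hs
        refine ⟨u, a * u' + b, ?_⟩
        rw [mul_smul, hu, hab]
      inv_mem' := by
        rintro h ⟨s, s', hs⟩
        exact ⟨s', s, by rw [← hs, inv_smul_smul]⟩ }
  let A : G → ℝ → ℝ := fun h s => if hh : ∃ s', h • Φ s = Φ s' then hh.choose else s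
  have hA : ∀ h ∈ Λ, ∀ s, h • Φ s = Φ (A h s) := by
    rintro h ⟨s, s', hs⟩ u
    obtain ⟨a, b, -, hab⟩ := LEAF_ext S hS Φ hΦ h s s' hs
    have hex : ∃ s', h • Φ u = Φ s' := ⟨_, hab u⟩
    show h • Φ u = Φ (if hh : ∃ s', h • Φ u = Φ s' then hh.choose else u)
    rw [dif_pos hex]
    exact hex.choose_spec
  refine ⟨Λ, A, ?_, ?_, ?_, ?_⟩
  · intro h hh
    have h1 := hA h hh
    obtain ⟨s, s', hs⟩ := hh
    obtain ⟨a, b, ha, hab⟩ := LEAF_ext S hS Φ hΦ h s s' hs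
    refine ⟨a, b, ha, fun u => hinj ?_⟩
    rw [← h1 u, hab u]
  · intro h hh h' hh' s
    apply hinj
    rw [← hA _ (Λ.mul_mem hh hh') s, mul_smul, hA h' hh' s, hA h hh]
  · obtain ⟨ρ, hρ, hulf⟩ := S.ulf
    refine ⟨ρ, hρ, ?_⟩
    rintro h hh ⟨s, hs⟩ g hg
    have h1 : h • Φ s = Φ s := by
      rw [hA h hh s, hs]
    have h2 := hulf (g • Φ s) (g * h * g⁻¹) hg (by
      rw [mul_smul, inv_smul_smul, mul_smul, h1])
    have h3 : g * h = g := by
      rw [← mul_inv_eq_one]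
      exact h2
    exact mul_eq_left.1 h3
  · choose gi ai bi hi using LEAF_chart S hS Φ hΦ
    refine ⟨⋃ i, (fun h => h * gi i) '' Bl S.ρ1, isCompact_iUnion fun i =>
      (isCompact_Bl S.ρ1).image (continuous_mul_const _), ∑ i, (|ai i| + |bi i|), ?_⟩
    intro g s
    obtain ⟨i, h, t, hh, ht, hx⟩ := S.cover (g • Φ s)
    have ht1 : |t| < 1 := by linarith
    have h1 : S.c i t = (h⁻¹ * g) • Φ s := by
      rw [mul_smul, hx, inv_smul_smul]
    have h2 := hi i ⟨t, _, s, ht1, h1⟩ t ht1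
    have h3 : ((h * gi i)⁻¹ * g) • Φ s = Φ (ai i * t + bi i) := by
      rw [mul_smul, hx, h2, ← mul_smul h, inv_smul_smul]
    have h4 : (h * gi i)⁻¹ * g ∈ Λ := ⟨s, _, h3⟩
    refine ⟨_, h4, ?_, ?_⟩
    · have e : g * ((h * gi i)⁻¹ * g)⁻¹ = h * gi i := by group
      rw [e]
      exact mem_iUnion.2 ⟨i, h, hh.le, rfl⟩
    · have h5 : A ((h * gi i)⁻¹ * g) s = ai i * t + bi i := by
        apply hinj
        rw [← hA _ h4 s, h3]
      rw [h5]
      have h6 : |ai i| + |bi i| ≤ ∑ i, (|ai i| + |bi i|) :=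
        Finset.single_le_sum (f := fun i => |ai i| + |bi i|)
          (fun j _ => by positivity) (Finset.mem_univ i)
      refine le_trans ?_ h6
      refine (abs_add_le _ _).trans ?_
      rw [abs_mul]
      have := mul_le_mul_of_nonneg_left ht1.le (abs_nonneg (ai i))
      linarith

/-- LEAF -/
theorem leaf (S : FB X) (hS : S.Aff) (T : TN S)
    (hJ : ∀ (x : X) (ε : ℝ), 0 < ε → ∃ g : G, T.J g x < ε) [Nonempty X] :
    ∃ (Λ : Subgroup G) (A : G → ℝ → ℝ),
      (∀ h ∈ Λ, ∃ a b : ℝ, a ≠ 0 ∧ ∀ s, A h s = a * s + b) ∧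
      (∀ h ∈ Λ, ∀ h' ∈ Λ, ∀ s, A (h * h') s = A h (A h' s)) ∧
      (∃ ρ > 0, ∀ h ∈ Λ, (∃ s, A h s = s) → ∀ g : G, nd (g * h * g⁻¹) ≤ ρ → h = 1) ∧
      ∃ Q : Set G, IsCompact Q ∧ ∃ R : ℝ, ∀ (g : G) (s : ℝ), ∃ h ∈ Λ, g * h⁻¹ ∈ Q ∧
        |A h s| ≤ R := by
  obtain ⟨Φ, hΦ, hinj⟩ := exists_leaf S hS T hJ
  exact leaf_of_curve S hS Φ hΦ hinj

end Pool.Agent.H88.LF

end S_H88_LF_LEAF

section S_H88_LF_PRE

/-!
# PRE: from an infinite family of transverse curves to a finite flow box structure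

`X` compact.  For each `x` write `x = h_x c_{a}(0)`.  The curve `h_x c_a` satisfies: `{h h_x c_a(t) : nd h < ε, |t| < 1/2}` is a
neighbourhood of `x` for every `ε > 0` (`opn` at `t = 0` transported by `h_x`; conjugation by `h_x` is continuous).
Injectivity: `h h_x c_a(t) = h' h_x c_a(t')` gives `h_x⁻¹hh_x = h_x⁻¹h'h_x`, `t = t'` if the conjugates have `nd < ρ a`, which holds if
`nd h, nd h' < r_x := ρ a /(nrm h_x * nrm h_x⁻¹ + 1)`.  First finite subcover of the sets `{h h_x c_a(t) : nd h < r_x/10, |t| < 1/2}`, then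
`ρ0` := a small multiple of the minimum of the finitely many `r_x` (at most `1`), `ρ1 = ρ0/100`, and for each of the finitely
many curves `h_x c_a` add the translates by a finite `ρ1/8`-net (in the sense `nd (b b_l⁻¹) < ρ1`) of the compact ball `nd b ≤ r_x/10`.
(Alternatively: choose for every `x` the radius as above, take the infimum over a finite subcover, and cover again: for
`x` the point `x` itself is `h_x c_a(0)`, but its radius `r_x` need not be bounded below, therefore the net.)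
Transitions: `h c_a(t) = k0 h' c_b(τ)` iff `c_a(t) = (h⁻¹k0h') c_b(τ)`.  `deriv τ t0 ≠ 0` is automatic: compose the
transition `a → b` with the reverse transition `b → a`; by `inj` the composition is the identity near `t0`; chain rule.
-/

set_option autoImplicit false

open Set Filter
open scoped Topology

namespace Pool.Agent.H88.LF

theorem pre_nrm_nonneg (A : Mat) : 0 ≤ nrm A :=
  Finset.sum_nonneg fun _ _ => Finset.sum_nonneg fun _ _ => abs_nonneg _

theorem pre_nrm_add (A B : Mat) : nrm (A + B) ≤ nrm A + nrm B := by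
  unfold nrm
  rw [← Finset.sum_add_distrib]
  refine Finset.sum_le_sum fun i _ => ?_
  rw [← Finset.sum_add_distrib]
  exact Finset.sum_le_sum fun j _ => abs_add_le _ _

theorem pre_nrm_mul (A B : Mat) : nrm (A * B) ≤ nrm A * nrm B := by
  have h1 : nrm (A * B) ≤ ∑ i, ∑ j, ∑ k, |A i k| * |B k j| := by
    unfold nrm
    refine Finset.sum_le_sum fun i _ => Finset.sum_le_sum fun j _ => ?_
    rw [Matrix.mul_apply]
    refine (Finset.abs_sum_le_sum_abs _ _).trans (le_of_eq ?_)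
    exact Finset.sum_congr rfl fun k _ => abs_mul _ _
  refine h1.trans ?_
  have h2 : nrm A * nrm B = ∑ i, ∑ k, |A i k| * nrm B := by
    unfold nrm
    rw [Finset.sum_mul]
    exact Finset.sum_congr rfl fun i _ => Finset.sum_mul _ _ _
  rw [h2]
  refine Finset.sum_le_sum fun i _ => ?_
  rw [Finset.sum_comm]
  refine Finset.sum_le_sum fun k _ => ?_
  rw [← Finset.mul_sum]
  refine mul_le_mul_of_nonneg_left ?_ (abs_nonneg _)
  unfold nrm
  exact Finset.single_le_sum (f := fun i => ∑ j, |B i j|)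
    (fun _ _ => Finset.sum_nonneg fun _ _ => abs_nonneg _) (Finset.mem_univ k)

theorem pre_nrm_one : nrm 1 = 3 := by
  unfold nrm
  simp [Fin.sum_univ_three, Matrix.one_apply]
  norm_num

theorem pre_nd_nonneg (g : G) : 0 ≤ nd g := pre_nrm_nonneg _

theorem pre_nd_one : nd 1 = 0 := by
  unfold nd nrm
  simp

theorem pre_nd_conj (h g : G) : nd (h * g * h⁻¹) ≤ nrm h.1 * nd g * nrm (h⁻¹).1 := by
  have h1 : (h * g * h⁻¹).1 - 1 = h.1 * (g.1 - 1) * (h⁻¹).1 := by
    have h2 : h.1 * (h⁻¹).1 = 1 := by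
      rw [← Matrix.SpecialLinearGroup.coe_mul, mul_inv_cancel, Matrix.SpecialLinearGroup.coe_one]
    rw [mul_sub, sub_mul, mul_one, h2, Matrix.SpecialLinearGroup.coe_mul,
      Matrix.SpecialLinearGroup.coe_mul]
  unfold nd
  rw [h1]
  refine (pre_nrm_mul _ _).trans ?_
  exact mul_le_mul_of_nonneg_right (pre_nrm_mul _ _) (pre_nrm_nonneg _)

theorem pre_nd_mul (h b : G) : nd (h * b) ≤ nd h * (3 + nd b) + nd b := by
  have h1 : (h * b).1 - 1 = (h.1 - 1) * b.1 + (b.1 - 1) := by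
    rw [Matrix.SpecialLinearGroup.coe_mul, sub_mul, one_mul]
    abel
  have h2 : nrm b.1 ≤ 3 + nd b := by
    have h3 : b.1 = 1 + (b.1 - 1) := by abel
    conv_lhs => rw [h3]
    refine (pre_nrm_add _ _).trans ?_
    rw [pre_nrm_one]
    exact le_rfl
  unfold nd at *
  rw [h1]
  refine (pre_nrm_add _ _).trans (add_le_add ?_ le_rfl)
  exact (pre_nrm_mul _ _).trans (mul_le_mul_of_nonneg_left h2 (pre_nrm_nonneg _))

theorem pre_nrm_cont : Continuous nrm := by
  unfold nrm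
  refine continuous_finsetSum _ fun i _ => continuous_finsetSum _ fun j _ => ?_
  exact continuous_abs.comp ((continuous_apply j).comp (continuous_apply i))

theorem pre_nd_cont : Continuous nd := by
  unfold nd
  exact pre_nrm_cont.comp (closedEmb_val.continuous.sub continuous_const)

/-- balls are compact -/
theorem pre_compact (s : ℝ) : IsCompact {b : G | nd b ≤ s} := by
  have h1 : IsCompact {A : Mat | nrm (A - 1) ≤ s} := by
    refine IsCompact.of_isClosed_subset (isCompact_univ_pi (fun i : Fin 3 =>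
      isCompact_univ_pi (fun j : Fin 3 =>
        (isCompact_Icc : IsCompact (Icc ((1 : Mat) i j - s) ((1 : Mat) i j + s)))))) ?_ ?_
    · exact isClosed_le (pre_nrm_cont.comp (continuous_id.sub continuous_const)) continuous_const
    · intro A hA i _ j _
      have h2 : |(A - 1) i j| ≤ nrm (A - 1) := by
        unfold nrm
        refine (Finset.single_le_sum (f := fun j => |(A - 1) i j|) (fun _ _ => abs_nonneg _)
          (Finset.mem_univ j)).trans ?_
        exact Finset.single_le_sum (f := fun i => ∑ j, |(A - 1) i j|)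
          (fun _ _ => Finset.sum_nonneg fun _ _ => abs_nonneg _) (Finset.mem_univ i)
      have h3 := abs_le.1 (h2.trans hA)
      rw [Matrix.sub_apply] at h3
      exact ⟨by linarith [h3.1], by linarith [h3.2]⟩
  exact closedEmb_val.isCompact_preimage h1

/-- finite nets -/
theorem pre_net (s ρ : ℝ) (hρ : 0 < ρ) : ∃ N : Finset G, (∀ b ∈ N, nd b ≤ s) ∧
    ∀ b : G, nd b ≤ s → ∃ b' ∈ N, nd (b * b'⁻¹) < ρ := by
  obtain ⟨N, hN, hc⟩ := (pre_compact s).elim_nhds_subcover (fun b' => {b : G | nd (b * b'⁻¹) < ρ})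
    (fun b' _ => by
      refine (isOpen_lt (pre_nd_cont.comp (continuous_id.mul continuous_const))
        continuous_const).mem_nhds ?_
      change nd (b' * b'⁻¹) < ρ
      rw [mul_inv_cancel, pre_nd_one]
      exact hρ)
  refine ⟨N, hN, fun b hb => ?_⟩
  have h1 := hc hb
  simp only [Set.mem_iUnion, Set.mem_ofPred_eq, exists_prop] at h1
  exact h1

section

variable {X : Type} [TopologicalSpace X] [MulAction G X] [ContinuousSMul G X]

/-- transport of the neighbourhoods -/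
theorem pre_opn (P : PreFB X) (a : P.A) (k : G) (t : ℝ) (ht : |t| < 1) (ε : ℝ) (hε : 0 < ε)
    (δ : ℝ) (hδ : 0 < δ) :
    {x | ∃ (h : G) (t' : ℝ), nd h < ε ∧ |t' - t| < δ ∧ |t'| < 1 ∧ x = h • k • P.c a t'} ∈
      𝓝 (k • P.c a t) := by
  set m : ℝ := nrm k.1 * nrm (k⁻¹).1 + 1 with hm
  have hm0 : 0 < m := by
    have := mul_nonneg (pre_nrm_nonneg k.1) (pre_nrm_nonneg (k⁻¹).1)
    linarith
  have h1 := P.opn a t ht (min δ (ε / m)) (lt_min hδ (div_pos hε hm0))
  have h2 : (fun x => k⁻¹ • x) ⁻¹' {x | ∃ (h : G) (t' : ℝ), nd h < min δ (ε / m) ∧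
      |t' - t| < min δ (ε / m) ∧ |t'| < 1 ∧ x = h • P.c a t'} ∈ 𝓝 (k • P.c a t) := by
    refine (continuous_const_smul k⁻¹).continuousAt.preimage_mem_nhds ?_
    rw [inv_smul_smul]
    exact h1
  refine Filter.mem_of_superset h2 ?_
  rintro x ⟨h, t', hh, ht', ht1, hx⟩
  refine ⟨k * h * k⁻¹, t', ?_, lt_of_lt_of_le ht' (min_le_left _ _), ht1, ?_⟩
  · refine lt_of_le_of_lt (pre_nd_conj k h) ?_
    have h3 : nd h < ε / m := lt_of_lt_of_le hh (min_le_right _ _)
    rw [lt_div_iff₀ hm0] at h3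
    have h4 : nrm k.1 * nd h * nrm (k⁻¹).1 ≤ nd h * m := by
      rw [hm]
      have := pre_nd_nonneg h
      nlinarith
    linarith
  · have h5 : k⁻¹ • x = h • P.c a t' := hx
    have h6 : x = k • (k⁻¹ • x) := (smul_inv_smul k x).symm
    rw [h6, h5, mul_smul, mul_smul, inv_smul_smul]

/-- transitions with nonzero derivative -/
theorem pre_trans (P : PreFB X) (a b : P.A) (t0 τ0 : ℝ) (k0 : G) (ht : |t0| < 1) (hτ : |τ0| < 1)
    (h : P.c a t0 = k0 • P.c b τ0) :
    ∃ (k : ℝ → G) (τ : ℝ → ℝ), k t0 = k0 ∧ τ t0 = τ0 ∧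
      (∀ i j, ContDiffAt ℝ 2 (fun t => (k t).1 i j) t0) ∧ ContDiffAt ℝ 2 τ t0 ∧
      deriv τ t0 ≠ 0 ∧ ∀ᶠ t in 𝓝 t0, P.c a t = k t • P.c b (τ t) := by
  obtain ⟨k, τ, hk0, hτ0, hk, hτc, hev⟩ := P.trans a b t0 τ0 k0 ht hτ h
  have h' : P.c b τ0 = k0⁻¹ • P.c a t0 := by rw [h, inv_smul_smul]
  obtain ⟨k', τ', hk0', hτ0', hk', hτc', hev'⟩ := P.trans b a τ0 t0 k0⁻¹ hτ ht h'
  refine ⟨k, τ, hk0, hτ0, hk, hτc, ?_, hev⟩
  have hτcont : ContinuousAt τ t0 := hτc.continuousAt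
  have hτ'cont : ContinuousAt τ' τ0 := hτc'.continuousAt
  have hkcont : ContinuousAt k t0 := by
    rw [closedEmb_val.isInducing.continuousAt_iff]
    refine continuousAt_pi.2 fun i => continuousAt_pi.2 fun j => (hk i j).continuousAt
  have hk'cont : ContinuousAt k' τ0 := by
    rw [closedEmb_val.isInducing.continuousAt_iff]
    refine continuousAt_pi.2 fun i => continuousAt_pi.2 fun j => (hk' i j).continuousAt
  have hcomp : ContinuousAt (fun t => τ' (τ t)) t0 := by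
    refine ContinuousAt.comp (g := τ') ?_ hτcont
    rw [hτ0]; exact hτ'cont
  have hkk : ContinuousAt (fun t => nd (k t * k' (τ t))) t0 := by
    refine pre_nd_cont.continuousAt.comp (hkcont.mul ?_)
    refine ContinuousAt.comp (g := k') ?_ hτcont
    rw [hτ0]; exact hk'cont
  have hlt : ∀ᶠ t in 𝓝 t0, nd (k t * k' (τ t)) < P.ρ a := by
    refine hkk.eventually_lt continuousAt_const ?_
    rw [hk0, hτ0, hk0', mul_inv_cancel, pre_nd_one]
    exact P.hρ a
  have h1 : ∀ᶠ t in 𝓝 t0, |τ' (τ t)| < 1 := by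
    refine (continuous_abs.continuousAt.comp hcomp).eventually_lt continuousAt_const ?_
    simp only [Function.comp]
    rw [hτ0, hτ0']
    exact ht
  have h2 : ∀ᶠ t in 𝓝 t0, |t| < 1 :=
    continuous_abs.continuousAt.eventually_lt continuousAt_const ht
  have h3 : ∀ᶠ t in 𝓝 t0, P.c b (τ t) = k' (τ t) • P.c a (τ' (τ t)) := by
    have h4 : Tendsto τ (𝓝 t0) (𝓝 τ0) := by
      rw [← hτ0]; exact hτcont
    exact h4.eventually hev'
  have hid : (fun t => τ' (τ t)) =ᶠ[𝓝 t0] fun t => t := by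
    filter_upwards [hev, hlt, h1, h2, h3] with t e1 e2 e3 e4 e5
    have e6 : (1 : G) • P.c a t = (k t * k' (τ t)) • P.c a (τ' (τ t)) := by
      rw [one_smul, mul_smul, ← e5, ← e1]
    exact (P.inj a 1 (k t * k' (τ t)) t (τ' (τ t)) e4 e3 (by rw [pre_nd_one]; exact P.hρ a)
      e2 e6).2.symm
  intro hd
  have hdτ : HasDerivAt τ (deriv τ t0) t0 := (hτc.differentiableAt (by norm_num)).hasDerivAt
  have hdτ' : HasDerivAt τ' (deriv τ' τ0) (τ t0) := by
    rw [hτ0]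
    exact (hτc'.differentiableAt (by norm_num)).hasDerivAt
  have hcd : HasDerivAt (fun t => τ' (τ t)) (deriv τ' τ0 * deriv τ t0) t0 := hdτ'.comp t0 hdτ
  have hcd' : HasDerivAt (fun t : ℝ => t) (deriv τ' τ0 * deriv τ t0) t0 :=
    hcd.congr_of_eventuallyEq hid.symm
  have h7 := hcd'.unique (hasDerivAt_id t0)
  rw [hd, mul_zero] at h7
  exact zero_ne_one h7

/-- transitions of translates -/
theorem pre_trans' (P : PreFB X) (a b : P.A) (g g' : G) (t0 τ0 : ℝ) (k0 : G) (ht : |t0| < 1)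
    (hτ : |τ0| < 1) (h : g • P.c a t0 = k0 • g' • P.c b τ0) :
    ∃ (k : ℝ → G) (τ : ℝ → ℝ), k t0 = k0 ∧ τ t0 = τ0 ∧
      (∀ i j, ContDiffAt ℝ 2 (fun t => (k t).1 i j) t0) ∧ ContDiffAt ℝ 2 τ t0 ∧
      deriv τ t0 ≠ 0 ∧ ∀ᶠ t in 𝓝 t0, g • P.c a t = k t • g' • P.c b (τ t) := by
  have h' : P.c a t0 = (g⁻¹ * k0 * g') • P.c b τ0 := by
    rw [mul_smul, mul_smul, ← h, inv_smul_smul]
  obtain ⟨k, τ, hk0, hτ0, hk, hτc, hd, hev⟩ := pre_trans P a b t0 τ0 _ ht hτ h'
  refine ⟨fun t => g * k t * g'⁻¹, τ, ?_, hτ0, ?_, hτc, hd, ?_⟩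
  · simp only [hk0]
    group
  · intro i j
    have h1 : (fun t => (g * k t * g'⁻¹).1 i j) =
        fun t => ∑ q, (∑ p, g.1 i p * (k t).1 p q) * (g'⁻¹).1 q j := by
      funext t
      rw [Matrix.SpecialLinearGroup.coe_mul, Matrix.SpecialLinearGroup.coe_mul,
        Matrix.mul_apply]
      exact Finset.sum_congr rfl fun q _ => by rw [Matrix.mul_apply]
    rw [h1]
    refine ContDiffAt.sum fun q _ => ContDiffAt.mul (ContDiffAt.sum fun p _ =>
      contDiffAt_const.mul (hk p q)) contDiffAt_const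
  · filter_upwards [hev] with t e1
    rw [mul_smul, mul_smul, inv_smul_smul, ← e1]

end

/-- PRE -/
theorem preFB_toFB {X : Type} [MetricSpace X] [CompactSpace X] [MulAction G X]
    [ContinuousSMul G X] (P : PreFB X) :
    ∃ S : FB X, ∀ i : Fin S.n, ∃ (a : P.A) (h : G), ∀ t, S.c i t = h • P.c a t := by
  classical
  choose a h hx using P.cover
  set m : X → ℝ := fun x => nrm ((h x)⁻¹).1 * nrm (h x).1 + 1 with hm
  have hm1 : ∀ x, 1 ≤ m x := fun x => by
    have := mul_nonneg (pre_nrm_nonneg ((h x)⁻¹).1) (pre_nrm_nonneg (h x).1)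
    rw [hm]; simp only; linarith
  have hm0 : ∀ x, 0 < m x := fun x => lt_of_lt_of_le one_pos (hm1 x)
  set r : X → ℝ := fun x => min 1 (P.ρ (a x) / m x) with hr
  have hr0 : ∀ x, 0 < r x := fun x => lt_min one_pos (div_pos (P.hρ _) (hm0 x))
  have hr1 : ∀ x, r x ≤ 1 := fun x => min_le_left _ _
  -- conjugates are small
  have hconj : ∀ x (g : G), nd g < r x → nd ((h x)⁻¹ * g * h x) < P.ρ (a x) := by
    intro x g hg
    have h1 := pre_nd_conj (h x)⁻¹ g
    rw [inv_inv] at h1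
    have h2 : nd g < P.ρ (a x) / m x := lt_of_lt_of_le hg (min_le_right _ _)
    rw [lt_div_iff₀ (hm0 x)] at h2
    have h3 : nrm ((h x)⁻¹).1 * nd g * nrm (h x).1 ≤ nd g * m x := by
      rw [hm]
      have := pre_nd_nonneg g
      simp only
      nlinarith
    linarith
  -- finite subcover
  obtain ⟨T, hT⟩ := isCompact_univ.elim_nhds_subcover'
    (fun x _ => {y | ∃ (g : G) (t' : ℝ), nd g < r x / 10 ∧ |t' - 0| < 1 / 2 ∧ |t'| < 1 ∧
      y = g • h x • P.c (a x) t'}) (fun x _ => by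
        have h1 := pre_opn P (a x) (h x) 0 (by simp) (r x / 10)
          (div_pos (hr0 x) (by norm_num)) (1 / 2) (by norm_num)
        rw [← hx x] at h1
        exact h1)
  -- the minimum of the radii
  obtain ⟨R, hR0, hR1, hR⟩ : ∃ R : ℝ, 0 < R ∧ R ≤ 1 ∧ ∀ x ∈ T, R ≤ r x.1 := by
    clear hT
    induction T using Finset.induction_on with
    | empty => exact ⟨1, one_pos, le_rfl, fun x hx => absurd hx (Finset.notMem_empty x)⟩
    | insert x T _ ih =>
      obtain ⟨R, h1, h2, h3⟩ := ih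
      refine ⟨min R (r x.1), lt_min h1 (hr0 _), (min_le_left _ _).trans h2, fun y hy => ?_⟩
      rcases Finset.mem_insert.1 hy with rfl | hy
      · exact min_le_right _ _
      · exact (min_le_left _ _).trans (h3 y hy)
  -- the nets
  choose N hN1 hN2 using fun x : X => pre_net (r x / 10) (R / 1000) (by positivity)
  set L : List (P.A × G) := (T.biUnion fun x => (N x.1).image fun b => (a x.1, b * h x.1)).toList
    with hL
  have hLmem : ∀ p, p ∈ L ↔ ∃ x ∈ T, ∃ b ∈ N x.1, (a x.1, b * h x.1) = p := by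
    intro p
    rw [hL, Finset.mem_toList, Finset.mem_biUnion]
    simp only [Finset.mem_image]
  have hget : ∀ i : Fin L.length, ∃ x ∈ T, ∃ b ∈ N x.1, (a x.1, b * h x.1) = L.get i :=
    fun i => (hLmem _).1 (List.get_mem L i)
  refine ⟨{
    n := L.length
    c := fun i t => (L.get i).2 • P.c (L.get i).1 t
    ρ0 := R / 10
    ρ1 := R / 1000
    hρ1 := by positivity
    hρ := by linarith
    hρ0 := by linarith
    cont := fun i t ht => (P.cont _ t ht).const_smul _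
    inj := ?_
    opn := fun i t ht ε hε => pre_opn P _ _ t ht ε hε ε hε
    cover := ?_
    trans := fun i j t0 τ0 k0 ht hτ hk => pre_trans' P _ _ _ _ t0 τ0 k0 ht hτ hk }, ?_⟩
  · intro i g g' t t' ht ht' hg hg' he
    obtain ⟨x, hxT, b, hb, hp⟩ := hget i
    rw [← hp] at he
    simp only at he
    have hbn := hN1 x.1 b hb
    have hb0 := pre_nd_nonneg b
    have hRx := hR x hxT
    have hrx := hr1 x.1
    have key : ∀ g : G, nd g < R / 10 → nd (g * b) < r x.1 := by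
      intro g hg
      refine lt_of_le_of_lt (pre_nd_mul g b) ?_
      have h1 := pre_nd_nonneg g
      have h2 : nd g * (3 + nd b) ≤ (R / 10) * 4 := by
        refine mul_le_mul hg.le (by linarith) (by linarith) (by linarith)
      linarith [hr0 x.1]
    have h1 : ((h x.1)⁻¹ * (g * b) * h x.1) • P.c (a x.1) t =
        ((h x.1)⁻¹ * (g' * b) * h x.1) • P.c (a x.1) t' := by
      have h2 : ∀ (g : G) (y : X), ((h x.1)⁻¹ * (g * b) * h x.1) • y =
          (h x.1)⁻¹ • (g • (b * h x.1) • y) := by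
        intro g y
        rw [smul_smul, smul_smul]
        congr 1
        group
      rw [h2, h2, he]
    obtain ⟨h3, h4⟩ := P.inj (a x.1) _ _ t t' ht ht' (hconj x.1 _ (key g hg))
      (hconj x.1 _ (key g' hg')) h1
    refine ⟨?_, h4⟩
    have h5 := mul_left_cancel (mul_right_cancel h3)
    exact mul_right_cancel h5
  · intro y
    have h1 := hT (Set.mem_univ y)
    simp only [Set.mem_iUnion, Set.mem_ofPred_eq, exists_prop] at h1
    obtain ⟨x, hxT, g, t', hg, ht', ht1, hy⟩ := h1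
    obtain ⟨b, hb, hgb⟩ := hN2 x.1 g hg.le
    obtain ⟨i, hi⟩ := List.get_of_mem ((hLmem (a x.1, b * h x.1)).2 ⟨x, hxT, b, hb, rfl⟩)
    refine ⟨i, g * b⁻¹, t', hgb, by simpa using ht', ?_⟩
    rw [hi]
    simp only
    rw [hy, smul_smul, smul_smul]
    congr 1
    group
  · exact fun i => ⟨(L.get i).1, (L.get i).2, fun t => rfl⟩

end Pool.Agent.H88.LF

end S_H88_LF_PRE

section S_H88_LF_AFP

/-!
# AFP: affine structure from a family
-/

set_option autoImplicit false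

open MeasureTheory Set Filter
open scoped Topology ENNReal

namespace Pool.Agent.H88.LF

variable {X : Type} [MetricSpace X] [CompactSpace X] [MulAction G X] [ContinuousSMul G X]

/-- Affine structure from a family: like `straight_of_preFB`. -/
theorem aff_of_preFB (P : PreFB X)
    (hP : ∀ a b (t0 τ0 : ℝ) (k0 : G), |t0| < 1 → |τ0| < 1 → P.c a t0 = k0 • P.c b τ0 →
      ∃ α : ℝ, ∀ᶠ t in 𝓝 t0, P.c a t = k0 • P.c b (τ0 + α * (t - t0))) :
    ∃ S : FB X, S.Aff := by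
  obtain ⟨S, hS⟩ := preFB_toFB P
  choose a h hc using hS
  refine ⟨S, fun i j t0 τ0 k0 hA => ?_⟩
  obtain ⟨ht, hτ, hk⟩ := hA
  have h1 : P.c (a i) t0 = ((h i)⁻¹ * k0 * h j) • P.c (a j) τ0 := by
    rw [mul_smul, mul_smul, ← hc j τ0, ← hk, hc i t0, inv_smul_smul]
  obtain ⟨α, hα⟩ := hP (a i) (a j) t0 τ0 _ ht hτ h1
  have h2 : ∀ᶠ t in 𝓝 t0, S.c i t = k0 • S.c j (τ0 + α * (t - t0)) := by
    filter_upwards [hα] with t e
    rw [hc i t, e, hc j, mul_smul, mul_smul, smul_inv_smul]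
  refine ⟨α, ?_, h2⟩
  rintro rfl
  have h3 : ∀ᶠ t in 𝓝 t0, |t| < 1 :=
    continuous_abs.continuousAt.eventually_lt continuousAt_const ht
  have h4 : ∀ᶠ t in 𝓝[≠] t0, S.c i t = k0 • S.c j (τ0 + 0 * (t - t0)) ∧ |t| < 1 ∧ t ≠ t0 :=
    (h2.filter_mono nhdsWithin_le_nhds).and
      ((h3.filter_mono nhdsWithin_le_nhds).and self_mem_nhdsWithin)
  obtain ⟨t, e1, e2, e3⟩ := h4.exists
  have hρ : nd (1 : G) < S.ρ0 := by
    rw [pre_nd_one]
    linarith [S.hρ, S.hρ1]
  rw [zero_mul, add_zero, ← hk] at e1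
  refine e3 (S.inj i 1 1 t t0 e2 ht hρ hρ ?_).2
  rw [e1]

end Pool.Agent.H88.LF

end S_H88_LF_AFP

section S_H88_LF_STRA

/-!
# STRA: a family with constant group components gives a straight structure

`preFB_toFB`; an arrow `h • P.c a t0 = k0 • h' • P.c b τ0` is `P.c a t0 = (h⁻¹k0h') • P.c b τ0`.  `deriv τ t0 ≠ 0` by comparison with `τf` (`FB.cont_unique`).
-/

set_option autoImplicit false

open MeasureTheory Set Filter
open scoped Topology

namespace Pool.Agent.H88.LF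

variable {X : Type} [MetricSpace X] [CompactSpace X] [MulAction G X] [ContinuousSMul G X]

/-- A family with transitions with constant group component gives a straight structure. -/
theorem straight_of_preFB (P : PreFB X)
    (hP : ∀ a b (t0 τ0 : ℝ) (k0 : G), |t0| < 1 → |τ0| < 1 → P.c a t0 = k0 • P.c b τ0 →
      ∃ τ : ℝ → ℝ, τ t0 = τ0 ∧ ContDiffAt ℝ 2 τ t0 ∧ ∀ᶠ t in 𝓝 t0, P.c a t = k0 • P.c b (τ t)) :
    ∃ S : FB X, S.Straight := by
  obtain ⟨S, hS⟩ := preFB_toFB P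
  refine ⟨S, ?_⟩
  intro i j t0 τ0 k0 h
  obtain ⟨a, g, hg⟩ := hS i
  obtain ⟨b, g', hg'⟩ := hS j
  have h1 : P.c a t0 = (g⁻¹ * k0 * g') • P.c b τ0 := by
    have h2 := h.2.2
    rw [hg, hg'] at h2
    rw [mul_smul, mul_smul, ← h2, inv_smul_smul]
  obtain ⟨τ, hτ0, hτ, he⟩ := hP a b t0 τ0 _ h.1 h.2.1 h1
  have he' : ∀ᶠ t in 𝓝 t0, S.c i t = k0 • S.c j (τ t) := by
    filter_upwards [he] with t ht
    rw [hg, hg', ht, ← mul_smul, ← mul_smul, ← mul_assoc, ← mul_assoc, mul_inv_cancel, one_mul]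
  refine ⟨τ, hτ0, hτ, ?_, he'⟩
  have h3 := S.cont_unique h (fun _ => k0) τ continuousAt_const hτ.continuousAt rfl hτ0 he'
  have h4 : τ =ᶠ[𝓝 t0] S.τf i j t0 τ0 k0 := by
    filter_upwards [h3] with t ht
    exact ht.2
  rw [h4.deriv_eq]
  exact S.dτ_ne_zero h

end Pool.Agent.H88.LF

end S_H88_LF_STRA

section S_H88_LF_TNEX

/-!
# TNEX: existence of a transverse norm (blueprint section 2)

`sq0 u = (max 0 u)^2` is `C¹`.  `bmp h τ = sq0 (ρ0²/16 - ∑ (h-1)_ab²) * sq0 (9/16 - τ²)`.  Since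
`∑ x² ≤ (∑|x|)² ≤ 9 ∑ x²`: `bmp > 0` if `nd h ≤ ρ1` (`100 ρ1 ≤ ρ0`) and `|τ| ≤ 1/2`; `bmp h τ ≠ 0` implies `nd h ≤ 3ρ0/4 < ρ0` and `|τ| < 3/4`.
`W g i t = ∑_j bmp h τ * |dτ i j t τ (g⁻¹h)|` where `(h,τ)` is the unique pair with `nd h < ρ0`, `|τ| < 1`, `g • c i t = h • c j τ` (term `0` if
there is none).
Locally near `(g0,t0)`: if there is such a pair `(h0,τ0)` for `(g0,t0)`, then with the continuation `(kf,τf)` of the arrow `g0⁻¹h0` the pair for
`(g,t)` near `(g0,t0)` is `(g kf(t), τf(t))`, so the term is `bmp (g kf t) (τf t) |τf' t|`: `C¹` in `t` with derivative jointly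
continuous.  If there is none for `(g0,t0)` then near `(g0,t0)` the term is `0` (the set of points `h • c j τ` with `∑(h-1)² ≤ ρ0²/16`,
`|τ| ≤ 3/4` is compact and contained in the open set of points of box `j`).
`rule`: for an arrow `k : (i,t) → (j',τ')` the pairs for `g • c i t = (gk) • c j' τ'` are the same, and `dτ` is multiplicative.
-/

set_option autoImplicit false

open MeasureTheory Set Filter
open scoped Topology

namespace Pool.Agent.H88.LF

variable {X : Type} [MetricSpace X] [CompactSpace X] [MulAction G X] [ContinuousSMul G X]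

private noncomputable def TNEX_Qg (h : G) : ℝ := ∑ a, ∑ b, (h.1 a b - (1 : Mat) a b) ^ 2

private noncomputable def TNEX_b (r : ℝ) (h : G) (τ : ℝ) : ℝ :=
  Real.smoothTransition (r ^ 2 / 400 - TNEX_Qg h) * Real.smoothTransition (9 / 16 - τ ^ 2)

private theorem TNEX_Qg_le (h : G) (r : ℝ) (hr : nd h ≤ r) : TNEX_Qg h ≤ 9 * r ^ 2 := by
  have h1 : ∀ a b, (h.1 a b - (1 : Mat) a b) ^ 2 ≤ r ^ 2 := by
    intro a b
    have h2 := abs_le_nrm (h.1 - 1) a b
    rw [Matrix.sub_apply] at h2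
    have h3 : |h.1 a b - (1 : Mat) a b| ≤ r := h2.trans hr
    have h4 := abs_le.1 h3
    exact sq_le_sq' h4.1 h4.2
  unfold TNEX_Qg
  calc ∑ a, ∑ b, (h.1 a b - (1 : Mat) a b) ^ 2 ≤ ∑ _a : Fin 3, ∑ _b : Fin 3, r ^ 2 :=
        Finset.sum_le_sum fun a _ => Finset.sum_le_sum fun b _ => h1 a b
    _ = 9 * r ^ 2 := by
        simp only [Finset.sum_const, Finset.card_univ, Fintype.card_fin, nsmul_eq_mul]
        push_cast
        ring

private theorem TNEX_nd_le (h : G) (r : ℝ) (hr : 0 < r) (hQ : TNEX_Qg h ≤ r ^ 2 / 400) :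
    nd h ≤ 9 * (r / 20) := by
  refine nrm_le_of_entries _ _ fun a b => ?_
  have h1 : (h.1 a b - (1 : Mat) a b) ^ 2 ≤ TNEX_Qg h := by
    unfold TNEX_Qg
    have h2 : (h.1 a b - (1 : Mat) a b) ^ 2 ≤ ∑ b, (h.1 a b - (1 : Mat) a b) ^ 2 :=
      Finset.single_le_sum (f := fun b => (h.1 a b - (1 : Mat) a b) ^ 2) (fun _ _ => sq_nonneg _)
        (Finset.mem_univ b)
    exact h2.trans (Finset.single_le_sum (f := fun a => ∑ b, (h.1 a b - (1 : Mat) a b) ^ 2)
      (fun _ _ => Finset.sum_nonneg fun _ _ => sq_nonneg _) (Finset.mem_univ a))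
  have h2 : (h.1 a b - (1 : Mat) a b) ^ 2 ≤ (r / 20) ^ 2 := by nlinarith
  rw [Matrix.sub_apply]
  exact abs_le_of_sq_le_sq h2 (by positivity)

private theorem TNEX_Qg_cont : Continuous TNEX_Qg := by
  unfold TNEX_Qg
  have h1 : Continuous (fun h : G => (h.1 : Mat)) := closedEmb_val.continuous
  refine continuous_finsetSum _ fun a _ => continuous_finsetSum _ fun b _ => ?_
  exact (((continuous_apply_apply a b).comp h1).sub continuous_const).pow 2

private theorem TNEX_b_nonneg (r : ℝ) (h : G) (τ : ℝ) : 0 ≤ TNEX_b r h τ :=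
  mul_nonneg (Real.smoothTransition.nonneg _) (Real.smoothTransition.nonneg _)

private theorem TNEX_b_pos (S : FB X) (h : G) (τ : ℝ) (hh : nd h < S.ρ1) (hτ : |τ| < 1 / 2) :
    0 < TNEX_b S.ρ0 h τ := by
  have h1 := TNEX_Qg_le h S.ρ1 hh.le
  have h2 := S.hρ
  have h3 := S.hρ1
  have h4 := abs_lt.1 hτ
  refine mul_pos (Real.smoothTransition.pos_of_pos ?_) (Real.smoothTransition.pos_of_pos ?_)
  · nlinarith [pow_le_pow_left₀ (by positivity) h2 2]
  · nlinarith

private theorem TNEX_b_ne (r : ℝ) (h : G) (τ : ℝ) (hb : TNEX_b r h τ ≠ 0) :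
    TNEX_Qg h ≤ r ^ 2 / 400 ∧ |τ| ≤ 3 / 4 := by
  have h1 := left_ne_zero_of_mul hb
  have h2 := right_ne_zero_of_mul hb
  rw [Ne, Real.smoothTransition.zero_iff_nonpos, not_le] at h1 h2
  refine ⟨by linarith, ?_⟩
  exact abs_le_of_sq_le_sq (by nlinarith) (by norm_num)

/-- `x` has a representation in box `j` -/
private def TNEX_has (S : FB X) (j : Fin S.n) (x : X) : Prop :=
  ∃ p : G × ℝ, nd p.1 < S.ρ0 ∧ |p.2| < 1 ∧ x = p.1 • S.c j p.2

open Classical in
private noncomputable def TNEX_pr (S : FB X) (j : Fin S.n) (x : X) : G × ℝ :=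
  if h : TNEX_has S j x then h.choose else (1, 0)

private theorem TNEX_pr_eq (S : FB X) (j : Fin S.n) (x : X) (h : G) (τ : ℝ) (hh : nd h < S.ρ0)
    (hτ : |τ| < 1) (hx : x = h • S.c j τ) : TNEX_pr S j x = (h, τ) := by
  have hx' : TNEX_has S j x := ⟨(h, τ), hh, hτ, hx⟩
  unfold TNEX_pr
  rw [dif_pos hx']
  obtain ⟨h1, h2, h3⟩ := hx'.choose_spec
  obtain ⟨h4, h5⟩ := S.inj j _ _ _ _ h2 hτ h1 hh (h3.symm.trans hx)
  exact Prod.ext h4 h5

open Classical in
private noncomputable def TNEX_f (S : FB X) (j : Fin S.n) (g : G) (i : Fin S.n) (t : ℝ) : ℝ :=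
  if TNEX_has S j (g • S.c i t) then
    TNEX_b S.ρ0 (TNEX_pr S j (g • S.c i t)).1 (TNEX_pr S j (g • S.c i t)).2 *
      |S.dτ i j t (TNEX_pr S j (g • S.c i t)).2 (g⁻¹ * (TNEX_pr S j (g • S.c i t)).1)|
  else 0

private theorem TNEX_f_eq (S : FB X) (j : Fin S.n) (g : G) (i : Fin S.n) (t : ℝ) (h : G) (τ : ℝ)
    (hh : nd h < S.ρ0) (hτ : |τ| < 1) (hx : g • S.c i t = h • S.c j τ) :
    TNEX_f S j g i t = TNEX_b S.ρ0 h τ * |S.dτ i j t τ (g⁻¹ * h)| := by
  unfold TNEX_f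
  rw [if_pos ⟨(h, τ), hh, hτ, hx⟩, TNEX_pr_eq S j _ h τ hh hτ hx]

private theorem TNEX_f_nonneg (S : FB X) (j : Fin S.n) (g : G) (i : Fin S.n) (t : ℝ) :
    0 ≤ TNEX_f S j g i t := by
  unfold TNEX_f
  split_ifs
  · exact mul_nonneg (TNEX_b_nonneg _ _ _) (abs_nonneg _)
  · exact le_rfl

private theorem TNEX_arr (S : FB X) {i j : Fin S.n} {t τ : ℝ} {g h : G} (ht : |t| < 1)
    (hτ : |τ| < 1) (hx : g • S.c i t = h • S.c j τ) : S.Arr i j t τ (g⁻¹ * h) := by
  refine ⟨ht, hτ, ?_⟩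
  rw [mul_smul, ← hx, inv_smul_smul]

/-- the local model of `TNEX_f` -/
private noncomputable def TNEX_Ψ (r : ℝ) (σ : ℝ) (K : ℝ → G) (T : ℝ → ℝ)
    (p : (Fin 3 → Fin 3 → ℝ) × ℝ) : ℝ :=
  Real.smoothTransition (r ^ 2 / 400 -
    ∑ a, ∑ b, ((∑ m, p.1 a m * (K p.2).1 m b) - (1 : Mat) a b) ^ 2) *
    Real.smoothTransition (9 / 16 - (T p.2) ^ 2) * (σ * deriv T p.2)

private theorem TNEX_Ψ_contDiff (r σ : ℝ) (K : ℝ → G) (T : ℝ → ℝ) (A0 : Fin 3 → Fin 3 → ℝ) (t0 : ℝ)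
    (hK : ∀ a b, ContDiffAt ℝ 2 (fun t => (K t).1 a b) t0) (hT : ContDiffAt ℝ 2 T t0) :
    ContDiffAt ℝ 1 (TNEX_Ψ r σ K T) (A0, t0) := by
  have hK' : ∀ a b, ContDiffAt ℝ 1 (fun p : (Fin 3 → Fin 3 → ℝ) × ℝ => (K p.2).1 a b) (A0, t0) := by
    intro a b
    have h1 : ContDiffAt ℝ 1 (fun t => (K t).1 a b) t0 := (hK a b).of_le (by norm_num)
    exact ContDiffAt.comp (A0, t0) h1 contDiffAt_snd
  have hA : ∀ a b, ContDiffAt ℝ 1 (fun p : (Fin 3 → Fin 3 → ℝ) × ℝ => p.1 a b) (A0, t0) := by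
    intro a b
    have h1 : ContDiff ℝ 1 (fun p : (Fin 3 → Fin 3 → ℝ) × ℝ => p.1 a b) := by fun_prop
    exact h1.contDiffAt
  have hT' : ContDiffAt ℝ 1 (fun p : (Fin 3 → Fin 3 → ℝ) × ℝ => T p.2) (A0, t0) := by
    have h1 : ContDiffAt ℝ 1 T t0 := hT.of_le (by norm_num)
    exact ContDiffAt.comp (A0, t0) h1 contDiffAt_snd
  have hdT : ContDiffAt ℝ 1 (fun p : (Fin 3 → Fin 3 → ℝ) × ℝ => deriv T p.2) (A0, t0) := by
    have h1 : ContDiffAt ℝ 1 (deriv T) t0 := by
      have h2 : ContDiffAt ℝ 1 (fderiv ℝ T) t0 := hT.fderiv_right (by norm_num)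
      have h3 : deriv T = fun t => fderiv ℝ T t 1 := by
        funext t
        exact fderiv_apply_one_eq_deriv.symm
      rw [h3]
      exact h2.clm_apply contDiffAt_const
    exact ContDiffAt.comp (A0, t0) h1 contDiffAt_snd
  unfold TNEX_Ψ
  refine ContDiffAt.mul (ContDiffAt.mul ?_ ?_) (contDiffAt_const.mul hdT)
  · refine ContDiffAt.comp (A0, t0) Real.smoothTransition.contDiffAt ?_
    refine contDiffAt_const.sub ?_
    refine ContDiffAt.sum fun a _ => ContDiffAt.sum fun b _ => ?_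
    refine ContDiffAt.pow (ContDiffAt.sub ?_ contDiffAt_const) 2
    exact ContDiffAt.sum fun m _ => (hA a m).mul (hK' m b)
  · refine ContDiffAt.comp (A0, t0) Real.smoothTransition.contDiffAt ?_
    exact contDiffAt_const.sub (hT'.pow 2)

private theorem TNEX_val_cont (g0 : G) (t0 : ℝ) :
    ContinuousAt (fun p : G × ℝ => ((p.1.1 : Fin 3 → Fin 3 → ℝ), p.2)) (g0, t0) := by
  have h1 : Continuous (fun h : G => (h.1 : Mat)) := closedEmb_val.continuous
  have h2 : Continuous (fun p : G × ℝ => ((p.1.1 : Fin 3 → Fin 3 → ℝ), p.2)) :=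
    (h1.comp continuous_fst).prodMk continuous_snd
  exact h2.continuousAt

private theorem TNEX_local (S : FB X) (i j : Fin S.n) (g0 : G) (t0 : ℝ) (ht0 : |t0| < 1) :
    ∃ Ψ : (Fin 3 → Fin 3 → ℝ) × ℝ → ℝ, ContDiffAt ℝ 1 Ψ (g0.1, t0) ∧
      ∀ᶠ p : G × ℝ in 𝓝 (g0, t0), TNEX_f S j p.1 i p.2 = Ψ (p.1.1, p.2) := by
  by_cases hcase : ∃ (h : G) (τ : ℝ), nd h < S.ρ0 ∧ |τ| < 1 ∧ g0 • S.c i t0 = h • S.c j τ
  · obtain ⟨h0, τ0, hh0, hτ0, hx0⟩ := hcase
    have harr := TNEX_arr S ht0 hτ0 hx0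
    obtain ⟨hk0, hτf0, hKs, hTs, hT0, _⟩ := S.kf_τf_spec harr
    set K := S.kf i j t0 τ0 (g0⁻¹ * h0) with hK
    set T := S.τf i j t0 τ0 (g0⁻¹ * h0) with hT
    obtain ⟨σ, hσ⟩ : ∃ σ : ℝ, ∀ᶠ t in 𝓝 t0, |deriv T t| = σ * deriv T t := by
      have hc : ContinuousAt (deriv T) t0 := by
        have h2 : ContDiffAt ℝ 1 (fderiv ℝ T) t0 := hTs.fderiv_right (by norm_num)
        have h3 : deriv T = fun t => fderiv ℝ T t 1 := by
          funext t
          exact fderiv_apply_one_eq_deriv.symm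
        rw [h3]
        exact (h2.clm_apply contDiffAt_const).continuousAt
      rcases lt_or_gt_of_ne hT0 with h | h
      · refine ⟨-1, ?_⟩
        filter_upwards [hc.eventually (gt_mem_nhds h)] with t ht
        rw [abs_of_neg ht]; ring
      · refine ⟨1, ?_⟩
        filter_upwards [hc.eventually (lt_mem_nhds h)] with t ht
        rw [abs_of_pos ht]; ring
    refine ⟨TNEX_Ψ S.ρ0 σ K T, TNEX_Ψ_contDiff _ _ _ _ _ _ hKs hTs, ?_⟩
    have e1 := S.eventually_arr harr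
    have e3 := S.eventually_dτ harr
    have ec : ContinuousAt (fun p : G × ℝ => p.1 * K p.2) (g0, t0) := by
      have hKc : ContinuousAt K t0 := S.continuousAt_kf harr
      have h2 : ContinuousAt (fun p : G × ℝ => K p.2) (g0, t0) :=
        ContinuousAt.comp (f := fun p : G × ℝ => p.2) (x := (g0, t0)) hKc continuousAt_snd
      exact continuousAt_fst.mul h2
    have e2 : ∀ᶠ p : G × ℝ in 𝓝 (g0, t0), nd (p.1 * K p.2) < S.ρ0 := by
      have h2 : ContinuousAt (fun p : G × ℝ => nd (p.1 * K p.2)) (g0, t0) :=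
        continuous_nd.continuousAt.comp ec
      refine h2.eventually (gt_mem_nhds ?_)
      show nd (g0 * K t0) < S.ρ0
      rw [hk0, mul_inv_cancel_left]
      exact hh0
    have hsnd : Tendsto (fun p : G × ℝ => p.2) (𝓝 (g0, t0)) (𝓝 t0) := continuousAt_snd
    filter_upwards [hsnd.eventually e1, hsnd.eventually e3, hsnd.eventually hσ, e2]
      with p p1 p3 pσ p2
    obtain ⟨g, t⟩ := p
    obtain ⟨q1, q2, q3⟩ := p1
    have hx : g • S.c i t = (g * K t) • S.c j (T t) := by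
      rw [mul_smul, ← q3]
    rw [TNEX_f_eq S j g i t (g * K t) (T t) p2 q2 hx, inv_mul_cancel_left]
    have h4 : S.dτ i j t (T t) (K t) = deriv T t := p3.1
    rw [h4, pσ]
    unfold TNEX_b TNEX_Ψ
    have h5 : TNEX_Qg (g * K t) =
        ∑ a, ∑ b, ((∑ m, g.1 a m * (K t).1 m b) - (1 : Mat) a b) ^ 2 := by
      unfold TNEX_Qg
      refine Finset.sum_congr rfl fun a _ => Finset.sum_congr rfl fun b _ => ?_
      have h6 : (g * K t).1 a b = ∑ m, g.1 a m * (K t).1 m b := by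
        rw [Matrix.SpecialLinearGroup.coe_mul, Matrix.mul_apply]
      rw [h6]
    rw [h5]
  · refine ⟨fun _ => 0, contDiffAt_const, ?_⟩
    have hcomp : IsCompact ({h : G | TNEX_Qg h ≤ S.ρ0 ^ 2 / 400} ×ˢ Icc (-(3 / 4) : ℝ) (3 / 4)) := by
      refine IsCompact.prod ?_ isCompact_Icc
      have hρ0 : 0 < S.ρ0 := by have h1 := S.hρ; have h2 := S.hρ1; linarith
      refine (isCompact_Bl (9 * (S.ρ0 / 20))).of_isClosed_subset
        (isClosed_le TNEX_Qg_cont continuous_const) ?_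
      intro h hh
      exact TNEX_nd_le h S.ρ0 hρ0 hh
    have hcont : ContinuousOn (fun p : G × ℝ => p.1 • S.c j p.2)
        ({h : G | TNEX_Qg h ≤ S.ρ0 ^ 2 / 400} ×ˢ Icc (-(3 / 4) : ℝ) (3 / 4)) := by
      refine (S.continuousOn_map j).mono ?_
      rintro ⟨h, τ⟩ ⟨_, hτ⟩
      have h1 := hτ.1
      have h2 := hτ.2
      show |τ| < 1
      simp only at h1 h2
      rw [abs_lt]
      constructor <;> linarith
    have hclosed := (hcomp.image_of_continuousOn hcont).isClosed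
    have hopen : IsOpen {p : G × ℝ | |p.2| < 1} := isOpen_lt (continuous_snd.abs) continuous_const
    have hca : ContinuousAt (fun p : G × ℝ => p.1 • S.c i p.2) (g0, t0) :=
      (S.continuousOn_map i).continuousAt (hopen.mem_nhds ht0)
    have hρ0 : 0 < S.ρ0 := by have h1 := S.hρ; have h2 := S.hρ1; linarith
    have hnot : g0 • S.c i t0 ∉ (fun p : G × ℝ => p.1 • S.c j p.2) ''
        ({h : G | TNEX_Qg h ≤ S.ρ0 ^ 2 / 400} ×ˢ Icc (-(3 / 4) : ℝ) (3 / 4)) := by
      rintro ⟨⟨h, τ⟩, ⟨hh, hτ⟩, hx⟩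
      refine hcase ⟨h, τ, ?_, ?_, hx.symm⟩
      · have := TNEX_nd_le h S.ρ0 hρ0 hh
        linarith
      · have h1 := hτ.1
        have h2 := hτ.2
        simp only at h1 h2
        rw [abs_lt]
        constructor <;> linarith
    filter_upwards [hca.eventually (hclosed.isOpen_compl.mem_nhds hnot)] with p hp
    by_contra hne
    have hhas : TNEX_has S j (p.1 • S.c i p.2) := by
      by_contra hn
      apply hne
      unfold TNEX_f
      rw [if_neg hn]
    obtain ⟨⟨h, τ⟩, hh, hτ, hx⟩ := hhas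
    rw [TNEX_f_eq S j p.1 i p.2 h τ hh hτ hx] at hne
    have hb := left_ne_zero_of_mul hne
    obtain ⟨hb1, hb2⟩ := TNEX_b_ne _ _ _ hb
    exact hp ⟨(h, τ), ⟨hb1, abs_le.1 hb2⟩, hx.symm⟩

private noncomputable def TNEX_W (S : FB X) (g : G) (i : Fin S.n) (t : ℝ) : ℝ := ∑ j, TNEX_f S j g i t

private theorem TNEX_key (S : FB X) (i : Fin S.n) (g0 : G) (t0 : ℝ) (ht0 : |t0| < 1) :
    ∃ Ψ : (Fin 3 → Fin 3 → ℝ) × ℝ → ℝ, ContDiffAt ℝ 1 Ψ (g0.1, t0) ∧
      ∀ᶠ p : G × ℝ in 𝓝 (g0, t0), TNEX_W S p.1 i p.2 = Ψ (p.1.1, p.2) := by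
  choose Ψ h1 h2 using fun j => TNEX_local S i j g0 t0 ht0
  refine ⟨fun p => ∑ j, Ψ j p, ContDiffAt.sum fun j _ => h1 j, ?_⟩
  filter_upwards [eventually_all.2 h2] with p hp
  exact Finset.sum_congr rfl fun j _ => hp j

private theorem TNEX_slice (A : Fin 3 → Fin 3 → ℝ) (t : ℝ) :
    HasFDerivAt (fun s : ℝ => (A, s))
      (ContinuousLinearMap.inr ℝ (Fin 3 → Fin 3 → ℝ) ℝ) t :=
  (hasFDerivAt_const A t).prodMk (hasFDerivAt_id t)

/-- `W g i` is differentiable with derivative given by the local model -/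
private theorem TNEX_der (S : FB X) (i : Fin S.n) (g : G) (t : ℝ)
    (Ψ : (Fin 3 → Fin 3 → ℝ) × ℝ → ℝ) (hΨ : DifferentiableAt ℝ Ψ (g.1, t))
    (he : ∀ᶠ p : G × ℝ in 𝓝 (g, t), TNEX_W S p.1 i p.2 = Ψ (p.1.1, p.2)) :
    HasDerivAt (TNEX_W S g i) (fderiv ℝ Ψ (g.1, t) (0, 1)) t := by
  have h1 : HasFDerivAt (fun s : ℝ => Ψ ((g.1 : Fin 3 → Fin 3 → ℝ), s))
      ((fderiv ℝ Ψ (g.1, t)).comp (ContinuousLinearMap.inr ℝ (Fin 3 → Fin 3 → ℝ) ℝ)) t :=
    HasFDerivAt.comp t hΨ.hasFDerivAt (TNEX_slice g.1 t)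
  have h2 := h1.hasDerivAt
  have h3 : (fun s => TNEX_W S g i s) =ᶠ[𝓝 t] fun s : ℝ => Ψ ((g.1 : Fin 3 → Fin 3 → ℝ), s) := by
    have hc : Tendsto (fun s : ℝ => (g, s)) (𝓝 t) (𝓝 (g, t)) := by
      have : Continuous (fun s : ℝ => (g, s)) := by fun_prop
      exact this.continuousAt
    exact hc.eventually he
  exact h2.congr_of_eventuallyEq h3

/-- TNEX -/
theorem exists_TN {X : Type} [MetricSpace X] [CompactSpace X] [MulAction G X]
    [ContinuousSMul G X] (S : FB X) : Nonempty (TN S) := by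
  refine ⟨{ W := TNEX_W S, W' := fun g i t => deriv (TNEX_W S g i) t, pos := ?_, cont := ?_,
            der := ?_, cont' := ?_, rule := ?_ }⟩
  · intro g i t ht
    obtain ⟨j, h, τ, hh, hτ, hx⟩ := S.cover (g • S.c i t)
    have hρ : S.ρ1 < S.ρ0 := by have h1 := S.hρ; have h2 := S.hρ1; linarith
    have hτ1 : |τ| < 1 := by linarith
    have harr := TNEX_arr S ht hτ1 hx
    have h1 : 0 < TNEX_f S j g i t := by
      rw [TNEX_f_eq S j g i t h τ (hh.trans hρ) hτ1 hx]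
      exact mul_pos (TNEX_b_pos S h τ hh hτ) (abs_pos.2 (S.dτ_ne_zero harr))
    exact h1.trans_le (Finset.single_le_sum (f := fun j => TNEX_f S j g i t)
      (fun j _ => TNEX_f_nonneg S j g i t) (Finset.mem_univ j))
  · rintro i ⟨g0, t0⟩ ht0
    obtain ⟨Ψ, h1, h2⟩ := TNEX_key S i g0 t0 ht0
    refine ContinuousAt.continuousWithinAt ?_
    have h3 : ContinuousAt (fun p : G × ℝ => Ψ (p.1.1, p.2)) (g0, t0) :=
      ContinuousAt.comp (f := fun p : G × ℝ => ((p.1.1 : Fin 3 → Fin 3 → ℝ), p.2)) (x := (g0, t0))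
        h1.continuousAt (TNEX_val_cont g0 t0)
    exact h3.congr_of_eventuallyEq h2
  · intro g i t ht
    obtain ⟨Ψ, h1, h2⟩ := TNEX_key S i g t ht
    have h3 := TNEX_der S i g t Ψ (h1.differentiableAt (by norm_num)) h2
    rw [h3.deriv]
    exact h3
  · rintro i ⟨g0, t0⟩ ht0
    obtain ⟨Ψ, h1, h2⟩ := TNEX_key S i g0 t0 ht0
    refine ContinuousAt.continuousWithinAt ?_
    have h4 : ContDiffAt ℝ 0 (fderiv ℝ Ψ) (g0.1, t0) := h1.fderiv_right (by norm_num)
    have h5 : ContinuousAt (fun q => fderiv ℝ Ψ q (0, 1)) ((g0.1 : Fin 3 → Fin 3 → ℝ), t0) :=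
      (h4.clm_apply contDiffAt_const).continuousAt
    have h6 : ContinuousAt (fun p : G × ℝ => fderiv ℝ Ψ ((p.1.1 : Fin 3 → Fin 3 → ℝ), p.2) (0, 1)) (g0, t0) :=
      ContinuousAt.comp (f := fun p : G × ℝ => ((p.1.1 : Fin 3 → Fin 3 → ℝ), p.2)) (x := (g0, t0))
        h5 (TNEX_val_cont g0 t0)
    refine h6.congr_of_eventuallyEq ?_
    have h7 : ∀ᶠ q in 𝓝 ((g0.1 : Fin 3 → Fin 3 → ℝ), t0), DifferentiableAt ℝ Ψ q := by
      filter_upwards [h1.eventually (by norm_num)] with q hq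
      exact hq.differentiableAt (by norm_num)
    have h8 : ∀ᶠ p : G × ℝ in 𝓝 (g0, t0), DifferentiableAt ℝ Ψ ((p.1.1 : Fin 3 → Fin 3 → ℝ), p.2) :=
      (TNEX_val_cont g0 t0).eventually h7
    filter_upwards [h8, h2.eventually_nhds] with p p8 p2
    exact (TNEX_der S i p.1 p.2 Ψ p8 p2).deriv
  · intro i j' t τ' k harr g
    unfold TNEX_W
    rw [Finset.sum_mul]
    refine Finset.sum_congr rfl fun j _ => ?_
    obtain ⟨ht, hτ', hc⟩ := harr
    have hx0 : g • S.c i t = (g * k) • S.c j' τ' := by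
      rw [hc, mul_smul]
    by_cases hhas : TNEX_has S j (g • S.c i t)
    · obtain ⟨⟨h, τ⟩, hh, hτ, hx⟩ := hhas
      have hx' : (g * k) • S.c j' τ' = h • S.c j τ := hx0.symm.trans hx
      rw [TNEX_f_eq S j g i t h τ hh hτ hx, TNEX_f_eq S j (g * k) j' τ' h τ hh hτ hx']
      have harr2 := TNEX_arr S hτ' hτ hx'
      have h1 := S.dτ_trans (⟨ht, hτ', hc⟩ : S.Arr i j' t τ' k) harr2
      have h2 : k * ((g * k)⁻¹ * h) = g⁻¹ * h := by group
      rw [h2] at h1
      rw [h1, abs_mul]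
      ring
    · have hhas' : ¬ TNEX_has S j ((g * k) • S.c j' τ') := by
        rwa [← hx0]
      unfold TNEX_f
      rw [if_neg hhas, if_neg hhas', zero_mul]

end Pool.Agent.H88.LF

end S_H88_LF_TNEX

section S_H88_LF_D1A

/-!
# D1A (blueprint 8.2, first half)

`x0 = c i t0`, `Γ` its stabiliser, `G = K0 Γ`.  For `γ ∈ Γ` we have the arrow `γ⁻¹ : (i,t0) → (i,t0)`; write `h_γ = τf i i t0 t0 γ⁻¹`, so `γ • c i t = (γ kf(t)) • c i (h_γ t)` near `t0` with
`γ kf(t0) = 1`.  `Γ⁺ = {γ : dτ > 0}` has index at most two: `G = K1 Γ⁺`, `K1` compact with `1 ∈ K1`.  `K = Bl e * K1` (`e > 0`), `F0 = Γ⁺ ∩ K1⁻¹K`, finite (discreteness, `ulf`), add inverses.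
If `t` is near `t0` and `h_γ t = t` for all `γ ∈ F0` then `Y = K • c i t` is stable under a small ball `Bl e'`: `k = k1 γ`, `b k c i t = b k1 (γ kf(t)) c i t` and `b k1 (γ kf(t)) ∈ K` for `t` near
`t0`, uniformly in `k1 ∈ K1` (`k1 η k1⁻¹` is small).  `eq_univ_of_Bl_mul` for `{g : g • c i t ∈ K • c i t}`.
In the statement the arrow is indexed by `γ` itself (replace `γ` by `γ⁻¹`; `F` is symmetric).
-/

set_option autoImplicit false

open MeasureTheory Set Filter
open scoped Topology Pointwise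

namespace Pool.Agent.H88.LF

variable {X : Type} [MetricSpace X] [CompactSpace X] [MulAction G X] [ContinuousSMul G X]

/-- Stabilisers meet compact sets in finite sets. -/
theorem d1a_finite (S : FB X) (x : X) (Q : Set G) (hQ : IsCompact Q) :
    Set.Finite {γ : G | γ ∈ Q ∧ γ • x = x} := by
  obtain ⟨ρ, hρ, hulf⟩ := S.ulf
  have hr : 0 < min (ρ / 6) (1 / 2) := lt_min (by linarith) (by norm_num)
  obtain ⟨F, -, hF⟩ := exists_finite_cover hQ hr
  have hsub : {γ : G | γ ∈ Q ∧ γ • x = x} ⊆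
      ⋃ f ∈ F, {γ : G | γ • x = x ∧ γ * f⁻¹ ∈ Bl (min (ρ / 6) (1 / 2))} := by
    rintro γ ⟨hγ, h1⟩
    obtain ⟨f, hf, h2⟩ := hF γ hγ
    simp only [mem_iUnion]
    exact ⟨f, hf, h1, h2⟩
  refine Set.Finite.subset (F.finite_toSet.biUnion (fun f _ => ?_)) hsub
  refine Set.Subsingleton.finite ?_
  rintro γ ⟨h1, h2⟩ γ' ⟨h1', h2'⟩
  have h3 : nd (γ * f⁻¹) ≤ min (ρ / 6) (1 / 2) := h2
  have h3' : nd (γ' * f⁻¹) ≤ min (ρ / 6) (1 / 2) := h2'
  have h4 : nd (γ * f⁻¹) ≤ ρ / 6 := h3.trans (min_le_left _ _)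
  have h4' : nd (γ' * f⁻¹) ≤ ρ / 6 := h3'.trans (min_le_left _ _)
  have h5' : nd (γ' * f⁻¹) ≤ 1 / 2 := h3'.trans (min_le_right _ _)
  have h6 : nd (γ' * f⁻¹)⁻¹ ≤ 2 * nd (γ' * f⁻¹) := nd_inv_le_of_small _ h5'
  have h7 : nrm ((γ' * f⁻¹)⁻¹).1 ≤ 3 + nd (γ' * f⁻¹)⁻¹ := nrm_le_nd _
  have h8 : nd ((γ * f⁻¹) * (γ' * f⁻¹)⁻¹) ≤
      nd (γ * f⁻¹) * nrm ((γ' * f⁻¹)⁻¹).1 + nd (γ' * f⁻¹)⁻¹ := nd_mul_le _ _
  have h9 : nd (γ * f⁻¹) * nrm ((γ' * f⁻¹)⁻¹).1 ≤ ρ / 6 * 4 :=
    mul_le_mul h4 (by linarith) (nrm_nonneg _) (by linarith)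
  have h10 : (γ * f⁻¹) * (γ' * f⁻¹)⁻¹ = γ * γ'⁻¹ := by group
  rw [h10] at h8
  have h11 : (γ * γ'⁻¹) • x = x := by
    rw [mul_smul, inv_smul_eq_iff.2 h1'.symm, h1]
  have h12 := hulf x (γ * γ'⁻¹) (by linarith) h11
  exact mul_inv_eq_one.1 h12

theorem d1a_K1 (S : FB X) (i : Fin S.n) (t0 : ℝ) (ht0 : |t0| < 1) (hCO : CO (S.c i t0)) :
    ∃ K1 : Set G, IsCompact K1 ∧ (1 : G) ∈ K1 ∧
      ∀ g : G, ∃ k ∈ K1, S.Arr i i t0 t0 (k⁻¹ * g) ∧ 0 < S.dτ i i t0 t0 (k⁻¹ * g) := by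
  obtain ⟨K0, hK0, hK0x⟩ := hCO
  have hArr : ∀ γ : G, γ • S.c i t0 = S.c i t0 → S.Arr i i t0 t0 γ :=
    fun γ h => ⟨ht0, ht0, h.symm⟩
  by_cases hneg : ∃ γ : G, S.Arr i i t0 t0 γ ∧ S.dτ i i t0 t0 γ < 0
  · obtain ⟨γm, hm1, hm2⟩ := hneg
    refine ⟨insert 1 (K0 ∪ (fun k => k * γm) '' K0),
      (hK0.union (hK0.image (continuous_mul_const _))).insert 1, Set.mem_insert _ _, ?_⟩
    intro g
    obtain ⟨k, hk, hkg⟩ := hK0x g
    have h1 : (k⁻¹ * g) • S.c i t0 = S.c i t0 := by rw [mul_smul, hkg, inv_smul_smul]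
    rcases lt_or_gt_of_ne (S.dτ_ne_zero (hArr _ h1)) with h2 | h2
    · have h3 : (k * γm)⁻¹ * g = γm⁻¹ * (k⁻¹ * g) := by group
      refine ⟨k * γm, Or.inr (Or.inr ⟨k, hk, rfl⟩), ?_, ?_⟩
      · rw [h3]
        exact S.arr_trans (S.arr_symm hm1) (hArr _ h1)
      · rw [h3, S.dτ_trans (S.arr_symm hm1) (hArr _ h1), S.dτ_symm hm1]
        exact mul_pos_of_neg_of_neg (inv_lt_zero.2 hm2) h2
    · exact ⟨k, Or.inr (Or.inl hk), hArr _ h1, h2⟩
  · push Not at hneg
    refine ⟨insert 1 K0, hK0.insert 1, Set.mem_insert _ _, ?_⟩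
    intro g
    obtain ⟨k, hk, hkg⟩ := hK0x g
    have h1 : (k⁻¹ * g) • S.c i t0 = S.c i t0 := by rw [mul_smul, hkg, inv_smul_smul]
    exact ⟨k, Or.inr hk, hArr _ h1,
      lt_of_le_of_ne (hneg _ (hArr _ h1)) (S.dτ_ne_zero (hArr _ h1)).symm⟩

theorem d1a (S : FB X) (i : Fin S.n) (t0 : ℝ) (ht0 : |t0| < 1) (hCO : CO (S.c i t0)) :
    ∃ F : Finset G, (∀ γ ∈ F, S.Arr i i t0 t0 γ ∧ 0 < S.dτ i i t0 t0 γ ∧ γ⁻¹ ∈ F) ∧
      ∃ K : Set G, IsCompact K ∧ ∃ δ > 0, ∀ t, |t - t0| < δ →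
        (∀ γ ∈ F, S.τf i i t0 t0 γ t = t) → ∀ g : G, ∃ k ∈ K, g • S.c i t = k • S.c i t := by
  classical
  obtain ⟨K1, hK1c, hK1one, hK1⟩ := d1a_K1 S i t0 ht0 hCO
  have hKc : IsCompact (Bl 1 * K1) := (isCompact_Bl 1).mul hK1c
  have hQc : IsCompact (K1⁻¹ * (Bl 1 * K1)) := hK1c.inv.mul hKc
  have hfin0 := d1a_finite S (S.c i t0) (K1⁻¹ * (Bl 1 * K1)) hQc
  have hfin : Set.Finite {γ : G | γ ∈ K1⁻¹ * (Bl 1 * K1) ∧ S.Arr i i t0 t0 γ ∧
      0 < S.dτ i i t0 t0 γ} := by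
    refine hfin0.subset ?_
    rintro γ ⟨h1, h2, -⟩
    exact ⟨h1, h2.2.2.symm⟩
  set F0 : Finset G := hfin.toFinset with hF0
  have hF0m : ∀ γ : G, γ ∈ F0 ↔ γ ∈ K1⁻¹ * (Bl 1 * K1) ∧ S.Arr i i t0 t0 γ ∧
      0 < S.dτ i i t0 t0 γ := fun γ => hfin.mem_toFinset
  refine ⟨F0 ∪ F0.image (fun γ => γ⁻¹), ?_, Bl 1 * K1, hKc, ?_⟩
  · intro γ hγ
    rw [Finset.mem_union, Finset.mem_image] at hγ
    rcases hγ with hγ | ⟨γ', hγ', rfl⟩
    · obtain ⟨h1, h2, h3⟩ := (hF0m γ).1 hγ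
      refine ⟨h2, h3, ?_⟩
      rw [Finset.mem_union, Finset.mem_image]
      exact Or.inr ⟨γ, hγ, rfl⟩
    · obtain ⟨h1, h2, h3⟩ := (hF0m γ').1 hγ'
      refine ⟨S.arr_symm h2, ?_, ?_⟩
      · rw [S.dτ_symm h2]
        exact inv_pos.2 h3
      · rw [inv_inv, Finset.mem_union]
        exact Or.inl hγ'
  · obtain ⟨C, hC1, hC⟩ := exists_bound_of_isCompact hK1c
    have hC0 : 0 < C := lt_of_lt_of_le one_pos hC1
    -- the elements `γ kf_{γ⁻¹}(t)` are small
    have hη : ∀ᶠ t in 𝓝 t0, ∀ γ ∈ F0, nd (γ * S.kf i i t0 t0 γ⁻¹ t) < 1 / (8 * C ^ 2) ∧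
        S.c i t = S.kf i i t0 t0 γ⁻¹ t • S.c i (S.τf i i t0 t0 γ⁻¹ t) := by
      rw [Filter.eventually_all_finset]
      intro γ hγ
      obtain ⟨h1, h2, h3⟩ := (hF0m γ).1 hγ
      have h4 := S.arr_symm h2
      have h5 := S.kf_τf_spec h4
      have h6 : ContinuousAt (fun t => nd (γ * S.kf i i t0 t0 γ⁻¹ t)) t0 := by
        have h7 : ContinuousAt (fun t => γ * S.kf i i t0 t0 γ⁻¹ t) t0 :=
          continuousAt_const.mul (S.continuousAt_kf h4)
        exact ContinuousAt.comp (f := fun t => γ * S.kf i i t0 t0 γ⁻¹ t) (g := nd)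
          continuous_nd.continuousAt h7
      have h8 : nd (γ * S.kf i i t0 t0 γ⁻¹ t0) < 1 / (8 * C ^ 2) := by
        rw [h5.1, mul_inv_cancel, nd_one]
        positivity
      exact (h6.tendsto.eventually (gt_mem_nhds h8)).and h5.2.2.2.2.2
    obtain ⟨δ, hδ, hδ'⟩ := Metric.eventually_nhds_iff.1 hη
    refine ⟨δ, hδ, fun t ht hfix g => ?_⟩
    have hη' := hδ' (y := t) (by rw [Real.dist_eq]; exact ht)
    have huniv : {g : G | ∃ k ∈ Bl 1 * K1, g • S.c i t = k • S.c i t} = univ := by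
      refine eq_univ_of_Bl_mul (r := 1 / 8) (by norm_num) ⟨1, 1 * 1, ?_, ?_⟩ ?_
      · refine Set.mul_mem_mul ?_ hK1one
        show nd 1 ≤ 1
        rw [nd_one]
        norm_num
      · rw [mul_one]
      · rintro b hb g ⟨k, hk, hkg⟩
        have hb' : nd b ≤ 1 / 8 := hb
        obtain ⟨k1, hk1, h1, h2⟩ := hK1 k
        have h3 : k1⁻¹ * k ∈ F0 := by
          rw [hF0m]
          exact ⟨Set.mul_mem_mul (Set.inv_mem_inv.2 hk1) hk, h1, h2⟩
        obtain ⟨h4, h5⟩ := hη' _ h3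
        have h6 : S.τf i i t0 t0 (k1⁻¹ * k)⁻¹ t = t := by
          refine hfix _ ?_
          rw [Finset.mem_union, Finset.mem_image]
          exact Or.inr ⟨_, h3, rfl⟩
        rw [h6] at h5
        set γ := k1⁻¹ * k with hγ
        set κ := S.kf i i t0 t0 γ⁻¹ t with hκ
        have h7 : k = k1 * γ := by rw [hγ, mul_inv_cancel_left]
        obtain ⟨hc1, hc2⟩ := hC k1 hk1
        refine ⟨(b * (k1 * (γ * κ) * k1⁻¹)) * k1, Set.mul_mem_mul ?_ hk1, ?_⟩
        · show nd (b * (k1 * (γ * κ) * k1⁻¹)) ≤ 1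
          have h8 := nd_conj_le k1 (γ * κ)
          have h9 : nrm k1.1 * nd (γ * κ) * nrm (k1⁻¹).1 ≤ C * (1 / (8 * C ^ 2)) * C := by
            refine mul_le_mul (mul_le_mul hc1 h4.le (nd_nonneg _) hC0.le) hc2 (nrm_nonneg _) ?_
            positivity
          have h10 : C * (1 / (8 * C ^ 2)) * C = 1 / 8 := by
            field_simp
          have h11 : nd (k1 * (γ * κ) * k1⁻¹) ≤ 1 / 8 := by linarith
          have h12 := nd_mul_le b (k1 * (γ * κ) * k1⁻¹)
          have h13 := nrm_le_nd (k1 * (γ * κ) * k1⁻¹)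
          have h14 : nd b * nrm (k1 * (γ * κ) * k1⁻¹ : G).1 ≤ 1 / 8 * 4 :=
            mul_le_mul hb' (by linarith) (nrm_nonneg _) (by norm_num)
          linarith
        · have h8 : (b * (k1 * (γ * κ) * k1⁻¹)) * k1 = b * (k1 * γ) * κ := by group
          rw [h8, mul_smul (b * (k1 * γ)) κ, ← h5, mul_smul, hkg, h7, ← mul_smul]
    have := huniv.symm ▸ mem_univ g
    exact this

end Pool.Agent.H88.LF

end S_H88_LF_D1A

section S_H88_LF_RES

/-!
# RES: restriction of a flow box structure to the clopen invariant set of points without compact orbit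

`Y = {x // ¬ CO x}`, compact, action restricted (`CO_smul_iff`).  `c i ((-1,1))` is connected (`cont`), so it lies in `Y` or in the complement.  Keep the indices `i` with `c i 0 ∈ Y`
(reindex by `Fin n'`), and let the curve be `t ↦ c i t` if `|t| < 1` and `c i 0` otherwise.  All fields restrict; `cover`: a normal representation `x = h • c i t` of `x ∈ Y` has `c i t ∈ Y`.
`trans`: the functions `k, τ` of `S.trans`; the equation holds near `t0`, where `|t| < 1`, `|τ t| < 1`.  (`ContinuousAt` at `|t|<1`: the modified curve agrees near `t`.)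
-/

set_option autoImplicit false

open MeasureTheory Set Filter
open scoped Topology

namespace Pool.Agent.H88.LF

variable {X : Type} [MetricSpace X] [CompactSpace X] [MulAction G X] [ContinuousSMul G X]

omit [CompactSpace X] [ContinuousSMul G X] in
theorem res_conn (S : FB X) (hclo : IsClopen {x : X | CO x}) (i : Fin S.n) {t t' : ℝ}
    (ht : |t| < 1) (ht' : |t'| < 1) (h : CO (S.c i t)) : CO (S.c i t') := by
  have h1 : ContinuousOn (S.c i) (Ioo (-1) 1) := fun s hs =>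
    (S.cont i s (abs_lt.2 hs)).continuousWithinAt
  have h2 : IsPreconnected (S.c i '' Ioo (-1) 1) := isPreconnected_Ioo.image _ h1
  have h3 := h2.subset_isClopen hclo ⟨S.c i t, ⟨t, abs_lt.1 ht, rfl⟩, h⟩
  exact h3 ⟨t', abs_lt.1 ht', rfl⟩

/-- the space of points without compact orbit -/
abbrev ResY (X : Type) [MetricSpace X] [CompactSpace X] [MulAction G X] [ContinuousSMul G X] :
    Type := {x : X // ¬ CO x}

/-- the restricted action -/
@[reducible] def resAct (X : Type) [MetricSpace X] [CompactSpace X] [MulAction G X]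
    [ContinuousSMul G X] : MulAction G (ResY X) where
  smul g y := ⟨g • y.1, fun h => y.2 ((CO_smul_iff g).1 h)⟩
  one_smul y := Subtype.ext (one_smul G y.1)
  mul_smul g h y := Subtype.ext (mul_smul g h y.1)

theorem res_smul_val (g : G) (y : ResY X) : ((resAct X).smul g y).1 = g • y.1 := rfl

open Classical in
/-- the restricted curves -/
noncomputable def resC (S : FB X) (hclo : IsClopen {x : X | CO x}) (i : Fin S.n)
    (hi : ¬ CO (S.c i 0)) (t : ℝ) : ResY X :=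
  if h : |t| < 1 then ⟨S.c i t, fun h' => hi (res_conn S hclo i h (by simp) h')⟩
  else ⟨S.c i 0, hi⟩

theorem resC_val (S : FB X) (hclo : IsClopen {x : X | CO x}) (i : Fin S.n)
    (hi : ¬ CO (S.c i 0)) {t : ℝ} (ht : |t| < 1) : (resC S hclo i hi t).1 = S.c i t := by
  unfold resC
  rw [dif_pos ht]

/-- RES -/
theorem restrict (S : FB X) (hclo : IsClopen {x : X | CO x}) (hne : ∃ x : X, ¬ CO x) :
    ∃ (Y : Type) (_ : MetricSpace Y) (_ : CompactSpace Y) (_ : MulAction G Y)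
      (_ : ContinuousSMul G Y) (_ : Nonempty Y) (_ : FB Y), ∀ y : Y, ¬ CO y := by
  classical
  let act : MulAction G (ResY X) := resAct X
  have hval : ∀ (g : G) (y : ResY X), (g • y).1 = g • y.1 := fun g y => rfl
  have hcomp : CompactSpace (ResY X) :=
    isCompact_iff_compactSpace.1 (hclo.compl.isClosed.isCompact)
  have hcs : ContinuousSMul G (ResY X) := by
    refine ⟨Continuous.subtype_mk ?_ _⟩
    exact continuous_fst.smul (continuous_subtype_val.comp continuous_snd)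
  have hnon : Nonempty (ResY X) := ⟨⟨hne.choose, hne.choose_spec⟩⟩
  let I : Type := {i : Fin S.n // ¬ CO (S.c i 0)}
  let e : Fin (Fintype.card I) ≃ I := (Fintype.equivFin I).symm
  have hlt : ∀ {t : ℝ}, |t| < 1 → ∀ᶠ s in 𝓝 t, |s| < 1 := fun {t} ht =>
    (isOpen_lt (f := fun s : ℝ => |s|) (g := fun _ => (1 : ℝ)) (by fun_prop)
      continuous_const).mem_nhds ht
  let F : FB (ResY X) :=
    { n := Fintype.card I
      c := fun j t => resC S hclo (e j).1 (e j).2 t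
      ρ0 := S.ρ0
      ρ1 := S.ρ1
      hρ1 := S.hρ1
      hρ := S.hρ
      hρ0 := S.hρ0
      cont := by
        intro j t ht
        have hi : Topology.IsInducing (Subtype.val : ResY X → X) :=
          Topology.IsInducing.subtypeVal
        rw [hi.continuousAt_iff]
        refine (S.cont (e j).1 t ht).congr ?_
        filter_upwards [hlt ht] with s hs
        exact (resC_val S hclo _ _ hs).symm
      inj := by
        intro j h h' t t' ht ht' hh hh' heq
        refine S.inj (e j).1 h h' t t' ht ht' hh hh' ?_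
        have h1 := congrArg Subtype.val heq
        rw [hval, hval, resC_val S hclo _ _ ht, resC_val S hclo _ _ ht'] at h1
        exact h1
      opn := by
        intro j t ht ε hε
        have h1 := S.opn (e j).1 t ht ε hε
        rw [← resC_val S hclo (e j).1 (e j).2 ht] at h1
        have h2 := (continuous_subtype_val.continuousAt
          (x := resC S hclo (e j).1 (e j).2 t)).preimage_mem_nhds h1
        refine Filter.mem_of_superset h2 ?_
        rintro y ⟨h, t', h3, h4, h5, h6⟩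
        refine ⟨h, t', h3, h4, h5, Subtype.ext ?_⟩
        rw [hval, resC_val S hclo _ _ h5]
        exact h6
      cover := by
        intro y
        obtain ⟨i, h, t, h1, h2, h3⟩ := S.cover y.1
        have ht : |t| < 1 := by linarith
        have hi : ¬ CO (S.c i 0) := by
          intro h4
          have h5 := res_conn S hclo i (by simp) ht h4
          refine y.2 ?_
          rw [h3]
          exact CO_smul h5 h
        refine ⟨e.symm ⟨i, hi⟩, h, t, h1, h2, Subtype.ext ?_⟩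
        rw [hval, resC_val S hclo _ _ ht, Equiv.apply_symm_apply]
        exact h3
      trans := by
        intro i j t0 τ0 k0 ht0 hτ0 heq
        have h1 := congrArg Subtype.val heq
        rw [hval, resC_val S hclo _ _ ht0, resC_val S hclo _ _ hτ0] at h1
        obtain ⟨k, τ, h2, h3, h4, h5, h6, h7⟩ := S.trans (e i).1 (e j).1 t0 τ0 k0 ht0 hτ0 h1
        refine ⟨k, τ, h2, h3, h4, h5, h6, ?_⟩
        have h8 : ∀ᶠ t in 𝓝 t0, |τ t| < 1 := by
          have h9 : ContinuousAt τ t0 := h5.continuousAt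
          have h10 : ∀ᶠ s in 𝓝 (τ t0), |s| < 1 := by
            rw [h3]
            exact hlt hτ0
          exact h9.eventually h10
        filter_upwards [h7, h8, hlt ht0] with t h9 h10 h11
        refine Subtype.ext ?_
        rw [hval, resC_val S hclo _ _ h11, resC_val S hclo _ _ h10]
        exact h9 }
  refine ⟨ResY X, inferInstance, hcomp, act, hcs, hnon, F, fun y hy => ?_⟩
  obtain ⟨K, hK, h1⟩ := hy
  refine y.2 ⟨K, hK, fun g => ?_⟩
  obtain ⟨k, hk, h2⟩ := h1 g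
  exact ⟨k, hk, congrArg Subtype.val h2⟩

end Pool.Agent.H88.LF

end S_H88_LF_RES

section S_H88_LF_LJG

/-!
# LJG (blueprint 8.1)
-/

set_option autoImplicit false

open MeasureTheory Set Filter
open scoped Topology ENNReal

namespace Pool.Agent.H88.LF

variable {X : Type} [MetricSpace X] [CompactSpace X] [MulAction G X] [ContinuousSMul G X]

/-- For a finite `G`-invariant measure `lam` on `X`: `g ↦ ∫ log J(g,y) dlam` is a homomorphism `G → ℝ`, so `0` (`hom_trivial`); `J^s = e^{s log J} ≥ 1 + s log J`. -/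
theorem lintegral_J_ge [MeasurableSpace X] [BorelSpace X] {S : FB X} (T : TN S)
    (lam : Measure X) [IsFiniteMeasure lam]
    (hinv : ∀ g : G, Measure.map (fun y => g • y) lam = lam) (g : G) (s : ℝ) (hs : 0 < s) :
    lam univ ≤ ∫⁻ y, ENNReal.ofReal (T.J g y ^ s) ∂lam := by
  have hJc : ∀ g : G, Continuous (fun y => T.J g y) := fun g =>
    T.continuous_J.comp (continuous_const.prodMk continuous_id)
  have hlc : ∀ g : G, Continuous (fun y => Real.log (T.J g y)) := fun g =>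
    (hJc g).log (fun y => (T.J_pos g y).ne')
  have hint : ∀ g : G, Integrable (fun y => Real.log (T.J g y)) lam := by
    intro g
    exact (hlc g).integrable_of_hasCompactSupport
      (HasCompactSupport.of_compactSpace _)
  have hmul : ∀ a b : G, ∫ y, Real.log (T.J (a * b) y) ∂lam =
      ∫ y, Real.log (T.J a y) ∂lam + ∫ y, Real.log (T.J b y) ∂lam := by
    intro a b
    have h1 : ∀ y, Real.log (T.J (a * b) y) = Real.log (T.J a (b • y)) + Real.log (T.J b y) := by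
      intro y
      rw [T.J_mul, Real.log_mul (T.J_pos _ _).ne' (T.J_pos _ _).ne']
    have h2 : ∫ y, Real.log (T.J a (b • y)) ∂lam = ∫ y, Real.log (T.J a y) ∂lam := by
      have h3 : ∫ y, Real.log (T.J a y) ∂(Measure.map (fun y => b • y) lam) =
          ∫ y, Real.log (T.J a (b • y)) ∂lam := by
        refine integral_map ?_ ?_
        · exact (continuous_const_smul b).measurable.aemeasurable
        · exact (hlc a).aestronglyMeasurable
      rw [← h3, hinv b]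
    have h4 : Integrable (fun y => Real.log (T.J a (b • y))) lam := by
      exact ((hlc a).comp (continuous_const_smul b)).integrable_of_hasCompactSupport
        (HasCompactSupport.of_compactSpace _)
    simp only [h1]
    rw [integral_add h4 (hint b), h2]
  let f : G →* Multiplicative ℝ :=
    { toFun := fun g => Multiplicative.ofAdd (∫ y, Real.log (T.J g y) ∂lam)
      map_one' := by
        have h5 := hmul 1 1
        rw [one_mul] at h5
        have h6 : ∫ y, Real.log (T.J 1 y) ∂lam = 0 := by linarith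
        rw [h6]
        rfl
      map_mul' := by
        intro a b
        rw [hmul a b]
        rfl }
  have hzero : ∫ y, Real.log (T.J g y) ∂lam = 0 := by
    have h7 := hom_trivial f g
    exact Multiplicative.ofAdd.injective (h7.trans ofAdd_zero.symm)
  have h8 : ∀ y, 1 + s * Real.log (T.J g y) ≤ T.J g y ^ s := by
    intro y
    rw [Real.rpow_def_of_pos (T.J_pos g y), mul_comm s]
    have := Real.add_one_le_exp (Real.log (T.J g y) * s)
    linarith
  have hint2 : Integrable (fun y => 1 + s * Real.log (T.J g y)) lam :=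
    (integrable_const 1).add ((hint g).const_mul s)
  have h9 : ∫ y, (1 + s * Real.log (T.J g y)) ∂lam = (lam univ).toReal := by
    rw [integral_add (integrable_const 1) ((hint g).const_mul s), integral_const_mul, hzero]
    simp [Measure.real]
  calc lam univ = ENNReal.ofReal ((lam univ).toReal) :=
        (ENNReal.ofReal_toReal (measure_ne_top _ _)).symm
    _ = ENNReal.ofReal (∫ y, (1 + s * Real.log (T.J g y)) ∂lam) := by rw [h9]
    _ ≤ ∫⁻ y, ENNReal.ofReal (1 + s * Real.log (T.J g y)) ∂lam := by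
        rw [integral_eq_lintegral_pos_part_sub_lintegral_neg_part hint2]
        refine (ENNReal.ofReal_le_ofReal (sub_le_self _ ENNReal.toReal_nonneg)).trans ?_
        exact ENNReal.ofReal_toReal_le
    _ ≤ ∫⁻ y, ENNReal.ofReal (T.J g y ^ s) ∂lam :=
        lintegral_mono (fun y => ENNReal.ofReal_le_ofReal (h8 y))

end Pool.Agent.H88.LF

end S_H88_LF_LJG

section S_H88_LF_RATEA

/-!
# RATEA (blueprint section 6)
-/

set_option autoImplicit false

open MeasureTheory Set Filter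
open scoped Topology ENNReal

namespace Pool.Agent.H88.LF

variable {X : Type} [MetricSpace X] [CompactSpace X] [MulAction G X] [ContinuousSMul G X]

/-- `C0` bounds the exponential growth of `J` along the diagonal group, uniformly for group elements near `1`. -/
def TN.Growth {S : FB X} (T : TN S) (C0 : ℝ) : Prop :=
  1 ≤ C0 ∧ ∀ (v : ℝ × ℝ) (g : G) (x : X), g ∈ Bl 1 →
    Real.exp (-(C0 * (‖v‖ + 1))) ≤ T.J (D v * g) x ∧ T.J (D v * g) x ≤ Real.exp (C0 * (‖v‖ + 1))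

theorem TN.exists_growth {S : FB X} (T : TN S) : ∃ C0 : ℝ, T.Growth C0 := by
  obtain ⟨C1, hC1, h1⟩ := T.J_D_bound
  obtain ⟨C2, hC2, h2⟩ := T.J_bound (isCompact_Bl 1)
  have hlog : 0 ≤ Real.log C2 := Real.log_nonneg hC2
  have hpos : (0 : ℝ) < C2 := by linarith
  refine ⟨C1 + Real.log C2, by linarith, fun v g x hg => ?_⟩
  obtain ⟨a1, a2⟩ := h1 v (g • x)
  obtain ⟨b1, b2⟩ := h2 g hg x
  have hv := norm_nonneg v
  have he : Real.exp (Real.log C2) = C2 := Real.exp_log hpos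
  rw [T.J_mul]
  have hle : C1 * (‖v‖ + 1) + Real.log C2 ≤ (C1 + Real.log C2) * (‖v‖ + 1) := by
    nlinarith
  constructor
  · calc Real.exp (-((C1 + Real.log C2) * (‖v‖ + 1)))
        ≤ Real.exp (-(C1 * (‖v‖ + 1)) + -Real.log C2) := Real.exp_le_exp.2 (by linarith)
      _ = Real.exp (-(C1 * (‖v‖ + 1))) * C2⁻¹ := by rw [Real.exp_add, Real.exp_neg (Real.log C2), he]
      _ ≤ _ := mul_le_mul a1 b1 (inv_pos.2 hpos).le (T.J_pos _ _).le
  · calc T.J (D v) (g • x) * T.J g x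
        ≤ Real.exp (C1 * (‖v‖ + 1)) * C2 := mul_le_mul a2 b2 (T.J_pos _ _).le (Real.exp_pos _).le
      _ = Real.exp (C1 * (‖v‖ + 1) + Real.log C2) := by rw [Real.exp_add, he]
      _ ≤ _ := Real.exp_le_exp.2 hle

end Pool.Agent.H88.LF

end S_H88_LF_RATEA

section S_H88_LF_MUCV

/-!
# MUCV: change of variables along one arrow

`∫_{F} W(h',τ) dh'dτ = ∫_{E} W(h kf(t);j,τf(t)) |τf'(t)| dh dt = ∫_{E} W(h;i,t) dh dt`: right invariance of Haar measure for fixed
`t` (Tonelli), one-dimensional change of variables (`lintegral_image_eq_lintegral_abs_deriv_mul`), and `rule` (`FB.eventually_arr`, `FB.eventually_dτ`).  The map is injective on `|t-t0| < ε`.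
-/

set_option autoImplicit false

open MeasureTheory Set Filter
open scoped Topology ENNReal

namespace Pool.Agent.H88.LF

variable {X : Type} [MetricSpace X] [CompactSpace X] [MulAction G X] [ContinuousSMul G X]
  [MeasurableSpace X] [BorelSpace X]

instance MUCV_polish : PolishSpace G := by
  have : PolishSpace Mat := inferInstanceAs (PolishSpace (Fin 3 → Fin 3 → ℝ))
  exact closedEmb_val.polishSpace

/-- `|t - t0| < ε` -/
theorem MUCV_meas (t0 ε : ℝ) : MeasurableSet {t : ℝ | |t - t0| < ε} :=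
  (isOpen_lt ((continuous_id.sub continuous_const).abs) continuous_const).measurableSet

omit [CompactSpace X] [ContinuousSMul G X] [MeasurableSpace X] [BorelSpace X] in
theorem MUCV_near {S : FB X} {i j : Fin S.n} {t0 τ0 : ℝ} {k0 : G}
    (h : S.Arr i j t0 τ0 k0) :
    ∃ ε > 0, (∀ t, |t - t0| < ε → S.Arr i j t (S.τf i j t0 τ0 k0 t) (S.kf i j t0 τ0 k0 t) ∧
      DifferentiableAt ℝ (S.τf i j t0 τ0 k0) t ∧ ContinuousAt (S.kf i j t0 τ0 k0) t ∧
      S.dτ i j t (S.τf i j t0 τ0 k0 t) (S.kf i j t0 τ0 k0 t) = deriv (S.τf i j t0 τ0 k0) t) ∧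
      InjOn (S.τf i j t0 τ0 k0) {t | |t - t0| < ε} := by
  have hcd : ContDiffAt ℝ 2 (S.τf i j t0 τ0 k0) t0 := (S.kf_τf_spec h).2.2.2.1
  have hd0 : deriv (S.τf i j t0 τ0 k0) t0 ≠ 0 := (S.kf_τf_spec h).2.2.2.2.1
  have hsd : HasStrictDerivAt (S.τf i j t0 τ0 k0) (deriv (S.τf i j t0 τ0 k0) t0) t0 :=
    hcd.hasStrictDerivAt (by norm_num)
  have hli := hsd.eventually_left_inverse hd0
  have hev := ((S.eventually_arr h).and ((S.eventually_contDiffAt h).and
    (S.eventually_dτ h))).and hli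
  obtain ⟨ε, hε, hball⟩ := Metric.eventually_nhds_iff.1 hev
  refine ⟨ε, hε, fun t ht => ?_, ?_⟩
  · have h1 := (hball (y := t) (by rwa [Real.dist_eq])).1
    exact ⟨h1.1, h1.2.1.2.1.differentiableAt (by norm_num), h1.2.1.2.2, h1.2.2.1⟩
  · intro t ht t' ht' hEq
    have h1 := (hball (y := t) (by rwa [Real.dist_eq])).2
    have h2 := (hball (y := t') (by rwa [Real.dist_eq])).2
    rw [← h1, ← h2, hEq]

omit [CompactSpace X] [ContinuousSMul G X] [MeasurableSpace X] [BorelSpace X] in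
theorem MUCV_meas_W {S : FB X} (T : TN S) (j : Fin S.n) :
    Measurable ({p : G × ℝ | |p.2| < 1}.indicator
      (fun p : G × ℝ => ENNReal.ofReal (T.W p.1 j p.2))) := by
  classical
  have hop : IsOpen {p : G × ℝ | |p.2| < 1} :=
    isOpen_lt (continuous_snd.abs) continuous_const
  have h1 : ContinuousOn (fun p : G × ℝ => ENNReal.ofReal (T.W p.1 j p.2)) {p | |p.2| < 1} :=
    ENNReal.continuous_ofReal.comp_continuousOn (T.cont j)
  have h2 := h1.measurable_piecewise (g := fun _ => (0 : ℝ≥0∞)) continuousOn_const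
    hop.measurableSet
  exact h2

/-- Change of variables for the continuation of one arrow: pieces `E'` of box `i` and `F'` of box `j` which correspond. -/
theorem TN.change_of_var {S : FB X} (T : TN S) {i j : Fin S.n} {t0 τ0 : ℝ} {k0 : G}
    (h : S.Arr i j t0 τ0 k0) :
    ∃ ε > 0, ∀ (E' : Set (G × ℝ)), MeasurableSet E' → (∀ p ∈ E', |p.2 - t0| < ε) →
      (MeasurableSet ((fun p : G × ℝ => (p.1 * S.kf i j t0 τ0 k0 p.2,
          S.τf i j t0 τ0 k0 p.2)) '' E')) ∧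
      ∫⁻ p in (fun p : G × ℝ => (p.1 * S.kf i j t0 τ0 k0 p.2, S.τf i j t0 τ0 k0 p.2)) '' E',
        ENNReal.ofReal (T.W p.1 j p.2) ∂(hG.prod volume) =
      ∫⁻ p in E', ENNReal.ofReal (T.W p.1 i p.2) ∂(hG.prod volume) := by
  obtain ⟨ε, hε, hgood, hinj⟩ := MUCV_near h
  refine ⟨ε, hε, fun E' hE' hEε => ?_⟩
  set kf := S.kf i j t0 τ0 k0 with hkf
  set τf := S.τf i j t0 τ0 k0 with hτf
  set Φ : G × ℝ → G × ℝ := fun p => (p.1 * kf p.2, τf p.2) with hΦ
  set I0 : Set ℝ := {t | |t - t0| < ε} with hI0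
  have hI0m : MeasurableSet I0 := MUCV_meas t0 ε
  have hτc : ContinuousOn τf I0 := fun t ht => (hgood t ht).2.1.continuousAt.continuousWithinAt
  have hΦc : ContinuousOn Φ E' := by
    intro p hp
    have h1 := hgood p.2 (hEε p hp)
    have h2 : ContinuousAt (fun p : G × ℝ => kf p.2) p :=
      ContinuousAt.comp (f := fun p : G × ℝ => p.2) h1.2.2.1 continuousAt_snd
    have h3 : ContinuousAt (fun p : G × ℝ => τf p.2) p :=
      ContinuousAt.comp (f := fun p : G × ℝ => p.2) h1.2.1.continuousAt continuousAt_snd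
    exact ((continuousAt_fst.mul h2).prodMk h3).continuousWithinAt
  have hΦi : ∀ p p' : G × ℝ, p.2 ∈ I0 → p'.2 ∈ I0 → Φ p = Φ p' → p = p' := by
    intro p p' hp hp' hEq
    have h1 : τf p.2 = τf p'.2 := congrArg Prod.snd hEq
    have h2 : p.2 = p'.2 := hinj hp hp' h1
    have h3 : p.1 * kf p.2 = p'.1 * kf p'.2 := congrArg Prod.fst hEq
    rw [h2] at h3
    exact Prod.ext (mul_right_cancel h3) h2
  have hΦinj : InjOn Φ E' := fun p hp p' hp' hEq => hΦi p p' (hEε p hp) (hEε p' hp') hEq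
  have hF : MeasurableSet (Φ '' E') := hE'.image_of_continuousOn_injOn hΦc hΦinj
  refine ⟨hF, ?_⟩
  have hJm : MeasurableSet (τf '' I0) := hI0m.image_of_continuousOn_injOn hτc hinj
  have harr : ∀ t ∈ I0, |t| < 1 ∧ |τf t| < 1 := fun t ht => ⟨(hgood t ht).1.1, (hgood t ht).1.2.1⟩
  -- measurability of the integrands
  have hm1 : Measurable ((Φ '' E').indicator
      (fun p : G × ℝ => ENNReal.ofReal (T.W p.1 j p.2))) := by
    have h1 : (Φ '' E').indicator (fun p : G × ℝ => ENNReal.ofReal (T.W p.1 j p.2))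
        = (Φ '' E').indicator ({p : G × ℝ | |p.2| < 1}.indicator
          (fun p : G × ℝ => ENNReal.ofReal (T.W p.1 j p.2))) := by
      rw [indicator_indicator]
      congr 1
      refine (inter_eq_self_of_subset_left ?_).symm
      rintro _ ⟨p, hp, rfl⟩
      exact (harr p.2 (hEε p hp)).2
    rw [h1]
    exact (MUCV_meas_W T j).indicator hF
  have hm2 : Measurable (E'.indicator
      (fun p : G × ℝ => ENNReal.ofReal (T.W p.1 i p.2))) := by
    have h1 : E'.indicator (fun p : G × ℝ => ENNReal.ofReal (T.W p.1 i p.2))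
        = E'.indicator ({p : G × ℝ | |p.2| < 1}.indicator
          (fun p : G × ℝ => ENNReal.ofReal (T.W p.1 i p.2))) := by
      rw [indicator_indicator]
      congr 1
      refine (inter_eq_self_of_subset_left ?_).symm
      intro p hp
      exact (harr p.2 (hEε p hp)).1
    rw [h1]
    exact (MUCV_meas_W T i).indicator hE'
  rw [← lintegral_indicator hF, ← lintegral_indicator hE',
    lintegral_prod_symm _ hm1.aemeasurable, lintegral_prod_symm _ hm2.aemeasurable]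
  -- the left side is concentrated on the image of the interval
  have hA : (fun τ : ℝ => ∫⁻ g, (Φ '' E').indicator
      (fun p : G × ℝ => ENNReal.ofReal (T.W p.1 j p.2)) (g, τ) ∂hG)
      = (τf '' I0).indicator (fun τ : ℝ => ∫⁻ g, (Φ '' E').indicator
      (fun p : G × ℝ => ENNReal.ofReal (T.W p.1 j p.2)) (g, τ) ∂hG) := by
    funext τ
    by_cases hτ : τ ∈ τf '' I0
    · rw [indicator_of_mem hτ]
    · rw [indicator_of_notMem hτ]
      have h1 : ∀ g : G, (Φ '' E').indicator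
          (fun p : G × ℝ => ENNReal.ofReal (T.W p.1 j p.2)) (g, τ) = 0 := by
        intro g
        refine indicator_of_notMem ?_ _
        rintro ⟨p, hp, hEq⟩
        exact hτ ⟨p.2, hEε p hp, congrArg Prod.snd hEq⟩
      simp only [h1, lintegral_zero]
  have hB : (fun t : ℝ => ∫⁻ g, E'.indicator
      (fun p : G × ℝ => ENNReal.ofReal (T.W p.1 i p.2)) (g, t) ∂hG)
      = I0.indicator (fun t : ℝ => ∫⁻ g, E'.indicator
      (fun p : G × ℝ => ENNReal.ofReal (T.W p.1 i p.2)) (g, t) ∂hG) := by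
    funext t
    by_cases ht : t ∈ I0
    · rw [indicator_of_mem ht]
    · rw [indicator_of_notMem ht]
      have h1 : ∀ g : G, E'.indicator
          (fun p : G × ℝ => ENNReal.ofReal (T.W p.1 i p.2)) (g, t) = 0 := by
        intro g
        refine indicator_of_notMem ?_ _
        intro hp
        exact ht (hEε _ hp)
      simp only [h1, lintegral_zero]
  rw [hA, hB, lintegral_indicator hJm, lintegral_indicator hI0m,
    lintegral_image_eq_lintegral_abs_deriv_mul hI0m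
      (fun t ht => (hgood t ht).2.1.hasDerivAt.hasDerivWithinAt) hinj]
  refine setLIntegral_congr_fun hI0m fun t ht => ?_
  rw [← lintegral_mul_right _ (kf t), ← lintegral_const_mul' _ _ ENNReal.ofReal_ne_top]
  refine lintegral_congr fun g => ?_
  have h1 : ((g * kf t, τf t) : G × ℝ) = Φ (g, t) := rfl
  rw [h1]
  by_cases hg : ((g, t) : G × ℝ) ∈ E'
  · rw [indicator_of_mem (mem_image_of_mem Φ hg), indicator_of_mem hg]
    have h2 := T.rule i j t (τf t) (kf t) (hgood t ht).1 g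
    rw [h2, (hgood t ht).2.2.2, mul_comm, ENNReal.ofReal_mul' (abs_nonneg _)]
  · rw [indicator_of_notMem hg, indicator_of_notMem, mul_zero]
    rintro ⟨p, hp, hEq⟩
    have h2 := hΦi p (g, t) (hEε p hp) ht hEq
    rw [h2] at hp
    exact hg hp

end Pool.Agent.H88.LF

end S_H88_LF_MUCV

section S_H88_LF_MUEX

/-!
# MUEX: the measure `μ` (blueprint section 2)

Let `core i = {h • c i t : nd h < ρ1, |t| < 1/2}` (open, cover `X`), `C_i = core i ∖ ⋃_{j<i} core j` (Borel partition),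
`E_i = {(h,t) : nd h < ρ1, |t| < 1/2, h • c i t ∈ C_i}`; the flow box map is injective on `E_i`.  Put
`μ = ∑_i map (flow box map i) ((hG × volume).withDensity (W · i ·)).restrict E_i`.
Claim: for `E` Borel in `|t| < 1` with injective flow box map `i`: `μ(image) = ∫_E W`.  Decompose the image along the `C_j`:
`image ∩ C_j = Θ_j(F_j)`, `F_j = {(h',τ) ∈ E_j : h' • c j τ ∈ Θ_i(E)}`.  On small pieces the bijection between a part of `E` and a part of `F_j` is
`(h,t) ↦ (h kf(t), τf(t))` for one arrow (`FB.near`; countably many arrows suffice by Lindelöf, make the pieces disjoint), and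
`∫_{F'} W(h';j,τ) dh'dτ = ∫_{E'} W(h kf(t);j,τf(t)) |τf'(t)| dh dt = ∫_{E'} W(h;i,t) dh dt` by right invariance of Haar measure for fixed
`t` (Tonelli), one-dimensional change of variables (`lintegral_image_eq_lintegral_abs_deriv_mul`), and `rule`.
Finiteness: `W` is bounded on the cores.
-/

set_option autoImplicit false

open MeasureTheory Set Filter
open scoped Topology ENNReal

namespace Pool.Agent.H88.LF

/-- abstract gluing of local measure preserving bijections -/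
theorem muex_abs {α β : Type*} [MeasurableSpace α] [MeasurableSpace β] (ν : Measure α)
    (ν' : Measure β) (A : ℕ → Set α) (θ : ℕ → α → β) (hA : ∀ m, MeasurableSet (A m))
    (hθ : ∀ m (E' : Set α), MeasurableSet E' → E' ⊆ A m →
      MeasurableSet (θ m '' E') ∧ ν' (θ m '' E') = ν E')
    (h1 : ∀ m l p, p ∈ A m → p ∈ A l → θ m p = θ l p)
    (h2 : ∀ m l p q, p ∈ A m → q ∈ A l → θ m p = θ l q → p = q) :
    ν' (⋃ m, θ m '' A m) = ν (⋃ m, A m) := by
  have hB : ∀ m, MeasurableSet (disjointed A m) := fun m => MeasurableSet.disjointed hA m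
  have hsub : ∀ m, disjointed A m ⊆ A m := fun m => disjointed_subset A m
  have hU : (⋃ m, A m) = ⋃ m, disjointed A m := iUnion_disjointed.symm
  have hU' : (⋃ m, θ m '' A m) = ⋃ m, θ m '' disjointed A m := by
    ext y
    simp only [mem_iUnion, mem_image]
    constructor
    · rintro ⟨m, p, hp, rfl⟩
      have hp' : p ∈ ⋃ m, disjointed A m := by
        rw [← hU]; exact mem_iUnion.mpr ⟨m, hp⟩
      obtain ⟨l, hl⟩ := mem_iUnion.mp hp'
      exact ⟨l, p, hl, h1 l m p (hsub l hl) hp⟩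
    · rintro ⟨m, p, hp, rfl⟩
      exact ⟨m, p, hsub m hp, rfl⟩
  rw [hU', hU, measure_iUnion, measure_iUnion (disjoint_disjointed A) hB]
  · exact tsum_congr fun m => (hθ m _ (hB m) (hsub m)).2
  · intro m l hml
    rw [Function.onFun, Set.disjoint_left]
    rintro _ ⟨p, hp, rfl⟩ ⟨q, hq, hqp⟩
    have := h2 l m q p (hsub l hq) (hsub m hp) hqp
    subst this
    exact Set.disjoint_left.mp (disjoint_disjointed A hml) hp hq
  · exact fun m => (hθ m _ (hB m) (hsub m)).1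

section

variable {X : Type} [TopologicalSpace X] [MulAction G X]

/-- parameters of the cores -/
def muexBox (S : FB X) : Set (G × ℝ) := {p | nd p.1 < S.ρ1 ∧ |p.2| < 1 / 2}

/-- the cores -/
def muexCore (S : FB X) (i : Fin S.n) : Set X :=
  (fun p : G × ℝ => p.1 • S.c i p.2) '' muexBox S

/-- the partition -/
def muexC (S : FB X) (i : Fin S.n) : Set X := muexCore S i \ ⋃ l : Fin S.n, ⋃ _ : l < i, muexCore S l

open Classical in
/-- measurable version of the flow box map -/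
noncomputable def muexP (S : FB X) (i : Fin S.n) : G × ℝ → X :=
  Set.piecewise {p : G × ℝ | |p.2| < 1} (fun p : G × ℝ => p.1 • S.c i p.2) (fun _ => S.c i 0)

theorem muexP_eq (S : FB X) (i : Fin S.n) {p : G × ℝ} (hp : |p.2| < 1) :
    muexP S i p = p.1 • S.c i p.2 := Set.piecewise_eq_of_mem _ _ _ hp

/-- the pieces -/
def muexE (S : FB X) (i : Fin S.n) : Set (G × ℝ) := muexBox S ∩ muexP S i ⁻¹' muexC S i

theorem muexBox_lt {S : FB X} {p : G × ℝ} (hp : p ∈ muexBox S) : |p.2| < 1 := by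
  have := hp.2
  linarith

theorem muexBox_nd {S : FB X} {p : G × ℝ} (hp : p ∈ muexBox S) : nd p.1 < S.ρ0 := by
  have := hp.1
  linarith [S.hρ, S.hρ1]

theorem muexBox_inj {S : FB X} {i : Fin S.n} {p q : G × ℝ} (hp : p ∈ muexBox S)
    (hq : q ∈ muexBox S) (h : p.1 • S.c i p.2 = q.1 • S.c i q.2) : p = q := by
  obtain ⟨h1, h2⟩ := S.inj i p.1 q.1 p.2 q.2 (muexBox_lt hp) (muexBox_lt hq) (muexBox_nd hp)
    (muexBox_nd hq) h
  exact Prod.ext h1 h2

theorem muexC_exists (S : FB X) (x : X) : ∃ i, x ∈ muexC S i := by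
  have hne : {i : Fin S.n | x ∈ muexCore S i}.Nonempty := by
    obtain ⟨i, h, t, h1, h2, h3⟩ := S.cover x
    exact ⟨i, (h, t), ⟨h1, h2⟩, h3.symm⟩
  obtain ⟨i, hi, hmin⟩ := (wellFounded_lt (α := Fin S.n)).has_min _ hne
  refine ⟨i, hi, ?_⟩
  simp only [mem_iUnion, not_exists]
  intro l hl hx
  exact hmin l hx hl

theorem muexC_disj (S : FB X) {i j : Fin S.n} (hij : i ≠ j) : Disjoint (muexC S i) (muexC S j) := by
  rw [Set.disjoint_left]
  intro x hi hj
  rcases lt_or_gt_of_ne hij with h | h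
  · exact hj.2 (mem_iUnion.mpr ⟨i, mem_iUnion.mpr ⟨h, hi.1⟩⟩)
  · exact hi.2 (mem_iUnion.mpr ⟨j, mem_iUnion.mpr ⟨h, hj.1⟩⟩)

end

variable {X : Type} [MetricSpace X] [CompactSpace X] [MulAction G X] [ContinuousSMul G X]
  [MeasurableSpace X] [BorelSpace X]

theorem muexBox_open (S : FB X) : IsOpen (muexBox S) := by
  have h1 : IsOpen {p : G × ℝ | nd p.1 < S.ρ1} :=
    isOpen_lt (continuous_nd.comp continuous_fst) continuous_const
  have h2 : IsOpen {p : G × ℝ | |p.2| < 1 / 2} :=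
    isOpen_lt continuous_snd.abs continuous_const
  exact h1.inter h2

theorem muexCore_open (S : FB X) (i : Fin S.n) : IsOpen (muexCore S i) :=
  S.isOpen_image i _ (muexBox_open S) fun _ hp => muexBox_lt hp

theorem muexC_meas (S : FB X) (i : Fin S.n) : MeasurableSet (muexC S i) := by
  refine (muexCore_open S i).measurableSet.diff ?_
  exact MeasurableSet.iUnion fun l => MeasurableSet.iUnion fun _ =>
    (muexCore_open S l).measurableSet

theorem muexP_meas (S : FB X) (i : Fin S.n) : Measurable (muexP S i) := by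
  classical
  have h : IsOpen {p : G × ℝ | |p.2| < 1} := isOpen_lt continuous_snd.abs continuous_const
  exact ContinuousOn.measurable_piecewise (S.continuousOn_map i) continuousOn_const h.measurableSet

theorem muexE_meas (S : FB X) (i : Fin S.n) : MeasurableSet (muexE S i) :=
  (muexBox_open S).measurableSet.inter (muexP_meas S i (muexC_meas S i))

/-- the densities in the boxes -/
noncomputable def muexN {S : FB X} (T : TN S) (i : Fin S.n) : Measure (G × ℝ) :=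
  (hG.prod volume).withDensity (fun p => ENNReal.ofReal (T.W p.1 i p.2))

instance muex_polishMat : PolishSpace Mat := inferInstanceAs (PolishSpace (Fin 3 → Fin 3 → ℝ))

instance muex_polishG : PolishSpace G := closedEmb_val.polishSpace

theorem muex_image_meas (S : FB X) (i : Fin S.n) {E : Set (G × ℝ)} (hE : MeasurableSet E)
    (h1 : ∀ p ∈ E, |p.2| < 1) (hinj : InjOn (fun p : G × ℝ => p.1 • S.c i p.2) E) :
    MeasurableSet ((fun p : G × ℝ => p.1 • S.c i p.2) '' E) := by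
  have e : (fun p : G × ℝ => p.1 • S.c i p.2) '' E = muexP S i '' E :=
    image_congr fun p hp => (muexP_eq S i (h1 p hp)).symm
  rw [e]
  refine hE.image_of_measurable_injOn (muexP_meas S i) ?_
  intro p hp q hq hpq
  rw [muexP_eq S i (h1 p hp), muexP_eq S i (h1 q hq)] at hpq
  exact hinj hp hq hpq

/-- data for one arrow -/
theorem muex_arrow {S : FB X} (T : TN S) {i j : Fin S.n} {t0 τ0 : ℝ} {k0 : G}
    (h : S.Arr i j t0 τ0 k0) : ∃ ε > 0,
      (∀ (t τ : ℝ) (k : G), |t - t0| < ε → nd (k0⁻¹ * k) < ε → S.Arr i j t τ k →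
        k = S.kf i j t0 τ0 k0 t ∧ τ = S.τf i j t0 τ0 k0 t) ∧
      (∀ t, |t - t0| < ε → S.Arr i j t (S.τf i j t0 τ0 k0 t) (S.kf i j t0 τ0 k0 t) ∧
        ContinuousAt (S.kf i j t0 τ0 k0) t ∧ ContinuousAt (S.τf i j t0 τ0 k0) t) ∧
      (∀ (E' : Set (G × ℝ)), MeasurableSet E' → (∀ p ∈ E', |p.2 - t0| < ε) →
        (MeasurableSet ((fun p : G × ℝ => (p.1 * S.kf i j t0 τ0 k0 p.2,
          S.τf i j t0 τ0 k0 p.2)) '' E')) ∧
        muexN T j ((fun p : G × ℝ => (p.1 * S.kf i j t0 τ0 k0 p.2, S.τf i j t0 τ0 k0 p.2)) '' E') =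
          muexN T i E') := by
  obtain ⟨ε1, hε1, h1⟩ := S.near h
  obtain ⟨ε2, hε2, h2⟩ := T.change_of_var h
  obtain ⟨ε3, hε3, h3⟩ := Metric.eventually_nhds_iff.mp
    ((S.eventually_arr h).and (S.eventually_contDiffAt h))
  refine ⟨min ε1 (min ε2 ε3), lt_min hε1 (lt_min hε2 hε3), ?_, ?_, ?_⟩
  · intro t τ k ht hk ha
    exact h1 t τ k (ht.trans_le (min_le_left _ _)) (hk.trans_le (min_le_left _ _)) ha
  · intro t ht
    have ht3 : dist t t0 < ε3 := by
      rw [Real.dist_eq]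
      exact ht.trans_le ((min_le_right _ _).trans (min_le_right _ _))
    obtain ⟨a1, a2, a3, a4⟩ := h3 ht3
    exact ⟨a1, a4, a3.continuousAt⟩
  · intro E' hE' hE'2
    obtain ⟨b1, b2⟩ := h2 E' hE' fun p hp =>
      (hE'2 p hp).trans_le ((min_le_right _ _).trans (min_le_left _ _))
    refine ⟨b1, ?_⟩
    rw [muexN, muexN, withDensity_apply _ b1, withDensity_apply _ hE', b2]

theorem muex_key {S : FB X} (T : TN S) (i j : Fin S.n) {E : Set (G × ℝ)} (hE : MeasurableSet E)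
    (h1 : ∀ p ∈ E, |p.2| < 1) (hinj : InjOn (fun p : G × ℝ => p.1 • S.c i p.2) E) :
    muexN T j (muexP S j ⁻¹' ((fun p : G × ℝ => p.1 • S.c i p.2) '' E) ∩ muexE S j) =
      muexN T i (E ∩ muexP S i ⁻¹' muexC S j) := by
  classical
  -- the type of arrows
  let ι := {a : ℝ × ℝ × G // S.Arr i j a.1 a.2.1 a.2.2}
  choose ε hε near cont cov using fun a : ι => muex_arrow T a.2
  let θ : ι → G × ℝ → G × ℝ := fun a p =>
    (p.1 * S.kf i j a.1.1 a.1.2.1 a.1.2.2 p.2, S.τf i j a.1.1 a.1.2.1 a.1.2.2 p.2)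
  let V : ι → Set (ℝ × G) := fun a => {q | |q.1 - a.1.1| < ε a ∧ nd (a.1.2.2⁻¹ * q.2) < ε a}
  have hV : ∀ a, IsOpen (V a) := by
    intro a
    have o1 : IsOpen {q : ℝ × G | |q.1 - a.1.1| < ε a} :=
      isOpen_lt (continuous_fst.sub continuous_const).abs continuous_const
    have o2 : IsOpen {q : ℝ × G | nd (a.1.2.2⁻¹ * q.2) < ε a} :=
      isOpen_lt (continuous_nd.comp (continuous_const.mul continuous_snd)) continuous_const
    exact o1.inter o2
  obtain ⟨Tc, hTc, hTU⟩ := TopologicalSpace.isOpen_iUnion_countable V hV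
  -- the sets
  let A : ι → Set (G × ℝ) := fun a => {p | p ∈ E ∧ |p.2 - a.1.1| < ε a ∧ θ a p ∈ muexE S j}
  have hθφ : ∀ a p, |p.2 - a.1.1| < ε a → (θ a p).1 • S.c j (θ a p).2 = p.1 • S.c i p.2 := by
    intro a p hp
    have h := (cont a p.2 hp).1
    change (p.1 * S.kf i j a.1.1 a.1.2.1 a.1.2.2 p.2) • S.c j (S.τf i j a.1.1 a.1.2.1 a.1.2.2 p.2)
      = _
    rw [mul_smul, ← h.2.2]
  have hA : ∀ a, MeasurableSet (A a) := by
    intro a
    have hO : IsOpen {p : G × ℝ | |p.2 - a.1.1| < ε a} :=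
      isOpen_lt (continuous_snd.sub continuous_const).abs continuous_const
    have hc : ContinuousOn (θ a) {p : G × ℝ | |p.2 - a.1.1| < ε a} := by
      intro p hp
      obtain ⟨-, c1, c2⟩ := cont a p.2 hp
      have c1' : ContinuousAt (fun p : G × ℝ => S.kf i j a.1.1 a.1.2.1 a.1.2.2 p.2) p :=
        ContinuousAt.comp (f := fun p : G × ℝ => p.2) c1 continuous_snd.continuousAt
      have c2' : ContinuousAt (fun p : G × ℝ => S.τf i j a.1.1 a.1.2.1 a.1.2.2 p.2) p :=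
        ContinuousAt.comp (f := fun p : G × ℝ => p.2) c2 continuous_snd.continuousAt
      exact ((continuous_fst.continuousAt.mul c1').prodMk c2').continuousWithinAt
    have hm := ContinuousOn.measurable_piecewise hc
      (continuousOn_const (c := ((1 : G), (0 : ℝ)))) hO.measurableSet
    have e : A a = E ∩ ({p : G × ℝ | |p.2 - a.1.1| < ε a} ∩
        ({p : G × ℝ | |p.2 - a.1.1| < ε a}.piecewise (θ a) fun _ => ((1 : G), (0 : ℝ))) ⁻¹'
          muexE S j) := by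
      ext p
      constructor
      · rintro ⟨p1, p2, p3⟩
        refine ⟨p1, p2, ?_⟩
        rw [mem_preimage, Set.piecewise_eq_of_mem _ _ _ (by exact p2)]
        exact p3
      · rintro ⟨p1, p2, p3⟩
        rw [mem_preimage, Set.piecewise_eq_of_mem _ _ _ p2] at p3
        exact ⟨p1, p2, p3⟩
    rw [e]
    exact hE.inter (hO.measurableSet.inter (hm (muexE_meas S j)))
  have hcov : ∀ a (E' : Set (G × ℝ)), MeasurableSet E' → E' ⊆ A a →
      MeasurableSet (θ a '' E') ∧ muexN T j (θ a '' E') = muexN T i E' :=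
    fun a E' hE' hsub => cov a E' hE' fun p hp => (hsub hp).2.1
  have g1 : ∀ a b p, p ∈ A a → p ∈ A b → θ a p = θ b p := by
    intro a b p pa pb
    refine muexBox_inj (i := j) pa.2.2.1 pb.2.2.1 ?_
    rw [hθφ a p pa.2.1, hθφ b p pb.2.1]
  have g2 : ∀ a b p q, p ∈ A a → q ∈ A b → θ a p = θ b q → p = q := by
    intro a b p q pa qb h
    refine hinj pa.1 qb.1 ?_
    simp only []
    rw [← hθφ a p pa.2.1, ← hθφ b q qb.2.1, h]
  -- every pair is given by some arrow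
  have g3 : ∀ p ∈ E, ∀ q ∈ muexE S j, p.1 • S.c i p.2 = q.1 • S.c j q.2 →
      ∃ a ∈ Tc, p ∈ A a ∧ θ a p = q := by
    intro p hp q hq hpq
    have harr : S.Arr i j p.2 q.2 (p.1⁻¹ * q.1) := by
      refine ⟨h1 p hp, muexBox_lt hq.1, ?_⟩
      rw [mul_smul, ← hpq, inv_smul_smul]
    have hmem : (p.2, p.1⁻¹ * q.1) ∈ ⋃ a, V a := by
      refine mem_iUnion.mpr ⟨⟨(p.2, q.2, p.1⁻¹ * q.1), harr⟩, ?_, ?_⟩
      · simpa using hε ⟨(p.2, q.2, p.1⁻¹ * q.1), harr⟩
      · simp only [inv_mul_cancel, nd_one]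
        exact hε ⟨(p.2, q.2, p.1⁻¹ * q.1), harr⟩
    rw [← hTU] at hmem
    obtain ⟨a, ha, ha1, ha2⟩ := mem_iUnion₂.mp hmem
    obtain ⟨n1, n2⟩ := near a p.2 q.2 (p.1⁻¹ * q.1) ha1 ha2 harr
    have hθ : θ a p = q := by
      refine Prod.ext ?_ ?_
      · change p.1 * S.kf i j a.1.1 a.1.2.1 a.1.2.2 p.2 = q.1
        rw [← n1, mul_inv_cancel_left]
      · exact n2.symm
    exact ⟨a, ha, ⟨hp, ha1, by rw [hθ]; exact hq⟩, hθ⟩
  have eF : muexP S j ⁻¹' ((fun p : G × ℝ => p.1 • S.c i p.2) '' E) ∩ muexE S j =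
      ⋃ a ∈ Tc, θ a '' A a := by
    ext q
    simp only [mem_iUnion, mem_image, exists_prop]
    constructor
    · rintro ⟨⟨p, hp, hpq⟩, hq⟩
      simp only [] at hpq
      rw [muexP_eq S j (muexBox_lt hq.1)] at hpq
      obtain ⟨a, ha, hpa, hθ⟩ := g3 p hp q hq hpq
      exact ⟨a, ha, p, hpa, hθ⟩
    · rintro ⟨a, ha, p, hp, rfl⟩
      refine ⟨⟨p, hp.1, ?_⟩, hp.2.2⟩
      simp only []
      rw [muexP_eq S j (muexBox_lt hp.2.2.1), hθφ a p hp.2.1]
  have eE : E ∩ muexP S i ⁻¹' muexC S j = ⋃ a ∈ Tc, A a := by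
    ext p
    simp only [mem_iUnion, exists_prop]
    constructor
    · rintro ⟨hp, hpC⟩
      rw [mem_preimage, muexP_eq S i (h1 p hp)] at hpC
      obtain ⟨q, hq, hqp⟩ := hpC.1
      have hqE : q ∈ muexE S j := by
        refine ⟨hq, ?_⟩
        rw [mem_preimage, muexP_eq S j (muexBox_lt hq)]
        have hqp' : q.1 • S.c j q.2 = p.1 • S.c i p.2 := hqp
        rw [hqp']
        exact hpC
      obtain ⟨a, ha, hpa, -⟩ := g3 p hp q hqE hqp.symm
      exact ⟨a, ha, hpa⟩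
    · rintro ⟨a, ha, hp⟩
      refine ⟨hp.1, ?_⟩
      have h2 := hp.2.2.2
      rw [mem_preimage, muexP_eq S j (muexBox_lt hp.2.2.1), hθφ a p hp.2.1] at h2
      rw [mem_preimage, muexP_eq S i (h1 p hp.1)]
      exact h2
  rw [eF, eE]
  rcases Tc.eq_empty_or_nonempty with hemp | hne
  · simp [hemp]
  · obtain ⟨f, hf⟩ := hTc.exists_eq_range hne
    rw [hf, biUnion_range, biUnion_range]
    exact muex_abs (muexN T i) (muexN T j) (fun m => A (f m)) (fun m => θ (f m))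
      (fun m => hA _) (fun m => hcov (f m)) (fun m l => g1 (f m) (f l))
      (fun m l => g2 (f m) (f l))

theorem muex_fin {S : FB X} (T : TN S) (i : Fin S.n) : muexN T i (muexE S i) < ⊤ := by
  have hQ : IsCompact (Bl S.ρ1) := isCompact_Bl S.ρ1
  obtain ⟨C, hC, hb⟩ := T.W_bound hQ (1 / 2) (by norm_num)
  rw [muexN, withDensity_apply _ (muexE_meas S i)]
  have h1 : ∫⁻ p in muexE S i, ENNReal.ofReal (T.W p.1 i p.2) ∂(hG.prod volume) ≤
      ∫⁻ p in muexE S i, ENNReal.ofReal C ∂(hG.prod volume) := by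
    refine setLIntegral_mono measurable_const fun p hp => ?_
    exact ENNReal.ofReal_le_ofReal (hb p.1 hp.1.1.le i p.2 hp.1.2.le).2
  refine h1.trans_lt ?_
  rw [setLIntegral_const]
  refine ENNReal.mul_lt_top ENNReal.ofReal_lt_top ?_
  have h2 : muexE S i ⊆ Bl S.ρ1 ×ˢ Icc (-(1 / 2) : ℝ) (1 / 2) := by
    intro p hp
    refine ⟨hp.1.1.le, ?_⟩
    have := abs_lt.mp hp.1.2
    exact ⟨this.1.le, this.2.le⟩
  refine (measure_mono h2).trans_lt ?_
  rw [Measure.prod_prod]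
  exact ENNReal.mul_lt_top hQ.measure_lt_top (by simp)

/-- MUEX -/
theorem exists_mu {S : FB X} (T : TN S) : ∃ μ : Measure X, T.IsMu μ := by
  refine ⟨∑ i, Measure.map (muexP S i) ((muexN T i).restrict (muexE S i)), ?_, ?_⟩
  · constructor
    rw [Measure.finsetSum_apply]
    refine ENNReal.sum_lt_top.mpr fun i _ => ?_
    rw [Measure.map_apply (muexP_meas S i) MeasurableSet.univ, preimage_univ,
      Measure.restrict_apply MeasurableSet.univ, univ_inter]
    exact muex_fin T i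
  · intro i E hE h1 hinj
    have him := muex_image_meas S i hE h1 hinj
    have e1 : ∀ j, (Measure.map (muexP S j) ((muexN T j).restrict (muexE S j)))
        ((fun p : G × ℝ => p.1 • S.c i p.2) '' E) = muexN T i (E ∩ muexP S i ⁻¹' muexC S j) := by
      intro j
      rw [Measure.map_apply (muexP_meas S j) him, Measure.restrict_apply (muexP_meas S j him)]
      exact muex_key T i j hE h1 hinj
    rw [Measure.finsetSum_apply, Finset.sum_congr rfl fun j _ => e1 j]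
    have e2 : E = ⋃ j, (E ∩ muexP S i ⁻¹' muexC S j) := by
      ext p
      simp only [mem_iUnion, mem_inter_iff, mem_preimage]
      constructor
      · intro hp
        obtain ⟨j, hj⟩ := muexC_exists S (muexP S i p)
        exact ⟨j, hp, hj⟩
      · rintro ⟨j, hp, -⟩
        exact hp
    have e3 : muexN T i E = ∑ j, muexN T i (E ∩ muexP S i ⁻¹' muexC S j) := by
      conv_lhs => rw [e2]
      rw [measure_iUnion, tsum_fintype]
      · intro j l hjl
        rw [Function.onFun, Set.disjoint_left]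
        rintro p ⟨-, hp1⟩ ⟨-, hp2⟩
        exact Set.disjoint_left.mp (muexC_disj S hjl) hp1 hp2
      · exact fun j => hE.inter (muexP_meas S i (muexC_meas S j))
    rw [← e3, muexN, withDensity_apply _ hE]

end Pool.Agent.H88.LF

end S_H88_LF_MUEX

section S_H88_LF_MUQ

/-!
# MUQ: consequences of `IsMu` (blueprint section 2)

Write `Θ_i(h,t) = h • c i t` on `|t| < 1`.  `G × (-1,1)` is a countable union of Borel sets on which `Θ_i` is injective (small balls in `G` translated: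
`{h : nd(h h0⁻¹) < r}` with `r` depending on `h0`), make them disjoint; images of Borel sets under injective continuous maps are Borel
(`MeasurableSet.image_of_continuousOn_injOn` or the like, `G × ℝ` is Polish).
(a) `μ(Θ_i(E)) ≤ ∫_E W`.  (b) `∫_X f` over `Θ_i(E)`, `E` injective: `= ∫_E f(Θ_i) W`.
(c) quasi-invariance: cover `X` by countably many disjoint Borel sets `Θ_i(E)` with `Θ_i` injective on `E`;
for `f` supported in `Θ_i(E)`: `f ∘ g⁻¹` is supported in `Θ_i(gE)`, `gE = {(gh,t)}`, injective there too, and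
`∫ f(g⁻¹x) J(g⁻¹,x) dμ = ∫_{gE} f(g⁻¹h c i t) (W(g⁻¹h;i,t)/W(h;i,t)) W(h;i,t) = ∫_E f(h c i t) W(h;i,t)` by left invariance.
(d) null sets pull back: `μ(N) = 0` implies `{(h,t) : |t|<1, h • c i t ∈ N}` is null for `hG × volume` (as `W > 0`).
-/

set_option autoImplicit false

open MeasureTheory Set Filter
open scoped Topology ENNReal

namespace Pool.Agent.H88.LF

variable {X : Type} [MetricSpace X] [CompactSpace X] [MulAction G X] [ContinuousSMul G X]
  [MeasurableSpace X] [BorelSpace X]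

theorem muq_polish : PolishSpace G := by
  have : PolishSpace Mat := inferInstanceAs (PolishSpace (Fin 3 → Fin 3 → ℝ))
  exact closedEmb_val.polishSpace

theorem muq_dom : MeasurableSet {p : G × ℝ | |p.2| < 1} :=
  (isOpen_lt (continuous_abs.comp continuous_snd) continuous_const).measurableSet

/-- preimages -/
theorem muq_preimage (S : FB X) (i : Fin S.n) {E : Set (G × ℝ)} (hE : MeasurableSet E)
    (h1 : ∀ p ∈ E, |p.2| < 1) {A : Set X} (hA : MeasurableSet A) :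
    MeasurableSet (E ∩ (fun p : G × ℝ => p.1 • S.c i p.2) ⁻¹' A) := by
  classical
  have hm : Measurable ({p : G × ℝ | |p.2| < 1}.piecewise
      (fun p : G × ℝ => p.1 • S.c i p.2) (fun _ => S.c i 0)) :=
    ContinuousOn.measurable_piecewise (S.continuousOn_map i) continuousOn_const muq_dom
  have e : E ∩ (fun p : G × ℝ => p.1 • S.c i p.2) ⁻¹' A =
      E ∩ ({p : G × ℝ | |p.2| < 1}.piecewise
      (fun p : G × ℝ => p.1 • S.c i p.2) (fun _ => S.c i 0)) ⁻¹' A := by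
    ext p
    simp only [mem_inter_iff, mem_preimage]
    refine and_congr_right fun hp => ?_
    rw [Set.piecewise_eq_of_mem _ _ _ (show p ∈ {p : G × ℝ | |p.2| < 1} from h1 p hp)]
  rw [e]
  exact hE.inter (hm hA)

theorem muq_aemeas (S : FB X) (i : Fin S.n) {E : Set (G × ℝ)} (hE : MeasurableSet E)
    (h1 : ∀ p ∈ E, |p.2| < 1) :
    AEMeasurable (fun p : G × ℝ => p.1 • S.c i p.2) ((hG.prod volume).restrict E) :=
  ((S.continuousOn_map i).mono h1).aemeasurable hE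

theorem muq_aemeasW {S : FB X} (T : TN S) (i : Fin S.n) {E : Set (G × ℝ)} (hE : MeasurableSet E)
    (h1 : ∀ p ∈ E, |p.2| < 1) :
    AEMeasurable (fun p : G × ℝ => ENNReal.ofReal (T.W p.1 i p.2))
      ((hG.prod volume).restrict E) :=
  (((T.cont i).mono h1).aemeasurable hE).ennreal_ofReal

theorem TN.IsMu.lintegral_image {S : FB X} {T : TN S} {μ : Measure X} (hμ : T.IsMu μ)
    (i : Fin S.n) (E : Set (G × ℝ)) (hE : MeasurableSet E) (h1 : ∀ p ∈ E, |p.2| < 1)
    (hinj : InjOn (fun p : G × ℝ => p.1 • S.c i p.2) E) (f : X → ℝ≥0∞) (hf : Measurable f) :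
    MeasurableSet ((fun p : G × ℝ => p.1 • S.c i p.2) '' E) ∧
    ∫⁻ x in (fun p : G × ℝ => p.1 • S.c i p.2) '' E, f x ∂μ =
      ∫⁻ p in E, f (p.1 • S.c i p.2) * ENNReal.ofReal (T.W p.1 i p.2) ∂(hG.prod volume) := by
  have := muq_polish
  have hmeas : MeasurableSet ((fun p : G × ℝ => p.1 • S.c i p.2) '' E) :=
    hE.image_of_continuousOn_injOn ((S.continuousOn_map i).mono h1) hinj
  refine ⟨hmeas, ?_⟩
  have hΘ := muq_aemeas S i hE h1
  have hW := muq_aemeasW T i hE h1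
  have hΘ' : AEMeasurable (fun p : G × ℝ => p.1 • S.c i p.2) (((hG.prod volume).restrict
      E).withDensity (fun p => ENNReal.ofReal (T.W p.1 i p.2))) :=
    hΘ.mono_ac (withDensity_absolutelyContinuous _ _)
  have key : μ.restrict ((fun p : G × ℝ => p.1 • S.c i p.2) '' E) =
      Measure.map (fun p : G × ℝ => p.1 • S.c i p.2) (((hG.prod volume).restrict
      E).withDensity (fun p => ENNReal.ofReal (T.W p.1 i p.2))) := by
    ext A hA
    rw [Measure.restrict_apply hA, Measure.map_apply_of_aemeasurable hΘ' hA]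
    have hEA := muq_preimage S i hE h1 hA
    have e1 : A ∩ (fun p : G × ℝ => p.1 • S.c i p.2) '' E =
        (fun p : G × ℝ => p.1 • S.c i p.2) '' (E ∩ (fun p : G × ℝ => p.1 • S.c i p.2) ⁻¹' A) := by
      rw [image_inter_preimage, inter_comm]
    rw [e1, hμ.2 i _ hEA (fun p hp => h1 p hp.1) (hinj.mono inter_subset_left)]
    rw [← restrict_withDensity hE, Measure.restrict_apply' hE,
      inter_comm ((fun p : G × ℝ => p.1 • S.c i p.2) ⁻¹' A) E, withDensity_apply _ hEA]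
  rw [key, lintegral_map' hf.aemeasurable hΘ']
  refine (lintegral_withDensity_eq_lintegral_mul₀ hW (hf.comp_aemeasurable hΘ)).trans ?_
  refine lintegral_congr fun p => ?_
  simp only [Pi.mul_apply]
  exact mul_comm _ _

/-- countably many Borel pieces on which the flow box map is injective -/
theorem muq_pieces (S : FB X) : ∃ V : ℕ → Set (G × ℝ), (∀ k, MeasurableSet (V k)) ∧
    (∀ k, ∀ p ∈ V k, |p.2| < 1) ∧ (∀ k i, InjOn (fun p : G × ℝ => p.1 • S.c i p.2) (V k)) ∧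
    (⋃ k, V k) = {p : G × ℝ | |p.2| < 1} := by
  have hρ0 : 0 < S.ρ0 := by
    have h1 := S.hρ1
    have h2 := S.hρ
    linarith
  have hcont : ∀ g : G, Continuous fun h : G => nd (g⁻¹ * h) := fun g =>
    continuous_nd.comp (continuous_const.mul continuous_id)
  have hopen : ∀ g : G, IsOpen {h : G | nd (g⁻¹ * h) < S.ρ0} := fun g =>
    isOpen_lt (hcont g) continuous_const
  obtain ⟨s, hs, hU⟩ := TopologicalSpace.countable_cover_nhds
    (f := fun g : G => {h : G | nd (g⁻¹ * h) < S.ρ0}) (fun g => (hopen g).mem_nhds (by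
      simp only [mem_ofPred_eq, inv_mul_cancel, nd_one]; exact hρ0))
  have hne : s.Nonempty := by
    by_contra h
    rw [not_nonempty_iff_eq_empty] at h
    rw [h] at hU
    simp only [mem_empty_iff_false, iUnion_of_empty, iUnion_empty] at hU
    exact (univ_nonempty.ne_empty hU.symm).elim
  obtain ⟨γ, hγ⟩ := hs.exists_eq_range hne
  refine ⟨fun k => {p : G × ℝ | nd ((γ k)⁻¹ * p.1) < S.ρ0 ∧ |p.2| < 1}, fun k => ?_,
    fun k p hp => hp.2, fun k i p hp q hq h => ?_, ?_⟩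
  · exact (((hopen (γ k)).preimage continuous_fst).inter
      (isOpen_lt (continuous_abs.comp continuous_snd) continuous_const)).measurableSet
  · have h' : ((γ k)⁻¹ * p.1) • S.c i p.2 = ((γ k)⁻¹ * q.1) • S.c i q.2 := by
      rw [mul_smul, mul_smul]
      exact congrArg _ h
    obtain ⟨h1, h2⟩ := S.inj i _ _ _ _ hp.2 hq.2 hp.1 hq.1 h'
    exact Prod.ext (mul_left_cancel h1) h2
  · ext p
    simp only [mem_iUnion, mem_ofPred_eq]
    refine ⟨fun ⟨k, hk⟩ => hk.2, fun hp => ?_⟩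
    have : p.1 ∈ (⋃ x ∈ s, {h : G | nd (x⁻¹ * h) < S.ρ0}) := by rw [hU]; trivial
    simp only [mem_iUnion] at this
    obtain ⟨g, hg, hgp⟩ := this
    rw [hγ] at hg
    obtain ⟨k, rfl⟩ := hg
    exact ⟨k, hgp, hp⟩

theorem TN.IsMu.image_le {S : FB X} {T : TN S} {μ : Measure X} (hμ : T.IsMu μ) (i : Fin S.n)
    (E : Set (G × ℝ)) (hE : MeasurableSet E) (h1 : ∀ p ∈ E, |p.2| < 1) :
    μ ((fun p : G × ℝ => p.1 • S.c i p.2) '' E) ≤
      ∫⁻ p in E, ENNReal.ofReal (T.W p.1 i p.2) ∂(hG.prod volume) := by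
  obtain ⟨V, hVm, hV1, hVi, hVU⟩ := muq_pieces S
  have hd := disjoint_disjointed V
  have hdm := MeasurableSet.disjointed hVm
  have hEeq : E = ⋃ k, E ∩ disjointed V k := by
    rw [← inter_iUnion, iUnion_disjointed, hVU]
    exact (inter_eq_left.2 h1).symm
  have hm : ∀ k, MeasurableSet (E ∩ disjointed V k) := fun k => hE.inter (hdm k)
  have hpd : Pairwise (Function.onFun Disjoint fun k => E ∩ disjointed V k) :=
    fun a b hab => (hd hab).mono inter_subset_right inter_subset_right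
  calc μ ((fun p : G × ℝ => p.1 • S.c i p.2) '' E) =
      μ (⋃ k, (fun p : G × ℝ => p.1 • S.c i p.2) '' (E ∩ disjointed V k)) := by
        rw [← image_iUnion, ← hEeq]
    _ ≤ ∑' k, μ ((fun p : G × ℝ => p.1 • S.c i p.2) '' (E ∩ disjointed V k)) :=
        measure_iUnion_le _
    _ = ∑' k, ∫⁻ p in E ∩ disjointed V k, ENNReal.ofReal (T.W p.1 i p.2) ∂(hG.prod volume) := by
        congr 1
        funext k
        exact hμ.2 i _ (hm k) (fun p hp => h1 p hp.1)
          ((hVi k i).mono fun p hp => disjointed_subset _ _ hp.2)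
    _ = ∫⁻ p in ⋃ k, E ∩ disjointed V k, ENNReal.ofReal (T.W p.1 i p.2) ∂(hG.prod volume) :=
        (lintegral_iUnion hm hpd _).symm
    _ = _ := by rw [← hEeq]

theorem TN.IsMu.ae_pull {S : FB X} {T : TN S} {μ : Measure X} (hμ : T.IsMu μ) (i : Fin S.n)
    {p : X → Prop} (h : ∀ᵐ x ∂μ, p x) :
    ∀ᵐ q ∂(hG.prod volume), |q.2| < 1 → p ((q : G × ℝ).1 • S.c i q.2) := by
  obtain ⟨V, hVm, hV1, hVi, hVU⟩ := muq_pieces S
  obtain ⟨N, hN1, hN2, hN3⟩ := exists_measurable_superset_of_null (measure_eq_zero_iff_ae_notMem.2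
    (show ∀ᵐ x ∂μ, x ∉ {x | ¬ p x} by
      filter_upwards [h] with x hx
      simpa using hx))
  have hk : ∀ k, (hG.prod volume) (V k ∩ (fun p : G × ℝ => p.1 • S.c i p.2) ⁻¹' N) = 0 := by
    intro k
    have hm := muq_preimage S i (hVm k) (hV1 k) hN2
    have h1 := hμ.2 i _ hm (fun p hp => hV1 k p hp.1) ((hVi k i).mono inter_subset_left)
    have h0 : μ ((fun p : G × ℝ => p.1 • S.c i p.2) ''
        (V k ∩ (fun p : G × ℝ => p.1 • S.c i p.2) ⁻¹' N)) = 0 := by
      refine measure_mono_null ?_ hN3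
      rintro _ ⟨q, hq, rfl⟩
      exact hq.2
    rw [h0] at h1
    have h2 := (lintegral_eq_zero_iff' (muq_aemeasW T i hm fun p hp => hV1 k p hp.1)).1 h1.symm
    rw [Filter.EventuallyEq, ae_restrict_iff' hm] at h2
    rw [measure_eq_zero_iff_ae_notMem]
    filter_upwards [h2] with q hq hqm
    have h3 := hq hqm
    simp only [Pi.zero_apply, ENNReal.ofReal_eq_zero] at h3
    exact absurd (T.pos q.1 i q.2 (hV1 k q hqm.1)) (not_lt.2 h3)
  have hall := measure_iUnion_null hk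
  filter_upwards [measure_eq_zero_iff_ae_notMem.1 hall] with q hq hq1
  by_contra hcon
  refine hq ?_
  have : q ∈ ⋃ k, V k := by rw [hVU]; exact hq1
  obtain ⟨k, hk⟩ := mem_iUnion.1 this
  exact mem_iUnion.2 ⟨k, hk, hN1 hcon⟩

/-- a countable Borel partition of `X` into images of pieces -/
theorem muq_partition (S : FB X) [Nonempty X] :
    ∃ (ι : ℕ → Fin S.n) (E : ℕ → Set (G × ℝ)),
    (∀ k, MeasurableSet (E k)) ∧ (∀ k, ∀ p ∈ E k, |p.2| < 1) ∧
    (∀ k, InjOn (fun p : G × ℝ => p.1 • S.c (ι k) p.2) (E k)) ∧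
    (∀ k, MeasurableSet ((fun p : G × ℝ => p.1 • S.c (ι k) p.2) '' E k)) ∧
    (Pairwise (Function.onFun Disjoint fun k =>
      (fun p : G × ℝ => p.1 • S.c (ι k) p.2) '' E k)) ∧
    (⋃ k, (fun p : G × ℝ => p.1 • S.c (ι k) p.2) '' E k) = (univ : Set X) := by
  have := muq_polish
  obtain ⟨x0⟩ := (inferInstance : Nonempty X)
  obtain ⟨i0, -⟩ := S.cover x0
  obtain ⟨V, hVm, hV1, hVi, hVU⟩ := muq_pieces S
  have : Nonempty (Fin S.n × ℕ) := ⟨(i0, 0)⟩
  obtain ⟨e, he⟩ := exists_surjective_nat (Fin S.n × ℕ)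
  let Z : ℕ → Set X := fun m => (fun p : G × ℝ => p.1 • S.c (e m).1 p.2) '' V (e m).2
  have hZm : ∀ m, MeasurableSet (Z m) := fun m =>
    (hVm _).image_of_continuousOn_injOn ((S.continuousOn_map _).mono (hV1 _)) (hVi _ _)
  have hDm := MeasurableSet.disjointed hZm
  have himg : ∀ m, (fun p : G × ℝ => p.1 • S.c (e m).1 p.2) ''
      (V (e m).2 ∩ (fun p : G × ℝ => p.1 • S.c (e m).1 p.2) ⁻¹' (disjointed Z m)) =
      disjointed Z m := by
    intro m
    rw [image_inter_preimage]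
    exact inter_eq_right.2 (disjointed_subset Z m)
  refine ⟨fun m => (e m).1, fun m => V (e m).2 ∩
    (fun p : G × ℝ => p.1 • S.c (e m).1 p.2) ⁻¹' (disjointed Z m), fun m => ?_, fun m p hp => ?_,
    fun m => ?_, fun m => ?_, ?_, ?_⟩
  · exact muq_preimage S _ (hVm _) (hV1 _) (hDm m)
  · exact hV1 _ p hp.1
  · exact (hVi _ _).mono inter_subset_left
  · rw [himg]; exact hDm m
  · intro a b hab
    simp only [Function.onFun]
    rw [himg, himg]
    exact disjoint_disjointed Z hab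
  · simp only [himg]
    rw [iUnion_disjointed, eq_univ_iff_forall]
    intro x
    obtain ⟨i, h, t, -, ht, hx⟩ := S.cover x
    have : (h, t) ∈ ⋃ k, V k := by
      rw [hVU]
      show |t| < 1
      linarith
    obtain ⟨k, hk⟩ := mem_iUnion.1 this
    obtain ⟨m, hm⟩ := he (i, k)
    refine mem_iUnion.2 ⟨m, (h, t), ?_, ?_⟩
    · rw [hm]; exact hk
    · simp only [hm]; exact hx.symm

theorem TN.IsMu.qi {S : FB X} {T : TN S} {μ : Measure X} (hμ : T.IsMu μ) (g : G)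
    (f : X → ℝ≥0∞) (hf : Measurable f) :
    ∫⁻ x, f (g⁻¹ • x) * ENNReal.ofReal (T.J g⁻¹ x) ∂μ = ∫⁻ x, f x ∂μ := by
  rcases isEmpty_or_nonempty X with hX | hX
  · rw [lintegral_of_isEmpty, lintegral_of_isEmpty]
  obtain ⟨ι, E, hEm, hE1, hEi, hIm, hId, hIU⟩ := muq_partition S
  -- the translated pieces
  let φ : (G × ℝ) ≃ᵐ (G × ℝ) :=
    (MeasurableEquiv.mulLeft g⁻¹).prodCongr (MeasurableEquiv.refl ℝ)
  have hφ : ∀ p : G × ℝ, φ p = (g⁻¹ * p.1, p.2) := fun p => rfl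
  have hφp : MeasurePreserving φ (hG.prod volume) (hG.prod volume) :=
    (measurePreserving_mul_left hG g⁻¹).prod (MeasurePreserving.id volume)
  have hΘφ : ∀ (i : Fin S.n) (p : G × ℝ), (φ p).1 • S.c i (φ p).2 = g⁻¹ • (p.1 • S.c i p.2) := by
    intro i p
    rw [hφ]
    exact mul_smul _ _ _
  have hE'1 : ∀ k, ∀ p ∈ φ ⁻¹' (E k), |p.2| < 1 := fun k p hp => hE1 k (φ p) hp
  have hE'm : ∀ k, MeasurableSet (φ ⁻¹' (E k)) := fun k => φ.measurable (hEm k)
  have hE'i : ∀ k, InjOn (fun p : G × ℝ => p.1 • S.c (ι k) p.2) (φ ⁻¹' (E k)) := by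
    intro k p hp q hq h
    refine φ.injective (hEi k hp hq ?_)
    show (φ p).1 • S.c (ι k) (φ p).2 = (φ q).1 • S.c (ι k) (φ q).2
    rw [hΘφ, hΘφ]
    exact congrArg _ h
  have himg : ∀ k, (fun p : G × ℝ => p.1 • S.c (ι k) p.2) '' (φ ⁻¹' (E k)) =
      (fun x : X => g⁻¹ • x) ⁻¹' ((fun p : G × ℝ => p.1 • S.c (ι k) p.2) '' E k) := by
    intro k
    ext x
    constructor
    · rintro ⟨p, hp, rfl⟩
      exact ⟨φ p, hp, hΘφ _ _⟩
    · rintro ⟨q, hq, hqx⟩
      refine ⟨φ.symm q, ?_, ?_⟩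
      · rw [mem_preimage, φ.apply_symm_apply]; exact hq
      · have h := hΘφ (ι k) (φ.symm q)
        rw [φ.apply_symm_apply] at h
        have h2 : g⁻¹ • ((φ.symm q).1 • S.c (ι k) (φ.symm q).2) = g⁻¹ • x := h.symm.trans hqx
        exact smul_left_cancel _ h2
  have hcs : Measurable (fun x : X => g⁻¹ • x) := (continuous_const_smul g⁻¹).measurable
  have hJm : Measurable (fun x : X => ENNReal.ofReal (T.J g⁻¹ x)) :=
    ((T.continuous_J).comp (Continuous.prodMk continuous_const continuous_id)).measurable.ennreal_ofReal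
  have hF : Measurable (fun x : X => f (g⁻¹ • x) * ENNReal.ofReal (T.J g⁻¹ x)) :=
    (hf.comp hcs).mul hJm
  have hIm' : ∀ k, MeasurableSet ((fun x : X => g⁻¹ • x) ⁻¹'
      ((fun p : G × ℝ => p.1 • S.c (ι k) p.2) '' E k)) := fun k => hcs (hIm k)
  calc ∫⁻ x, f (g⁻¹ • x) * ENNReal.ofReal (T.J g⁻¹ x) ∂μ
      = ∫⁻ x in ⋃ k, (fun x : X => g⁻¹ • x) ⁻¹'
          ((fun p : G × ℝ => p.1 • S.c (ι k) p.2) '' E k),
          f (g⁻¹ • x) * ENNReal.ofReal (T.J g⁻¹ x) ∂μ := by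
        rw [← preimage_iUnion, hIU, preimage_univ, setLIntegral_univ]
    _ = ∑' k, ∫⁻ x in (fun x : X => g⁻¹ • x) ⁻¹'
          ((fun p : G × ℝ => p.1 • S.c (ι k) p.2) '' E k),
          f (g⁻¹ • x) * ENNReal.ofReal (T.J g⁻¹ x) ∂μ :=
        lintegral_iUnion hIm' (fun a b hab => (hId hab).preimage _) _
    _ = ∑' k, ∫⁻ x in (fun p : G × ℝ => p.1 • S.c (ι k) p.2) '' E k, f x ∂μ := by
        congr 1
        funext k
        rw [← himg, (hμ.lintegral_image (ι k) _ (hE'm k) (hE'1 k) (hE'i k) _ hF).2,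
          (hμ.lintegral_image (ι k) _ (hEm k) (hE1 k) (hEi k) _ hf).2]
        rw [← hφp.setLIntegral_comp_preimage_emb φ.measurableEmbedding
          (fun p => f (p.1 • S.c (ι k) p.2) * ENNReal.ofReal (T.W p.1 (ι k) p.2)) (E k)]
        refine setLIntegral_congr_fun (hE'm k) fun p hp => ?_
        have hp1 : |p.2| < 1 := hE'1 k p hp
        show f (g⁻¹ • p.1 • S.c (ι k) p.2) * ENNReal.ofReal (T.J g⁻¹ (p.1 • S.c (ι k) p.2)) *
          ENNReal.ofReal (T.W p.1 (ι k) p.2) =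
          f ((φ p).1 • S.c (ι k) (φ p).2) * ENNReal.ofReal (T.W (φ p).1 (ι k) (φ p).2)
        rw [hΘφ, mul_assoc, ← ENNReal.ofReal_mul (T.J_pos _ _).le, hφ,
          T.W_mul g⁻¹ p.1 (ι k) p.2 hp1]
    _ = ∫⁻ x in ⋃ k, (fun p : G × ℝ => p.1 • S.c (ι k) p.2) '' E k, f x ∂μ :=
        (lintegral_iUnion hIm hId _).symm
    _ = ∫⁻ x, f x ∂μ := by rw [hIU, setLIntegral_univ]

/-- The Koopman data of a flow box structure. -/
noncomputable def TN.IsMu.kd {S : FB X} {T : TN S} {μ : Measure X} (hμ : T.IsMu μ) : KD X μ where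
  J := T.J
  pos := T.J_pos
  cont := T.continuous_J
  coc := T.J_mul
  qi := hμ.qi

end Pool.Agent.H88.LF

end S_H88_LF_MUQ

section S_H88_LF_CONV

/-!
# CONV (blueprint 9.1): convergence at infinity in the plane

`conv_diag`: connect any `v` with `M = ‖v‖` to `(M,M)` by at most two axis-parallel segments which stay at distance `≥ M` from `0` (if `|v.1| ≥ |v.2|` move `v.2` to `|v.1|`, then `v.1` to `|v.1|`; otherwise
first move `v.1` to `|v.2|`, then `v.2` to `|v.2|`): at most `4M+2` steps of length `≤ 1`, each increment `≤ C e^{-εM}`; then along the ray `(M+m,M+m)`.  `L = lim F(m,m)`.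
`conv_off`: `λ(v) = cmp v a - cmp v b`, `e` with `cmp e a = 1`, `cmp e b = -1` (`‖e‖ = 1`, `λ(e) = 2`).  Along `v + m e`: increments `≤ C e^{-ε(‖v‖-m) - λ(v) - 2m}`, summable, sum
`≤ C' e^{-ε‖v‖-λ(v)}`.  The limit does not depend on `v`: `|F(v+me) - F(me)| ≤ (‖v‖+1) C e^{-(2m - 4‖v‖ - 4)} → 0`.
-/

set_option autoImplicit false

open Set Filter
open scoped Topology

namespace Pool.Agent.H88.LF

theorem conv_path (F : ℝ × ℝ → ℝ) (v d : ℝ × ℝ) (hd : ‖d‖ ≤ 1) (β : ℝ) (hβ : 0 ≤ β) (t : ℝ)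
    (ht : 0 ≤ t) (h : ∀ s : ℝ, 0 ≤ s → s ≤ t → ∀ w : ℝ × ℝ, ‖w‖ ≤ 1 →
      |F (v + s • d + w) - F (v + s • d)| ≤ β) :
    |F (v + t • d) - F v| ≤ (t + 1) * β := by
  have key : ∀ n : ℕ, (n : ℝ) ≤ t → |F (v + (n : ℝ) • d) - F v| ≤ n * β := by
    intro n
    induction n with
    | zero => intro _; simp
    | succ n ih =>
      intro hn
      push_cast at hn ⊢
      have h1 := ih (by linarith)
      have h2 := h n (Nat.cast_nonneg n) (by linarith) d hd
      have h3 : v + (n : ℝ) • d + d = v + ((n : ℝ) + 1) • d := by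
        rw [add_smul, one_smul, add_assoc]
      rw [h3] at h2
      calc |F (v + ((n : ℝ) + 1) • d) - F v|
          ≤ |F (v + ((n : ℝ) + 1) • d) - F (v + (n : ℝ) • d)| + |F (v + (n : ℝ) • d) - F v| :=
            abs_sub_le _ _ _
        _ ≤ β + n * β := add_le_add h2 h1
        _ = (n + 1) * β := by ring
  have h1 : ((⌊t⌋₊ : ℕ) : ℝ) ≤ t := Nat.floor_le ht
  have h2 : t < ((⌊t⌋₊ : ℕ) : ℝ) + 1 := Nat.lt_floor_add_one t
  set n := ⌊t⌋₊ with hn
  have h3 := key n h1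
  have h4 := h n (Nat.cast_nonneg n) h1 ((t - n) • d) (by
    rw [norm_smul, Real.norm_eq_abs, abs_of_nonneg (by linarith)]
    nlinarith [norm_nonneg d])
  have h5 : v + (n : ℝ) • d + (t - n) • d = v + t • d := by
    rw [add_assoc, ← add_smul]
    congr 2
    ring
  rw [h5] at h4
  calc |F (v + t • d) - F v|
      ≤ |F (v + t • d) - F (v + (n : ℝ) • d)| + |F (v + (n : ℝ) • d) - F v| := abs_sub_le _ _ _
    _ ≤ β + n * β := add_le_add h4 h3
    _ ≤ (t + 1) * β := by nlinarith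

/-- a function on the half line with exponentially decreasing increments -/
theorem conv_ray (ε : ℝ) (hε : 0 < ε) (C : ℝ) (hC : 0 ≤ C) (G : ℝ → ℝ)
    (h : ∀ t s : ℝ, 0 ≤ t → 0 ≤ s → s ≤ 1 → |G (t + s) - G t| ≤ C * Real.exp (-ε * t)) :
    ∃ L : ℝ, ∀ t, 0 ≤ t → |G t - L| ≤ (1 - Real.exp (-ε))⁻¹ * C * Real.exp (-ε * t) := by
  have hq1 : Real.exp (-ε) < 1 := by
    rw [Real.exp_lt_one_iff]; linarith
  have hq0 : 0 < Real.exp (-ε) := Real.exp_pos _
  set K : ℝ := (1 - Real.exp (-ε))⁻¹ with hK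
  have hKpos : 0 < K := inv_pos.2 (by linarith)
  have hK1 : K * Real.exp (-ε) + 1 = K := by
    rw [hK]
    have : (1 - Real.exp (-ε)) ≠ 0 := by linarith
    field_simp
    ring
  have key : ∀ n : ℕ, ∀ t s : ℝ, 0 ≤ t → t ≤ s → s ≤ t + n →
      |G s - G t| ≤ K * C * Real.exp (-ε * t) := by
    intro n
    induction n with
    | zero =>
      intro t s ht hts hs
      have : s = t := by
        have : s ≤ t := by simpa using hs
        linarith
      rw [this, sub_self, abs_zero]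
      positivity
    | succ n ih =>
      intro t s ht hts hs
      push_cast at hs
      rcases le_total s (t + 1) with h1 | h1
      · have h2 := h t (s - t) ht (by linarith) (by linarith)
        rw [show t + (s - t) = s by ring] at h2
        refine h2.trans ?_
        have hK2 : 1 ≤ K := by nlinarith
        have : 0 ≤ C * Real.exp (-ε * t) := by positivity
        nlinarith
      · have h2 := h t 1 ht zero_le_one le_rfl
        have h3 := ih (t + 1) s (by linarith) h1 (by linarith)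
        have h4 : Real.exp (-ε * (t + 1)) = Real.exp (-ε) * Real.exp (-ε * t) := by
          rw [← Real.exp_add]; congr 1; ring
        rw [h4] at h3
        calc |G s - G t| ≤ |G s - G (t + 1)| + |G (t + 1) - G t| := abs_sub_le _ _ _
          _ ≤ K * C * (Real.exp (-ε) * Real.exp (-ε * t)) + C * Real.exp (-ε * t) :=
            add_le_add h3 h2
          _ = (K * Real.exp (-ε) + 1) * (C * Real.exp (-ε * t)) := by ring
          _ = K * C * Real.exp (-ε * t) := by rw [hK1]; ring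
  have key2 : ∀ t s : ℝ, 0 ≤ t → t ≤ s → |G s - G t| ≤ K * C * Real.exp (-ε * t) := by
    intro t s ht hts
    obtain ⟨n, hn⟩ := exists_nat_ge (s - t)
    exact key n t s ht hts (by linarith)
  have htend : Tendsto (fun n : ℕ => K * C * Real.exp (-ε * n)) atTop (𝓝 0) := by
    have h1 : Tendsto (fun n : ℕ => -ε * (n : ℝ)) atTop atBot :=
      tendsto_natCast_atTop_atTop.const_mul_atTop_of_neg (by linarith)
    have h2 := (Real.tendsto_exp_atBot.comp h1).const_mul (K * C)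
    simpa using h2
  have hcauchy : CauchySeq (fun n : ℕ => G n) := by
    apply cauchySeq_of_le_tendsto_0 (fun n : ℕ => 2 * (K * C * Real.exp (-ε * n)))
    · intro n m N hn hm
      have h1 := key2 N n (Nat.cast_nonneg N) (by exact_mod_cast hn)
      have h2 := key2 N m (Nat.cast_nonneg N) (by exact_mod_cast hm)
      rw [Real.dist_eq]
      calc |G n - G m| ≤ |G n - G N| + |G N - G m| := abs_sub_le _ _ _
        _ = |G n - G N| + |G m - G N| := by rw [abs_sub_comm (G N)]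
        _ ≤ _ := by linarith
    · simpa using htend.const_mul 2
  obtain ⟨L, hL⟩ := cauchySeq_tendsto_of_complete hcauchy
  refine ⟨L, fun t ht => ?_⟩
  have h1 : Tendsto (fun n : ℕ => |G t - G n|) atTop (𝓝 |G t - L|) :=
    (tendsto_const_nhds.sub hL).abs
  refine le_of_tendsto h1 ?_
  obtain ⟨N, hN⟩ := exists_nat_ge t
  filter_upwards [eventually_ge_atTop N] with n hn
  rw [abs_sub_comm]
  exact key2 t n ht (hN.trans (by exact_mod_cast hn))

theorem conv_diag (ε : ℝ) (hε : 0 < ε) :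
    ∃ C' : ℝ, 0 < C' ∧ ∀ (C : ℝ) (F : ℝ × ℝ → ℝ), 0 ≤ C →
      (∀ v w : ℝ × ℝ, ‖w‖ ≤ 1 → |F (v + w) - F v| ≤ C * Real.exp (-ε * ‖v‖)) →
      ∃ L : ℝ, ∀ v, |F v - L| ≤ C' * C * Real.exp (-ε * ‖v‖ / 2) := by
  have hq1 : Real.exp (-ε) < 1 := by
    rw [Real.exp_lt_one_iff]; linarith
  set K : ℝ := (1 - Real.exp (-ε))⁻¹ with hK
  have hKpos : 0 < K := inv_pos.2 (by linarith)
  refine ⟨8 / ε + 2 + K, by positivity, ?_⟩
  intro C F hC hF
  obtain ⟨L, hL⟩ := conv_ray ε hε C hC (fun t => F (t, t)) (by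
    intro t s ht hs hs1
    have h1 := hF (t, t) (s, s) (by
      rw [Prod.norm_def]; simp [abs_of_nonneg hs, hs1])
    have h2 : ‖((t, t) : ℝ × ℝ)‖ = t := by
      rw [Prod.norm_def]; simp [abs_of_nonneg ht]
    rw [h2] at h1
    simpa using h1)
  refine ⟨L, fun v => ?_⟩
  set M : ℝ := ‖v‖ with hM
  have hM0 : 0 ≤ M := norm_nonneg v
  -- a horizontal or vertical move
  have hmove : ∀ (u d : ℝ × ℝ) (t : ℝ), ‖d‖ ≤ 1 → 0 ≤ t → t ≤ 2 * M →
      (∀ s : ℝ, 0 ≤ s → s ≤ t → M ≤ ‖u + s • d‖) →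
      |F (u + t • d) - F u| ≤ (2 * M + 1) * (C * Real.exp (-ε * M)) := by
    intro u d t hd ht ht2 hs
    have h1 := conv_path F u d hd (C * Real.exp (-ε * M)) (by positivity) t ht (by
      intro s hs0 hst w hw
      refine (hF _ w hw).trans ?_
      have h2 := hs s hs0 hst
      apply mul_le_mul_of_nonneg_left _ hC
      apply Real.exp_le_exp.2
      nlinarith)
    refine h1.trans ?_
    apply mul_le_mul_of_nonneg_right _ (by positivity)
    linarith
  have hd1 : ‖((1, 0) : ℝ × ℝ)‖ ≤ 1 := by rw [Prod.norm_def]; simp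
  have hd2 : ‖((0, 1) : ℝ × ℝ)‖ ≤ 1 := by rw [Prod.norm_def]; simp
  have ha1 : |v.1| ≤ M := norm_fst_le v
  have ha2 : |v.2| ≤ M := norm_snd_le v
  have hb1 := abs_le.1 ha1
  have hb2 := abs_le.1 ha2
  have htot : |F v - F (M, M)| ≤ (4 * M + 2) * (C * Real.exp (-ε * M)) := by
    rcases le_total |v.2| |v.1| with hc | hc
    · have hMe : M = |v.1| := by
        rw [hM, Prod.norm_def, Real.norm_eq_abs, Real.norm_eq_abs, max_eq_left hc]
      have h1 := hmove v (0, 1) (M - v.2) hd2 (by linarith) (by linarith) (by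
        intro s _ _
        refine le_trans (le_of_eq hMe) (le_trans (le_of_eq ?_) (norm_fst_le (v + s • ((0, 1) : ℝ × ℝ))))
        simp)
      have h2 := hmove (v.1, M) (1, 0) (M - v.1) hd1 (by linarith) (by linarith) (by
        intro s _ _
        refine le_trans (le_of_eq ?_) (norm_snd_le ((v.1, M) + s • ((1, 0) : ℝ × ℝ)))
        simp [abs_of_nonneg hM0])
      have e1 : v + (M - v.2) • ((0, 1) : ℝ × ℝ) = (v.1, M) := by
        ext <;> simp
      have e2 : ((v.1, M) : ℝ × ℝ) + (M - v.1) • ((1, 0) : ℝ × ℝ) = (M, M) := by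
        ext <;> simp
      rw [e1] at h1
      rw [e2] at h2
      calc |F v - F (M, M)| ≤ |F v - F (v.1, M)| + |F (v.1, M) - F (M, M)| := abs_sub_le _ _ _
        _ = |F (v.1, M) - F v| + |F (M, M) - F (v.1, M)| := by
          rw [abs_sub_comm (F v) (F (v.1, M)), abs_sub_comm (F (v.1, M)) (F (M, M))]
        _ ≤ _ := by linarith
    · have hMe : M = |v.2| := by
        rw [hM, Prod.norm_def, Real.norm_eq_abs, Real.norm_eq_abs, max_eq_right hc]
      have h1 := hmove v (1, 0) (M - v.1) hd1 (by linarith) (by linarith) (by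
        intro s _ _
        refine le_trans (le_of_eq hMe) (le_trans (le_of_eq ?_) (norm_snd_le (v + s • ((1, 0) : ℝ × ℝ))))
        simp)
      have h2 := hmove (M, v.2) (0, 1) (M - v.2) hd2 (by linarith) (by linarith) (by
        intro s _ _
        refine le_trans (le_of_eq ?_) (norm_fst_le ((M, v.2) + s • ((0, 1) : ℝ × ℝ)))
        simp [abs_of_nonneg hM0])
      have e1 : v + (M - v.1) • ((1, 0) : ℝ × ℝ) = (M, v.2) := by
        ext <;> simp
      have e2 : ((M, v.2) : ℝ × ℝ) + (M - v.2) • ((0, 1) : ℝ × ℝ) = (M, M) := by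
        ext <;> simp
      rw [e1] at h1
      rw [e2] at h2
      calc |F v - F (M, M)| ≤ |F v - F (M, v.2)| + |F (M, v.2) - F (M, M)| := abs_sub_le _ _ _
        _ = |F (M, v.2) - F v| + |F (M, M) - F (M, v.2)| := by
          rw [abs_sub_comm (F v) (F (M, v.2)), abs_sub_comm (F (M, v.2)) (F (M, M))]
        _ ≤ _ := by linarith
  have hfin := hL M hM0
  have hexp : Real.exp (-ε * M) = Real.exp (-ε * M / 2) * Real.exp (-ε * M / 2) := by
    rw [← Real.exp_add]; congr 1; ring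
  set x := Real.exp (-ε * M / 2) with hx
  have hx0 : 0 < x := Real.exp_pos _
  have hx1 : x ≤ 1 := by
    rw [hx, Real.exp_le_one_iff]
    nlinarith
  have hMx : ε * M / 2 * x ≤ 1 := by
    have h1 : ε * M / 2 ≤ Real.exp (ε * M / 2) := by
      linarith [Real.add_one_le_exp (ε * M / 2)]
    have h2 : Real.exp (ε * M / 2) * x = 1 := by
      rw [hx, ← Real.exp_add]
      have : ε * M / 2 + -ε * M / 2 = 0 := by ring
      rw [this, Real.exp_zero]
    calc ε * M / 2 * x ≤ Real.exp (ε * M / 2) * x := mul_le_mul_of_nonneg_right h1 hx0.le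
      _ = 1 := h2
  have hMx2 : 4 * M * x ≤ 8 / ε := by
    rw [le_div_iff₀ hε]
    linarith
  calc |F v - L| ≤ |F v - F (M, M)| + |F (M, M) - L| := abs_sub_le _ _ _
    _ ≤ (4 * M + 2) * (C * Real.exp (-ε * M)) + K * C * Real.exp (-ε * M) := add_le_add htot hfin
    _ = ((4 * M + 2 + K) * x) * (C * x) := by rw [hexp]; ring
    _ ≤ (8 / ε + 2 + K) * (C * x) := by
        apply mul_le_mul_of_nonneg_right _ (by positivity)
        nlinarith
    _ = (8 / ε + 2 + K) * C * x := by ring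

theorem conv_e (a b : Fin 3) (hab : a ≠ b) : ∃ e : ℝ × ℝ, cmp e a = 1 ∧ cmp e b = -1 ∧ ‖e‖ ≤ 1 := by
  fin_cases a <;> fin_cases b
  · exact absurd rfl hab
  · exact ⟨(1, -1), by simp [cmp], by simp [cmp], by rw [Prod.norm_def]; simp⟩
  · exact ⟨(1, 0), by simp [cmp], by simp [cmp], by rw [Prod.norm_def]; simp⟩
  · exact ⟨(-1, 1), by simp [cmp], by simp [cmp], by rw [Prod.norm_def]; simp⟩
  · exact absurd rfl hab
  · exact ⟨(0, 1), by simp [cmp], by simp [cmp], by rw [Prod.norm_def]; simp⟩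
  · exact ⟨(-1, 0), by simp [cmp], by simp [cmp], by rw [Prod.norm_def]; simp⟩
  · exact ⟨(0, -1), by simp [cmp], by simp [cmp], by rw [Prod.norm_def]; simp⟩
  · exact absurd rfl hab

theorem conv_off (ε : ℝ) (hε : 0 < ε) (hε1 : ε ≤ 1) :
    ∃ C' : ℝ, 0 < C' ∧ ∀ (a b : Fin 3), a ≠ b → ∀ (C : ℝ) (F : ℝ × ℝ → ℝ), 0 ≤ C →
      (∀ v w : ℝ × ℝ, ‖w‖ ≤ 1 →
        |F (v + w) - F v| ≤ C * Real.exp (-ε * ‖v‖ - (cmp v a - cmp v b))) →
      ∃ L : ℝ, ∀ v, |F v - L| ≤ C' * C * Real.exp (-ε * ‖v‖ - (cmp v a - cmp v b)) := by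
  have hq1 : Real.exp (-(1 : ℝ)) < 1 := by
    rw [Real.exp_lt_one_iff]; norm_num
  refine ⟨(1 - Real.exp (-(1 : ℝ)))⁻¹, inv_pos.2 (by linarith), ?_⟩
  intro a b hab C F hC hF
  obtain ⟨e, hea, heb, he⟩ := conv_e a b hab
  have hcmp : ∀ (v : ℝ × ℝ) (t : ℝ), cmp (v + t • e) a - cmp (v + t • e) b =
      cmp v a - cmp v b + 2 * t := by
    intro v t
    rw [cmp_add, cmp_add, cmp_smul, cmp_smul, hea, heb]
    ring
  have hray : ∀ v : ℝ × ℝ, ∃ L : ℝ, ∀ t, 0 ≤ t → |F (v + t • e) - L| ≤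
      (1 - Real.exp (-(1 : ℝ)))⁻¹ * (C * Real.exp (-ε * ‖v‖ - (cmp v a - cmp v b))) *
        Real.exp (-1 * t) := by
    intro v
    apply conv_ray 1 one_pos _ (by positivity) (fun t => F (v + t • e))
    intro t s ht hs hs1
    have h1 := hF (v + t • e) (s • e) (by
      rw [norm_smul, Real.norm_eq_abs, abs_of_nonneg hs]
      nlinarith [norm_nonneg e])
    have h2 : v + t • e + s • e = v + (t + s) • e := by rw [add_smul, add_assoc]
    rw [h2, hcmp] at h1
    refine h1.trans ?_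
    rw [mul_assoc, ← Real.exp_add]
    apply mul_le_mul_of_nonneg_left _ hC
    apply Real.exp_le_exp.2
    have h3 : ‖v‖ - t ≤ ‖v + t • e‖ := by
      have h4 : ‖v‖ ≤ ‖v + t • e‖ + ‖t • e‖ := by
        have := norm_sub_le (v + t • e) (t • e)
        rwa [add_sub_cancel_right] at this
      have h5 : ‖t • e‖ ≤ t := by
        rw [norm_smul, Real.norm_eq_abs, abs_of_nonneg ht]
        nlinarith [norm_nonneg e]
      linarith
    nlinarith
  choose L hL using hray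
  have htendv : ∀ v, Tendsto (fun n : ℕ => F (v + (n : ℝ) • e)) atTop (𝓝 (L v)) := by
    intro v
    rw [tendsto_iff_dist_tendsto_zero]
    have h1 : Tendsto (fun n : ℕ => (1 - Real.exp (-(1 : ℝ)))⁻¹ *
        (C * Real.exp (-ε * ‖v‖ - (cmp v a - cmp v b))) * Real.exp (-1 * (n : ℝ))) atTop (𝓝 0) := by
      have h1 : Tendsto (fun n : ℕ => -1 * (n : ℝ)) atTop atBot :=
        tendsto_natCast_atTop_atTop.const_mul_atTop_of_neg (by norm_num)
      have h2 := (Real.tendsto_exp_atBot.comp h1).const_mul ((1 - Real.exp (-(1 : ℝ)))⁻¹ *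
        (C * Real.exp (-ε * ‖v‖ - (cmp v a - cmp v b))))
      simpa using h2
    refine squeeze_zero (fun n => dist_nonneg) (fun n => ?_) h1
    rw [Real.dist_eq]
    exact hL v n (Nat.cast_nonneg n)
  have hLeq : ∀ v, L v = L 0 := by
    intro v
    have h1 : Tendsto (fun n : ℕ => F (v + (n : ℝ) • e) - F (0 + (n : ℝ) • e)) atTop
        (𝓝 (L v - L 0)) := (htendv v).sub (htendv 0)
    have h2 : Tendsto (fun n : ℕ => F (v + (n : ℝ) • e) - F (0 + (n : ℝ) • e)) atTop (𝓝 0) := by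
      have h3 : Tendsto (fun n : ℕ => (‖v‖ + 1) * C * Real.exp (4 * ‖v‖) *
          Real.exp (-2 * (n : ℝ))) atTop (𝓝 0) := by
        have h1 : Tendsto (fun n : ℕ => -2 * (n : ℝ)) atTop atBot :=
          tendsto_natCast_atTop_atTop.const_mul_atTop_of_neg (by norm_num)
        have h2 := (Real.tendsto_exp_atBot.comp h1).const_mul ((‖v‖ + 1) * C * Real.exp (4 * ‖v‖))
        simpa using h2
      refine squeeze_zero_norm (fun n => ?_) h3
      rw [Real.norm_eq_abs]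
      rcases eq_or_ne v 0 with rfl | hv
      · simp
        positivity
      have hvn : 0 < ‖v‖ := norm_pos_iff.2 hv
      have hd : ‖(‖v‖⁻¹ • v)‖ ≤ 1 := by
        rw [norm_smul, norm_inv, norm_norm, inv_mul_cancel₀ hvn.ne']
      have h4 := conv_path F ((n : ℝ) • e) (‖v‖⁻¹ • v) hd
        (C * Real.exp (4 * ‖v‖ - 2 * n)) (by positivity) ‖v‖ hvn.le (by
          intro s hs0 hs1 w hw
          refine (hF _ w hw).trans ?_
          apply mul_le_mul_of_nonneg_left _ hC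
          apply Real.exp_le_exp.2
          have h5 := hcmp (s • (‖v‖⁻¹ • v)) n
          rw [add_comm] at h5
          rw [h5, cmp_smul s (‖v‖⁻¹ • v) a, cmp_smul s (‖v‖⁻¹ • v) b]
          have h6 := abs_le.1 (abs_cmp_le (‖v‖⁻¹ • v) a)
          have h7 := abs_le.1 (abs_cmp_le (‖v‖⁻¹ • v) b)
          have h8 : 0 ≤ ε * ‖(n : ℝ) • e + s • ‖v‖⁻¹ • v‖ := by positivity
          have h10 : 0 ≤ s * (4 + (cmp (‖v‖⁻¹ • v) a - cmp (‖v‖⁻¹ • v) b)) :=
            mul_nonneg hs0 (by linarith [h6.1, h7.2])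
          linarith)
      have h9 : (n : ℝ) • e + ‖v‖ • (‖v‖⁻¹ • v) = v + (n : ℝ) • e := by
        rw [smul_smul, mul_inv_cancel₀ hvn.ne', one_smul, add_comm]
      rw [h9] at h4
      rw [zero_add]
      refine h4.trans (le_of_eq ?_)
      have h10 : Real.exp (4 * ‖v‖ - 2 * n) = Real.exp (4 * ‖v‖) * Real.exp (-2 * (n : ℝ)) := by
        rw [← Real.exp_add]; congr 1; ring
      rw [h10]
      ring
    have h3 := tendsto_nhds_unique h1 h2
    linarith
  refine ⟨L 0, fun v => ?_⟩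
  have h1 := hL v 0 le_rfl
  rw [zero_smul, add_zero, mul_zero, Real.exp_zero, mul_one, hLeq v] at h1
  rw [mul_assoc]
  exact h1

/-- Convergence along the filter at infinity. -/
theorem tendsto_of_bound (ε C : ℝ) (hε : 0 < ε) (F : ℝ × ℝ → ℝ)
    (h : ∀ v, |F v| ≤ C * Real.exp (-ε * ‖v‖)) : Tendsto F (cocompact (ℝ × ℝ)) (𝓝 0) := by
  have h1 : Tendsto (fun v : ℝ × ℝ => -ε * ‖v‖) (cocompact (ℝ × ℝ)) atBot :=
    (tendsto_norm_cocompact_atTop (E := ℝ × ℝ)).const_mul_atTop_of_neg (by linarith)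
  have h2 := (Real.tendsto_exp_atBot.comp h1).const_mul C
  rw [mul_zero] at h2
  refine squeeze_zero_norm (fun v => ?_) h2
  rw [Real.norm_eq_abs]
  exact h v

end Pool.Agent.H88.LF

end S_H88_LF_CONV

section S_H88_LF_GOOD

/-!
# GOOD: consequences of (C*)

Sum (C*) over `v ∈ ℤ²` with weight `e^{ε‖v‖/2}` (Markov): `hG {g ∈ Bl ρ : ∃ v ∈ ℤ², J(D v g,x)^s > R^s e^{-ε‖v‖/2}} ≤ R^{-s} ∑_v C e^{-ε‖v‖/2} → 0` as `R → ∞`, uniformly in `x`.
For general `v` round to `ℤ²` (`J(D u,·)` bounded for `‖u‖ ≤ 1`).  The rate for `J` is `ε/(2s)`, or anything smaller; take it `≤ 1`.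
`good_ae`: a.e. `g ∈ Bl ρ` is good for `y = g0 x`; `J(D v g, g0 x) = J(D v g g0, x)/J(g0,x)`; `ae_of_ae_Bl`.
-/

set_option autoImplicit false

open MeasureTheory Set Filter
open scoped Topology ENNReal

namespace Pool.Agent.H88.LF

theorem GOOD_summable (c : ℝ) (hc : 0 < c) :
    Summable (fun v : ℤ × ℤ => Real.exp (-c * ‖((v.1 : ℝ), (v.2 : ℝ))‖)) := by
  have h1 : Summable (fun n : ℤ => Real.exp (-(c / 2) * |(n : ℝ)|)) := by
    have h2 : Summable (fun n : ℕ => Real.exp ((n : ℝ) * (-(c / 2)))) :=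
      Real.summable_exp_nat_mul_iff.mpr (by linarith)
    apply Summable.of_nat_of_neg
    · refine h2.congr fun n => ?_
      simp [mul_comm]
    · refine h2.congr fun n => ?_
      simp [mul_comm]
  have h3 := h1.mul_of_nonneg h1 (fun n => (Real.exp_pos _).le) (fun n => (Real.exp_pos _).le)
  refine Summable.of_nonneg_of_le (fun v => (Real.exp_pos _).le) (fun v => ?_) h3
  rw [← Real.exp_add]
  apply Real.exp_le_exp.mpr
  have h4 : |(v.1 : ℝ)| ≤ ‖((v.1 : ℝ), (v.2 : ℝ))‖ := norm_fst_le ((v.1 : ℝ), (v.2 : ℝ))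
  have h5 : |(v.2 : ℝ)| ≤ ‖((v.1 : ℝ), (v.2 : ℝ))‖ := norm_snd_le ((v.1 : ℝ), (v.2 : ℝ))
  nlinarith

variable {X : Type} [MetricSpace X] [CompactSpace X] [MulAction G X] [ContinuousSMul G X]

theorem GOOD_cont {S : FB X} (T : TN S) (v : ℝ × ℝ) (x : X) :
    Continuous (fun g : G => T.J (D v * g) x) := by
  have h1 : Continuous (fun g : G => (D v * g, x)) :=
    (continuous_const_mul (D v)).prodMk continuous_const
  exact T.continuous_J.comp h1

theorem GOOD_markov {S : FB X} (T : TN S) {s ε0 C ρ0 : ℝ} (hs : 0 < s) (hC : 0 < C)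
    (h : ∀ (x : X) (v : ℝ × ℝ), ∫⁻ g in Bl ρ0, ENNReal.ofReal (T.J (D v * g) x ^ s) ∂hG ≤
      ENNReal.ofReal (C * Real.exp (-ε0 * ‖v‖)))
    (ε : ℝ) (hε : s * ε ≤ ε0 / 2) (R : ℝ) (hR : 0 < R) (ρ : ℝ) (hρ : ρ ≤ ρ0) (x : X)
    (v : ℝ × ℝ) :
    hG {g | g ∈ Bl ρ ∧ R * Real.exp (-ε * ‖v‖) < T.J (D v * g) x} ≤
      ENNReal.ofReal (C / R ^ s) * ENNReal.ofReal (Real.exp (-(ε0 / 2) * ‖v‖)) := by
  set a : ℝ := (R * Real.exp (-ε * ‖v‖)) ^ s with ha
  have hRs : 0 < R ^ s := Real.rpow_pos_of_pos hR s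
  have ha0 : 0 < a := Real.rpow_pos_of_pos (by positivity) s
  have hae : a = R ^ s * Real.exp (-(s * ε) * ‖v‖) := by
    rw [ha, Real.mul_rpow hR.le (Real.exp_pos _).le, ← Real.exp_mul]
    congr 2
    ring
  have hmeas : Measurable (fun g : G => ENNReal.ofReal (T.J (D v * g) x ^ s)) :=
    (((GOOD_cont T v x).rpow_const (fun g => Or.inr hs.le)).measurable).ennreal_ofReal
  have hsub : {g | g ∈ Bl ρ ∧ R * Real.exp (-ε * ‖v‖) < T.J (D v * g) x} ⊆
      {g | ENNReal.ofReal a ≤ ENNReal.ofReal (T.J (D v * g) x ^ s)} ∩ Bl ρ0 := by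
    rintro g ⟨h1, h2⟩
    refine ⟨ENNReal.ofReal_le_ofReal ?_, Bl_mono hρ h1⟩
    exact Real.rpow_le_rpow (by positivity) h2.le hs.le
  refine (measure_mono hsub).trans ?_
  rw [← Measure.restrict_apply' (measurableSet_Bl ρ0)]
  refine (meas_ge_le_lintegral_div hmeas.aemeasurable (by simpa using ha0)
    ENNReal.ofReal_ne_top).trans ?_
  refine (ENNReal.div_le_div_right (h x v) _).trans ?_
  rw [← ENNReal.ofReal_div_of_pos ha0, ← ENNReal.ofReal_mul (by positivity)]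
  apply ENNReal.ofReal_le_ofReal
  rw [hae, mul_div_mul_comm]
  refine mul_le_mul_of_nonneg_left ?_ (by positivity)
  rw [← Real.exp_sub]
  apply Real.exp_le_exp.mpr
  have := norm_nonneg v
  nlinarith

omit [CompactSpace X] [ContinuousSMul G X] in
theorem GOOD_round {S : FB X} (T : TN S) {ε C1 : ℝ} (hε : 0 < ε) (hC1 : 1 ≤ C1)
    (hb : ∀ q ∈ D '' {v | ‖v‖ ≤ 1}, ∀ x : X, T.J q x ≤ C1) (R : ℝ) (hR : 0 < R) (x : X) (g : G)
    (h : ∀ v : ℤ × ℤ, T.J (D ((v.1 : ℝ), (v.2 : ℝ)) * g) x ≤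
      R * Real.exp (-ε * ‖((v.1 : ℝ), (v.2 : ℝ))‖)) (v : ℝ × ℝ) :
    T.J (D v * g) x ≤ (C1 * R * Real.exp ε) * Real.exp (-ε * ‖v‖) := by
  set v0 : ℝ × ℝ := (((⌊v.1⌋ : ℤ) : ℝ), ((⌊v.2⌋ : ℤ) : ℝ)) with hv0
  have h0 := h (⌊v.1⌋, ⌊v.2⌋)
  have hu : ‖v - v0‖ ≤ 1 := by
    rw [Prod.norm_def]
    apply max_le
    · show ‖v.1 - ((⌊v.1⌋ : ℤ) : ℝ)‖ ≤ 1
      rw [Real.norm_eq_abs, abs_le]
      constructor
      · linarith [Int.floor_le v.1]
      · linarith [Int.lt_floor_add_one v.1]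
    · show ‖v.2 - ((⌊v.2⌋ : ℤ) : ℝ)‖ ≤ 1
      rw [Real.norm_eq_abs, abs_le]
      constructor
      · linarith [Int.floor_le v.2]
      · linarith [Int.lt_floor_add_one v.2]
  have hv : D v * g = D (v - v0) * (D v0 * g) := by
    rw [← mul_assoc, ← D_add, sub_add_cancel]
  rw [hv, T.J_mul]
  have h1 : T.J (D (v - v0)) ((D v0 * g) • x) ≤ C1 := hb _ ⟨_, hu, rfl⟩ _
  have h2 : T.J (D v0 * g) x ≤ R * Real.exp (-ε * ‖v0‖) := h0
  have h3 : Real.exp (-ε * ‖v0‖) ≤ Real.exp ε * Real.exp (-ε * ‖v‖) := by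
    rw [← Real.exp_add]
    apply Real.exp_le_exp.mpr
    have h4 : ‖v‖ ≤ ‖v - v0‖ + ‖v0‖ := by
      have := norm_add_le (v - v0) v0
      rwa [sub_add_cancel] at this
    nlinarith
  calc T.J (D (v - v0)) ((D v0 * g) • x) * T.J (D v0 * g) x
      ≤ C1 * (R * Real.exp (-ε * ‖v0‖)) := by
        apply mul_le_mul h1 h2 (T.J_pos _ _).le (by linarith)
    _ ≤ C1 * (R * (Real.exp ε * Real.exp (-ε * ‖v‖))) := by
        apply mul_le_mul_of_nonneg_left _ (by linarith)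
        exact mul_le_mul_of_nonneg_left h3 hR.le
    _ = _ := by ring

/-- Uniform version: one rate `ε`, one ball `Bl ρ`. -/
theorem good_unif {S : FB X} {T : TN S} (hC : T.CStar) :
    ∃ ρ : ℝ, 0 < ρ ∧ ρ ≤ 1 ∧ ∃ ε : ℝ, 0 < ε ∧ ε ≤ 1 ∧
      (∀ η : ℝ, 0 < η → ∃ R : ℝ, 1 ≤ R ∧ ∀ x : X,
        hG {g | g ∈ Bl ρ ∧ ¬ ∀ v : ℝ × ℝ, T.J (D v * g) x ≤ R * Real.exp (-ε * ‖v‖)} ≤
          ENNReal.ofReal η) ∧
      ∀ x : X, ∀ᵐ g ∂hG, ∃ R : ℝ, ∀ v : ℝ × ℝ, T.J (D v * g) x ≤ R * Real.exp (-ε * ‖v‖) := by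
  obtain ⟨s, hs, ε0, hε0, C, hC0, ρ0, hρ0, hmain⟩ := hC
  obtain ⟨C1, hC1, hJb⟩ := T.J_bound (isCompact_D_image 1)
  set ρ : ℝ := min ρ0 1 with hρ
  set ε : ℝ := min (ε0 / (2 * s)) 1 with hε
  have hρp : 0 < ρ := lt_min hρ0 one_pos
  have hεp : 0 < ε := lt_min (by positivity) one_pos
  have hsε : s * ε ≤ ε0 / 2 := by
    have h1 : ε ≤ ε0 / (2 * s) := min_le_left _ _
    calc s * ε ≤ s * (ε0 / (2 * s)) := mul_le_mul_of_nonneg_left h1 hs.le
      _ = ε0 / 2 := by field_simp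
  have hunif : ∀ η : ℝ, 0 < η → ∃ R : ℝ, 1 ≤ R ∧ ∀ x : X,
        hG {g | g ∈ Bl ρ ∧ ¬ ∀ v : ℝ × ℝ, T.J (D v * g) x ≤ R * Real.exp (-ε * ‖v‖)} ≤
          ENNReal.ofReal η := by
    intro η hη
    have hsum := GOOD_summable (ε0 / 2) (by positivity)
    set Zs : ℝ := ∑' v : ℤ × ℤ, Real.exp (-(ε0 / 2) * ‖((v.1 : ℝ), (v.2 : ℝ))‖) with hZ
    have hZ0 : 0 ≤ Zs := tsum_nonneg fun v => (Real.exp_pos _).le
    set m : ℝ := max 1 (C * Zs / η) with hm
    have hm1 : 1 ≤ m := le_max_left _ _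
    set R : ℝ := m ^ (1 / s) with hR
    have hR1 : 1 ≤ R := Real.one_le_rpow hm1 (by positivity)
    have hR0 : 0 < R := by linarith
    have hRs : R ^ s = m := by
      rw [hR, ← Real.rpow_mul (by linarith), one_div, inv_mul_cancel₀ hs.ne', Real.rpow_one]
    refine ⟨C1 * R * Real.exp ε, ?_, fun x => ?_⟩
    · have h1 : 1 ≤ Real.exp ε := Real.one_le_exp hεp.le
      have h2 : 1 ≤ C1 * R := one_le_mul_of_one_le_of_one_le hC1 hR1
      exact one_le_mul_of_one_le_of_one_le h2 h1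
    · have hsub : {g | g ∈ Bl ρ ∧ ¬ ∀ v : ℝ × ℝ, T.J (D v * g) x ≤
            (C1 * R * Real.exp ε) * Real.exp (-ε * ‖v‖)} ⊆
          ⋃ v : ℤ × ℤ, {g | g ∈ Bl ρ ∧ R * Real.exp (-ε * ‖((v.1 : ℝ), (v.2 : ℝ))‖) <
            T.J (D ((v.1 : ℝ), (v.2 : ℝ)) * g) x} := by
        rintro g ⟨h1, h2⟩
        by_contra h3
        apply h2
        apply GOOD_round T hεp hC1 (fun q hq x => (hJb q hq x).2) R hR0 x g
        intro v
        by_contra h4
        push Not at h4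
        exact h3 (mem_iUnion.mpr ⟨v, h1, h4⟩)
      refine (measure_mono hsub).trans ((measure_iUnion_le _).trans ?_)
      calc ∑' v : ℤ × ℤ, hG {g | g ∈ Bl ρ ∧ R * Real.exp (-ε * ‖((v.1 : ℝ), (v.2 : ℝ))‖) <
            T.J (D ((v.1 : ℝ), (v.2 : ℝ)) * g) x}
          ≤ ∑' v : ℤ × ℤ, ENNReal.ofReal (C / R ^ s) *
            ENNReal.ofReal (Real.exp (-(ε0 / 2) * ‖((v.1 : ℝ), (v.2 : ℝ))‖)) :=
            ENNReal.tsum_le_tsum fun v => GOOD_markov T hs hC0 hmain ε hsε R hR0 ρ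
              (min_le_left _ _) x _
        _ = ENNReal.ofReal (C / R ^ s) * ENNReal.ofReal Zs := by
            rw [ENNReal.tsum_mul_left, hZ, ENNReal.ofReal_tsum_of_nonneg
              (fun v => (Real.exp_pos _).le) hsum]
        _ = ENNReal.ofReal (C / R ^ s * Zs) := by
            rw [ENNReal.ofReal_mul (by positivity)]
        _ ≤ ENNReal.ofReal η := by
            apply ENNReal.ofReal_le_ofReal
            rw [hRs, div_mul_eq_mul_div, div_le_iff₀ (by linarith)]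
            have h5 : C * Zs / η ≤ m := le_max_right _ _
            rw [div_le_iff₀ hη] at h5
            linarith
  refine ⟨ρ, hρp, min_le_right _ _, ε, hεp, min_le_right _ _, hunif, ?_⟩
  intro x
  apply ae_of_ae_Bl hρp
  intro g0
  have hzero : hG {g | g ∈ Bl ρ ∧ ¬ ∃ R : ℝ, ∀ v : ℝ × ℝ, T.J (D v * g) (g0 • x) ≤
      R * Real.exp (-ε * ‖v‖)} = 0 := by
    apply le_antisymm _ zero_le
    apply ENNReal.le_of_forall_pos_le_add
    intro η hη _
    obtain ⟨R, hR, hx⟩ := hunif η (by exact_mod_cast hη)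
    rw [zero_add]
    refine le_trans (measure_mono ?_) ((hx (g0 • x)).trans (by simp))
    rintro g ⟨h1, h2⟩
    exact ⟨h1, fun h3 => h2 ⟨R, h3⟩⟩
  rw [ae_restrict_iff' (measurableSet_Bl ρ)]
  rw [ae_iff]
  refine measure_mono_null ?_ hzero
  intro g hg
  simp only [Set.mem_ofPred_eq, Classical.not_imp] at hg
  refine ⟨hg.1, fun h1 => hg.2 ?_⟩
  obtain ⟨R, hR⟩ := h1
  refine ⟨R * T.J g0 x, fun v => ?_⟩
  rw [← mul_assoc, T.J_mul]
  calc T.J (D v * g) (g0 • x) * T.J g0 x ≤ (R * Real.exp (-ε * ‖v‖)) * T.J g0 x :=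
        mul_le_mul_of_nonneg_right (hR v) (T.J_pos _ _).le
    _ = _ := by ring

end Pool.Agent.H88.LF

end S_H88_LF_GOOD
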