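import Mathlib
import Pool.Agent.H88.LG.M01
import Pool.Agent.H88.LG.M04

set_option autoImplicit false

/-! Locally free actions of SL(3,R) on compact 9-manifolds, file M05: this file joins several modules to save build time. -/

section S_H88_LF_P7D

/-!
# P7D (blueprint 9.1, 9.2): definitions

`w : G → ℝ` is the transverse size, `B : G → Mat` the orbit component.  `N(g;ζ) = B g + g ζ g⁻¹`.
-/

set_option autoImplicit false

open MeasureTheory Set Filter
open scoped Topology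

namespace Pool.Agent.H88.LF

/-- `N(g;ζ)` -/
noncomputable def NN (B : G → Mat) (ζ : Mat) (g : G) : Mat := B g + g.1 * ζ * (g⁻¹).1

/-- `ζ` is a stable correction at `g`. -/
def Stab (B : G → Mat) (ζ : Mat) (g : G) : Prop :=
  Tendsto (fun v : ℝ × ℝ => nrm (NN B ζ (D v * g))) (cocompact (ℝ × ℝ)) (𝓝 0)

/-- The approximate cocycle inequalities. -/
def Quasi (w : G → ℝ) (B : G → Mat) : Prop :=
  ∀ Q : Set G, IsCompact Q → ∃ C : ℝ, 0 < C ∧ ∀ q ∈ Q, ∀ g : G,
    w (q * g) ≤ C * w g ∧ nrm (B (q * g) - q.1 * B g * (q⁻¹).1) ≤ C * w g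

end Pool.Agent.H88.LF

end S_H88_LF_P7D

section S_H88_LF_P7A

/-!
# P7A (blueprint 9.1, 9.2): functions on `G` only
-/

set_option autoImplicit false

open MeasureTheory Set Filter
open scoped Topology

namespace Pool.Agent.H88.LF

theorem P7A_cmp4 (u : ℝ × ℝ) (hu : ‖u‖ ≤ 1) (a b : Fin 3) : -(cmp u a - cmp u b) ≤ 4 := by
  have h1 := abs_le.1 (abs_cmp_le u a)
  have h2 := abs_le.1 (abs_cmp_le u b)
  linarith [h1.1, h2.2]

theorem P7A_step (Cq : ℝ) (w : G → ℝ) (B : G → Mat)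
    (hB : ∀ (u : ℝ × ℝ) (g : G), ‖u‖ ≤ 1 →
      nrm (B (D u * g) - (D u).1 * B g * ((D u)⁻¹).1) ≤ Cq * w g) (g : G) (a b : Fin 3)
    (v u : ℝ × ℝ) (hu : ‖u‖ ≤ 1) :
    |Real.exp (-(cmp (v + u) a - cmp (v + u) b)) * B (D (v + u) * g) a b -
      Real.exp (-(cmp v a - cmp v b)) * B (D v * g) a b| ≤
      Real.exp 4 * (Cq * w (D v * g)) * Real.exp (-(cmp v a - cmp v b)) := by
  have h1 : D (v + u) * g = D u * (D v * g) := by
    rw [D_add, D_comm, mul_assoc]
  have h2 := (abs_le_nrm (B (D u * (D v * g)) - (D u).1 * B (D v * g) * ((D u)⁻¹).1) a b).trans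
    (hB u (D v * g) hu)
  rw [Matrix.sub_apply, D_conj_entry] at h2
  have h3 : Real.exp (-(cmp (v + u) a - cmp (v + u) b)) =
      Real.exp (-(cmp v a - cmp v b)) * Real.exp (-(cmp u a - cmp u b)) := by
    rw [← Real.exp_add, cmp_add, cmp_add]
    congr 1
    ring
  have h4 : Real.exp (-(cmp u a - cmp u b)) * Real.exp (cmp u a - cmp u b) = 1 := by
    rw [← Real.exp_add, neg_add_cancel, Real.exp_zero]
  have h5 : Real.exp (-(cmp (v + u) a - cmp (v + u) b)) * B (D (v + u) * g) a b -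
      Real.exp (-(cmp v a - cmp v b)) * B (D v * g) a b =
      Real.exp (-(cmp v a - cmp v b)) * (Real.exp (-(cmp u a - cmp u b)) *
        (B (D u * (D v * g)) a b - Real.exp (cmp u a - cmp u b) * B (D v * g) a b)) := by
    rw [h1, h3]
    have h6 : B (D v * g) a b = (Real.exp (-(cmp u a - cmp u b)) * Real.exp (cmp u a - cmp u b)) *
      B (D v * g) a b := by rw [h4, one_mul]
    conv_lhs => rw [h6]
    ring
  rw [h5, abs_mul, abs_mul, abs_of_pos (Real.exp_pos _), abs_of_pos (Real.exp_pos _)]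
  have h7 : Real.exp (-(cmp u a - cmp u b)) ≤ Real.exp 4 := Real.exp_le_exp.2 (P7A_cmp4 u hu a b)
  have h8 : Real.exp (-(cmp u a - cmp u b)) *
      |B (D u * (D v * g)) a b - Real.exp (cmp u a - cmp u b) * B (D v * g) a b| ≤
      Real.exp 4 * (Cq * w (D v * g)) :=
    mul_le_mul h7 h2 (abs_nonneg _) (Real.exp_pos _).le
  calc Real.exp (-(cmp v a - cmp v b)) * (Real.exp (-(cmp u a - cmp u b)) *
      |B (D u * (D v * g)) a b - Real.exp (cmp u a - cmp u b) * B (D v * g) a b|)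
      ≤ Real.exp (-(cmp v a - cmp v b)) * (Real.exp 4 * (Cq * w (D v * g))) :=
        mul_le_mul_of_nonneg_left h8 (Real.exp_pos _).le
    _ = _ := by ring

/-- Existence with explicit constants.  `b(v) = D(-v) B(D v g) D(v)` (conjugation): `|(b(v+u) - b(v))_{ab}| ≤ C e^{-(v_a-v_b)} w(D v g)` for `‖u‖ ≤ 1`;
`conv_off` for `a ≠ b`, `conv_diag` for `a = b` give limits `L_ab` with `|e^{v_a-v_b}(b(v) - L)_{ab}| ≤ C R e^{-ε‖v‖/2}`; `ζ = - g⁻¹ L g`. -/
theorem p7_exists (ε Cq : ℝ) (hε : 0 < ε) (hε1 : ε ≤ 1) (hCq : 0 < Cq) :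
    ∃ C : ℝ, 0 < C ∧ ∀ (w : G → ℝ) (B : G → Mat), (∀ g, 0 ≤ w g) →
      (∀ (u : ℝ × ℝ) (g : G), ‖u‖ ≤ 1 →
        nrm (B (D u * g) - (D u).1 * B g * ((D u)⁻¹).1) ≤ Cq * w g) →
      ∀ (g : G) (R : ℝ), (∀ v : ℝ × ℝ, w (D v * g) ≤ R * Real.exp (-ε * ‖v‖)) →
        ∃ ζ : Mat, (∀ v : ℝ × ℝ, nrm (NN B ζ (D v * g)) ≤ C * R * Real.exp (-ε * ‖v‖ / 2)) ∧
          nrm ζ ≤ nrm (g⁻¹).1 * nrm g.1 * (nrm (B g) + C * R) := by
  obtain ⟨C1, hC1, hdiag⟩ := conv_diag ε hε
  obtain ⟨C2, hC2, hoff⟩ := conv_off ε hε hε1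
  set Cm := max C1 C2 with hCm
  have hCm0 : 0 < Cm := lt_max_of_lt_left hC1
  refine ⟨9 * (Cm * (Real.exp 4 * Cq)), by positivity, fun w B hw0 hB g R hR => ?_⟩
  have hR0 : 0 ≤ R := by
    have h := (hw0 _).trans (hR 0)
    rwa [norm_zero, mul_zero, Real.exp_zero, mul_one] at h
  set C := Real.exp 4 * Cq * R with hC
  have hC0 : 0 ≤ C := by positivity
  -- the entries of the limit
  have hL : ∀ a b : Fin 3, ∃ L : ℝ, ∀ v : ℝ × ℝ,
      Real.exp (cmp v a - cmp v b) *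
        |Real.exp (-(cmp v a - cmp v b)) * B (D v * g) a b - L| ≤
        Cm * C * Real.exp (-ε * ‖v‖ / 2) := by
    intro a b
    have hstep : ∀ v u : ℝ × ℝ, ‖u‖ ≤ 1 →
        |Real.exp (-(cmp (v + u) a - cmp (v + u) b)) * B (D (v + u) * g) a b -
          Real.exp (-(cmp v a - cmp v b)) * B (D v * g) a b| ≤
        C * Real.exp (-ε * ‖v‖ - (cmp v a - cmp v b)) := by
      intro v u hu
      refine (P7A_step Cq w B hB g a b v u hu).trans ?_
      have h1 : Real.exp (-ε * ‖v‖ - (cmp v a - cmp v b)) =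
          Real.exp (-ε * ‖v‖) * Real.exp (-(cmp v a - cmp v b)) := by
        rw [← Real.exp_add]
        congr 1
      rw [h1]
      have h2 : Real.exp 4 * (Cq * w (D v * g)) ≤ C * Real.exp (-ε * ‖v‖) := by
        have h3 := mul_le_mul_of_nonneg_left (hR v) (by positivity : 0 ≤ Real.exp 4 * Cq)
        calc Real.exp 4 * (Cq * w (D v * g)) = Real.exp 4 * Cq * w (D v * g) := by ring
          _ ≤ Real.exp 4 * Cq * (R * Real.exp (-ε * ‖v‖)) := h3
          _ = _ := by rw [hC]; ring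
      calc Real.exp 4 * (Cq * w (D v * g)) * Real.exp (-(cmp v a - cmp v b))
          ≤ C * Real.exp (-ε * ‖v‖) * Real.exp (-(cmp v a - cmp v b)) :=
            mul_le_mul_of_nonneg_right h2 (Real.exp_pos _).le
        _ = _ := by ring
    by_cases hab : a = b
    · subst hab
      obtain ⟨L, hL⟩ := hdiag C
        (fun v => Real.exp (-(cmp v a - cmp v a)) * B (D v * g) a a) hC0 (fun v u hu => by
          have h := hstep v u hu
          rw [sub_self (cmp v a), sub_zero] at h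
          rw [sub_self (cmp v a)]
          exact h)
      refine ⟨L, fun v => ?_⟩
      rw [sub_self, Real.exp_zero, one_mul]
      have h := hL v
      rw [sub_self] at h
      refine h.trans ?_
      have h2 : C1 * C ≤ Cm * C := mul_le_mul_of_nonneg_right (le_max_left _ _) hC0
      exact mul_le_mul_of_nonneg_right h2 (Real.exp_pos _).le
    · obtain ⟨L, hL⟩ := hoff a b hab C
        (fun v => Real.exp (-(cmp v a - cmp v b)) * B (D v * g) a b) hC0 hstep
      refine ⟨L, fun v => ?_⟩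
      have h := mul_le_mul_of_nonneg_left (hL v) (Real.exp_pos (cmp v a - cmp v b)).le
      refine h.trans ?_
      have h1 : Real.exp (cmp v a - cmp v b) *
          (C2 * C * Real.exp (-ε * ‖v‖ - (cmp v a - cmp v b))) =
          C2 * C * Real.exp (-ε * ‖v‖) := by
        have h2 : Real.exp (-ε * ‖v‖) = Real.exp (cmp v a - cmp v b) *
            Real.exp (-ε * ‖v‖ - (cmp v a - cmp v b)) := by
          rw [← Real.exp_add]
          congr 1
          ring
        rw [h2]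
        ring
      rw [h1]
      have h2 : C2 * C ≤ Cm * C := mul_le_mul_of_nonneg_right (le_max_right _ _) hC0
      have h3 : Real.exp (-ε * ‖v‖) ≤ Real.exp (-ε * ‖v‖ / 2) := by
        apply Real.exp_le_exp.2
        have : 0 ≤ ε * ‖v‖ := by positivity
        linarith
      exact mul_le_mul h2 h3 (Real.exp_pos _).le (by positivity)
  choose Lm hLm using hL
  set L : Mat := Matrix.of Lm with hLdef
  have hgg : g.1 * (g⁻¹).1 = 1 := by
    rw [← Matrix.SpecialLinearGroup.coe_mul, mul_inv_cancel]; rfl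
  set ζ : Mat := -((g⁻¹).1 * L * g.1) with hζ
  have hNN : ∀ v : ℝ × ℝ, NN B ζ (D v * g) = B (D v * g) - (D v).1 * L * ((D v)⁻¹).1 := by
    intro v
    unfold NN
    have h1 : (D v * g).1 = (D v).1 * g.1 := rfl
    have h2 : ((D v * g)⁻¹).1 = (g⁻¹).1 * ((D v)⁻¹).1 := by
      rw [mul_inv_rev]; rfl
    rw [h1, h2, hζ]
    have h3 : (D v).1 * g.1 * -((g⁻¹).1 * L * g.1) * ((g⁻¹).1 * ((D v)⁻¹).1) =
        -((D v).1 * (g.1 * (g⁻¹).1) * L * (g.1 * (g⁻¹).1) * ((D v)⁻¹).1) := by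
      noncomm_ring
    rw [h3, hgg, mul_one, mul_one, ← sub_eq_add_neg]
  have hbound : ∀ v : ℝ × ℝ, nrm (NN B ζ (D v * g)) ≤
      9 * (Cm * (Real.exp 4 * Cq)) * R * Real.exp (-ε * ‖v‖ / 2) := by
    intro v
    have h1 : nrm (NN B ζ (D v * g)) ≤ 9 * (Cm * C * Real.exp (-ε * ‖v‖ / 2)) := by
      refine nrm_le_of_entries _ _ fun a b => ?_
      rw [hNN, Matrix.sub_apply, D_conj_entry]
      have h2 := hLm a b v
      refine le_trans (le_of_eq ?_) h2
      rw [← abs_of_pos (Real.exp_pos (cmp v a - cmp v b)), ← abs_mul,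
        abs_of_pos (Real.exp_pos (cmp v a - cmp v b)), mul_sub, ← mul_assoc, ← Real.exp_add,
        add_neg_cancel, Real.exp_zero, one_mul]
      rfl
    refine h1.trans (le_of_eq ?_)
    rw [hC]
    ring
  refine ⟨ζ, hbound, ?_⟩
  have h0 := hbound 0
  rw [D_zero, one_mul, norm_zero, mul_zero, zero_div, Real.exp_zero, mul_one] at h0
  have h0' := hNN 0
  rw [D_zero, one_mul, inv_one] at h0'
  have h1 : (1 : G).1 * L * (1 : G).1 = L := by
    change (1 : Mat) * L * (1 : Mat) = L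
    rw [one_mul, mul_one]
  rw [h1] at h0'
  have h2 : nrm L ≤ nrm (B g) + 9 * (Cm * (Real.exp 4 * Cq)) * R := by
    have h3 : L = B g - NN B ζ g := by rw [h0']; abel
    rw [h3]
    exact (nrm_sub_le _ _).trans (add_le_add le_rfl h0)
  rw [hζ, nrm_neg]
  calc nrm ((g⁻¹).1 * L * g.1) ≤ nrm (g⁻¹).1 * nrm L * nrm g.1 :=
        (nrm_mul_le _ _).trans (mul_le_mul_of_nonneg_right (nrm_mul_le _ _) (nrm_nonneg _))
    _ = nrm (g⁻¹).1 * nrm g.1 * nrm L := by ring
    _ ≤ _ := mul_le_mul_of_nonneg_left h2 (mul_nonneg (nrm_nonneg _) (nrm_nonneg _))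

end Pool.Agent.H88.LF

end S_H88_LF_P7A

section S_H88_LF_P7B

/-!
# P7B (blueprint 9.1, 9.2): functions on `G` only
-/

set_option autoImplicit false

open MeasureTheory Set Filter
open scoped Topology

namespace Pool.Agent.H88.LF

theorem P7B_dir (i l : Fin 3) (h : i ≠ l) (a b : Fin 3) :
    ∃ w : ℝ × ℝ, w ≠ 0 ∧ cmp w i = cmp w l ∧ cmp w b ≤ cmp w a := by
  have key : ∃ w : ℝ × ℝ, w ≠ 0 ∧ cmp w i = cmp w l := by
    obtain ⟨w, hw⟩ := exists_cmp (fun j => if j = i ∨ j = l then 1 else -2) (by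
      fin_cases i <;> fin_cases l <;> first | exact absurd rfl h | (simp; try norm_num))
    refine ⟨w, ?_, ?_⟩
    · rintro rfl
      have h1 := hw i
      rw [if_pos (Or.inl rfl)] at h1
      have h2 := abs_cmp_le 0 i
      rw [norm_zero, mul_zero, h1, abs_one] at h2
      linarith
    · rw [hw, hw, if_pos (Or.inl rfl), if_pos (Or.inr rfl)]
  obtain ⟨w, hw0, hw⟩ := key
  rcases le_total (cmp w b) (cmp w a) with h1 | h1
  · exact ⟨w, hw0, hw, h1⟩
  · refine ⟨-w, neg_ne_zero.2 hw0, ?_, ?_⟩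
    · rw [cmp_neg, cmp_neg, hw]
    · rw [cmp_neg, cmp_neg]
      exact neg_le_neg h1

/-- Half plane uniqueness: the boundary line `v_i = v_l` contains directions in which `v_a - v_b ≥ 0` for any given `(a,b)`. -/
theorem p7_half (i l : Fin 3) (h : i ≠ l) (M : Mat)
    (hM : ∀ δ : ℝ, 0 < δ → ∃ r : ℝ, ∀ v : ℝ × ℝ, r ≤ ‖v‖ → cmp v i ≤ cmp v l →
      nrm ((D v).1 * M * ((D v)⁻¹).1) ≤ δ) : M = 0 := by
  ext a b
  rw [Matrix.zero_apply]
  obtain ⟨w, hw0, hw, hab⟩ := P7B_dir i l h a b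
  have hwn : 0 < ‖w‖ := norm_pos_iff.2 hw0
  have key : ∀ δ : ℝ, 0 < δ → |M a b| ≤ δ := by
    intro δ hδ
    obtain ⟨r, hr⟩ := hM δ hδ
    set t : ℝ := |r| / ‖w‖ with ht
    have ht0 : 0 ≤ t := by positivity
    have h1 : r ≤ ‖t • w‖ := by
      rw [norm_smul, Real.norm_of_nonneg ht0, ht, div_mul_cancel₀ _ hwn.ne']
      exact le_abs_self r
    have h2 := hr (t • w) h1 (by rw [cmp_smul, cmp_smul, hw])
    have h3 := (abs_le_nrm _ a b).trans h2
    rw [D_conj_entry, abs_mul, abs_of_pos (Real.exp_pos _), cmp_smul, cmp_smul] at h3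
    have h4 : 1 ≤ Real.exp (t * cmp w a - t * cmp w b) := by
      apply Real.one_le_exp
      rw [← mul_sub]
      exact mul_nonneg ht0 (sub_nonneg.2 hab)
    calc |M a b| = 1 * |M a b| := (one_mul _).symm
      _ ≤ Real.exp (t * cmp w a - t * cmp w b) * |M a b| :=
        mul_le_mul_of_nonneg_right h4 (abs_nonneg _)
      _ ≤ δ := h3
  have h5 : |M a b| ≤ 0 := le_of_forall_pos_le_add fun δ hδ => by
    rw [zero_add]; exact key δ hδ
  exact abs_nonpos_iff.1 h5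

theorem P7B_ev {P : ℝ × ℝ → Prop} (h : ∀ᶠ v in cocompact (ℝ × ℝ), P v) :
    ∃ r : ℝ, ∀ v, r ≤ ‖v‖ → P v := by
  rw [← Metric.cobounded_eq_cocompact, ← comap_norm_atTop, eventually_comap,
    eventually_atTop] at h
  obtain ⟨r, hr⟩ := h
  exact ⟨r, fun v hv => hr ‖v‖ hv v rfl⟩

theorem P7B_diff (B : G → Mat) (ζ ζ' : Mat) (g : G) (v : ℝ × ℝ) :
    (D v).1 * (g.1 * (ζ - ζ') * (g⁻¹).1) * ((D v)⁻¹).1 =
      NN B ζ (D v * g) - NN B ζ' (D v * g) := by
  unfold NN
  have h1 : (D v * g).1 = (D v).1 * g.1 := rfl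
  have h2 : ((D v * g)⁻¹).1 = (g⁻¹).1 * ((D v)⁻¹).1 := by
    rw [mul_inv_rev]; rfl
  rw [h1, h2]
  noncomm_ring

theorem P7B_zero {ζ ζ' : Mat} {g : G} (h : g.1 * (ζ - ζ') * (g⁻¹).1 = 0) : ζ = ζ' := by
  have e0 : (g⁻¹).1 * g.1 = 1 := by
    rw [← Matrix.SpecialLinearGroup.coe_mul, inv_mul_cancel]; rfl
  have h1 : (g⁻¹).1 * (g.1 * (ζ - ζ') * (g⁻¹).1) * g.1 = 0 := by
    rw [h, mul_zero, zero_mul]
  have h2 : (g⁻¹).1 * (g.1 * (ζ - ζ') * (g⁻¹).1) * g.1 =
      ((g⁻¹).1 * g.1) * (ζ - ζ') * ((g⁻¹).1 * g.1) := by noncomm_ring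
  rw [h2, e0, one_mul, mul_one] at h1
  exact sub_eq_zero.1 h1

/-- Uniqueness of the stable correction at one `g`. -/
theorem Stab.unique {B : G → Mat} {ζ ζ' : Mat} {g : G} (h : Stab B ζ g) (h' : Stab B ζ' g) :
    ζ = ζ' := by
  apply P7B_zero (g := g)
  refine p7_half 0 1 (by decide) _ fun δ hδ => ?_
  have h1 := (tendsto_order.1 h).2 (δ / 2) (half_pos hδ)
  have h2 := (tendsto_order.1 h').2 (δ / 2) (half_pos hδ)
  obtain ⟨r, hr⟩ := P7B_ev (h1.and h2)
  refine ⟨r, fun v hv _ => ?_⟩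
  rw [P7B_diff B]
  have h3 := hr v hv
  exact (nrm_sub_le _ _).trans (by linarith [h3.1, h3.2])

/-- Invariance under root groups: on the half plane `v_i ≤ v_l` one has `D v * U = U' * D v` with `U' = U i l (s e^{v_i-v_l})` in a compact set. -/
theorem Stab.root_inv {w : G → ℝ} {B : G → Mat} (hq : Quasi w B) {ζ ζ' : Mat} {g : G}
    (i l : Fin 3) (h : i ≠ l) (s : ℝ)
    (hw : Tendsto (fun v : ℝ × ℝ => w (D v * g)) (cocompact (ℝ × ℝ)) (𝓝 0))
    (h1 : Stab B ζ g) (h2 : Stab B ζ' (U i l h s * g)) : ζ = ζ' := by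
  set Q : Set G := U i l h '' Icc (-|s|) |s| with hQ
  have hQc : IsCompact Q := isCompact_Icc.image (continuous_U i l h)
  obtain ⟨C, hC0, hC⟩ := hq Q hQc
  obtain ⟨C', hC'1, hC'⟩ := exists_bound_of_isCompact hQc
  have hC'0 : 0 < C' := by linarith
  apply P7B_zero (g := g)
  refine p7_half i l h _ fun δ hδ => ?_
  set η : ℝ := δ / (2 * (C' * C') * (1 + C)) with hη
  have hη0 : 0 < η := by positivity
  have e1 := (tendsto_order.1 h1).2 (δ / 2) (half_pos hδ)
  have e2 := (tendsto_order.1 h2).2 η hη0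
  have e3 := (tendsto_order.1 hw).2 η hη0
  obtain ⟨r, hr⟩ := P7B_ev ((e1.and e2).and e3)
  refine ⟨r, fun v hv hvil => ?_⟩
  rw [P7B_diff B]
  obtain ⟨⟨k1, k2⟩, k3⟩ := hr v hv
  set q : G := U i l h (Real.exp (cmp v i - cmp v l) * s) with hqdef
  have hqQ : q ∈ Q := by
    refine ⟨_, ?_, rfl⟩
    rw [Set.mem_Icc, ← abs_le, abs_mul, abs_of_pos (Real.exp_pos _)]
    have : Real.exp (cmp v i - cmp v l) ≤ 1 := by
      rw [Real.exp_le_one_iff]
      linarith
    exact mul_le_of_le_one_left (abs_nonneg _) this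
  have hcomm : D v * (U i l h s * g) = q * (D v * g) := by
    rw [← mul_assoc, D_mul_U, mul_assoc]
  rw [hcomm] at k2
  have hE := (hC q hqQ (D v * g)).2
  set x : G := D v * g with hx
  have hqi : (q⁻¹).1 * q.1 = 1 := by
    rw [← Matrix.SpecialLinearGroup.coe_mul, inv_mul_cancel]; rfl
  have hrel : NN B ζ' x = (q⁻¹).1 * (NN B ζ' (q * x) - (B (q * x) - q.1 * B x * (q⁻¹).1)) * q.1 := by
    unfold NN
    have m1 : (q * x).1 = q.1 * x.1 := rfl
    have m2 : ((q * x)⁻¹).1 = (x⁻¹).1 * (q⁻¹).1 := by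
      rw [mul_inv_rev]; rfl
    rw [m1, m2]
    have m3 : (q⁻¹).1 * (B (q * x) + q.1 * x.1 * ζ' * ((x⁻¹).1 * (q⁻¹).1) -
        (B (q * x) - q.1 * B x * (q⁻¹).1)) * q.1 =
        ((q⁻¹).1 * q.1) * (B x + x.1 * ζ' * (x⁻¹).1) * ((q⁻¹).1 * q.1) := by
      noncomm_ring
    rw [m3, hqi, one_mul, mul_one]
  have hbd : nrm (NN B ζ' x) ≤ δ / 2 := by
    rw [hrel]
    have n1 := (hC' q hqQ).1
    have n2 := (hC' q hqQ).2
    have n3 : nrm (NN B ζ' (q * x) - (B (q * x) - q.1 * B x * (q⁻¹).1)) ≤ η * (1 + C) := by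
      refine (nrm_sub_le _ _).trans ?_
      have n4 : C * w x ≤ C * η := mul_le_mul_of_nonneg_left k3.le hC0.le
      linarith
    calc nrm ((q⁻¹).1 * (NN B ζ' (q * x) - (B (q * x) - q.1 * B x * (q⁻¹).1)) * q.1)
        ≤ nrm (q⁻¹).1 * nrm (NN B ζ' (q * x) - (B (q * x) - q.1 * B x * (q⁻¹).1)) * nrm q.1 :=
          (nrm_mul_le _ _).trans (mul_le_mul_of_nonneg_right (nrm_mul_le _ _) (nrm_nonneg _))
      _ ≤ C' * (η * (1 + C)) * C' := by
          refine mul_le_mul ?_ n1 (nrm_nonneg _) (by positivity)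
          exact mul_le_mul n2 n3 (nrm_nonneg _) hC'0.le
      _ = δ / 2 := by
          rw [hη]
          field_simp
  exact (nrm_sub_le _ _).trans (by linarith)

end Pool.Agent.H88.LF

end S_H88_LF_P7B

section S_H88_LF_P7

/-!
# P7 (blueprint 9.1, 9.2): functions on `G` only
-/

set_option autoImplicit false

open MeasureTheory Set Filter
open scoped Topology

namespace Pool.Agent.H88.LF

/-- A direction in which `v_a - v_b` is nonnegative. -/
theorem p7_dir (a b : Fin 3) : ∃ v : ℝ × ℝ, v ≠ 0 ∧ 0 ≤ cmp v a - cmp v b := by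
  have h1 : ((1, 0) : ℝ × ℝ) ≠ 0 := by
    intro h
    have := congrArg Prod.fst h
    simp at this
  by_cases h : 0 ≤ cmp (1, 0) a - cmp (1, 0) b
  · exact ⟨(1, 0), h1, h⟩
  · refine ⟨-(1, 0), neg_ne_zero.2 h1, ?_⟩
    rw [cmp_neg, cmp_neg]
    linarith [not_le.1 h]

theorem p7_decay {ε R : ℝ} (hε : 0 < ε) :
    Tendsto (fun v : ℝ × ℝ => R * Real.exp (-ε * ‖v‖)) (cocompact (ℝ × ℝ)) (𝓝 0) := by
  have h1 : Tendsto (fun v : ℝ × ℝ => ε * ‖v‖) (cocompact (ℝ × ℝ)) atTop :=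
    (tendsto_norm_cocompact_atTop (E := ℝ × ℝ)).const_mul_atTop hε
  have h2 : Tendsto (fun v : ℝ × ℝ => Real.exp (-(ε * ‖v‖))) (cocompact (ℝ × ℝ)) (𝓝 0) :=
    Real.tendsto_exp_neg_atTop_nhds_zero.comp h1
  have h3 := h2.const_mul R
  rw [mul_zero] at h3
  refine h3.congr fun v => ?_
  rw [neg_mul]

/-- The entries of the stable correction are limits along fixed directions. -/
theorem p7_entry {B : G → Mat} {ζ : Mat} {g : G} (h : Stab B ζ g) (a b : Fin 3) (v : ℝ × ℝ)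
    (hv0 : v ≠ 0) (hv : 0 ≤ cmp v a - cmp v b) :
    Tendsto (fun n : ℕ => Real.exp (-(cmp ((n : ℝ) • v) a - cmp ((n : ℝ) • v) b)) *
      B (D ((n : ℝ) • v) * g) a b) atTop (𝓝 (-(g.1 * ζ * (g⁻¹).1) a b)) := by
  have h1 : Tendsto (fun n : ℕ => (n : ℝ) • v) atTop (cocompact (ℝ × ℝ)) := by
    rw [← Metric.cobounded_eq_cocompact, ← comap_norm_atTop, tendsto_comap_iff]
    have h2 : (norm ∘ fun n : ℕ => (n : ℝ) • v) = fun n : ℕ => (n : ℝ) * ‖v‖ := by
      funext n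
      simp [norm_smul]
    rw [h2]
    exact tendsto_natCast_atTop_atTop.atTop_mul_const (norm_pos_iff.2 hv0)
  have h2 := h.comp h1
  rw [tendsto_iff_norm_sub_tendsto_zero]
  refine squeeze_zero (fun n => norm_nonneg _) (fun n => ?_) h2
  set u := (n : ℝ) • v with hu
  have h3 : 0 ≤ cmp u a - cmp u b := by
    rw [hu, cmp_smul, cmp_smul, ← mul_sub]
    exact mul_nonneg (Nat.cast_nonneg n) hv
  have h4 : NN B ζ (D u * g) = B (D u * g) + (D u).1 * (g.1 * ζ * (g⁻¹).1) * ((D u)⁻¹).1 := by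
    unfold NN
    have h5 : (D u * g).1 = (D u).1 * g.1 := rfl
    have h6 : ((D u * g)⁻¹).1 = (g⁻¹).1 * ((D u)⁻¹).1 := by
      rw [mul_inv_rev]; rfl
    rw [h5, h6]
    noncomm_ring
  have h7 : NN B ζ (D u * g) a b = B (D u * g) a b +
      Real.exp (cmp u a - cmp u b) * (g.1 * ζ * (g⁻¹).1) a b := by
    rw [h4, Matrix.add_apply, D_conj_entry]
  have h8 : Real.exp (-(cmp u a - cmp u b)) * B (D u * g) a b - -(g.1 * ζ * (g⁻¹).1) a b =
      Real.exp (-(cmp u a - cmp u b)) * NN B ζ (D u * g) a b := by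
    rw [h7, mul_add, ← mul_assoc, ← Real.exp_add, neg_add_cancel, Real.exp_zero, one_mul,
      sub_neg_eq_add]
  show ‖Real.exp (-(cmp u a - cmp u b)) * B (D u * g) a b - -(g.1 * ζ * (g⁻¹).1) a b‖ ≤
    nrm (NN B ζ (D u * g))
  rw [h8, norm_mul, Real.norm_eq_abs, Real.norm_eq_abs, abs_of_pos (Real.exp_pos _)]
  calc Real.exp (-(cmp u a - cmp u b)) * |NN B ζ (D u * g) a b|
      ≤ 1 * |NN B ζ (D u * g) a b| := by
        refine mul_le_mul_of_nonneg_right ?_ (abs_nonneg _)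
        rw [← Real.exp_zero]
        exact Real.exp_le_exp.2 (by linarith)
    _ = |NN B ζ (D u * g) a b| := one_mul _
    _ ≤ _ := abs_le_nrm _ a b

/-- P7 core.  The stable correction `ζ(g)` exists for a.e. `g`; it is a measurable function of `g` (limit of continuous functions on the measurable full set where the
limit exists; entries one by one), invariant under root groups; `erg_fun`. -/
theorem p7_core (w : G → ℝ) (B : G → Mat) (hwc : Continuous w) (hBc : Continuous B)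
    (hw0 : ∀ g, 0 ≤ w g) (hq : Quasi w B) (ε : ℝ) (hε : 0 < ε) (hε1 : ε ≤ 1)
    (hgood : ∀ᵐ g ∂hG, ∃ R : ℝ, ∀ v : ℝ × ℝ, w (D v * g) ≤ R * Real.exp (-ε * ‖v‖)) :
    ∃ ζ : Mat, ∀ᵐ g ∂hG, Stab B ζ g := by
  classical
  obtain ⟨Cq, hCq, hq1⟩ := hq _ (isCompact_D_image 1)
  have hB1 : ∀ (u : ℝ × ℝ) (g : G), ‖u‖ ≤ 1 →
      nrm (B (D u * g) - (D u).1 * B g * ((D u)⁻¹).1) ≤ Cq * w g := by
    intro u g hu
    exact (hq1 (D u) ⟨u, hu, rfl⟩ g).2
  obtain ⟨C1, hC1, hex⟩ := p7_exists ε Cq hε hε1 hCq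
  have hstab : ∀ᵐ g ∂hG, ∃ ζ : Mat, Stab B ζ g := by
    filter_upwards [hgood] with g hg
    obtain ⟨R, hR⟩ := hg
    obtain ⟨ζ, hζ, -⟩ := hex w B hw0 hB1 g R hR
    refine ⟨ζ, ?_⟩
    refine squeeze_zero (fun v => nrm_nonneg _) hζ ?_
    have h := p7_decay (ε := ε / 2) (R := C1 * R) (by positivity)
    refine h.congr fun v => ?_
    congr 2
    ring
  have hwt : ∀ᵐ g ∂hG, Tendsto (fun v : ℝ × ℝ => w (D v * g)) (cocompact (ℝ × ℝ)) (𝓝 0) := by
    filter_upwards [hgood] with g hg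
    obtain ⟨R, hR⟩ := hg
    exact squeeze_zero (fun v => hw0 _) hR (p7_decay hε)
  -- the chosen correction
  let z : G → Mat := fun g => if h : ∃ ζ : Mat, Stab B ζ g then h.choose else 0
  have hz : ∀ g, (∃ ζ : Mat, Stab B ζ g) → Stab B (z g) g := by
    intro g hg
    show Stab B (if h : ∃ ζ : Mat, Stab B ζ g then h.choose else 0) g
    rw [dif_pos hg]
    exact hg.choose_spec
  -- measurability
  choose dir hdir0 hdir using p7_dir
  let Ln : ℕ → G → Mat := fun n g => Matrix.of fun a b =>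
    Real.exp (-(cmp ((n : ℝ) • dir a b) a - cmp ((n : ℝ) • dir a b) b)) *
      B (D ((n : ℝ) • dir a b) * g) a b
  have hLn : ∀ n, Continuous (Ln n) := by
    intro n
    refine continuous_matrix fun a b => ?_
    exact continuous_const.mul
      ((hBc.comp (continuous_const.mul continuous_id)).matrix_elem a b)
  let fn : ℕ → G → (Fin 3 → Fin 3 → ℝ) := fun n g => -((g⁻¹).1 * Ln n g * g.1)
  have hval : Continuous (fun g : G => (g.1 : Mat)) := closedEmb_val.continuous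
  have hfn : ∀ n, Continuous (fn n) := by
    intro n
    have h1 : Continuous (fun g : G => ((g⁻¹).1 : Mat)) := hval.comp continuous_inv
    exact ((h1.matrix_mul (hLn n)).matrix_mul hval).neg
  let z' : G → (Fin 3 → Fin 3 → ℝ) := z
  have hlim : ∀ᵐ g ∂hG, Tendsto (fun n => fn n g) atTop (𝓝 (z' g)) := by
    filter_upwards [hstab] with g hg
    have h1 := hz g hg
    have h2 : Tendsto (fun n => Ln n g) atTop (𝓝 (-(g.1 * z g * (g⁻¹).1))) := by
      refine tendsto_pi_nhds.2 fun a => tendsto_pi_nhds.2 fun b => ?_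
      exact p7_entry h1 a b (dir a b) (hdir0 a b) (hdir a b)
    have h3 : Continuous (fun M : Mat => (-((g⁻¹).1 * M * g.1) : Mat)) :=
      ((continuous_const.matrix_mul continuous_id).matrix_mul continuous_const).neg
    have h4 := (h3.tendsto _).comp h2
    have h5 : -((g⁻¹).1 * -(g.1 * z g * (g⁻¹).1) * g.1) = z g := by
      have h6 : (g⁻¹).1 * g.1 = 1 := by
        rw [← Matrix.SpecialLinearGroup.coe_mul, inv_mul_cancel]; rfl
      calc -((g⁻¹).1 * -(g.1 * z g * (g⁻¹).1) * g.1)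
          = ((g⁻¹).1 * g.1) * z g * ((g⁻¹).1 * g.1) := by noncomm_ring
        _ = z g := by rw [h6, one_mul, mul_one]
    rw [h5] at h4
    exact h4
  have hzm : AEMeasurable z' hG :=
    aemeasurable_of_tendsto_metrizable_ae' (fun n => (hfn n).measurable.aemeasurable) hlim
  -- invariance
  have hinv : ∀ (i l : Fin 3) (hil : i ≠ l) (s : ℝ), ∀ᵐ g ∂hG,
      hzm.mk z' (U i l hil s * g) = hzm.mk z' g := by
    intro i l hil s
    filter_upwards [hzm.ae_eq_mk, ae_mul_left (U i l hil s) hzm.ae_eq_mk, hstab,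
      ae_mul_left (U i l hil s) hstab, hwt] with g h1 h2 h3 h4 h5
    rw [← h1, ← h2]
    exact (Stab.root_inv hq i l hil s h5 (hz g h3) (hz _ h4)).symm
  obtain ⟨c, hc⟩ := erg_fun (hzm.mk z') hzm.measurable_mk hinv
  refine ⟨c, ?_⟩
  filter_upwards [hc, hzm.ae_eq_mk, hstab] with g h1 h2 h3
  have h4 : z g = c := h2.trans h1
  rw [← h4]
  exact hz g h3

end Pool.Agent.H88.LF

end S_H88_LF_P7

section S_H88_LF_TBD

/-!
# TBD (blueprint section 9): the orbit component of the images of the curves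

`bmp` as in `TNEX` (any nonnegative continuous bump, `> 0` on the cores, supported in the boxes).  With `(h,τ)` the pairs of box `j` with `g • c i t = h • c j τ`, `k_j = g⁻¹h`:
`B g i t = (∑_j bmp h τ • (g * dk i j t τ k_j * g⁻¹)) / (∑_j bmp h τ)`.
`rule`: for an arrow `k : (i,t) → (j',τ')`: `dk(k_j) = dk(k) + dτ(k) Ad(k) dk(k⁻¹k_j)` (`FB.dk_trans`).
`quasi`: for two pairs `(h,j,τ)` at `z = g • c i t` and `(h',l,υ)` at `q z`: `k_l = k_j (h⁻¹q⁻¹h')`, arrow `(j,τ) → (l,υ)` in a compact set, so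
`(qg) dk(k_l) (qg)⁻¹ = Ad(q)(Ad(g) dk(k_j) + dτ(k_j) Ad(h) dk(h⁻¹q⁻¹h'))` and `|dτ(k_j)| ≤ C W(g;i,t)` (`rule` of `T` and `W_bound`).
-/

set_option autoImplicit false

open MeasureTheory Set Filter
open scoped Topology

namespace Pool.Agent.H88.LF

/-- Orbit component of `g_* (c i)'(t)` with respect to a fixed splitting. -/
structure TB {X : Type} [TopologicalSpace X] [MulAction G X] {S : FB X} (T : TN S) where
  /-- the component -/
  B : G → Fin S.n → ℝ → Mat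
  cont : ∀ i, ContinuousOn (fun p : G × ℝ => B p.1 i p.2) {p | |p.2| < 1}
  tr : ∀ g i t, |t| < 1 → Matrix.trace (B g i t) = 0
  quasi : ∀ Q : Set G, IsCompact Q → ∃ C : ℝ, 0 < C ∧ ∀ q ∈ Q, ∀ (g : G) (i : Fin S.n) (t : ℝ),
    |t| < 1 → nrm (B (q * g) i t - q.1 * B g i t * (q⁻¹).1) ≤ C * T.W g i t
  rule : ∀ i j t τ k, S.Arr i j t τ k → ∀ g,
    B g i t = S.dτ i j t τ k • B (g * k) j τ + g.1 * S.dk i j t τ k * (g⁻¹).1

section
variable {X : Type} [MetricSpace X] [CompactSpace X] [MulAction G X] [ContinuousSMul G X]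

noncomputable def TBD_b (r : ℝ) (h : G) (τ : ℝ) : ℝ :=
  max 0 (r / 2 - nd h) * max 0 (3 / 4 - |τ|)

theorem TBD_b_cont (r : ℝ) : Continuous (fun p : G × ℝ => TBD_b r p.1 p.2) := by
  unfold TBD_b
  have h1 : Continuous (fun p : G × ℝ => nd p.1) := continuous_nd.comp continuous_fst
  exact (continuous_const.max (continuous_const.sub h1)).mul
    (continuous_const.max (continuous_const.sub continuous_snd.abs))

theorem TBD_b_nonneg (r : ℝ) (h : G) (τ : ℝ) : 0 ≤ TBD_b r h τ :=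
  mul_nonneg (le_max_left _ _) (le_max_left _ _)

theorem TBD_b_pos (S : FB X) (h : G) (τ : ℝ) (hh : nd h < S.ρ1) (hτ : |τ| < 1 / 2) :
    0 < TBD_b S.ρ0 h τ := by
  have h2 := S.hρ
  have h3 := S.hρ1
  refine mul_pos (lt_max_of_lt_right ?_) (lt_max_of_lt_right ?_) <;> linarith

theorem TBD_b_ne (r : ℝ) (h : G) (τ : ℝ) (hb : TBD_b r h τ ≠ 0) :
    nd h ≤ r / 2 ∧ |τ| ≤ 3 / 4 := by
  have h1 := left_ne_zero_of_mul hb
  have h2 := right_ne_zero_of_mul hb
  constructor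
  · by_contra hcon
    apply h1
    rw [max_eq_left]
    linarith
  · by_contra hcon
    apply h2
    rw [max_eq_left]
    linarith

def TBD_has (S : FB X) (j : Fin S.n) (x : X) : Prop :=
  ∃ p : G × ℝ, nd p.1 < S.ρ0 ∧ |p.2| < 1 ∧ x = p.1 • S.c j p.2

open Classical in
noncomputable def TBD_pr (S : FB X) (j : Fin S.n) (x : X) : G × ℝ :=
  if h : TBD_has S j x then h.choose else (1, 0)

theorem TBD_pr_eq (S : FB X) (j : Fin S.n) (x : X) (h : G) (τ : ℝ) (hh : nd h < S.ρ0)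
    (hτ : |τ| < 1) (hx : x = h • S.c j τ) : TBD_pr S j x = (h, τ) := by
  have hx' : TBD_has S j x := ⟨(h, τ), hh, hτ, hx⟩
  unfold TBD_pr
  rw [dif_pos hx']
  obtain ⟨h1, h2, h3⟩ := hx'.choose_spec
  obtain ⟨h4, h5⟩ := S.inj j _ _ _ _ h2 hτ h1 hh (h3.symm.trans hx)
  exact Prod.ext h4 h5

open Classical in
noncomputable def TBD_phi (S : FB X) (j : Fin S.n) (x : X) : ℝ :=
  if TBD_has S j x then TBD_b S.ρ0 (TBD_pr S j x).1 (TBD_pr S j x).2 else 0

theorem TBD_phi_eq (S : FB X) (j : Fin S.n) (x : X) (h : G) (τ : ℝ) (hh : nd h < S.ρ0)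
    (hτ : |τ| < 1) (hx : x = h • S.c j τ) : TBD_phi S j x = TBD_b S.ρ0 h τ := by
  unfold TBD_phi
  rw [if_pos ⟨(h, τ), hh, hτ, hx⟩, TBD_pr_eq S j x h τ hh hτ hx]

theorem TBD_phi_nonneg (S : FB X) (j : Fin S.n) (x : X) : 0 ≤ TBD_phi S j x := by
  unfold TBD_phi
  split_ifs
  · exact TBD_b_nonneg _ _ _
  · exact le_rfl

theorem TBD_ρ0_pos (S : FB X) : 0 < S.ρ0 := by
  have h1 := S.hρ
  have h2 := S.hρ1
  linarith

theorem TBD_phi_ne (S : FB X) (j : Fin S.n) (x : X) (hx : TBD_phi S j x ≠ 0) :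
    ∃ (h : G) (τ : ℝ), nd h ≤ S.ρ0 / 2 ∧ |τ| ≤ 3 / 4 ∧ x = h • S.c j τ := by
  have hhas : TBD_has S j x := by
    by_contra hn
    apply hx
    unfold TBD_phi
    rw [if_neg hn]
  obtain ⟨⟨h, τ⟩, hh, hτ, hx'⟩ := hhas
  rw [TBD_phi_eq S j x h τ hh hτ hx'] at hx
  obtain ⟨h1, h2⟩ := TBD_b_ne _ _ _ hx
  exact ⟨h, τ, h1, h2, hx'⟩

theorem TBD_sum_pos (S : FB X) (x : X) : 0 < ∑ j, TBD_phi S j x := by
  obtain ⟨j, h, τ, hh, hτ, hx⟩ := S.cover x
  have hρ : S.ρ1 < S.ρ0 := by have h1 := S.hρ; have h2 := S.hρ1; linarith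
  have h1 : 0 < TBD_phi S j x := by
    rw [TBD_phi_eq S j x h τ (hh.trans hρ) (by linarith) hx]
    exact TBD_b_pos S h τ hh hτ
  exact h1.trans_le (Finset.single_le_sum (f := fun j => TBD_phi S j x)
    (fun j _ => TBD_phi_nonneg S j x) (Finset.mem_univ j))

theorem TBD_has_nhds (S : FB X) (j : Fin S.n) (x0 : X) (h : TBD_has S j x0) :
    ∀ᶠ x in 𝓝 x0, TBD_has S j x := by
  have hopen : IsOpen {p : G × ℝ | nd p.1 < S.ρ0 ∧ |p.2| < 1} :=
    (isOpen_lt (continuous_nd.comp continuous_fst) continuous_const).inter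
      (isOpen_lt continuous_snd.abs continuous_const)
  have himg := S.isOpen_image j _ hopen (fun p hp => hp.2)
  obtain ⟨p, h1, h2, h3⟩ := h
  filter_upwards [himg.mem_nhds ⟨p, ⟨h1, h2⟩, h3.symm⟩] with x hx
  obtain ⟨q, ⟨hq1, hq2⟩, hq3⟩ := hx
  exact ⟨q, hq1, hq2, hq3.symm⟩

theorem TBD_pr_cont (S : FB X) (j : Fin S.n) (x0 : X) (h : TBD_has S j x0) :
    ContinuousAt (TBD_pr S j) x0 := by
  obtain ⟨p, h1, h2, h3⟩ := h
  have hp : TBD_pr S j x0 = p := TBD_pr_eq S j x0 p.1 p.2 h1 h2 h3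
  intro N hN
  rw [hp] at hN
  have hopen : IsOpen {p : G × ℝ | nd p.1 < S.ρ0 ∧ |p.2| < 1} :=
    (isOpen_lt (continuous_nd.comp continuous_fst) continuous_const).inter
      (isOpen_lt continuous_snd.abs continuous_const)
  obtain ⟨V, hV, hVo, hVm⟩ := mem_nhds_iff.1 (inter_mem hN (hopen.mem_nhds ⟨h1, h2⟩))
  have himg := S.isOpen_image j V hVo (fun p hp => (hV hp).2.2)
  rw [mem_map]
  filter_upwards [himg.mem_nhds ⟨p, hVm, h3.symm⟩] with x hx
  obtain ⟨q, hq, hq3⟩ := hx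
  obtain ⟨hq1, hq2⟩ := hV hq
  rw [mem_preimage, TBD_pr_eq S j x q.1 q.2 hq2.1 hq2.2 hq3.symm]
  exact hq1

theorem TBD_phi_zero_nhds (S : FB X) (j : Fin S.n) (x0 : X) (h : ¬ TBD_has S j x0) :
    ∀ᶠ x in 𝓝 x0, TBD_phi S j x = 0 := by
  have hcomp : IsCompact (Bl (S.ρ0 / 2) ×ˢ Icc (-(3 / 4) : ℝ) (3 / 4)) :=
    (isCompact_Bl _).prod isCompact_Icc
  have hcont : ContinuousOn (fun p : G × ℝ => p.1 • S.c j p.2)
      (Bl (S.ρ0 / 2) ×ˢ Icc (-(3 / 4) : ℝ) (3 / 4)) := by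
    refine (S.continuousOn_map j).mono ?_
    rintro ⟨h, τ⟩ ⟨_, hτ⟩
    have h1 := abs_le.2 hτ
    show |τ| < 1
    simp only at h1
    linarith
  have hclosed := (hcomp.image_of_continuousOn hcont).isClosed
  have hρ0 := TBD_ρ0_pos S
  have hnot : x0 ∉ (fun p : G × ℝ => p.1 • S.c j p.2) ''
      (Bl (S.ρ0 / 2) ×ˢ Icc (-(3 / 4) : ℝ) (3 / 4)) := by
    rintro ⟨⟨g, τ⟩, ⟨hg, hτ⟩, hx⟩
    have h1 := abs_le.2 hτ
    have h2 : nd g ≤ S.ρ0 / 2 := hg
    simp only at h1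
    exact h ⟨(g, τ), lt_of_le_of_lt h2 (by linarith), lt_of_le_of_lt h1 (by norm_num), hx.symm⟩
  filter_upwards [hclosed.isOpen_compl.mem_nhds hnot] with x hx
  by_contra hne
  obtain ⟨g, τ, h1, h2, h3⟩ := TBD_phi_ne S j x hne
  exact hx ⟨(g, τ), ⟨h1, abs_le.1 h2⟩, h3.symm⟩

theorem TBD_phi_cont (S : FB X) (j : Fin S.n) : Continuous (TBD_phi S j) := by
  rw [continuous_iff_continuousAt]
  intro x0
  by_cases h : TBD_has S j x0
  · have h1 : ContinuousAt (fun x => TBD_b S.ρ0 (TBD_pr S j x).1 (TBD_pr S j x).2) x0 :=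
      ContinuousAt.comp (g := fun p : G × ℝ => TBD_b S.ρ0 p.1 p.2) (f := TBD_pr S j)
        (TBD_b_cont S.ρ0).continuousAt (TBD_pr_cont S j x0 h)
    refine h1.congr_of_eventuallyEq ?_
    filter_upwards [TBD_has_nhds S j x0 h] with x hx
    unfold TBD_phi
    rw [if_pos hx]
  · have h1 := TBD_phi_zero_nhds S j x0 h
    exact (continuousAt_const (y := (0 : ℝ))).congr_of_eventuallyEq h1

noncomputable def TBD_psi (S : FB X) (j : Fin S.n) (x : X) : ℝ :=
  TBD_phi S j x / ∑ l, TBD_phi S l x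

theorem TBD_psi_nonneg (S : FB X) (j : Fin S.n) (x : X) : 0 ≤ TBD_psi S j x :=
  div_nonneg (TBD_phi_nonneg S j x) (TBD_sum_pos S x).le

theorem TBD_psi_sum (S : FB X) (x : X) : ∑ j, TBD_psi S j x = 1 := by
  unfold TBD_psi
  rw [← Finset.sum_div]
  exact div_self (TBD_sum_pos S x).ne'

theorem TBD_psi_cont (S : FB X) (j : Fin S.n) : Continuous (TBD_psi S j) := by
  unfold TBD_psi
  exact (TBD_phi_cont S j).div (continuous_finsetSum _ fun l _ => TBD_phi_cont S l)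
    (fun x => (TBD_sum_pos S x).ne')

theorem TBD_psi_ne (S : FB X) (j : Fin S.n) (x : X) (hx : TBD_psi S j x ≠ 0) :
    ∃ (h : G) (τ : ℝ), nd h ≤ S.ρ0 / 2 ∧ |τ| ≤ 3 / 4 ∧ x = h • S.c j τ := by
  apply TBD_phi_ne
  intro h
  apply hx
  unfold TBD_psi
  rw [h, zero_div]

/-- the term of the box `j` -/
noncomputable def TBD_M (S : FB X) (j : Fin S.n) (g : G) (i : Fin S.n) (t : ℝ) : Mat :=
  g.1 * S.dk i j t (TBD_pr S j (g • S.c i t)).2 (g⁻¹ * (TBD_pr S j (g • S.c i t)).1) * (g⁻¹).1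

theorem TBD_M_eq (S : FB X) (j : Fin S.n) (g : G) (i : Fin S.n) (t : ℝ) (h : G) (τ : ℝ)
    (hh : nd h < S.ρ0) (hτ : |τ| < 1) (hx : g • S.c i t = h • S.c j τ) :
    TBD_M S j g i t = g.1 * S.dk i j t τ (g⁻¹ * h) * (g⁻¹).1 := by
  unfold TBD_M
  rw [TBD_pr_eq S j _ h τ hh hτ hx]

theorem TBD_arr (S : FB X) {i j : Fin S.n} {t τ : ℝ} {g h : G} (ht : |t| < 1)
    (hτ : |τ| < 1) (hx : g • S.c i t = h • S.c j τ) : S.Arr i j t τ (g⁻¹ * h) := by
  refine ⟨ht, hτ, ?_⟩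
  rw [mul_smul, ← hx, inv_smul_smul]

noncomputable def TBD_B (S : FB X) (g : G) (i : Fin S.n) (t : ℝ) : Mat :=
  ∑ j, TBD_psi S j (g • S.c i t) • TBD_M S j g i t

theorem TBD_mat_inv (g : G) : g.1 * (g⁻¹).1 = 1 := by
  rw [← Matrix.SpecialLinearGroup.coe_mul, mul_inv_cancel]; rfl

theorem TBD_mat_inv' (g : G) : (g⁻¹).1 * g.1 = 1 := by
  rw [← Matrix.SpecialLinearGroup.coe_mul, inv_mul_cancel]; rfl

theorem TBD_map_cont (S : FB X) (i : Fin S.n) (g0 : G) (t0 : ℝ) (ht0 : |t0| < 1) :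
    ContinuousAt (fun p : G × ℝ => p.1 • S.c i p.2) (g0, t0) := by
  have hopen : IsOpen {p : G × ℝ | |p.2| < 1} := isOpen_lt (continuous_snd.abs) continuous_const
  exact (S.continuousOn_map i).continuousAt (hopen.mem_nhds ht0)

theorem TBD_comp_aux {α β γ : Type*} [TopologicalSpace α] [TopologicalSpace β]
    [TopologicalSpace γ] (K : β → γ) (F : α → β) (s : Set β) (a : α)
    (hK : ContinuousWithinAt K s (F a)) (hF : ContinuousAt F a) (hs : ∀ᶠ p in 𝓝 a, F p ∈ s) :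
    ContinuousAt (fun p => K (F p)) a := by
  have h1 : Tendsto F (𝓝 a) (𝓝[s] (F a)) := tendsto_nhdsWithin_iff.2 ⟨hF, hs⟩
  exact Tendsto.comp (g := K) (f := F) hK h1

noncomputable def TBD_F (S : FB X) (i j : Fin S.n) (p : G × ℝ) : ℝ × ℝ × G :=
  (p.2, (TBD_pr S j (p.1 • S.c i p.2)).2, p.1⁻¹ * (TBD_pr S j (p.1 • S.c i p.2)).1)

noncomputable def TBD_K (S : FB X) (i j : Fin S.n) (p : ℝ × ℝ × G) : Mat :=
  S.dk i j p.1 p.2.1 p.2.2

theorem TBD_M_def (S : FB X) (i j : Fin S.n) (p : G × ℝ) :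
    TBD_M S j p.1 i p.2 = p.1.1 * TBD_K S i j (TBD_F S i j p) * (p.1⁻¹).1 := rfl

theorem TBD_term_cont (S : FB X) (i j : Fin S.n) (g0 : G) (t0 : ℝ) (ht0 : |t0| < 1) :
    ContinuousAt (fun p : G × ℝ => TBD_psi S j (p.1 • S.c i p.2) • TBD_M S j p.1 i p.2)
      (g0, t0) := by
  have hmap := TBD_map_cont S i g0 t0 ht0
  by_cases h : TBD_has S j (g0 • S.c i t0)
  · have hpr : ContinuousAt (fun p : G × ℝ => TBD_pr S j (p.1 • S.c i p.2)) (g0, t0) :=
      ContinuousAt.comp (g := TBD_pr S j) (f := fun p : G × ℝ => p.1 • S.c i p.2)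
        (TBD_pr_cont S j _ h) hmap
    have hpr1 : ContinuousAt (fun p : G × ℝ => (TBD_pr S j (p.1 • S.c i p.2)).1) (g0, t0) :=
      continuousAt_fst.comp hpr
    have hpr2 : ContinuousAt (fun p : G × ℝ => (TBD_pr S j (p.1 • S.c i p.2)).2) (g0, t0) :=
      continuousAt_snd.comp hpr
    have hF : ContinuousAt (TBD_F S i j) (g0, t0) :=
      continuousAt_snd.prodMk (hpr2.prodMk (continuousAt_fst.inv.mul hpr1))
    have hev1 : ∀ᶠ p : G × ℝ in 𝓝 (g0, t0), TBD_has S j (p.1 • S.c i p.2) :=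
      hmap.eventually (TBD_has_nhds S j _ h)
    have hev2 : ∀ᶠ p : G × ℝ in 𝓝 (g0, t0), |p.2| < 1 :=
      (isOpen_lt (continuous_snd.abs) continuous_const).mem_nhds ht0
    have harr : ∀ (g : G) (t : ℝ), TBD_has S j (g • S.c i t) → |t| < 1 →
        TBD_F S i j (g, t) ∈ {p : ℝ × ℝ × G | S.Arr i j p.1 p.2.1 p.2.2} := by
      rintro g t ⟨q, h1, h2, h3⟩ ht
      have h4 := TBD_pr_eq S j _ q.1 q.2 h1 h2 h3
      have h5 : TBD_F S i j (g, t) = (t, q.2, g⁻¹ * q.1) := by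
        unfold TBD_F
        rw [h4]
      rw [h5]
      exact TBD_arr S ht h2 h3
    have hdk : ContinuousAt (fun p => TBD_K S i j (TBD_F S i j p)) (g0, t0) := by
      refine TBD_comp_aux (TBD_K S i j) (TBD_F S i j)
        {p : ℝ × ℝ × G | S.Arr i j p.1 p.2.1 p.2.2} (g0, t0) ?_ hF ?_
      · exact S.continuousOn_dk i j _ (harr g0 t0 h ht0)
      · filter_upwards [hev1, hev2] with p hp1 hp2
        exact harr p.1 p.2 hp1 hp2
    have hval : Continuous (fun p : G × ℝ => (p.1.1 : Mat)) :=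
      closedEmb_val.continuous.comp continuous_fst
    have hval' : Continuous (fun p : G × ℝ => ((p.1⁻¹).1 : Mat)) :=
      closedEmb_val.continuous.comp (continuous_inv.comp continuous_fst)
    have hM : ContinuousAt (fun p : G × ℝ => TBD_M S j p.1 i p.2) (g0, t0) := by
      have e : (fun p : G × ℝ => TBD_M S j p.1 i p.2) =
          fun p : G × ℝ => p.1.1 * TBD_K S i j (TBD_F S i j p) * (p.1⁻¹).1 := by
        funext p
        exact TBD_M_def S i j p
      rw [e]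
      exact (hval.continuousAt.mul hdk).mul hval'.continuousAt
    have hpsi : ContinuousAt (fun p : G × ℝ => TBD_psi S j (p.1 • S.c i p.2)) (g0, t0) :=
      ContinuousAt.comp (g := TBD_psi S j) (f := fun p : G × ℝ => p.1 • S.c i p.2)
        (TBD_psi_cont S j).continuousAt hmap
    exact hpsi.smul hM
  · have h1 : (fun p : G × ℝ => TBD_psi S j (p.1 • S.c i p.2) • TBD_M S j p.1 i p.2)
        =ᶠ[𝓝 (g0, t0)] fun _ => (0 : Mat) := by
      filter_upwards [hmap.eventually (TBD_phi_zero_nhds S j _ h)] with p hp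
      unfold TBD_psi
      rw [hp, zero_div, zero_smul]
    exact (continuousAt_const (y := (0 : Mat))).congr_of_eventuallyEq h1

theorem TBD_B_cont (S : FB X) (i : Fin S.n) :
    ContinuousOn (fun p : G × ℝ => TBD_B S p.1 i p.2) {p | |p.2| < 1} := by
  rintro ⟨g0, t0⟩ ht0
  refine ContinuousAt.continuousWithinAt ?_
  unfold TBD_B
  exact tendsto_finsetSum _ fun j _ => TBD_term_cont S i j g0 t0 ht0

theorem TBD_trace (S : FB X) (g : G) (i : Fin S.n) (t : ℝ) (ht : |t| < 1) :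
    Matrix.trace (TBD_B S g i t) = 0 := by
  unfold TBD_B
  rw [Matrix.trace_sum]
  refine Finset.sum_eq_zero fun j _ => ?_
  rw [Matrix.trace_smul]
  by_cases h : TBD_psi S j (g • S.c i t) = 0
  · rw [h, zero_smul]
  · obtain ⟨q, τ, h1, h2, h3⟩ := TBD_psi_ne S j _ h
    have hρ0 := TBD_ρ0_pos S
    have h4 : nd q < S.ρ0 := by linarith
    have h5 : |τ| < 1 := by linarith
    rw [TBD_M_eq S j g i t q τ h4 h5 h3, Matrix.trace_mul_comm, ← Matrix.mul_assoc,
      TBD_mat_inv', Matrix.one_mul, S.trace_dk (TBD_arr S ht h5 h3), smul_zero]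

theorem TBD_rule (S : FB X) (i j : Fin S.n) (t τ : ℝ) (k : G) (harr : S.Arr i j t τ k) (g : G) :
    TBD_B S g i t = S.dτ i j t τ k • TBD_B S (g * k) j τ + g.1 * S.dk i j t τ k * (g⁻¹).1 := by
  have hx0 : g • S.c i t = (g * k) • S.c j τ := by
    rw [harr.2.2, mul_smul]
  have hterm : ∀ l, TBD_psi S l (g • S.c i t) • TBD_M S l g i t =
      S.dτ i j t τ k • (TBD_psi S l ((g * k) • S.c j τ) • TBD_M S l (g * k) j τ) +
        TBD_psi S l (g • S.c i t) • (g.1 * S.dk i j t τ k * (g⁻¹).1) := by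
    intro l
    by_cases h : TBD_psi S l (g • S.c i t) = 0
    · rw [← hx0, h]
      simp
    · obtain ⟨q, υ, h1, h2, h3⟩ := TBD_psi_ne S l _ h
      have hρ0 := TBD_ρ0_pos S
      have h4 : nd q < S.ρ0 := by linarith
      have h5 : |υ| < 1 := by linarith
      have h3' : (g * k) • S.c j τ = q • S.c l υ := hx0.symm.trans h3
      rw [TBD_M_eq S l g i t q υ h4 h5 h3, TBD_M_eq S l (g * k) j τ q υ h4 h5 h3', ← hx0]
      have h6 := S.dk_trans harr (TBD_arr S harr.2.1 h5 h3')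
      have h7 : k * ((g * k)⁻¹ * q) = g⁻¹ * q := by group
      rw [h7] at h6
      rw [h6]
      have h8 : ((g * k)⁻¹).1 = (k⁻¹).1 * (g⁻¹).1 := by
        rw [mul_inv_rev, Matrix.SpecialLinearGroup.coe_mul]
      rw [h8, Matrix.SpecialLinearGroup.coe_mul, Matrix.mul_add, Matrix.add_mul, smul_add,
        add_comm]
      congr 1
      rw [Matrix.mul_smul, Matrix.smul_mul, smul_comm]
      congr 2
      simp only [Matrix.mul_assoc]
  unfold TBD_B
  rw [Finset.sum_congr rfl fun l _ => hterm l, Finset.sum_add_distrib, ← Finset.smul_sum,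
    ← Finset.sum_smul, TBD_psi_sum, one_smul]

theorem TBD_nrm_sum {ι : Type*} (s : Finset ι) (f : ι → Mat) :
    nrm (∑ i ∈ s, f i) ≤ ∑ i ∈ s, nrm (f i) := by
  classical
  induction s using Finset.induction_on with
  | empty => simp [nrm_zero]
  | insert a s ha ih =>
    rw [Finset.sum_insert ha, Finset.sum_insert ha]
    exact (nrm_add_le _ _).trans (by linarith)

theorem TBD_quasi (S : FB X) (T : TN S) (Q : Set G) (hQ : IsCompact Q) :
    ∃ C : ℝ, 0 < C ∧ ∀ q ∈ Q, ∀ (g : G) (i : Fin S.n) (t : ℝ),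
    |t| < 1 → nrm (TBD_B S (q * g) i t - q.1 * TBD_B S g i t * (q⁻¹).1) ≤ C * T.W g i t := by
  have hB := isCompact_Bl (S.ρ0 / 2)
  have hρ0 := TBD_ρ0_pos S
  -- the compact set of the elements m = h⁻¹ q⁻¹ h'
  let φ : G × G × G → G := fun p => p.1⁻¹ * p.2.1⁻¹ * p.2.2
  have hφ : Continuous φ := by
    show Continuous fun p : G × G × G => p.1⁻¹ * p.2.1⁻¹ * p.2.2
    fun_prop
  have hQ' : IsCompact (φ '' (Bl (S.ρ0 / 2) ×ˢ Q ×ˢ Bl (S.ρ0 / 2))) :=
    (hB.prod (hQ.prod hB)).image hφ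
  obtain ⟨C1, hC1, h1⟩ := S.exists_bound_arr (3 / 4) (by norm_num) _ hQ'
  obtain ⟨C2, hC2, h2⟩ := T.W_bound hB (3 / 4) (by norm_num)
  have hcont : Continuous (fun p : G × G => nrm (p.1 * p.2).1 * nrm ((p.1 * p.2)⁻¹).1) := by
    have e1 : Continuous (fun p : G × G => ((p.1 * p.2).1 : Mat)) :=
      closedEmb_val.continuous.comp (continuous_fst.mul continuous_snd)
    have e2 : Continuous (fun p : G × G => (((p.1 * p.2)⁻¹).1 : Mat)) :=
      closedEmb_val.continuous.comp (continuous_inv.comp (continuous_fst.mul continuous_snd))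
    exact (continuous_nrm.comp e1).mul (continuous_nrm.comp e2)
  obtain ⟨C3, h3⟩ := (hQ.prod hB).bddAbove_image hcont.continuousOn
  have hC30 : 0 ≤ max C3 0 := le_max_right _ _
  refine ⟨C2 * C1 * (max C3 0) + 1, by positivity, ?_⟩
  intro q hq g i t ht
  have hWpos := T.pos g i t ht
  -- the difference as a double sum
  have hqg : (q * g) • S.c i t = q • (g • S.c i t) := mul_smul _ _ _
  have key : ∀ l j, nrm ((TBD_psi S l ((q * g) • S.c i t) * TBD_psi S j (g • S.c i t)) •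
      (TBD_M S l (q * g) i t - q.1 * TBD_M S j g i t * (q⁻¹).1)) ≤
      (TBD_psi S l ((q * g) • S.c i t) * TBD_psi S j (g • S.c i t)) *
        (C2 * C1 * (max C3 0) * T.W g i t) := by
    intro l j
    rw [nrm_smul, abs_of_nonneg (mul_nonneg (TBD_psi_nonneg S _ _) (TBD_psi_nonneg S _ _))]
    by_cases hz : TBD_psi S l ((q * g) • S.c i t) * TBD_psi S j (g • S.c i t) = 0
    · rw [hz, zero_mul, zero_mul]
    · refine mul_le_mul_of_nonneg_left ?_
        (mul_nonneg (TBD_psi_nonneg S _ _) (TBD_psi_nonneg S _ _))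
      obtain ⟨h', υ, a1, a2, a3⟩ := TBD_psi_ne S l _ (left_ne_zero_of_mul hz)
      obtain ⟨h, τ, b1, b2, b3⟩ := TBD_psi_ne S j _ (right_ne_zero_of_mul hz)
      have a1' : nd h' < S.ρ0 := by linarith
      have b1' : nd h < S.ρ0 := by linarith
      have a2' : |υ| < 1 := by linarith
      have b2' : |τ| < 1 := by linarith
      rw [TBD_M_eq S l (q * g) i t h' υ a1' a2' a3, TBD_M_eq S j g i t h τ b1' b2' b3]
      have arr1 := TBD_arr S ht b2' b3
      have hx : (q * h) • S.c j τ = h' • S.c l υ := by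
        rw [mul_smul, ← b3, ← mul_smul, a3]
      have arr2 := TBD_arr S b2' a2' hx
      have h6 := S.dk_trans arr1 arr2
      have h7 : g⁻¹ * h * ((q * h)⁻¹ * h') = (q * g)⁻¹ * h' := by group
      rw [h7] at h6
      rw [h6]
      have h8 : (q * g).1 * (S.dk i j t τ (g⁻¹ * h) + S.dτ i j t τ (g⁻¹ * h) •
          ((g⁻¹ * h).1 * S.dk j l τ υ ((q * h)⁻¹ * h') * ((g⁻¹ * h)⁻¹).1)) * ((q * g)⁻¹).1 -
          q.1 * (g.1 * S.dk i j t τ (g⁻¹ * h) * (g⁻¹).1) * (q⁻¹).1 =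
          S.dτ i j t τ (g⁻¹ * h) • ((q * h).1 * S.dk j l τ υ ((q * h)⁻¹ * h') *
            ((q * h)⁻¹).1) := by
        have e1 : ((q * g)⁻¹).1 = (g⁻¹).1 * (q⁻¹).1 := by
          rw [mul_inv_rev, Matrix.SpecialLinearGroup.coe_mul]
        have e2 : (q * g).1 * (g⁻¹ * h).1 = (q * h).1 := by
          have e2' : q * g * (g⁻¹ * h) = q * h := by
            rw [mul_assoc, mul_inv_cancel_left]
          rw [← Matrix.SpecialLinearGroup.coe_mul, e2']
        have e3 : ((g⁻¹ * h)⁻¹).1 * ((q * g)⁻¹).1 = ((q * h)⁻¹).1 := by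
          have e3' : (g⁻¹ * h)⁻¹ * (q * g)⁻¹ = (q * h)⁻¹ := by
            rw [← mul_inv_rev, mul_assoc, mul_inv_cancel_left]
          rw [← Matrix.SpecialLinearGroup.coe_mul, e3']
        rw [Matrix.mul_add, Matrix.add_mul]
        have e4 : (q * g).1 * S.dk i j t τ (g⁻¹ * h) * ((q * g)⁻¹).1 =
            q.1 * (g.1 * S.dk i j t τ (g⁻¹ * h) * (g⁻¹).1) * (q⁻¹).1 := by
          rw [e1, Matrix.SpecialLinearGroup.coe_mul]
          simp only [Matrix.mul_assoc]
        rw [e4, add_sub_cancel_left, Matrix.mul_smul, Matrix.smul_mul, ← e2, ← e3]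
        congr 1
        simp only [Matrix.mul_assoc]
      rw [h8, nrm_smul]
      have h9 : |S.dτ i j t τ (g⁻¹ * h)| ≤ C2 * T.W g i t := by
        have e1 := T.rule i j t τ (g⁻¹ * h) arr1 g
        rw [mul_inv_cancel_left] at e1
        obtain ⟨e2, -⟩ := h2 h b1 j τ b2
        have e3 : 0 ≤ |S.dτ i j t τ (g⁻¹ * h)| := abs_nonneg _
        have hC2p : 0 < C2 := by linarith
        rw [e1]
        have e4 : C2⁻¹ * |S.dτ i j t τ (g⁻¹ * h)| ≤ T.W h j τ * |S.dτ i j t τ (g⁻¹ * h)| :=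
          mul_le_mul_of_nonneg_right e2 e3
        have e5 : |S.dτ i j t τ (g⁻¹ * h)| = C2 * (C2⁻¹ * |S.dτ i j t τ (g⁻¹ * h)|) := by
          rw [← mul_assoc, mul_inv_cancel₀ hC2p.ne', one_mul]
        calc |S.dτ i j t τ (g⁻¹ * h)| = C2 * (C2⁻¹ * |S.dτ i j t τ (g⁻¹ * h)|) := e5
          _ ≤ C2 * (T.W h j τ * |S.dτ i j t τ (g⁻¹ * h)|) :=
            mul_le_mul_of_nonneg_left e4 hC2p.le
      have hmem : (q * h)⁻¹ * h' ∈ φ '' (Bl (S.ρ0 / 2) ×ˢ Q ×ˢ Bl (S.ρ0 / 2)) := by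
        refine ⟨(h, q, h'), ⟨b1, hq, a1⟩, ?_⟩
        show h⁻¹ * q⁻¹ * h' = _
        rw [mul_inv_rev]
      have h10 : nrm (S.dk j l τ υ ((q * h)⁻¹ * h')) ≤ C1 := (h1 j l τ υ _ b2 a2 hmem arr2).2.2
      have h11 : nrm (q * h).1 * nrm ((q * h)⁻¹).1 ≤ max C3 0 :=
        (h3 ⟨(q, h), ⟨hq, b1⟩, rfl⟩).trans (le_max_left _ _)
      have h12 : nrm ((q * h).1 * S.dk j l τ υ ((q * h)⁻¹ * h') * ((q * h)⁻¹).1) ≤
          C1 * max C3 0 := by
        calc nrm ((q * h).1 * S.dk j l τ υ ((q * h)⁻¹ * h') * ((q * h)⁻¹).1) ≤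
            nrm (q * h).1 * nrm (S.dk j l τ υ ((q * h)⁻¹ * h')) * nrm ((q * h)⁻¹).1 :=
              (nrm_mul_le _ _).trans
                (mul_le_mul_of_nonneg_right (nrm_mul_le _ _) (nrm_nonneg _))
          _ = nrm (S.dk j l τ υ ((q * h)⁻¹ * h')) * (nrm (q * h).1 * nrm ((q * h)⁻¹).1) := by
              ring
          _ ≤ C1 * max C3 0 :=
              mul_le_mul h10 h11 (mul_nonneg (nrm_nonneg _) (nrm_nonneg _)) (by linarith)
      calc |S.dτ i j t τ (g⁻¹ * h)| *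
            nrm ((q * h).1 * S.dk j l τ υ ((q * h)⁻¹ * h') * ((q * h)⁻¹).1) ≤
            (C2 * T.W g i t) * (C1 * max C3 0) :=
              mul_le_mul h9 h12 (nrm_nonneg _) (by positivity)
        _ = C2 * C1 * (max C3 0) * T.W g i t := by ring
  have hdiff : TBD_B S (q * g) i t - q.1 * TBD_B S g i t * (q⁻¹).1 =
      ∑ l, ∑ j, (TBD_psi S l ((q * g) • S.c i t) * TBD_psi S j (g • S.c i t)) •
        (TBD_M S l (q * g) i t - q.1 * TBD_M S j g i t * (q⁻¹).1) := by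
    have e1 : TBD_B S (q * g) i t = ∑ l, ∑ j,
        (TBD_psi S l ((q * g) • S.c i t) * TBD_psi S j (g • S.c i t)) •
          TBD_M S l (q * g) i t := by
      unfold TBD_B
      refine Finset.sum_congr rfl fun l _ => ?_
      rw [← Finset.sum_smul, ← Finset.mul_sum, TBD_psi_sum, mul_one]
    have e2 : q.1 * TBD_B S g i t * (q⁻¹).1 = ∑ l, ∑ j,
        (TBD_psi S l ((q * g) • S.c i t) * TBD_psi S j (g • S.c i t)) •
          (q.1 * TBD_M S j g i t * (q⁻¹).1) := by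
      rw [Finset.sum_comm]
      unfold TBD_B
      rw [Finset.mul_sum, Finset.sum_mul]
      refine Finset.sum_congr rfl fun j _ => ?_
      rw [← Finset.sum_smul, ← Finset.sum_mul, TBD_psi_sum, one_mul, Matrix.mul_smul,
        Matrix.smul_mul]
    rw [e1, e2, ← Finset.sum_sub_distrib]
    refine Finset.sum_congr rfl fun l _ => ?_
    rw [← Finset.sum_sub_distrib]
    refine Finset.sum_congr rfl fun j _ => ?_
    rw [smul_sub]
  rw [hdiff]
  calc nrm (∑ l, ∑ j, (TBD_psi S l ((q * g) • S.c i t) * TBD_psi S j (g • S.c i t)) •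
        (TBD_M S l (q * g) i t - q.1 * TBD_M S j g i t * (q⁻¹).1))
      ≤ ∑ l, ∑ j, (TBD_psi S l ((q * g) • S.c i t) * TBD_psi S j (g • S.c i t)) *
        (C2 * C1 * (max C3 0) * T.W g i t) := by
        refine (TBD_nrm_sum _ _).trans (Finset.sum_le_sum fun l _ => ?_)
        exact (TBD_nrm_sum _ _).trans (Finset.sum_le_sum fun j _ => key l j)
    _ = C2 * C1 * (max C3 0) * T.W g i t := by
        have : ∀ l, ∑ j, (TBD_psi S l ((q * g) • S.c i t) * TBD_psi S j (g • S.c i t)) *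
            (C2 * C1 * (max C3 0) * T.W g i t) =
            TBD_psi S l ((q * g) • S.c i t) * (C2 * C1 * (max C3 0) * T.W g i t) := by
          intro l
          rw [← Finset.sum_mul, ← Finset.mul_sum, TBD_psi_sum, mul_one]
        rw [Finset.sum_congr rfl fun l _ => this l, ← Finset.sum_mul, TBD_psi_sum, one_mul]
    _ ≤ (C2 * C1 * (max C3 0) + 1) * T.W g i t := by nlinarith

end

/-- TBD -/
theorem exists_TB {X : Type} [MetricSpace X] [CompactSpace X] [MulAction G X]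
    [ContinuousSMul G X] {S : FB X} (T : TN S) : Nonempty (TB T) :=
  ⟨{ B := TBD_B S
     cont := TBD_B_cont S
     tr := TBD_trace S
     quasi := TBD_quasi S T
     rule := TBD_rule S }⟩

end Pool.Agent.H88.LF

end S_H88_LF_TBD

section S_H88_LF_P7C

/-!
# P7C (blueprint 9.3): the invariant line field

For `|t| < 1` let `w g = W g i t`, `B g = B g i t` (continuous in `g`); `W(D v g;i,t) = J(D v g, c i t) W(1;i,t)` decays for a.e. `g` (`good_unif`); `Quasi` from `J_bound` and `quasi`; `p7_core` gives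
`ζ i t` (unique by `Stab.unique`).
Trace: take traces in `NN → 0`: `tr (NN) = tr ζ`.
Arrows: `B g i t + g ζ g⁻¹ = dτ • (B (gk) j τ + (gk) ζ' (gk)⁻¹)` with `ζ' = dτ⁻¹ k⁻¹(dk + ζ)k` (`rule`); for a.e. `g` the left side at `D v g` tends to `0`, and a.e. is stable under right translation
(`ae_mul_right`), so `ζ' = ζ j τ`.
Continuity at `t∞`: let `t_m → t∞`.  With `ρ, ε` from `good_unif` choose `R` with bad measure `≤ hG(Bl ρ)/4`; near `t∞` the factors `W(1;i,t)` are bounded, so the constants `R' = R·sup W(1;i,·)` are uniform.  By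
`p7_exists` and a.e. uniqueness `nrm (ζ i t_m) ≤ C`.  If `ζ i t_m` does not converge to `ζ i t∞` take a subsequence converging to `ζ* ≠ ζ i t∞`.  The set of `g ∈ Bl ρ` which are `R`-good for infinitely many
`t_m` of the subsequence has measure `≥ 3/4 hG(Bl ρ)`, so it contains some `g` with: `Stab` for all `(t_m, ζ i t_m)` and for `(t∞, ζ i t∞)`.  By uniqueness at `g` the `ζ` of `p7_exists` is `ζ i t_m`, so
`nrm (NN (B · i t_m) (ζ i t_m) (D v g)) ≤ C R' e^{-ε‖v‖/2}` for infinitely many `m`; by continuity of `B` in `t` the same for `(t∞, ζ*)`: `Stab` for `ζ*` at `t∞`, so `ζ* = ζ i t∞`.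
-/

set_option autoImplicit false

open MeasureTheory Set Filter
open scoped Topology ENNReal

namespace Pool.Agent.H88.LF

variable {X : Type} [MetricSpace X] [CompactSpace X] [MulAction G X] [ContinuousSMul G X]

/-- Existence for one curve and one parameter. -/
theorem P7C_one {S : FB X} {T : TN S} (hC : T.CStar) (Bd : TB T) (i : Fin S.n) (t : ℝ)
    (ht : |t| < 1) : ∃ ζ : Mat, ∀ᵐ g ∂hG, Stab (fun g => Bd.B g i t) ζ g := by
  obtain ⟨ρ, -, -, ε, hε, hε1, -, hae⟩ := good_unif hC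
  have hpair : Continuous (fun g : G => ((g, t) : G × ℝ)) := by fun_prop
  have hwc : Continuous (fun g : G => T.W g i t) := by
    rw [← continuousOn_univ]
    exact (T.cont i).comp hpair.continuousOn (fun g _ => ht)
  have hBc : Continuous (fun g : G => Bd.B g i t) := by
    rw [← continuousOn_univ]
    exact (Bd.cont i).comp hpair.continuousOn (fun g _ => ht)
  refine p7_core (fun g => T.W g i t) (fun g => Bd.B g i t) hwc hBc
    (fun g => (T.pos g i t ht).le) ?_ ε hε hε1 ?_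
  · intro Q hQ
    obtain ⟨C1, hC1, h1⟩ := T.J_bound hQ
    obtain ⟨C2, hC2, h2⟩ := Bd.quasi Q hQ
    refine ⟨max C1 C2, lt_max_of_lt_right hC2, fun q hq g => ⟨?_, ?_⟩⟩
    · change T.W (q * g) i t ≤ max C1 C2 * T.W g i t
      rw [T.W_mul q g i t ht]
      exact mul_le_mul_of_nonneg_right ((h1 q hq _).2.trans (le_max_left _ _)) (T.pos g i t ht).le
    · refine (h2 q hq g i t ht).trans ?_
      exact mul_le_mul_of_nonneg_right (le_max_right _ _) (T.pos g i t ht).le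
  · filter_upwards [hae (S.c i t)] with g hg
    obtain ⟨R, hR⟩ := hg
    refine ⟨R * T.W 1 i t, fun v => ?_⟩
    have h1 := T.W_mul (D v * g) 1 i t ht
    rw [mul_one, one_smul] at h1
    change T.W (D v * g) i t ≤ _
    rw [h1]
    calc T.J (D v * g) (S.c i t) * T.W 1 i t ≤ (R * Real.exp (-ε * ‖v‖)) * T.W 1 i t :=
          mul_le_mul_of_nonneg_right (hR v) (T.pos 1 i t ht).le
      _ = R * T.W 1 i t * Real.exp (-ε * ‖v‖) := by ring

theorem P7C_exists {p : G → Prop} (h : ∀ᵐ g ∂hG, p g) : ∃ g, p g := by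
  have : (hG : Measure G) ≠ 0 := NeZero.ne _
  haveI : NeBot (ae (hG : Measure G)) := ae_neBot.2 this
  exact h.exists

theorem P7C_trace {S : FB X} {T : TN S} (Bd : TB T) (i : Fin S.n) (t : ℝ) (ht : |t| < 1)
    {ζ : Mat} {g : G} (h : Stab (fun g => Bd.B g i t) ζ g) : Matrix.trace ζ = 0 := by
  have h1 : ∀ v : ℝ × ℝ, Matrix.trace (NN (fun g => Bd.B g i t) ζ (D v * g)) = Matrix.trace ζ := by
    intro v
    unfold NN
    rw [Matrix.trace_add, Bd.tr _ _ _ ht, zero_add, Matrix.trace_mul_comm, ← mul_assoc]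
    have h2 : ((D v * g)⁻¹).1 * (D v * g).1 = 1 := by
      rw [← Matrix.SpecialLinearGroup.coe_mul, inv_mul_cancel]; rfl
    rw [h2, one_mul]
  have h2 : ∀ v : ℝ × ℝ, |Matrix.trace ζ| ≤ 3 * nrm (NN (fun g => Bd.B g i t) ζ (D v * g)) := by
    intro v
    rw [← h1 v, Matrix.trace, Fin.sum_univ_three]
    refine (abs_add_le _ _).trans ?_
    have a0 := abs_le_nrm (NN (fun g => Bd.B g i t) ζ (D v * g)) 0 0
    have a1 := abs_le_nrm (NN (fun g => Bd.B g i t) ζ (D v * g)) 1 1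
    have a2 := abs_le_nrm (NN (fun g => Bd.B g i t) ζ (D v * g)) 2 2
    have a3 := abs_add_le (NN (fun g => Bd.B g i t) ζ (D v * g) 0 0)
      (NN (fun g => Bd.B g i t) ζ (D v * g) 1 1)
    simp only [Matrix.diag_apply]
    linarith
  have h3 : Tendsto (fun v : ℝ × ℝ => 3 * nrm (NN (fun g => Bd.B g i t) ζ (D v * g)))
      (cocompact (ℝ × ℝ)) (𝓝 (3 * 0)) := h.const_mul 3
  rw [mul_zero] at h3
  have h4 : |Matrix.trace ζ| ≤ 0 := ge_of_tendsto h3 (Eventually.of_forall h2)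
  exact abs_nonpos_iff.1 h4

theorem P7C_arr {S : FB X} {T : TN S} (Bd : TB T) {i j : Fin S.n} {t τ : ℝ} {k : G}
    (harr : S.Arr i j t τ k) {ζ : Mat} {g : G}
    (h : Stab (fun g => Bd.B g j τ) ζ (g * k)) :
    Stab (fun g => Bd.B g i t)
      (S.dτ i j t τ k • (k.1 * ζ * (k⁻¹).1) - S.dk i j t τ k) g := by
  have h1 : ∀ v : ℝ × ℝ, NN (fun g => Bd.B g i t)
      (S.dτ i j t τ k • (k.1 * ζ * (k⁻¹).1) - S.dk i j t τ k) (D v * g) =
      S.dτ i j t τ k • NN (fun g => Bd.B g j τ) ζ (D v * (g * k)) := by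
    intro v
    unfold NN
    have m1 : (D v * (g * k)).1 = (D v * g).1 * k.1 := by
      rw [← mul_assoc]; rfl
    have m2 : ((D v * (g * k))⁻¹).1 = (k⁻¹).1 * ((D v * g)⁻¹).1 := by
      rw [← mul_assoc, mul_inv_rev]; rfl
    have m3 : D v * (g * k) = D v * g * k := (mul_assoc _ _ _).symm
    simp only []
    rw [Bd.rule i j t τ k harr (D v * g), m1, m2, m3, mul_sub, sub_mul, mul_smul_comm,
      smul_mul_assoc, smul_add]
    simp only [mul_assoc]
    abel
  unfold Stab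
  have h2 : Tendsto (fun v : ℝ × ℝ => |S.dτ i j t τ k| *
      nrm (NN (fun g => Bd.B g j τ) ζ (D v * (g * k)))) (cocompact (ℝ × ℝ))
      (𝓝 (|S.dτ i j t τ k| * 0)) := h.const_mul _
  rw [mul_zero] at h2
  refine h2.congr fun v => ?_
  rw [h1 v, nrm_smul]

/-- Existence of `ζ` and the transformation law. -/
theorem line_field_ae {S : FB X} {T : TN S} (hC : T.CStar) (Bd : TB T) :
    ∃ ζ : Fin S.n → ℝ → Mat,
      (∀ i t, |t| < 1 → ∀ᵐ g ∂hG, Stab (fun g => Bd.B g i t) (ζ i t) g) ∧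
      (∀ i t, |t| < 1 → Matrix.trace (ζ i t) = 0) ∧
      ∀ i j t τ k, S.Arr i j t τ k →
        S.dk i j t τ k + ζ i t = S.dτ i j t τ k • (k.1 * ζ j τ * (k⁻¹).1) := by
  have h : ∀ (i : Fin S.n) (t : ℝ), ∃ ζ : Mat, |t| < 1 →
      ∀ᵐ g ∂hG, Stab (fun g => Bd.B g i t) ζ g := by
    intro i t
    by_cases ht : |t| < 1
    · obtain ⟨ζ, hζ⟩ := P7C_one hC Bd i t ht
      exact ⟨ζ, fun _ => hζ⟩
    · exact ⟨0, fun h => absurd h ht⟩
  choose ζ hζ using h
  refine ⟨ζ, hζ, fun i t ht => ?_, fun i j t τ k harr => ?_⟩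
  · obtain ⟨g, hg⟩ := P7C_exists (hζ i t ht)
    exact P7C_trace Bd i t ht hg
  · obtain ⟨g, h1, h2⟩ := P7C_exists ((hζ i t harr.1).and (ae_mul_right k (hζ j τ harr.2.1)))
    have h3 := h1.unique (P7C_arr Bd harr h2)
    rw [h3]
    abel

end Pool.Agent.H88.LF

end S_H88_LF_P7C

section S_H88_LF_P7E

/-!
# P7E (blueprint 9.3): continuity of the line field; proof in the header of P7C
-/

set_option autoImplicit false

open MeasureTheory Set Filter
open scoped Topology ENNReal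

namespace Pool.Agent.H88.LF

/-- exponential bounds give stability -/
theorem p7e_stab {B : G → Mat} {ζ : Mat} {g : G} {C ε : ℝ} (hε : 0 < ε)
    (h : ∀ v : ℝ × ℝ, nrm (NN B ζ (D v * g)) ≤ C * Real.exp (-ε * ‖v‖ / 2)) : Stab B ζ g := by
  refine tendsto_of_bound (ε / 2) C (by linarith) _ fun v => ?_
  rw [abs_of_nonneg (nrm_nonneg _)]
  refine (h v).trans (le_of_eq ?_)
  congr 2
  ring

variable {X : Type} [MetricSpace X] [CompactSpace X] [MulAction G X] [ContinuousSMul G X]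

/-- the bounds at good points -/
theorem p7e_good {S : FB X} {T : TN S} (Bd : TB T) (ε : ℝ) (hε : 0 < ε) (hε1 : ε ≤ 1) :
    ∃ C : ℝ, 0 < C ∧ ∀ (i : Fin S.n) (t : ℝ), |t| < 1 → ∀ (g : G) (R : ℝ),
      (∀ v : ℝ × ℝ, T.W (D v * g) i t ≤ R * Real.exp (-ε * ‖v‖)) → ∀ ζ : Mat,
        Stab (fun g => Bd.B g i t) ζ g →
          (∀ v : ℝ × ℝ, nrm (NN (fun g => Bd.B g i t) ζ (D v * g)) ≤
            C * R * Real.exp (-ε * ‖v‖ / 2)) ∧
          nrm ζ ≤ nrm (g⁻¹).1 * nrm g.1 * (nrm (Bd.B g i t) + C * R) := by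
  obtain ⟨Cq, hCq, hq⟩ := Bd.quasi _ (isCompact_D_image 1)
  obtain ⟨C, hC, h⟩ := p7_exists ε Cq hε hε1 hCq
  refine ⟨C, hC, fun i t ht g R hg ζ hζ => ?_⟩
  obtain ⟨ζ', h1, h2⟩ := h (fun g => T.W g i t) (fun g => Bd.B g i t)
    (fun g => (T.pos g i t ht).le) (fun u g hu => hq (D u) ⟨u, hu, rfl⟩ g i t ht) g R hg
  have h3 : ζ = ζ' := hζ.unique (p7e_stab hε h1)
  rw [h3]
  exact ⟨h1, h2⟩

/-- Continuity of `ζ`. -/
theorem line_field_cont {S : FB X} {T : TN S} (hC : T.CStar) (Bd : TB T)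
    (ζ : Fin S.n → ℝ → Mat)
    (hζ : ∀ i t, |t| < 1 → ∀ᵐ g ∂hG, Stab (fun g => Bd.B g i t) (ζ i t) g) :
    ∀ i t, |t| < 1 → ContinuousAt (ζ i) t := by
  intro i t0 ht0
  obtain ⟨ρ, hρ0, hρ1, ε, hε, hε1, hunif, -⟩ := good_unif hC
  obtain ⟨C, hC0, hgood⟩ := p7e_good Bd ε hε hε1
  -- the measure of the ball
  set μ : ℝ≥0∞ := hG (Bl ρ) with hμ
  have hμpos : 0 < μ := hG_Bl_pos hρ0
  have hμtop : μ < ⊤ := hG_Bl_lt_top ρ
  have hμr : 0 < μ.toReal := ENNReal.toReal_pos hμpos.ne' hμtop.ne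
  obtain ⟨R, hR1, hR⟩ := hunif (μ.toReal / 4) (by positivity)
  have hquarter : ENNReal.ofReal (μ.toReal / 4) < μ := by
    rw [ENNReal.ofReal_lt_iff_lt_toReal (by positivity) hμtop.ne]
    linarith
  -- uniform constants near `t0`
  set r : ℝ := (1 + |t0|) / 2 with hr
  have hr1 : r < 1 := by rw [hr]; linarith
  have hr0 : |t0| < r := by rw [hr]; linarith
  obtain ⟨Wb, hWb1, hWb⟩ := T.W_bound (Q := {1}) isCompact_singleton r hr1
  have hWle : ∀ t : ℝ, |t| ≤ r → ∀ g : G,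
      (∀ v : ℝ × ℝ, T.J (D v * g) (S.c i t) ≤ R * Real.exp (-ε * ‖v‖)) →
      ∀ v : ℝ × ℝ, T.W (D v * g) i t ≤ R * Wb * Real.exp (-ε * ‖v‖) := by
    intro t ht g hg v
    have ht1 : |t| < 1 := lt_of_le_of_lt ht hr1
    have h1 := T.W_mul (D v * g) 1 i t ht1
    rw [mul_one, one_smul] at h1
    rw [h1]
    have h2 := (hWb 1 rfl i t ht).2
    have h3 := T.pos 1 i t ht1
    have h4 : 0 ≤ R * Real.exp (-ε * ‖v‖) := by positivity
    calc T.J (D v * g) (S.c i t) * T.W 1 i t ≤ (R * Real.exp (-ε * ‖v‖)) * Wb :=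
          mul_le_mul (hg v) h2 h3.le h4
      _ = _ := by ring
  -- the set of bad points
  set bad : ℝ → Set G := fun t => {g | g ∈ Bl ρ ∧
    ¬ ∀ v : ℝ × ℝ, T.J (D v * g) (S.c i t) ≤ R * Real.exp (-ε * ‖v‖)} with hbad
  have hbadm : ∀ t, hG (bad t) ≤ ENNReal.ofReal (μ.toReal / 4) := fun t => hR (S.c i t)
  -- boundedness of `ζ`
  obtain ⟨Z, hZ⟩ : ∃ Z : ℝ, ∀ t : ℝ, |t| ≤ r → nrm (ζ i t) ≤ Z := by
    have hcpt := FBC_cpt (isCompact_Bl ρ) r
    have hBc : ContinuousOn (fun p : G × ℝ => nrm (Bd.B p.1 i p.2)) (Bl ρ ×ˢ {t : ℝ | |t| ≤ r}) :=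
      continuous_nrm.comp_continuousOn ((Bd.cont i).mono fun p hp =>
        lt_of_le_of_lt hp.2 hr1)
    have hinv : Continuous (fun p : G × ℝ => nrm (p.1⁻¹).1) :=
      continuous_nrm.comp (closedEmb_val.continuous.comp (continuous_inv.comp continuous_fst))
    have hid : Continuous (fun p : G × ℝ => nrm (p.1).1) :=
      continuous_nrm.comp (closedEmb_val.continuous.comp continuous_fst)
    have hcont : ContinuousOn (fun p : G × ℝ => nrm (p.1⁻¹).1 * nrm (p.1).1 *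
        (nrm (Bd.B p.1 i p.2) + C * (R * Wb))) (Bl ρ ×ˢ {t : ℝ | |t| ≤ r}) :=
      (hinv.continuousOn.mul hid.continuousOn).mul (hBc.add continuousOn_const)
    obtain ⟨Z, hZ⟩ := hcpt.bddAbove_image hcont
    refine ⟨Z, fun t ht => ?_⟩
    have ht1 : |t| < 1 := lt_of_le_of_lt ht hr1
    obtain ⟨g, hg1, hg2, hg3⟩ : ∃ g ∈ Bl ρ, g ∉ bad t ∧
        Stab (fun g => Bd.B g i t) (ζ i t) g := by
      by_contra hcon
      push Not at hcon
      have h1 : Bl ρ ⊆ bad t ∪ {g | ¬ Stab (fun g => Bd.B g i t) (ζ i t) g} := by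
        intro g hg
        by_cases hb : g ∈ bad t
        · exact Or.inl hb
        · exact Or.inr (hcon g hg hb)
      have h2 : μ ≤ ENNReal.ofReal (μ.toReal / 4) := by
        calc μ ≤ hG (bad t ∪ {g | ¬ Stab (fun g => Bd.B g i t) (ζ i t) g}) := measure_mono h1
          _ ≤ hG (bad t) + hG {g | ¬ Stab (fun g => Bd.B g i t) (ζ i t) g} := measure_union_le _ _
          _ = hG (bad t) + 0 := by rw [ae_iff.1 (hζ i t ht1)]
          _ ≤ _ := by rw [add_zero]; exact hbadm t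
      exact absurd hquarter (not_lt.2 h2)
    have hg4 : ∀ v : ℝ × ℝ, T.J (D v * g) (S.c i t) ≤ R * Real.exp (-ε * ‖v‖) := by
      by_contra h
      exact hg2 ⟨hg1, h⟩
    have h5 := (hgood i t ht1 g (R * Wb) (hWle t ht g hg4) (ζ i t) hg3).2
    exact h5.trans (hZ ⟨(g, t), ⟨hg1, ht⟩, rfl⟩)
  -- sequences
  refine tendsto_of_subseq_tendsto fun ns hns => ?_
  have hev : ∀ᶠ n in atTop, |ns n| ≤ r := by
    have h1 : Tendsto (fun n => |ns n|) atTop (𝓝 |t0|) := hns.abs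
    exact (h1.eventually (gt_mem_nhds hr0)).mono fun n hn => le_of_lt hn
  obtain ⟨N, hN⟩ := eventually_atTop.1 hev
  obtain ⟨ζs, -, φ, hφ, hlim⟩ := (GBA_compact_mat Z).tendsto_subseq
    (x := fun n => ζ i (ns (n + N))) (fun n => hZ _ (hN _ (Nat.le_add_left _ _)))
  refine ⟨fun n => φ n + N, ?_⟩
  suffices hs : ζs = ζ i t0 by
    rw [← hs]
    exact hlim
  -- times of the subsequence
  set tm : ℕ → ℝ := fun n => ns (φ n + N) with htm
  have htr : ∀ n, |tm n| ≤ r := fun n => hN _ (Nat.le_add_left _ _)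
  have ht1 : ∀ n, |tm n| < 1 := fun n => lt_of_le_of_lt (htr n) hr1
  have htl : Tendsto tm atTop (𝓝 t0) := by
    refine hns.comp ?_
    exact tendsto_atTop_mono (fun n => Nat.le_add_right _ _) hφ.tendsto_atTop
  -- a common good point
  set E : ℕ → Set G := fun k => ⋂ n ≥ k, bad (tm n) with hE
  have hEmono : Monotone E := by
    intro a b hab g hg
    simp only [hE, mem_iInter] at hg ⊢
    intro n hn
    exact hg n (hab.trans hn)
  have hEm : hG (⋃ k, E k) ≤ ENNReal.ofReal (μ.toReal / 4) := by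
    rw [hEmono.measure_iUnion]
    refine iSup_le fun k => (measure_mono ?_).trans (hbadm (tm k))
    intro g hg
    simp only [hE, mem_iInter] at hg
    exact hg k le_rfl
  obtain ⟨g, hg1, hg2, hg3, hg4⟩ : ∃ g ∈ Bl ρ, g ∉ (⋃ k, E k) ∧
      (∀ n, Stab (fun g => Bd.B g i (tm n)) (ζ i (tm n)) g) ∧
      Stab (fun g => Bd.B g i t0) (ζ i t0) g := by
    by_contra hcon
    push Not at hcon
    have hae : ∀ᵐ g ∂hG, (∀ n, Stab (fun g => Bd.B g i (tm n)) (ζ i (tm n)) g) ∧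
        Stab (fun g => Bd.B g i t0) (ζ i t0) g :=
      (ae_all_iff.2 fun n => hζ i (tm n) (ht1 n)).and (hζ i t0 ht0)
    have h1 : Bl ρ ⊆ (⋃ k, E k) ∪ {g | ¬ ((∀ n, Stab (fun g => Bd.B g i (tm n)) (ζ i (tm n)) g) ∧
        Stab (fun g => Bd.B g i t0) (ζ i t0) g)} := by
      intro g hg
      by_cases hb : g ∈ ⋃ k, E k
      · exact Or.inl hb
      · refine Or.inr fun h => ?_
        exact hcon g hg hb h.1 h.2
    have h2 : μ ≤ ENNReal.ofReal (μ.toReal / 4) := by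
      refine (measure_mono h1).trans ((measure_union_le _ _).trans ?_)
      rw [ae_iff.1 hae, add_zero]
      exact hEm
    exact absurd hquarter (not_lt.2 h2)
  have hfreq : ∃ᶠ n in atTop, g ∉ bad (tm n) := by
    rw [frequently_atTop]
    intro k
    by_contra h
    push Not at h
    apply hg2
    refine mem_iUnion.2 ⟨k, ?_⟩
    simp only [hE, mem_iInter]
    exact fun n hn => h n hn
  have hopen : IsOpen {p : G × ℝ | |p.2| < 1} :=
    isOpen_lt (continuous_abs.comp continuous_snd) continuous_const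
  have hbound : ∀ v : ℝ × ℝ, nrm (NN (fun g => Bd.B g i t0) ζs (D v * g)) ≤
      C * (R * Wb) * Real.exp (-ε * ‖v‖ / 2) := by
    intro v
    have hl : Tendsto (fun n => nrm (NN (fun g => Bd.B g i (tm n)) (ζ i (tm n)) (D v * g))) atTop
        (𝓝 (nrm (NN (fun g => Bd.B g i t0) ζs (D v * g)))) := by
      refine (continuous_nrm.tendsto _).comp ?_
      unfold NN
      refine Tendsto.add ?_ ?_
      · have h1 : ContinuousAt (fun p : G × ℝ => Bd.B p.1 i p.2) (D v * g, t0) :=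
          (Bd.cont i).continuousAt (hopen.mem_nhds ht0)
        have h2 : Tendsto (fun n => ((D v * g, tm n) : G × ℝ)) atTop (𝓝 (D v * g, t0)) :=
          tendsto_const_nhds.prodMk_nhds htl
        exact h1.tendsto.comp h2
      · have h3 : Continuous (fun A : Mat => (D v * g).1 * A * ((D v * g)⁻¹).1) := by fun_prop
        exact (h3.tendsto _).comp hlim
    refine le_of_tendsto_of_frequently hl ?_
    refine hfreq.mono fun n hn => ?_
    have hg5 : ∀ v : ℝ × ℝ, T.J (D v * g) (S.c i (tm n)) ≤ R * Real.exp (-ε * ‖v‖) := by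
      by_contra h
      exact hn ⟨hg1, h⟩
    exact (hgood i (tm n) (ht1 n) g (R * Wb) (hWle (tm n) (htr n) g hg5) _ (hg3 n)).1 v
  exact (p7e_stab hε hbound).unique hg4

end Pool.Agent.H88.LF

end S_H88_LF_P7E

section S_H88_LF_ODE

/-!
# ODE (blueprint 9.4): `γ' = γ ζ` in `G`

Picard-Lindelöf for the linear equation in `Fin 3 → Fin 3 → ℝ` (right side continuous in `t`, Lipschitz in `γ`), local solution with `γ(t0) = 1`.
`det γ = 1`: `(det γ)' = tr(ζ) det γ = 0` (expand the 3 by 3 determinant).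
-/

set_option autoImplicit false

open Set Filter
open scoped Topology

namespace Pool.Agent.H88.LF

/-- the linear vector field -/
def odeF (z : ℝ → Fin 3 → Fin 3 → ℝ) (t : ℝ) (x : Fin 3 → Fin 3 → ℝ) : Fin 3 → Fin 3 → ℝ :=
  fun a b => ∑ k, x a k * z t k b

theorem odeF_norm (z : ℝ → Fin 3 → Fin 3 → ℝ) (t : ℝ) (x : Fin 3 → Fin 3 → ℝ) :
    ‖odeF z t x‖ ≤ 3 * ‖z t‖ * ‖x‖ := by
  have h0 : 0 ≤ 3 * ‖z t‖ * ‖x‖ := by positivity
  rw [pi_norm_le_iff_of_nonneg h0]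
  intro a
  rw [pi_norm_le_iff_of_nonneg h0]
  intro b
  unfold odeF
  have h1 : ∀ k, ‖x a k * z t k b‖ ≤ ‖x‖ * ‖z t‖ := by
    intro k
    rw [norm_mul]
    exact mul_le_mul ((norm_le_pi_norm (x a) k).trans (norm_le_pi_norm x a))
      ((norm_le_pi_norm (z t k) b).trans (norm_le_pi_norm (z t) k)) (norm_nonneg _) (norm_nonneg _)
  calc ‖∑ k, x a k * z t k b‖ ≤ ∑ k, ‖x a k * z t k b‖ := norm_sum_le _ _
    _ ≤ ∑ _k : Fin 3, ‖x‖ * ‖z t‖ := Finset.sum_le_sum fun k _ => h1 k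
    _ = 3 * ‖z t‖ * ‖x‖ := by simp; ring

theorem odeF_sub (z : ℝ → Fin 3 → Fin 3 → ℝ) (t : ℝ) (x y : Fin 3 → Fin 3 → ℝ) :
    odeF z t x - odeF z t y = odeF z t (x - y) := by
  funext a b
  simp only [odeF, Pi.sub_apply, ← Finset.sum_sub_distrib, sub_mul]

theorem ode_sol (z : ℝ → Fin 3 → Fin 3 → ℝ) (t0 r : ℝ) (hr : 0 < r)
    (hc : ∀ t, |t - t0| < r → ContinuousAt z t) (x₀ : Fin 3 → Fin 3 → ℝ) :
    ∃ ε : ℝ, 0 < ε ∧ ε ≤ r ∧ ∃ α : ℝ → Fin 3 → Fin 3 → ℝ, α t0 = x₀ ∧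
      ∀ t, |t - t0| < ε → HasDerivAt α (odeF z t (α t)) t := by
  have hcon : ContinuousOn z (Icc (t0 - r / 2) (t0 + r / 2)) := by
    intro t ht
    apply (hc t _).continuousWithinAt
    rw [abs_lt]
    constructor <;> linarith [ht.1, ht.2]
  obtain ⟨Z, hZ⟩ := isCompact_Icc.exists_bound_of_continuousOn hcon
  have hZ0 : 0 ≤ Z := (norm_nonneg _).trans (hZ t0 ⟨by linarith, by linarith⟩)
  set L : ℝ := 3 * Z * (‖x₀‖ + 1) + 1 with hL
  have hL0 : 0 < L := by positivity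
  set ε : ℝ := min (r / 2) (1 / L) with hε
  have hε0 : 0 < ε := lt_min (by linarith) (by positivity)
  have hε1 : ε ≤ r / 2 := min_le_left _ _
  have hε2 : L * ε ≤ 1 := by
    calc L * ε ≤ L * (1 / L) := mul_le_mul_of_nonneg_left (min_le_right _ _) hL0.le
      _ = 1 := by field_simp
  have hsub : Icc (t0 - ε) (t0 + ε) ⊆ Icc (t0 - r / 2) (t0 + r / 2) :=
    Icc_subset_Icc (by linarith) (by linarith)
  have hPL : IsPicardLindelof (odeF z) (tmin := t0 - ε) (tmax := t0 + ε)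
      ⟨t0, by constructor <;> linarith⟩ x₀ 1 0 ⟨L, hL0.le⟩ ⟨3 * Z, by positivity⟩ := by
    constructor
    · intro t ht
      apply LipschitzOnWith.of_dist_le_mul
      intro x _ y _
      rw [dist_eq_norm, dist_eq_norm, odeF_sub]
      refine (odeF_norm z t _).trans ?_
      have h1 := hZ t (hsub ht)
      change 3 * ‖z t‖ * ‖x - y‖ ≤ 3 * Z * ‖x - y‖
      gcongr
    · intro x _
      have h1 : ContinuousOn z (Icc (t0 - ε) (t0 + ε)) := hcon.mono hsub
      unfold odeF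
      rw [continuousOn_pi]
      intro a
      rw [continuousOn_pi]
      intro b
      apply continuousOn_finsetSum
      intro k _
      apply ContinuousOn.mul continuousOn_const
      exact continuousOn_pi.1 (continuousOn_pi.1 h1 k) b
    · intro t ht x hx
      refine (odeF_norm z t x).trans ?_
      have h1 := hZ t (hsub ht)
      have h2 : ‖x‖ ≤ ‖x₀‖ + 1 := by
        rw [Metric.mem_closedBall, dist_eq_norm] at hx
        have h3 : ‖x‖ ≤ ‖x - x₀‖ + ‖x₀‖ := by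
          have := norm_add_le (x - x₀) x₀
          rwa [sub_add_cancel] at this
        have h4 : ‖x - x₀‖ ≤ 1 := by simpa using hx
        linarith
      change 3 * ‖z t‖ * ‖x‖ ≤ L
      have h3 : 3 * ‖z t‖ * ‖x‖ ≤ 3 * Z * (‖x₀‖ + 1) := by gcongr
      linarith
    · change L * max ((t0 + ε) - t0) (t0 - (t0 - ε)) ≤ 1 - 0
      have h1 : max ((t0 + ε) - t0) (t0 - (t0 - ε)) = ε := by
        rw [add_sub_cancel_left, sub_sub_cancel, max_self]
      rw [h1]
      linarith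
  obtain ⟨α, hα0, hα⟩ := hPL.exists_eq_forall_mem_Icc_hasDerivWithinAt₀
  refine ⟨ε, hε0, by linarith, α, hα0, fun t ht => ?_⟩
  rw [abs_lt] at ht
  exact (hα t ⟨by linarith, by linarith⟩).hasDerivAt (Icc_mem_nhds (by linarith) (by linarith))

theorem ode_det (z : ℝ → Fin 3 → Fin 3 → ℝ) (α : ℝ → Fin 3 → Fin 3 → ℝ) (t : ℝ)
    (h : HasDerivAt α (odeF z t (α t)) t) (htr : z t 0 0 + z t 1 1 + z t 2 2 = 0) :
    HasDerivAt (fun t => (Matrix.of (α t)).det) 0 t := by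
  have hab : ∀ a b, HasDerivAt (fun t => α t a b) (α t a 0 * z t 0 b + α t a 1 * z t 1 b +
      α t a 2 * z t 2 b) t := by
    intro a b
    have h1 := hasDerivAt_pi.1 (hasDerivAt_pi.1 h a) b
    simpa only [odeF, Fin.sum_univ_three] using h1
  have e : (fun t => (Matrix.of (α t)).det) = fun t =>
      α t 0 0 * α t 1 1 * α t 2 2 - α t 0 0 * α t 1 2 * α t 2 1 - α t 0 1 * α t 1 0 * α t 2 2 +
      α t 0 1 * α t 1 2 * α t 2 0 + α t 0 2 * α t 1 0 * α t 2 1 - α t 0 2 * α t 1 1 * α t 2 0 := by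
    funext t
    rw [Matrix.det_fin_three]
    rfl
  rw [e]
  have h1 := (((((((hab 0 0).mul (hab 1 1)).mul (hab 2 2)).sub
    (((hab 0 0).mul (hab 1 2)).mul (hab 2 1))).sub
    (((hab 0 1).mul (hab 1 0)).mul (hab 2 2))).add
    (((hab 0 1).mul (hab 1 2)).mul (hab 2 0))).add
    (((hab 0 2).mul (hab 1 0)).mul (hab 2 1))).sub
    (((hab 0 2).mul (hab 1 1)).mul (hab 2 0))
  refine HasDerivAt.congr_deriv h1 ?_
  simp only [Pi.mul_apply]
  linear_combination ((α t 0 0 * α t 1 1 * α t 2 2 - α t 0 0 * α t 1 2 * α t 2 1 -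
      α t 0 1 * α t 1 0 * α t 2 2 + α t 0 1 * α t 1 2 * α t 2 0 + α t 0 2 * α t 1 0 * α t 2 1 -
      α t 0 2 * α t 1 1 * α t 2 0)) * htr

/-- ODE -/
theorem ode (ζ : ℝ → Mat) (t0 r : ℝ) (hr : 0 < r) (hc : ∀ t, |t - t0| < r → ContinuousAt ζ t)
    (htr : ∀ t, |t - t0| < r → Matrix.trace (ζ t) = 0) :
    ∃ ε : ℝ, 0 < ε ∧ ε ≤ r ∧ ∃ γ : ℝ → G, γ t0 = 1 ∧ ∀ t, |t - t0| < ε → ∀ a b : Fin 3,
      HasDerivAt (fun t => (γ t).1 a b) (((γ t).1 * ζ t) a b) t := by
  obtain ⟨ε, hε, hεr, α, hα0, hα⟩ := ode_sol (fun t => (ζ t : Fin 3 → Fin 3 → ℝ)) t0 r hr hc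
    ((1 : Mat) : Fin 3 → Fin 3 → ℝ)
  have hdet : ∀ t, |t - t0| < ε → (Matrix.of (α t)).det = 1 := by
    intro t ht
    have hd : ∀ s, s ∈ Metric.ball t0 ε → HasDerivAt (fun t => (Matrix.of (α t)).det) 0 s := by
      intro s hs
      rw [Metric.mem_ball, Real.dist_eq] at hs
      apply ode_det _ _ _ (hα s hs)
      have h1 := htr s (hs.trans_le hεr)
      rw [Matrix.trace, Fin.sum_univ_three] at h1
      exact h1
    have h1 := Metric.isOpen_ball.is_const_of_deriv_eq_zero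
      (convex_ball t0 ε).isPreconnected
      (fun s hs => (hd s hs).differentiableAt.differentiableWithinAt)
      (fun s hs => (hd s hs).deriv)
      (show t ∈ Metric.ball t0 ε by rwa [Metric.mem_ball, Real.dist_eq])
      (Metric.mem_ball_self hε)
    rw [h1, hα0]
    exact Matrix.det_one
  obtain ⟨γ, hγ⟩ : ∃ γ : ℝ → G, ∀ t, |t - t0| < ε → (γ t).1 = Matrix.of (α t) := by
    refine ⟨fun t => if h : |t - t0| < ε then (⟨Matrix.of (α t), hdet t h⟩ : G) else 1, ?_⟩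
    intro t ht
    simp only [dif_pos ht]
  refine ⟨ε, hε, hεr, γ, ?_, ?_⟩
  · have h0 : |t0 - t0| < ε := by simpa using hε
    apply Subtype.ext
    rw [hγ t0 h0, hα0]
    rfl
  · intro t ht a b
    have hev : ∀ᶠ s in 𝓝 t, |s - t0| < ε := by
      have hcont : Continuous fun s : ℝ => |s - t0| := by fun_prop
      exact hcont.continuousAt.eventually_lt continuousAt_const ht
    have h1 := hasDerivAt_pi.1 (hasDerivAt_pi.1 (hα t ht) a) b
    have h2 : (fun t => (γ t).1 a b) =ᶠ[𝓝 t] fun t => α t a b := by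
      filter_upwards [hev] with s hs
      rw [hγ s hs]
      rfl
    rw [hγ t ht]
    refine (h1.congr_of_eventuallyEq h2).congr_deriv ?_
    rw [Matrix.mul_apply]
    rfl

end Pool.Agent.H88.LF

end S_H88_LF_ODE

section S_H88_LF_STRB

/-!
# STRB (blueprint 9.4): straightening

`PreFB` with `A = Fin S.n × {t // |t| < 1}` and `c (i,t0) s = γ(t0+εs) • c i (t0+εs)` (`ode` for `ζ i` near `t0`; `ε` so small that `|t0 ± ε| < 1` and `nd(γ(t)) `, `nd(γ(t)⁻¹)` are small).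
`inj`: `h γ(t) c i t = h' γ(t') c i t'` and `S.inj`.  `opn`: `(h,t) ↦ (hγ(t),t)` is a local homeomorphism, `S.opn` (use `FB.isOpen_image`).
`cover`: every `x` is `h • c i t0`, `γ(t0) = 1`.
Transitions: `c (i,t0)(s) = k0 • c (j,τ0)(υ)` means with `t = t0+εs`, `τ = τ0+ε'υ`: `c i t = (γ_i(t)⁻¹ k0 γ_j(τ)) • c j τ`, an arrow `k`; along its continuation `γ_i(t) kf(t) γ_j(τf t)⁻¹` has derivative
`γ_i ζ_i kf γ_j⁻¹ + γ_i (dk kf) γ_j⁻¹ - γ_i kf (τf' ζ_j) γ_j⁻¹ = γ_i (ζ_i + dk - τf' Ad(kf)ζ_j) kf γ_j⁻¹ = 0` (law for `ζ`; inverse: `(γ⁻¹)' = -ζγ⁻¹`), so it is constant `= k0`: `c (i,t0)(s) = k0 • c (j,τ0)(υ(s))`.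
-/

set_option autoImplicit false

open MeasureTheory Set Filter
open scoped Topology

namespace Pool.Agent.H88.LF

/-- entrywise derivative -/
def STRB_MD (A : ℝ → Mat) (A' : Mat) (t : ℝ) : Prop :=
  ∀ a b : Fin 3, HasDerivAt (fun t => A t a b) (A' a b) t

theorem STRB_MD.mul {A B : ℝ → Mat} {A' B' : Mat} {t : ℝ} (hA : STRB_MD A A' t)
    (hB : STRB_MD B B' t) : STRB_MD (fun t => A t * B t) (A' * B t + A t * B') t := by
  intro a b
  have h1 : (fun t => (A t * B t) a b) = fun t => ∑ k, A t a k * B t k b := by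
    funext t
    rw [Matrix.mul_apply]
  have h2 : (A' * B t + A t * B') a b = ∑ k, (A' a k * B t k b + A t a k * B' k b) := by
    rw [Matrix.add_apply, Matrix.mul_apply, Matrix.mul_apply, Finset.sum_add_distrib]
  rw [h1, h2]
  exact HasDerivAt.fun_sum fun k _ => (hA a k).mul (hB k b)

theorem STRB_MD.unique {A : ℝ → Mat} {A' B' : Mat} {t : ℝ} (hA : STRB_MD A A' t)
    (hB : STRB_MD A B' t) : A' = B' := by
  ext a b
  exact (hA a b).unique (hB a b)

theorem STRB_MD.comp {A : ℝ → Mat} {A' : Mat} {f : ℝ → ℝ} {f' t : ℝ}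
    (hA : STRB_MD A A' (f t)) (hf : HasDerivAt f f' t) :
    STRB_MD (fun t => A (f t)) (f' • A') t := by
  intro a b
  have h := (hA a b).comp t hf
  rw [Matrix.smul_apply, smul_eq_mul, mul_comm]
  exact h

theorem STRB_inv {γ : ℝ → G} {B' : Mat} {t : ℝ} (h : STRB_MD (fun t => (γ t).1) B' t) :
    STRB_MD (fun t => ((γ t)⁻¹).1) (-(((γ t)⁻¹).1 * B' * ((γ t)⁻¹).1)) t := by
  have hd : ∀ a b : Fin 3, DifferentiableAt ℝ (fun t => ((γ t)⁻¹).1 a b) t := by
    have h0 : ∀ a b : Fin 3, DifferentiableAt ℝ (fun t => (γ t).1 a b) t :=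
      fun a b => (h a b).differentiableAt
    have h1 : (fun t => ((γ t)⁻¹).1) = fun t => (γ t).1.adjugate := by
      funext t
      rw [Matrix.SpecialLinearGroup.coe_inv]
    intro a b
    have h2 : (fun t => ((γ t)⁻¹).1 a b) = fun t => (γ t).1.adjugate a b := by
      funext t
      rw [Matrix.SpecialLinearGroup.coe_inv]
    rw [h2]
    simp only [Matrix.adjugate_fin_three]
    fin_cases a <;> fin_cases b <;>
    simp only [Matrix.of_apply, Matrix.cons_val', Matrix.cons_val_zero, Matrix.cons_val_one,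
      Matrix.cons_val, Matrix.cons_val_fin_one, Fin.zero_eta, Fin.mk_one, Fin.reduceFinMk,
      Fin.isValue] <;>
    fun_prop (disch := assumption)
  set C' : Mat := Matrix.of fun a b => deriv (fun t => ((γ t)⁻¹).1 a b) t with hC'
  have hC : STRB_MD (fun t => ((γ t)⁻¹).1) C' t := fun a b => (hd a b).hasDerivAt
  have h1 := h.mul hC
  have h2 : STRB_MD (fun t => (γ t).1 * ((γ t)⁻¹).1) 0 t := by
    have h3 : (fun t => (γ t).1 * ((γ t)⁻¹).1) = fun _ => (1 : Mat) := by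
      funext t
      rw [← Matrix.SpecialLinearGroup.coe_mul, mul_inv_cancel, Matrix.SpecialLinearGroup.coe_one]
    rw [h3]
    exact fun a b => hasDerivAt_const t _
  have h4 := h1.unique h2
  have h5 : ((γ t)⁻¹).1 * (γ t).1 = 1 := by
    rw [← Matrix.SpecialLinearGroup.coe_mul, inv_mul_cancel, Matrix.SpecialLinearGroup.coe_one]
  have h6 : C' = -(((γ t)⁻¹).1 * B' * ((γ t)⁻¹).1) := by
    have h7 : ((γ t)⁻¹).1 * (B' * ((γ t)⁻¹).1 + (γ t).1 * C') = 0 := by
      rw [h4, mul_zero]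
    rw [mul_add, ← mul_assoc, ← mul_assoc, h5, one_mul] at h7
    exact eq_neg_of_add_eq_zero_right h7
  rw [← h6]
  exact hC

theorem STRB_cont {γ : ℝ → G} {B' : Mat} {t : ℝ} (h : STRB_MD (fun t => (γ t).1) B' t) :
    ContinuousAt γ t := by
  rw [closedEmb_val.isInducing.continuousAt_iff]
  exact continuousAt_pi.2 fun a => continuousAt_pi.2 fun b => (h a b).continuousAt

/-- a curve in `G` with vanishing derivative near `t1` is constant near `t1` -/
theorem STRB_const {F : ℝ → G} {t1 : ℝ} (h : ∀ᶠ t in 𝓝 t1, STRB_MD (fun t => (F t).1) 0 t) :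
    ∀ᶠ t in 𝓝 t1, F t = F t1 := by
  obtain ⟨δ, hδ, hb⟩ := Metric.eventually_nhds_iff_ball.1 h
  refine Metric.eventually_nhds_iff_ball.2 ⟨δ, hδ, fun t ht => ?_⟩
  apply Subtype.ext
  ext a b
  refine Metric.isOpen_ball.is_const_of_deriv_eq_zero (s := Metric.ball t1 δ)
    (f := fun t => (F t).1 a b) (convex_ball t1 δ).isPreconnected ?_ ?_ ht
    (Metric.mem_ball_self hδ)
  · exact fun s hs => (hb s hs a b).differentiableAt.differentiableWithinAt
  · intro s hs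
    have := (hb s hs a b).deriv
    simpa using this

variable {X : Type} [MetricSpace X] [CompactSpace X] [MulAction G X] [ContinuousSMul G X]

/-- the local straightening curves -/
theorem STRB_data (S : FB X) (ζ : Fin S.n → ℝ → Mat)
    (hc : ∀ i t, |t| < 1 → ContinuousAt (ζ i) t)
    (htr : ∀ i t, |t| < 1 → Matrix.trace (ζ i t) = 0) (i : Fin S.n) (t0 : ℝ) (ht0 : |t0| < 1) :
    ∃ ε : ℝ, 0 < ε ∧ ∃ γ : ℝ → G, γ t0 = 1 ∧ ∀ t, |t - t0| < ε → |t| < 1 ∧
      nd (γ t) < S.ρ0 / 2 ∧ STRB_MD (fun t => (γ t).1) ((γ t).1 * ζ i t) t := by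
  have hr : 0 < 1 - |t0| := by linarith
  have hin : ∀ t, |t - t0| < 1 - |t0| → |t| < 1 := by
    intro t ht
    have h1 : |t| ≤ |t - t0| + |t0| := by
      have := abs_add_le (t - t0) t0
      rwa [sub_add_cancel] at this
    linarith
  obtain ⟨ε, hε, hεr, γ, hγ0, hγ⟩ := ode (ζ i) t0 (1 - |t0|) hr
    (fun t ht => hc i t (hin t ht)) (fun t ht => htr i t (hin t ht))
  have hρ0 : 0 < S.ρ0 := by
    have h1 := S.hρ1
    have h2 := S.hρ
    linarith
  have hcont : ContinuousAt (fun t => nd (γ t)) t0 := by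
    have h1 : ContinuousAt γ t0 := STRB_cont (hγ t0 (by simpa using hε))
    exact continuous_nd.continuousAt.comp h1
  have hev : ∀ᶠ t in 𝓝 t0, nd (γ t) < S.ρ0 / 2 := by
    refine hcont.eventually_lt continuousAt_const ?_
    rw [hγ0, nd_one]
    linarith
  obtain ⟨δ, hδ, hb⟩ := Metric.eventually_nhds_iff.1 hev
  refine ⟨min ε δ, lt_min hε hδ, γ, hγ0, fun t ht => ⟨hin t ?_, hb ?_, hγ t ?_⟩⟩
  · exact (ht.trans_le (min_le_left _ _)).trans_le hεr
  · rw [Real.dist_eq]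
    exact ht.trans_le (min_le_right _ _)
  · exact ht.trans_le (min_le_left _ _)

/-- the product `γ_i(t) kf(t) γ_j(τf t)⁻¹` has derivative zero -/
theorem STRB_deriv {A K B : ℝ → G} {t : ℝ} {Zi Zj dk : Mat} {d : ℝ}
    (hA : STRB_MD (fun t => (A t).1) ((A t).1 * Zi) t)
    (hK : STRB_MD (fun t => (K t).1) (dk * (K t).1) t)
    (hB : STRB_MD (fun t => (B t).1) (d • ((B t).1 * Zj)) t)
    (hlaw : dk + Zi = d • ((K t).1 * Zj * ((K t)⁻¹).1)) :
    STRB_MD (fun t => (A t * K t * (B t)⁻¹).1) 0 t := by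
  have h1 := (hA.mul hK).mul (STRB_inv hB)
  have e1 : (fun t => (A t * K t * (B t)⁻¹).1) =
      fun t => (A t).1 * (K t).1 * ((B t)⁻¹).1 := by
    funext t
    rw [Matrix.SpecialLinearGroup.coe_mul, Matrix.SpecialLinearGroup.coe_mul]
  rw [e1]
  have hBB : ((B t)⁻¹).1 * (B t).1 = 1 := by
    rw [← Matrix.SpecialLinearGroup.coe_mul, inv_mul_cancel, Matrix.SpecialLinearGroup.coe_one]
  have hKK : ((K t)⁻¹).1 * (K t).1 = 1 := by
    rw [← Matrix.SpecialLinearGroup.coe_mul, inv_mul_cancel, Matrix.SpecialLinearGroup.coe_one]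
  have e2 : ((A t).1 * Zi * (K t).1 + (A t).1 * (dk * (K t).1)) * ((B t)⁻¹).1 +
      (A t).1 * (K t).1 * (-(((B t)⁻¹).1 * (d • ((B t).1 * Zj)) * ((B t)⁻¹).1)) = 0 := by
    have e3 : (A t).1 * Zi * (K t).1 + (A t).1 * (dk * (K t).1) =
        d • ((A t).1 * (K t).1 * Zj) := by
      have : (A t).1 * Zi * (K t).1 + (A t).1 * (dk * (K t).1) =
          (A t).1 * (dk + Zi) * (K t).1 := by
        noncomm_ring
      rw [this, hlaw, mul_smul_comm, smul_mul_assoc]
      congr 1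
      calc (A t).1 * ((K t).1 * Zj * ((K t)⁻¹).1) * (K t).1
          = (A t).1 * (K t).1 * Zj * (((K t)⁻¹).1 * (K t).1) := by noncomm_ring
        _ = _ := by rw [hKK, mul_one]
    have e4 : ((B t)⁻¹).1 * (d • ((B t).1 * Zj)) * ((B t)⁻¹).1 = d • (Zj * ((B t)⁻¹).1) := by
      rw [mul_smul_comm, smul_mul_assoc, ← mul_assoc, hBB, one_mul]
    have e5 : (A t).1 * (K t).1 * (Zj * ((B t)⁻¹).1) = (A t).1 * (K t).1 * Zj * ((B t)⁻¹).1 :=
      (mul_assoc _ _ _).symm
    rw [e3, e4, smul_mul_assoc, mul_neg, mul_smul_comm, e5]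
    exact add_neg_cancel _
  rw [e2] at h1
  exact h1

/-- Straightening with a given continuous line field. -/
theorem straighten_of_line_field (S : FB X) (ζ : Fin S.n → ℝ → Mat)
    (hc : ∀ i t, |t| < 1 → ContinuousAt (ζ i) t)
    (htr : ∀ i t, |t| < 1 → Matrix.trace (ζ i t) = 0)
    (hlaw : ∀ i j t τ k, S.Arr i j t τ k →
      S.dk i j t τ k + ζ i t = S.dτ i j t τ k • (k.1 * ζ j τ * (k⁻¹).1)) :
    ∃ S' : FB X, S'.Straight := by
  have data : ∀ a : Fin S.n × {t : ℝ // |t| < 1}, ∃ ε : ℝ, 0 < ε ∧ ∃ γ : ℝ → G,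
      γ a.2.1 = 1 ∧ ∀ t, |t - a.2.1| < ε → |t| < 1 ∧
      nd (γ t) < S.ρ0 / 2 ∧ STRB_MD (fun t => (γ t).1) ((γ t).1 * ζ a.1 t) t :=
    fun a => STRB_data S ζ hc htr a.1 a.2.1 a.2.2
  choose ε hε γ hγ0 hγ using data
  have hρ0 : 0 < S.ρ0 := by
    have h1 := S.hρ1
    have h2 := S.hρ
    linarith
  have hρ01 := S.hρ0
  -- the parameter
  have hpar : ∀ (a : Fin S.n × {t : ℝ // |t| < 1}) (s : ℝ), |s| < 1 →
      |a.2.1 + ε a * s - a.2.1| < ε a := by
    intro a s hs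
    rw [add_sub_cancel_left, abs_mul, abs_of_pos (hε a)]
    have := hε a
    nlinarith
  set c : Fin S.n × {t : ℝ // |t| < 1} → ℝ → X := fun a s =>
    γ a (a.2.1 + ε a * s) • S.c a.1 (a.2.1 + ε a * s) with hcdef
  -- the main point
  have main : ∀ (a b : Fin S.n × {t : ℝ // |t| < 1}) (s0 υ0 : ℝ) (k0 : G), |s0| < 1 → |υ0| < 1 →
      c a s0 = k0 • c b υ0 → ∃ τ : ℝ → ℝ, τ s0 = υ0 ∧ ContDiffAt ℝ 2 τ s0 ∧
        ∀ᶠ s in 𝓝 s0, c a s = k0 • c b (τ s) := by
    intro a b s0 υ0 k0 hs0 hυ0 he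
    have hεb := hε b
    set t1 : ℝ := a.2.1 + ε a * s0 with ht1
    set τ1 : ℝ := b.2.1 + ε b * υ0 with hτ1
    have hta := hpar a s0 hs0
    have hτb := hpar b υ0 hυ0
    rw [← ht1] at hta
    rw [← hτ1] at hτb
    have harr : S.Arr a.1 b.1 t1 τ1 ((γ a t1)⁻¹ * k0 * γ b τ1) := by
      refine ⟨(hγ a t1 hta).1, (hγ b τ1 hτb).1, ?_⟩
      have h1 : γ a t1 • S.c a.1 t1 = k0 • γ b τ1 • S.c b.1 τ1 := he
      rw [mul_smul, mul_smul, ← h1, inv_smul_smul]
    set k1 : G := (γ a t1)⁻¹ * k0 * γ b τ1 with hk1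
    obtain ⟨hkf0, hτf0, -, hτf2, -, hev⟩ := S.kf_τf_spec harr
    set kf : ℝ → G := S.kf a.1 b.1 t1 τ1 k1 with hkf
    set τf : ℝ → ℝ := S.τf a.1 b.1 t1 τ1 k1 with hτf
    have hτfc : ContinuousAt τf t1 := hτf2.continuousAt
    -- near `t1` everything is defined
    have n1 : ∀ᶠ t in 𝓝 t1, |t - a.2.1| < ε a := by
      have : ContinuousAt (fun t => |t - a.2.1|) t1 := by fun_prop
      exact this.eventually_lt continuousAt_const hta
    have n2 : ∀ᶠ t in 𝓝 t1, |τf t - b.2.1| < ε b := by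
      have : ContinuousAt (fun t => |τf t - b.2.1|) t1 :=
        (hτfc.sub continuousAt_const).abs
      refine this.eventually_lt continuousAt_const ?_
      rw [hτf0]
      exact hτb
    have n3 := S.eventually_arr harr
    have n4 := S.eventually_contDiffAt harr
    have n5 := S.eventually_dτ harr
    have hconst : ∀ᶠ t in 𝓝 t1, γ a t * kf t * (γ b (τf t))⁻¹ =
        γ a t1 * kf t1 * (γ b (τf t1))⁻¹ := by
      refine STRB_const (F := fun t => γ a t * kf t * (γ b (τf t))⁻¹) ?_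
      filter_upwards [n1, n2, n3, n4, n5] with t m1 m2 m3 m4 m5
      have hA := (hγ a t m1).2.2
      have hB0 := (hγ b (τf t) m2).2.2
      have hτd : HasDerivAt τf (deriv τf t) t :=
        (m4.2.1.differentiableAt (by norm_num)).hasDerivAt
      have hB := hB0.comp hτd
      have hK : STRB_MD (fun t => (kf t).1)
          (S.dk a.1 b.1 t (τf t) (kf t) * (kf t).1) t := by
        intro x y
        rw [m5.2 x y]
        exact ((m4.1 x y).differentiableAt (by norm_num)).hasDerivAt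
      refine STRB_deriv (A := γ a) (K := kf) (B := fun t => γ b (τf t)) hA hK hB ?_
      rw [← m5.1]
      exact hlaw _ _ _ _ _ m3
    have hk0 : γ a t1 * kf t1 * (γ b (τf t1))⁻¹ = k0 := by
      rw [hkf0, hτf0, hk1]
      group
    rw [hk0] at hconst
    have hfin : ∀ᶠ t in 𝓝 t1, γ a t • S.c a.1 t = k0 • γ b (τf t) • S.c b.1 (τf t) := by
      filter_upwards [hconst, hev] with t m1 m2
      rw [m2, ← m1, ← mul_smul, ← mul_smul]
      congr 1
      group
    have hlin : ContinuousAt (fun s : ℝ => a.2.1 + ε a * s) s0 := by fun_prop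
    refine ⟨fun s => (τf (a.2.1 + ε a * s) - b.2.1) / ε b, ?_, ?_, ?_⟩
    · simp only
      rw [← ht1, hτf0, hτ1]
      field_simp
      ring
    · have h1 : ContDiffAt ℝ 2 (fun s : ℝ => a.2.1 + ε a * s) s0 := by fun_prop
      have h2 : ContDiffAt ℝ 2 (fun s : ℝ => τf (a.2.1 + ε a * s)) s0 :=
        ContDiffAt.comp (g := τf) s0 (by rw [← ht1]; exact hτf2) h1
      exact (h2.sub contDiffAt_const).div_const _
    · filter_upwards [hlin.eventually hfin] with s m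
      simp only [hcdef]
      have h3 : b.2.1 + ε b * ((τf (a.2.1 + ε a * s) - b.2.1) / ε b) =
          τf (a.2.1 + ε a * s) := by
        rw [mul_div_cancel₀ _ hεb.ne']
        ring
      rw [h3]
      exact m
  refine straight_of_preFB
    { A := Fin S.n × {t : ℝ // |t| < 1}
      c := c
      ρ := fun _ => S.ρ0 / 8
      hρ := fun _ => by positivity
      cont := ?_
      inj := ?_
      opn := ?_
      cover := ?_
      trans := ?_ } main
  · intro a s hs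
    have h1 := (hγ a _ (hpar a s hs))
    have h2 : ContinuousAt (γ a) (a.2.1 + ε a * s) := STRB_cont h1.2.2
    have h3 : ContinuousAt (S.c a.1) (a.2.1 + ε a * s) := S.cont _ _ h1.1
    have h4 : ContinuousAt (fun s : ℝ => a.2.1 + ε a * s) s := by fun_prop
    exact (ContinuousAt.comp (f := fun s : ℝ => a.2.1 + ε a * s) (g := γ a) h2 h4).smul
      (ContinuousAt.comp (f := fun s : ℝ => a.2.1 + ε a * s) (g := S.c a.1) h3 h4)
  · intro a h h' s s' hs hs' hh hh' he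
    have hεa := hε a
    have key : ∀ (h : G) (s : ℝ), |s| < 1 → nd h < S.ρ0 / 8 →
        nd (h * γ a (a.2.1 + ε a * s)) < S.ρ0 := by
      intro h s hs hh
      have h1 := (hγ a _ (hpar a s hs)).2.1
      have h2 := nd_mul_le h (γ a (a.2.1 + ε a * s))
      have h3 := nrm_le_nd (γ a (a.2.1 + ε a * s))
      have h4 := nd_nonneg h
      have h5 : nd h * nrm (γ a (a.2.1 + ε a * s)).1 ≤ (S.ρ0 / 8) * (3 + 1 / 2) := by
        refine mul_le_mul hh.le (by linarith) (nrm_nonneg _) (by linarith)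
      linarith
    have h1 : (h * γ a (a.2.1 + ε a * s)) • S.c a.1 (a.2.1 + ε a * s) =
        (h' * γ a (a.2.1 + ε a * s')) • S.c a.1 (a.2.1 + ε a * s') := by
      rw [mul_smul, mul_smul]
      exact he
    obtain ⟨h2, h3⟩ := S.inj a.1 _ _ _ _ (hγ a _ (hpar a s hs)).1 (hγ a _ (hpar a s' hs')).1
      (key h s hs hh) (key h' s' hs' hh') h1
    have h4 : s = s' := by
      have h5 : ε a * s = ε a * s' := by linarith
      exact mul_left_cancel₀ hεa.ne' h5
    subst h4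
    exact ⟨mul_right_cancel h2, rfl⟩
  · intro a s hs η hη
    have hεa := hε a
    set U : Set (G × ℝ) := {p | |p.2 - a.2.1| < ε a} with hU
    have hUo : IsOpen U := isOpen_lt (by fun_prop) continuous_const
    have hf : ContinuousOn (fun p : G × ℝ =>
        (nd (p.1 * (γ a p.2)⁻¹), |(p.2 - a.2.1) / ε a - s|)) U := by
      intro p hp
      have h1 : ContinuousAt (γ a) p.2 := STRB_cont (hγ a p.2 hp).2.2
      have h2 : ContinuousAt (fun p : G × ℝ => γ a p.2) p :=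
        ContinuousAt.comp (f := fun p : G × ℝ => p.2) (g := γ a) h1 continuousAt_snd
      have h3 : ContinuousAt (fun p : G × ℝ => p.1 * (γ a p.2)⁻¹) p :=
        continuousAt_fst.mul h2.inv
      have h4 : ContinuousAt (fun p : G × ℝ => nd (p.1 * (γ a p.2)⁻¹)) p :=
        ContinuousAt.comp (f := fun p : G × ℝ => p.1 * (γ a p.2)⁻¹) (g := nd)
          continuous_nd.continuousAt h3
      have h5 : ContinuousAt (fun p : G × ℝ => |(p.2 - a.2.1) / ε a - s|) p := by fun_prop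
      exact (h4.prodMk h5).continuousWithinAt
    have hVo := hf.isOpen_inter_preimage hUo
      ((isOpen_Iio (a := η)).prod (isOpen_Iio (a := min η (1 - |s|))))
    have himg := S.isOpen_image a.1 _ hVo (fun p hp => (hγ a p.2 hp.1).1)
    have hs1 : 0 < 1 - |s| := by linarith
    refine mem_of_superset (himg.mem_nhds
      ⟨(γ a (a.2.1 + ε a * s), a.2.1 + ε a * s), ⟨hpar a s hs, ?_⟩, rfl⟩) ?_
    · simp only [mem_preimage, mem_prod, mem_Iio]
      rw [mul_inv_cancel, nd_one, add_sub_cancel_left, mul_div_cancel_left₀ _ hεa.ne', sub_self,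
        abs_zero]
      exact ⟨hη, lt_min hη hs1⟩
    · rintro x ⟨⟨g, T⟩, ⟨hT, h1, h2⟩, rfl⟩
      simp only [mem_Iio] at h1 h2
      refine ⟨g * (γ a T)⁻¹, (T - a.2.1) / ε a, h1, h2.trans_le (min_le_left _ _), ?_, ?_⟩
      · have h3 : |(T - a.2.1) / ε a| ≤ |(T - a.2.1) / ε a - s| + |s| := by
          have := abs_add_le ((T - a.2.1) / ε a - s) s
          rwa [sub_add_cancel] at this
        have h4 := h2.trans_le (min_le_right _ _)
        linarith
      · simp only [hcdef]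
        rw [mul_div_cancel₀ _ hεa.ne', add_sub_cancel, mul_smul, inv_smul_smul]
  · intro x
    obtain ⟨-, h2, h3⟩ := S.rep_spec x
    refine ⟨(S.ri x, ⟨S.rt x, by linarith⟩), S.rh x, ?_⟩
    simp only [hcdef, mul_zero, add_zero]
    rw [hγ0, one_smul]
    exact h3
  · intro a b s0 υ0 k0 hs0 hυ0 he
    obtain ⟨τ, h1, h2, h3⟩ := main a b s0 υ0 k0 hs0 hυ0 he
    exact ⟨fun _ => k0, τ, rfl, h1, fun _ _ => contDiffAt_const, h2, h3⟩

end Pool.Agent.H88.LF

end S_H88_LF_STRB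

section S_H88_LF_STR

/-!
# STR (blueprint 9.4): straightening
-/

set_option autoImplicit false

open MeasureTheory Set Filter
open scoped Topology

namespace Pool.Agent.H88.LF

variable {X : Type} [MetricSpace X] [CompactSpace X] [MulAction G X] [ContinuousSMul G X]

/-- STR -/
theorem straighten (S : FB X) (T : TN S) (h : T.CStar) : ∃ S' : FB X, S'.Straight := by
  obtain ⟨Bd⟩ := exists_TB T
  obtain ⟨ζ, h1, h2, h3⟩ := line_field_ae h Bd
  exact straighten_of_line_field S ζ (line_field_cont h Bd ζ h1) h2 h3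

end Pool.Agent.H88.LF

end S_H88_LF_STR
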