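import Mathlib
import Pool.Agent.H88.LG.M01
import Pool.Agent.H88.LG.M04

set_option autoImplicit false

/-! Locally free actions of SL(3,R) on compact 9-manifolds, file M06: this file joins several modules to save build time. -/

section S_H88_LF_FAM

/-!
# FAM (blueprint section 10): families of positive functions on `G` with bounded distortion

`W g s`, `s ∈ [a,b]`, is the transverse size; `len g = ∫_a^b W g s ds`.
-/

set_option autoImplicit false

open MeasureTheory Set Filter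
open scoped Topology

namespace Pool.Agent.H88.LF

/-- length of the segment -/
noncomputable def fLen (W : G → ℝ → ℝ) (a b : ℝ) (g : G) : ℝ := ∫ s in a..b, W g s

/-- Families with bounded distortion on `[a,b]`. -/
structure Fam (W : G → ℝ → ℝ) (a b : ℝ) : Prop where
  le : a ≤ b
  pos : ∀ g s, s ∈ Icc a b → 0 < W g s
  cont : ContinuousOn (fun p : G × ℝ => W p.1 p.2) (univ ×ˢ Icc a b)
  bd : ∀ Q : Set G, IsCompact Q → ∃ C : ℝ, 0 < C ∧ ∀ q ∈ Q, ∀ (g : G) (s : ℝ), s ∈ Icc a b →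
    W (q * g) s ≤ C * W g s
  dist : ∀ Q : Set G, IsCompact Q → ∃ C : ℝ, 0 < C ∧ ∀ q ∈ Q, ∀ (g : G) (s s' : ℝ),
    s ∈ Icc a b → s' ∈ Icc a b →
    |(Real.log (W (q * g) s) - Real.log (W g s)) - (Real.log (W (q * g) s') - Real.log (W g s'))| ≤
      C * fLen W a b g

/-- Exponential contraction of the whole segment in all directions. -/
def fCon (W : G → ℝ → ℝ) (a b ε : ℝ) : Set G :=
  {g | ∃ C : ℝ, ∀ v : ℝ × ℝ, fLen W a b (D v * g) ≤ C * Real.exp (-ε * ‖v‖)}

/-- Goodness at one parameter. -/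
def fGood (W : G → ℝ → ℝ) (s ε : ℝ) : Set G :=
  {g | ∃ R : ℝ, ∀ v : ℝ × ℝ, W (D v * g) s ≤ R * Real.exp (-ε * ‖v‖)}

/-- A telescoping bound. -/
theorem FAM_tel (F : ℕ → ℝ) (A κ : ℝ) (hA : 0 ≤ A) (hκ : 0 < κ) (n : ℕ)
    (h : ∀ k, k < n → |F (k + 1) - F k| ≤ A * Real.exp (-κ / 2) ^ k) :
    |F n - F 0| ≤ A * (1 - Real.exp (-κ / 2))⁻¹ := by
  have hr0 : 0 ≤ Real.exp (-κ / 2) := (Real.exp_pos _).le
  have hr1 : Real.exp (-κ / 2) < 1 := by
    rw [Real.exp_lt_one_iff]
    linarith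
  have h1 : |F n - F 0| ≤ ∑ k ∈ Finset.range n, A * Real.exp (-κ / 2) ^ k := by
    rw [← Finset.sum_range_sub F n]
    refine (Finset.abs_sum_le_sum_abs _ _).trans ?_
    exact Finset.sum_le_sum fun k hk => h k (Finset.mem_range.1 hk)
  refine h1.trans ?_
  rw [← Finset.mul_sum]
  refine mul_le_mul_of_nonneg_left ?_ hA
  have hs := summable_geometric_of_lt_one hr0 hr1
  rw [← tsum_geometric_of_lt_one hr0 hr1]
  exact hs.sum_le_tsum _ fun k _ => pow_nonneg hr0 k

/-- Bounded distortion along a ray: if the segment is exponentially contracted on the ray from `0` to `v` (with constants `C1`, `κ`), the ratio of `W` at two parameters changes by a bounded factor.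
Divide the ray into `⌈‖v‖⌉` steps `D u`, `‖u‖ ≤ 1`, use `dist` for `Q = D '' {‖u‖ ≤ 1}` and sum the geometric series. -/
theorem Fam.ray {W : G → ℝ → ℝ} {a b : ℝ} (hW : Fam W a b) (κ : ℝ) (hκ : 0 < κ) :
    ∃ C : ℝ, 0 < C ∧ ∀ (g : G) (C1 : ℝ) (v : ℝ × ℝ), 0 ≤ C1 →
      (∀ c : ℝ, 0 ≤ c → c ≤ 1 → fLen W a b (D (c • v) * g) ≤ C1 * Real.exp (-κ * ‖c • v‖)) →
      ∀ s s', s ∈ Icc a b → s' ∈ Icc a b →
        |(Real.log (W (D v * g) s) - Real.log (W g s)) -
          (Real.log (W (D v * g) s') - Real.log (W g s'))| ≤ C * C1 := by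
  obtain ⟨Cd, hCd, hd⟩ := hW.dist _ (isCompact_D_image 1)
  have hr1 : Real.exp (-κ / 2) < 1 := by
    rw [Real.exp_lt_one_iff]
    linarith
  refine ⟨Cd * (1 - Real.exp (-κ / 2))⁻¹, mul_pos hCd (inv_pos.2 (by linarith)), ?_⟩
  intro g C1 v hC1 hc s s' hs hs'
  set n : ℕ := ⌈‖v‖⌉₊ with hn
  by_cases hn0 : n = 0
  · have hv : v = 0 := by
      have h1 : ‖v‖ ≤ 0 := Nat.ceil_eq_zero.1 (hn.symm.trans hn0)
      exact norm_le_zero_iff.1 h1
    subst hv
    rw [D_zero, one_mul]
    simp only [sub_self, abs_zero]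
    have : 0 ≤ (1 - Real.exp (-κ / 2))⁻¹ := inv_nonneg.2 (by linarith)
    positivity
  have hnpos : 0 < n := Nat.pos_of_ne_zero hn0
  have hnR : (0 : ℝ) < n := Nat.cast_pos.2 hnpos
  have hvn : ‖v‖ ≤ n := Nat.le_ceil _
  have hnv : (n : ℝ) < ‖v‖ + 1 := Nat.ceil_lt_add_one (norm_nonneg _)
  set u : ℝ × ℝ := (n : ℝ)⁻¹ • v with hu
  have hu1 : ‖u‖ ≤ 1 := by
    rw [hu, norm_smul, norm_inv, Real.norm_natCast, inv_mul_le_iff₀ hnR, mul_one]
    exact hvn
  have hnu : (n : ℝ) • u = v := by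
    rw [hu, smul_smul, mul_inv_cancel₀ hnR.ne', one_smul]
  have hDu : D u ∈ D '' {v | ‖v‖ ≤ 1} := ⟨u, hu1, rfl⟩
  set F : ℕ → ℝ := fun k => (Real.log (W (D ((k : ℝ) • u) * g) s) -
    Real.log (W (D ((k : ℝ) • u) * g) s')) with hF
  have key := FAM_tel F (Cd * C1) κ (mul_nonneg hCd.le hC1) hκ n ?_
  · have e1 : (Real.log (W (D v * g) s) - Real.log (W g s)) -
          (Real.log (W (D v * g) s') - Real.log (W g s')) = F n - F 0 := by
      simp only [hF, hnu, Nat.cast_zero, zero_smul, D_zero, one_mul]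
      ring
    rw [e1]
    refine key.trans (le_of_eq ?_)
    ring
  · intro k hk
    have hD : D (((k + 1 : ℕ) : ℝ) • u) * g = D u * (D ((k : ℝ) • u) * g) := by
      rw [Nat.cast_add, Nat.cast_one, add_smul, one_smul, add_comm, D_add, mul_assoc]
    have h1 := hd (D u) hDu (D ((k : ℝ) • u) * g) s s' hs hs'
    have e2 : F (k + 1) - F k = (Real.log (W (D u * (D ((k : ℝ) • u) * g)) s) -
        Real.log (W (D ((k : ℝ) • u) * g) s)) - (Real.log (W (D u * (D ((k : ℝ) • u) * g)) s') -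
        Real.log (W (D ((k : ℝ) • u) * g) s')) := by
      simp only [hF, hD]
      ring
    rw [e2]
    refine h1.trans ?_
    rw [mul_assoc]
    refine mul_le_mul_of_nonneg_left ?_ hCd.le
    have hkn : (k : ℝ) ≤ n := Nat.cast_le.2 hk.le
    have h2 := hc ((k : ℝ) / n) (by positivity) ((div_le_one hnR).2 hkn)
    have e3 : ((k : ℝ) / n) • v = (k : ℝ) • u := by
      rw [hu, smul_smul, div_eq_mul_inv]
    rw [e3] at h2
    refine h2.trans (mul_le_mul_of_nonneg_left ?_ hC1)
    rw [← Real.exp_nat_mul, Real.exp_le_exp, norm_smul, Real.norm_natCast]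
    have h3 : (k : ℝ) / 2 ≤ k * ‖u‖ := by
      rcases Nat.eq_zero_or_pos k with hk0 | hk0
      · subst hk0
        simp
      · have hn2 : (2 : ℝ) ≤ n := by
          have : 2 ≤ n := by omega
          exact_mod_cast this
        have h4 : (1 : ℝ) / 2 ≤ ‖u‖ := by
          rw [hu, norm_smul, norm_inv, Real.norm_natCast, le_inv_mul_iff₀ hnR]
          linarith
        have h5 : (0 : ℝ) ≤ k := Nat.cast_nonneg _
        nlinarith
    nlinarith

end Pool.Agent.H88.LF

end S_H88_LF_FAM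

section S_H88_LF_DIS

/-!
# DIS (blueprint section 10): bounded distortion in a straight structure
-/

set_option autoImplicit false

open MeasureTheory Set Filter
open scoped Topology ENNReal

namespace Pool.Agent.H88.LF

/-- a bound for the logarithmic derivative of `W` over compact sets -/
theorem DIS_logder {X : Type} [TopologicalSpace X] [MulAction G X] {S : FB X} (T : TN S)
    {Q : Set G} (hQ : IsCompact Q) (r : ℝ) (hr : r < 1) :
    ∃ C : ℝ, 1 ≤ C ∧ ∀ (i : Fin S.n), ∀ q ∈ Q, ∀ t : ℝ, |t| ≤ r →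
      |T.W' q i t / T.W q i t| ≤ C := by
  refine FBC_fin (P := fun i C => ∀ q ∈ Q, ∀ t : ℝ, |t| ≤ r →
      |T.W' q i t / T.W q i t| ≤ C) (fun i => ?_) ?_
  · have hc : ContinuousOn (fun p : G × ℝ => T.W' p.1 i p.2 / T.W p.1 i p.2)
        (Q ×ˢ {t : ℝ | |t| ≤ r}) :=
      ContinuousOn.div ((T.cont' i).mono fun p hp => lt_of_le_of_lt hp.2 hr)
        ((T.cont i).mono fun p hp => lt_of_le_of_lt hp.2 hr)
        (fun p hp => (T.pos _ _ _ (lt_of_le_of_lt hp.2 hr)).ne')
    obtain ⟨M, hM⟩ := (FBC_cpt hQ r).bddAbove_image hc.norm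
    refine ⟨max 1 M, le_max_left _ _, fun q hq t ht => ?_⟩
    have := hM (mem_image_of_mem _ (show (q, t) ∈ Q ×ˢ {t : ℝ | |t| ≤ r} from ⟨hq, ht⟩))
    rw [Real.norm_eq_abs] at this
    exact this.trans (le_max_right _ _)
  · intro i C C' _ hCC h q hq t ht
    exact (h q hq t ht).trans hCC

variable {X : Type} [MetricSpace X] [CompactSpace X] [MulAction G X] [ContinuousSMul G X]

omit [CompactSpace X] [ContinuousSMul G X] in
/-- the change of the logarithmic derivative in terms of the normal representation -/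
theorem DIS_eq {S : FB X} (hS : S.Straight) (T : TN S) {i j : Fin S.n} {t τ : ℝ} {k : G}
    (harr : S.Arr i j t τ k) (q g : G) :
    T.W' (q * g) i t / T.W (q * g) i t - T.W' g i t / T.W g i t =
      (T.W' (q * (g * k)) j τ / T.W (q * (g * k)) j τ - T.W' (g * k) j τ / T.W (g * k) j τ) *
        S.dτ i j t τ k := by
  have ht := harr.1
  have hτ := harr.2.1
  obtain ⟨-, hτ0, -⟩ := S.kf_τf_spec harr
  have hder := S.hasDerivAt_τf harr
  -- left side
  have h1 : HasDerivAt (fun s => Real.log (T.W (q * g) i s) - Real.log (T.W g i s))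
      (T.W' (q * g) i t / T.W (q * g) i t - T.W' g i t / T.W g i t) t :=
    ((T.der (q * g) i t ht).log (T.pos _ i t ht).ne').sub
      ((T.der g i t ht).log (T.pos _ i t ht).ne')
  -- right side
  have h2 : ∀ g' : G, HasDerivAt (fun s => Real.log (T.W g' j (S.τf i j t τ k s)))
      (T.W' g' j τ / T.W g' j τ * S.dτ i j t τ k) t := by
    intro g'
    have h3 : HasDerivAt (fun y => Real.log (T.W g' j y)) (T.W' g' j τ / T.W g' j τ)
        (S.τf i j t τ k t) := by
      rw [hτ0]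
      exact (T.der g' j τ hτ).log (T.pos _ j τ hτ).ne'
    exact h3.comp t hder
  have h4 := (h2 (q * (g * k))).sub (h2 (g * k))
  have h5 : (fun s => Real.log (T.W (q * g) i s) - Real.log (T.W g i s)) =ᶠ[𝓝 t]
      fun s => Real.log (T.W (q * (g * k)) j (S.τf i j t τ k s)) -
        Real.log (T.W (g * k) j (S.τf i j t τ k s)) := by
    filter_upwards [hS.kf_const harr, S.eventually_arr harr] with s e1 e2
    rw [e1] at e2
    have r1 := T.rule _ _ _ _ _ e2 (q * g)
    have r2 := T.rule _ _ _ _ _ e2 g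
    have hd : |S.dτ i j s (S.τf i j t τ k s) k| ≠ 0 := abs_ne_zero.2 (S.dτ_ne_zero e2)
    have p1 := (T.pos (q * g * k) j _ e2.2.1).ne'
    have p2 := (T.pos (g * k) j _ e2.2.1).ne'
    rw [r1, r2, Real.log_mul p1 hd, Real.log_mul p2 hd, mul_assoc q g k]
    ring
  have h6 := (h4.congr_of_eventuallyEq h5).unique h1
  rw [← h6]
  ring

/-- DIST.  At `(g,i,t)` let `g • c i t = h • c j τ` be the normal representation; `k = g⁻¹h` is constant along the continuation (`Straight.kf_const`), so near `t`: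
`W (q'g) i s = W (q'h) j (τf s) |τf' s|` for `q' = 1, q`; the derivative of `log W(qg;i,s) - log W(g;i,s)` at `t` is `(W'(qh;j,τ)/W(qh;j,τ) - W'(h;j,τ)/W(h;j,τ)) τf'(t)`, bounded by
`C |τf'(t)| = C W(g;i,t)/W(h;j,τ)`. -/
theorem dist_deriv {S : FB X} (hS : S.Straight) (T : TN S) (Q : Set G) (hQ : IsCompact Q) :
    ∃ C : ℝ, 0 < C ∧ ∀ q ∈ Q, ∀ (g : G) (i : Fin S.n) (t : ℝ), |t| < 1 →
      |T.W' (q * g) i t / T.W (q * g) i t - T.W' g i t / T.W g i t| ≤ C * T.W g i t := by
  obtain ⟨C1, hC1, h1⟩ := DIS_logder T (hQ.mul (isCompact_Bl S.ρ1)) (1 / 2) (by norm_num)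
  obtain ⟨C2, hC2, h2⟩ := DIS_logder T (isCompact_Bl S.ρ1) (1 / 2) (by norm_num)
  obtain ⟨C3, hC3, h3⟩ := T.W_bound (isCompact_Bl S.ρ1) (1 / 2) (by norm_num)
  refine ⟨(C1 + C2) * C3, by positivity, fun q hq g i t ht => ?_⟩
  obtain ⟨e1, e2, e3⟩ := S.rep_spec (g • S.c i t)
  set h := S.rh (g • S.c i t) with hh
  set j := S.ri (g • S.c i t) with hj
  set τ := S.rt (g • S.c i t) with hτ
  have hτ1 : |τ| < 1 := by linarith
  have harr : S.Arr i j t τ (g⁻¹ * h) := by
    refine ⟨ht, hτ1, ?_⟩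
    rw [mul_smul, ← e3, inv_smul_smul]
  rw [DIS_eq hS T harr q g, mul_inv_cancel_left, abs_mul]
  have hhB : h ∈ Bl S.ρ1 := e1.le
  have b1 := h1 j (q * h) (mul_mem_mul hq hhB) τ e2.le
  have b2 := h2 j h hhB τ e2.le
  have b3 := (h3 h hhB j τ e2.le).1
  have r1 := T.rule _ _ _ _ _ harr g
  rw [mul_inv_cancel_left] at r1
  have hW : 0 < T.W h j τ := T.pos _ _ _ hτ1
  have b4 : |S.dτ i j t τ (g⁻¹ * h)| ≤ C3 * T.W g i t := by
    rw [r1]
    have h5 : 1 ≤ C3 * T.W h j τ := by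
      have h6 : C3 * C3⁻¹ = 1 := mul_inv_cancel₀ (by positivity)
      rw [← h6]
      exact mul_le_mul_of_nonneg_left b3 (by positivity)
    have h7 := mul_le_mul_of_nonneg_right h5 (abs_nonneg (S.dτ i j t τ (g⁻¹ * h)))
    linarith
  calc |T.W' (q * h) j τ / T.W (q * h) j τ - T.W' h j τ / T.W h j τ| *
        |S.dτ i j t τ (g⁻¹ * h)|
      ≤ (C1 + C2) * (C3 * T.W g i t) := by
        refine mul_le_mul ?_ b4 (abs_nonneg _) (by positivity)
        exact (abs_sub _ _).trans (add_le_add b1 b2)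
    _ = (C1 + C2) * C3 * T.W g i t := by ring

theorem DIS_cont {X : Type} [TopologicalSpace X] [MulAction G X] {S : FB X} (T : TN S) (g : G)
    (i : Fin S.n) {a b : ℝ} (ha : -1 < a) (hb : b < 1) : ContinuousOn (T.W g i) (Icc a b) := by
  have h1 : ContinuousOn (fun s : ℝ => ((g, s) : G × ℝ)) (Icc a b) := by fun_prop
  exact (T.cont i).comp h1 fun s hs => abs_lt.2 ⟨ha.trans_le hs.1, hs.2.trans_lt hb⟩

theorem DIS_cont' {X : Type} [TopologicalSpace X] [MulAction G X] {S : FB X} (T : TN S) (g : G)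
    (i : Fin S.n) {a b : ℝ} (ha : -1 < a) (hb : b < 1) : ContinuousOn (T.W' g i) (Icc a b) := by
  have h1 : ContinuousOn (fun s : ℝ => ((g, s) : G × ℝ)) (Icc a b) := by fun_prop
  exact (T.cont' i).comp h1 fun s hs => abs_lt.2 ⟨ha.trans_le hs.1, hs.2.trans_lt hb⟩

/-- Integrated form. -/
theorem dist_int {S : FB X} (hS : S.Straight) (T : TN S) (Q : Set G) (hQ : IsCompact Q) :
    ∃ C : ℝ, 0 < C ∧ ∀ q ∈ Q, ∀ (g : G) (i : Fin S.n) (a b s s' : ℝ), -1 < a → a ≤ b → b < 1 →
      s ∈ Icc a b → s' ∈ Icc a b →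
      |(Real.log (T.W (q * g) i s) - Real.log (T.W g i s)) -
        (Real.log (T.W (q * g) i s') - Real.log (T.W g i s'))| ≤
        C * fLen (fun g s => T.W g i s) a b g := by
  obtain ⟨C, hC, hd⟩ := dist_deriv hS T Q hQ
  refine ⟨C, hC, fun q hq g i a b s s' ha hab hb hs hs' => ?_⟩
  have habs : ∀ x ∈ Icc a b, |x| < 1 := fun x hx =>
    abs_lt.2 ⟨ha.trans_le hx.1, hx.2.trans_lt hb⟩
  -- it suffices to treat `s' ≤ s`
  have key : ∀ s s', s ∈ Icc a b → s' ∈ Icc a b → s' ≤ s →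
      |(Real.log (T.W (q * g) i s) - Real.log (T.W g i s)) -
        (Real.log (T.W (q * g) i s') - Real.log (T.W g i s'))| ≤
        C * fLen (fun g s => T.W g i s) a b g := by
    intro s s' hs hs' hle
    have hsub : uIcc s' s ⊆ Icc a b := by
      rw [uIcc_of_le hle]
      exact Icc_subset_Icc hs'.1 hs.2
    have hder : ∀ x ∈ uIcc s' s,
        HasDerivAt (fun s => Real.log (T.W (q * g) i s) - Real.log (T.W g i s))
          (T.W' (q * g) i x / T.W (q * g) i x - T.W' g i x / T.W g i x) x := by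
      intro x hx
      have hx1 := habs x (hsub hx)
      exact ((T.der (q * g) i x hx1).log (T.pos _ i x hx1).ne').sub
        ((T.der g i x hx1).log (T.pos _ i x hx1).ne')
    have hc : ContinuousOn (fun x => T.W' (q * g) i x / T.W (q * g) i x -
        T.W' g i x / T.W g i x) (Icc a b) := by
      refine ContinuousOn.sub ?_ ?_
      · exact (DIS_cont' T _ i ha hb).div (DIS_cont T _ i ha hb)
          fun x hx => (T.pos _ i x (habs x hx)).ne'
      · exact (DIS_cont' T _ i ha hb).div (DIS_cont T _ i ha hb)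
          fun x hx => (T.pos _ i x (habs x hx)).ne'
    have hint : IntervalIntegrable (fun x => T.W' (q * g) i x / T.W (q * g) i x -
        T.W' g i x / T.W g i x) volume s' s := (hc.mono hsub).intervalIntegrable
    have hWc : ContinuousOn (T.W g i) (Icc a b) := DIS_cont T g i ha hb
    have hWi : IntervalIntegrable (T.W g i) volume s' s := (hWc.mono hsub).intervalIntegrable
    rw [← intervalIntegral.integral_eq_sub_of_hasDerivAt hder hint]
    have h1 : |∫ x in s'..s, (T.W' (q * g) i x / T.W (q * g) i x - T.W' g i x / T.W g i x)| ≤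
        ∫ x in s'..s, C * T.W g i x := by
      refine (intervalIntegral.abs_integral_le_integral_abs hle).trans ?_
      refine intervalIntegral.integral_mono_on hle hint.abs (hWi.const_mul C) ?_
      intro x hx
      exact hd q hq g i x (habs x (hsub (by rw [uIcc_of_le hle]; exact hx)))
    refine h1.trans ?_
    rw [intervalIntegral.integral_const_mul]
    refine mul_le_mul_of_nonneg_left ?_ hC.le
    unfold fLen
    refine intervalIntegral.integral_mono_interval hs'.1 hle hs.2 ?_ ?_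
    · refine (ae_restrict_iff' measurableSet_Ioc).2 (Filter.Eventually.of_forall fun x hx => ?_)
      exact (T.pos g i x (habs x ⟨hx.1.le, hx.2⟩)).le
    · refine ContinuousOn.intervalIntegrable ?_
      rw [uIcc_of_le hab]
      exact hWc
  rcases le_total s' s with h | h
  · exact key s s' hs hs' h
  · rw [abs_sub_comm]
    exact key s' s hs' hs h

theorem fam_of_straight {S : FB X} (hS : S.Straight) (T : TN S) (i : Fin S.n) (a b : ℝ)
    (ha : -1 < a) (hab : a ≤ b) (hb : b < 1) : Fam (fun g s => T.W g i s) a b := by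
  have habs : ∀ x ∈ Icc a b, |x| < 1 := fun x hx =>
    abs_lt.2 ⟨ha.trans_le hx.1, hx.2.trans_lt hb⟩
  refine ⟨hab, fun g s hs => T.pos g i s (habs s hs), ?_, ?_, ?_⟩
  · exact (T.cont i).mono fun p hp => habs p.2 hp.2
  · intro Q hQ
    obtain ⟨C, hC, h⟩ := T.J_bound hQ
    refine ⟨C, by linarith, fun q hq g s hs => ?_⟩
    have hs1 := habs s hs
    have h1 := T.W_mul q g i s hs1
    refine h1.le.trans ?_
    exact mul_le_mul_of_nonneg_right (h q hq _).2 (T.pos g i s hs1).le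
  · intro Q hQ
    obtain ⟨C, hC, h⟩ := dist_int hS T Q hQ
    exact ⟨C, hC, fun q hq g s s' hs hs' => h q hq g i a b s s' ha hab hb hs hs'⟩

end Pool.Agent.H88.LF

end S_H88_LF_DIS

section S_H88_LF_FAME

/-!
# FAME (blueprint section 10): EXT
-/

set_option autoImplicit false

open MeasureTheory Set Filter
open scoped Topology

namespace Pool.Agent.H88.LF

theorem FAME_cont {W : G → ℝ → ℝ} {a b : ℝ} (hW : Fam W a b) (g : G) :
    ContinuousOn (fun s => W g s) (Icc a b) := by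
  have h1 : ContinuousOn (fun s : ℝ => ((g, s) : G × ℝ)) (Icc a b) :=
    (continuous_const.prodMk continuous_id).continuousOn
  exact hW.cont.comp h1 fun s hs => ⟨mem_univ _, hs⟩

theorem FAME_int {W : G → ℝ → ℝ} {a b : ℝ} (hW : Fam W a b) (g : G) :
    IntervalIntegrable (fun s => W g s) volume a b :=
  (FAME_cont hW g).intervalIntegrable_of_Icc hW.le

theorem FAME_len_le {W : G → ℝ → ℝ} {a b : ℝ} (hW : Fam W a b) (g g' : G) (c : ℝ)
    (h : ∀ s ∈ Icc a b, W g s ≤ c * W g' s) : fLen W a b g ≤ c * fLen W a b g' := by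
  unfold fLen
  rw [← intervalIntegral.integral_const_mul]
  exact intervalIntegral.integral_mono_on hW.le (FAME_int hW g)
    ((FAME_int hW g').const_mul c) h

theorem FAME_len_nonneg {W : G → ℝ → ℝ} {a b : ℝ} (hW : Fam W a b) (g : G) :
    0 ≤ fLen W a b g :=
  intervalIntegral.integral_nonneg hW.le fun s hs => (hW.pos g s hs).le

/-- Exponential growth at most. -/
theorem FAME_growth {W : G → ℝ → ℝ} {a b : ℝ} (hW : Fam W a b) :
    ∃ B : ℝ, 1 ≤ B ∧ ∀ (v : ℝ × ℝ) (g : G) (s : ℝ), s ∈ Icc a b →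
      W (D v * g) s ≤ B * Real.exp (Real.log B * ‖v‖) * W g s := by
  obtain ⟨C, hC, hb⟩ := hW.bd _ (isCompact_D_image 1)
  refine ⟨max C 1, le_max_right _ _, ?_⟩
  intro v g s hs
  set B := max C 1 with hB
  have hB1 : 1 ≤ B := le_max_right _ _
  have hB0 : 0 < B := by linarith
  set n : ℕ := ⌈‖v‖⌉₊ with hn
  have hvn : ‖v‖ ≤ n := Nat.le_ceil _
  have hnv : (n : ℝ) ≤ ‖v‖ + 1 := (Nat.ceil_lt_add_one (norm_nonneg _)).le
  have hW0 := hW.pos g s hs
  have hpow : B ^ n ≤ B * Real.exp (Real.log B * ‖v‖) := by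
    have h1 : B ^ n = Real.exp (Real.log B * n) := by
      rw [Real.exp_mul, Real.exp_log hB0, Real.rpow_natCast]
    have h2 : B * Real.exp (Real.log B * ‖v‖) = Real.exp (Real.log B * (‖v‖ + 1)) := by
      rw [mul_add, mul_one, Real.exp_add, Real.exp_log hB0, mul_comm]
    rw [h1, h2, Real.exp_le_exp]
    exact mul_le_mul_of_nonneg_left hnv (Real.log_nonneg hB1)
  have hstep : ∀ (u : ℝ × ℝ), ‖u‖ ≤ 1 → ∀ k : ℕ, W ((D u) ^ k * g) s ≤ B ^ k * W g s := by
    intro u hu k
    induction k with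
    | zero => simp
    | succ k ih =>
      have h1 := hb (D u) ⟨u, hu, rfl⟩ ((D u) ^ k * g) s hs
      rw [← mul_assoc, ← pow_succ'] at h1
      have h2 : C ≤ B := le_max_left _ _
      have h3 := hW.pos ((D u) ^ k * g) s hs
      calc W ((D u) ^ (k + 1) * g) s ≤ C * W ((D u) ^ k * g) s := h1
        _ ≤ B * W ((D u) ^ k * g) s := mul_le_mul_of_nonneg_right h2 h3.le
        _ ≤ B * (B ^ k * W g s) := mul_le_mul_of_nonneg_left ih hB0.le
        _ = B ^ (k + 1) * W g s := by ring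
  by_cases hn0 : n = 0
  · have hv : v = 0 := by
      have h1 : ‖v‖ ≤ 0 := Nat.ceil_eq_zero.1 (hn.symm.trans hn0)
      exact norm_le_zero_iff.1 h1
    have h2 := hstep 0 (by simp) 0
    rw [pow_zero, pow_zero, one_mul, one_mul] at h2
    rw [hv, D_zero, one_mul, norm_zero, mul_zero, Real.exp_zero, mul_one]
    nlinarith
  · have hnR : (0 : ℝ) < n := Nat.cast_pos.2 (Nat.pos_of_ne_zero hn0)
    have hu1 : ‖(n : ℝ)⁻¹ • v‖ ≤ 1 := by
      rw [norm_smul, norm_inv, Real.norm_natCast, inv_mul_le_iff₀ hnR, mul_one]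
      exact hvn
    have hnu : (n : ℝ) • ((n : ℝ)⁻¹ • v) = v := by
      rw [smul_smul, mul_inv_cancel₀ hnR.ne', one_smul]
    have h2 := hstep _ hu1 n
    rw [← D_nsmul, hnu] at h2
    exact h2.trans (mul_le_mul_of_nonneg_right hpow hW0.le)

/-- EXT.  `P ⊆ P'` star shaped sets (`P` need not be star shaped), every `v ∈ P'` is within `δ‖v‖` of a point of `P`, `δ` small (depending on `W`, `ε` only): contraction with rate `ε` on `P` and goodness at `s0`
imply contraction with the SAME rate `ε` on `P'`.  Step 1: on `P'` contraction with rate `ε/2` (`bd` for `D u`, `‖u‖ ≤ 1`, iterated `⌈δ‖v‖⌉` times).  Step 2: `Fam.ray` on the ray to `v ∈ P'`: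
`W (D v g) s ≤ C W (D v g) s0`. -/
theorem Fam.ext {W : G → ℝ → ℝ} {a b : ℝ} (hW : Fam W a b) (ε : ℝ) (hε : 0 < ε) (s0 : ℝ)
    (hs0 : s0 ∈ Icc a b) :
    ∃ δ : ℝ, 0 < δ ∧ δ ≤ 1 / 2 ∧ ∀ (P P' : Set (ℝ × ℝ)),
      (∀ v ∈ P', ∀ c : ℝ, 0 ≤ c → c ≤ 1 → c • v ∈ P') →
      (∀ v ∈ P', ∃ u ∈ P, ‖v - u‖ ≤ δ * ‖v‖) →
      ∀ g ∈ fGood W s0 ε, (∃ C1 : ℝ, ∀ v ∈ P, fLen W a b (D v * g) ≤ C1 * Real.exp (-ε * ‖v‖)) →
        ∃ C1 : ℝ, ∀ v ∈ P', fLen W a b (D v * g) ≤ C1 * Real.exp (-ε * ‖v‖) := by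
  obtain ⟨B, hB1, hB⟩ := FAME_growth hW
  have hB0 : 0 < B := by linarith
  have hlB : 0 ≤ Real.log B := Real.log_nonneg hB1
  obtain ⟨C, hC, hray⟩ := hW.ray (ε / 2) (by linarith)
  have hden : 0 < 2 * (ε + Real.log B + 1) := by linarith
  refine ⟨min (1 / 2) (ε / (2 * (ε + Real.log B + 1))), lt_min (by norm_num)
    (div_pos hε hden), min_le_left _ _, ?_⟩
  set δ := min (1 / 2) (ε / (2 * (ε + Real.log B + 1))) with hδ
  have hδ0 : 0 < δ := lt_min (by norm_num) (div_pos hε hden)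
  have hδ1 : δ * (ε + Real.log B) ≤ ε / 2 := by
    have h1 : δ ≤ ε / (2 * (ε + Real.log B + 1)) := min_le_right _ _
    have h2 : δ * (2 * (ε + Real.log B + 1)) ≤ ε := (le_div_iff₀ hden).1 h1
    nlinarith
  intro P P' hstar hnear g hg hcon
  obtain ⟨R, hR⟩ := hg
  obtain ⟨C1, hC1⟩ := hcon
  set K : ℝ := B * |C1| with hK
  have hK0 : 0 ≤ K := mul_nonneg hB0.le (abs_nonneg _)
  have step1 : ∀ v ∈ P', fLen W a b (D v * g) ≤ K * Real.exp (-(ε / 2) * ‖v‖) := by
    intro v hv
    obtain ⟨u, hu, huv⟩ := hnear v hv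
    have e1 : D v * g = D (v - u) * (D u * g) := by
      rw [← mul_assoc, ← D_add, sub_add_cancel]
    have h1 := FAME_len_le hW (D v * g) (D u * g) (B * Real.exp (Real.log B * ‖v - u‖))
      (fun s hs => by rw [e1]; exact hB (v - u) (D u * g) s hs)
    have h2 := hC1 u hu
    have h3 : fLen W a b (D u * g) ≤ |C1| * Real.exp (-ε * ‖u‖) :=
      h2.trans (mul_le_mul_of_nonneg_right (le_abs_self _) (Real.exp_pos _).le)
    have h4 : ‖v‖ - ‖u‖ ≤ δ * ‖v‖ := (norm_sub_norm_le v u).trans huv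
    calc fLen W a b (D v * g) ≤ B * Real.exp (Real.log B * ‖v - u‖) * fLen W a b (D u * g) := h1
      _ ≤ B * Real.exp (Real.log B * ‖v - u‖) * (|C1| * Real.exp (-ε * ‖u‖)) :=
        mul_le_mul_of_nonneg_left h3 (mul_nonneg hB0.le (Real.exp_pos _).le)
      _ = K * Real.exp (Real.log B * ‖v - u‖ + -ε * ‖u‖) := by
        rw [Real.exp_add, hK]
        ring
      _ ≤ K * Real.exp (-(ε / 2) * ‖v‖) := by
        refine mul_le_mul_of_nonneg_left (Real.exp_le_exp.2 ?_) hK0
        have h5 : Real.log B * ‖v - u‖ ≤ Real.log B * (δ * ‖v‖) :=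
          mul_le_mul_of_nonneg_left huv hlB
        have h6 : ε * (‖v‖ - ‖u‖) ≤ ε * (δ * ‖v‖) := mul_le_mul_of_nonneg_left h4 hε.le
        have h7 : δ * (ε + Real.log B) * ‖v‖ ≤ ε / 2 * ‖v‖ :=
          mul_le_mul_of_nonneg_right hδ1 (norm_nonneg _)
        nlinarith
  -- bound of `W g`
  obtain ⟨M, hM⟩ := isCompact_Icc.bddAbove_image (FAME_cont hW g)
  have hM' : ∀ s ∈ Icc a b, W g s ≤ M := fun s hs => hM ⟨s, hs, rfl⟩
  have hW0 := hW.pos g s0 hs0
  have hMpos : 0 < M := hW0.trans_le (hM' s0 hs0)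
  refine ⟨(b - a) * (Real.exp (C * K) * (M / W g s0) * |R|), ?_⟩
  intro v hv
  have hr := hray g K v hK0 (fun c hc0 hc1 => step1 _ (hstar v hv c hc0 hc1))
  have h8 : ∀ s ∈ Icc a b, W (D v * g) s ≤
      Real.exp (C * K) * (M / W g s0) * |R| * Real.exp (-ε * ‖v‖) := by
    intro s hs
    have h9 := (abs_le.1 (hr s s0 hs hs0)).2
    have p1 := hW.pos (D v * g) s hs
    have p2 := hW.pos g s hs
    have p3 := hW.pos (D v * g) s0 hs0
    have h10 : W (D v * g) s ≤ Real.exp (C * K) * (W g s / W g s0) * W (D v * g) s0 := by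
      rw [← Real.log_le_log_iff p1 (by positivity), Real.log_mul (by positivity) p3.ne',
        Real.log_mul (by positivity) (by positivity), Real.log_exp,
        Real.log_div p2.ne' hW0.ne']
      linarith
    have h11 : W (D v * g) s0 ≤ |R| * Real.exp (-ε * ‖v‖) :=
      (hR v).trans (mul_le_mul_of_nonneg_right (le_abs_self _) (Real.exp_pos _).le)
    calc W (D v * g) s ≤ Real.exp (C * K) * (W g s / W g s0) * W (D v * g) s0 := h10
      _ ≤ Real.exp (C * K) * (M / W g s0) * (|R| * Real.exp (-ε * ‖v‖)) := by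
        refine mul_le_mul ?_ h11 p3.le (by positivity)
        refine mul_le_mul_of_nonneg_left ?_ (Real.exp_pos _).le
        exact div_le_div_of_nonneg_right (hM' s hs) hW0.le
      _ = _ := by ring
  unfold fLen
  have h12 := intervalIntegral.integral_mono_on hW.le (FAME_int hW (D v * g))
    (intervalIntegrable_const
      (c := Real.exp (C * K) * (M / W g s0) * |R| * Real.exp (-ε * ‖v‖))) h8
  refine h12.trans (le_of_eq ?_)
  rw [intervalIntegral.integral_const, smul_eq_mul]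
  ring

end Pool.Agent.H88.LF

end S_H88_LF_FAME

section S_H88_LF_CONE

/-!
# CONE (blueprint 10.2)

`cone_chain`: choose linear coordinates `(x,y)` of the plane with `x = cmp v i - cmp v l` and `y` = the third coordinate `cmp v m` (an isomorphism; compare norms).  Sets: `P_m = {x ≤ mδ'|y|}`, `m = 0..M`, then
`P'_m = {x ≤ 0 or |y| ≥ (1 - mδ')x}`; `v = (x,y)` with `x ≤ (m+1)δ'|y|` is within `δ'|y|` of `(x - δ'|y|, y)`; `v` with `|y| ≥ (1-(m+1)δ')x`, `x > 0`, is within `δ'x` of `(x, y ± δ'x)`.  All sets are star shaped.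
-/

set_option autoImplicit false

open MeasureTheory Set Filter
open scoped Topology

namespace Pool.Agent.H88.LF

/-- the third coordinate -/
theorem cone_third (v : ℝ × ℝ) (i l : Fin 3) (h : i ≠ l) (j : Fin 3) :
    |cmp v j| ≤ |cmp v i| + |cmp v l| := by
  have hs := cmp_sum v
  have h3 : j = i ∨ j = l ∨ cmp v j = -(cmp v i + cmp v l) := by
    fin_cases i <;> fin_cases l <;> fin_cases j <;>
      simp only [Fin.zero_eta, Fin.mk_one, Fin.reduceFinMk] at * <;>
      first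
        | exact Or.inl trivial
        | exact Or.inr (Or.inl trivial)
        | exact absurd rfl h
        | exact Or.inr (Or.inr (by linarith))
  rcases h3 with rfl | rfl | h3
  · linarith [abs_nonneg (cmp v l)]
  · linarith [abs_nonneg (cmp v i)]
  · rw [h3, abs_neg]
    exact abs_add_le _ _

theorem cone_norm (v : ℝ × ℝ) (i l : Fin 3) (h : i ≠ l) :
    ‖v‖ ≤ |cmp v i - cmp v l| + |cmp v i + cmp v l| := by
  obtain ⟨j, hj⟩ := norm_le_cmp v
  refine hj.trans ((cone_third v i l h j).trans ?_)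
  rcases abs_cases (cmp v i) with h1 | h1 <;> rcases abs_cases (cmp v l) with h2 | h2 <;>
    rcases abs_cases (cmp v i - cmp v l) with h3 | h3 <;>
    rcases abs_cases (cmp v i + cmp v l) with h4 | h4 <;> linarith [h1.1, h2.1, h3.1, h4.1]

/-- vectors with two prescribed coordinates -/
theorem cone_exists (i l : Fin 3) (h : i ≠ l) (a b : ℝ) :
    ∃ v : ℝ × ℝ, cmp v i = a ∧ cmp v l = b := by
  obtain ⟨v, hv⟩ := exists_cmp (fun j => if j = i then a else if j = l then b else -(a + b)) (by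
    fin_cases i <;> fin_cases l <;> first | exact absurd rfl h | skip
    all_goals
      simp
      try ring)
  refine ⟨v, ?_, ?_⟩
  · rw [hv]
    simp
  · rw [hv]
    simp [h.symm]

/-- From a half plane to the plane by finitely many small rotations. -/
theorem cone_chain (i l : Fin 3) (h : i ≠ l) (δ : ℝ) (hδ : 0 < δ) :
    ∃ (M : ℕ) (P : ℕ → Set (ℝ × ℝ)), P 0 = {v | cmp v i ≤ cmp v l} ∧ P M = univ ∧
      (∀ m, ∀ v ∈ P m, ∀ c : ℝ, 0 ≤ c → c ≤ 1 → c • v ∈ P m) ∧
      ∀ m, m < M → ∀ v ∈ P (m + 1), ∃ u ∈ P m, ‖v - u‖ ≤ δ * ‖v‖ := by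
  set δ' : ℝ := δ / 16 with hδ'
  have hδ'0 : 0 < δ' := by positivity
  obtain ⟨M, hM⟩ := exists_nat_ge (1 / δ')
  have hM' : 1 ≤ (M : ℝ) * δ' := by
    rw [div_le_iff₀ hδ'0] at hM
    exact hM
  refine ⟨M, fun m => {v | cmp v i - cmp v l ≤
    ((m : ℝ) * δ') * (|cmp v i - cmp v l| + |cmp v i + cmp v l|)}, ?_, ?_, ?_, ?_⟩
  · ext v
    simp
  · ext v
    simp only [mem_univ, iff_true]
    show cmp v i - cmp v l ≤ ((M : ℝ) * δ') * (|cmp v i - cmp v l| + |cmp v i + cmp v l|)
    have h1 : 0 ≤ |cmp v i - cmp v l| + |cmp v i + cmp v l| := by positivity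
    have h2 := le_abs_self (cmp v i - cmp v l)
    have h3 := abs_nonneg (cmp v i + cmp v l)
    nlinarith
  · intro m v hv c hc _
    have hv' : cmp v i - cmp v l ≤
      ((m : ℝ) * δ') * (|cmp v i - cmp v l| + |cmp v i + cmp v l|) := hv
    show cmp (c • v) i - cmp (c • v) l ≤
      ((m : ℝ) * δ') * (|cmp (c • v) i - cmp (c • v) l| + |cmp (c • v) i + cmp (c • v) l|)
    rw [cmp_smul, cmp_smul, ← mul_sub, ← mul_add, abs_mul, abs_mul, abs_of_nonneg hc]
    have := mul_le_mul_of_nonneg_left hv' hc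
    linarith
  · intro m _ v hv
    have hv' : cmp v i - cmp v l ≤
      (((m + 1 : ℕ) : ℝ) * δ') * (|cmp v i - cmp v l| + |cmp v i + cmp v l|) := hv
    push_cast at hv'
    set X := cmp v i - cmp v l with hX
    set Y := cmp v i + cmp v l with hY
    set t := δ' * (|X| + |Y|) with ht
    have ht0 : 0 ≤ t := by positivity
    -- the new second coordinate
    obtain ⟨Y', hY1, hY2⟩ : ∃ Y', |Y'| = |Y| + t ∧ |Y - Y'| ≤ t := by
      rcases le_total 0 Y with h0 | h0
      · refine ⟨Y + t, ?_, ?_⟩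
        · rw [abs_of_nonneg (by linarith), abs_of_nonneg h0]
        · rw [sub_add_cancel_left, abs_neg, abs_of_nonneg ht0]
      · refine ⟨Y - t, ?_, ?_⟩
        · rw [abs_of_nonpos (by linarith), abs_of_nonpos h0]
          ring
        · rw [sub_sub_cancel, abs_of_nonneg ht0]
    obtain ⟨u, hu1, hu2⟩ := cone_exists i l h ((Y' + (X - t)) / 2) ((Y' - (X - t)) / 2)
    have huX : cmp u i - cmp u l = X - t := by rw [hu1, hu2]; ring
    have huY : cmp u i + cmp u l = Y' := by rw [hu1, hu2]; ring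
    refine ⟨u, ?_, ?_⟩
    · show cmp u i - cmp u l ≤ ((m : ℝ) * δ') * (|cmp u i - cmp u l| + |cmp u i + cmp u l|)
      rw [huX, huY, hY1]
      have hm : 0 ≤ (m : ℝ) * δ' := by positivity
      rcases le_total 0 (X - t) with h0 | h0
      · rw [abs_of_nonneg h0]
        have hXp : 0 ≤ X := by linarith
        have h5 : X - t + (|Y| + t) = |X| + |Y| := by rw [abs_of_nonneg hXp]; ring
        rw [h5]
        have h6 : (((m : ℝ) + 1) * δ') * (|X| + |Y|) = (m : ℝ) * δ' * (|X| + |Y|) + t := by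
          rw [ht]; ring
        linarith
      · have h7 : 0 ≤ (m : ℝ) * δ' * (|X - t| + (|Y| + t)) := by positivity
        linarith
    · have h8 := cone_norm (v - u) i l h
      have h9 : ∀ j, cmp (v - u) j = cmp v j - cmp u j := by
        intro j
        rw [sub_eq_add_neg, cmp_add, cmp_neg, sub_eq_add_neg]
      rw [h9, h9] at h8
      have h10 : cmp v i - cmp u i - (cmp v l - cmp u l) = t := by
        have : cmp v i - cmp v l - (cmp u i - cmp u l) = t := by rw [huX, ← hX]; ring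
        linarith
      have h11 : cmp v i - cmp u i + (cmp v l - cmp u l) = Y - Y' := by
        have : cmp v i + cmp v l - (cmp u i + cmp u l) = Y - Y' := by rw [huY, ← hY]
        linarith
      rw [h10, h11, abs_of_nonneg ht0] at h8
      have h12 : |X| ≤ 4 * ‖v‖ := by
        refine (abs_sub _ _).trans ?_
        linarith [abs_cmp_le v i, abs_cmp_le v l]
      have h13 : |Y| ≤ 4 * ‖v‖ := by
        refine (abs_add_le _ _).trans ?_
        linarith [abs_cmp_le v i, abs_cmp_le v l]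
      have h14 : t ≤ δ' * (8 * ‖v‖) := by
        rw [ht]
        exact mul_le_mul_of_nonneg_left (by linarith) hδ'0.le
      have h15 : δ' * (8 * ‖v‖) = δ * ‖v‖ / 2 := by rw [hδ']; ring
      linarith

end Pool.Agent.H88.LF

end S_H88_LF_CONE

section S_H88_LF_FCR

/-!
# FCR (blueprint 10.2)
-/

set_option autoImplicit false

open MeasureTheory Set Filter
open scoped Topology

namespace Pool.Agent.H88.LF

/-- Con is invariant under root groups among good elements: on the half plane `v_i ≤ v_l`: `D v * U = U' * D v`, `U'` in a compact set, `bd`; then `cone_chain` and `Fam.ext`. -/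
theorem Fam.con_root {W : G → ℝ → ℝ} {a b : ℝ} (hW : Fam W a b) (ε : ℝ) (hε : 0 < ε) (s0 : ℝ)
    (hs0 : s0 ∈ Icc a b) (i l : Fin 3) (h : i ≠ l) (s : ℝ) (g : G) (hg : g ∈ fCon W a b ε)
    (hu : U i l h s * g ∈ fGood W s0 ε) : U i l h s * g ∈ fCon W a b ε := by
  obtain ⟨δ, hδ, -, hext⟩ := hW.ext ε hε s0 hs0
  obtain ⟨M, P, hP0, hPM, hstar, hnear⟩ := cone_chain i l h δ hδ
  have key : ∀ m, m ≤ M → ∃ C1 : ℝ, ∀ v ∈ P m,
      fLen W a b (D v * (U i l h s * g)) ≤ C1 * Real.exp (-ε * ‖v‖) := by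
    intro m
    induction m with
    | zero =>
      intro _
      obtain ⟨C, hC⟩ := hg
      obtain ⟨B, hB, hbd⟩ := hW.bd _ ((isCompact_Icc (a := -|s|) (b := |s|)).image
        (continuous_U i l h))
      refine ⟨B * C, fun v hv => ?_⟩
      rw [hP0] at hv
      have hv' : cmp v i - cmp v l ≤ 0 := by
        have : cmp v i ≤ cmp v l := hv
        linarith
      have e : D v * (U i l h s * g) =
          U i l h (Real.exp (cmp v i - cmp v l) * s) * (D v * g) := by
        rw [← mul_assoc, D_mul_U, mul_assoc]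
      have hmem : U i l h (Real.exp (cmp v i - cmp v l) * s) ∈
          (fun s => U i l h s) '' Icc (-|s|) |s| := by
        refine ⟨_, ?_, rfl⟩
        have h1 : |Real.exp (cmp v i - cmp v l) * s| ≤ |s| := by
          rw [abs_mul, abs_of_pos (Real.exp_pos _)]
          have := Real.exp_le_one_iff.2 hv'
          nlinarith [abs_nonneg s]
        exact abs_le.1 h1
      have h2 := FAME_len_le hW (D v * (U i l h s * g)) (D v * g) B
        (fun t ht => by rw [e]; exact hbd _ hmem _ t ht)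
      refine h2.trans ?_
      rw [mul_assoc]
      exact mul_le_mul_of_nonneg_left (hC v) hB.le
    | succ m ih =>
      intro hm
      exact hext (P m) (P (m + 1)) (hstar (m + 1)) (hnear m (by omega)) _ hu (ih (by omega))
  obtain ⟨C1, hC1⟩ := key M le_rfl
  exact ⟨C1, fun v => hC1 v (by rw [hPM]; exact mem_univ v)⟩

end Pool.Agent.H88.LF

end S_H88_LF_FCR

section S_H88_LF_FSH

/-!
# FSH (blueprint 10.1)
-/

set_option autoImplicit false

open MeasureTheory Set Filter
open scoped Topology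

namespace Pool.Agent.H88.LF

/-- FSH: bound of the length by a bound of the function -/
theorem fsh_len {W : G → ℝ → ℝ} {a b : ℝ} (hab : a ≤ b) {g : G} {M : ℝ}
    (hpos : ∀ s, s ∈ Icc a b → 0 < W g s) (h : ∀ s ∈ Icc a b, W g s ≤ M) :
    fLen W a b g ≤ M * (b - a) := by
  have h1 : ‖∫ s in a..b, W g s‖ ≤ M * |b - a| := by
    refine intervalIntegral.norm_integral_le_of_norm_le_const (fun s hs => ?_)
    rw [uIoc_of_le hab] at hs
    have hs' : s ∈ Icc a b := ⟨hs.1.le, hs.2⟩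
    rw [Real.norm_eq_abs, abs_of_pos (hpos s hs')]
    exact h s hs'
  rw [abs_of_nonneg (by linarith)] at h1
  exact (le_abs_self _).trans h1

/-- FSH: geometric sums along a ray -/
theorem fsh_sum {ε : ℝ} (hε : 0 < ε) (m : ℕ) :
    ∑ k ∈ Finset.range m, Real.exp (-ε * (k / 2)) ≤ (1 - Real.exp (-ε / 2))⁻¹ := by
  have h0 : 0 ≤ Real.exp (-ε / 2) := (Real.exp_pos _).le
  have h1 : Real.exp (-ε / 2) < 1 := by
    rw [Real.exp_lt_one_iff]; linarith
  have h2 : ∀ k : ℕ, Real.exp (-ε * (k / 2)) = Real.exp (-ε / 2) ^ k := by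
    intro k
    rw [← Real.exp_nat_mul]
    congr 1
    ring
  rw [Finset.sum_congr rfl (fun k _ => h2 k), ← tsum_geometric_of_lt_one h0 h1]
  exact (summable_geometric_of_lt_one h0 h1).sum_le_tsum _ (fun k _ => pow_nonneg h0 k)

/-- (10.1) Short segments are contracted by a set of positive measure.  Let `g ∈ Bl ρ` with `W (D v g) s0 ≤ R e^{-ε‖v‖}` and `b - a` small (relative to `R`, the constants of `Fam` for `D u`, `‖u‖≤1`, and the
distortion `W g s ≤ C2 W g s0` at `g ∈ Bl ρ`): induction along the ray to `v`. -/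
theorem Fam.short {W : G → ℝ → ℝ} {a0 b0 : ℝ} (ε : ℝ) (hε : 0 < ε) (ρ R C1 C2 : ℝ)
    (hR : 0 < R) (hC1 : 0 < C1) (hC2 : 0 < C2) (hpos : ∀ g s, s ∈ Icc a0 b0 → 0 < W g s)
    (hcont : ContinuousOn (fun p : G × ℝ => W p.1 p.2) (univ ×ˢ Icc a0 b0))
    (hdist : ∀ (a b : ℝ), a ≤ b → a0 ≤ a → b ≤ b0 → ∀ (u : ℝ × ℝ) (g : G) (s s' : ℝ), ‖u‖ ≤ 1 →
      s ∈ Icc a b → s' ∈ Icc a b →
      |(Real.log (W (D u * g) s) - Real.log (W g s)) -
        (Real.log (W (D u * g) s') - Real.log (W g s'))| ≤ C1 * fLen W a b g)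
    (hC2' : ∀ g ∈ Bl ρ, ∀ s ∈ Icc a0 b0, ∀ s' ∈ Icc a0 b0, W g s ≤ C2 * W g s') :
    ∃ d : ℝ, 0 < d ∧ ∀ (a b : ℝ), a ≤ b → a0 ≤ a → b ≤ b0 → b - a ≤ d → ∀ s0 ∈ Icc a b,
      ∀ g ∈ Bl ρ, (∀ v : ℝ × ℝ, W (D v * g) s0 ≤ R * Real.exp (-ε * ‖v‖)) → g ∈ fCon W a b ε := by
  have he1 : Real.exp (-ε / 2) < 1 := by rw [Real.exp_lt_one_iff]; linarith
  have hS0 : 0 < (1 - Real.exp (-ε / 2))⁻¹ := inv_pos.2 (by linarith)
  set S := (1 - Real.exp (-ε / 2))⁻¹ with hS
  set K := R * C2 * Real.exp 1 with hK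
  have hK0 : 0 < K := by positivity
  refine ⟨(C1 * K * S)⁻¹, by positivity, ?_⟩
  intro a b hab ha0 hb0 hd s0 hs0 g hg hgood
  have hsub : Icc a b ⊆ Icc a0 b0 := Icc_subset_Icc ha0 hb0
  refine ⟨K * (b - a), fun v => ?_⟩
  -- the steps
  set N : ℕ := ⌈‖v‖⌉₊ with hN
  rcases Nat.eq_zero_or_pos N with hN0 | hN0
  · -- `v = 0`
    have hv0 : ‖v‖ ≤ 0 := Nat.ceil_eq_zero.1 hN0
    have hv : v = 0 := norm_le_zero_iff.1 hv0
    subst hv
    rw [D_zero, one_mul, norm_zero, mul_zero, Real.exp_zero, mul_one]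
    refine fsh_len hab (fun s hs => hpos g s (hsub hs)) (fun s hs => ?_)
    have h1 := hC2' g hg s (hsub hs) s0 (hsub hs0)
    have h2 := hgood 0
    rw [D_zero, one_mul, norm_zero, mul_zero, Real.exp_zero, mul_one] at h2
    have h3 : (1 : ℝ) ≤ Real.exp 1 := Real.one_le_exp (by norm_num)
    calc W g s ≤ C2 * W g s0 := h1
      _ ≤ C2 * R := by gcongr
      _ = R * C2 * 1 := by ring
      _ ≤ K := by rw [hK]; gcongr
  have hNr : (0 : ℝ) < N := by exact_mod_cast hN0
  have hvN : ‖v‖ ≤ N := Nat.le_ceil _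
  set x : ℕ → ℝ × ℝ := fun m => ((m : ℝ) / N) • v with hx
  have hxn : ∀ m : ℕ, ‖x m‖ = (m : ℝ) / N * ‖v‖ := by
    intro m
    rw [hx]
    simp only
    rw [norm_smul, Real.norm_eq_abs, abs_of_nonneg (by positivity)]
  have hstep : ∀ m : ℕ, ‖x (m + 1) - x m‖ ≤ 1 := by
    intro m
    have h1 : x (m + 1) - x m = ((1 : ℝ) / N) • v := by
      rw [hx]
      simp only
      rw [← sub_smul]
      congr 1
      push_cast
      ring
    rw [h1, norm_smul, Real.norm_eq_abs, abs_of_nonneg (by positivity), div_mul_eq_mul_div, one_mul,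
      div_le_one hNr]
    exact hvN
  have hxhalf : ∀ m : ℕ, m < N → (m : ℝ) / 2 ≤ ‖x m‖ := by
    intro m hm
    rcases Nat.eq_zero_or_pos m with h0 | h0
    · subst h0
      simp
    · have hN2 : 2 ≤ N := by omega
      have hv1 : 1 ≤ ‖v‖ := by
        by_contra hcon
        have : N ≤ 1 := Nat.ceil_le.2 (by push_cast; linarith)
        omega
      have hNv : (N : ℝ) ≤ 2 * ‖v‖ := by
        have := Nat.ceil_lt_add_one (norm_nonneg v)
        rw [← hN] at this
        linarith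
      rw [hxn, div_mul_eq_mul_div, div_le_div_iff₀ (by norm_num) hNr]
      have : (0 : ℝ) ≤ m := Nat.cast_nonneg m
      nlinarith
  -- log ratios
  have hratio0 : ∀ s ∈ Icc a b, Real.log (W g s) - Real.log (W g s0) ≤ Real.log C2 := by
    intro s hs
    have h1 := hC2' g hg s (hsub hs) s0 (hsub hs0)
    have h2 := Real.log_le_log (hpos g s (hsub hs)) h1
    rw [Real.log_mul hC2.ne' (hpos g s0 (hsub hs0)).ne'] at h2
    linarith
  have key : ∀ m : ℕ, m ≤ N → ∀ s ∈ Icc a b,
      Real.log (W (D (x m) * g) s) - Real.log (W (D (x m) * g) s0) ≤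
        Real.log C2 + C1 * ∑ k ∈ Finset.range m, fLen W a b (D (x k) * g) := by
    intro m
    induction m with
    | zero =>
      intro _ s hs
      have : x 0 = 0 := by rw [hx]; simp
      rw [this, D_zero, one_mul, Finset.range_zero, Finset.sum_empty, mul_zero, add_zero]
      exact hratio0 s hs
    | succ m ih =>
      intro hm s hs
      have h1 := ih (by omega) s hs
      have h2 := hdist a b hab ha0 hb0 (x (m + 1) - x m) (D (x m) * g) s s0 (hstep m) hs hs0
      rw [← mul_assoc, ← D_add, sub_add_cancel] at h2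
      have h3 := (abs_le.1 h2).2
      rw [Finset.sum_range_succ, mul_add]
      linarith
  -- bound of the lengths by strong induction
  have hlen : ∀ m : ℕ, m ≤ N →
      fLen W a b (D (x m) * g) ≤ K * Real.exp (-ε * ‖x m‖) * (b - a) := by
    intro m
    induction m using Nat.strong_induction_on with
    | _ m ih =>
      intro hm
      refine fsh_len hab (fun s hs => hpos _ s (hsub hs)) (fun s hs => ?_)
      have h1 := key m hm s hs
      have h2 : C1 * ∑ k ∈ Finset.range m, fLen W a b (D (x k) * g) ≤ 1 := by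
        have h3 : ∑ k ∈ Finset.range m, fLen W a b (D (x k) * g) ≤ K * (b - a) * S := by
          calc ∑ k ∈ Finset.range m, fLen W a b (D (x k) * g)
              ≤ ∑ k ∈ Finset.range m, K * (b - a) * Real.exp (-ε * (k / 2)) := by
                refine Finset.sum_le_sum (fun k hk => ?_)
                have hk' := Finset.mem_range.1 hk
                refine (ih k hk' (by omega)).trans ?_
                have h4 : Real.exp (-ε * ‖x k‖) ≤ Real.exp (-ε * (k / 2)) := by
                  refine Real.exp_le_exp.2 ?_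
                  have := hxhalf k (by omega)
                  nlinarith
                have h5 : 0 ≤ b - a := by linarith
                calc K * Real.exp (-ε * ‖x k‖) * (b - a) ≤ K * Real.exp (-ε * (k / 2)) * (b - a) := by
                      gcongr
                  _ = K * (b - a) * Real.exp (-ε * (k / 2)) := by ring
            _ = K * (b - a) * ∑ k ∈ Finset.range m, Real.exp (-ε * (k / 2)) := by
                rw [Finset.mul_sum]
            _ ≤ K * (b - a) * S := by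
                have h5 : 0 ≤ b - a := by linarith
                exact mul_le_mul_of_nonneg_left (fsh_sum hε m) (by positivity)
        calc C1 * ∑ k ∈ Finset.range m, fLen W a b (D (x k) * g) ≤ C1 * (K * (b - a) * S) :=
              mul_le_mul_of_nonneg_left h3 hC1.le
          _ = (C1 * K * S) * (b - a) := by ring
          _ ≤ (C1 * K * S) * (C1 * K * S)⁻¹ := by gcongr
          _ = 1 := mul_inv_cancel₀ (by positivity)
      have hp := hpos (D (x m) * g) s (hsub hs)
      have hp0 := hpos (D (x m) * g) s0 (hsub hs0)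
      have h6 : Real.log (W (D (x m) * g) s) ≤
          Real.log (C2 * Real.exp 1 * W (D (x m) * g) s0) := by
        rw [Real.log_mul (by positivity) hp0.ne', Real.log_mul hC2.ne' (Real.exp_pos 1).ne',
          Real.log_exp]
        linarith
      have h7 := (Real.log_le_log_iff hp (by positivity)).1 h6
      calc W (D (x m) * g) s ≤ C2 * Real.exp 1 * W (D (x m) * g) s0 := h7
        _ ≤ C2 * Real.exp 1 * (R * Real.exp (-ε * ‖x m‖)) := by
            gcongr
            exact hgood (x m)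
        _ = K * Real.exp (-ε * ‖x m‖) := by rw [hK]; ring
  have hxN : x N = v := by
    rw [hx]
    simp only
    rw [div_self hNr.ne', one_smul]
  have h8 := hlen N le_rfl
  rw [hxN] at h8
  calc fLen W a b (D v * g) ≤ K * Real.exp (-ε * ‖v‖) * (b - a) := h8
    _ = K * (b - a) * Real.exp (-ε * ‖v‖) := by ring

end Pool.Agent.H88.LF

end S_H88_LF_FSH

section S_H88_LF_CONF

/-!
# CONF (blueprint section 10): full contraction
-/

set_option autoImplicit false

open MeasureTheory Set Filter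
open scoped Topology ENNReal

namespace Pool.Agent.H88.LF

/-- the length is continuous -/
theorem CONF_fLen_cont {W : G → ℝ → ℝ} {a b : ℝ} (hab : a ≤ b)
    (hc : ContinuousOn (fun p : G × ℝ => W p.1 p.2) (univ ×ˢ Icc a b)) :
    Continuous (fun g => fLen W a b g) := by
  have h1 : Continuous (Function.uncurry
      fun (g : G) (s : ℝ) => W g ((projIcc a b hab s : Icc a b) : ℝ)) := by
    have h2 : Continuous (fun p : G × ℝ =>
        ((p.1, ((projIcc a b hab p.2 : Icc a b) : ℝ)) : G × ℝ)) :=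
      continuous_fst.prodMk
        (continuous_subtype_val.comp (continuous_projIcc.comp continuous_snd))
    exact hc.comp_continuous h2 (fun p => ⟨mem_univ _, (projIcc a b hab p.2).2⟩)
  have h3 := intervalIntegral.continuous_parametric_intervalIntegral_of_continuous'
    (μ := volume) h1 a b
  refine h3.congr (fun g => ?_)
  unfold fLen
  refine intervalIntegral.integral_congr (fun s hs => ?_)
  rw [uIcc_of_le hab] at hs
  show W g ((projIcc a b hab s : Icc a b) : ℝ) = W g s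
  rw [projIcc_of_mem hab hs]

theorem CONF_meas {W : G → ℝ → ℝ} {a b : ℝ} (ε : ℝ) (hab : a ≤ b)
    (hc : ContinuousOn (fun p : G × ℝ => W p.1 p.2) (univ ×ˢ Icc a b)) :
    MeasurableSet (fCon W a b ε) := by
  have h1 : fCon W a b ε = ⋃ n : ℕ, ⋂ v : ℝ × ℝ,
      {g | fLen W a b (D v * g) ≤ (n : ℝ) * Real.exp (-ε * ‖v‖)} := by
    ext g
    simp only [mem_iUnion, mem_iInter]
    constructor
    · rintro ⟨C, hC⟩
      obtain ⟨n, hn⟩ := exists_nat_ge C
      exact ⟨n, fun v => (hC v).trans (mul_le_mul_of_nonneg_right hn (Real.exp_pos _).le)⟩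
    · rintro ⟨n, hn⟩
      exact ⟨n, hn⟩
  rw [h1]
  refine MeasurableSet.iUnion fun n => IsClosed.measurableSet (isClosed_iInter fun v => ?_)
  exact isClosed_le ((CONF_fLen_cont hab hc).comp (continuous_const_mul (D v)))
    continuous_const

/-- a set which contains the good part of the ball is not null -/
theorem CONF_pos {ρ : ℝ} (hρ : 0 < ρ) {P : G → Prop} {A : Set G}
    (hP : hG {g | g ∈ Bl ρ ∧ ¬ P g} ≤ ENNReal.ofReal ((hG (Bl ρ)).toReal / 2))
    (hA : ∀ g ∈ Bl ρ, P g → g ∈ A) : hG A ≠ 0 := by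
  intro h0
  have hfin : hG (Bl ρ) ≠ ∞ := (hG_Bl_lt_top ρ).ne
  have hpos : 0 < (hG (Bl ρ)).toReal := ENNReal.toReal_pos (hG_Bl_pos hρ).ne' hfin
  have h1 : Bl ρ ⊆ A ∪ {g | g ∈ Bl ρ ∧ ¬ P g} := by
    intro g hg
    by_cases h : P g
    · exact Or.inl (hA g hg h)
    · exact Or.inr ⟨hg, h⟩
  have h2 : hG (Bl ρ) ≤ ENNReal.ofReal ((hG (Bl ρ)).toReal / 2) := by
    calc hG (Bl ρ) ≤ hG (A ∪ {g | g ∈ Bl ρ ∧ ¬ P g}) := measure_mono h1
      _ ≤ hG A + hG {g | g ∈ Bl ρ ∧ ¬ P g} := measure_union_le _ _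
      _ ≤ 0 + ENNReal.ofReal ((hG (Bl ρ)).toReal / 2) := add_le_add h0.le hP
      _ = _ := zero_add _
  have h3 := ENNReal.toReal_mono ENNReal.ofReal_ne_top h2
  rw [ENNReal.toReal_ofReal (by positivity)] at h3
  linarith

variable {X : Type} [MetricSpace X] [CompactSpace X] [MulAction G X] [ContinuousSMul G X]

omit [CompactSpace X] [ContinuousSMul G X] in
theorem CONF_W {S : FB X} (T : TN S) (g : G) (i : Fin S.n) {s : ℝ} (hs : |s| < 1) :
    T.W g i s = T.J g (S.c i s) * T.W 1 i s := by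
  have h := T.W_mul g 1 i s hs
  rw [mul_one, one_smul] at h
  exact h

omit [CompactSpace X] [ContinuousSMul G X] in
theorem CONF_good {S : FB X} (T : TN S) {ε : ℝ}
    (hae : ∀ x : X, ∀ᵐ g ∂hG, ∃ R : ℝ, ∀ v : ℝ × ℝ,
      T.J (D v * g) x ≤ R * Real.exp (-ε * ‖v‖)) (i : Fin S.n) {s : ℝ} (hs : |s| < 1) :
    ∀ᵐ g ∂hG, g ∈ fGood (fun g s => T.W g i s) s ε := by
  filter_upwards [hae (S.c i s)] with g hg
  obtain ⟨R, hR⟩ := hg
  refine ⟨R * T.W 1 i s, fun v => ?_⟩
  have h1 := CONF_W T (D v * g) i hs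
  refine h1.le.trans ?_
  have h2 := mul_le_mul_of_nonneg_right (hR v) (T.pos 1 i s hs).le
  refine h2.trans (le_of_eq ?_)
  ring

/-- short segments -/
theorem CONF_short {S : FB X} (hS : S.Straight) (T : TN S) {ρ ε : ℝ} (hρ : 0 < ρ) (hε : 0 < ε)
    (hunif : ∀ η : ℝ, 0 < η → ∃ R : ℝ, 1 ≤ R ∧ ∀ x : X,
        hG {g | g ∈ Bl ρ ∧ ¬ ∀ v : ℝ × ℝ, T.J (D v * g) x ≤ R * Real.exp (-ε * ‖v‖)} ≤
          ENNReal.ofReal η)
    (hae : ∀ x : X, ∀ᵐ g ∂hG, ∃ R : ℝ, ∀ v : ℝ × ℝ,
      T.J (D v * g) x ≤ R * Real.exp (-ε * ‖v‖)) (i : Fin S.n) (a b : ℝ) (ha : -1 < a)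
    (hab : a ≤ b) (hb : b < 1) :
    ∃ d : ℝ, 0 < d ∧ ∀ a' b' : ℝ, a' ≤ b' → a ≤ a' → b' ≤ b → b' - a' ≤ d →
      ∀ᵐ g ∂hG, g ∈ fCon (fun g s => T.W g i s) a' b' ε := by
  have hfin : hG (Bl ρ) ≠ ∞ := (hG_Bl_lt_top ρ).ne
  have hBpos : 0 < (hG (Bl ρ)).toReal := ENNReal.toReal_pos (hG_Bl_pos hρ).ne' hfin
  obtain ⟨R, hR1, hR⟩ := hunif ((hG (Bl ρ)).toReal / 2) (by positivity)
  obtain ⟨r, hr⟩ : ∃ r : ℝ, r = max |a| |b| := ⟨_, rfl⟩
  have hr1 : r < 1 := by
    rw [hr, max_lt_iff, abs_lt, abs_lt]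
    exact ⟨⟨ha, hab.trans_lt hb⟩, ⟨ha.trans_le hab, hb⟩⟩
  have hrs : ∀ s ∈ Icc a b, |s| ≤ r := by
    intro s hs
    rw [hr]
    exact abs_le_max_abs_abs hs.1 hs.2
  have habs : ∀ s ∈ Icc a b, |s| < 1 := fun s hs => (hrs s hs).trans_lt hr1
  obtain ⟨M, hM1, hM⟩ := T.W_bound (isCompact_singleton (x := (1 : G))) r hr1
  obtain ⟨C1, hC1, hC1'⟩ := dist_int hS T (D '' {v | ‖v‖ ≤ 1}) (isCompact_D_image 1)
  obtain ⟨C3, hC3, hC3'⟩ := T.W_bound (isCompact_Bl ρ) r hr1
  have hcont : ContinuousOn (fun p : G × ℝ => T.W p.1 i p.2) (univ ×ˢ Icc a b) :=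
    (T.cont i).mono fun p hp => habs p.2 hp.2
  obtain ⟨d, hd, hshort⟩ := Fam.short (W := fun g s => T.W g i s) (a0 := a) (b0 := b) ε hε ρ
    (R * M) C1 (C3 * C3) (by positivity) hC1 (by positivity)
    (fun g s hs => T.pos g i s (habs s hs)) hcont
    (fun a' b' hab' ha' hb' u g s s' hu hs hs' =>
      hC1' (D u) ⟨u, hu, rfl⟩ g i a' b' s s' (ha.trans_le ha') hab' (hb'.trans_lt hb) hs hs')
    (fun g hg s hs s' hs' => by
      have h1 := (hC3' g hg i s (hrs s hs)).2
      have h2 := (hC3' g hg i s' (hrs s' hs')).1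
      have h3 : C3 * C3⁻¹ = 1 := mul_inv_cancel₀ (by positivity)
      have h4 : C3 ≤ C3 * C3 * T.W g i s' := by
        calc C3 = C3 * (C3 * C3⁻¹) := by rw [h3, mul_one]
          _ = C3 * C3 * C3⁻¹ := by ring
          _ ≤ C3 * C3 * T.W g i s' := mul_le_mul_of_nonneg_left h2 (by positivity)
      exact h1.trans h4)
  refine ⟨d, hd, fun a' b' hab' ha' hb' hd' => ?_⟩
  have ha1 : a' ∈ Icc a b := ⟨ha', hab'.trans hb'⟩
  have ha2 : a' ∈ Icc a' b' := ⟨le_rfl, hab'⟩
  have hFam : Fam (fun g s => T.W g i s) a' b' :=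
    fam_of_straight hS T i a' b' (ha.trans_le ha') hab' (hb'.trans_lt hb)
  have hpos : hG (fCon (fun g s => T.W g i s) a' b' ε) ≠ 0 := by
    refine CONF_pos hρ (P := fun g => ∀ v : ℝ × ℝ,
      T.J (D v * g) (S.c i a') ≤ R * Real.exp (-ε * ‖v‖)) (hR (S.c i a')) ?_
    intro g hg hgood
    refine hshort a' b' hab' ha' hb' hd' a' ha2 g hg (fun v => ?_)
    have h1 := CONF_W T (D v * g) i (habs a' ha1)
    have h2 : T.W 1 i a' ≤ M := (hM 1 rfl i a' (hrs a' ha1)).2
    have h3 : 0 < T.W 1 i a' := T.pos 1 i a' (habs a' ha1)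
    refine h1.le.trans ?_
    calc T.J (D v * g) (S.c i a') * T.W 1 i a'
        ≤ R * Real.exp (-ε * ‖v‖) * M :=
          mul_le_mul (hgood v) h2 h3.le (by positivity)
      _ = R * M * Real.exp (-ε * ‖v‖) := by ring
  refine erg_set _ (CONF_meas ε hab' hFam.cont) hpos (fun i' l' hil s => ?_)
  filter_upwards [ae_mul_left (U i' l' hil s) (CONF_good T hae i (habs a' ha1))] with g hg1 hg2
  exact Fam.con_root hFam ε hε a' ha2 i' l' hil s g hg2 hg1

/-- Full contraction of every compact segment.  Short segments: `good_unif` (with `W(D v g;i,s0) = J(D v g, c i s0) W(1;i,s0)`), `Fam.short` give a subset of positive measure in `fCon`;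
`Fam.con_root`, `erg_set` (`fCon` is measurable: a countable union of closed sets; `fGood` has full measure).  Then add up finitely many short segments. -/
theorem con_full {S : FB X} (hS : S.Straight) (T : TN S) (hC : T.CStar) :
    ∃ ε : ℝ, 0 < ε ∧ ∀ (i : Fin S.n) (a b : ℝ), -1 < a → a ≤ b → b < 1 →
      ∀ᵐ g ∂hG, g ∈ fCon (fun g s => T.W g i s) a b ε := by
  obtain ⟨ρ, hρ, -, ε, hε, -, hunif, hae⟩ := good_unif hC
  refine ⟨ε, hε, fun i a b ha hab hb => ?_⟩
  obtain ⟨d, hd, hseg⟩ := CONF_short hS T hρ hε hunif hae i a b ha hab hb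
  obtain ⟨N, hN⟩ := exists_nat_gt ((b - a) / d)
  have hN0 : (0 : ℝ) < N := lt_of_le_of_lt (div_nonneg (by linarith) hd.le) hN
  rw [div_lt_iff₀ hd] at hN
  obtain ⟨p, hp⟩ : ∃ p : ℕ → ℝ, p = fun k : ℕ => a + (k : ℝ) * ((b - a) / N) :=
    ⟨_, rfl⟩
  have hstep : 0 ≤ (b - a) / N := div_nonneg (by linarith) hN0.le
  have hp0 : p 0 = a := by rw [hp]; simp
  have hpN : p N = b := by
    rw [hp]
    show a + (N : ℝ) * ((b - a) / N) = b
    field_simp
    ring
  have hpm : ∀ k, p k ≤ p (k + 1) := by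
    intro k
    rw [hp]
    show a + (k : ℝ) * ((b - a) / N) ≤ a + ((k + 1 : ℕ) : ℝ) * ((b - a) / N)
    push_cast
    nlinarith
  have hmono : Monotone p := monotone_nat_of_le_succ hpm
  have hpd : ∀ k, p (k + 1) - p k ≤ d := by
    intro k
    rw [hp]
    show a + ((k + 1 : ℕ) : ℝ) * ((b - a) / N) - (a + (k : ℝ) * ((b - a) / N)) ≤ d
    push_cast
    have h1 : (b - a) / N ≤ d := by
      rw [div_le_iff₀ hN0]
      linarith
    linarith
  have hpa : ∀ k, a ≤ p k := fun k => by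
    rw [← hp0]
    exact hmono (Nat.zero_le k)
  have hpb : ∀ k, k ≤ N → p k ≤ b := fun k hk => by
    rw [← hpN]
    exact hmono hk
  have hall : ∀ᵐ g ∂hG, ∀ k, k < N → g ∈ fCon (fun g s => T.W g i s) (p k) (p (k + 1)) ε := by
    refine ae_all_iff.2 fun k => ?_
    by_cases hk : k < N
    · filter_upwards [hseg (p k) (p (k + 1)) (hpm k) (hpa k) (hpb _ hk) (hpd k)] with g hg
      exact fun _ => hg
    · exact Filter.Eventually.of_forall fun g h => absurd h hk
  filter_upwards [hall] with g hg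
  have hex : ∀ k, ∃ C : ℝ, k < N → ∀ v : ℝ × ℝ,
      fLen (fun g s => T.W g i s) (p k) (p (k + 1)) (D v * g) ≤ C * Real.exp (-ε * ‖v‖) := by
    intro k
    by_cases hk : k < N
    · obtain ⟨C, hC⟩ := hg k hk
      exact ⟨C, fun _ => hC⟩
    · exact ⟨0, fun h => absurd h hk⟩
  choose C hC' using hex
  refine ⟨∑ k ∈ Finset.range N, C k, fun v => ?_⟩
  have hint : ∀ k < N, IntervalIntegrable (T.W (D v * g) i) volume (p k) (p (k + 1)) := by
    intro k hk
    refine ContinuousOn.intervalIntegrable ?_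
    rw [uIcc_of_le (hpm k)]
    exact (DIS_cont T (D v * g) i ha hb).mono (Icc_subset_Icc (hpa k) (hpb _ hk))
  have hsum : fLen (fun g s => T.W g i s) a b (D v * g) =
      ∑ k ∈ Finset.range N, fLen (fun g s => T.W g i s) (p k) (p (k + 1)) (D v * g) := by
    have h1 := intervalIntegral.sum_integral_adjacent_intervals hint
    rw [hp0, hpN] at h1
    exact h1.symm
  rw [hsum, Finset.sum_mul]
  exact Finset.sum_le_sum fun k hk => hC' k (Finset.mem_range.1 hk) v

end Pool.Agent.H88.LF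

end S_H88_LF_CONF

section S_H88_LF_FLIM

/-!
# FLIM (blueprint 10.3)
-/

set_option autoImplicit false

open MeasureTheory Set Filter
open scoped Topology

namespace Pool.Agent.H88.LF

/-- FLIM: the log ratio -/
noncomputable def flim_F (W : G → ℝ → ℝ) (s s' : ℝ) (g : G) (v : ℝ × ℝ) : ℝ :=
  Real.log (W (D v * g) s') - Real.log (W (D v * g) s)

/-- FLIM: the increments in all directions -/
theorem flim_inc {W : G → ℝ → ℝ} {a b : ℝ} (hW : Fam W a b) {ε : ℝ} {g : G}
    (hg : g ∈ fCon W a b ε) {s s' : ℝ} (hs : s ∈ Icc a b) (hs' : s' ∈ Icc a b) :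
    ∃ C : ℝ, 0 ≤ C ∧ ∀ v w : ℝ × ℝ, ‖w‖ ≤ 1 →
      |flim_F W s s' g (v + w) - flim_F W s s' g v| ≤ C * Real.exp (-ε * ‖v‖) := by
  obtain ⟨C0, hC0⟩ := hg
  obtain ⟨C, hC, hd⟩ := hW.dist _ (isCompact_D_image 1)
  refine ⟨C * max C0 0, by positivity, fun v w hw => ?_⟩
  have h1 := hd (D w) ⟨w, hw, rfl⟩ (D v * g) s' s hs' hs
  rw [← mul_assoc, ← D_add, add_comm w v] at h1
  have h2 : flim_F W s s' g (v + w) - flim_F W s s' g v =
      (Real.log (W (D (v + w) * g) s') - Real.log (W (D v * g) s')) -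
        (Real.log (W (D (v + w) * g) s) - Real.log (W (D v * g) s)) := by
    unfold flim_F; ring
  rw [h2]
  refine h1.trans ?_
  rw [mul_assoc]
  refine mul_le_mul_of_nonneg_left ((hC0 v).trans ?_) hC.le
  exact mul_le_mul_of_nonneg_right (le_max_left _ _) (Real.exp_pos _).le

/-- Limits of ratios: for `g ∈ fCon` the logarithm of `W (D v g) s' / W (D v g) s` converges as `v → ∞` (`dist`, `conv_diag`). -/
theorem Fam.lim {W : G → ℝ → ℝ} {a b : ℝ} (hW : Fam W a b) (ε : ℝ) (hε : 0 < ε) (g : G)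
    (hg : g ∈ fCon W a b ε) (s s' : ℝ) (hs : s ∈ Icc a b) (hs' : s' ∈ Icc a b) :
    ∃ L : ℝ, Tendsto (fun v : ℝ × ℝ => Real.log (W (D v * g) s') - Real.log (W (D v * g) s))
      (cocompact (ℝ × ℝ)) (𝓝 L) := by
  obtain ⟨C, hC, hinc⟩ := flim_inc hW hg hs hs'
  obtain ⟨C', hC', hconv⟩ := conv_diag ε hε
  obtain ⟨L, hL⟩ := hconv C (flim_F W s s' g) hC hinc
  refine ⟨L, ?_⟩
  have h1 := tendsto_of_bound (ε / 2) (C' * C) (by linarith)
    (fun v => flim_F W s s' g v - L) (fun v => by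
      have := hL v
      rw [show -(ε / 2) * ‖v‖ = -ε * ‖v‖ / 2 by ring]
      exact this)
  have h2 := h1.add_const L
  simp only [sub_add_cancel, zero_add] at h2
  exact h2

/-- FLIM: a direction in which the root `i l` is not expanded -/
theorem flim_dir (i l : Fin 3) : ∃ e : ℝ × ℝ, ‖e‖ = 1 ∧ cmp e i ≤ cmp e l := by
  by_cases h : cmp (1, 1) i ≤ cmp (1, 1) l
  · exact ⟨(1, 1), by simp [Prod.norm_def], h⟩
  · refine ⟨-(1, 1), by simp [Prod.norm_def], ?_⟩
    rw [cmp_neg, cmp_neg]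
    linarith

theorem flim_seq {e : ℝ × ℝ} (he : ‖e‖ = 1) :
    Tendsto (fun n : ℕ => (n : ℝ) • e) atTop (cocompact (ℝ × ℝ)) := by
  refine tendsto_cocompact_of_tendsto_dist_comp_atTop 0 ?_
  simp only [dist_zero_right, norm_smul, he, mul_one, Real.norm_natCast]
  exact tendsto_natCast_atTop_atTop

/-- FLIM: comparison of the log ratios at `g` and `U g` -/
theorem flim_cmp {W : G → ℝ → ℝ} {a b : ℝ} (hW : Fam W a b) {ε : ℝ} (hε : 0 < ε) {g : G}
    (hg : g ∈ fCon W a b ε) {s s' : ℝ} (hs : s ∈ Icc a b) (hs' : s' ∈ Icc a b)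
    (i l : Fin 3) (hil : i ≠ l) (r : ℝ) {e : ℝ × ℝ} (he : ‖e‖ = 1) (hel : cmp e i ≤ cmp e l) :
    Tendsto (fun n : ℕ => flim_F W s s' (U i l hil r * g) ((n : ℝ) • e) -
      flim_F W s s' g ((n : ℝ) • e)) atTop (𝓝 0) := by
  obtain ⟨C0, hC0⟩ := hg
  set Q : Set G := U i l hil '' (Icc (-|r|) |r|) with hQ
  have hQc : IsCompact Q := isCompact_Icc.image (continuous_U i l hil)
  obtain ⟨C, hC, hd⟩ := hW.dist Q hQc
  have hb : ∀ n : ℕ, |flim_F W s s' (U i l hil r * g) ((n : ℝ) • e) -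
      flim_F W s s' g ((n : ℝ) • e)| ≤ C * (max C0 0 * Real.exp (-ε * n)) := by
    intro n
    set v := (n : ℝ) • e with hv
    have hvn : ‖v‖ = n := by rw [hv, norm_smul, he, mul_one, Real.norm_natCast]
    set t := Real.exp (cmp v i - cmp v l) * r with ht
    have hle : cmp v i - cmp v l ≤ 0 := by
      rw [hv, cmp_smul, cmp_smul]
      have : (0 : ℝ) ≤ n := Nat.cast_nonneg n
      nlinarith
    have htr : |t| ≤ |r| := by
      rw [ht, abs_mul, abs_of_pos (Real.exp_pos _)]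
      have h1 : Real.exp (cmp v i - cmp v l) ≤ 1 := Real.exp_le_one_iff.2 hle
      nlinarith [abs_nonneg r]
    have hmem : U i l hil t ∈ Q := ⟨t, abs_le.1 htr, rfl⟩
    have h1 := hd _ hmem (D v * g) s' s hs' hs
    have h2 : D v * (U i l hil r * g) = U i l hil t * (D v * g) := by
      rw [← mul_assoc, D_mul_U, mul_assoc]
    have h3 : flim_F W s s' (U i l hil r * g) v - flim_F W s s' g v =
        (Real.log (W (U i l hil t * (D v * g)) s') - Real.log (W (D v * g) s')) -
          (Real.log (W (U i l hil t * (D v * g)) s) - Real.log (W (D v * g) s)) := by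
      unfold flim_F; rw [h2]; ring
    rw [h3]
    refine h1.trans (mul_le_mul_of_nonneg_left ((hC0 v).trans ?_) hC.le)
    rw [hvn]
    exact mul_le_mul_of_nonneg_right (le_max_left _ _) (Real.exp_pos _).le
  refine squeeze_zero_norm (a := fun n : ℕ => C * (max C0 0 * Real.exp (-ε * n))) (fun n => ?_) ?_
  · rw [Real.norm_eq_abs]; exact hb n
  · have h1 : Tendsto (fun n : ℕ => Real.exp (-ε * n)) atTop (𝓝 0) := by
      refine Real.tendsto_exp_atBot.comp ?_
      exact tendsto_natCast_atTop_atTop.const_mul_atTop_of_neg (by linarith)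
    have h2 := (h1.const_mul (max C0 0)).const_mul C
    simpa using h2

/-- FLIM: measurability -/
theorem flim_meas {W : G → ℝ → ℝ} {a b : ℝ} (hW : Fam W a b) {s s' : ℝ} (hs : s ∈ Icc a b)
    (hs' : s' ∈ Icc a b) (v : ℝ × ℝ) : Measurable (fun g => flim_F W s s' g v) := by
  have hc : ∀ s ∈ Icc a b, Continuous (fun g : G => Real.log (W (D v * g) s)) := by
    intro s hs
    have h1 : Continuous (fun g : G => W g s) := by
      rw [← continuousOn_univ]
      exact hW.cont.comp (continuous_id.prodMk continuous_const).continuousOn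
        (fun g _ => ⟨mem_univ _, hs⟩)
    exact (h1.comp (continuous_const_mul (D v))).log (fun g => (hW.pos _ s hs).ne')
  unfold flim_F
  exact ((hc s' hs').sub (hc s hs)).measurable

/-- If `fCon` has full measure the limit is a.e. constant (half plane comparison `D v * U = U' * D v` and `dist`; measurability; `erg_fun`), and it is small for `s'` near `s` in the quantitative form
`|L| ≤ C·len + |log W g s' - log W g s|` at any `g ∈ fCon`; only the first statement is needed here. -/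
theorem Fam.lim_const {W : G → ℝ → ℝ} {a b : ℝ} (hW : Fam W a b) (ε : ℝ) (hε : 0 < ε)
    (hfull : ∀ᵐ g ∂hG, g ∈ fCon W a b ε) (s s' : ℝ) (hs : s ∈ Icc a b) (hs' : s' ∈ Icc a b) :
    ∃ L : ℝ, ∀ᵐ g ∂hG, Tendsto
      (fun v : ℝ × ℝ => Real.log (W (D v * g) s') - Real.log (W (D v * g) s))
      (cocompact (ℝ × ℝ)) (𝓝 L) := by
  have hlim : ∀ g ∈ fCon W a b ε, ∃ L : ℝ, Tendsto (flim_F W s s' g) (cocompact (ℝ × ℝ)) (𝓝 L) :=
    fun g hg => hW.lim ε hε g hg s s' hs hs'
  have he1 : ‖((1, 1) : ℝ × ℝ)‖ = 1 := by simp [Prod.norm_def]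
  have hseq := flim_seq he1
  -- a measurable version of the limit
  obtain ⟨f, hf, hfl⟩ := measurable_limit_of_tendsto_metrizable_ae (μ := (hG : Measure G))
    (f := fun (n : ℕ) (g : G) => flim_F W s s' g ((n : ℝ) • (1, 1))) (L := atTop)
    (fun n => (flim_meas hW hs hs' _).aemeasurable) (by
      filter_upwards [hfull] with g hg
      obtain ⟨L, hL⟩ := hlim g hg
      exact ⟨L, hL.comp hseq⟩)
  have hall : ∀ᵐ g ∂(hG : Measure G), g ∈ fCon W a b ε ∧
      Tendsto (flim_F W s s' g) (cocompact (ℝ × ℝ)) (𝓝 (f g)) := by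
    filter_upwards [hfull, hfl] with g hg hg2
    obtain ⟨L, hL⟩ := hlim g hg
    have : L = f g := tendsto_nhds_unique (hL.comp hseq) hg2
    exact ⟨hg, this ▸ hL⟩
  obtain ⟨c, hc⟩ := erg_fun f hf (by
    intro i l hil r
    filter_upwards [hall, ae_mul_left (U i l hil r) hall] with g hg hg2
    obtain ⟨e, he, hel⟩ := flim_dir i l
    have h1 := flim_cmp hW hε hg.1 hs hs' i l hil r he hel
    have h2 := (hg2.2.comp (flim_seq he)).sub (hg.2.comp (flim_seq he))
    have h3 : f (U i l hil r * g) - f g = 0 := tendsto_nhds_unique h2 h1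
    linarith)
  refine ⟨c, ?_⟩
  filter_upwards [hall, hc] with g hg hgc
  rw [← hgc]
  exact hg.2

end Pool.Agent.H88.LF

end S_H88_LF_FLIM

section S_H88_LF_DEN

/-!
# DEN (blueprint 10.3): the invariant densities
-/

set_option autoImplicit false

open MeasureTheory Set Filter
open scoped Topology ENNReal

namespace Pool.Agent.H88.LF

/-- a sequence going to infinity in the plane -/
noncomputable def denSeq (m : ℕ) : ℝ × ℝ := (m : ℝ) • ((1 : ℝ), (0 : ℝ))

theorem den_seq_norm (m : ℕ) : ‖denSeq m‖ = m := by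
  unfold denSeq
  rw [norm_smul, Prod.norm_def]
  simp

theorem den_seq_tendsto : Tendsto denSeq atTop (cocompact (ℝ × ℝ)) := by
  rw [← Metric.cobounded_eq_cocompact, ← tendsto_norm_atTop_iff_cobounded]
  simp_rw [den_seq_norm]
  exact tendsto_natCast_atTop_atTop

theorem den_seq_zero : denSeq 0 = 0 := by simp [denSeq]

theorem den_seq_succ (m : ℕ) : D (denSeq (m + 1)) = D ((1 : ℝ), (0 : ℝ)) * D (denSeq m) := by
  rw [← D_add]
  congr 1
  unfold denSeq
  push_cast
  rw [add_smul, one_smul, add_comm]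

theorem den_cont {W : G → ℝ → ℝ} {A B : ℝ} (hW : Fam W A B) (g : G) :
    ContinuousOn (W g) (Icc A B) := by
  have h1 : ContinuousOn (fun s : ℝ => ((g, s) : G × ℝ)) (Icc A B) := by fun_prop
  exact hW.cont.comp h1 fun s hs => ⟨mem_univ _, hs⟩

/-- pointwise exponential contraction -/
theorem den_sup {W : G → ℝ → ℝ} {A B : ℝ} (hAB : A < B) (hW : Fam W A B) {ε : ℝ} (hε : 0 < ε)
    {g : G} (hg : g ∈ fCon W A B ε) :
    ∃ K : ℝ, 0 < K ∧ ∀ (v : ℝ × ℝ) (x : ℝ), x ∈ Icc A B →
      W (D v * g) x ≤ K * Real.exp (-ε * ‖v‖) := by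
  obtain ⟨C, hC, hray⟩ := hW.ray ε hε
  obtain ⟨C1, hC1⟩ := hg
  obtain ⟨M, hM⟩ : ∃ M, ∀ x ∈ Icc A B, ‖Real.log (W g x)‖ ≤ M :=
    isCompact_Icc.exists_bound_of_continuousOn
      ((den_cont hW g).log (fun x hx => (hW.pos g x hx).ne'))
  have hBA : 0 < B - A := by linarith
  refine ⟨Real.exp (C * |C1| + 2 * M) * (|C1| + 1) / (B - A), by positivity, ?_⟩
  intro v x hx
  have h1 : ∀ y ∈ Icc A B,
      W (D v * g) x ≤ Real.exp (C * |C1| + 2 * M) * W (D v * g) y := by
    intro y hy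
    have h2 := hray g |C1| v (abs_nonneg _) (fun c _ _ => (hC1 _).trans
      (mul_le_mul_of_nonneg_right (le_abs_self _) (Real.exp_pos _).le)) x y hx hy
    have h3 := hM x hx
    have h4 := hM y hy
    rw [Real.norm_eq_abs] at h3 h4
    have h5 : Real.log (W (D v * g) x) ≤ (C * |C1| + 2 * M) + Real.log (W (D v * g) y) := by
      rw [abs_le] at h2 h3 h4
      linarith [h2.1, h2.2, h3.1, h3.2, h4.1, h4.2]
    rw [← Real.exp_log (hW.pos (D v * g) x hx), ← Real.exp_log (hW.pos (D v * g) y hy),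
      ← Real.exp_add]
    exact Real.exp_le_exp.2 h5
  have h6 : (B - A) * W (D v * g) x ≤
      Real.exp (C * |C1| + 2 * M) * fLen W A B (D v * g) := by
    have hint : IntervalIntegrable (fun y => Real.exp (C * |C1| + 2 * M) * W (D v * g) y)
        volume A B := by
      apply ContinuousOn.intervalIntegrable
      rw [uIcc_of_le hAB.le]
      exact continuousOn_const.mul (den_cont hW _)
    have h7 := intervalIntegral.integral_mono_on hAB.le
      (intervalIntegrable_const (c := W (D v * g) x) (μ := volume)) hint h1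
    rw [intervalIntegral.integral_const, intervalIntegral.integral_const_mul,
      smul_eq_mul] at h7
    exact h7
  have h7 := hC1 v
  rw [div_mul_eq_mul_div, le_div_iff₀ hBA]
  have h8 : fLen W A B (D v * g) ≤ (|C1| + 1) * Real.exp (-ε * ‖v‖) := by
    refine h7.trans (mul_le_mul_of_nonneg_right ?_ (Real.exp_pos _).le)
    linarith [le_abs_self C1]
  calc W (D v * g) x * (B - A) = (B - A) * W (D v * g) x := mul_comm _ _
    _ ≤ Real.exp (C * |C1| + 2 * M) * fLen W A B (D v * g) := h6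
    _ ≤ Real.exp (C * |C1| + 2 * M) * ((|C1| + 1) * Real.exp (-ε * ‖v‖)) :=
        mul_le_mul_of_nonneg_left h8 (Real.exp_pos _).le
    _ = Real.exp (C * |C1| + 2 * M) * (|C1| + 1) * Real.exp (-ε * ‖v‖) := by ring

variable {X : Type} [MetricSpace X] [CompactSpace X] [MulAction G X] [ContinuousSMul G X]

/-- The ratio of sizes at two parameters along the sequence `denSeq`. -/
theorem den_est {S : FB X} (hS : S.Straight) (T : TN S) (i : Fin S.n) {A B : ℝ} (hA : -1 < A)
    (hAB : A < B) (hB : B < 1) {ε : ℝ} (hε : 0 < ε) {g : G}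
    (hg : g ∈ fCon (fun g s => T.W g i s) A B ε) :
    ∃ C : ℝ, ∀ s s', s ∈ Icc A B → s' ∈ Icc A B → s ≤ s' → ∀ m : ℕ,
      |(Real.log (T.W (D (denSeq m) * g) i s') - Real.log (T.W (D (denSeq m) * g) i s)) -
        (Real.log (T.W g i s') - Real.log (T.W g i s))| ≤ C * (s' - s) := by
  obtain ⟨C0, hC0, hdist⟩ := dist_int hS T _ (isCompact_D_image 1)
  have hW := fam_of_straight hS T i A B hA hAB.le hB
  obtain ⟨K, hK, hsup⟩ := den_sup hAB hW hε hg
  have hq : D ((1 : ℝ), (0 : ℝ)) ∈ D '' {v : ℝ × ℝ | ‖v‖ ≤ 1} :=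
    ⟨_, by simp [Prod.norm_def], rfl⟩
  set r := Real.exp (-ε) with hr
  have hr0 : 0 < r := Real.exp_pos _
  have hr1 : r < 1 := by rw [hr, Real.exp_lt_one_iff]; linarith
  have h1r : 0 < 1 - r := by linarith
  refine ⟨C0 * K / (1 - r), ?_⟩
  intro s s' hs hs' hss m
  have key : ∀ m : ℕ,
      |(Real.log (T.W (D (denSeq m) * g) i s') - Real.log (T.W (D (denSeq m) * g) i s)) -
        (Real.log (T.W g i s') - Real.log (T.W g i s))| ≤
        C0 * K / (1 - r) * (s' - s) * (1 - r ^ m) := by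
    intro m
    induction m with
    | zero => rw [den_seq_zero, D_zero, one_mul]; simp
    | succ m ih =>
      have h1 := hdist _ hq (D (denSeq m) * g) i s s' s s' (lt_of_lt_of_le hA hs.1) hss
        (lt_of_le_of_lt hs'.2 hB) ⟨le_refl _, hss⟩ ⟨hss, le_refl _⟩
      have h2 : fLen (fun g s => T.W g i s) s s' (D (denSeq m) * g) ≤
          (s' - s) * (K * r ^ m) := by
        have hint : IntervalIntegrable (fun y => T.W (D (denSeq m) * g) i y) volume s s' := by
          apply ContinuousOn.intervalIntegrable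
          rw [uIcc_of_le hss]
          exact (den_cont hW (D (denSeq m) * g)).mono (Icc_subset_Icc hs.1 hs'.2)
        have h3 := intervalIntegral.integral_mono_on hss hint
          (intervalIntegrable_const (c := K * r ^ m) (μ := volume)) (fun y hy => by
            have h4 := hsup (denSeq m) y ⟨hs.1.trans hy.1, hy.2.trans hs'.2⟩
            have h5 : Real.exp (-ε * ‖denSeq m‖) = r ^ m := by
              rw [den_seq_norm, hr, ← Real.exp_nat_mul, mul_comm]
            rw [h5] at h4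
            exact h4)
        rw [intervalIntegral.integral_const, smul_eq_mul] at h3
        exact h3
      rw [den_seq_succ, mul_assoc]
      have h4 : C0 * fLen (fun g s => T.W g i s) s s' (D (denSeq m) * g) ≤
          C0 * ((s' - s) * (K * r ^ m)) := mul_le_mul_of_nonneg_left h2 hC0.le
      have h5 : C0 * K / (1 - r) * (s' - s) * (1 - r ^ (m + 1)) =
          C0 * K / (1 - r) * (s' - s) * (1 - r ^ m) + C0 * ((s' - s) * (K * r ^ m)) := by
        field_simp
        ring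
      rw [h5]
      have h6 := h1.trans h4
      rw [abs_le] at ih h6 ⊢
      constructor
      · linarith [ih.1, ih.2, h6.1, h6.2]
      · linarith [ih.1, ih.2, h6.1, h6.2]
  refine (key m).trans ?_
  have h7 : 0 ≤ C0 * K / (1 - r) * (s' - s) :=
    mul_nonneg (by positivity) (by linarith)
  have h8 : 1 - r ^ m ≤ 1 := by linarith [pow_pos hr0 m]
  calc _ ≤ C0 * K / (1 - r) * (s' - s) * 1 := mul_le_mul_of_nonneg_left h8 h7
    _ = _ := mul_one _

/-- existence of the limits -/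
theorem den_lim {S : FB X} (hS : S.Straight) (T : TN S) (hC : T.CStar) :
    ∃ ε : ℝ, 0 < ε ∧ (∀ (i : Fin S.n) (a b : ℝ), -1 < a → a ≤ b → b < 1 →
      ∀ᵐ g ∂hG, g ∈ fCon (fun g s => T.W g i s) a b ε) ∧
    ∃ L : Fin S.n → ℝ → ℝ, ∀ i s, |s| < 1 → ∀ᵐ g ∂hG, Tendsto
      (fun v : ℝ × ℝ => Real.log (T.W (D v * g) i s) - Real.log (T.W (D v * g) i 0))
      (cocompact (ℝ × ℝ)) (𝓝 (L i s)) := by
  obtain ⟨ε, hε, hcon⟩ := con_full hS T hC
  refine ⟨ε, hε, hcon, ?_⟩
  have h1 : ∀ i s, |s| < 1 → ∃ L : ℝ, ∀ᵐ g ∂hG, Tendsto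
      (fun v : ℝ × ℝ => Real.log (T.W (D v * g) i s) - Real.log (T.W (D v * g) i 0))
      (cocompact (ℝ × ℝ)) (𝓝 L) := by
    intro i s hs
    rw [abs_lt] at hs
    have ha : -1 < min s 0 := lt_min hs.1 (by norm_num)
    have hb : max s 0 < 1 := max_lt hs.2 (by norm_num)
    have hab : min s 0 ≤ max s 0 := min_le_max
    exact (fam_of_straight hS T i _ _ ha hab hb).lim_const ε hε (hcon i _ _ ha hab hb) 0 s
      ⟨min_le_right _ _, le_max_right _ _⟩ ⟨min_le_left _ _, le_max_left _ _⟩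
  choose! L hL using h1
  exact ⟨L, hL⟩

omit [CompactSpace X] [ContinuousSMul G X] in
theorem den_diff {S : FB X} (T : TN S) {L : Fin S.n → ℝ → ℝ}
    (hL : ∀ i s, |s| < 1 → ∀ᵐ g ∂hG, Tendsto
      (fun v : ℝ × ℝ => Real.log (T.W (D v * g) i s) - Real.log (T.W (D v * g) i 0))
      (cocompact (ℝ × ℝ)) (𝓝 (L i s))) (i : Fin S.n) (s s' : ℝ) (hs : |s| < 1)
    (hs' : |s'| < 1) :
    ∀ᵐ g ∂hG, Tendsto
      (fun v : ℝ × ℝ => Real.log (T.W (D v * g) i s') - Real.log (T.W (D v * g) i s))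
      (cocompact (ℝ × ℝ)) (𝓝 (L i s' - L i s)) := by
  filter_upwards [hL i s hs, hL i s' hs'] with g h1 h2
  have h3 := h2.sub h1
  refine h3.congr fun v => ?_
  ring

theorem den_cont_L {S : FB X} (hS : S.Straight) (T : TN S) {ε : ℝ} (hε : 0 < ε)
    (hcon : ∀ (i : Fin S.n) (a b : ℝ), -1 < a → a ≤ b → b < 1 →
      ∀ᵐ g ∂hG, g ∈ fCon (fun g s => T.W g i s) a b ε) {L : Fin S.n → ℝ → ℝ}
    (hL : ∀ i s, |s| < 1 → ∀ᵐ g ∂hG, Tendsto
      (fun v : ℝ × ℝ => Real.log (T.W (D v * g) i s) - Real.log (T.W (D v * g) i 0))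
      (cocompact (ℝ × ℝ)) (𝓝 (L i s))) (i : Fin S.n) (s : ℝ) (hs : |s| < 1) :
    ContinuousAt (L i) s := by
  have hs2 := abs_lt.1 hs
  obtain ⟨A, hA1, hA2⟩ := exists_between hs2.1
  obtain ⟨B, hB1, hB2⟩ := exists_between hs2.2
  have hAB : A < B := hA2.trans hB1
  have hmem : ∀ t ∈ Icc A B, |t| < 1 := fun t ht =>
    abs_lt.2 ⟨lt_of_lt_of_le hA1 ht.1, lt_of_le_of_lt ht.2 hB2⟩
  apply tendsto_of_seq_tendsto
  intro x hx
  have hae : ∀ᵐ g ∂hG, ∀ n : ℕ, x n ∈ Icc A B → Tendsto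
      (fun v : ℝ × ℝ => Real.log (T.W (D v * g) i (x n)) - Real.log (T.W (D v * g) i s))
      (cocompact (ℝ × ℝ)) (𝓝 (L i (x n) - L i s)) := by
    rw [ae_all_iff]
    intro n
    by_cases h : x n ∈ Icc A B
    · filter_upwards [den_diff T hL i s (x n) hs (hmem _ h)] with g hg _
      exact hg
    · exact Eventually.of_forall fun g h' => absurd h' h
  obtain ⟨g, hg1, hg2⟩ := (hae.and (hcon i A B hA1 hAB.le hB2)).exists
  obtain ⟨C, hC⟩ := den_est hS T i hA1 hAB hB2 hε hg2
  -- the estimate in the limit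
  have hlim : ∀ n : ℕ, x n ∈ Icc A B → |L i (x n) - L i s| ≤
      |Real.log (T.W g i (x n)) - Real.log (T.W g i s)| + |C| * |x n - s| := by
    intro n hn
    have h1 := (hg1 n hn).comp den_seq_tendsto
    have h2 : ∀ m : ℕ,
        |((fun v : ℝ × ℝ => Real.log (T.W (D v * g) i (x n)) - Real.log (T.W (D v * g) i s)) ∘
          denSeq) m| ≤
        |Real.log (T.W g i (x n)) - Real.log (T.W g i s)| + |C| * |x n - s| := by
      intro m
      simp only [Function.comp]
      have hsI : s ∈ Icc A B := ⟨hA2.le, hB1.le⟩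
      rcases le_total s (x n) with h | h
      · have h3 := hC s (x n) hsI hn h m
        have h4 : C * (x n - s) ≤ |C| * |x n - s| := by
          rw [← abs_mul]; exact le_abs_self _
        have h5 := abs_sub_abs_le_abs_sub
          (Real.log (T.W (D (denSeq m) * g) i (x n)) - Real.log (T.W (D (denSeq m) * g) i s))
          (Real.log (T.W g i (x n)) - Real.log (T.W g i s))
        linarith
      · have h3 := hC (x n) s hn hsI h m
        have h4 : C * (s - x n) ≤ |C| * |x n - s| := by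
          rw [← abs_mul, ← abs_neg]
          refine le_trans ?_ (le_abs_self _)
          exact le_of_eq (by ring)
        have h5 := abs_sub_abs_le_abs_sub
          (Real.log (T.W (D (denSeq m) * g) i (x n)) - Real.log (T.W (D (denSeq m) * g) i s))
          (Real.log (T.W g i (x n)) - Real.log (T.W g i s))
        have h6 : |(Real.log (T.W (D (denSeq m) * g) i (x n)) -
            Real.log (T.W (D (denSeq m) * g) i s)) -
            (Real.log (T.W g i (x n)) - Real.log (T.W g i s))| =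
            |(Real.log (T.W (D (denSeq m) * g) i s) -
              Real.log (T.W (D (denSeq m) * g) i (x n))) -
            (Real.log (T.W g i s) - Real.log (T.W g i (x n)))| := by
          rw [← abs_neg]
          congr 1
          ring
        linarith
    exact le_of_tendsto h1.abs (Eventually.of_forall h2)
  -- conclude
  have hcW : ContinuousAt (T.W g i) s := (T.der g i s hs).continuousAt
  have hclog : ContinuousAt (fun t => Real.log (T.W g i t)) s :=
    hcW.log (T.pos g i s hs).ne'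
  have h0 : Tendsto (fun n => |Real.log (T.W g i (x n)) - Real.log (T.W g i s)| +
      |C| * |x n - s|) atTop (𝓝 0) := by
    have h1 : Tendsto (fun n => Real.log (T.W g i (x n))) atTop
        (𝓝 (Real.log (T.W g i s))) := hclog.tendsto.comp hx
    have h2 := (h1.sub_const (Real.log (T.W g i s))).abs
    have h3 := ((hx.sub_const s).abs).const_mul |C|
    have h4 := h2.add h3
    simpa using h4
  have hev : ∀ᶠ n in atTop, x n ∈ Icc A B := hx.eventually (Icc_mem_nhds hA2 hB1)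
  rw [tendsto_iff_norm_sub_tendsto_zero]
  refine squeeze_zero' (Eventually.of_forall fun n => norm_nonneg _) ?_ h0
  filter_upwards [hev] with n hn
  exact hlim n hn

/-- The densities.  `r_i(s',s) = exp L` with `L` from `Fam.lim_const`; `r_i(s'',s')r_i(s',s) = r_i(s'',s)`; `ρ_i(s) = r_i(s,0)`.
Arrows (`k` constant): `W(D v g;i,s) = W(D v g k;j,τf s)|τf' s|`, right translation preserves null sets, so `r_i(s',s) = r_j(τf s',τf s)|τf' s'|/|τf' s|` for `s,s'` near `t0`.
Continuity at `s`: on a compact segment `[a,b]` around `s` fix one `g ∈ fCon`; `|L(s',s)| ≤ |log W g s' - log W g s| + ∑ (distortion of the sub-segment `[s,s']` along a ray)`, and the length of the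
sub-segment at `D v g` is `≤ C e^{-ε‖v‖}` and tends to `0` with `s' → s` for every fixed `v`: dominated convergence; or: the length of `[s,s']` at `D v g` is `≤ |s'-s| sup W(D v g;·)`, and by bounded distortion (`Fam.ray`)
`sup W(D v g;·) ≤ C len(D v g)/(b-a)`, so the sum is `≤ C|s'-s|`. -/
theorem exists_density {S : FB X} (hS : S.Straight) (T : TN S) (hC : T.CStar) :
    ∃ r : Fin S.n → ℝ → ℝ, (∀ i s, |s| < 1 → 0 < r i s) ∧
      (∀ i s, |s| < 1 → ContinuousAt (r i) s) ∧
      ∀ i j t0 τ0 k0, S.Arr i j t0 τ0 k0 → ∃ c : ℝ, 0 < c ∧ ∀ᶠ s in 𝓝 t0,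
        r j (S.τf i j t0 τ0 k0 s) * |deriv (S.τf i j t0 τ0 k0) s| = c * r i s := by
  obtain ⟨ε, hε, hcon, L, hL⟩ := den_lim hS T hC
  refine ⟨fun i s => Real.exp (L i s), fun i s _ => Real.exp_pos _, fun i s hs =>
    Real.continuous_exp.continuousAt.comp (den_cont_L hS T hε hcon hL i s hs), ?_⟩
  intro i j t0 τ0 k0 h
  have e1 := S.eventually_arr h
  have e2 := hS.kf_const h
  have e3 := S.eventually_dτ h
  have hτ0 := (S.kf_τf_spec h).2.1
  have hd0 := (S.kf_τf_spec h).2.2.2.2.1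
  have hd0' : 0 < |deriv (S.τf i j t0 τ0 k0) t0| := abs_pos.2 hd0
  refine ⟨Real.exp (L j τ0) * |deriv (S.τf i j t0 τ0 k0) t0| / Real.exp (L i t0), by positivity,
    ?_⟩
  filter_upwards [e1, e2, e3] with s h1 h2 h3
  rw [h2] at h1 h3
  have hs1 := h1.1
  have hs2 := h1.2.1
  have hrule : ∀ g : G, T.W g i s =
      T.W (g * k0) j (S.τf i j t0 τ0 k0 s) * |deriv (S.τf i j t0 τ0 k0) s| := by
    intro g
    rw [← h3.1]
    exact T.rule i j s _ k0 h1 g
  have hrule0 : ∀ g : G, T.W g i t0 = T.W (g * k0) j τ0 * |deriv (S.τf i j t0 τ0 k0) t0| :=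
    fun g => T.rule i j t0 τ0 k0 h g
  have hds : 0 < |deriv (S.τf i j t0 τ0 k0) s| := by
    have h4 := hrule 1
    have h5 := T.pos 1 i s hs1
    have h6 := T.pos (1 * k0) j _ hs2
    rw [h4] at h5
    exact pos_of_mul_pos_right h5 h6.le
  have hL1 := den_diff T hL i t0 s h.1 hs1
  have hL2 := ae_mul_right k0 (den_diff T hL j τ0 (S.τf i j t0 τ0 k0 s) h.2.1 hs2)
  obtain ⟨g, hg1, hg2⟩ := (hL1.and hL2).exists
  have hg3 := hg2.add_const (Real.log |deriv (S.τf i j t0 τ0 k0) s| -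
    Real.log |deriv (S.τf i j t0 τ0 k0) t0|)
  have heq : (fun v : ℝ × ℝ => Real.log (T.W (D v * g) i s) - Real.log (T.W (D v * g) i t0)) =
      fun v : ℝ × ℝ => (Real.log (T.W (D v * (g * k0)) j (S.τf i j t0 τ0 k0 s)) -
        Real.log (T.W (D v * (g * k0)) j τ0)) + (Real.log |deriv (S.τf i j t0 τ0 k0) s| -
        Real.log |deriv (S.τf i j t0 τ0 k0) t0|) := by
    funext v
    rw [hrule (D v * g), hrule0 (D v * g), mul_assoc (D v) g k0,
      Real.log_mul (T.pos _ _ _ hs2).ne' hds.ne', Real.log_mul (T.pos _ _ _ h.2.1).ne' hd0'.ne']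
    ring
  rw [heq] at hg1
  have huniq := tendsto_nhds_unique hg1 hg3
  have e4 : L j (S.τf i j t0 τ0 k0 s) + Real.log |deriv (S.τf i j t0 τ0 k0) s| =
      L j τ0 + Real.log |deriv (S.τf i j t0 τ0 k0) t0| - L i t0 + L i s := by linarith
  have e5 := congrArg Real.exp e4
  rw [Real.exp_add, Real.exp_log hds, Real.exp_add, Real.exp_sub, Real.exp_add,
    Real.exp_log hd0'] at e5
  exact e5

end Pool.Agent.H88.LF

end S_H88_LF_DEN

section S_H88_LF_AFR

/-!
# AFR (blueprint 10.3): reparametrisation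
-/

set_option autoImplicit false

open MeasureTheory Set Filter
open scoped Topology ENNReal

namespace Pool.Agent.H88.LF

/-- primitive of a positive continuous function -/
theorem afr_param (r : ℝ → ℝ) (hpos : ∀ s, |s| < 1 → 0 < r s)
    (hcont : ∀ s, |s| < 1 → ContinuousAt r s) :
    ∃ u : ℝ → ℝ, (∀ t, |t| < 1 → HasDerivAt u (r t) t) ∧ StrictMonoOn u (Ioo (-1) 1) := by
  have hco : ContinuousOn r (Ioo (-1) 1) := fun s hs =>
    (hcont s (abs_lt.2 hs)).continuousWithinAt
  have hd : ∀ t, |t| < 1 → HasDerivAt (fun t => ∫ x in (0 : ℝ)..t, r x) (r t) t := by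
    intro t ht
    have h1 : IntervalIntegrable r volume 0 t := by
      apply ContinuousOn.intervalIntegrable
      intro s hs
      refine (hcont s ?_).continuousWithinAt
      have ht' := abs_lt.1 ht
      rw [abs_lt]
      rcases le_total 0 t with h | h
      · rw [uIcc_of_le h] at hs
        constructor <;> linarith [hs.1, hs.2]
      · rw [uIcc_of_ge h] at hs
        constructor <;> linarith [hs.1, hs.2]
    exact intervalIntegral.integral_hasDerivAt_right h1
      (ContinuousOn.stronglyMeasurableAtFilter isOpen_Ioo hco t (abs_lt.1 ht)) (hcont t ht)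
  refine ⟨fun t => ∫ x in (0 : ℝ)..t, r x, hd, ?_⟩
  refine strictMonoOn_of_deriv_pos (convex_Ioo _ _) ?_ ?_
  · intro t ht
    exact (hd t (abs_lt.2 ht)).continuousAt.continuousWithinAt
  · intro t ht
    rw [interior_Ioo] at ht
    rw [(hd t (abs_lt.2 ht)).deriv]
    exact hpos t (abs_lt.2 ht)

/-- rescaled inverse of a strictly increasing function -/
theorem afr_inv (u : ℝ → ℝ) (hu : StrictMonoOn u (Ioo (-1) 1)) (hc : ContinuousOn u (Ioo (-1) 1))
    (p : ℝ) (hp : |p| < 1) :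
    ∃ ε : ℝ, 0 < ε ∧ ∃ v : ℝ → ℝ, v 0 = p ∧
      ∀ s, |s| < 1 → |v s| < 1 ∧ u (v s) = u p + ε * s ∧ ContinuousAt v s := by
  have hp' := abs_lt.1 hp
  set δ : ℝ := (1 - |p|) / 2 with hδ
  have hδ0 : 0 < δ := by rw [hδ]; linarith
  have hp1 : p + δ < 1 := by have := le_abs_self p; rw [hδ]; linarith
  have hp2 : -1 < p - δ := by have := neg_abs_le p; rw [hδ]; linarith
  have m0 : p ∈ Ioo (-1 : ℝ) 1 := hp'
  have m1 : p + δ ∈ Ioo (-1 : ℝ) 1 := ⟨by linarith [hp'.1], hp1⟩
  have m2 : p - δ ∈ Ioo (-1 : ℝ) 1 := ⟨hp2, by linarith [hp'.2]⟩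
  have e1 : u p < u (p + δ) := hu m0 m1 (by linarith)
  have e2 : u (p - δ) < u p := hu m2 m0 (by linarith)
  set ε : ℝ := min (u (p + δ) - u p) (u p - u (p - δ)) with hε
  have hε0 : 0 < ε := lt_min (by linarith) (by linarith)
  have hε1 : ε ≤ u (p + δ) - u p := min_le_left _ _
  have hε2 : ε ≤ u p - u (p - δ) := min_le_right _ _
  have hsub : Icc (p - δ) (p + δ) ⊆ Ioo (-1 : ℝ) 1 := fun x hx =>
    ⟨by linarith [hx.1], by linarith [hx.2]⟩
  have hex : ∀ s : ℝ, |s| < 1 → ∃ w ∈ Icc (p - δ) (p + δ), u w = u p + ε * s := by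
    intro s hs
    have hs' := abs_lt.1 hs
    have h1 := intermediate_value_Icc (by linarith : p - δ ≤ p + δ) (hc.mono hsub)
    have h2 : u p + ε * s ∈ Icc (u (p - δ)) (u (p + δ)) := by
      constructor <;> nlinarith
    obtain ⟨w, hw, hw'⟩ := h1 h2
    exact ⟨w, hw, hw'⟩
  classical
  set v : ℝ → ℝ := fun s => if h : |s| < 1 then (hex s h).choose else p with hv
  have hvs : ∀ s, |s| < 1 → v s ∈ Icc (p - δ) (p + δ) ∧ u (v s) = u p + ε * s := by
    intro s hs
    have : v s = (hex s hs).choose := by rw [hv]; simp only [hs, dif_pos]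
    rw [this]
    exact (hex s hs).choose_spec
  refine ⟨ε, hε0, v, ?_, ?_⟩
  · have h0 := hvs 0 (by simp)
    rw [mul_zero, add_zero] at h0
    exact hu.injOn (hsub h0.1) m0 h0.2
  · intro s hs
    obtain ⟨h1, h2⟩ := hvs s hs
    have h3 := hsub h1
    refine ⟨abs_lt.2 h3, h2, ?_⟩
    rw [Metric.continuousAt_iff]
    intro e he
    have h4 : |v s| < 1 := abs_lt.2 h3
    set η : ℝ := min (e / 2) ((1 - |v s|) / 2) with hη
    have hη0 : 0 < η := lt_min (by linarith) (by linarith)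
    have hη1 : η ≤ e / 2 := min_le_left _ _
    have hη2 : η ≤ (1 - |v s|) / 2 := min_le_right _ _
    have n1 : v s + η ∈ Ioo (-1 : ℝ) 1 :=
      ⟨by linarith [h3.1], by linarith [le_abs_self (v s)]⟩
    have n2 : v s - η ∈ Ioo (-1 : ℝ) 1 :=
      ⟨by linarith [neg_abs_le (v s)], by linarith [h3.2]⟩
    have f1 : u (v s) < u (v s + η) := hu h3 n1 (by linarith)
    have f2 : u (v s - η) < u (v s) := hu n2 h3 (by linarith)
    refine ⟨min (min ((u (v s + η) - u (v s)) / ε) ((u (v s) - u (v s - η)) / ε)) (1 - |s|),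
      lt_min (lt_min (div_pos (by linarith) hε0) (div_pos (by linarith) hε0)) (by linarith), ?_⟩
    intro s' hs'
    rw [Real.dist_eq] at hs'
    have g1 : |s' - s| < (u (v s + η) - u (v s)) / ε :=
      hs'.trans_le ((min_le_left _ _).trans (min_le_left _ _))
    have g2 : |s' - s| < (u (v s) - u (v s - η)) / ε :=
      hs'.trans_le ((min_le_left _ _).trans (min_le_right _ _))
    have g3 : |s' - s| < 1 - |s| := hs'.trans_le (min_le_right _ _)
    have g4 : |s'| < 1 := by
      have := abs_add_le (s' - s) s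
      rw [sub_add_cancel] at this
      linarith
    obtain ⟨k1, k2⟩ := hvs s' g4
    rw [lt_div_iff₀ hε0] at g1 g2
    have k3 : u (v s') - u (v s) = ε * (s' - s) := by rw [k2, h2]; ring
    have k4 : u (v s') < u (v s + η) := by
      have := le_abs_self (s' - s)
      nlinarith
    have k5 : u (v s - η) < u (v s') := by
      have := neg_abs_le (s' - s)
      nlinarith
    have k6 := (hu.lt_iff_lt (hsub k1) n1).1 k4
    have k7 := (hu.lt_iff_lt n2 (hsub k1)).1 k5
    rw [Real.dist_eq, abs_lt]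
    constructor <;> linarith

variable {X : Type} [MetricSpace X] [CompactSpace X] [MulAction G X] [ContinuousSMul G X]

omit [CompactSpace X] [ContinuousSMul G X] in
/-- an arrow in the new parameters, near its base point -/
theorem afr_arrow (S : FB X) (hS : S.Straight) (r : Fin S.n → ℝ → ℝ)
    (hlaw : ∀ i j t0 τ0 k0, S.Arr i j t0 τ0 k0 → ∃ c : ℝ, 0 < c ∧ ∀ᶠ s in 𝓝 t0,
        r j (S.τf i j t0 τ0 k0 s) * |deriv (S.τf i j t0 τ0 k0) s| = c * r i s)
    (u : Fin S.n → ℝ → ℝ) (hu : ∀ i t, |t| < 1 → HasDerivAt (u i) (r i t) t)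
    {i j : Fin S.n} {t0 τ0 : ℝ} {k0 : G} (h : S.Arr i j t0 τ0 k0) :
    ∃ (τ : ℝ → ℝ) (β : ℝ), τ t0 = τ0 ∧ ContinuousAt τ t0 ∧
      (∀ᶠ s in 𝓝 t0, S.c i s = k0 • S.c j (τ s)) ∧
      ∀ᶠ s in 𝓝 t0, u j (τ s) = u j τ0 + β * (u i s - u i t0) := by
  obtain ⟨-, h2, -, h4, h5, h6⟩ := S.kf_τf_spec h
  have hk := hS.kf_const h
  obtain ⟨c, hc, hl⟩ := hlaw i j t0 τ0 k0 h
  set τ : ℝ → ℝ := S.τf i j t0 τ0 k0 with hτ
  have hd := FBA3_deriv_cont h4
  have h4c : ContinuousAt τ t0 := h4.continuousAt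
  -- constant sign of the derivative
  obtain ⟨σ, hσ⟩ : ∃ σ : ℝ, ∀ᶠ s in 𝓝 t0, deriv τ s = σ * |deriv τ s| := by
    rcases lt_or_gt_of_ne h5 with h7 | h7
    · refine ⟨-1, ?_⟩
      filter_upwards [hd.eventually_lt_const h7] with s hs
      rw [abs_of_neg hs]; ring
    · refine ⟨1, ?_⟩
      filter_upwards [hd.eventually_const_lt h7] with s hs
      rw [abs_of_pos hs]; ring
  refine ⟨τ, σ * c, h2, h4c, ?_, ?_⟩
  · filter_upwards [h6, hk] with s hs hs'
    rw [hs, hs']
  · have e1 : ∀ᶠ s in 𝓝 t0, |s| < 1 := continuous_abs.continuousAt.eventually_lt_const h.1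
    have e2 : ∀ᶠ s in 𝓝 t0, |τ s| < 1 := by
      refine (continuous_abs.continuousAt.comp h4c).eventually_lt_const ?_
      show |τ t0| < 1
      rw [h2]; exact h.2.1
    have e3 : ∀ᶠ s in 𝓝 t0, ContDiffAt ℝ 2 τ s := h4.eventually (by norm_num)
    have e4 : ∀ᶠ s in 𝓝 t0, HasDerivAt (fun s => u j (τ s) - σ * c * u i s) 0 s := by
      filter_upwards [e1, e2, e3, hl, hσ] with s s1 s2 s3 s4 s5
      have d1 : HasDerivAt τ (deriv τ s) s := (s3.differentiableAt (by norm_num)).hasDerivAt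
      have d2 := (hu j (τ s) s2).comp s d1
      have d3 := (hu i s s1).const_mul (σ * c)
      have d4 := d2.sub d3
      have e : r j (τ s) * deriv τ s - σ * c * r i s = 0 := by
        rw [s5, mul_left_comm, s4]; ring
      rw [e] at d4
      exact d4
    obtain ⟨ρ, hρ, hball⟩ := Metric.eventually_nhds_iff_ball.1 e4
    filter_upwards [Metric.ball_mem_nhds t0 hρ] with s hs
    have hconst := IsOpen.is_const_of_deriv_eq_zero (f := fun s => u j (τ s) - σ * c * u i s)
      Metric.isOpen_ball (convex_ball t0 ρ).isPreconnected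
      (fun y hy => (hball y hy).differentiableAt.differentiableWithinAt)
      (fun y hy => (hball y hy).deriv) hs (Metric.mem_ball_self hρ)
    simp only [h2] at hconst
    linarith

/-- Reparametrisation.  `u_i(t) = ∫_0^t r_i`, strictly increasing and `C¹` on `(-1,1)`; `PreFB` with `A = Fin S.n × {t // |t| < 1}` and `c (i,t0) s = c i (u_i⁻¹(u_i(t0) + ε s))`, `ε` so small that
`u_i(t0) ± ε` are in the range of `u_i` on `(-1,1)`.  Along an arrow: `u_j(τf s) - u_j(τ0) = ± c (u_i(s) - u_i(t0))` near `t0` (derivatives; `τf'` has constant sign), `k = k0` (`Straight`). -/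
theorem affinize_of_density (S : FB X) (hS : S.Straight) (r : Fin S.n → ℝ → ℝ)
    (hpos : ∀ i s, |s| < 1 → 0 < r i s) (hcont : ∀ i s, |s| < 1 → ContinuousAt (r i) s)
    (hlaw : ∀ i j t0 τ0 k0, S.Arr i j t0 τ0 k0 → ∃ c : ℝ, 0 < c ∧ ∀ᶠ s in 𝓝 t0,
        r j (S.τf i j t0 τ0 k0 s) * |deriv (S.τf i j t0 τ0 k0) s| = c * r i s) :
    ∃ S' : FB X, S'.Aff := by
  choose u hu1 hu2 using fun i => afr_param (r i) (hpos i) (hcont i)
  have huc : ∀ i, ContinuousOn (u i) (Ioo (-1) 1) := fun i t ht =>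
    (hu1 i t (abs_lt.2 ht)).continuousAt.continuousWithinAt
  have hinj : ∀ i a b, |a| < 1 → |b| < 1 → u i a = u i b → a = b := fun i a b ha hb hab =>
    (hu2 i).injOn (abs_lt.1 ha) (abs_lt.1 hb) hab
  choose ε hε v hv0 hv using fun (a : Fin S.n × {t : ℝ // |t| < 1}) =>
    afr_inv (u a.1) (hu2 a.1) (huc a.1) a.2.1 a.2.2
  have hρ0 : 0 < S.ρ0 := by linarith [S.hρ1, S.hρ]
  -- transitions are affine
  have key : ∀ (a b : Fin S.n × {t : ℝ // |t| < 1}) (t0 τ0 : ℝ) (k0 : G), |t0| < 1 → |τ0| < 1 →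
      S.c a.1 (v a t0) = k0 • S.c b.1 (v b τ0) →
      ∃ α : ℝ, ∀ᶠ t in 𝓝 t0, S.c a.1 (v a t) = k0 • S.c b.1 (v b (τ0 + α * (t - t0))) := by
    intro a b t0 τ0 k0 ht hτ h
    obtain ⟨a1, a2, a3⟩ := hv a t0 ht
    obtain ⟨b1, b2, b3⟩ := hv b τ0 hτ
    obtain ⟨τ, β, c1, c2, c3, c4⟩ := afr_arrow S hS r hlaw u hu1
      (show S.Arr a.1 b.1 (v a t0) (v b τ0) k0 from ⟨a1, b1, h⟩)
    refine ⟨β * ε a / ε b, ?_⟩
    have e1 : ∀ᶠ t in 𝓝 t0, |t| < 1 := continuous_abs.continuousAt.eventually_lt_const ht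
    have e2 : ∀ᶠ t in 𝓝 t0, |τ0 + β * ε a / ε b * (t - t0)| < 1 := by
      have hcn : Continuous (fun t : ℝ => |τ0 + β * ε a / ε b * (t - t0)|) := by fun_prop
      refine hcn.continuousAt.eventually_lt_const ?_
      show |τ0 + β * ε a / ε b * (t0 - t0)| < 1
      rw [sub_self, mul_zero, add_zero]
      exact hτ
    have e3 := a3.eventually c3
    have e4 := a3.eventually c4
    have e5 : ∀ᶠ t in 𝓝 t0, |τ (v a t)| < 1 := by
      have hcn : ContinuousAt (fun s => |τ s|) (v a t0) := c2.abs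
      refine (ContinuousAt.comp (f := v a) (g := fun s => |τ s|) hcn a3).eventually_lt_const ?_
      show |τ (v a t0)| < 1
      rw [c1]; exact b1
    filter_upwards [e1, e2, e3, e4, e5] with t s1 s2 s3 s4 s5
    rw [s3]
    congr 2
    obtain ⟨d1, d2, -⟩ := hv b _ s2
    refine hinj b.1 _ _ s5 d1 ?_
    rw [s4, d2, b2, (hv a t s1).2.1, a2]
    have := (hε b).ne'
    field_simp
    ring
  refine aff_of_preFB
    { A := Fin S.n × {t : ℝ // |t| < 1}
      c := fun a t => S.c a.1 (v a t)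
      ρ := fun _ => S.ρ0
      hρ := fun _ => hρ0
      cont := ?_
      inj := ?_
      opn := ?_
      cover := ?_
      trans := ?_ } ?_
  · intro a t ht
    obtain ⟨a1, -, a3⟩ := hv a t ht
    exact ContinuousAt.comp (f := v a) (g := S.c a.1) (S.cont a.1 _ a1) a3
  · intro a h h' t t' ht ht' hh hh' heq
    obtain ⟨a1, a2, -⟩ := hv a t ht
    obtain ⟨b1, b2, -⟩ := hv a t' ht'
    obtain ⟨h1, h2⟩ := S.inj a.1 h h' (v a t) (v a t') a1 b1 hh hh' heq
    refine ⟨h1, ?_⟩
    have h3 : u a.1 a.2.1 + ε a * t = u a.1 a.2.1 + ε a * t' := by rw [← a2, ← b2, h2]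
    exact mul_left_cancel₀ (hε a).ne' (add_left_cancel h3)
  · intro a t ht e he
    obtain ⟨a1, a2, -⟩ := hv a t ht
    have hc1 : ContinuousAt (u a.1) (v a t) := (hu1 a.1 _ a1).continuousAt
    have hm : 0 < ε a * min e (1 - |t|) := mul_pos (hε a) (lt_min he (by linarith))
    obtain ⟨d, hd, hd'⟩ := Metric.continuousAt_iff.1 hc1 _ hm
    refine Filter.mem_of_superset (S.opn a.1 (v a t) a1 (min e d) (lt_min he hd)) ?_
    rintro x ⟨g, w, h1, h2, h3, h4⟩
    have h5 : dist w (v a t) < d := by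
      rw [Real.dist_eq]; exact h2.trans_le (min_le_right _ _)
    have h6 := hd' h5
    rw [Real.dist_eq] at h6
    set t' : ℝ := (u a.1 w - u a.1 a.2.1) / ε a with ht'
    have hεa := hε a
    have h7 : ε a * (t' - t) = u a.1 w - u a.1 (v a t) := by
      rw [a2, ht']
      field_simp
      ring
    have h8 : |t' - t| < min e (1 - |t|) := by
      rw [← h7, abs_mul, abs_of_pos hεa] at h6
      exact lt_of_mul_lt_mul_left h6 hεa.le
    have h9 : |t'| < 1 := by
      have := abs_add_le (t' - t) t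
      rw [sub_add_cancel] at this
      have := h8.trans_le (min_le_right _ _)
      linarith
    obtain ⟨b1, b2, -⟩ := hv a t' h9
    have h10 : v a t' = w := by
      refine hinj a.1 _ _ b1 h3 ?_
      rw [b2, ht']
      field_simp
      ring
    refine ⟨g, t', h1.trans_le (min_le_left _ _), h8.trans_le (min_le_left _ _), h9, ?_⟩
    rw [h10]
    exact h4
  · intro x
    obtain ⟨i, h, t, h1, h2, h3⟩ := S.cover x
    refine ⟨(i, ⟨t, by linarith⟩), h, ?_⟩
    simp only [hv0]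
    exact h3
  · intro a b t0 τ0 k0 ht hτ h
    obtain ⟨α, hα⟩ := key a b t0 τ0 k0 ht hτ h
    refine ⟨fun _ => k0, fun t => τ0 + α * (t - t0), rfl, by simp, fun i j => contDiffAt_const,
      by fun_prop, hα⟩
  · exact key

end Pool.Agent.H88.LF

end S_H88_LF_AFR

section S_H88_LF_AFFB

/-!
# AFFB
-/

set_option autoImplicit false

open MeasureTheory Set Filter
open scoped Topology ENNReal

namespace Pool.Agent.H88.LF

variable {X : Type} [MetricSpace X] [CompactSpace X] [MulAction G X] [ContinuousSMul G X]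

/-- AFF -/
theorem affinize (S : FB X) (hS : S.Straight) (T : TN S) (h : T.CStar) :
    ∃ S' : FB X, S'.Aff := by
  obtain ⟨r, h1, h2, h3⟩ := exists_density hS T h
  exact affinize_of_density S hS r h1 h2 h3

end Pool.Agent.H88.LF

end S_H88_LF_AFFB
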