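import Mathlib
import Pool.Agent.H88.LG.M01
import Pool.Agent.H88.LG.M04

set_option autoImplicit false

/-! Locally free actions of SL(3,R) on compact 9-manifolds, file M07: this file joins several modules to save build time. -/

section S_H88_LF_LU

/-!
# LU: decomposition along a regular direction and the shadowing lemma in the group (blueprint section 5)
-/

set_option autoImplicit false

open Set Filter
open scoped Topology

namespace Pool.Agent.H88.LF

/-- Regular direction. -/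
def Reg (θ : ℝ × ℝ) : Prop := Function.Injective (cmp θ)

/-- Unipotent matrices with entries only where `cmp θ i < cmp θ l`: contracted by conjugation with `D θ`. -/
def Nm (θ : ℝ × ℝ) : Set G :=
  {g | (∀ i, g.1 i i = 1) ∧ ∀ i l, cmp θ l < cmp θ i → g.1 i l = 0}

/-- Matrices with zero entries where `cmp θ i < cmp θ l`: not expanded by conjugation with `(D θ)⁻¹`. -/
def Pp (θ : ℝ × ℝ) : Set G := {g | ∀ i l, cmp θ i < cmp θ l → g.1 i l = 0}

theorem one_mem_Nm (θ : ℝ × ℝ) (hθ : Reg θ) : (1 : G) ∈ Nm θ := by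
  refine ⟨fun i => ?_, fun i l h => ?_⟩
  · change (1 : Mat) i i = 1
    exact Matrix.one_apply_eq i
  · change (1 : Mat) i l = 0
    refine Matrix.one_apply_ne ?_
    rintro rfl
    exact lt_irrefl _ h

theorem Nm_mul (θ : ℝ × ℝ) (hθ : Reg θ) {g h : G} (hg : g ∈ Nm θ) (hh : h ∈ Nm θ) :
    g * h ∈ Nm θ := by
  refine ⟨fun i => ?_, fun i l hl => ?_⟩
  · change (g.1 * h.1) i i = 1
    rw [Matrix.mul_apply, Finset.sum_eq_single i, hg.1 i, hh.1 i, mul_one]
    · intro k _ hk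
      have hne : cmp θ k ≠ cmp θ i := fun h => hk (hθ h)
      rcases lt_or_gt_of_ne hne with h1 | h1
      · rw [hg.2 i k h1, zero_mul]
      · rw [hh.2 k i h1, mul_zero]
    · intro h
      exact absurd (Finset.mem_univ i) h
  · change (g.1 * h.1) i l = 0
    rw [Matrix.mul_apply]
    refine Finset.sum_eq_zero fun k _ => ?_
    by_cases h1 : cmp θ k < cmp θ i
    · rw [hg.2 i k h1, zero_mul]
    · rw [hh.2 k l (lt_of_lt_of_le hl (not_lt.1 h1)), mul_zero]

theorem Nm_conj (θ : ℝ × ℝ) {g : G} (hg : g ∈ Nm θ) (v : ℝ × ℝ) : D v * g * (D v)⁻¹ ∈ Nm θ := by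
  have he : ∀ i l, (D v * g * (D v)⁻¹).1 i l = Real.exp (cmp v i - cmp v l) * g.1 i l :=
    fun i l => D_conj_entry v g.1 i l
  refine ⟨fun i => ?_, fun i l h => ?_⟩
  · rw [he, sub_self, Real.exp_zero, one_mul, hg.1 i]
  · rw [he, hg.2 i l h, mul_zero]

/-- Contraction of `Nm θ` with a factor `< 1` depending on `θ`. -/
theorem Nm_contract (θ : ℝ × ℝ) (hθ : Reg θ) :
    ∃ c : ℝ, 0 < c ∧ c < 1 ∧ ∀ g ∈ Nm θ, nd (D θ * g * (D θ)⁻¹) ≤ c * nd g := by
  have hne : ∀ i l : Fin 3, i ≠ l → 0 < |cmp θ i - cmp θ l| := fun i l h =>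
    abs_pos.2 (sub_ne_zero.2 fun h' => h (hθ h'))
  obtain ⟨δ, hδ, h01, h02, h12⟩ : ∃ δ : ℝ, 0 < δ ∧ δ ≤ |cmp θ 0 - cmp θ 1| ∧
      δ ≤ |cmp θ 0 - cmp θ 2| ∧ δ ≤ |cmp θ 1 - cmp θ 2| :=
    ⟨min (|cmp θ 0 - cmp θ 1|) (min (|cmp θ 0 - cmp θ 2|) (|cmp θ 1 - cmp θ 2|)),
      lt_min (hne 0 1 (by decide)) (lt_min (hne 0 2 (by decide)) (hne 1 2 (by decide))),
      min_le_left _ _, (min_le_right _ _).trans (min_le_left _ _),
      (min_le_right _ _).trans (min_le_right _ _)⟩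
  have hδ' : ∀ i l : Fin 3, i ≠ l → δ ≤ |cmp θ i - cmp θ l| := by
    intro i l h
    fin_cases i <;> fin_cases l <;> first | exact absurd rfl h | skip
    · exact h01
    · exact h02
    · rw [abs_sub_comm]; exact h01
    · exact h12
    · rw [abs_sub_comm]; exact h02
    · rw [abs_sub_comm]; exact h12
  refine ⟨Real.exp (-δ), Real.exp_pos _, by rw [Real.exp_lt_one_iff]; linarith, fun g hg => ?_⟩
  unfold nd nrm
  rw [Finset.mul_sum]
  refine Finset.sum_le_sum fun i _ => ?_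
  rw [Finset.mul_sum]
  refine Finset.sum_le_sum fun l _ => ?_
  have he : (D θ * g * (D θ)⁻¹).1 i l = Real.exp (cmp θ i - cmp θ l) * g.1 i l :=
    D_conj_entry θ g.1 i l
  rw [Matrix.sub_apply, Matrix.sub_apply, he]
  by_cases hil : i = l
  · subst hil
    rw [hg.1 i, sub_self, Real.exp_zero, Matrix.one_apply_eq]
    simp
  · rw [Matrix.one_apply_ne hil, sub_zero, sub_zero, abs_mul, Real.abs_exp]
    rcases lt_or_gt_of_ne (fun h => hil (hθ h) : cmp θ i ≠ cmp θ l) with h1 | h1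
    · refine mul_le_mul_of_nonneg_right ?_ (abs_nonneg _)
      rw [Real.exp_le_exp]
      have := hδ' i l hil
      rw [abs_of_neg (by linarith)] at this
      linarith
    · rw [hg.2 i l h1, abs_zero, mul_zero, mul_zero]

/-- No expansion of `Pp θ` under the inverse. -/
theorem Pp_nonexp (θ : ℝ × ℝ) {g : G} (hg : g ∈ Pp θ) (m : ℕ) :
    nd (((D θ) ^ m)⁻¹ * g * (D θ) ^ m) ≤ nd g := by
  have he : ∀ i l, (((D θ) ^ m)⁻¹ * g * (D θ) ^ m).1 i l =
      Real.exp (-(m : ℝ) * (cmp θ i - cmp θ l)) * g.1 i l := by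
    intro i l
    have h1 : ((D θ) ^ m)⁻¹ = D (-((m : ℝ) • θ)) := by rw [D_neg, D_nsmul]
    have h2 : (D θ) ^ m = (D (-((m : ℝ) • θ)))⁻¹ := by rw [← D_neg, neg_neg, D_nsmul]
    rw [h1, h2]
    refine (D_conj_entry (-((m : ℝ) • θ)) g.1 i l).trans ?_
    rw [cmp_neg, cmp_neg, cmp_smul, cmp_smul]
    congr 2
    ring
  unfold nd nrm
  refine Finset.sum_le_sum fun i _ => Finset.sum_le_sum fun l _ => ?_
  rw [Matrix.sub_apply, Matrix.sub_apply, he]
  by_cases hil : i = l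
  · subst hil
    rw [sub_self, mul_zero, Real.exp_zero, one_mul]
  · rw [Matrix.one_apply_ne hil, sub_zero, sub_zero, abs_mul, Real.abs_exp]
    by_cases h1 : cmp θ i < cmp θ l
    · rw [hg i l h1, abs_zero, mul_zero]
    · have h2 : Real.exp (-(m : ℝ) * (cmp θ i - cmp θ l)) ≤ 1 := by
        rw [Real.exp_le_one_iff]
        have h3 : 0 ≤ (m : ℝ) * (cmp θ i - cmp θ l) :=
          mul_nonneg (Nat.cast_nonneg _) (by linarith [not_lt.1 h1])
        linarith
      calc Real.exp (-(m : ℝ) * (cmp θ i - cmp θ l)) * |g.1 i l| ≤ 1 * |g.1 i l| :=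
            mul_le_mul_of_nonneg_right h2 (abs_nonneg _)
        _ = |g.1 i l| := one_mul _

/-- `gh - 1 = (g-1)(h-1) + (g-1) + (h-1)` -/
theorem one_add_nd_mul (g h : G) : 1 + nd (g * h) ≤ (1 + nd g) * (1 + nd h) := by
  unfold nd
  have e : (g * h).1 - 1 = (g.1 - 1) * (h.1 - 1) + ((g.1 - 1) + (h.1 - 1)) := by
    rw [Matrix.SpecialLinearGroup.coe_mul]; noncomm_ring
  rw [e]
  have h1 := nrm_add_le ((g.1 - 1) * (h.1 - 1)) ((g.1 - 1) + (h.1 - 1))
  have h2 := nrm_add_le (g.1 - 1) (h.1 - 1)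
  have h3 := nrm_mul_le (g.1 - 1) (h.1 - 1)
  nlinarith

theorem LU_U_mem (θ : ℝ × ℝ) (i l : Fin 3) (h : i ≠ l) (hlt : cmp θ i < cmp θ l) (s : ℝ) :
    U i l h s ∈ Nm θ := by
  refine ⟨fun a => ?_, fun a b hab => ?_⟩
  · change Matrix.transvection i l s a a = 1
    rw [Matrix.transvection, Matrix.add_apply, Matrix.one_apply_eq, Matrix.single_apply_of_ne,
      add_zero]
    rintro ⟨rfl, rfl⟩
    exact h rfl
  · change Matrix.transvection i l s a b = 0
    rw [Matrix.transvection, Matrix.add_apply, Matrix.one_apply_ne, Matrix.single_apply_of_ne,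
      add_zero]
    · rintro ⟨rfl, rfl⟩
      exact lt_asymm hlt hab
    · rintro rfl
      exact lt_irrefl _ hab

theorem LU_sort (θ : ℝ × ℝ) (hθ : Reg θ) : ∃ a b c : Fin 3, a ≠ b ∧ a ≠ c ∧ b ≠ c ∧
    (∀ j, j = a ∨ j = b ∨ j = c) ∧ cmp θ b < cmp θ a ∧ cmp θ c < cmp θ b := by
  have hne : ∀ i l : Fin 3, i ≠ l → cmp θ i ≠ cmp θ l := fun i l h h' => h (hθ h')
  rcases lt_or_gt_of_ne (hne 0 1 (by decide)) with h1 | h1 <;>
  rcases lt_or_gt_of_ne (hne 0 2 (by decide)) with h2 | h2 <;>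
  rcases lt_or_gt_of_ne (hne 1 2 (by decide)) with h3 | h3
  · exact ⟨2, 1, 0, by decide, by decide, by decide, by decide, h3, h1⟩
  · exact ⟨1, 2, 0, by decide, by decide, by decide, by decide, h3, h2⟩
  · exact absurd (h1.trans h3) (not_lt.2 h2.le)
  · exact ⟨1, 0, 2, by decide, by decide, by decide, by decide, h1, h2⟩
  · exact ⟨2, 0, 1, by decide, by decide, by decide, by decide, h2, h1⟩
  · exact absurd (h2.trans h3) (not_lt.2 h1.le)
  · exact ⟨0, 2, 1, by decide, by decide, by decide, by decide, h2, h3⟩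
  · exact ⟨0, 1, 2, by decide, by decide, by decide, by decide, h1, h3⟩

/-- LU decomposition near `1`.  After the permutation of the coordinates which makes `cmp θ` decreasing, `Nm` is the lower unipotent and `Pp` the
upper triangular group: explicit elimination (`m11`, and the 2 by 2 minor, are near `1`). -/
theorem lu (θ : ℝ × ℝ) (hθ : Reg θ) :
    ∃ ρ : ℝ, 0 < ρ ∧ ∃ C : ℝ, 1 ≤ C ∧ ∀ m : G, nd m ≤ ρ →
      ∃ s ∈ Nm θ, ∃ p ∈ Pp θ, m = s * p ∧ nd s ≤ C * nd m ∧ nd p ≤ C * nd m := by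
  obtain ⟨a, b, c, hab, hac, hbc, hcov, hba, hcb⟩ := LU_sort θ hθ
  refine ⟨1 / 20, by norm_num, 40, by norm_num, fun m hm => ?_⟩
  set η := nd m with hη
  have hη0 : 0 ≤ η := nd_nonneg m
  have hoff : ∀ i l, i ≠ l → |m.1 i l| ≤ η := by
    intro i l h
    have := abs_le_nrm (m.1 - 1) i l
    rwa [Matrix.sub_apply, Matrix.one_apply_ne h, sub_zero] at this
  have hdiag : ∀ i, |m.1 i i - 1| ≤ η := by
    intro i
    have := abs_le_nrm (m.1 - 1) i i
    rwa [Matrix.sub_apply, Matrix.one_apply_eq] at this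
  have hdpos : ∀ i, 1 - η ≤ m.1 i i := fun i => by
    have := (abs_le.1 (hdiag i)).1
    linarith
  have haa : 19 / 20 ≤ m.1 a a := by linarith [hdpos a]
  set x := m.1 b a / m.1 a a with hx
  set y := m.1 c a / m.1 a a with hy
  have hquot : ∀ t q : ℝ, |t| ≤ η → 19 / 20 ≤ q → |t / q| ≤ 11 / 10 * η := by
    intro t q ht hq
    rw [abs_div, abs_of_pos (by linarith : 0 < q), div_le_iff₀ (by linarith)]
    nlinarith
  have hxb : |x| ≤ 11 / 10 * η := hquot _ _ (hoff b a hab.symm) haa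
  have hyb : |y| ≤ 11 / 10 * η := hquot _ _ (hoff c a hac.symm) haa
  have hmab : |m.1 a b| ≤ η := hoff a b hab
  have hxm : |x * m.1 a b| ≤ 11 / 200 * η := by
    rw [abs_mul]
    nlinarith [abs_nonneg x, abs_nonneg (m.1 a b)]
  have hym : |y * m.1 a b| ≤ 11 / 200 * η := by
    rw [abs_mul]
    nlinarith [abs_nonneg y, abs_nonneg (m.1 a b)]
  have hden : 9 / 10 ≤ m.1 b b - x * m.1 a b := by
    have := (abs_le.1 hxm).2
    linarith [hdpos b]
  set z := (m.1 c b - y * m.1 a b) / (m.1 b b - x * m.1 a b) with hz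
  have hzb : |z| ≤ 6 / 5 * η := by
    rw [hz, abs_div, abs_of_pos (by linarith : 0 < m.1 b b - x * m.1 a b),
      div_le_iff₀ (by linarith)]
    have h1 : |m.1 c b - y * m.1 a b| ≤ |m.1 c b| + |y * m.1 a b| := abs_sub _ _
    have h2 := hoff c b hbc.symm
    nlinarith
  have hxe : m.1 b a - x * m.1 a a = 0 := by
    rw [hx, div_mul_cancel₀ _ (by linarith), sub_self]
  have hye : m.1 c a - y * m.1 a a = 0 := by
    rw [hy, div_mul_cancel₀ _ (by linarith), sub_self]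
  have hze : (m.1 c b - y * m.1 a b) - z * (m.1 b b - x * m.1 a b) = 0 := by
    rw [hz, div_mul_cancel₀ _ (by linarith), sub_self]
  let s : G := U b a hab.symm x * (U c a hac.symm y * U c b hbc.symm z)
  let p : G := U c b hbc.symm (-z) * (U c a hac.symm (-y) * (U b a hab.symm (-x) * m))
  have hsp : m = s * p := by
    change m = U b a hab.symm x * (U c a hac.symm y * U c b hbc.symm z) *
      (U c b hbc.symm (-z) * (U c a hac.symm (-y) * (U b a hab.symm (-x) * m)))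
    rw [U_neg, U_neg, U_neg]
    group
  have hs : s ∈ Nm θ :=
    Nm_mul θ hθ (LU_U_mem θ b a _ hba x) (Nm_mul θ hθ (LU_U_mem θ c a _ (hcb.trans hba) y)
      (LU_U_mem θ c b _ hcb z))
  -- entries of `p`
  set m1 : Mat := Matrix.transvection b a (-x) * m.1 with hm1
  set m2 : Mat := Matrix.transvection c a (-y) * m1 with hm2
  have hp1 : p.1 = Matrix.transvection c b (-z) * m2 := rfl
  have e1 : ∀ l, m1 b l = m.1 b l - x * m.1 a l := by
    intro l
    rw [hm1, Matrix.transvection_mul_apply_same]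
    ring
  have e2 : ∀ i l, i ≠ b → m1 i l = m.1 i l := by
    intro i l hi
    rw [hm1, Matrix.transvection_mul_apply_of_ne _ _ _ _ hi]
  have e3 : ∀ l, m2 c l = m.1 c l - y * m.1 a l := by
    intro l
    rw [hm2, Matrix.transvection_mul_apply_same, e2 c l hbc.symm, e2 a l hab]
    ring
  have e4 : ∀ i l, i ≠ c → m2 i l = m1 i l := by
    intro i l hi
    rw [hm2, Matrix.transvection_mul_apply_of_ne _ _ _ _ hi]
  have e5 : ∀ l, p.1 c l = (m.1 c l - y * m.1 a l) - z * (m.1 b l - x * m.1 a l) := by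
    intro l
    rw [hp1, Matrix.transvection_mul_apply_same, e3, e4 b l hbc, e1]
    ring
  have e6 : ∀ l, p.1 b l = m.1 b l - x * m.1 a l := by
    intro l
    rw [hp1, Matrix.transvection_mul_apply_of_ne _ _ _ _ hbc, e4 b l hbc, e1]
  have hp : p ∈ Pp θ := by
    intro i l hil
    rcases hcov i with rfl | rfl | rfl <;> rcases hcov l with rfl | rfl | rfl
    · exact absurd hil (lt_irrefl _)
    · exact absurd hil (lt_asymm hba)
    · exact absurd hil (lt_asymm (hcb.trans hba))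
    · rw [e6, hxe]
    · exact absurd hil (lt_irrefl _)
    · exact absurd hil (lt_asymm hcb)
    · rw [e5, hye, hxe, mul_zero, sub_zero]
    · rw [e5, hze]
    · exact absurd hil (lt_irrefl _)
  have hnds : nd s ≤ 5 * η := by
    have h1 := one_add_nd_mul (U b a hab.symm x) (U c a hac.symm y * U c b hbc.symm z)
    have h2 := one_add_nd_mul (U c a hac.symm y) (U c b hbc.symm z)
    rw [nd_U] at h1
    rw [nd_U, nd_U] at h2
    have h3 : 1 + nd s ≤ (1 + |x|) * ((1 + |y|) * (1 + |z|)) :=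
      h1.trans (mul_le_mul_of_nonneg_left h2 (by positivity))
    have h4 : (1 + |y|) * (1 + |z|) ≤ (1 + 6 / 5 * η) * (1 + 6 / 5 * η) :=
      mul_le_mul (by linarith) (by linarith) (by positivity) (by positivity)
    have h5 : (1 + |x|) * ((1 + |y|) * (1 + |z|)) ≤
        (1 + 6 / 5 * η) * ((1 + 6 / 5 * η) * (1 + 6 / 5 * η)) :=
      mul_le_mul (by linarith) h4 (by positivity) (by positivity)
    have h6 : (1 + 6 / 5 * η) * ((1 + 6 / 5 * η) * (1 + 6 / 5 * η)) ≤ 1 + 5 * η := by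
      nlinarith [mul_nonneg hη0 hη0, mul_nonneg (mul_nonneg hη0 hη0) hη0]
    linarith
  refine ⟨s, hs, p, hp, hsp, by linarith, ?_⟩
  have hpe : p = s⁻¹ * m := by rw [hsp]; group
  have h7 := nd_mul_le s⁻¹ m
  rw [← hpe] at h7
  have h8 := nd_inv_le_of_small s (by linarith)
  have h9 := nrm_le_nd m
  have h10 : nd s⁻¹ * nrm m.1 ≤ (10 * η) * (61 / 20) :=
    mul_le_mul (by linarith) (by linarith) (nrm_nonneg _) (by positivity)
  linarith

end Pool.Agent.H88.LF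

end S_H88_LF_LU

section S_H88_LF_LUB

/-!
# LUB: the shadowing lemma in the group (blueprint section 5)
-/

set_option autoImplicit false

open Set Filter
open scoped Topology

namespace Pool.Agent.H88.LF

/-- One step of the construction. -/
theorem lub_step (θ : ℝ × ℝ) (hθ : Reg θ) :
    ∃ ρ : ℝ, 0 < ρ ∧ ∃ C : ℝ, 1 ≤ C ∧ ∀ t ζ : G, t ∈ Nm θ → nd t ≤ 1 → nd ζ ≤ ρ →
      ∃ x : G × G, x.1 ∈ Nm θ ∧ x.2 ∈ Pp θ ∧ ζ * (D θ * t * (D θ)⁻¹) = x.1 * x.2 ∧
        nd x.1 ≤ nd t + C * nd ζ ∧ nd x.2 ≤ C * nd ζ := by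
  obtain ⟨c, hc0, hc1, hcon⟩ := Nm_contract θ hθ
  obtain ⟨ρ, hρ, C, hC, hlu⟩ := lu θ hθ
  refine ⟨ρ / 64, by positivity, 256 * C, by linarith, ?_⟩
  intro t ζ ht ht1 hζ
  set n0 : G := D θ * t * (D θ)⁻¹ with hn0
  have hn0m : n0 ∈ Nm θ := Nm_conj θ ht θ
  have hndt := nd_nonneg t
  have hndζ := nd_nonneg ζ
  have hn0d : nd n0 ≤ nd t := by
    have h1 := hcon t ht
    nlinarith
  have hn01 : nrm n0.1 ≤ 4 := by
    have := nrm_le_nd n0
    linarith
  have hn0pos := nrm_nonneg n0.1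
  have hn02 : nrm (n0⁻¹).1 ≤ 16 := by
    have := nrm_inv_le n0
    nlinarith
  have hm : nd (n0⁻¹ * ζ * n0) ≤ 64 * nd ζ := by
    have h1 := nd_conj_le n0⁻¹ ζ
    rw [inv_inv] at h1
    have h2 : nrm (n0⁻¹).1 * nd ζ * nrm n0.1 ≤ 16 * nd ζ * 4 := by
      have := nrm_nonneg (n0⁻¹).1
      gcongr
    linarith
  obtain ⟨s, hs, p, hp, hsp, hsd, hpd⟩ := hlu (n0⁻¹ * ζ * n0) (by linarith)
  refine ⟨(n0 * s, p), Nm_mul θ hθ hn0m hs, hp, ?_, ?_, ?_⟩
  · show ζ * n0 = n0 * s * p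
    rw [mul_assoc, ← hsp]
    group
  · show nd (n0 * s) ≤ _
    have h1 := nd_mul_le' n0 s
    have h2 : nrm n0.1 * nd s ≤ 4 * (C * (64 * nd ζ)) := by
      have h3 : nd s ≤ C * (64 * nd ζ) := hsd.trans (by gcongr)
      have := nd_nonneg s
      gcongr
    linarith
  · show nd p ≤ _
    have h3 : nd p ≤ C * (64 * nd ζ) := hpd.trans (by gcongr)
    nlinarith

theorem lub_exp_le {x : ℝ} (h0 : 0 ≤ x) (h1 : x ≤ 1 / 2) : Real.exp x ≤ 1 + 2 * x := by
  have h2 := Real.one_sub_le_exp_neg x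
  have h3 : Real.exp x * Real.exp (-x) = 1 := by rw [← Real.exp_add]; simp
  have h4 := Real.exp_pos x
  nlinarith

/-- Shadowing in the group.  `a = D θ`, `Y (j+1) = ζ j * a * Y j` with small `ζ j` of small sum.  Then one group element `q` near `1` satisfies
`a^j q Y 0 = δ_j Y j` with `δ_j` near `1` for all `j ≤ n`.
Proof.  Construct `t_j ∈ Nm θ`, `p_j ∈ Pp θ`, `q_j` with `t_0 = 1`, `q_0 = 1`, `Y j = t_j a^j q_j (Y 0)`:
`Y (j+1) = ζ_j (a t_j a⁻¹) a^{j+1} q_j Y 0`; put `n = a t_j a⁻¹ ∈ Nm`, `n⁻¹ ζ_j n = s̃ p̃` (`lu`), `t_{j+1} = n s̃`, `q_{j+1} = (a^{-(j+1)} p̃ a^{j+1}) q_j`.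
`nd p̃, nd s̃ ≤ C' nd(ζ_j)` as long as `nd t_j ≤ 1`; `nd t_{j+1} ≤ c nd t_j + C'' nd ζ_j`, so all `nd t_j ≤ C''' ∑ nd ζ_i`.  `q = q_n`;
`a^j q_n q_j⁻¹ a^{-j}` is the product over `i = n-1, ..., j` of `a^{-(i+1-j)} p̃_i a^{i+1-j}`, factors of size `≤ nd p̃_i` (`Pp_nonexp`), so of size
`≤ exp(∑ nd p̃_i) - 1` (`one_add_nd_mul`); `a^j q Y 0 = [a^j q_n q_j⁻¹ a^{-j}] t_j⁻¹ Y j`. -/
theorem shadow (θ : ℝ × ℝ) (hθ : Reg θ) :
    ∃ c0 : ℝ, 0 < c0 ∧ ∃ C : ℝ, 1 ≤ C ∧ ∀ (n : ℕ) (ζ Y : ℕ → G),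
      (∑ j ∈ Finset.range n, nd (ζ j)) ≤ c0 → (∀ j, j < n → Y (j + 1) = ζ j * D θ * Y j) →
      ∃ q : G, nd q ≤ C * ∑ j ∈ Finset.range n, nd (ζ j) ∧
        ∀ j, j ≤ n → ∃ δ : G, nd δ ≤ C * ∑ j ∈ Finset.range n, nd (ζ j) ∧
          (D θ) ^ j * (q * Y 0) = δ * Y j := by
  obtain ⟨ρ, hρ, C, hC, hstep⟩ := lub_step θ hθ
  have hstep' : ∀ t ζ : G, ∃ x : G × G, t ∈ Nm θ → nd t ≤ 1 → nd ζ ≤ ρ →
      x.1 ∈ Nm θ ∧ x.2 ∈ Pp θ ∧ ζ * (D θ * t * (D θ)⁻¹) = x.1 * x.2 ∧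
        nd x.1 ≤ nd t + C * nd ζ ∧ nd x.2 ≤ C * nd ζ := by
    intro t ζ
    by_cases h : t ∈ Nm θ ∧ nd t ≤ 1 ∧ nd ζ ≤ ρ
    · obtain ⟨x, hx⟩ := hstep t ζ h.1 h.2.1 h.2.2
      exact ⟨x, fun _ _ _ => hx⟩
    · exact ⟨(1, 1), fun h1 h2 h3 => absurd ⟨h1, h2, h3⟩ h⟩
  choose F hF using hstep'
  set a : G := D θ with ha
  refine ⟨min ρ (1 / (2 * C)), lt_min hρ (by positivity), 8 * C, by linarith, ?_⟩
  intro n ζ Y hS hY
  set S : ℝ := ∑ j ∈ Finset.range n, nd (ζ j) with hSdef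
  have hSρ : S ≤ ρ := hS.trans (min_le_left _ _)
  have hSC : C * S ≤ 1 / 2 := by
    have h1 : S ≤ 1 / (2 * C) := hS.trans (min_le_right _ _)
    rw [le_div_iff₀ (by positivity)] at h1
    linarith
  have hS0 : 0 ≤ S := Finset.sum_nonneg fun _ _ => nd_nonneg _
  have hpart : ∀ j, j ≤ n → ∑ i ∈ Finset.range j, nd (ζ i) ≤ S := fun j hj =>
    Finset.sum_le_sum_of_subset_of_nonneg (Finset.range_mono hj) (fun _ _ _ => nd_nonneg _)
  have hζρ : ∀ j, j < n → nd (ζ j) ≤ ρ := fun j hj =>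
    (Finset.single_le_sum (f := fun i => nd (ζ i)) (fun _ _ => nd_nonneg _)
      (Finset.mem_range.2 hj)).trans hSρ
  -- the sequences
  let t : ℕ → G := fun j => Nat.rec 1 (fun j tj => (F tj (ζ j)).1) j
  have t0 : t 0 = 1 := rfl
  have tS : ∀ j, t (j + 1) = (F (t j) (ζ j)).1 := fun j => rfl
  let p : ℕ → G := fun j => (F (t j) (ζ j)).2
  let q : ℕ → G := fun j => Nat.rec 1 (fun j qj => ((a ^ (j + 1))⁻¹ * p j * a ^ (j + 1)) * qj) j
  have q0 : q 0 = 1 := rfl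
  have qS : ∀ j, q (j + 1) = ((a ^ (j + 1))⁻¹ * p j * a ^ (j + 1)) * q j := fun j => rfl
  have hinv : ∀ j, j ≤ n → t j ∈ Nm θ ∧ nd (t j) ≤ C * ∑ i ∈ Finset.range j, nd (ζ i) := by
    intro j
    induction j with
    | zero =>
      intro _
      rw [t0]
      exact ⟨one_mem_Nm θ hθ, by rw [nd_one]; simp⟩
    | succ j ih =>
      intro hj
      obtain ⟨h1, h2⟩ := ih (by omega)
      have h3 : nd (t j) ≤ 1 := by
        have := hpart j (by omega)
        nlinarith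
      obtain ⟨h4, _, _, h7, _⟩ := hF (t j) (ζ j) h1 h3 (hζρ j (by omega))
      rw [tS]
      refine ⟨h4, ?_⟩
      rw [Finset.sum_range_succ, mul_add]
      linarith
  have hinv1 : ∀ j, j ≤ n → nd (t j) ≤ C * S := fun j hj =>
    (hinv j hj).2.trans (by have := hpart j hj; gcongr)
  have hdat : ∀ j, j < n → p j ∈ Pp θ ∧ ζ j * (a * t j * a⁻¹) = t (j + 1) * p j ∧
      nd (p j) ≤ C * nd (ζ j) := by
    intro j hj
    have h3 : nd (t j) ≤ 1 := (hinv1 j hj.le).trans (by linarith)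
    obtain ⟨_, h5, h6, _, h8⟩ := hF (t j) (ζ j) (hinv j hj.le).1 h3 (hζρ j hj)
    exact ⟨h5, h6, h8⟩
  have hY' : ∀ j, j ≤ n → Y j = t j * a ^ j * q j * Y 0 := by
    intro j
    induction j with
    | zero => intro _; rw [t0, q0]; simp
    | succ j ih =>
      intro hj
      obtain ⟨_, h6, _⟩ := hdat j (by omega)
      rw [hY j (by omega), ih (by omega)]
      have h7 : t (j + 1) * a ^ (j + 1) * q (j + 1) * Y 0 =
          (t (j + 1) * p j) * (a ^ (j + 1) * q j * Y 0) := by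
        rw [qS]
        group
      rw [h7, ← h6, pow_succ']
      group
  -- the products
  have hR : ∀ j m, j ≤ m → m ≤ n → 1 + nd (a ^ j * (q m * (q j)⁻¹) * (a ^ j)⁻¹) ≤
      Real.exp (C * ∑ i ∈ Finset.range m, nd (ζ i)) := by
    intro j m hjm
    induction m, hjm using Nat.le_induction with
    | base =>
      intro _
      have : a ^ j * (q j * (q j)⁻¹) * (a ^ j)⁻¹ = 1 := by group
      rw [this, nd_one, add_zero]
      exact Real.one_le_exp (mul_nonneg (by linarith)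
        (Finset.sum_nonneg fun _ _ => nd_nonneg _))
    | succ m hjm ih =>
      intro hm
      obtain ⟨h5, _, h8⟩ := hdat m (by omega)
      have h9 := ih (by omega)
      have h10 : a ^ j * (q (m + 1) * (q j)⁻¹) * (a ^ j)⁻¹ =
          ((a ^ (m + 1 - j))⁻¹ * p m * a ^ (m + 1 - j)) *
            (a ^ j * (q m * (q j)⁻¹) * (a ^ j)⁻¹) := by
        obtain ⟨d, rfl⟩ := Nat.exists_eq_add_of_le hjm
        have h11 : j + d + 1 - j = d + 1 := by omega
        rw [qS, h11, show j + d + 1 = (d + 1) + j from by ring, pow_add a (d + 1) j]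
        group
      rw [h10]
      refine (one_add_nd_mul _ _).trans ?_
      have h12 : 1 + nd ((a ^ (m + 1 - j))⁻¹ * p m * a ^ (m + 1 - j)) ≤
          Real.exp (C * nd (ζ m)) := by
        have h13 := Pp_nonexp θ h5 (m + 1 - j)
        have h14 := Real.add_one_le_exp (C * nd (ζ m))
        linarith
      have h16 : C * ∑ i ∈ Finset.range (m + 1), nd (ζ i) =
          C * nd (ζ m) + C * ∑ i ∈ Finset.range m, nd (ζ i) := by
        rw [Finset.sum_range_succ]; ring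
      rw [h16, Real.exp_add]
      have h15 := nd_nonneg (a ^ j * (q m * (q j)⁻¹) * (a ^ j)⁻¹)
      exact mul_le_mul h12 h9 (by linarith) (Real.exp_pos _).le
  have hR' : ∀ j, j ≤ n → nd (a ^ j * (q n * (q j)⁻¹) * (a ^ j)⁻¹) ≤ 2 * (C * S) := by
    intro j hj
    have h1 := hR j n hj le_rfl
    have h2 := lub_exp_le (x := C * S) (mul_nonneg (by linarith) hS0) hSC
    linarith
  refine ⟨q n, ?_, ?_⟩
  · have h1 := hR' 0 (Nat.zero_le n)
    rw [q0] at h1
    simp only [pow_zero, inv_one, mul_one, one_mul] at h1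
    nlinarith
  · intro j hj
    refine ⟨a ^ j * (q n * (q j)⁻¹) * (a ^ j)⁻¹ * (t j)⁻¹, ?_, ?_⟩
    · have h1 := hR' j hj
      have h2 := hinv1 j hj
      have h3 := nd_inv_le_of_small (t j) (h2.trans hSC)
      have h4 := one_add_nd_mul (a ^ j * (q n * (q j)⁻¹) * (a ^ j)⁻¹) (t j)⁻¹
      have h5 := nd_nonneg (a ^ j * (q n * (q j)⁻¹) * (a ^ j)⁻¹)
      have h6 := nd_nonneg (t j)⁻¹
      have h7 : (1 + nd (a ^ j * (q n * (q j)⁻¹) * (a ^ j)⁻¹)) * (1 + nd (t j)⁻¹) ≤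
          (1 + 2 * (C * S)) * (1 + 2 * (C * S)) := by
        apply mul_le_mul
        · linarith
        · linarith
        · linarith
        · nlinarith
      have h8 : (C * S) * (C * S) ≤ (C * S) * (1 / 2) :=
        mul_le_mul_of_nonneg_left hSC (mul_nonneg (by linarith) hS0)
      nlinarith
    · rw [hY' j hj]
      group

end Pool.Agent.H88.LF

end S_H88_LF_LUB

section S_H88_LF_NET

/-!
# NET (blueprint section 6): regular directions are dense
-/

set_option autoImplicit false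

open Set Filter
open scoped Topology

namespace Pool.Agent.H88.LF

theorem net_reg {a b : ℝ} (h1 : a ≠ b) (h2 : b ≠ -(a / 2)) (h3 : b ≠ -2 * a) : Reg (a, b) := by
  intro i j hij
  have e0 : cmp (a, b) 0 = a := rfl
  have e1 : cmp (a, b) 1 = b := rfl
  have e2 : cmp (a, b) 2 = -a - b := rfl
  fin_cases i <;> fin_cases j
  · rfl
  · exact absurd (show a = b from hij) h1
  · have h : a = -a - b := hij
    exact absurd (by linarith) h3
  · exact absurd (show b = a from hij).symm h1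
  · rfl
  · have h : b = -a - b := hij
    exact absurd (by linarith) h2
  · have h : -a - b = a := hij
    exact absurd (by linarith) h3
  · have h : -a - b = b := hij
    exact absurd (by linarith) h2
  · rfl

theorem net_reg' {a b : ℝ} (h1 : a ≠ b) (h2 : b ≠ -(a / 2)) (h3 : b ≠ -2 * a) : Reg (b, a) := by
  intro i j hij
  fin_cases i <;> fin_cases j
  · rfl
  · exact absurd (show b = a from hij).symm h1
  · have h : b = -b - a := hij
    exact absurd (by linarith) h2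
  · exact absurd (show a = b from hij) h1
  · rfl
  · have h : a = -b - a := hij
    exact absurd (by linarith) h3
  · have h : -b - a = b := hij
    exact absurd (by linarith) h2
  · have h : -b - a = a := hij
    exact absurd (by linarith) h3
  · rfl

theorem net_pick (a : ℝ) {b η : ℝ} (hb : |b| ≤ 1) (hη : 0 < η) :
    ∃ y : ℝ, |y| ≤ 1 ∧ |b - y| ≤ η ∧ a ≠ y ∧ y ≠ -(a / 2) ∧ y ≠ -2 * a := by
  have hm : 0 < min η 1 := lt_min hη one_pos
  have hb' := abs_le.1 hb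
  have key : ∀ l u : ℝ, l < u → ∃ y ∈ Ioo l u, y ∉ ({a, -(a / 2), -2 * a} : Finset ℝ) := by
    intro l u hlu
    exact (Ioo_infinite hlu).exists_notMem_finset _
  have hη1 := min_le_left η 1
  have hη2 := min_le_right η 1
  rcases le_total b 0 with h0 | h0
  · obtain ⟨y, hy, hy2⟩ := key b (b + min η 1) (by linarith)
    simp only [Finset.mem_insert, Finset.mem_singleton, not_or] at hy2
    refine ⟨y, abs_le.2 ⟨by linarith [hy.1], by linarith [hy.2]⟩, ?_, fun h => hy2.1 h.symm,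
      hy2.2.1, hy2.2.2⟩
    rw [abs_le]
    exact ⟨by linarith [hy.2], by linarith [hy.1]⟩
  · obtain ⟨y, hy, hy2⟩ := key (b - min η 1) b (by linarith)
    simp only [Finset.mem_insert, Finset.mem_singleton, not_or] at hy2
    refine ⟨y, abs_le.2 ⟨by linarith [hy.1], by linarith [hy.2]⟩, ?_, fun h => hy2.1 h.symm,
      hy2.2.1, hy2.2.2⟩
    rw [abs_le]
    exact ⟨by linarith [hy.2], by linarith [hy.1]⟩

theorem net_near (v : ℝ × ℝ) (hv : ‖v‖ = 1) {η : ℝ} (hη : 0 < η) :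
    ∃ θ : ℝ × ℝ, (Reg θ ∧ ‖θ‖ = 1) ∧ ‖v - θ‖ ≤ η := by
  obtain ⟨a, b⟩ := v
  rw [Prod.norm_def] at hv
  simp only [Real.norm_eq_abs] at hv
  have ha : |a| ≤ 1 := hv ▸ le_max_left _ _
  have hb : |b| ≤ 1 := hv ▸ le_max_right _ _
  rcases max_choice |a| |b| with h | h
  · rw [h] at hv
    obtain ⟨y, h1, h2, h3, h4, h5⟩ := net_pick a hb hη
    refine ⟨(a, y), ⟨net_reg h3 h4 h5, ?_⟩, ?_⟩
    · rw [Prod.norm_def]
      simp only [Real.norm_eq_abs]
      rw [hv, max_eq_left h1]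
    · rw [Prod.norm_def]
      simp only [Prod.fst_sub, Prod.snd_sub, sub_self, norm_zero, Real.norm_eq_abs]
      exact max_le hη.le h2
  · rw [h] at hv
    obtain ⟨y, h1, h2, h3, h4, h5⟩ := net_pick b ha hη
    refine ⟨(y, b), ⟨net_reg' h3 h4 h5, ?_⟩, ?_⟩
    · rw [Prod.norm_def]
      simp only [Real.norm_eq_abs]
      rw [hv, max_eq_right h1]
    · rw [Prod.norm_def]
      simp only [Prod.fst_sub, Prod.snd_sub, sub_self, norm_zero, Real.norm_eq_abs]
      exact max_le h2 hη.le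

/-- A finite net of regular directions in the unit sphere of `ℝ × ℝ`. -/
theorem exists_net (δ : ℝ) (hδ : 0 < δ) :
    ∃ F : Finset (ℝ × ℝ), (∀ θ ∈ F, Reg θ ∧ ‖θ‖ = 1) ∧
      ∀ v : ℝ × ℝ, ‖v‖ = 1 → ∃ θ ∈ F, ‖v - θ‖ ≤ δ := by
  classical
  have hc : IsCompact (Metric.sphere (0 : ℝ × ℝ) 1) := isCompact_sphere _ _
  have hch : ∀ v : ℝ × ℝ, ∃ θ : ℝ × ℝ, ‖v‖ = 1 → (Reg θ ∧ ‖θ‖ = 1) ∧ ‖v - θ‖ ≤ δ / 2 := by
    intro v
    by_cases hv : ‖v‖ = 1
    · obtain ⟨θ, h1, h2⟩ := net_near v hv (by positivity : 0 < δ / 2)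
      exact ⟨θ, fun _ => ⟨h1, h2⟩⟩
    · exact ⟨0, fun h => absurd h hv⟩
  choose θ hθ using hch
  obtain ⟨t, ht1, ht2⟩ := hc.elim_nhds_subcover (fun v => Metric.ball v (δ / 2))
    (fun v _ => Metric.ball_mem_nhds v (by positivity))
  have hsph : ∀ v ∈ t, ‖v‖ = 1 := by
    intro v hv
    simpa using ht1 v hv
  refine ⟨t.image θ, ?_, ?_⟩
  · intro w hw
    obtain ⟨v, hv, rfl⟩ := Finset.mem_image.1 hw
    exact (hθ v (hsph v hv)).1
  · intro v hv
    have h1 : v ∈ Metric.sphere (0 : ℝ × ℝ) 1 := by simpa using hv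
    have h2 := ht2 h1
    rw [mem_iUnion₂] at h2
    obtain ⟨u, hu, h3⟩ := h2
    refine ⟨θ u, Finset.mem_image_of_mem θ hu, ?_⟩
    have h4 := (hθ u (hsph u hu)).2
    rw [Metric.mem_ball, dist_eq_norm] at h3
    calc ‖v - θ u‖ = ‖(v - u) + (u - θ u)‖ := by rw [sub_add_sub_cancel]
      _ ≤ ‖v - u‖ + ‖u - θ u‖ := norm_add_le _ _
      _ ≤ δ := by linarith

end Pool.Agent.H88.LF

end S_H88_LF_NET

section S_H88_LF_KN

/-!
# KN: dynamical balls (blueprint section 5, (P3))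

`a = D θ`.  `(a^j k a^{-j} - 1)_il = e^{j(θ_i-θ_l)}(k-1)_il`.  For `k ∈ Kn θ n r'` the numbers `y_il = (k-1)_il / m_il`, `m_il = min 1 (e^{-n(θ_i-θ_l)})`, satisfy `|y_il| ≤ r'`.
Cut `[-r',r']^9` into finitely many cells of side `ς` (their number does not depend on `n`).  If `k,k'` lie in the same cell then for all `j ≤ n`:
`|(a^j(k-k')a^{-j})_il| ≤ ς e^{j(θ_i-θ_l)} m_il ≤ ς`, and `a^j(kk'⁻¹-1)a^{-j} = a^j(k-k')a^{-j} · a^jk'⁻¹a^{-j}`, where `nrm(a^jk'⁻¹a^{-j}) ≤ (3+r')^2`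
(`nrm_inv_le`).  So `kk'⁻¹ ∈ Kn θ n r` if `ς` is small: `Kn θ n r'` is covered by (number of cells) right translates of `Kn θ n r`.
-/

set_option autoImplicit false

open MeasureTheory Set Filter
open scoped Topology ENNReal

namespace Pool.Agent.H88.LF

/-- Dynamical ball of size `r` and length `n`. -/
def Kn (θ : ℝ × ℝ) (n : ℕ) (r : ℝ) : Set G :=
  {k | ∀ j : ℕ, j ≤ n → nd ((D θ) ^ j * k * ((D θ) ^ j)⁻¹) ≤ r}

private theorem kn_cont (g h : G) : Continuous (fun k : G => nd (g * k * h)) :=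
  continuous_nd.comp ((continuous_const.mul continuous_id).mul continuous_const)

private theorem kn_closed (θ : ℝ × ℝ) (n : ℕ) (r : ℝ) : IsClosed (Kn θ n r) := by
  have h : Kn θ n r = ⋂ j : ℕ, ⋂ _ : j ≤ n, {k | nd ((D θ) ^ j * k * ((D θ) ^ j)⁻¹) ≤ r} := by
    ext k
    simp [Kn]
  rw [h]
  exact isClosed_iInter fun j => isClosed_iInter fun _ =>
    isClosed_le (kn_cont _ _) continuous_const

theorem isCompact_Kn (θ : ℝ × ℝ) (n : ℕ) (r : ℝ) : IsCompact (Kn θ n r) := by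
  refine (isCompact_Bl r).of_isClosed_subset (kn_closed θ n r) ?_
  intro k hk
  have h := hk 0 (Nat.zero_le n)
  show nd k ≤ r
  simpa using h

theorem hG_Kn_pos (θ : ℝ × ℝ) (n : ℕ) (r : ℝ) (hr : 0 < r) : 0 < hG (Kn θ n r) := by
  have ho : IsOpen (⋂ j ∈ Finset.range (n + 1), {k : G | nd ((D θ) ^ j * k * ((D θ) ^ j)⁻¹) < r}) :=
    isOpen_biInter_finset fun j _ => isOpen_lt (kn_cont _ _) continuous_const
  have h1 : (1 : G) ∈ ⋂ j ∈ Finset.range (n + 1),
      {k : G | nd ((D θ) ^ j * k * ((D θ) ^ j)⁻¹) < r} := by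
    simp only [Set.mem_iInter]
    intro j _
    show nd ((D θ) ^ j * 1 * ((D θ) ^ j)⁻¹) < r
    rw [mul_one, mul_inv_cancel, nd_one]
    exact hr
  refine lt_of_lt_of_le (ho.measure_pos hG ⟨1, h1⟩) (measure_mono ?_)
  intro k hk j hj
  simp only [Set.mem_iInter] at hk
  exact (hk j (by rw [Finset.mem_range]; omega)).le

theorem hG_Kn_lt_top (θ : ℝ × ℝ) (n : ℕ) (r : ℝ) : hG (Kn θ n r) < ∞ :=
  (isCompact_Kn θ n r).measure_lt_top

/-- entries of `a^j M a^{-j}` -/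
private theorem kn_entry (θ : ℝ × ℝ) (j : ℕ) (M : Mat) (i l : Fin 3) :
    (((D θ) ^ j).1 * M * (((D θ) ^ j)⁻¹).1) i l =
      Real.exp (j * (cmp θ i - cmp θ l)) * M i l := by
  rw [← D_nsmul, D_conj_entry, cmp_smul, cmp_smul]
  congr 2
  ring

private theorem kn_nd (θ : ℝ × ℝ) (j : ℕ) (k : G) :
    ((D θ) ^ j * k * ((D θ) ^ j)⁻¹).1 - 1 = ((D θ) ^ j).1 * (k.1 - 1) * (((D θ) ^ j)⁻¹).1 := by
  have h1 : ((D θ) ^ j).1 * (((D θ) ^ j)⁻¹).1 = 1 := by
    rw [← Matrix.SpecialLinearGroup.coe_mul, mul_inv_cancel]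
    rfl
  rw [Matrix.SpecialLinearGroup.coe_mul, Matrix.SpecialLinearGroup.coe_mul, mul_sub, sub_mul,
    mul_one, h1]

/-- the scale of the entry `(i,l)` -/
private noncomputable def knm (θ : ℝ × ℝ) (n : ℕ) (i l : Fin 3) : ℝ :=
  min 1 (Real.exp (-(n * (cmp θ i - cmp θ l))))

private theorem knm_pos (θ : ℝ × ℝ) (n : ℕ) (i l : Fin 3) : 0 < knm θ n i l :=
  lt_min one_pos (Real.exp_pos _)

private theorem knm_mul (θ : ℝ × ℝ) (n j : ℕ) (hj : j ≤ n) (i l : Fin 3) :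
    Real.exp (j * (cmp θ i - cmp θ l)) * knm θ n i l ≤ 1 := by
  have hjn : (j : ℝ) ≤ n := by exact_mod_cast hj
  have hj0 : (0 : ℝ) ≤ j := Nat.cast_nonneg j
  rcases le_total (cmp θ i) (cmp θ l) with h | h
  · have h1 : Real.exp (j * (cmp θ i - cmp θ l)) ≤ 1 := by
      rw [Real.exp_le_one_iff]
      nlinarith
    calc Real.exp (j * (cmp θ i - cmp θ l)) * knm θ n i l
        ≤ 1 * 1 := mul_le_mul h1 (min_le_left _ _) (knm_pos θ n i l).le zero_le_one
      _ = 1 := one_mul 1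
  · calc Real.exp (j * (cmp θ i - cmp θ l)) * knm θ n i l
        ≤ Real.exp (j * (cmp θ i - cmp θ l)) * Real.exp (-(n * (cmp θ i - cmp θ l))) :=
          mul_le_mul_of_nonneg_left (min_le_right _ _) (Real.exp_pos _).le
      _ = Real.exp (j * (cmp θ i - cmp θ l) + -(n * (cmp θ i - cmp θ l))) :=
          (Real.exp_add _ _).symm
      _ ≤ 1 := by
          rw [Real.exp_le_one_iff]
          nlinarith

private theorem kn_bound (θ : ℝ × ℝ) (n : ℕ) (r : ℝ) (k : G) (hk : k ∈ Kn θ n r) (i l : Fin 3) :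
    |(k.1 - 1) i l| ≤ r * knm θ n i l := by
  have h : ∀ j ≤ n, Real.exp (j * (cmp θ i - cmp θ l)) * |(k.1 - 1) i l| ≤ r := by
    intro j hj
    have h1 := hk j hj
    unfold nd at h1
    rw [kn_nd] at h1
    have h2 := (abs_le_nrm _ i l).trans h1
    rw [kn_entry, abs_mul, abs_of_pos (Real.exp_pos _)] at h2
    exact h2
  have h0 := h 0 (Nat.zero_le n)
  have hn := h n le_rfl
  simp only [Nat.cast_zero, zero_mul, Real.exp_zero, one_mul] at h0
  unfold knm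
  rcases min_cases (1 : ℝ) (Real.exp (-(n * (cmp θ i - cmp θ l)))) with ⟨h3, -⟩ | ⟨h3, -⟩
  · rw [h3, mul_one]; exact h0
  · rw [h3, Real.exp_neg, ← div_eq_mul_inv, le_div_iff₀ (Real.exp_pos _), mul_comm]
    exact hn

/-- the cell of `k` -/
private noncomputable def knc (θ : ℝ × ℝ) (n : ℕ) (s : ℝ) (k : G) : Fin 3 → Fin 3 → ℤ :=
  fun i l => ⌊(k.1 - 1) i l / (s * knm θ n i l)⌋

private theorem kn_cell (θ : ℝ × ℝ) (n : ℕ) (r' s : ℝ) (_hr' : 0 < r') (hs : 0 < s) (k k' : G)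
    (hk' : k' ∈ Kn θ n r') (h : knc θ n s k = knc θ n s k') :
    k * k'⁻¹ ∈ Kn θ n (9 * s * (3 + r') ^ 2) := by
  intro j hj
  have h1 : ∀ i l, |(k.1 - k'.1) i l| ≤ s * knm θ n i l := by
    intro i l
    have h2 := congrFun (congrFun h i) l
    unfold knc at h2
    have h3 := Int.abs_sub_lt_one_of_floor_eq_floor h2
    have h4 : 0 < s * knm θ n i l := mul_pos hs (knm_pos θ n i l)
    rw [← sub_div, abs_div, abs_of_pos h4, div_lt_one h4] at h3
    have h5 : (k.1 - k'.1) i l = (k.1 - 1) i l - (k'.1 - 1) i l := by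
      simp only [Matrix.sub_apply]; ring
    rw [h5]
    exact h3.le
  set a : G := (D θ) ^ j with ha
  have h6 : (a * (k * k'⁻¹) * a⁻¹).1 - 1 =
      (a.1 * (k.1 - k'.1) * (a⁻¹).1) * ((a * k' * a⁻¹)⁻¹).1 := by
    have e1 : ((a * k' * a⁻¹)⁻¹) = a * k'⁻¹ * a⁻¹ := by group
    rw [e1]
    simp only [Matrix.SpecialLinearGroup.coe_mul]
    have e2 : (a⁻¹).1 * a.1 = 1 := by
      rw [← Matrix.SpecialLinearGroup.coe_mul, inv_mul_cancel]; rfl
    have e3 : k'.1 * (k'⁻¹).1 = 1 := by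
      rw [← Matrix.SpecialLinearGroup.coe_mul, mul_inv_cancel]; rfl
    have e4 : a.1 * (a⁻¹).1 = 1 := by
      rw [← Matrix.SpecialLinearGroup.coe_mul, mul_inv_cancel]; rfl
    calc a.1 * (k.1 * (k'⁻¹).1) * (a⁻¹).1 - 1
        = a.1 * (k.1 * (k'⁻¹).1) * (a⁻¹).1 - a.1 * (k'.1 * (k'⁻¹).1) * (a⁻¹).1 := by
          rw [e3, mul_one, e4]
      _ = a.1 * (k.1 - k'.1) * ((k'⁻¹).1 * (a⁻¹).1) := by
          simp only [mul_sub, sub_mul, mul_assoc]
      _ = a.1 * (k.1 - k'.1) * (((a⁻¹).1 * a.1) * ((k'⁻¹).1 * (a⁻¹).1)) := by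
          rw [e2, one_mul]
      _ = _ := by simp only [mul_assoc]
  have h7 : nrm (a.1 * (k.1 - k'.1) * (a⁻¹).1) ≤ 9 * s := by
    apply nrm_le_of_entries
    intro i l
    rw [ha, kn_entry, abs_mul, abs_of_pos (Real.exp_pos _)]
    calc Real.exp (j * (cmp θ i - cmp θ l)) * |(k.1 - k'.1) i l|
        ≤ Real.exp (j * (cmp θ i - cmp θ l)) * (s * knm θ n i l) :=
          mul_le_mul_of_nonneg_left (h1 i l) (Real.exp_pos _).le
      _ = s * (Real.exp (j * (cmp θ i - cmp θ l)) * knm θ n i l) := by ring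
      _ ≤ s * 1 := mul_le_mul_of_nonneg_left (knm_mul θ n j hj i l) hs.le
      _ = s := mul_one s
  have h8 : nrm ((a * k' * a⁻¹)⁻¹).1 ≤ (3 + r') ^ 2 := by
    refine (nrm_inv_le _).trans ?_
    have h9 := nrm_le_nd (a * k' * a⁻¹)
    have h10 := hk' j hj
    have h11 : nrm (a * k' * a⁻¹).1 ≤ 3 + r' := by linarith
    exact pow_le_pow_left₀ (nrm_nonneg _) h11 2
  unfold nd
  rw [h6]
  refine (nrm_mul_le _ _).trans ?_
  exact mul_le_mul h7 h8 (nrm_nonneg _) (by positivity)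

theorem Kn_volume (θ : ℝ × ℝ) (r r' : ℝ) (hr : 0 < r) (hr' : 0 < r') :
    ∃ C : ℝ, 0 < C ∧ ∀ n : ℕ, hG (Kn θ n r') ≤ ENNReal.ofReal C * hG (Kn θ n r) := by
  classical
  set s : ℝ := r / (9 * (3 + r') ^ 2) with hs
  have hs0 : 0 < s := by positivity
  have hsr : 9 * s * (3 + r') ^ 2 = r := by
    rw [hs]; field_simp
  obtain ⟨N, hN⟩ := exists_nat_ge (r' / s + 1)
  set F : Finset (Fin 3 → Fin 3 → ℤ) :=
    Fintype.piFinset (fun _ => Fintype.piFinset (fun _ => Finset.Icc (-(N : ℤ)) N)) with hF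
  have hFne : F.Nonempty := by
    refine ⟨fun _ _ => 0, ?_⟩
    rw [hF, Fintype.mem_piFinset]
    intro i
    rw [Fintype.mem_piFinset]
    intro l
    rw [Finset.mem_Icc]
    constructor <;> omega
  refine ⟨F.card, by exact_mod_cast hFne.card_pos, ?_⟩
  intro n
  have hcov : Kn θ n r' ⊆ ⋃ c ∈ F, {k | k ∈ Kn θ n r' ∧ knc θ n s k = c} := by
    intro k hk
    simp only [Set.mem_iUnion]
    refine ⟨knc θ n s k, ?_, hk, rfl⟩
    rw [hF, Fintype.mem_piFinset]
    intro i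
    rw [Fintype.mem_piFinset]
    intro l
    have h1 := kn_bound θ n r' k hk i l
    have h4 : 0 < s * knm θ n i l := mul_pos hs0 (knm_pos θ n i l)
    have h2 : |(k.1 - 1) i l / (s * knm θ n i l)| ≤ r' / s := by
      rw [abs_div, abs_of_pos h4, div_le_div_iff₀ h4 hs0]
      calc |(k.1 - 1) i l| * s ≤ (r' * knm θ n i l) * s := mul_le_mul_of_nonneg_right h1 hs0.le
        _ = r' * (s * knm θ n i l) := by ring
    rw [abs_le] at h2
    rw [Finset.mem_Icc]
    unfold knc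
    constructor
    · rw [Int.le_floor]
      push_cast
      linarith [h2.1]
    · have h5 : ((⌊(k.1 - 1) i l / (s * knm θ n i l)⌋ : ℤ) : ℝ) ≤ ((N : ℤ) : ℝ) := by
        refine (Int.floor_le _).trans ?_
        push_cast
        linarith [h2.2]
      exact_mod_cast h5
  have hcell : ∀ c ∈ F, hG {k | k ∈ Kn θ n r' ∧ knc θ n s k = c} ≤ hG (Kn θ n r) := by
    intro c _
    rcases Set.eq_empty_or_nonempty {k | k ∈ Kn θ n r' ∧ knc θ n s k = c} with h | ⟨k', hk', hc⟩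
    · rw [h, measure_empty]; exact zero_le
    · have h1 : {k | k ∈ Kn θ n r' ∧ knc θ n s k = c} ⊆ (fun x => x * k'⁻¹) ⁻¹' (Kn θ n r) := by
        rintro k ⟨-, hkc⟩
        show k * k'⁻¹ ∈ Kn θ n r
        rw [← hsr]
        exact kn_cell θ n r' s hr' hs0 k k' hk' (hkc.trans hc.symm)
      refine (measure_mono h1).trans ?_
      rw [measure_preimage_mul_right]
  calc hG (Kn θ n r') ≤ hG (⋃ c ∈ F, {k | k ∈ Kn θ n r' ∧ knc θ n s k = c}) := measure_mono hcov
    _ ≤ ∑ c ∈ F, hG {k | k ∈ Kn θ n r' ∧ knc θ n s k = c} := measure_biUnion_finset_le _ _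
    _ ≤ ∑ _c ∈ F, hG (Kn θ n r) := Finset.sum_le_sum hcell
    _ = ENNReal.ofReal F.card * hG (Kn θ n r) := by
        rw [Finset.sum_const, nsmul_eq_mul, ENNReal.ofReal_natCast]

end Pool.Agent.H88.LF

end S_H88_LF_KN

section S_H88_LF_LOC

/-!
# LOC: uniform local estimates (blueprint section 2)

For `q ∈ Q` compact, `x = h c i t`, `qx = h' c j τ` (the chosen normal representations) the arrow `k = (qh)⁻¹h' : (i,t) → (j,τ)` lies in a compact set.
Its continuation gives `q h c i (t+s) = η h' c j (τ+F)` with `F = τf(t+s) - τ`, `η = q h kf(t+s) h'⁻¹`.  Everything is `C¹` in `s`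
with constants that are uniform by compactness (`FB.isCompact_arr`): cover the compact set of arrows by finitely many
neighbourhoods on which the continuation of one arrow describes all (`FB.near`).
`J(η⁻¹q, cur x s) = W(η⁻¹qh;i,t+s)/W(h;i,t+s)`, and `W(η⁻¹ q h;i,t+s) = W(η⁻¹ q h kf(t+s);j,τ+F)|τf'(t+s)| = W(h';j,τ+F)|τf'(t+s)|` by `rule`, so the
logarithm of the quotient by `J(q,x) = W(h';j,τ)|τf'(t)|/W(h;i,t)` is `O(s)` by `logW_lip` and `τf ∈ C²`.
`w(qx)|F| ≤ J(q,x) w(x) |s| e^{C|s|}`: mean value theorem and the same estimate of `|τf'|`.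
-/

set_option autoImplicit false

open MeasureTheory Set Filter
open scoped Topology Pointwise

namespace Pool.Agent.H88.LF

/-- A real function with a `C¹` germ is Lipschitz near the point. -/
theorem loc_lip {φ : ℝ → ℝ} {t0 : ℝ} (h : ContDiffAt ℝ 1 φ t0) :
    ∃ K : ℝ, 0 ≤ K ∧ ∀ᶠ p : ℝ × ℝ in 𝓝 (t0, t0), |φ p.1 - φ p.2| ≤ K * |p.1 - p.2| := by
  obtain ⟨K, s, hs, hL⟩ := h.exists_lipschitzOnWith
  refine ⟨K, K.2, ?_⟩
  have h1 : ∀ᶠ p : ℝ × ℝ in 𝓝 (t0, t0), p.1 ∈ s ∧ p.2 ∈ s := by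
    rw [nhds_prod_eq]
    exact (show ∀ᶠ t in 𝓝 t0, t ∈ s from hs).prod_mk (show ∀ᶠ t in 𝓝 t0, t ∈ s from hs)
  filter_upwards [h1] with p hp
  have h2 := hL.dist_le_mul p.1 hp.1 p.2 hp.2
  rwa [Real.dist_eq, Real.dist_eq] at h2

theorem loc_contDiffAt_deriv {g : ℝ → ℝ} {t0 : ℝ} (h : ContDiffAt ℝ 2 g t0) :
    ContDiffAt ℝ 1 (deriv g) t0 := by
  have h1 : ContDiffAt ℝ 1 (fderiv ℝ g) t0 := h.fderiv_right (by norm_num)
  exact h1.clm_apply contDiffAt_const

/-- Mean value estimate. -/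
theorem loc_mvt {g : ℝ → ℝ} {t0 ε K : ℝ} (hK : 0 ≤ K)
    (hd : ∀ t, |t - t0| < ε → DifferentiableAt ℝ g t)
    (hne : ∀ t, |t - t0| < ε → deriv g t ≠ 0)
    (hL : ∀ t u, |t - t0| < ε → |u - t0| < ε →
      |Real.log (deriv g t) - Real.log (deriv g u)| ≤ K * |t - u|)
    {t u : ℝ} (ht : |t - t0| < ε) (hu : |u - t0| < ε) :
    |g u - g t| ≤ |deriv g t| * |u - t| * Real.exp (K * |u - t|) := by
  have hsub : ∀ v ∈ Set.uIcc t u, |v - t0| < ε := by
    intro v hv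
    rw [abs_lt] at ht hu ⊢
    rcases Set.mem_uIcc.1 hv with h | h <;> constructor <;>
      linarith [h.1, h.2, ht.1, ht.2, hu.1, hu.2]
  have hb : ∀ v ∈ Set.uIcc t u, ‖deriv g v‖ ≤ |deriv g t| * Real.exp (K * |u - t|) := by
    intro v hv
    have h1 := hL v t (hsub v hv) ht
    have h2 : |v - t| ≤ |u - t| := by
      rcases Set.mem_uIcc.1 hv with h | h
      · rw [abs_of_nonneg (by linarith [h.1]), abs_of_nonneg (by linarith [h.1, h.2])]
        linarith [h.2]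
      · rw [abs_of_nonpos (by linarith [h.2]), abs_of_nonpos (by linarith [h.1, h.2])]
        linarith [h.1]
    have h3 : Real.log (deriv g v) ≤ Real.log (deriv g t) + K * |u - t| := by
      have h4 := (abs_le.1 h1).2
      have h5 := mul_le_mul_of_nonneg_left h2 hK
      linarith
    rw [Real.norm_eq_abs, ← Real.exp_log (abs_pos.2 (hne v (hsub v hv))), Real.log_abs,
      ← Real.exp_log (abs_pos.2 (hne t ht)), Real.log_abs, ← Real.exp_add]
    exact Real.exp_le_exp.2 h3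
  have h6 := Convex.norm_image_sub_le_of_norm_deriv_le (fun v hv => hd v (hsub v hv)) hb
    (convex_uIcc t u) left_mem_uIcc right_mem_uIcc
  rw [Real.norm_eq_abs, Real.norm_eq_abs] at h6
  calc |g u - g t| ≤ |deriv g t| * Real.exp (K * |u - t|) * |u - t| := h6
    _ = |deriv g t| * |u - t| * Real.exp (K * |u - t|) := by ring

/-- The local estimate for one arrow. -/
def LocE {X : Type} [TopologicalSpace X] [MulAction G X] (S : FB X) (i j : Fin S.n) (δ C : ℝ)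
    (p : ℝ × ℝ × G) : Prop :=
  ∀ s : ℝ, |s| ≤ δ → ∃ (τ' : ℝ) (k' : G), S.Arr i j (p.1 + s) τ' k' ∧ |τ' - p.2.1| ≤ C * |s| ∧
    |τ' - p.2.1| ≤ |S.dτ i j p.1 p.2.1 p.2.2| * |s| * Real.exp (C * |s|) ∧
    nrm (k'.1 - p.2.2.1) ≤ C * |s| ∧
    |Real.log (S.dτ i j (p.1 + s) τ' k') - Real.log (S.dτ i j p.1 p.2.1 p.2.2)| ≤ C * |s|

theorem LocE.mono {X : Type} [TopologicalSpace X] [MulAction G X] {S : FB X} {i j : Fin S.n}
    {δ C δ' C' : ℝ} {p : ℝ × ℝ × G} (h : LocE S i j δ C p) (hδ : δ' ≤ δ) (hC : C ≤ C') :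
    LocE S i j δ' C' p := by
  intro s hs
  obtain ⟨τ', k', h1, h2, h3, h4, h5⟩ := h s (hs.trans hδ)
  have h6 : C * |s| ≤ C' * |s| := mul_le_mul_of_nonneg_right hC (abs_nonneg s)
  refine ⟨τ', k', h1, h2.trans h6, h3.trans ?_, h4.trans h6, h5.trans h6⟩
  exact mul_le_mul_of_nonneg_left (Real.exp_le_exp.2 h6)
    (mul_nonneg (abs_nonneg _) (abs_nonneg _))

theorem loc_local {X : Type} [TopologicalSpace X] [MulAction G X] (S : FB X) {i j : Fin S.n}
    {t0 τ0 : ℝ} {k0 : G} (h : S.Arr i j t0 τ0 k0) :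
    ∃ δ : ℝ, 0 < δ ∧ ∃ C : ℝ, 1 ≤ C ∧ ∀ᶠ p : ℝ × ℝ × G in 𝓝 (t0, τ0, k0),
      S.Arr i j p.1 p.2.1 p.2.2 → LocE S i j δ C p := by
  obtain ⟨hk0, hτ0, hkd, hτd, hdne, -⟩ := S.kf_τf_spec h
  set f := S.kf i j t0 τ0 k0 with hf
  set g := S.τf i j t0 τ0 k0 with hg
  -- Lipschitz constants
  have hent : ∀ a b : Fin 3, ∃ K : ℝ, 0 ≤ K ∧ ∀ᶠ p : ℝ × ℝ in 𝓝 (t0, t0),
      |(f p.1).1 a b - (f p.2).1 a b| ≤ K * |p.1 - p.2| := fun a b =>
    loc_lip ((hkd a b).of_le (by norm_num))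
  choose Kf hKf0 hKf using hent
  obtain ⟨Kg, hKg0, hKg⟩ := loc_lip (hτd.of_le (by norm_num : (1 : WithTop ℕ∞) ≤ 2))
  obtain ⟨Kd, hKd0, hKd⟩ := loc_lip (φ := fun t => Real.log (deriv g t))
    ((loc_contDiffAt_deriv hτd).log hdne)
  have hKf' : ∀ᶠ p : ℝ × ℝ in 𝓝 (t0, t0), ∀ a b : Fin 3,
      |(f p.1).1 a b - (f p.2).1 a b| ≤ Kf a b * |p.1 - p.2| := by
    rw [Filter.eventually_all]
    intro a
    rw [Filter.eventually_all]
    intro b
    exact hKf a b
  obtain ⟨ε1, hε1, h1⟩ := Metric.eventually_nhds_iff.1 ((hKf'.and hKg).and hKd)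
  have h2 := (S.eventually_arr h).and ((S.eventually_dτ h).and (S.eventually_contDiffAt h))
  obtain ⟨ε2, hε2, h2⟩ := Metric.eventually_nhds_iff.1 h2
  obtain ⟨ε3, hε3, h3⟩ := S.near h
  set ε := min ε1 ε2 with hε
  have hεp : 0 < ε := lt_min hε1 hε2
  have hA : ∀ t u, |t - t0| < ε → |u - t0| < ε →
      ((∀ a b : Fin 3, |(f t).1 a b - (f u).1 a b| ≤ Kf a b * |t - u|) ∧
        |g t - g u| ≤ Kg * |t - u|) ∧
        |Real.log (deriv g t) - Real.log (deriv g u)| ≤ Kd * |t - u| := by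
    intro t u ht hu
    have := @h1 (t, u) (by
      rw [Prod.dist_eq, max_lt_iff, Real.dist_eq, Real.dist_eq]
      exact ⟨ht.trans_le (min_le_left _ _), hu.trans_le (min_le_left _ _)⟩)
    exact this
  have hB : ∀ t, |t - t0| < ε → S.Arr i j t (g t) (f t) ∧
      S.dτ i j t (g t) (f t) = deriv g t ∧ DifferentiableAt ℝ g t := by
    intro t ht
    have h4 := @h2 t (by rw [Real.dist_eq]; exact ht.trans_le (min_le_right _ _))
    exact ⟨h4.1, h4.2.1.1, h4.2.2.2.1.differentiableAt (by norm_num)⟩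
  have hC : ∀ t, |t - t0| < ε → deriv g t ≠ 0 := by
    intro t ht
    obtain ⟨h5, h6, -⟩ := hB t ht
    rw [← h6]
    exact S.dτ_ne_zero h5
  set C := 1 + (∑ a, ∑ b, Kf a b) + Kg + Kd with hCdef
  have hsum : 0 ≤ ∑ a, ∑ b, Kf a b :=
    Finset.sum_nonneg fun a _ => Finset.sum_nonneg fun b _ => hKf0 a b
  refine ⟨ε / 2, by positivity, C, by linarith, ?_⟩
  have h7 : ∀ᶠ p : ℝ × ℝ × G in 𝓝 (t0, τ0, k0), |p.1 - t0| < min (ε / 2) ε3 := by
    have hc : ContinuousAt (fun p : ℝ × ℝ × G => |p.1 - t0|) (t0, τ0, k0) := by fun_prop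
    have := hc.eventually (gt_mem_nhds (show |(t0, τ0, k0).1 - t0| < min (ε / 2) ε3 by
      simp only [sub_self, abs_zero]
      exact lt_min (by positivity) hε3))
    exact this
  have h8 : ∀ᶠ p : ℝ × ℝ × G in 𝓝 (t0, τ0, k0), nd (k0⁻¹ * p.2.2) < ε3 := by
    have hc : Continuous (fun p : ℝ × ℝ × G => nd (k0⁻¹ * p.2.2)) :=
      continuous_nd.comp (continuous_const.mul (continuous_snd.comp continuous_snd))
    have := hc.continuousAt.eventually (gt_mem_nhds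
      (show nd (k0⁻¹ * (t0, τ0, k0).2.2) < ε3 by
        simp only [inv_mul_cancel, nd_one]
        exact hε3))
    exact this
  filter_upwards [h7, h8] with p hp7 hp8 hArr
  obtain ⟨t, τ, k⟩ := p
  simp only at hp7 hp8 hArr ⊢
  have ht1 : |t - t0| < ε / 2 := hp7.trans_le (min_le_left _ _)
  obtain ⟨hk, hτ⟩ := h3 t τ k (hp7.trans_le (min_le_right _ _)) hp8 hArr
  have ht2 : |t - t0| < ε := by linarith
  intro s hs
  simp only at hs ⊢
  have hts : |t + s - t0| < ε := by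
    have : t + s - t0 = (t - t0) + s := by ring
    rw [this]
    exact (abs_add_le _ _).trans_lt (by linarith)
  have e1 : t + s - t = s := by ring
  have hAA := hA (t + s) t hts ht2
  rw [e1] at hAA
  obtain ⟨⟨hA1, hA2⟩, hA3⟩ := hAA
  obtain ⟨hB1, hB2, -⟩ := hB (t + s) hts
  obtain ⟨hB3, hB4, -⟩ := hB t ht2
  have hkd' : S.dτ i j t τ k = deriv g t := by rw [hk, hτ]; exact hB4
  refine ⟨g (t + s), f (t + s), hB1, ?_, ?_, ?_, ?_⟩
  · rw [hτ]
    refine hA2.trans (mul_le_mul_of_nonneg_right ?_ (abs_nonneg s))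
    linarith
  · rw [hkd', hτ]
    have h9 := loc_mvt hKd0 (fun v hv => (hB v hv).2.2) hC (fun v u hv hu => (hA v u hv hu).2)
      ht2 hts
    rw [e1] at h9
    refine h9.trans (mul_le_mul_of_nonneg_left (Real.exp_le_exp.2 ?_)
      (mul_nonneg (abs_nonneg _) (abs_nonneg _)))
    refine mul_le_mul_of_nonneg_right ?_ (abs_nonneg s)
    linarith
  · rw [hk]
    have h10 : nrm ((f (t + s)).1 - (f t).1) ≤ (∑ a, ∑ b, Kf a b) * |s| := by
      unfold nrm
      rw [Finset.sum_mul]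
      refine Finset.sum_le_sum fun a _ => ?_
      rw [Finset.sum_mul]
      refine Finset.sum_le_sum fun b _ => ?_
      rw [Matrix.sub_apply]
      exact hA1 a b
    refine h10.trans (mul_le_mul_of_nonneg_right ?_ (abs_nonneg s))
    linarith
  · rw [hkd', hB2]
    refine hA3.trans (mul_le_mul_of_nonneg_right ?_ (abs_nonneg s))
    linarith

/-- Uniform version over compact sets of arrows. -/
theorem loc_compact {X : Type} [TopologicalSpace X] [MulAction G X] [T2Space X]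
    [ContinuousSMul G X] (S : FB X) (i j : Fin S.n) (Q : Set G) (hQ : IsCompact Q) :
    ∃ δ : ℝ, 0 < δ ∧ ∃ C : ℝ, 1 ≤ C ∧ ∀ (t τ : ℝ) (k : G), |t| ≤ 1 / 2 → |τ| ≤ 1 / 2 → k ∈ Q →
      S.Arr i j t τ k → LocE S i j δ C (t, τ, k) := by
  have hK := S.isCompact_arr i j (1 / 2) (by norm_num) Q hQ
  have key : ∃ δ : ℝ, 0 < δ ∧ ∃ C : ℝ, 1 ≤ C ∧ ∀ p ∈ {p : ℝ × ℝ × G | |p.1| ≤ 1 / 2 ∧
      |p.2.1| ≤ 1 / 2 ∧ p.2.2 ∈ Q ∧ S.Arr i j p.1 p.2.1 p.2.2},
      S.Arr i j p.1 p.2.1 p.2.2 → LocE S i j δ C p := by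
    refine hK.induction_on (p := fun s => ∃ δ : ℝ, 0 < δ ∧ ∃ C : ℝ, 1 ≤ C ∧ ∀ p ∈ s,
      S.Arr i j p.1 p.2.1 p.2.2 → LocE S i j δ C p) ?_ ?_ ?_ ?_
    · exact ⟨1, one_pos, 1, le_refl 1, fun p hp => absurd hp (Set.notMem_empty p)⟩
    · rintro s t hst ⟨δ, hδ, C, hC, h⟩
      exact ⟨δ, hδ, C, hC, fun p hp => h p (hst hp)⟩
    · rintro s t ⟨δ, hδ, C, hC, h⟩ ⟨δ', hδ', C', hC', h'⟩
      refine ⟨min δ δ', lt_min hδ hδ', max C C', hC.trans (le_max_left _ _), ?_⟩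
      rintro p (hp | hp) ha
      · exact (h p hp ha).mono (min_le_left _ _) (le_max_left _ _)
      · exact (h' p hp ha).mono (min_le_right _ _) (le_max_right _ _)
    · rintro ⟨t0, τ0, k0⟩ hx
      obtain ⟨δ, hδ, C, hC, h⟩ := loc_local S hx.2.2.2
      exact ⟨_, mem_nhdsWithin_of_mem_nhds h, δ, hδ, C, hC, fun p hp => hp⟩
  obtain ⟨δ, hδ, C, hC, h⟩ := key
  exact ⟨δ, hδ, C, hC, fun t τ k ht hτ hk ha => h (t, τ, k) ⟨ht, hτ, hk, ha⟩ ha⟩

/-- Uniform version, all pairs of charts. -/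
theorem loc_all {X : Type} [TopologicalSpace X] [MulAction G X] [T2Space X]
    [ContinuousSMul G X] (S : FB X) (Q : Set G) (hQ : IsCompact Q) :
    ∃ δ : ℝ, 0 < δ ∧ ∃ C : ℝ, 1 ≤ C ∧ ∀ (i j : Fin S.n) (t τ : ℝ) (k : G), |t| ≤ 1 / 2 →
      |τ| ≤ 1 / 2 → k ∈ Q → S.Arr i j t τ k → LocE S i j δ C (t, τ, k) := by
  choose δ hδ C hC h using fun i j => loc_compact S i j Q hQ
  have hC0 : ∀ i j, 0 ≤ C i j := fun i j => zero_le_one.trans (hC i j)
  have hD0 : ∀ i j, 0 ≤ (δ i j)⁻¹ := fun i j => inv_nonneg.2 (hδ i j).le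
  have hsC : 0 ≤ ∑ i, ∑ j, C i j := Finset.sum_nonneg fun i _ => Finset.sum_nonneg fun j _ => hC0 i j
  have hsD : 0 ≤ ∑ i, ∑ j, (δ i j)⁻¹ :=
    Finset.sum_nonneg fun i _ => Finset.sum_nonneg fun j _ => hD0 i j
  refine ⟨(1 + ∑ i, ∑ j, (δ i j)⁻¹)⁻¹, by positivity, 1 + ∑ i, ∑ j, C i j, by linarith, ?_⟩
  intro i j t τ k ht hτ hk ha
  refine (h i j t τ k ht hτ hk ha).mono ?_ ?_
  · have h1 : (δ i j)⁻¹ ≤ ∑ i, ∑ j, (δ i j)⁻¹ :=
      (Finset.single_le_sum (f := fun j => (δ i j)⁻¹) (fun j _ => hD0 i j)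
        (Finset.mem_univ j)).trans
      (Finset.single_le_sum (f := fun i => ∑ j, (δ i j)⁻¹)
        (fun i _ => Finset.sum_nonneg fun j _ => hD0 i j) (Finset.mem_univ i))
    rw [inv_le_comm₀ (by positivity) (hδ i j)]
    linarith
  · have h1 : C i j ≤ ∑ i, ∑ j, C i j :=
      (Finset.single_le_sum (f := fun j => C i j) (fun j _ => hC0 i j)
        (Finset.mem_univ j)).trans
      (Finset.single_le_sum (f := fun i => ∑ j, C i j)
        (fun i _ => Finset.sum_nonneg fun j _ => hC0 i j) (Finset.mem_univ i))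
    linarith

variable {X : Type} [MetricSpace X] [CompactSpace X] [MulAction G X] [ContinuousSMul G X]

/-- `nrm` is bounded on compact sets. -/
theorem loc_nrm_bound {Q : Set G} (hQ : IsCompact Q) : ∃ C : ℝ, 1 ≤ C ∧ ∀ q ∈ Q, nrm q.1 ≤ C := by
  obtain ⟨C, hC⟩ := hQ.exists_bound_of_continuousOn
    (f := fun q : G => nrm q.1) (continuous_nrm.comp closedEmb_val.continuous).continuousOn
  refine ⟨max 1 C, le_max_left _ _, fun q hq => ?_⟩
  have h1 := hC q hq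
  rw [Real.norm_eq_abs] at h1
  exact (le_abs_self _).trans (h1.trans (le_max_right _ _))

/-- LOC -/
theorem TN.loc {S : FB X} (T : TN S) {Q : Set G} (hQ : IsCompact Q) :
    ∃ δ : ℝ, 0 < δ ∧ δ ≤ 1 / 8 ∧ ∃ C : ℝ, 1 ≤ C ∧ ∀ q ∈ Q, ∀ (x : X) (s : ℝ), |s| ≤ δ →
      ∃ (η : G) (F : ℝ), |F| ≤ 1 / 4 ∧ q • S.cur x s = η • S.cur (q • x) F ∧
        nd η ≤ C * |s| ∧ |F| ≤ C * |s| ∧
        T.w (q • x) * |F| ≤ T.J q x * T.w x * |s| * Real.exp (C * |s|) ∧
        |Real.log (T.J (η⁻¹ * q) (S.cur x s)) - Real.log (T.J q x)| ≤ C * |s| := by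
  -- the compact set of arrows
  have hB : IsCompact (Bl S.ρ1) := isCompact_Bl S.ρ1
  have hQ1 : IsCompact ((Q * Bl S.ρ1)⁻¹ * Bl S.ρ1) := (hQ.mul hB).inv.mul hB
  obtain ⟨δ0, hδ0, C0, hC0, hloc⟩ := loc_all S _ hQ1
  obtain ⟨C1, hC1, hn1⟩ := loc_nrm_bound (hQ.mul hB)
  obtain ⟨C2, hC2, hn2⟩ := loc_nrm_bound hB.inv
  obtain ⟨C3, hC3, hlip⟩ := T.logW_lip hB (3 / 4) (by norm_num)
  set δ := min (min δ0 (1 / 8)) (1 / (4 * C0)) with hδ
  have hδp : 0 < δ := lt_min (lt_min hδ0 (by norm_num)) (by positivity)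
  set C := C0 + C1 * C0 * C2 + (C3 * C0 + C0 + C3) with hC
  have hC0' : 0 ≤ C0 := zero_le_one.trans hC0
  have hC1' : 0 ≤ C1 := zero_le_one.trans hC1
  have hC2' : 0 ≤ C2 := zero_le_one.trans hC2
  have hC3' : 0 ≤ C3 := zero_le_one.trans hC3
  have hCp1 : 0 ≤ C1 * C0 * C2 := by positivity
  have hCp2 : 0 ≤ C3 * C0 := by positivity
  refine ⟨δ, hδp, (min_le_left _ _).trans (min_le_right _ _), C, by linarith, ?_⟩
  intro q hq x s hs
  have hs0 : |s| ≤ δ0 := hs.trans ((min_le_left _ _).trans (min_le_left _ _))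
  have hs1 : |s| ≤ 1 / 8 := hs.trans ((min_le_left _ _).trans (min_le_right _ _))
  have hs2 : C0 * |s| ≤ 1 / 4 := by
    have h1 : |s| ≤ 1 / (4 * C0) := hs.trans (min_le_right _ _)
    have h2 : 0 < C0 := zero_lt_one.trans_le hC0
    rw [le_div_iff₀ (by positivity)] at h1
    linarith
  obtain ⟨hh1, ht1, hx1⟩ := S.rep_spec x
  obtain ⟨hh2, ht2, hx2⟩ := S.rep_spec (q • x)
  unfold TN.w FB.cur
  set h := S.rh x with hhdef
  set i := S.ri x with hidef
  set t := S.rt x with htdef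
  set h' := S.rh (q • x) with hh'def
  set j := S.ri (q • x) with hjdef
  set τ := S.rt (q • x) with hτdef
  have hmem : (q * h)⁻¹ * h' ∈ (Q * Bl S.ρ1)⁻¹ * Bl S.ρ1 := by
    refine Set.mul_mem_mul (Set.inv_mem_inv.2 (Set.mul_mem_mul hq ?_)) ?_
    · exact hh1.le
    · exact hh2.le
  have hArr : S.Arr i j t τ ((q * h)⁻¹ * h') := by
    refine ⟨by linarith, by linarith, ?_⟩
    rw [mul_smul, ← hx2, inv_smul_eq_iff.2 ?_]
    rw [mul_smul, ← hx1]
  set k := (q * h)⁻¹ * h' with hk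
  obtain ⟨τ', k', hA, hF1, hF2, hk1, hd1⟩ := hloc i j t τ k ht1.le ht2.le hmem hArr s hs0
  simp only at hA hF1 hF2 hk1 hd1
  have hF3 : |τ' - τ| ≤ 1 / 4 := hF1.trans hs2
  have hts : |t + s| < 1 := (abs_add_le _ _).trans_lt (by linarith)
  have hqk : q * h * k = h' := by rw [hk]; group
  refine ⟨q * h * k' * h'⁻¹, τ' - τ, hF3, ?_, ?_, ?_, ?_, ?_⟩
  · have e1 : τ + (τ' - τ) = τ' := by ring
    rw [e1, ← mul_smul, ← mul_smul, inv_mul_cancel_right, hA.2.2, ← mul_smul]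
  · have e0 : h'.1 * (h'⁻¹).1 = 1 := by
      rw [← Matrix.SpecialLinearGroup.coe_mul, mul_inv_cancel]; rfl
    have e2 : (q * h * k' * h'⁻¹).1 - 1 = (q * h).1 * (k'.1 - k.1) * (h'⁻¹).1 := by
      have e3 : (q * h).1 * k.1 = h'.1 := by rw [← Matrix.SpecialLinearGroup.coe_mul, hqk]
      rw [mul_sub, sub_mul, e3, e0, Matrix.SpecialLinearGroup.coe_mul (q * h * k') h'⁻¹,
        Matrix.SpecialLinearGroup.coe_mul (q * h) k']
    unfold nd
    rw [e2]
    have h3 : nrm (q * h).1 ≤ C1 := hn1 _ (Set.mul_mem_mul hq hh1.le)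
    have h4 : nrm (h'⁻¹).1 ≤ C2 := hn2 _ (Set.inv_mem_inv.2 hh2.le)
    calc nrm ((q * h).1 * (k'.1 - k.1) * (h'⁻¹).1)
        ≤ nrm ((q * h).1 * (k'.1 - k.1)) * nrm (h'⁻¹).1 := nrm_mul_le _ _
      _ ≤ (nrm (q * h).1 * nrm (k'.1 - k.1)) * nrm (h'⁻¹).1 :=
          mul_le_mul_of_nonneg_right (nrm_mul_le _ _) (nrm_nonneg _)
      _ ≤ (C1 * (C0 * |s|)) * C2 :=
          mul_le_mul (mul_le_mul h3 hk1 (nrm_nonneg _) hC1') h4 (nrm_nonneg _)
            (by positivity)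
      _ = C1 * C0 * C2 * |s| := by ring
      _ ≤ C * |s| := mul_le_mul_of_nonneg_right (by linarith) (abs_nonneg s)
  · refine hF1.trans (mul_le_mul_of_nonneg_right (by linarith) (abs_nonneg s))
  · have hr := T.rule i j t τ k hArr (q * h)
    rw [hqk] at hr
    have hJ : T.J q x * T.W h i t = T.W (q * h) i t := by
      unfold TN.J
      rw [← hhdef, ← hidef, ← htdef]
      exact div_mul_cancel₀ _ (T.pos h i t (by linarith)).ne'
    rw [hJ, hr]
    have hW := (T.pos h' j τ (by linarith)).le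
    calc T.W h' j τ * |τ' - τ|
        ≤ T.W h' j τ * (|S.dτ i j t τ k| * |s| * Real.exp (C0 * |s|)) :=
          mul_le_mul_of_nonneg_left hF2 hW
      _ ≤ T.W h' j τ * (|S.dτ i j t τ k| * |s| * Real.exp (C * |s|)) := by
          refine mul_le_mul_of_nonneg_left (mul_le_mul_of_nonneg_left (Real.exp_le_exp.2 ?_)
            (mul_nonneg (abs_nonneg _) (abs_nonneg _))) hW
          exact mul_le_mul_of_nonneg_right (by linarith) (abs_nonneg s)
      _ = T.W h' j τ * |S.dτ i j t τ k| * |s| * Real.exp (C * |s|) := by ring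
  · have hη : (q * h * k' * h'⁻¹)⁻¹ * q * h * k' = h' := by group
    rw [T.J_eq _ h i (t + s) hts, T.rule i j (t + s) τ' k' hA, hη]
    have hJ : T.J q x = T.W h' j τ * |S.dτ i j t τ k| / T.W h i t := by
      unfold TN.J
      rw [← hhdef, ← hidef, ← htdef, T.rule i j t τ k hArr (q * h), hqk]
    rw [hJ]
    have hp1 := T.pos h' j τ' hA.2.1
    have hp2 := T.pos h' j τ hArr.2.1
    have hp3 := T.pos h i (t + s) hts
    have hp4 := T.pos h i t hArr.1
    have hp5 : 0 < |S.dτ i j (t + s) τ' k'| := abs_pos.2 (S.dτ_ne_zero hA)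
    have hp6 : 0 < |S.dτ i j t τ k| := abs_pos.2 (S.dτ_ne_zero hArr)
    rw [Real.log_div (mul_pos hp1 hp5).ne' hp3.ne', Real.log_div (mul_pos hp2 hp6).ne' hp4.ne',
      Real.log_mul hp1.ne' hp5.ne', Real.log_mul hp2.ne' hp6.ne', Real.log_abs, Real.log_abs]
    have hτ'b : |τ'| ≤ 3 / 4 := by
      have : τ' = (τ' - τ) + τ := by ring
      rw [this]
      exact (abs_add_le _ _).trans (by linarith)
    have hL1 := hlip h' hh2.le j τ' τ hτ'b (by linarith)
    have hL2 := hlip h hh1.le i (t + s) t ((abs_add_le _ _).trans (by linarith)) (by linarith)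
    have e1 : t + s - t = s := by ring
    rw [e1] at hL2
    have hL1' : |Real.log (T.W h' j τ') - Real.log (T.W h' j τ)| ≤ C3 * (C0 * |s|) :=
      hL1.trans (mul_le_mul_of_nonneg_left hF1 hC3')
    have e5 : Real.log (T.W h' j τ') + Real.log (S.dτ i j (t + s) τ' k') -
        Real.log (T.W h i (t + s)) -
        (Real.log (T.W h' j τ) + Real.log (S.dτ i j t τ k) - Real.log (T.W h i t)) =
        (Real.log (T.W h' j τ') - Real.log (T.W h' j τ)) +
        (Real.log (S.dτ i j (t + s) τ' k') - Real.log (S.dτ i j t τ k)) -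
        (Real.log (T.W h i (t + s)) - Real.log (T.W h i t)) := by ring
    rw [e5]
    have h9 := abs_sub ((Real.log (T.W h' j τ') - Real.log (T.W h' j τ)) +
        (Real.log (S.dτ i j (t + s) τ' k') - Real.log (S.dτ i j t τ k)))
        (Real.log (T.W h i (t + s)) - Real.log (T.W h i t))
    have h10 := abs_add_le (Real.log (T.W h' j τ') - Real.log (T.W h' j τ))
        (Real.log (S.dτ i j (t + s) τ' k') - Real.log (S.dτ i j t τ k))
    have h11 : C3 * (C0 * |s|) + C0 * |s| + C3 * |s| ≤ C * |s| := by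
      have : C3 * (C0 * |s|) + C0 * |s| + C3 * |s| = (C3 * C0 + C0 + C3) * |s| := by ring
      rw [this]
      exact mul_le_mul_of_nonneg_right (by linarith) (abs_nonneg s)
    linarith

/-- The two sides of a transversal: one-sided neighbourhoods are transported by arrows. -/
theorem FB.one_sided (S : FB X) {i j : Fin S.n} {t τ : ℝ} {k : G} (h : S.Arr i j t τ k)
    (Ω : Set X) (hΩ : ∀ (g : G), ∀ x ∈ Ω, g • x ∈ Ω) (σ : ℝ) (hσ : σ = 1 ∨ σ = -1)
    (h1 : ∃ r > 0, ∀ s, 0 < s → s < r → S.c i (t + σ * s) ∈ Ω) :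
    ∃ σ' : ℝ, (σ' = 1 ∨ σ' = -1) ∧ ∃ r > 0, ∀ s, 0 < s → s < r → S.c j (τ + σ' * s) ∈ Ω := by
  obtain ⟨r, hr, h1⟩ := h1
  have h' := S.arr_symm h
  obtain ⟨-, hτ0, -, -, hdne, hev⟩ := S.kf_τf_spec h'
  have hd := S.hasDerivAt_τf h'
  set g := S.τf j i τ t k⁻¹ with hg
  set d := S.dτ j i τ t k⁻¹ with hdd
  have hdne' : d ≠ 0 := hdne
  have hσ2 : σ * σ = 1 := by rcases hσ with rfl | rfl <;> norm_num
  -- the sign
  obtain ⟨σ', hσ', hpos⟩ : ∃ σ' : ℝ, (σ' = 1 ∨ σ' = -1) ∧ 0 < σ * (σ' * d) := by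
    rcases lt_or_gt_of_ne (mul_ne_zero (by rcases hσ with rfl | rfl <;> norm_num : σ ≠ 0) hdne')
      with h2 | h2
    · exact ⟨-1, Or.inr rfl, by linarith⟩
    · exact ⟨1, Or.inl rfl, by linarith⟩
  refine ⟨σ', hσ', ?_⟩
  -- derivative of `s ↦ σ (g (τ + σ' s) - t)` at `0`
  have hφ : HasDerivAt (fun s : ℝ => σ * (g (τ + σ' * s) - t)) (σ * (σ' * d)) 0 := by
    have h3 : HasDerivAt (fun s : ℝ => τ + σ' * s) σ' 0 := by
      have := ((hasDerivAt_id (0 : ℝ)).const_mul σ').const_add τ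
      simpa using this
    have h4 : HasDerivAt g d (τ + σ' * 0) := by
      rw [mul_zero, add_zero]; exact hd
    have h5 := HasDerivAt.comp (0 : ℝ) h4 h3
    have h6 := (h5.sub_const t).const_mul σ
    rw [mul_comm d σ'] at h6
    exact h6
  have hφ0 : σ * (g (τ + σ' * 0) - t) = 0 := by
    rw [mul_zero, add_zero, hτ0, sub_self, mul_zero]
  have hev1 : ∀ᶠ s in 𝓝[>] (0 : ℝ), 0 < σ * (g (τ + σ' * s) - t) := by
    have h7 := hφ.tendsto_slope_zero_right
    have h8 := h7.eventually (lt_mem_nhds hpos)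
    filter_upwards [h8, self_mem_nhdsWithin] with s hs hs0
    have hs0' : (0 : ℝ) < s := hs0
    simp only [zero_add, hφ0, sub_zero, smul_eq_mul] at hs
    have h9 : 0 < s⁻¹ := inv_pos.2 hs0'
    exact (mul_pos_iff_of_pos_left h9).1 hs
  have hev2 : ∀ᶠ s in 𝓝[>] (0 : ℝ), σ * (g (τ + σ' * s) - t) < r := by
    have h7 : ContinuousAt (fun s : ℝ => σ * (g (τ + σ' * s) - t)) 0 := hφ.continuousAt
    have h8 := h7.eventually (gt_mem_nhds (show σ * (g (τ + σ' * 0) - t) < r by rw [hφ0]; exact hr))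
    exact nhdsWithin_le_nhds h8
  have hev3 : ∀ᶠ s in 𝓝[>] (0 : ℝ), S.c j (τ + σ' * s) =
      S.kf j i τ t k⁻¹ (τ + σ' * s) • S.c i (g (τ + σ' * s)) := by
    have h7 : Tendsto (fun s : ℝ => τ + σ' * s) (𝓝 0) (𝓝 τ) := by
      have : ContinuousAt (fun s : ℝ => τ + σ' * s) 0 := by fun_prop
      have h8 := this.tendsto
      simpa using h8
    exact nhdsWithin_le_nhds (h7.eventually hev)
  have hev4 := (hev1.and hev2).and hev3
  rw [eventually_nhdsWithin_iff, Metric.eventually_nhds_iff] at hev4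
  obtain ⟨r', hr', hev4⟩ := hev4
  refine ⟨r', hr', fun s hs0 hsr => ?_⟩
  obtain ⟨⟨h2, h3⟩, h4⟩ := @hev4 s (by rw [Real.dist_eq, sub_zero, abs_of_pos hs0]; exact hsr) hs0
  rw [h4]
  refine hΩ _ _ ?_
  have h5 := h1 _ h2 h3
  have e1 : t + σ * (σ * (g (τ + σ' * s) - t)) = g (τ + σ' * s) := by
    rw [← mul_assoc, hσ2]; ring
  rwa [e1] at h5

end Pool.Agent.H88.LF

end S_H88_LF_LOC

section S_H88_LF_SHA

/-!
# SHA: (P1) of blueprint section 5
-/

set_option autoImplicit false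

open MeasureTheory Set Filter
open scoped Topology ENNReal

namespace Pool.Agent.H88.LF

/-- `(1+u)^4 ≤ 1 + 15 u` for `0 ≤ u ≤ 1`. -/
theorem sha_pow4 (u : ℝ) (h0 : 0 ≤ u) (h1 : u ≤ 1) : (1 + u) ^ 4 ≤ 1 + 15 * u := by
  have h2 : u ^ 2 ≤ u := by nlinarith
  have h3 : u ^ 3 ≤ u := by nlinarith [mul_nonneg h0 h0]
  have h4 : u ^ 4 ≤ u := by nlinarith [mul_nonneg h0 h0, mul_nonneg (mul_nonneg h0 h0) h0]
  nlinarith

theorem sha_nd2 (g h : G) (u : ℝ) (hg : nd g ≤ u) (hh : nd h ≤ u) (h0 : 0 ≤ u) (h1 : u ≤ 1) :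
    nd (g * h) ≤ 3 * u := by
  have h2 := one_add_nd_mul g h
  have h3 := nd_nonneg g
  have h4 := nd_nonneg h
  have h5 : (1 + nd g) * (1 + nd h) ≤ (1 + u) * (1 + u) :=
    mul_le_mul (by linarith) (by linarith) (by linarith) (by linarith)
  nlinarith

theorem sha_nd4 (g1 g2 g3 g4 : G) (u : ℝ) (h1 : nd g1 ≤ u) (h2 : nd g2 ≤ u) (h3 : nd g3 ≤ u)
    (h4 : nd g4 ≤ u) (hu0 : 0 ≤ u) (hu1 : u ≤ 1) :
    nd (g1 * (g2 * (g3 * g4))) ≤ 15 * u := by
  have a1 := one_add_nd_mul g1 (g2 * (g3 * g4))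
  have a2 := one_add_nd_mul g2 (g3 * g4)
  have a3 := one_add_nd_mul g3 g4
  have n1 := nd_nonneg g1
  have n2 := nd_nonneg g2
  have n3 := nd_nonneg g3
  have n4 := nd_nonneg g4
  have b3 : (1 + nd g3) * (1 + nd g4) ≤ (1 + u) * (1 + u) :=
    mul_le_mul (by linarith) (by linarith) (by linarith) (by linarith)
  have b2 : (1 + nd g2) * (1 + nd (g3 * g4)) ≤ (1 + u) * ((1 + u) * (1 + u)) :=
    mul_le_mul (by linarith) (by linarith) (by linarith [nd_nonneg (g3 * g4)]) (by linarith)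
  have b1 : (1 + nd g1) * (1 + nd (g2 * (g3 * g4))) ≤ (1 + u) * ((1 + u) * ((1 + u) * (1 + u))) :=
    mul_le_mul (by linarith) (by linarith) (by linarith [nd_nonneg (g2 * (g3 * g4))])
      (by linarith)
  have := sha_pow4 u hu0 hu1
  nlinarith

variable {X : Type} [MetricSpace X] [CompactSpace X] [MulAction G X] [ContinuousSMul G X]

/-- The orbit bookkeeping: `tt`, `Y` from the local estimates. -/
theorem sha_orbit {S : FB X} (T : TN S) (a : G) (C Cw δ K : ℝ) (hC : 1 ≤ C) (hCw : 1 ≤ Cw)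
    (hK : K = Cw ^ 2 * Real.exp (2 * C))
    (hw : ∀ x : X, Cw⁻¹ ≤ T.w x ∧ T.w x ≤ Cw)
    (hloc : ∀ (x : X) (s : ℝ), |s| ≤ δ →
      ∃ (η : G) (F : ℝ), a • S.cur x s = η • S.cur (a • x) F ∧
        nd η ≤ C * |s| ∧
        T.w (a • x) * |F| ≤ T.J a x * T.w x * |s| * Real.exp (C * |s|) ∧
        |Real.log (T.J (η⁻¹ * a) (S.cur x s)) - Real.log (T.J a x)| ≤ C * |s|)
    (x0 : X) (n : ℕ) (r t c2 : ℝ) (hr : 0 < r) (hr1 : r ≤ 1) (ht : |t| < r) (g : G)
    (hc2δ : K * c2 ≤ δ) (hc21 : K * c2 ≤ 1)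
    (hsum : r * ∑ j ∈ Finset.range (n + 1), T.J (a ^ j * g) x0 ≤ c2)
    (η0 : G) (F0 : ℝ) (h0 : g • S.cur x0 t = η0 • S.cur (g • x0) F0)
    (h0w : T.w (g • x0) * |F0| ≤ T.J g x0 * T.w x0 * |t| * Real.exp (C * |t|))
    (h0J : |Real.log (T.J (η0⁻¹ * g) (S.cur x0 t)) - Real.log (T.J g x0)| ≤ C * |t|) :
    ∃ (tt : ℕ → ℝ) (η Y : ℕ → G), Y 0 = η0⁻¹ * g ∧ (∀ j, Y (j + 1) = (η j)⁻¹ * a * Y j) ∧
      (∀ j, j ≤ n → |tt j| ≤ K * c2) ∧
      (∑ j ∈ Finset.range (n + 1), |tt j| ≤ K * c2) ∧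
      (∀ j, j ≤ n → Y j • S.cur x0 t = S.cur ((a ^ j * g) • x0) (tt j)) ∧
      (∀ j, j ≤ n → nd (η j) ≤ C * |tt j|) ∧
      Real.log (T.J (a ^ n * g) x0) ≤ Real.log (T.J (Y n) (S.cur x0 t)) + 2 * C := by
  classical
  have hKpos : 0 < K := by rw [hK]; positivity
  -- choice functions
  have hch : ∀ (x : X) (s : ℝ), ∃ (p : G × ℝ), |s| ≤ δ →
      a • S.cur x s = p.1 • S.cur (a • x) p.2 ∧
        nd p.1 ≤ C * |s| ∧
        T.w (a • x) * |p.2| ≤ T.J a x * T.w x * |s| * Real.exp (C * |s|) ∧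
        |Real.log (T.J (p.1⁻¹ * a) (S.cur x s)) - Real.log (T.J a x)| ≤ C * |s| := by
    intro x s
    by_cases h : |s| ≤ δ
    · obtain ⟨η, F, h1⟩ := hloc x s h
      exact ⟨(η, F), fun _ => h1⟩
    · exact ⟨(1, 0), fun h' => absurd h' h⟩
  choose pf hpf using hch
  let tt : ℕ → ℝ := fun j => Nat.rec F0 (fun j s => (pf ((a ^ j * g) • x0) s).2) j
  have htt0 : tt 0 = F0 := rfl
  have htts : ∀ j, tt (j + 1) = (pf ((a ^ j * g) • x0) (tt j)).2 := fun j => rfl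
  let η : ℕ → G := fun j => (pf ((a ^ j * g) • x0) (tt j)).1
  let Y : ℕ → G := fun j => Nat.rec (η0⁻¹ * g) (fun j y => (η j)⁻¹ * a * y) j
  have hY0 : Y 0 = η0⁻¹ * g := rfl
  have hYs : ∀ j, Y (j + 1) = (η j)⁻¹ * a * Y j := fun j => rfl
  have hxs : ∀ j : ℕ, a • (a ^ j * g) • x0 = (a ^ (j + 1) * g) • x0 := by
    intro j
    rw [smul_smul, pow_succ']
    congr 1
    group
  have hbs : ∀ j : ℕ, T.J (a ^ (j + 1) * g) x0 =
      T.J a ((a ^ j * g) • x0) * T.J (a ^ j * g) x0 := by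
    intro j
    rw [← T.J_mul]
    congr 1
    rw [pow_succ']
    group
  have hbpos : ∀ j : ℕ, 0 < T.J (a ^ j * g) x0 := fun j => T.J_pos _ _
  have ht0 : 0 ≤ |t| := abs_nonneg t
  -- partial sums
  have hpart : ∀ m, m ≤ n + 1 → r * ∑ j ∈ Finset.range m, T.J (a ^ j * g) x0 ≤ c2 := by
    intro m hm
    refine le_trans ?_ hsum
    refine mul_le_mul_of_nonneg_left ?_ hr.le
    exact Finset.sum_le_sum_of_subset_of_nonneg
      (Finset.range_subset_range.mpr hm) (fun i _ _ => (hbpos i).le)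
  have hsumtt : ∀ m, m ≤ n + 1 → (∀ l, l < m → |tt l| ≤ K * (r * T.J (a ^ l * g) x0)) →
      ∑ l ∈ Finset.range m, |tt l| ≤ K * c2 := by
    intro m hm hl
    calc ∑ l ∈ Finset.range m, |tt l| ≤ ∑ l ∈ Finset.range m, K * (r * T.J (a ^ l * g) x0) :=
          Finset.sum_le_sum fun l hlm => hl l (Finset.mem_range.mp hlm)
      _ = K * (r * ∑ l ∈ Finset.range m, T.J (a ^ l * g) x0) := by
          rw [← Finset.mul_sum, ← Finset.mul_sum]
      _ ≤ K * c2 := mul_le_mul_of_nonneg_left (hpart m hm) hKpos.le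
  -- the main estimate
  have hbase : ∀ j, j ≤ n → (T.w ((a ^ j * g) • x0) * |tt j| ≤ T.J (a ^ j * g) x0 * T.w x0 * |t| *
      Real.exp (C * (|t| + ∑ l ∈ Finset.range j, |tt l|))) →
      (∑ l ∈ Finset.range j, |tt l| ≤ 1) → |tt j| ≤ K * (r * T.J (a ^ j * g) x0) := by
    intro j _ h1 h2
    have h3 : Cw⁻¹ * |tt j| ≤ T.w ((a ^ j * g) • x0) * |tt j| :=
      mul_le_mul_of_nonneg_right (hw _).1 (abs_nonneg _)
    have h4 : Real.exp (C * (|t| + ∑ l ∈ Finset.range j, |tt l|)) ≤ Real.exp (2 * C) := by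
      apply Real.exp_le_exp.mpr
      nlinarith
    have h5 : T.J (a ^ j * g) x0 * T.w x0 * |t| *
        Real.exp (C * (|t| + ∑ l ∈ Finset.range j, |tt l|)) ≤
        T.J (a ^ j * g) x0 * Cw * r * Real.exp (2 * C) := by
      have hb := (hbpos j).le
      have hw0 := (T.w_pos x0).le
      refine mul_le_mul ?_ h4 (Real.exp_pos _).le (by positivity)
      refine mul_le_mul ?_ ht.le ht0 (by positivity)
      exact mul_le_mul_of_nonneg_left (hw x0).2 hb
    have h6 : Cw⁻¹ * |tt j| ≤ T.J (a ^ j * g) x0 * Cw * r * Real.exp (2 * C) :=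
      h3.trans (h1.trans h5)
    have h7 : |tt j| = Cw * (Cw⁻¹ * |tt j|) := by
      field_simp
    rw [h7]
    calc Cw * (Cw⁻¹ * |tt j|) ≤ Cw * (T.J (a ^ j * g) x0 * Cw * r * Real.exp (2 * C)) :=
          mul_le_mul_of_nonneg_left h6 (by linarith)
      _ = K * (r * T.J (a ^ j * g) x0) := by rw [hK]; ring
  have hmain : ∀ j, j ≤ n → (∀ l, l ≤ j → |tt l| ≤ K * (r * T.J (a ^ l * g) x0)) ∧
      T.w ((a ^ j * g) • x0) * |tt j| ≤ T.J (a ^ j * g) x0 * T.w x0 * |t| *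
        Real.exp (C * (|t| + ∑ l ∈ Finset.range j, |tt l|)) := by
    intro j
    induction j with
    | zero =>
      intro _
      have h1 : T.w ((a ^ 0 * g) • x0) * |tt 0| ≤ T.J (a ^ 0 * g) x0 * T.w x0 * |t| *
        Real.exp (C * (|t| + ∑ l ∈ Finset.range 0, |tt l|)) := by
        simpa [htt0] using h0w
      refine ⟨?_, h1⟩
      intro l hl
      obtain rfl : l = 0 := by omega
      exact hbase 0 (by omega) h1 (by simp)
    | succ j ih =>
      intro hj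
      obtain ⟨ih1, ih2⟩ := ih (by omega)
      have hs1 : ∑ l ∈ Finset.range (j + 1), |tt l| ≤ K * c2 :=
        hsumtt (j + 1) (by omega) (fun l hl => ih1 l (by omega))
      have hs2 : ∑ l ∈ Finset.range (j + 1), |tt l| ≤ 1 := hs1.trans hc21
      have hj1 : |tt j| ≤ δ := by
        refine le_trans ?_ (hs1.trans hc2δ)
        exact Finset.single_le_sum (f := fun l => |tt l|) (fun _ _ => abs_nonneg _)
          (Finset.mem_range.mpr (by omega))
      obtain ⟨_, _, h3, _⟩ := hpf ((a ^ j * g) • x0) (tt j) hj1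
      rw [← htts j, hxs j] at h3
      have h4 : T.w ((a ^ (j + 1) * g) • x0) * |tt (j + 1)| ≤ T.J (a ^ (j + 1) * g) x0 * T.w x0 *
          |t| * Real.exp (C * (|t| + ∑ l ∈ Finset.range (j + 1), |tt l|)) := by
        refine h3.trans ?_
        have h5 : T.J a ((a ^ j * g) • x0) * T.w ((a ^ j * g) • x0) * |tt j| *
            Real.exp (C * |tt j|) = T.J a ((a ^ j * g) • x0) * Real.exp (C * |tt j|) *
            (T.w ((a ^ j * g) • x0) * |tt j|) := by ring
        rw [h5, hbs j, Finset.sum_range_succ]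
        have h6 : 0 ≤ T.J a ((a ^ j * g) • x0) * Real.exp (C * |tt j|) :=
          mul_nonneg (T.J_pos _ _).le (Real.exp_pos _).le
        refine (mul_le_mul_of_nonneg_left ih2 h6).trans (le_of_eq ?_)
        have h7 : C * (|t| + (∑ l ∈ Finset.range j, |tt l| + |tt j|)) =
            C * (|t| + ∑ l ∈ Finset.range j, |tt l|) + C * |tt j| := by ring
        rw [h7, Real.exp_add]
        ring
      refine ⟨?_, h4⟩
      intro l hl
      rcases Nat.lt_or_ge l (j + 1) with h | h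
      · exact ih1 l (by omega)
      · obtain rfl : l = j + 1 := by omega
        exact hbase (j + 1) hj h4 hs2
  have hall : ∑ j ∈ Finset.range (n + 1), |tt j| ≤ K * c2 :=
    hsumtt (n + 1) le_rfl (fun l hl => (hmain n le_rfl).1 l (by omega))
  have hsingle : ∀ j, j ≤ n → |tt j| ≤ K * c2 := by
    intro j hj
    refine le_trans ?_ hall
    exact Finset.single_le_sum (f := fun l => |tt l|) (fun _ _ => abs_nonneg _)
      (Finset.mem_range.mpr (by omega))
  -- the points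
  have hpts : ∀ j, j ≤ n → Y j • S.cur x0 t = S.cur ((a ^ j * g) • x0) (tt j) := by
    intro j
    induction j with
    | zero =>
      intro _
      rw [hY0, htt0, mul_smul, h0, inv_smul_smul]
      simp
    | succ j ih =>
      intro hj
      have h1 := ih (by omega)
      obtain ⟨h2, _, _, _⟩ := hpf ((a ^ j * g) • x0) (tt j) ((hsingle j (by omega)).trans hc2δ)
      rw [hYs, mul_smul, mul_smul, h1, h2, ← htts j, hxs j]
      exact inv_smul_smul _ _
  -- the cocycle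
  have hJ : ∀ j, j ≤ n → |Real.log (T.J (Y j) (S.cur x0 t)) - Real.log (T.J (a ^ j * g) x0)| ≤
      C * (|t| + ∑ l ∈ Finset.range j, |tt l|) := by
    intro j
    induction j with
    | zero =>
      intro _
      simpa [hY0] using h0J
    | succ j ih =>
      intro hj
      have h1 := ih (by omega)
      obtain ⟨_, _, _, h2⟩ := hpf ((a ^ j * g) • x0) (tt j) ((hsingle j (by omega)).trans hc2δ)
      have h3 : T.J (Y (j + 1)) (S.cur x0 t) =
          T.J ((η j)⁻¹ * a) (S.cur ((a ^ j * g) • x0) (tt j)) * T.J (Y j) (S.cur x0 t) := by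
        rw [hYs, T.J_mul, hpts j (by omega)]
      rw [h3, hbs j, Real.log_mul (T.J_pos _ _).ne' (T.J_pos _ _).ne',
        Real.log_mul (T.J_pos _ _).ne' (T.J_pos _ _).ne', Finset.sum_range_succ]
      have h4 : |Real.log (T.J ((η j)⁻¹ * a) (S.cur ((a ^ j * g) • x0) (tt j))) -
          Real.log (T.J a ((a ^ j * g) • x0))| ≤ C * |tt j| := h2
      rw [abs_le] at h1 h4 ⊢
      constructor <;> nlinarith [h1.1, h1.2, h4.1, h4.2]
  refine ⟨tt, η, Y, hY0, hYs, hsingle, hall, hpts, ?_, ?_⟩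
  · intro j hj
    exact (hpf ((a ^ j * g) • x0) (tt j) ((hsingle j hj).trans hc2δ)).2.1
  · have h1 := hJ n le_rfl
    have h2 : ∑ l ∈ Finset.range n, |tt l| ≤ 1 := by
      refine le_trans ?_ (hall.trans hc21)
      exact Finset.sum_le_sum_of_subset_of_nonneg
        (Finset.range_subset_range.mpr (by omega)) (fun i _ _ => abs_nonneg _)
    have h3 : C * (|t| + ∑ l ∈ Finset.range n, |tt l|) ≤ 2 * C := by nlinarith
    rw [abs_le] at h1
    linarith [h1.1]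

/-- (P1).  `a = D θ`, `x_j = a^j g x0`, `b_j = J(a^j g, x0)`.  Put `Y_0 = η⁻¹ g` with `g • cur x0 t = η • cur (g x0) t_0` (`loc` for the compact set `Bl ρ'`), and inductively (`loc` for
`Q = {a}`) `a • cur x_j t_j = η_j • cur x_{j+1} t_{j+1}`, `Y_{j+1} = η_j⁻¹ a Y_j`, so `Y_j • y = cur x_j t_j`, `y = cur x0 t`.  `w(x_j)|t_j| ≤ b_j w(x0)|t| exp(C(|t| + ∑_{l<j}|t_l|))`, so by
induction `|t_j| ≤ C' r b_j` and `∑|t_j| ≤ C' c2` (at most `1`), `nd η_j ≤ C|t_j|`.  `shadow` with `ζ_j = η_j⁻¹` gives `q` with `a^j q Y_0 = δ_j Y_j`; `g0 := q Y_0`.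
For `k ∈ Kn θ n ρ2`: `a^j k g0 y = (a^j k a^{-j}) δ_j (cur x_j t_j)` is near `x_j` (`small_move`, `cur_close`).  `J(a^n k g0,y) = J(a^nka^{-n}δ_n, ·) J(Y_n,y)`,
`J(Y_n,y) = J(Y_0,y) ∏ J(η_j⁻¹a, cur x_j t_j)`, `b_n = J(g,x0) ∏ J(a,x_j)`; compare by the last clause of `loc`. -/
theorem sh_P1 {S : FB X} (T : TN S) (θ : ℝ × ℝ) (hθ : Reg θ) (ρ ε1 : ℝ) (hρ : 0 < ρ)
    (hε1 : 0 < ε1) :
    ∃ ρ' : ℝ, 0 < ρ' ∧ ∃ ρ2 : ℝ, 0 < ρ2 ∧ ∃ c2 : ℝ, 0 < c2 ∧ ∃ r0 : ℝ, 0 < r0 ∧ r0 ≤ 1 / 4 ∧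
      ∃ C2 : ℝ, 0 < C2 ∧
      ∀ (x0 : X) (n : ℕ) (r t : ℝ), 0 < r → r ≤ r0 → |t| < r → ∀ g ∈ Bl ρ',
        r * ∑ j ∈ Finset.range (n + 1), T.J ((D θ) ^ j * g) x0 ≤ c2 →
        ∃ g0 : G, ∀ k ∈ Kn θ n ρ2, k * g0 ∈ Bl ρ ∧
          (∀ j, j ≤ n → dist (((D θ) ^ j * g) • x0)
            (((D θ) ^ j * (k * g0)) • S.cur x0 t) ≤ ε1) ∧
          T.J ((D θ) ^ n * g) x0 ≤ C2 * T.J ((D θ) ^ n * (k * g0)) (S.cur x0 t) := by
  obtain ⟨Cw, hCw, hw⟩ := T.w_bound
  obtain ⟨δ1, hδ1, hδ1', C1, hC1, hl1⟩ := T.loc (isCompact_Bl 1)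
  obtain ⟨δa, hδa, hδa', Ca, hCa, hla⟩ := T.loc (Q := {D θ}) isCompact_singleton
  obtain ⟨c0, hc0, Cs, hCs, hsh⟩ := shadow θ hθ
  obtain ⟨ρm, hρm, hmv⟩ := small_move (X := X) (ε1 / 2) (by positivity)
  obtain ⟨δc, hδc, hδc', hcc⟩ := S.cur_close (ε1 / 2) (by positivity)
  obtain ⟨CJ, hCJ, hJb⟩ := T.J_bound (isCompact_Bl 1)
  set C : ℝ := max C1 Ca with hCdef
  have hC1C : C1 ≤ C := le_max_left _ _
  have hCaC : Ca ≤ C := le_max_right _ _
  have hC : 1 ≤ C := hC1.trans hC1C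
  set K : ℝ := Cw ^ 2 * Real.exp (2 * C) with hKdef
  have hKpos : 0 < K := by positivity
  -- the smallness parameter
  set u : ℝ := min (1 / 3) (min (ρ / 15) (ρm / 3)) with hu
  have hu0 : 0 < u := by
    rw [hu]
    refine lt_min (by norm_num) (lt_min (by positivity) (by positivity))
  have hu1 : u ≤ 1 / 3 := min_le_left _ _
  have hu2 : u ≤ ρ / 15 := (min_le_right _ _).trans (min_le_left _ _)
  have hu3 : u ≤ ρm / 3 := (min_le_right _ _).trans (min_le_right _ _)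
  -- the bound for `K * c2`
  set m : ℝ := min (min δa (min δc 1)) (min (1 / (2 * C)) (min (c0 / (2 * C)) (u / (2 * C * Cs))))
    with hm
  have hm0 : 0 < m := by
    rw [hm]
    refine lt_min (lt_min hδa (lt_min hδc one_pos)) (lt_min (by positivity)
      (lt_min (by positivity) (by positivity)))
  have hm1 : m ≤ δa := (min_le_left _ _).trans (min_le_left _ _)
  have hm2 : m ≤ δc := (min_le_left _ _).trans ((min_le_right _ _).trans (min_le_left _ _))
  have hm3 : m ≤ 1 := (min_le_left _ _).trans ((min_le_right _ _).trans (min_le_right _ _))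
  have hm4 : m ≤ 1 / (2 * C) := (min_le_right _ _).trans (min_le_left _ _)
  have hm5 : m ≤ c0 / (2 * C) :=
    (min_le_right _ _).trans ((min_le_right _ _).trans (min_le_left _ _))
  have hm6 : m ≤ u / (2 * C * Cs) :=
    (min_le_right _ _).trans ((min_le_right _ _).trans (min_le_right _ _))
  have hCpos : 0 < C := by linarith
  have hm4' : C * m ≤ 1 / 2 := by
    rw [le_div_iff₀ (by positivity)] at hm4
    linarith
  have hm5' : 2 * C * m ≤ c0 := by
    rw [le_div_iff₀ (by positivity)] at hm5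
    linarith
  have hm6' : Cs * (2 * C * m) ≤ u := by
    rw [le_div_iff₀ (by positivity)] at hm6
    linarith
  have hKc : K * (m / K) = m := by field_simp
  set r0 : ℝ := min (min (1 / 4) δ1) (min (1 / (2 * C)) (u / (2 * C))) with hr0
  have hr00 : 0 < r0 := by
    rw [hr0]
    refine lt_min (lt_min (by norm_num) hδ1) (lt_min (by positivity) (by positivity))
  have hr01 : r0 ≤ 1 / 4 := (min_le_left _ _).trans (min_le_left _ _)
  have hr02 : r0 ≤ δ1 := (min_le_left _ _).trans (min_le_right _ _)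
  have hr03 : C * r0 ≤ 1 / 2 := by
    have : r0 ≤ 1 / (2 * C) := (min_le_right _ _).trans (min_le_left _ _)
    rw [le_div_iff₀ (by positivity)] at this
    linarith
  have hr04 : 2 * C * r0 ≤ u := by
    have : r0 ≤ u / (2 * C) := (min_le_right _ _).trans (min_le_right _ _)
    rw [le_div_iff₀ (by positivity)] at this
    linarith
  refine ⟨u, hu0, u, hu0, m / K, by positivity, r0, hr00, hr01, Real.exp (2 * C) * CJ,
    by positivity, ?_⟩
  intro x0 n r t hr hrr0 ht g hg hsum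
  have hgu : nd g ≤ u := hg
  have ht0 : 0 ≤ |t| := abs_nonneg t
  have htr0 : |t| ≤ r0 := ht.le.trans hrr0
  -- first step
  obtain ⟨η0, F0, _, e1, e2, _, e4, e5⟩ := hl1 g (show nd g ≤ 1 by linarith) x0 t
    (htr0.trans hr02)
  have hloc : ∀ (x : X) (s : ℝ), |s| ≤ δa →
      ∃ (η : G) (F : ℝ), (D θ) • S.cur x s = η • S.cur ((D θ) • x) F ∧
        nd η ≤ C * |s| ∧
        T.w ((D θ) • x) * |F| ≤ T.J (D θ) x * T.w x * |s| * Real.exp (C * |s|) ∧
        |Real.log (T.J (η⁻¹ * (D θ)) (S.cur x s)) - Real.log (T.J (D θ) x)| ≤ C * |s| := by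
    intro x s hs
    obtain ⟨η, F, _, f1, f2, _, f4, f5⟩ := hla (D θ) rfl x s hs
    have hs0 : 0 ≤ |s| := abs_nonneg s
    have hmono : Ca * |s| ≤ C * |s| := mul_le_mul_of_nonneg_right hCaC hs0
    refine ⟨η, F, f1, f2.trans hmono, f4.trans ?_, f5.trans hmono⟩
    refine mul_le_mul_of_nonneg_left (Real.exp_le_exp.mpr hmono) ?_
    exact mul_nonneg (mul_nonneg (T.J_pos _ _).le (T.w_pos _).le) hs0
  have hmono1 : C1 * |t| ≤ C * |t| := mul_le_mul_of_nonneg_right hC1C ht0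
  obtain ⟨tt, η, Y, hY0, hYs, hsg, hall, hpts, hη, hlog⟩ :=
    sha_orbit T (D θ) C Cw δa K hC hCw hKdef hw hloc x0 n r t (m / K) hr
      (hrr0.trans (hr01.trans (by norm_num))) ht g (by rw [hKc]; exact hm1)
      (by rw [hKc]; exact hm3) hsum η0 F0 e1
      (e4.trans (mul_le_mul_of_nonneg_left (Real.exp_le_exp.mpr hmono1)
        (mul_nonneg (mul_nonneg (T.J_pos _ _).le (T.w_pos _).le) ht0)))
      (e5.trans hmono1)
  rw [hKc] at hall
  simp only [hKc] at hsg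
  -- the sizes of the `η`
  have hη' : ∀ j, j < n → nd (η j)⁻¹ ≤ 2 * C * |tt j| := by
    intro j hj
    have h1 := hη j hj.le
    have h2 : nd (η j) ≤ 1 / 2 := by
      refine h1.trans (le_trans ?_ hm4')
      exact mul_le_mul_of_nonneg_left (hsg j hj.le) hCpos.le
    have h3 := nd_inv_le_of_small (η j) h2
    linarith
  have hsumη : ∑ j ∈ Finset.range n, nd (η j)⁻¹ ≤ 2 * C * m := by
    calc ∑ j ∈ Finset.range n, nd (η j)⁻¹ ≤ ∑ j ∈ Finset.range n, 2 * C * |tt j| :=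
          Finset.sum_le_sum fun j hj => hη' j (Finset.mem_range.mp hj)
      _ = 2 * C * ∑ j ∈ Finset.range n, |tt j| := by rw [← Finset.mul_sum]
      _ ≤ 2 * C * m := by
          refine mul_le_mul_of_nonneg_left ?_ (by positivity)
          refine le_trans ?_ hall
          exact Finset.sum_le_sum_of_subset_of_nonneg
            (Finset.range_subset_range.mpr (by omega)) (fun i _ _ => abs_nonneg _)
  obtain ⟨q, hq1, hq2⟩ := hsh n (fun j => (η j)⁻¹) Y (hsumη.trans hm5') (fun j _ => hYs j)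
  have hCs0 : 0 ≤ Cs := by linarith
  have hqu : nd q ≤ u := hq1.trans ((mul_le_mul_of_nonneg_left hsumη hCs0).trans hm6')
  have hη0 : nd η0⁻¹ ≤ u := by
    have h1 : nd η0 ≤ C * r0 := e2.trans ((mul_le_mul_of_nonneg_right hC1C ht0).trans
      (mul_le_mul_of_nonneg_left htr0 hCpos.le))
    have h2 := nd_inv_le_of_small η0 (h1.trans hr03)
    linarith
  refine ⟨q * Y 0, ?_⟩
  intro k hk
  have hk0 : nd k ≤ u := by
    have := hk 0 (Nat.zero_le _)
    simpa using this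
  -- the identity for the shadowing orbit
  have hid : ∀ j, j ≤ n → ∃ κ : G, nd κ ≤ 3 * u ∧
      (D θ) ^ j * (k * (q * Y 0)) = κ * Y j := by
    intro j hj
    obtain ⟨δ', hδ'1, hδ'2⟩ := hq2 j hj
    refine ⟨((D θ) ^ j * k * ((D θ) ^ j)⁻¹) * δ', ?_, ?_⟩
    · refine sha_nd2 _ _ u (hk j hj) ?_ hu0.le (by linarith)
      exact hδ'1.trans ((mul_le_mul_of_nonneg_left hsumη hCs0).trans hm6')
    · rw [mul_assoc _ δ' (Y j), ← hδ'2]
      group
  refine ⟨?_, ?_, ?_⟩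
  · change nd (k * (q * Y 0)) ≤ ρ
    rw [hY0]
    have := sha_nd4 k q η0⁻¹ g u hk0 hqu hη0 hgu hu0.le (by linarith)
    linarith
  · intro j hj
    obtain ⟨κ, hκ, hκe⟩ := hid j hj
    rw [hκe, mul_smul κ (Y j), hpts j hj]
    have h1 : dist (((D θ) ^ j * g) • x0) (S.cur (((D θ) ^ j * g) • x0) (tt j)) ≤ ε1 / 2 := by
      rw [dist_comm]
      exact hcc _ _ ((hsg j hj).trans hm2)
    have h2 : dist (S.cur (((D θ) ^ j * g) • x0) (tt j))
        (κ • S.cur (((D θ) ^ j * g) • x0) (tt j)) ≤ ε1 / 2 := by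
      rw [dist_comm]
      exact hmv _ _ (by linarith)
    linarith [dist_triangle (((D θ) ^ j * g) • x0) (S.cur (((D θ) ^ j * g) • x0) (tt j))
      (κ • S.cur (((D θ) ^ j * g) • x0) (tt j))]
  · obtain ⟨κ, hκ, hκe⟩ := hid n le_rfl
    rw [hκe, T.J_mul κ (Y n)]
    have h1 := (hJb κ (show nd κ ≤ 1 by linarith) (Y n • S.cur x0 t)).1
    have h2 : T.J ((D θ) ^ n * g) x0 ≤ Real.exp (2 * C) * T.J (Y n) (S.cur x0 t) := by
      rw [← Real.log_le_log_iff (T.J_pos _ _) (mul_pos (Real.exp_pos _) (T.J_pos _ _)),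
        Real.log_mul (Real.exp_pos _).ne' (T.J_pos _ _).ne', Real.log_exp]
      linarith
    refine h2.trans ?_
    have h3 : T.J (Y n) (S.cur x0 t) ≤ CJ * (T.J κ (Y n • S.cur x0 t) * T.J (Y n) (S.cur x0 t)) := by
      have h4 : 1 ≤ CJ * T.J κ (Y n • S.cur x0 t) := by
        have h5 : CJ * CJ⁻¹ ≤ CJ * T.J κ (Y n • S.cur x0 t) :=
          mul_le_mul_of_nonneg_left h1 (by linarith)
        rwa [mul_inv_cancel₀ (by linarith)] at h5
      have h6 := (T.J_pos (Y n) (S.cur x0 t)).le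
      nlinarith
    calc Real.exp (2 * C) * T.J (Y n) (S.cur x0 t)
        ≤ Real.exp (2 * C) * (CJ * (T.J κ (Y n • S.cur x0 t) * T.J (Y n) (S.cur x0 t))) :=
          mul_le_mul_of_nonneg_left h3 (Real.exp_pos _).le
      _ = _ := by ring

end Pool.Agent.H88.LF

end S_H88_LF_SHA

section S_H88_LF_SHB

/-!
# SHB: (P2) of blueprint section 5
-/

set_option autoImplicit false

open MeasureTheory Set Filter
open scoped Topology ENNReal

namespace Pool.Agent.H88.LF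

variable {X : Type} [MetricSpace X] [CompactSpace X] [MulAction G X] [ContinuousSMul G X]

/-- (P2).  With `k_j = a^j (g g2⁻¹) a^{-j}`, `z_j = a^j g2 x0`: `dist (k_j z_j) z_j ≤ 2 ε1`; `nd k_0 ≤ ρ_u` if `g,g2` are near `1`;
if `nd k_j ≤ ρ_u` then by `ulf_close` `nd k_j ≤ ε`, and `nd k_{j+1} ≤ nrm(a) nrm(a⁻¹) ε ≤ ρ_u`. -/
theorem sh_P2 (S : FB X) (θ : ℝ × ℝ) :
    ∃ ρ3 : ℝ, 0 < ρ3 ∧ ∃ r' : ℝ, 0 < r' ∧ ∃ ε1 : ℝ, 0 < ε1 ∧
      ∀ (x0 y : X) (n : ℕ) (g g2 g' : G), g ∈ Bl ρ3 → g2 ∈ Bl ρ3 →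
        (∀ j, j ≤ n → dist (((D θ) ^ j * g) • x0) (((D θ) ^ j * g') • y) ≤ ε1) →
        (∀ j, j ≤ n → dist (((D θ) ^ j * g2) • x0) (((D θ) ^ j * g') • y) ≤ ε1) →
        g * g2⁻¹ ∈ Kn θ n r' := by
  obtain ⟨ρu, hρu, hulf⟩ := S.ulf
  set a : G := D θ with ha
  set c : ℝ := nrm a.1 * nrm (a⁻¹).1 with hc
  have hc1 : 1 ≤ c := by
    have h1 := one_le_nrm a
    have h2 := one_le_nrm a⁻¹
    rw [hc]
    nlinarith
  have hc0 : 0 < c := lt_of_lt_of_le one_pos hc1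
  obtain ⟨ε', hε', hclose⟩ := ulf_close ρu hulf (ρu / c) (div_pos hρu hc0)
  refine ⟨min (1 / 2) (ρu / 6), lt_min (by norm_num) (by positivity), ρu, hρu, ε' / 2,
    by positivity, ?_⟩
  intro x0 y n g g2 g' hg hg2 h1 h2
  have hgn : nd g ≤ min (1 / 2) (ρu / 6) := hg
  have hg2n : nd g2 ≤ min (1 / 2) (ρu / 6) := hg2
  have hk0 : nd (g * g2⁻¹) ≤ ρu := by
    have e1 : nd g ≤ ρu / 6 := hgn.trans (min_le_right _ _)
    have e2 : nd g2 ≤ ρu / 6 := hg2n.trans (min_le_right _ _)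
    have e3 : nd g2 ≤ 1 / 2 := hg2n.trans (min_le_left _ _)
    have e4 := nd_inv_le_of_small g2 e3
    have e5 := nrm_le_nd g2⁻¹
    have e6 : nrm (g2⁻¹).1 ≤ 4 := by linarith
    have e7 := nd_mul_le g g2⁻¹
    have e8 : nd g * nrm (g2⁻¹).1 ≤ nd g * 4 := mul_le_mul_of_nonneg_left e6 (nd_nonneg g)
    linarith
  have key : ∀ j : ℕ, j ≤ n → nd (a ^ j * (g * g2⁻¹) * (a ^ j)⁻¹) ≤ ρu := by
    intro j
    induction j with
    | zero =>
      intro _
      simpa using hk0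
    | succ j ih =>
      intro hj
      have hj' : j ≤ n := by omega
      have e1 := ih hj'
      set kj : G := a ^ j * (g * g2⁻¹) * (a ^ j)⁻¹ with hkj
      have e2 : kj • ((a ^ j * g2) • x0) = (a ^ j * g) • x0 := by
        rw [smul_smul, hkj]
        congr 1
        group
      have e3 : dist (kj • ((a ^ j * g2) • x0)) ((a ^ j * g2) • x0) ≤ ε' := by
        rw [e2]
        have d1 := h1 j hj'
        have d2 := h2 j hj'
        have d3 := dist_triangle_right ((a ^ j * g) • x0) ((a ^ j * g2) • x0)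
          ((a ^ j * g') • y)
        linarith
      have e4 := hclose _ kj e1 e3
      have e5 : a ^ (j + 1) * (g * g2⁻¹) * (a ^ (j + 1))⁻¹ = a * kj * a⁻¹ := by
        rw [hkj, pow_succ']
        group
      rw [e5]
      refine (nd_conj_le a kj).trans ?_
      have e6 : nrm a.1 * nd kj * nrm (a⁻¹).1 = c * nd kj := by rw [hc]; ring
      rw [e6]
      calc c * nd kj ≤ c * (ρu / c) := mul_le_mul_of_nonneg_left e4 hc0.le
        _ = ρu := by field_simp
  exact key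

end Pool.Agent.H88.LF

end S_H88_LF_SHB

section S_H88_LF_SH

/-!
# SH: double counting (blueprint section 5)
-/

set_option autoImplicit false

open MeasureTheory Set Filter
open scoped Topology ENNReal

namespace Pool.Agent.H88.LF

variable {X : Type} [MetricSpace X] [CompactSpace X] [MulAction G X] [ContinuousSMul G X]

omit [CompactSpace X] [ContinuousSMul G X] in
/-- SH: continuity of the cocycle in the group element -/
theorem SH_contJ {S : FB X} (T : TN S) (x : X) : Continuous (fun g : G => T.J g x) := by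
  have h := S.rep_spec x
  have h1 : |S.rt x| < 1 := by linarith [h.2.1]
  unfold TN.J
  refine Continuous.div_const ?_ _
  have hc := T.cont (S.ri x)
  have hm : Continuous (fun g : G => ((g * S.rh x, S.rt x) : G × ℝ)) := by fun_prop
  exact hc.comp_continuous hm (fun _ => h1)

omit [CompactSpace X] [ContinuousSMul G X] in
theorem SH_posJ {S : FB X} (T : TN S) (g : G) (x : X) : 0 < T.J g x := by
  have h := S.rep_spec x
  have h1 : |S.rt x| < 1 := by linarith [h.2.1]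
  exact div_pos (T.pos _ _ _ h1) (T.pos _ _ _ h1)

/-- SH: the double counting argument, abstractly -/
theorem SH_count (f F : G → ℝ) (hf : Continuous f) (hF : Continuous F) (hF0 : ∀ g, 0 ≤ F g)
    (A B K K' : Set G) (hA : MeasurableSet A) (hB : MeasurableSet B)
    (hK' : MeasurableSet K')
    (R : Set (G × G)) (hR : MeasurableSet R) (C2 : ℝ) (hC2 : 0 < C2)
    (h1 : ∀ g ∈ A, ∃ g0 : G, ∀ k ∈ K, k * g0 ∈ B ∧ (g, k * g0) ∈ R ∧ f g ≤ C2 * F (k * g0))
    (h2 : ∀ g g2 g' : G, g ∈ A → g2 ∈ A → g' ∈ B → (g, g') ∈ R → (g2, g') ∈ R →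
      g * g2⁻¹ ∈ K')
    (hK : MeasurableSet K) :
    hG K * ∫⁻ g in A, ENNReal.ofReal (Real.sqrt (f g)) ∂hG ≤
      hG K' * (ENNReal.ofReal (Real.sqrt C2) *
        ∫⁻ g in B, ENNReal.ofReal (Real.sqrt (F g)) ∂hG) := by
  set S : Set (G × G) := {p | p.1 ∈ A ∧ p.2 ∈ B ∧ p ∈ R ∧ f p.1 ≤ C2 * F p.2} with hS
  have hSm : MeasurableSet S := by
    have e1 : MeasurableSet {p : G × G | p.1 ∈ A} := measurable_fst hA
    have e2 : MeasurableSet {p : G × G | p.2 ∈ B} := measurable_snd hB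
    have e3 : MeasurableSet {p : G × G | f p.1 ≤ C2 * F p.2} := by
      refine measurableSet_le (hf.measurable.comp measurable_fst) ?_
      exact (hF.measurable.comp measurable_snd).const_mul C2
    exact e1.inter (e2.inter (hR.inter e3))
  have hsq : Measurable (fun g => ENNReal.ofReal (Real.sqrt (f g))) :=
    (hf.measurable.sqrt).ennreal_ofReal
  have hsqF : Measurable (fun g => ENNReal.ofReal (Real.sqrt (F g))) :=
    (hF.measurable.sqrt).ennreal_ofReal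
  set h : G → G → ℝ≥0∞ := fun g g' =>
    S.indicator (fun p => ENNReal.ofReal (Real.sqrt (f p.1))) (g, g') with hh
  have hhm : Measurable (Function.uncurry h) := by
    have : Measurable (S.indicator (fun p : G × G => ENNReal.ofReal (Real.sqrt (f p.1)))) :=
      (hsq.comp measurable_fst).indicator hSm
    exact this
  have hswap : ∫⁻ g, ∫⁻ g', h g g' ∂hG ∂hG = ∫⁻ g', ∫⁻ g, h g g' ∂hG ∂hG :=
    lintegral_lintegral_swap hhm.aemeasurable
  -- lower bound
  have hlow : hG K * ∫⁻ g in A, ENNReal.ofReal (Real.sqrt (f g)) ∂hG ≤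
      ∫⁻ g, ∫⁻ g', h g g' ∂hG ∂hG := by
    rw [← lintegral_const_mul _ hsq, ← lintegral_indicator hA]
    refine lintegral_mono fun g => ?_
    by_cases hg : g ∈ A
    · rw [indicator_of_mem hg]
      obtain ⟨g0, hg0⟩ := h1 g hg
      have hpre : MeasurableSet ((fun x : G => x * g0⁻¹) ⁻¹' K) :=
        (measurable_mul_const g0⁻¹) hK
      calc hG K * ENNReal.ofReal (Real.sqrt (f g))
          = ENNReal.ofReal (Real.sqrt (f g)) * hG ((fun x : G => x * g0⁻¹) ⁻¹' K) := by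
            rw [measure_preimage_mul_right, mul_comm]
        _ = ∫⁻ g', ((fun x : G => x * g0⁻¹) ⁻¹' K).indicator
              (fun _ => ENNReal.ofReal (Real.sqrt (f g))) g' ∂hG := by
            rw [lintegral_indicator hpre, lintegral_const, Measure.restrict_apply_univ]
        _ ≤ ∫⁻ g', h g g' ∂hG := by
            refine lintegral_mono fun g' => ?_
            by_cases hg' : g' ∈ (fun x : G => x * g0⁻¹) ⁻¹' K
            · rw [indicator_of_mem hg']
              have h3 := hg0 _ hg'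
              simp only [inv_mul_cancel_right] at h3
              have hmem : ((g, g') : G × G) ∈ S := ⟨hg, h3.1, h3.2.1, h3.2.2⟩
              rw [hh]
              simp only
              rw [indicator_of_mem hmem]
            · rw [indicator_of_notMem hg']
              exact zero_le
    · rw [indicator_of_notMem hg]
      exact zero_le
  -- upper bound
  have hup : ∫⁻ g', ∫⁻ g, h g g' ∂hG ∂hG ≤ hG K' * (ENNReal.ofReal (Real.sqrt C2) *
        ∫⁻ g in B, ENNReal.ofReal (Real.sqrt (F g)) ∂hG) := by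
    rw [← lintegral_const_mul _ hsqF, ← lintegral_const_mul _ (hsqF.const_mul _),
      ← lintegral_indicator hB]
    refine lintegral_mono fun g' => ?_
    by_cases hg' : g' ∈ B
    · rw [indicator_of_mem hg']
      by_cases hne : ∃ g2, ((g2, g') : G × G) ∈ S
      · obtain ⟨g2, hg2⟩ := hne
        have hpre : MeasurableSet ((fun x : G => x * g2⁻¹) ⁻¹' K') :=
          (measurable_mul_const g2⁻¹) hK'
        calc ∫⁻ g, h g g' ∂hG ≤ ∫⁻ g, ((fun x : G => x * g2⁻¹) ⁻¹' K').indicator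
              (fun _ => ENNReal.ofReal (Real.sqrt (C2 * F g'))) g ∂hG := by
              refine lintegral_mono fun g => ?_
              by_cases hm : ((g, g') : G × G) ∈ S
              · have hk : g ∈ (fun x : G => x * g2⁻¹) ⁻¹' K' :=
                  h2 g g2 g' hm.1 hg2.1 hg' hm.2.2.1 hg2.2.2.1
                rw [hh]
                simp only
                rw [indicator_of_mem hm, indicator_of_mem hk]
                exact ENNReal.ofReal_le_ofReal (Real.sqrt_le_sqrt hm.2.2.2)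
              · rw [hh]
                simp only
                rw [indicator_of_notMem hm]
                exact zero_le
          _ = hG K' * (ENNReal.ofReal (Real.sqrt C2) * ENNReal.ofReal (Real.sqrt (F g'))) := by
              rw [lintegral_indicator hpre, lintegral_const, Measure.restrict_apply_univ,
                measure_preimage_mul_right, Real.sqrt_mul hC2.le, mul_comm,
                ENNReal.ofReal_mul (Real.sqrt_nonneg _)]
      · push Not at hne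
        have : ∫⁻ g, h g g' ∂hG = 0 := by
          rw [← lintegral_zero (α := G) (μ := hG)]
          refine lintegral_congr fun g => ?_
          rw [hh]
          simp only
          rw [indicator_of_notMem (hne g)]
        rw [this]
        exact zero_le
    · rw [indicator_of_notMem hg']
      have : ∫⁻ g, h g g' ∂hG = 0 := by
        rw [← lintegral_zero (α := G) (μ := hG)]
        refine lintegral_congr fun g => ?_
        rw [hh]
        simp only
        rw [indicator_of_notMem]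
        exact fun hm => hg' hm.2.1
      rw [this]
  exact hlow.trans (hswap.le.trans hup)

/-- SH: double counting of `{(g,g') : g ∈ Bl ρ' good, g' ∈ Bl ρ, dist ≤ ε1 for j ≤ n, J(a^n g,x0) ≤ C2 J(a^n g',y)}` (a closed condition in `(g,g')`):
the slice over a good `g` contains a right translate of `Kn θ n ρ2`, the slice over `g'` is contained in a right translate of `Kn θ n r'`, `Kn_volume`, Tonelli. -/
theorem sh {S : FB X} (T : TN S) (θ : ℝ × ℝ) (hθ : Reg θ) (ρ : ℝ) (hρ : 0 < ρ) :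
    ∃ ρ' : ℝ, 0 < ρ' ∧ ρ' ≤ ρ ∧ ∃ r0 : ℝ, 0 < r0 ∧ r0 ≤ 1 / 4 ∧ ∃ c2 : ℝ, 0 < c2 ∧
      ∃ C : ℝ, 0 < C ∧ ∀ (x0 : X) (n : ℕ) (r t : ℝ), 0 < r → r ≤ r0 → |t| < r →
      ∫⁻ g in {g | g ∈ Bl ρ' ∧ r * ∑ j ∈ Finset.range (n + 1), T.J ((D θ) ^ j * g) x0 ≤ c2},
        ENNReal.ofReal (Real.sqrt (T.J ((D θ) ^ n * g) x0)) ∂hG ≤
      ENNReal.ofReal C * ∫⁻ g in Bl ρ,
        ENNReal.ofReal (Real.sqrt (T.J ((D θ) ^ n * g) (S.cur x0 t))) ∂hG := by
  obtain ⟨ρ3, hρ3, r', hr', ε1, hε1, hP2⟩ := sh_P2 S θ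
  obtain ⟨ρ1, hρ1, ρ2, hρ2, c2, hc2, r0, hr0, hr04, C2, hC2, hP1⟩ := sh_P1 T θ hθ ρ ε1 hρ hε1
  obtain ⟨CV, hCV, hvol⟩ := Kn_volume θ ρ2 r' hρ2 hr'
  have hρ'pos : 0 < min ρ (min ρ1 ρ3) := lt_min hρ (lt_min hρ1 hρ3)
  refine ⟨min ρ (min ρ1 ρ3), hρ'pos, min_le_left _ _, r0, hr0, hr04, c2, hc2,
    CV * Real.sqrt C2, mul_pos hCV (Real.sqrt_pos.mpr hC2), ?_⟩
  intro x0 n r t hr hrr0 ht
  set y := S.cur x0 t with hy
  have hmulc : ∀ (j : ℕ), Continuous (fun g : G => (D θ) ^ j * g) := fun j =>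
    continuous_const.mul continuous_id
  have hcf : ∀ (x : X) (j : ℕ), Continuous (fun g : G => T.J ((D θ) ^ j * g) x) := fun x j =>
    (SH_contJ T x).comp (hmulc j)
  have hAm : MeasurableSet {g : G | g ∈ Bl (min ρ (min ρ1 ρ3)) ∧
      r * ∑ j ∈ Finset.range (n + 1), T.J ((D θ) ^ j * g) x0 ≤ c2} := by
    have hcl : IsClosed {g : G |
        r * ∑ j ∈ Finset.range (n + 1), T.J ((D θ) ^ j * g) x0 ≤ c2} := by
      refine isClosed_le (continuous_const.mul ?_) continuous_const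
      exact continuous_finsetSum _ fun j _ => hcf x0 j
    exact (measurableSet_Bl _).inter hcl.measurableSet
  have hRm : MeasurableSet {p : G × G | ∀ j, j ≤ n →
      dist (((D θ) ^ j * p.1) • x0) (((D θ) ^ j * p.2) • y) ≤ ε1} := by
    refine IsClosed.measurableSet ?_
    simp only [Set.ofPred_forall]
    refine isClosed_iInter fun j => isClosed_iInter fun _ => ?_
    refine isClosed_le ?_ continuous_const
    refine Continuous.dist ?_ ?_
    · exact ((hmulc j).comp continuous_fst).smul continuous_const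
    · exact ((hmulc j).comp continuous_snd).smul continuous_const
  have key := SH_count (fun g => T.J ((D θ) ^ n * g) x0) (fun g => T.J ((D θ) ^ n * g) y)
    (hcf x0 n) (hcf y n) (fun g => (SH_posJ T _ _).le)
    {g : G | g ∈ Bl (min ρ (min ρ1 ρ3)) ∧
      r * ∑ j ∈ Finset.range (n + 1), T.J ((D θ) ^ j * g) x0 ≤ c2} (Bl ρ)
    (Kn θ n ρ2) (Kn θ n r') hAm (measurableSet_Bl ρ)
    (isCompact_Kn θ n r').measurableSet
    {p : G × G | ∀ j, j ≤ n → dist (((D θ) ^ j * p.1) • x0) (((D θ) ^ j * p.2) • y) ≤ ε1}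
    hRm C2 hC2 ?_ ?_ (isCompact_Kn θ n ρ2).measurableSet
  · have hpos := hG_Kn_pos θ n ρ2 hρ2
    have hlt := hG_Kn_lt_top θ n ρ2
    set I := ∫⁻ g in {g : G | g ∈ Bl (min ρ (min ρ1 ρ3)) ∧
      r * ∑ j ∈ Finset.range (n + 1), T.J ((D θ) ^ j * g) x0 ≤ c2},
        ENNReal.ofReal (Real.sqrt (T.J ((D θ) ^ n * g) x0)) ∂hG with hI
    set I' := ∫⁻ g in Bl ρ, ENNReal.ofReal (Real.sqrt (T.J ((D θ) ^ n * g) y)) ∂hG with hI'
    have h3 : hG (Kn θ n ρ2) * I ≤
        hG (Kn θ n ρ2) * (ENNReal.ofReal (CV * Real.sqrt C2) * I') := by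
      refine key.trans ?_
      calc hG (Kn θ n r') * (ENNReal.ofReal (Real.sqrt C2) * I')
          ≤ (ENNReal.ofReal CV * hG (Kn θ n ρ2)) * (ENNReal.ofReal (Real.sqrt C2) * I') := by
            gcongr
            exact hvol n
        _ = hG (Kn θ n ρ2) * (ENNReal.ofReal (CV * Real.sqrt C2) * I') := by
            rw [ENNReal.ofReal_mul hCV.le]; ring
    exact (ENNReal.mul_le_mul_iff_right hpos.ne' hlt.ne).mp h3
  · rintro g ⟨hg1, hg2⟩
    have hg1' : g ∈ Bl ρ1 := Bl_mono ((min_le_right _ _).trans (min_le_left _ _)) hg1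
    obtain ⟨g0, hg0⟩ := hP1 x0 n r t hr hrr0 ht g hg1' hg2
    refine ⟨g0, fun k hk => ?_⟩
    obtain ⟨a1, a2, a3⟩ := hg0 k hk
    exact ⟨a1, a2, a3⟩
  · rintro g g2 g' ⟨hg1, -⟩ ⟨hg2, -⟩ hg' hR1 hR2
    have hle : min ρ (min ρ1 ρ3) ≤ ρ3 := (min_le_right _ _).trans (min_le_right _ _)
    exact hP2 x0 y n g g2 g' (Bl_mono hle hg1) (Bl_mono hle hg2) hR1 hR2

end Pool.Agent.H88.LF

end S_H88_LF_SH
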