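import Mathlib
import Pool.Agent.H88.LG.M00
import Pool.Agent.H88.LG.M03
import Pool.Agent.H88.LG.M04
import Pool.Agent.H88.LG.M07

set_option autoImplicit false

/-! Locally free actions of SL(3,R) on compact 9-manifolds, file M08: this file joins several modules to save build time. -/

section S_H88_LF_STARA

/-!
# STARA (blueprint section 4)
-/

set_option autoImplicit false

open MeasureTheory Set Filter
open scoped Topology ENNReal

namespace Pool.Agent.H88.LF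

section STARA

variable {Y : Type} [MeasurableSpace Y] {μ : Measure Y}

/-- Functions vanishing almost everywhere outside `Ω`. -/
noncomputable def STARA_K (μ : Measure Y) (Ω : Set Y) : Submodule ℂ (Lp ℂ 2 μ) :=
  (LpToLpRestrictCLM Y ℂ ℂ μ 2 Ωᶜ).ker

theorem STARA_mem_K {Ω : Set Y} (hΩ : MeasurableSet Ω) (φ : Lp ℂ 2 μ) :
    φ ∈ STARA_K μ Ω ↔ ∀ᵐ y ∂μ, y ∉ Ω → (φ : Y → ℂ) y = 0 := by
  have h1 := LpToLpRestrictCLM_coeFn (𝕜 := ℂ) (p := 2) Ωᶜ φ
  change _ ↔ ∀ᵐ y ∂μ, y ∈ Ωᶜ → (φ : Y → ℂ) y = 0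
  rw [← ae_restrict_iff' hΩ.compl]
  constructor
  · intro h
    have h0 : LpToLpRestrictCLM Y ℂ ℂ μ 2 Ωᶜ φ = 0 := h
    rw [h0] at h1
    have h2 := Lp.coeFn_zero (E := ℂ) (p := 2) (μ := μ.restrict Ωᶜ)
    filter_upwards [h1, h2] with y hy1 hy2
    rw [← hy1, hy2]
    rfl
  · intro h
    change LpToLpRestrictCLM Y ℂ ℂ μ 2 Ωᶜ φ = 0
    apply Lp.ext
    have h2 := Lp.coeFn_zero (E := ℂ) (p := 2) (μ := μ.restrict Ωᶜ)
    filter_upwards [h1, h2, h] with y hy1 hy2 hy3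
    rw [hy1, hy2, hy3]
    rfl

theorem STARA_closed_K (Ω : Set Y) : IsClosed (STARA_K μ Ω : Set (Lp ℂ 2 μ)) :=
  (LpToLpRestrictCLM Y ℂ ℂ μ 2 Ωᶜ).isClosed_ker

end STARA

variable {X : Type} [MetricSpace X] [CompactSpace X] [MulAction G X] [ContinuousSMul G X]
  [MeasurableSpace X] [BorelSpace X]

theorem STARA_inv_K {μ : Measure X} (d : KD X μ) (R : URep (Lp ℂ 2 μ)) (hR : d.IsKoop R)
    (Ω : Set X) (hΩ : MeasurableSet Ω) (hinv : ∀ (g : G), ∀ x ∈ Ω, g • x ∈ Ω) (g : G)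
    (φ : Lp ℂ 2 μ) (hφ : φ ∈ STARA_K μ Ω) : R.π g φ ∈ STARA_K μ Ω := by
  rw [STARA_mem_K hΩ] at hφ ⊢
  have h1 := (KOOP_qmp d g).ae hφ
  filter_upwards [h1, hR g φ] with y hy1 hy2 hy
  rw [hy2, hy1 (fun hc => hy ?_), mul_zero]
  have := hinv g _ hc
  rwa [smul_inv_smul] at this

/-- The matrix coefficient as an integral, and its lower bound. -/
theorem STARA_coef {S : FB X} {T : TN S} {μ : Measure X} (hμ : T.IsMu μ) (R : URep (Lp ℂ 2 μ))
    (hR : hμ.kd.IsKoop R) (Q : Set G) (hQi : ∀ q ∈ Q, q⁻¹ ∈ Q) (C1 : ℝ) (hC1 : 1 ≤ C1)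
    (hJ : ∀ q ∈ Q, ∀ x : X, C1⁻¹ ≤ T.J q x ∧ T.J q x ≤ C1)
    (Ω : Set X) (hΩ : MeasurableSet Ω) (hinv : ∀ (g : G), ∀ x ∈ Ω, g • x ∈ Ω)
    (v : ℝ × ℝ) (Box B : Set X) (hBox : MeasurableSet Box) (hB : MeasurableSet B)
    (hBΩ : B ⊆ Ω) (hBB : ∀ q ∈ Q, ∀ x ∈ Box, q • x ∈ B) (k k' : G) (hk : k ∈ Q) (hk' : k' ∈ Q)
    (hΩf : μ Ω ≠ ⊤) (hBf : μ B ≠ ⊤) :
    ∃ r : ℝ, C1⁻¹ * ∫ y in Box, Real.sqrt (T.J (D v) y) ∂μ ≤ r ∧
      inner ℂ (R.π k' (indicatorConstLp 2 hB hBf (1 : ℂ)))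
        (R.π (D (-v) * k) (indicatorConstLp 2 hΩ hΩf (1 : ℂ))) = (r : ℂ) := by
  have := hμ.1
  set φ : Lp ℂ 2 μ := indicatorConstLp 2 hΩ hΩf (1 : ℂ) with hφ
  set ψ : Lp ℂ 2 μ := indicatorConstLp 2 hB hBf (1 : ℂ) with hψ
  have hinv' : ∀ (g : G) (x : X), g • x ∈ Ω → x ∈ Ω := by
    intro g x hx
    have := hinv g⁻¹ _ hx
    rwa [inv_smul_smul] at this
  have eD : (D (-v) * k)⁻¹ = k⁻¹ * D v := by
    rw [D_neg, mul_inv_rev, inv_inv]
  -- the real integrand
  set f : X → ℝ := fun y => B.indicator (fun _ => (1:ℝ)) (k'⁻¹ • y) *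
    (Real.sqrt (T.J k'⁻¹ y) * Real.sqrt (T.J (k⁻¹ * D v) y)) with hf
  have h1 : ∀ᵐ y ∂μ, (ψ : X → ℂ) (k'⁻¹ • y) = B.indicator (fun _ => (1:ℂ)) (k'⁻¹ • y) :=
    (KOOP_qmp hμ.kd k').ae (indicatorConstLp_coeFn (hs := hB) (hμs := hBf) (c := (1:ℂ)) (p := 2))
  have h2 : ∀ᵐ y ∂μ, (φ : X → ℂ) ((D (-v) * k)⁻¹ • y) =
      Ω.indicator (fun _ => (1:ℂ)) ((D (-v) * k)⁻¹ • y) :=
    (KOOP_qmp hμ.kd (D (-v) * k)).ae
      (indicatorConstLp_coeFn (hs := hΩ) (hμs := hΩf) (c := (1:ℂ)) (p := 2))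
  have h3 := hR k' ψ
  have h4 := hR (D (-v) * k) φ
  have hin : inner ℂ (R.π k' ψ) (R.π (D (-v) * k) φ) = ∫ y, ((f y : ℝ) : ℂ) ∂μ := by
    rw [L2.inner_def]
    apply integral_congr_ae
    filter_upwards [h1, h2, h3, h4] with y e1 e2 e3 e4
    rw [e3, e4, e1, e2, eD]
    have eJ : ∀ g : G, hμ.kd.J g y = T.J g y := fun g => rfl
    rw [eJ, eJ]
    by_cases hy : k'⁻¹ • y ∈ B
    · have hyΩ : (k⁻¹ * D v) • y ∈ Ω := hinv _ _ (hinv' _ _ (hBΩ hy))
      simp only [hf, indicator_of_mem hy, indicator_of_mem hyΩ, mul_one, one_mul,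
        Complex.ofReal_mul]
      rw [RCLike.inner_apply, Complex.conj_ofReal, mul_comm]
    · simp only [hf, indicator_of_notMem hy, mul_zero, zero_mul, Complex.ofReal_zero,
        inner_zero_left]
  refine ⟨∫ y, f y ∂μ, ?_, by rw [hin, integral_complex_ofReal]⟩
  have hcJ : ∀ g : G, Continuous (fun y => Real.sqrt (T.J g y)) := fun g =>
    Real.continuous_sqrt.comp (T.continuous_J.comp (Continuous.prodMk_right g))
  have hcont2 : Continuous (fun y => Real.sqrt (T.J k'⁻¹ y) * Real.sqrt (T.J (k⁻¹ * D v) y)) :=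
    (hcJ _).mul (hcJ _)
  have hcompint : ∀ F : X → ℝ, Continuous F → Integrable F μ := by
    intro F hF
    exact (hF.integrable_of_hasCompactSupport (HasCompactSupport.of_compactSpace F))
  have hpre : MeasurableSet ((fun y : X => k'⁻¹ • y) ⁻¹' B) := KOOP_meas_smul _ hB
  have hfi : f = ((fun y : X => k'⁻¹ • y) ⁻¹' B).indicator
      (fun y => Real.sqrt (T.J k'⁻¹ y) * Real.sqrt (T.J (k⁻¹ * D v) y)) := by
    funext y
    by_cases hy : k'⁻¹ • y ∈ B
    · rw [indicator_of_mem (show y ∈ (fun y : X => k'⁻¹ • y) ⁻¹' B from hy)]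
      simp only [hf, indicator_of_mem hy, one_mul]
    · rw [indicator_of_notMem (show y ∉ (fun y : X => k'⁻¹ • y) ⁻¹' B from hy)]
      simp only [hf, indicator_of_notMem hy, zero_mul]
  rw [hfi, integral_indicator hpre, ← integral_const_mul]
  have hsub : Box ⊆ (fun y : X => k'⁻¹ • y) ⁻¹' B := fun x hx => hBB _ (hQi _ hk') x hx
  calc ∫ y in Box, C1⁻¹ * Real.sqrt (T.J (D v) y) ∂μ
      ≤ ∫ y in Box, Real.sqrt (T.J k'⁻¹ y) * Real.sqrt (T.J (k⁻¹ * D v) y) ∂μ := by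
        apply setIntegral_mono_on _ _ hBox _
        · exact ((hcompint _ (hcJ _)).const_mul _).integrableOn
        · exact (hcompint _ hcont2).integrableOn
        · intro y _
          rw [T.J_mul, Real.sqrt_mul (T.J_pos _ _).le, ← mul_assoc]
          apply mul_le_mul_of_nonneg_right _ (Real.sqrt_nonneg _)
          rw [← Real.sqrt_mul (T.J_pos _ _).le]
          apply Real.le_sqrt_of_sq_le
          have a1 := (hJ _ (hQi _ hk') y).1
          have a2 := (hJ _ (hQi _ hk) (D v • y)).1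
          have : 0 < C1⁻¹ := by positivity
          calc C1⁻¹ ^ 2 = C1⁻¹ * C1⁻¹ := sq _
            _ ≤ _ := mul_le_mul a1 a2 this.le (T.J_pos _ _).le
    _ ≤ ∫ y in (fun y : X => k'⁻¹ • y) ⁻¹' B,
        Real.sqrt (T.J k'⁻¹ y) * Real.sqrt (T.J (k⁻¹ * D v) y) ∂μ := by
        apply setIntegral_mono_set (hcompint _ hcont2).integrableOn
        · exact Eventually.of_forall fun y => mul_nonneg (Real.sqrt_nonneg _) (Real.sqrt_nonneg _)
        · exact hsub.eventuallyLE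

/-- Averages of a function with real values bounded below. -/
theorem STARA_avg (F : ℝ → ℝ → ℂ) (hFc : Continuous (fun p : ℝ × ℝ => F p.1 p.2)) (c M : ℝ)
    (hc : 0 ≤ c) (hcoef : ∀ θ' θ : ℝ, ∃ r : ℝ, c ≤ r ∧ F θ' θ = (r : ℂ))
    (hM : ‖∫ θ' in (0:ℝ)..(2 * Real.pi), ∫ θ in (0:ℝ)..(2 * Real.pi), F θ' θ‖ ≤ M) : c ≤ M := by
  obtain ⟨r, hr⟩ : ∃ r : ℝ → ℝ → ℝ, ∀ θ' θ, c ≤ r θ' θ ∧ F θ' θ = ((r θ' θ : ℝ) : ℂ) :=
    ⟨fun θ' θ => (hcoef θ' θ).choose, fun θ' θ => (hcoef θ' θ).choose_spec⟩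
  have hrc : Continuous (fun p : ℝ × ℝ => r p.1 p.2) := by
    have : (fun p : ℝ × ℝ => r p.1 p.2) = fun p : ℝ × ℝ => (F p.1 p.2).re := by
      funext p
      rw [(hr p.1 p.2).2, Complex.ofReal_re]
    rw [this]
    exact Complex.continuous_re.comp hFc
  have hrc1 : ∀ θ', Continuous (fun θ => r θ' θ) := fun θ' =>
    hrc.comp (Continuous.prodMk_right θ')
  have hpi : (0:ℝ) ≤ 2 * Real.pi := by positivity
  have hint1 : ∀ θ', (2 * Real.pi) * c ≤ ∫ θ in (0:ℝ)..(2 * Real.pi), r θ' θ := by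
    intro θ'
    have := intervalIntegral.integral_mono_on (a := 0) (b := 2 * Real.pi) hpi
      (f := fun _ => c) (g := fun θ => r θ' θ) (μ := volume)
      (continuous_const.intervalIntegrable _ _) ((hrc1 θ').intervalIntegrable _ _)
      (fun θ _ => (hr θ' θ).1)
    rw [intervalIntegral.integral_const, smul_eq_mul, sub_zero] at this
    exact this
  have hrc2 : Continuous (fun θ' => ∫ θ in (0:ℝ)..(2 * Real.pi), r θ' θ) :=
    intervalIntegral.continuous_parametric_intervalIntegral_of_continuous' hrc 0 (2 * Real.pi)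
  have hint2 : (2 * Real.pi) * ((2 * Real.pi) * c) ≤
      ∫ θ' in (0:ℝ)..(2 * Real.pi), ∫ θ in (0:ℝ)..(2 * Real.pi), r θ' θ := by
    have := intervalIntegral.integral_mono_on (a := 0) (b := 2 * Real.pi) hpi
      (f := fun _ => (2 * Real.pi) * c)
      (g := fun θ' => ∫ θ in (0:ℝ)..(2 * Real.pi), r θ' θ) (μ := volume)
      (continuous_const.intervalIntegrable _ _) (hrc2.intervalIntegrable _ _)
      (fun θ' _ => hint1 θ')
    rw [intervalIntegral.integral_const, smul_eq_mul, sub_zero] at this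
    exact this
  have hFr : ∫ θ' in (0:ℝ)..(2 * Real.pi), ∫ θ in (0:ℝ)..(2 * Real.pi), F θ' θ =
      ((∫ θ' in (0:ℝ)..(2 * Real.pi), ∫ θ in (0:ℝ)..(2 * Real.pi), r θ' θ : ℝ) : ℂ) := by
    have e1 : ∀ θ', ∫ θ in (0:ℝ)..(2 * Real.pi), F θ' θ =
        ((∫ θ in (0:ℝ)..(2 * Real.pi), r θ' θ : ℝ) : ℂ) := by
      intro θ'
      rw [← intervalIntegral.integral_ofReal]
      congr 1
      funext θ
      exact (hr θ' θ).2
    rw [← intervalIntegral.integral_ofReal]
    congr 1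
    funext θ'
    exact e1 θ'
  rw [hFr, Complex.norm_real] at hM
  have hp : 1 ≤ 2 * Real.pi := by linarith [Real.pi_gt_three]
  have h7 := le_trans hint2 (le_trans (le_abs_self _) hM)
  have h8 : c ≤ (2 * Real.pi) * ((2 * Real.pi) * c) := by
    have h9 : c ≤ (2 * Real.pi) * c := by nlinarith
    have h10 : (2 * Real.pi) * c ≤ (2 * Real.pi) * ((2 * Real.pi) * c) := by nlinarith
    exact h9.trans h10
  exact h8.trans h7

/-- The bound for real integrals. -/
theorem STARA_real {S : FB X} {T : TN S} {μ : Measure X} (hμ : T.IsMu μ) (R : URep (Lp ℂ 2 μ))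
    (hR : hμ.kd.IsKoop R) (Q : Set G) (hQi : ∀ q ∈ Q, q⁻¹ ∈ Q)
    (hQr : ∀ (i l : Fin 3) (h : i ≠ l) (θ : ℝ), rot i l h θ ∈ Q) (C1 : ℝ) (hC1 : 1 ≤ C1)
    (hJ : ∀ q ∈ Q, ∀ x : X, C1⁻¹ ≤ T.J q x ∧ T.J q x ≤ C1)
    (Ω : Set X) (hΩ : MeasurableSet Ω) (hinv : ∀ (g : G), ∀ x ∈ Ω, g • x ∈ Ω) (hniv : NIV R Ω)
    (v : ℝ × ℝ) (Box B : Set X) (hBox : MeasurableSet Box) (hB : MeasurableSet B)
    (hBΩ : B ⊆ Ω) (hBB : ∀ q ∈ Q, ∀ x ∈ Box, q • x ∈ B)
    (hΩf : μ Ω ≠ ⊤) (hBf : μ B ≠ ⊤) :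
    C1⁻¹ * ∫ y in Box, Real.sqrt (T.J (D v) y) ∂μ ≤
      1000 * Real.exp (-‖v‖ / 4) * ‖(indicatorConstLp 2 hΩ hΩf (1 : ℂ) : Lp ℂ 2 μ)‖ *
        ‖(indicatorConstLp 2 hB hBf (1 : ℂ) : Lp ℂ 2 μ)‖ := by
  obtain ⟨i, l, hil, hv⟩ := exists_pair v
  have hφK : (indicatorConstLp 2 hΩ hΩf (1 : ℂ) : Lp ℂ 2 μ) ∈ STARA_K μ Ω := by
    rw [STARA_mem_K hΩ]
    filter_upwards [indicatorConstLp_coeFn (hs := hΩ) (hμs := hΩf) (c := (1:ℂ)) (p := 2)]
      with y hy hyn
    rw [hy, indicator_of_notMem hyn]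
  have hψK : (indicatorConstLp 2 hB hBf (1 : ℂ) : Lp ℂ 2 μ) ∈ STARA_K μ Ω := by
    rw [STARA_mem_K hΩ]
    filter_upwards [indicatorConstLp_coeFn (hs := hB) (hμs := hBf) (c := (1:ℂ)) (p := 2)]
      with y hy hyn
    rw [hy, indicator_of_notMem (fun hc => hyn (hBΩ hc))]
  have hdec := dec R (STARA_K μ Ω) (STARA_closed_K Ω)
    (fun g φ hφ => STARA_inv_K hμ.kd R hR Ω hΩ hinv g φ hφ)
    (fun φ hφ hg => hniv φ hg ((STARA_mem_K hΩ φ).1 hφ)) i l hil (-v) _ _ hφK hψK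
  have hcmp : |cmp (-v) i - cmp (-v) l| = |cmp v i - cmp v l| := by
    rw [cmp_neg, cmp_neg, ← abs_neg]
    congr 1
    ring
  have hexp : Real.exp (-|cmp (-v) i - cmp (-v) l| / 4) ≤ Real.exp (-‖v‖ / 4) := by
    rw [hcmp]
    apply Real.exp_le_exp.2
    linarith
  refine STARA_avg (fun θ' θ => inner ℂ
    (R.π (rot i l hil θ') (indicatorConstLp 2 hB hBf (1 : ℂ)))
    (R.π (D (-v) * rot i l hil θ) (indicatorConstLp 2 hΩ hΩf (1 : ℂ)))) ?_ _ _ ?_ ?_
    (le_trans hdec ?_)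
  · apply Continuous.inner
    · exact (R.cont _).comp ((continuous_rot i l hil).comp continuous_fst)
    · exact (R.cont _).comp (continuous_const.mul ((continuous_rot i l hil).comp continuous_snd))
  · exact mul_nonneg (by positivity) (integral_nonneg fun _ => Real.sqrt_nonneg _)
  · intro θ' θ
    exact STARA_coef hμ R hR Q hQi C1 hC1 hJ Ω hΩ hinv v Box B hBox hB hBΩ hBB
      (rot i l hil θ) (rot i l hil θ') (hQr _ _ _ _) (hQr _ _ _ _) hΩf hBf
  · gcongr

/-- STAR: `Box'` contains `Q • Box` for a compact symmetric `Q` with all rotations.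
Proof.  Replace `Box'` by `Box' ∩ Ω`.  Choose `(i,l)` with `‖v‖ ≤ |cmp v i - cmp v l|` (`exists_pair`), apply `dec` with
`K = {φ : φ = 0 a.e. outside Ω}`, the vector `D (-v)`, `φ = 1_Ω`, `ψ = 1_{Box'}`.  Pointwise in `θ,θ'`, with `k = rot θ`, `k' = rot θ'`:
`⟪π(k')ψ, π(D(-v)k)φ⟫ = ∫_{k'Box'} √(J(k'⁻¹,y)) √(J(k⁻¹D(v),y)) dμ(y) ≥ c ∫_Box √(J(D v,y)) dμ(y)`
(`J` bounded on `Q`; `Box ⊆ k'Box'`).  Integrate over `θ,θ'`. -/
theorem star {S : FB X} {T : TN S} {μ : Measure X} (hμ : T.IsMu μ) (R : URep (Lp ℂ 2 μ))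
    (hR : hμ.kd.IsKoop R) (Q : Set G) (hQ : IsCompact Q) (hQi : ∀ q ∈ Q, q⁻¹ ∈ Q)
    (hQr : ∀ (i l : Fin 3) (h : i ≠ l) (θ : ℝ), rot i l h θ ∈ Q) :
    ∃ C : ℝ, 0 < C ∧ ∀ (Ω : Set X), MeasurableSet Ω → (∀ (g : G), ∀ x ∈ Ω, g • x ∈ Ω) →
      NIV R Ω → ∀ (v : ℝ × ℝ) (Box Box' : Set X), MeasurableSet Box → MeasurableSet Box' →
      Box ⊆ Ω → (∀ q ∈ Q, ∀ x ∈ Box, q • x ∈ Box') →
      ∫⁻ z in Box, ENNReal.ofReal (Real.sqrt (T.J (D v) z)) ∂μ ≤
        ENNReal.ofReal (C * Real.exp (-‖v‖ / 4) * Real.sqrt (μ.real Box')) := by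
  have := hμ.1
  obtain ⟨C1, hC1, hJ⟩ := T.J_bound hQ
  have hC1' : 0 < C1 := by linarith
  refine ⟨C1 * 1000 * (Real.sqrt (μ.real univ) + 1), by positivity, ?_⟩
  intro Ω hΩ hinv hniv v Box Box' hBox hBox' hBΩ hQB
  have hΩf : μ Ω ≠ ⊤ := measure_ne_top _ _
  have hB : MeasurableSet (Box' ∩ Ω) := hBox'.inter hΩ
  have hBf : μ (Box' ∩ Ω) ≠ ⊤ := measure_ne_top _ _
  have hmain := STARA_real hμ R hR Q hQi hQr C1 hC1 hJ Ω hΩ hinv hniv v Box (Box' ∩ Ω) hBox hB
    inter_subset_right (fun q hq x hx => ⟨hQB q hq x hx, hinv q x (hBΩ hx)⟩) hΩf hBf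
  have hnφ : ‖(indicatorConstLp 2 hΩ hΩf (1 : ℂ) : Lp ℂ 2 μ)‖ ≤ Real.sqrt (μ.real univ) := by
    rw [norm_indicatorConstLp (by norm_num) (by norm_num), norm_one, one_mul, Real.sqrt_eq_rpow]
    simp only [ENNReal.toReal_ofNat]
    exact Real.rpow_le_rpow measureReal_nonneg (measureReal_mono (subset_univ _)) (by norm_num)
  have hnψ : ‖(indicatorConstLp 2 hB hBf (1 : ℂ) : Lp ℂ 2 μ)‖ ≤ Real.sqrt (μ.real Box') := by
    rw [norm_indicatorConstLp (by norm_num) (by norm_num), norm_one, one_mul, Real.sqrt_eq_rpow]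
    simp only [ENNReal.toReal_ofNat]
    exact Real.rpow_le_rpow measureReal_nonneg (measureReal_mono inter_subset_left) (by norm_num)
  have hfin : ∫ y in Box, Real.sqrt (T.J (D v) y) ∂μ ≤
      C1 * 1000 * (Real.sqrt (μ.real univ) + 1) * Real.exp (-‖v‖ / 4) *
      Real.sqrt (μ.real Box') := by
    generalize ∫ y in Box, Real.sqrt (T.J (D v) y) ∂μ = I at hmain ⊢
    have h5 : C1⁻¹ * I ≤ 1000 * Real.exp (-‖v‖ / 4) * Real.sqrt (μ.real univ) *
        Real.sqrt (μ.real Box') := by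
      refine le_trans hmain ?_
      gcongr
    have h8 : I = C1 * (C1⁻¹ * I) := by field_simp
    rw [h8]
    calc C1 * (C1⁻¹ * I) ≤ C1 * (1000 * Real.exp (-‖v‖ / 4) * Real.sqrt (μ.real univ) *
        Real.sqrt (μ.real Box')) := mul_le_mul_of_nonneg_left h5 hC1'.le
      _ ≤ C1 * (1000 * Real.exp (-‖v‖ / 4) * (Real.sqrt (μ.real univ) + 1) *
        Real.sqrt (μ.real Box')) := by
          gcongr
          linarith
      _ = _ := by ring
  have hcJ : Continuous (fun y => Real.sqrt (T.J (D v) y)) :=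
    Real.continuous_sqrt.comp (T.continuous_J.comp (Continuous.prodMk_right (D v)))
  rw [← ofReal_integral_eq_lintegral_ofReal]
  · exact ENNReal.ofReal_le_ofReal hfin
  · exact (hcJ.integrable_of_hasCompactSupport (HasCompactSupport.of_compactSpace _)).integrableOn
  · exact Eventually.of_forall fun _ => Real.sqrt_nonneg _

end Pool.Agent.H88.LF

end S_H88_LF_STARA

section S_H88_LF_STARB

/-!
# STARB (blueprint section 4)
-/

set_option autoImplicit false

open MeasureTheory Set Filter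
open scoped Topology ENNReal Pointwise

namespace Pool.Agent.H88.LF

variable {X : Type} [MetricSpace X] [CompactSpace X] [MulAction G X] [ContinuousSMul G X]
  [MeasurableSpace X] [BorelSpace X]

/-- The mass of a thickened transversal of length `r` is `O(r)`: `{k • cur x (σt)} = Θ_i(K rh x × (rt x + σ(0,r)))`,
`TN.IsMu.image_le` and `W_bound`. -/
theorem thick_mass {S : FB X} {T : TN S} {μ : Measure X} (hμ : T.IsMu μ) (K : Set G)
    (hK : IsCompact K) :
    ∃ C : ℝ, 0 < C ∧ ∀ (x : X) (σ : ℝ), (σ = 1 ∨ σ = -1) → ∀ r, 0 < r → r ≤ 1 / 4 →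
      μ {y | ∃ k ∈ K, ∃ t, 0 < t ∧ t < r ∧ y = k • S.cur x (σ * t)} ≤ ENNReal.ofReal (C * r) := by
  have hB : IsCompact (Bl S.ρ1) := isCompact_Bl S.ρ1
  have hKB : IsCompact (K * Bl S.ρ1) := hK.mul hB
  obtain ⟨C1, hC1, hW⟩ := T.W_bound hKB (3 / 4) (by norm_num)
  have hfin : hG (K * Bl S.ρ1) < ⊤ := hKB.measure_lt_top
  set m : ℝ := (hG (K * Bl S.ρ1)).toReal with hm
  have hm0 : 0 ≤ m := ENNReal.toReal_nonneg
  have hmK : hG (K * Bl S.ρ1) = ENNReal.ofReal m := (ENNReal.ofReal_toReal hfin.ne).symm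
  have hC1' : 0 < C1 := zero_lt_one.trans_le hC1
  refine ⟨C1 * (m + 1), by positivity, fun x σ hσ r hr hr4 => ?_⟩
  obtain ⟨hh, ht, -⟩ := S.rep_spec x
  have hσ2 : σ * σ = 1 := by rcases hσ with rfl | rfl <;> norm_num
  have hσa : |σ| = 1 := by rcases hσ with rfl | rfl <;> simp
  set E : Set (G × ℝ) := ((fun k : G => k * S.rh x) '' K) ×ˢ
    Set.Ioo (S.rt x - r) (S.rt x + r) ∩ {p | 0 < σ * (p.2 - S.rt x)} with hE
  have hKc : IsCompact ((fun k : G => k * S.rh x) '' K) :=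
    hK.image (continuous_id.mul continuous_const)
  have hEm : MeasurableSet E := by
    refine (hKc.measurableSet.prod measurableSet_Ioo).inter ?_
    have hc : Continuous (fun p : G × ℝ => σ * (p.2 - S.rt x)) := by fun_prop
    exact (isOpen_lt continuous_const hc).measurableSet
  have hE1 : ∀ p ∈ E, |p.2| ≤ 3 / 4 := by
    rintro ⟨g, u⟩ ⟨⟨-, hu⟩, -⟩
    simp only at hu ⊢
    have h1 := abs_lt.1 ht
    rw [abs_le]
    constructor <;> linarith [hu.1, hu.2, h1.1, h1.2]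
  have hsub : {y | ∃ k ∈ K, ∃ t, 0 < t ∧ t < r ∧ y = k • S.cur x (σ * t)} ⊆
      (fun p : G × ℝ => p.1 • S.c (S.ri x) p.2) '' E := by
    rintro y ⟨k, hk, t, ht0, htr, rfl⟩
    refine ⟨(k * S.rh x, S.rt x + σ * t), ⟨⟨⟨k, hk, rfl⟩, ?_⟩, ?_⟩, ?_⟩
    · simp only
      have h2 : |σ * t| < r := by rw [abs_mul, hσa, one_mul, abs_of_pos ht0]; exact htr
      have h3 := abs_lt.1 h2
      constructor <;> linarith [h3.1, h3.2]
    · show 0 < σ * (S.rt x + σ * t - S.rt x)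
      have : σ * (S.rt x + σ * t - S.rt x) = (σ * σ) * t := by ring
      rw [this, hσ2, one_mul]
      exact ht0
    · show (k * S.rh x) • S.c (S.ri x) (S.rt x + σ * t) = k • S.cur x (σ * t)
      rw [FB.cur, mul_smul]
  have hlt : ∀ p ∈ E, |p.2| < 1 := fun p hp => (hE1 p hp).trans_lt (by norm_num)
  have hEK : ∀ p ∈ E, p.1 ∈ K * Bl S.ρ1 := by
    rintro p ⟨⟨⟨k, hk, hp⟩, -⟩, -⟩
    rw [← hp]
    exact Set.mul_mem_mul hk hh.le
  calc μ {y | ∃ k ∈ K, ∃ t, 0 < t ∧ t < r ∧ y = k • S.cur x (σ * t)}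
      ≤ μ ((fun p : G × ℝ => p.1 • S.c (S.ri x) p.2) '' E) := measure_mono hsub
    _ ≤ ∫⁻ p in E, ENNReal.ofReal (T.W p.1 (S.ri x) p.2) ∂(hG.prod volume) :=
        hμ.image_le (S.ri x) E hEm hlt
    _ ≤ ∫⁻ p in E, ENNReal.ofReal C1 ∂(hG.prod volume) := by
        refine setLIntegral_mono measurable_const fun p hp => ?_
        exact ENNReal.ofReal_le_ofReal (hW p.1 (hEK p hp) _ _ (hE1 p hp)).2
    _ = ENNReal.ofReal C1 * (hG.prod volume) E := by rw [setLIntegral_const]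
    _ ≤ ENNReal.ofReal C1 * (ENNReal.ofReal m * ENNReal.ofReal r) := by
        refine mul_le_mul_right ?_ _
        have h4 : E ⊆ (K * Bl S.ρ1) ×ˢ (if σ = 1 then Set.Ioo (S.rt x) (S.rt x + r)
            else Set.Ioo (S.rt x - r) (S.rt x)) := by
          rintro ⟨g, u⟩ hp
          refine ⟨hEK _ hp, ?_⟩
          obtain ⟨⟨-, hu⟩, hs⟩ := hp
          have hs' : 0 < σ * (u - S.rt x) := hs
          simp only at hu ⊢
          rcases hσ with h5 | h5
          · rw [h5] at hs'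
            rw [if_pos h5]
            exact ⟨by linarith, hu.2⟩
          · rw [h5] at hs'
            rw [if_neg (by rw [h5]; norm_num)]
            exact ⟨hu.1, by linarith⟩
        refine (measure_mono h4).trans ?_
        rw [Measure.prod_prod, hmK]
        refine mul_le_mul_right (le_of_eq ?_) _
        split_ifs
        · rw [Real.volume_Ioo]; congr 1; ring
        · rw [Real.volume_Ioo]; congr 1; ring
    _ = ENNReal.ofReal (C1 * (m * r)) := by
        rw [← ENNReal.ofReal_mul hm0, ← ENNReal.ofReal_mul hC1'.le]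
    _ ≤ ENNReal.ofReal (C1 * (m + 1) * r) := by
        refine ENNReal.ofReal_le_ofReal ?_
        nlinarith [mul_pos hC1' hr]

end Pool.Agent.H88.LF

end S_H88_LF_STARB

section S_H88_LF_STAR

/-!
# STAR (blueprint section 4)
-/

set_option autoImplicit false

open MeasureTheory Set Filter
open scoped Topology ENNReal Pointwise

namespace Pool.Agent.H88.LF

variable {X : Type} [MetricSpace X] [CompactSpace X] [MulAction G X] [ContinuousSMul G X]
  [MeasurableSpace X] [BorelSpace X]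

/-- the reparametrisation of the flow box around a curve is measure preserving -/
theorem starC_mp (q : G) (σ a : ℝ) (hσ : σ = 1 ∨ σ = -1) :
    MeasurePreserving (fun p : G × ℝ => (p.1 * q, a + σ * p.2)) (hG.prod (volume : Measure ℝ))
      (hG.prod (volume : Measure ℝ)) := by
  have h1 : MeasurePreserving (fun g : G => g * q) hG hG := measurePreserving_mul_right hG q
  have h2 : MeasurePreserving (fun t : ℝ => a + σ * t) volume volume := by
    have h3 : MeasurePreserving (fun t : ℝ => a + t) volume volume :=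
      measurePreserving_add_left volume a
    have h4 : MeasurePreserving (fun t : ℝ => σ * t) volume volume := by
      rcases hσ with rfl | rfl
      · simp only [one_mul]
        exact MeasurePreserving.id (volume : Measure ℝ)
      · simpa using Measure.measurePreserving_neg (volume : Measure ℝ)
    exact h3.comp h4
  exact h1.prod h2

/-- Tonelli for the flow box around a curve -/
theorem starC_tonelli (q : G) (σ a : ℝ) (hσ : σ = 1 ∨ σ = -1) (F : G × ℝ → ℝ≥0∞)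
    (hF : Measurable F) :
    ∫⁻ p, F p ∂(hG.prod (volume : Measure ℝ)) =
      ∫⁻ t : ℝ, ∫⁻ h, F (h * q, a + σ * t) ∂hG := by
  have h1 := (starC_mp q σ a hσ).lintegral_comp hF
  have h2 : AEMeasurable (fun p : G × ℝ => F (p.1 * q, a + σ * p.2))
      (hG.prod (volume : Measure ℝ)) :=
    (hF.comp (starC_mp q σ a hσ).measurable).aemeasurable
  rw [← h1, lintegral_prod_symm _ h2]

/-- STAR2.  `Box = {h • cur x (σt) : h ∈ Bl ρ, 0<t<r}`: for `ρ` small the map `(h,t) ↦ h • cur x (σ t) = (h rh x) • c i (rt x + σt)` is injective there,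
with density `W ≥ c`; `J(D v * h, y) = J(D v, hy) J(h,y)`, `J(h,·) ≤ C`; `star` with `Q` from `exists_compact_rot`, and `thick_mass` for `K = Q * Bl ρ`
(measurability: `Box` is the injective continuous image of a Borel set; for `Box'` take a measurable superset of equal measure or a countable union of compact sets). -/
theorem star2 {S : FB X} {T : TN S} {μ : Measure X} (hμ : T.IsMu μ) (R : URep (Lp ℂ 2 μ))
    (hR : hμ.kd.IsKoop R) :
    ∃ ρ : ℝ, 0 < ρ ∧ ρ ≤ 1 ∧ ∃ C : ℝ, 0 < C ∧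
      ∀ (Ω : Set X), MeasurableSet Ω → (∀ (g : G), ∀ x ∈ Ω, g • x ∈ Ω) → NIV R Ω →
      ∀ (x : X) (σ : ℝ), (σ = 1 ∨ σ = -1) → ∀ r, 0 < r → r ≤ 1 / 4 →
        (∀ t, 0 < t → t < r → S.cur x (σ * t) ∈ Ω) → ∀ v : ℝ × ℝ,
        ∫⁻ t in Ioo 0 r, ∫⁻ h in Bl ρ,
          ENNReal.ofReal (Real.sqrt (T.J (D v * h) (S.cur x (σ * t)))) ∂hG ≤
        ENNReal.ofReal (C * Real.exp (-‖v‖ / 4) * Real.sqrt r) := by
  obtain ⟨Q, hQ, hQi, hQ1, hQr⟩ := exists_compact_rot
  obtain ⟨C1, hC1, hstar⟩ := star hμ R hR Q hQ hQi hQr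
  have hρ1 : 0 < S.ρ1 := S.hρ1
  have hρ1' : S.ρ1 ≤ 1 := by linarith [S.hρ, S.hρ0]
  set K : Set G := Q * Bl S.ρ1 with hK
  have hKc : IsCompact K := hQ.mul (isCompact_Bl _)
  obtain ⟨C2, hC2, hmass⟩ := thick_mass hμ K hKc
  obtain ⟨C3, hC3, hJ⟩ := T.J_bound (isCompact_Bl S.ρ1)
  obtain ⟨C4, hC4, hW⟩ := T.W_bound ((isCompact_Bl S.ρ1).mul (isCompact_Bl S.ρ1)) (3 / 4)
    (by norm_num)
  have hC3' : 0 < C3 := lt_of_lt_of_le one_pos hC3
  have hC4' : 0 < C4 := lt_of_lt_of_le one_pos hC4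
  refine ⟨S.ρ1, hρ1, hρ1', Real.sqrt C3 * C4 * (C1 * Real.sqrt C2), by positivity, ?_⟩
  intro Ω hΩ hΩi hN x σ hσ r hr hr4 hcur v
  have hσa : |σ| = 1 := by rcases hσ with rfl | rfl <;> simp
  obtain ⟨hrep1, hrep2, hrep3⟩ := S.rep_spec x
  set i := S.ri x with hi
  set q := S.rh x with hq
  set a := S.rt x with ha
  have hcurd : ∀ s, S.cur x s = q • S.c i (a + s) := fun s => rfl
  have hu : ∀ t, 0 < t → t < r → |a + σ * t| ≤ 3 / 4 := by
    intro t h0 h1
    have h2 : |σ * t| ≤ 1 / 4 := by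
      rw [abs_mul, hσa, one_mul, abs_of_pos h0]; linarith
    have h3 := abs_add_le a (σ * t)
    linarith
  -- the parameter set
  set E : Set (G × ℝ) := {p | nd (p.1 * q⁻¹) ≤ S.ρ1 ∧ 0 < σ * (p.2 - a) ∧ σ * (p.2 - a) < r}
    with hE
  have hEm : MeasurableSet E := by
    have h1 : Measurable (fun p : G × ℝ => nd (p.1 * q⁻¹)) :=
      (continuous_nd.comp (continuous_fst.mul continuous_const)).measurable
    have h2 : Measurable (fun p : G × ℝ => σ * (p.2 - a)) :=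
      (continuous_const.mul (continuous_snd.sub continuous_const)).measurable
    exact (measurableSet_le h1 measurable_const).inter
      ((measurableSet_lt measurable_const h2).inter (measurableSet_lt h2 measurable_const))
  have hσσ : σ * σ = 1 := by rcases hσ with rfl | rfl <;> norm_num
  have hEp : ∀ p ∈ E, ∃ h : G, nd h ≤ S.ρ1 ∧ ∃ t, 0 < t ∧ t < r ∧ p = (h * q, a + σ * t) := by
    rintro ⟨g, u⟩ ⟨h1, h2, h3⟩
    refine ⟨g * q⁻¹, h1, σ * (u - a), h2, h3, ?_⟩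
    rw [inv_mul_cancel_right, ← mul_assoc, hσσ, one_mul, add_sub_cancel]
  have hEm' : ∀ (h : G) (t : ℝ), nd h ≤ S.ρ1 → 0 < t → t < r → (h * q, a + σ * t) ∈ E := by
    intro h t h1 h2 h3
    refine ⟨?_, ?_, ?_⟩
    · simp only
      rw [mul_inv_cancel_right]; exact h1
    · simp only
      rw [add_sub_cancel_left, ← mul_assoc, hσσ, one_mul]; exact h2
    · simp only
      rw [add_sub_cancel_left, ← mul_assoc, hσσ, one_mul]; exact h3
  have hE1 : ∀ p ∈ E, |p.2| < 1 := by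
    intro p hp
    obtain ⟨h, hh, t, ht0, htr, rfl⟩ := hEp p hp
    exact (hu t ht0 htr).trans_lt (by norm_num)
  have hqn : nd q < S.ρ1 := hrep1
  have hnd : ∀ h : G, nd h ≤ S.ρ1 → nd (h * q) < S.ρ0 := by
    intro h hh
    have h1 := nd_mul_le h q
    have h2 := nrm_le_nd q
    have h3 : nd h * nrm q.1 ≤ S.ρ1 * 4 :=
      mul_le_mul hh (by linarith) (nrm_nonneg _) hρ1.le
    have := S.hρ
    linarith
  have hinj : InjOn (fun p : G × ℝ => p.1 • S.c i p.2) E := by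
    intro p hp p' hp' he
    have h1 := hE1 p hp
    have h2 := hE1 p' hp'
    obtain ⟨h, hh, t, ht0, htr, rfl⟩ := hEp p hp
    obtain ⟨h', hh', t', ht0', htr', rfl⟩ := hEp p' hp'
    have h3 := S.inj i _ _ _ _ h1 h2 (hnd h hh) (hnd h' hh') he
    exact Prod.ext h3.1 h3.2
  set f : X → ℝ≥0∞ := fun z => ENNReal.ofReal (Real.sqrt (T.J (D v) z)) with hf
  have hfc : Continuous (fun z : X => Real.sqrt (T.J (D v) z)) :=
    Real.continuous_sqrt.comp (T.continuous_J.comp (continuous_const.prodMk continuous_id))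
  have hfm : Measurable f := hfc.measurable.ennreal_ofReal
  obtain ⟨hBm, hBi⟩ := hμ.lintegral_image i E hEm hE1 hinj f hfm
  set Box : Set X := (fun p : G × ℝ => p.1 • S.c i p.2) '' E with hBox
  have hBoxp : ∀ z ∈ Box, ∃ h : G, nd h ≤ S.ρ1 ∧ ∃ t, 0 < t ∧ t < r ∧ z = h • S.cur x (σ * t) := by
    rintro z ⟨p, hp, rfl⟩
    obtain ⟨h, hh, t, ht0, htr, rfl⟩ := hEp p hp
    refine ⟨h, hh, t, ht0, htr, ?_⟩
    simp only
    rw [hcurd, mul_smul]
  have hBΩ : Box ⊆ Ω := by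
    intro z hz
    obtain ⟨h, hh, t, ht0, htr, rfl⟩ := hBoxp z hz
    exact hΩi _ _ (hcur t ht0 htr)
  set Th : Set X := {y | ∃ k ∈ K, ∃ t, 0 < t ∧ t < r ∧ y = k • S.cur x (σ * t)} with hTh
  set Box' : Set X := toMeasurable μ Th with hBox'
  have hB'm : MeasurableSet Box' := measurableSet_toMeasurable _ _
  have hB'μ : μ Box' ≤ ENNReal.ofReal (C2 * r) := by
    rw [hBox', measure_toMeasurable]
    exact hmass x σ hσ r hr hr4
  have hB'r : μ.real Box' ≤ C2 * r := by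
    rw [measureReal_def]
    exact ENNReal.toReal_le_of_le_ofReal (by positivity) hB'μ
  have hBB' : ∀ k ∈ Q, ∀ z ∈ Box, k • z ∈ Box' := by
    intro k hk z hz
    obtain ⟨h, hh, t, ht0, htr, rfl⟩ := hBoxp z hz
    refine subset_toMeasurable μ Th ⟨k * h, Set.mul_mem_mul hk hh, t, ht0, htr, ?_⟩
    rw [mul_smul]
  have hst := hstar Ω hΩ hΩi hN v Box Box' hBm hB'm hBΩ hBB'
  rw [hBi] at hst
  -- the integrand on the flow box
  set g : G × ℝ → ℝ≥0∞ := fun p => f (p.1 • S.c i p.2) * ENNReal.ofReal (T.W p.1 i p.2) with hg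
  set V : Set (G × ℝ) := {p | |p.2| < 1} with hV
  have hVo : IsOpen V := isOpen_lt (continuous_abs.comp continuous_snd) continuous_const
  have hgr : Measurable (V.indicator g) := by
    have h1 : ContinuousOn (fun p : G × ℝ => Real.sqrt (T.J (D v) (p.1 • S.c i p.2))) V :=
      hfc.comp_continuousOn (S.continuousOn_map i)
    have h2 : ContinuousOn (fun p : G × ℝ => Real.sqrt (T.J (D v) (p.1 • S.c i p.2)) *
        T.W p.1 i p.2) V := h1.mul (T.cont i)
    have h3 : Measurable (V.indicator (fun p : G × ℝ =>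
        Real.sqrt (T.J (D v) (p.1 • S.c i p.2)) * T.W p.1 i p.2)) := by
      classical
      rw [← Set.piecewise_eq_indicator]
      exact h2.measurable_piecewise continuousOn_const hVo.measurableSet
    have h4 : V.indicator g = fun p => ENNReal.ofReal (V.indicator (fun p : G × ℝ =>
        Real.sqrt (T.J (D v) (p.1 • S.c i p.2)) * T.W p.1 i p.2) p) := by
      funext p
      by_cases hp : p ∈ V
      · rw [indicator_of_mem hp, indicator_of_mem hp, hg, hf]
        simp only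
        rw [ENNReal.ofReal_mul (Real.sqrt_nonneg _)]
      · rw [indicator_of_notMem hp, indicator_of_notMem hp, ENNReal.ofReal_zero]
    rw [h4]
    exact h3.ennreal_ofReal
  set F : G × ℝ → ℝ≥0∞ := E.indicator g with hF
  have hFm : Measurable F := by
    have h1 : F = E.indicator (V.indicator g) := by
      funext p
      by_cases hp : p ∈ E
      · rw [hF, indicator_of_mem hp, indicator_of_mem hp, indicator_of_mem (show p ∈ V from hE1 p hp)]
      · rw [hF, indicator_of_notMem hp, indicator_of_notMem hp]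
    rw [h1]
    exact hgr.indicator hEm
  have hint : ∫⁻ p in E, g p ∂(hG.prod volume) =
      ∫⁻ t : ℝ, ∫⁻ h, F (h * q, a + σ * t) ∂hG := by
    rw [← lintegral_indicator hEm]
    exact starC_tonelli q σ a hσ F hFm
  have hpt : ∀ (h : G) (t : ℝ), nd h ≤ S.ρ1 → 0 < t → t < r →
      ENNReal.ofReal (Real.sqrt (T.J (D v * h) (S.cur x (σ * t)))) ≤
        ENNReal.ofReal (Real.sqrt C3 * C4) * F (h * q, a + σ * t) := by
    intro h t hh ht0 htr
    have hm := hEm' h t hh ht0 htr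
    rw [hF, indicator_of_mem hm, hg]
    simp only
    rw [mul_smul, ← hcurd, hf]
    simp only
    rw [← ENNReal.ofReal_mul (Real.sqrt_nonneg _), ← ENNReal.ofReal_mul (by positivity)]
    refine ENNReal.ofReal_le_ofReal ?_
    have e1 : T.J (D v * h) (S.cur x (σ * t)) ≤ C3 * T.J (D v) (h • S.cur x (σ * t)) := by
      rw [T.J_mul, mul_comm]
      exact mul_le_mul_of_nonneg_right (hJ h hh _).2 (T.J_pos _ _).le
    have e2 : Real.sqrt (T.J (D v * h) (S.cur x (σ * t))) ≤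
        Real.sqrt C3 * Real.sqrt (T.J (D v) (h • S.cur x (σ * t))) := by
      rw [← Real.sqrt_mul hC3'.le]
      exact Real.sqrt_le_sqrt e1
    have e3 : 1 ≤ C4 * T.W (h * q) i (a + σ * t) := by
      have h1 := (hW (h * q) (Set.mul_mem_mul hh hqn.le) i (a + σ * t) (hu t ht0 htr)).1
      have h2 := mul_le_mul_of_nonneg_left h1 hC4'.le
      rwa [mul_inv_cancel₀ hC4'.ne'] at h2
    calc Real.sqrt (T.J (D v * h) (S.cur x (σ * t)))
        ≤ Real.sqrt C3 * Real.sqrt (T.J (D v) (h • S.cur x (σ * t))) := e2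
      _ ≤ (Real.sqrt C3 * Real.sqrt (T.J (D v) (h • S.cur x (σ * t)))) *
          (C4 * T.W (h * q) i (a + σ * t)) := le_mul_of_one_le_right (by positivity) e3
      _ = Real.sqrt C3 * C4 * (Real.sqrt (T.J (D v) (h • S.cur x (σ * t))) *
          T.W (h * q) i (a + σ * t)) := by ring
  calc ∫⁻ t in Ioo 0 r, ∫⁻ h in Bl S.ρ1,
          ENNReal.ofReal (Real.sqrt (T.J (D v * h) (S.cur x (σ * t)))) ∂hG
      ≤ ∫⁻ t : ℝ, ∫⁻ h, ENNReal.ofReal (Real.sqrt C3 * C4) * F (h * q, a + σ * t) ∂hG := by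
        rw [← lintegral_indicator measurableSet_Ioo]
        refine lintegral_mono fun t => ?_
        by_cases ht : t ∈ Ioo 0 r
        · rw [indicator_of_mem ht, ← lintegral_indicator (measurableSet_Bl _)]
          refine lintegral_mono fun h => ?_
          by_cases hh : h ∈ Bl S.ρ1
          · rw [indicator_of_mem hh]
            exact hpt h t hh ht.1 ht.2
          · rw [indicator_of_notMem hh]
            exact bot_le
        · rw [indicator_of_notMem ht]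
          exact bot_le
    _ = ENNReal.ofReal (Real.sqrt C3 * C4) * ∫⁻ p in E, g p ∂(hG.prod volume) := by
        rw [hint]
        simp only [lintegral_const_mul' _ _ ENNReal.ofReal_ne_top]
    _ ≤ ENNReal.ofReal (Real.sqrt C3 * C4) *
        ENNReal.ofReal (C1 * Real.exp (-‖v‖ / 4) * Real.sqrt (μ.real Box')) := by
        gcongr
    _ ≤ ENNReal.ofReal (Real.sqrt C3 * C4 * (C1 * Real.sqrt C2) * Real.exp (-‖v‖ / 4) *
        Real.sqrt r) := by
        rw [← ENNReal.ofReal_mul (by positivity)]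
        refine ENNReal.ofReal_le_ofReal ?_
        have h1 : Real.sqrt (μ.real Box') ≤ Real.sqrt C2 * Real.sqrt r := by
          rw [← Real.sqrt_mul hC2.le]
          exact Real.sqrt_le_sqrt hB'r
        calc Real.sqrt C3 * C4 * (C1 * Real.exp (-‖v‖ / 4) * Real.sqrt (μ.real Box'))
            ≤ Real.sqrt C3 * C4 * (C1 * Real.exp (-‖v‖ / 4) * (Real.sqrt C2 * Real.sqrt r)) := by
              gcongr
          _ = Real.sqrt C3 * C4 * (C1 * Real.sqrt C2) * Real.exp (-‖v‖ / 4) * Real.sqrt r := by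
              ring

end Pool.Agent.H88.LF

end S_H88_LF_STAR

section S_H88_LF_RLEM

/-!
# RLEM: the elementary lemma of blueprint section 6

`κ = 1/4`.  `E_j = {g : b_j e^{κj} = max_{i ≤ j} b_i e^{κi}}`.  On `E_j` let `M = b_j e^{κj}`: `b_i ≤ M e^{-κi}` for `i ≤ j`, so `∑_{i≤j} b_i ≤ 5M`; `M ≥ b_0 ≥ e^{-C0}`,
`M ≤ e^{(C0+κ)(j+1)}`.  Levels `e^k ≤ M e^{C0} < e^{k+1}`, `k ∈ ℕ`: take `r = c3 e^{-(k+1)}`, `c3 = min (c2/5) r0`; Markov gives `ν(level) ≤ A e^{-j/8}`, and there are at most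
`(2C0+2)(j+1)` levels.  For every `n` and `g` let `j ≤ n` be an index where `b_i e^{κi}`, `i ≤ n`, is maximal: `g ∈ E_j` and `b_n ≤ e^{-κn} e^{(C0+κ)(j+1)}`.  With
`s = 1/(16(C0+1))`: `∫ b_n^s ≤ ∑_{j≤n} ν(E_j) e^{-sκn} e^{s(C0+κ)(j+1)} ≤ C e^{-sκn}`.
-/

set_option autoImplicit false

open MeasureTheory Set Filter
open scoped Topology ENNReal

namespace Pool.Agent.H88.LF

/-- the set where the weighted term of index `j` is the largest of the first ones -/
def rlemE {B : Type} (b : ℕ → B → ℝ) (j : ℕ) : Set B :=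
  {g | ∀ i ∈ Finset.range (j + 1), b i g * Real.exp ((i:ℝ) / 4) ≤ b j g * Real.exp ((j:ℝ) / 4)}

theorem rlem_measE {B : Type} [MeasurableSpace B] (b : ℕ → B → ℝ) (hb : ∀ n, Measurable (b n))
    (j : ℕ) : MeasurableSet (rlemE b j) := by
  have : rlemE b j = ⋂ i ∈ Finset.range (j + 1),
      {g | b i g * Real.exp ((i:ℝ) / 4) ≤ b j g * Real.exp ((j:ℝ) / 4)} := by
    ext g; simp [rlemE]
  rw [this]
  refine Finset.measurableSet_biInter _ (fun i _ => ?_)
  exact measurableSet_le ((hb i).mul_const _) ((hb j).mul_const _)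

theorem rlem_exp_sum (j : ℕ) : ∑ i ∈ Finset.range (j + 1), Real.exp (-((i:ℝ) / 4)) ≤ 5 := by
  have h1 : ∀ i : ℕ, Real.exp (-((i:ℝ) / 4)) = (Real.exp (-(1/4 : ℝ))) ^ i := by
    intro i
    rw [← Real.exp_nat_mul]; congr 1; ring
  have hq : Real.exp (-(1/4 : ℝ)) ≤ 4/5 := by
    rw [Real.exp_neg]
    have : (5/4 : ℝ) ≤ Real.exp (1/4) := by
      have := Real.add_one_le_exp (1/4 : ℝ); linarith
    rw [inv_le_comm₀ (by positivity) (by norm_num)]
    norm_num; linarith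
  have hq0 : 0 < Real.exp (-(1/4 : ℝ)) := Real.exp_pos _
  have hle : ∑ i ∈ Finset.range (j + 1), Real.exp (-((i:ℝ) / 4)) ≤
      ∑ i ∈ Finset.range (j + 1), (4/5 : ℝ) ^ i := by
    apply Finset.sum_le_sum
    intro i _
    rw [h1 i]
    exact pow_le_pow_left₀ hq0.le hq i
  refine hle.trans ?_
  rw [geom_sum_eq (by norm_num)]
  have : (0:ℝ) ≤ (4/5) ^ (j + 1) := by positivity
  have e : ((4/5 : ℝ) ^ (j + 1) - 1) / (4/5 - 1) = 5 * (1 - (4/5) ^ (j + 1)) := by
    field_simp; ring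
  rw [e]; linarith

/-- the measure of one level -/
theorem rlem_level {B : Type} [MeasurableSpace B] (ν : Measure B)
    (C0 c2 C1 r0 : ℝ) (hc2 : 0 < c2) (hC1 : 0 < C1) (hr0 : 0 < r0)
    (b : ℕ → B → ℝ) (hb : ∀ n, Measurable (b n)) (hC0 : 0 ≤ C0)
    (hbd : ∀ (n : ℕ) (g : B), Real.exp (-(C0 * ((n:ℝ) + 1))) ≤ b n g ∧
      b n g ≤ Real.exp (C0 * ((n:ℝ) + 1)))
    (H : ∀ (n : ℕ) (r : ℝ), 0 < r → r ≤ r0 →
        ∫⁻ g in {g | r * ∑ j ∈ Finset.range (n + 1), b j g ≤ c2},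
          ENNReal.ofReal (Real.sqrt (b n g)) ∂ν ≤
        ENNReal.ofReal (C1 * Real.exp (-(n:ℝ) / 4) / Real.sqrt r)) (j k : ℕ) :
    ν {g | g ∈ rlemE b j ∧ Real.exp (k:ℝ) ≤ b j g * Real.exp ((j:ℝ) / 4 + C0) ∧
        b j g * Real.exp ((j:ℝ) / 4 + C0) ≤ Real.exp ((k:ℝ) + 1)} ≤
      ENNReal.ofReal (C1 / Real.sqrt (min (c2 / 5) r0) * Real.exp ((1 + C0) / 2) *
        Real.exp (-(j:ℝ) / 8)) := by
  set c3 : ℝ := min (c2 / 5) r0 with hc3
  have hc3p : 0 < c3 := lt_min (by positivity) hr0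
  set L : Set B := {g | g ∈ rlemE b j ∧ Real.exp (k:ℝ) ≤ b j g * Real.exp ((j:ℝ) / 4 + C0) ∧
        b j g * Real.exp ((j:ℝ) / 4 + C0) ≤ Real.exp ((k:ℝ) + 1)} with hL
  have hLm : MeasurableSet L := by
    refine (rlem_measE b hb j).inter ?_
    refine MeasurableSet.inter ?_ ?_
    · exact measurableSet_le measurable_const ((hb j).mul_const _)
    · exact measurableSet_le ((hb j).mul_const _) measurable_const
  set r : ℝ := c3 * Real.exp (-((k:ℝ) + 1)) with hr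
  have hrp : 0 < r := by positivity
  have hrr : r ≤ r0 := by
    have h1 : Real.exp (-((k:ℝ) + 1)) ≤ 1 := by
      rw [Real.exp_le_one_iff]; have : (0:ℝ) ≤ k := by positivity
      linarith
    calc r ≤ c3 * 1 := by rw [hr]; exact mul_le_mul_of_nonneg_left h1 hc3p.le
      _ ≤ r0 := by rw [mul_one]; exact min_le_right _ _
  have hsub : L ⊆ {g | r * ∑ j ∈ Finset.range (j + 1), b j g ≤ c2} := by
    intro g hg
    obtain ⟨hE, -, h2⟩ := hg
    have hM : ∑ i ∈ Finset.range (j + 1), b i g ≤ b j g * Real.exp ((j:ℝ) / 4) * 5 := by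
      have hMp : 0 ≤ b j g * Real.exp ((j:ℝ) / 4) := by
        have := (hbd j g).1
        have h3 : 0 < b j g := lt_of_lt_of_le (Real.exp_pos _) this
        positivity
      calc ∑ i ∈ Finset.range (j + 1), b i g
          ≤ ∑ i ∈ Finset.range (j + 1), b j g * Real.exp ((j:ℝ) / 4) * Real.exp (-((i:ℝ) / 4)) := by
            apply Finset.sum_le_sum
            intro i hi
            have h := hE i hi
            have h4 : b i g = b i g * Real.exp ((i:ℝ) / 4) * Real.exp (-((i:ℝ) / 4)) := by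
              rw [mul_assoc, ← Real.exp_add]; simp
            rw [h4]
            exact mul_le_mul_of_nonneg_right h (Real.exp_pos _).le
        _ = b j g * Real.exp ((j:ℝ) / 4) * ∑ i ∈ Finset.range (j + 1), Real.exp (-((i:ℝ) / 4)) := by
            rw [Finset.mul_sum]
        _ ≤ _ := mul_le_mul_of_nonneg_left (rlem_exp_sum j) hMp
    have h5 : b j g * Real.exp ((j:ℝ) / 4) ≤ Real.exp ((k:ℝ) + 1) := by
      refine le_trans ?_ h2
      apply mul_le_mul_of_nonneg_left _ (le_trans (Real.exp_pos _).le (hbd j g).1)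
      apply Real.exp_le_exp.mpr; linarith
    show r * ∑ i ∈ Finset.range (j + 1), b i g ≤ c2
    calc r * ∑ i ∈ Finset.range (j + 1), b i g ≤ r * (Real.exp ((k:ℝ) + 1) * 5) := by
          apply mul_le_mul_of_nonneg_left _ hrp.le
          exact hM.trans (mul_le_mul_of_nonneg_right h5 (by norm_num))
      _ = 5 * c3 := by
          rw [hr, show c3 * Real.exp (-((k:ℝ) + 1)) * (Real.exp ((k:ℝ) + 1) * 5) =
            5 * c3 * (Real.exp (-((k:ℝ) + 1)) * Real.exp ((k:ℝ) + 1)) by ring, ← Real.exp_add]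
          simp
      _ ≤ c2 := by
          have := min_le_left (c2 / 5) r0
          rw [← hc3] at this; linarith
  set v : ℝ := Real.exp (((k:ℝ) - C0 - (j:ℝ) / 4) / 2) with hv
  have hvp : 0 < v := Real.exp_pos _
  have hlow : ∀ g ∈ L, ENNReal.ofReal v ≤ ENNReal.ofReal (Real.sqrt (b j g)) := by
    intro g hg
    obtain ⟨-, h1, -⟩ := hg
    apply ENNReal.ofReal_le_ofReal
    rw [hv]
    apply Real.le_sqrt_of_sq_le
    rw [← Real.exp_nat_mul]
    have h2 : Real.exp (k:ℝ) * Real.exp (-((j:ℝ) / 4 + C0)) ≤ b j g := by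
      calc Real.exp (k:ℝ) * Real.exp (-((j:ℝ) / 4 + C0))
          ≤ b j g * Real.exp ((j:ℝ) / 4 + C0) * Real.exp (-((j:ℝ) / 4 + C0)) :=
            mul_le_mul_of_nonneg_right h1 (Real.exp_pos _).le
        _ = b j g := by rw [mul_assoc, ← Real.exp_add]; simp
    refine le_trans (le_of_eq ?_) h2
    rw [← Real.exp_add]; congr 1; push_cast; ring
  have hmk : ENNReal.ofReal v * ν L ≤
      ENNReal.ofReal (C1 * Real.exp (-(j:ℝ) / 4) / Real.sqrt r) := by
    calc ENNReal.ofReal v * ν L = ∫⁻ _ in L, ENNReal.ofReal v ∂ν := by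
          rw [setLIntegral_const]
      _ ≤ ∫⁻ g in L, ENNReal.ofReal (Real.sqrt (b j g)) ∂ν :=
          setLIntegral_mono' hLm hlow
      _ ≤ ∫⁻ g in {g | r * ∑ j ∈ Finset.range (j + 1), b j g ≤ c2},
            ENNReal.ofReal (Real.sqrt (b j g)) ∂ν := lintegral_mono_set hsub
      _ ≤ _ := H j r hrp hrr
  have hdiv : ν L ≤ ENNReal.ofReal (C1 * Real.exp (-(j:ℝ) / 4) / Real.sqrt r / v) := by
    rw [ENNReal.ofReal_div_of_pos hvp]
    rw [ENNReal.le_div_iff_mul_le (Or.inl (by simpa using hvp)) (Or.inl ENNReal.ofReal_ne_top)]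
    rw [mul_comm]; exact hmk
  refine hdiv.trans (le_of_eq ?_)
  congr 1
  have hsr : Real.sqrt r = Real.sqrt c3 * Real.exp (-((k:ℝ) + 1) / 2) := by
    rw [hr, Real.sqrt_mul hc3p.le]
    congr 1
    rw [Real.exp_half]
  rw [hsr]
  have hsc : 0 < Real.sqrt c3 := Real.sqrt_pos.mpr hc3p
  rw [hv, div_div, div_eq_iff (by positivity)]
  rw [show C1 / Real.sqrt c3 * Real.exp ((1 + C0) / 2) * Real.exp (-(j:ℝ) / 8) *
      (Real.sqrt c3 * Real.exp (-((k:ℝ) + 1) / 2) * Real.exp (((k:ℝ) - C0 - (j:ℝ) / 4) / 2)) =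
      (C1 / Real.sqrt c3 * Real.sqrt c3) * ((Real.exp ((1 + C0) / 2) * Real.exp (-(j:ℝ) / 8)) *
      (Real.exp (-((k:ℝ) + 1) / 2) * Real.exp (((k:ℝ) - C0 - (j:ℝ) / 4) / 2))) by ring]
  rw [div_mul_cancel₀ _ hsc.ne', ← Real.exp_add, ← Real.exp_add, ← Real.exp_add]
  congr 2; ring

/-- the measure of `E_j` -/
theorem rlem_E {B : Type} [MeasurableSpace B] (ν : Measure B)
    (C0 c2 C1 r0 : ℝ) (hc2 : 0 < c2) (hC1 : 0 < C1) (hr0 : 0 < r0)
    (b : ℕ → B → ℝ) (hb : ∀ n, Measurable (b n)) (hC0 : 0 ≤ C0)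
    (hbd : ∀ (n : ℕ) (g : B), Real.exp (-(C0 * ((n:ℝ) + 1))) ≤ b n g ∧
      b n g ≤ Real.exp (C0 * ((n:ℝ) + 1)))
    (H : ∀ (n : ℕ) (r : ℝ), 0 < r → r ≤ r0 →
        ∫⁻ g in {g | r * ∑ j ∈ Finset.range (n + 1), b j g ≤ c2},
          ENNReal.ofReal (Real.sqrt (b n g)) ∂ν ≤
        ENNReal.ofReal (C1 * Real.exp (-(n:ℝ) / 4) / Real.sqrt r)) (j : ℕ) :
    ν (rlemE b j) ≤
      ENNReal.ofReal ((2 * C0 + 2) * ((j:ℝ) + 1) *
        (C1 / Real.sqrt (min (c2 / 5) r0) * Real.exp ((1 + C0) / 2) *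
        Real.exp (-(j:ℝ) / 8))) := by
  set A : ℝ := C1 / Real.sqrt (min (c2 / 5) r0) * Real.exp ((1 + C0) / 2) *
        Real.exp (-(j:ℝ) / 8) with hA
  have hAp : 0 ≤ A := by rw [hA]; positivity
  set N : ℕ := ⌊(2 * C0 + 1) * ((j:ℝ) + 1)⌋₊ + 1 with hN
  have hcov : rlemE b j ⊆ ⋃ k ∈ Finset.range N,
      {g | g ∈ rlemE b j ∧ Real.exp (k:ℝ) ≤ b j g * Real.exp ((j:ℝ) / 4 + C0) ∧
        b j g * Real.exp ((j:ℝ) / 4 + C0) ≤ Real.exp ((k:ℝ) + 1)} := by
    intro g hg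
    have hbp : 0 < b j g := lt_of_lt_of_le (Real.exp_pos _) (hbd j g).1
    set X : ℝ := b j g * Real.exp ((j:ℝ) / 4 + C0) with hX
    have hXp : 0 < X := by positivity
    have hX1 : 1 ≤ X := by
      have h0 := hg 0 (by simp)
      have h1 := (hbd 0 g).1
      simp only [Nat.cast_zero, zero_div, Real.exp_zero, mul_one, zero_add] at h0 h1
      have h2 : Real.exp (-C0) * Real.exp C0 ≤ b j g * Real.exp ((j:ℝ) / 4) * Real.exp C0 :=
        mul_le_mul_of_nonneg_right (h1.trans h0) (Real.exp_pos _).le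
      rw [← Real.exp_add] at h2
      simp only [neg_add_cancel, Real.exp_zero] at h2
      rw [hX, Real.exp_add, ← mul_assoc]; exact h2
    have hlog : 0 ≤ Real.log X := Real.log_nonneg hX1
    have hXu : Real.log X ≤ (2 * C0 + 1) * ((j:ℝ) + 1) := by
      rw [Real.log_le_iff_le_exp hXp]
      have h1 := (hbd j g).2
      calc X ≤ Real.exp (C0 * ((j:ℝ) + 1)) * Real.exp ((j:ℝ) / 4 + C0) :=
            mul_le_mul_of_nonneg_right h1 (Real.exp_pos _).le
        _ = Real.exp (C0 * ((j:ℝ) + 1) + ((j:ℝ) / 4 + C0)) := by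
            rw [Real.exp_add (C0 * ((j:ℝ) + 1))]
        _ ≤ _ := by
            apply Real.exp_le_exp.mpr
            have hj : (0:ℝ) ≤ j := by positivity
            nlinarith [mul_nonneg hC0 hj]
    simp only [mem_iUnion, Finset.mem_range]
    refine ⟨⌊Real.log X⌋₊, ?_, hg, ?_, ?_⟩
    · have := Nat.floor_le_floor hXu
      omega
    · rw [← Real.le_log_iff_exp_le hXp]
      exact Nat.floor_le hlog
    · rw [← Real.log_le_iff_le_exp hXp]
      exact (Nat.lt_floor_add_one _).le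
  calc ν (rlemE b j) ≤ ν (⋃ k ∈ Finset.range N,
      {g | g ∈ rlemE b j ∧ Real.exp (k:ℝ) ≤ b j g * Real.exp ((j:ℝ) / 4 + C0) ∧
        b j g * Real.exp ((j:ℝ) / 4 + C0) ≤ Real.exp ((k:ℝ) + 1)}) := measure_mono hcov
    _ ≤ ∑ k ∈ Finset.range N, ν {g | g ∈ rlemE b j ∧
        Real.exp (k:ℝ) ≤ b j g * Real.exp ((j:ℝ) / 4 + C0) ∧
        b j g * Real.exp ((j:ℝ) / 4 + C0) ≤ Real.exp ((k:ℝ) + 1)} :=
        measure_biUnion_finset_le _ _
    _ ≤ ∑ _k ∈ Finset.range N, ENNReal.ofReal A := by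
        apply Finset.sum_le_sum
        intro k _
        exact rlem_level ν C0 c2 C1 r0 hc2 hC1 hr0 b hb hC0 hbd H j k
    _ = ENNReal.ofReal ((N:ℝ) * A) := by
        rw [Finset.sum_const, Finset.card_range, nsmul_eq_mul,
          ENNReal.ofReal_mul (p := (N:ℝ)) (by positivity), ENNReal.ofReal_natCast]
    _ ≤ _ := by
        apply ENNReal.ofReal_le_ofReal
        apply mul_le_mul_of_nonneg_right _ hAp
        have h1 : ((⌊(2 * C0 + 1) * ((j:ℝ) + 1)⌋₊ : ℕ) : ℝ) ≤ (2 * C0 + 1) * ((j:ℝ) + 1) :=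
          Nat.floor_le (by positivity)
        have hj : (0:ℝ) ≤ j := by positivity
        rw [hN]; push_cast; nlinarith

/-- RLEM -/
theorem rlem {B : Type} [MeasurableSpace B] (ν : Measure B) [IsFiniteMeasure ν]
    (C0 c2 C1 r0 : ℝ) (hC0 : 0 ≤ C0) (hc2 : 0 < c2) (hC1 : 0 < C1) (hr0 : 0 < r0) :
    ∃ C : ℝ, 0 < C ∧ ∀ b : ℕ → B → ℝ, (∀ n, Measurable (b n)) →
      (∀ (n : ℕ) (g : B), Real.exp (-(C0 * ((n:ℝ) + 1))) ≤ b n g ∧ b n g ≤ Real.exp (C0 * ((n:ℝ) + 1))) →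
      (∀ (n : ℕ) (r : ℝ), 0 < r → r ≤ r0 →
        ∫⁻ g in {g | r * ∑ j ∈ Finset.range (n + 1), b j g ≤ c2},
          ENNReal.ofReal (Real.sqrt (b n g)) ∂ν ≤
        ENNReal.ofReal (C1 * Real.exp (-(n:ℝ) / 4) / Real.sqrt r)) →
      ∀ n : ℕ, ∫⁻ g, ENNReal.ofReal (b n g ^ (1 / (16 * (C0 + 1)))) ∂ν ≤
        ENNReal.ofReal (C * Real.exp (-(n:ℝ) / (64 * (C0 + 1)))) := by
  set s : ℝ := 1 / (16 * (C0 + 1)) with hs
  have hsp : 0 < s := by rw [hs]; positivity
  set A : ℝ := C1 / Real.sqrt (min (c2 / 5) r0) * Real.exp ((1 + C0) / 2) with hA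
  have hAp : 0 ≤ A := by rw [hA]; positivity
  have hsum : Summable (fun j : ℕ => ((j:ℝ) + 1) * Real.exp (-(1/16 : ℝ) * j)) := by
    have h1 := Real.summable_pow_mul_exp_neg_nat_mul 1 (r := 1/16) (by norm_num)
    have h0 := Real.summable_pow_mul_exp_neg_nat_mul 0 (r := 1/16) (by norm_num)
    refine (h1.add h0).congr (fun j => ?_)
    simp only [pow_one, pow_zero, one_mul]
    ring
  set T : ℝ := ∑' j : ℕ, ((j:ℝ) + 1) * Real.exp (-(1/16 : ℝ) * j) with hT
  have hTp : 0 ≤ T := tsum_nonneg (fun j => by positivity)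
  refine ⟨(2 * C0 + 2) * A * Real.exp (1/16) * T + 1, by positivity, ?_⟩
  intro b hb hbd H n
  -- pointwise bound
  have hpt : ∀ g, ENNReal.ofReal (b n g ^ s) ≤
      ∑ j ∈ Finset.range (n + 1), (rlemE b j).indicator
        (fun _ => ENNReal.ofReal (Real.exp (-(s * n / 4)) * Real.exp (((j:ℝ) + 1) / 16))) g := by
    intro g
    obtain ⟨j, hj, hmax⟩ := Finset.exists_max_image (Finset.range (n + 1))
      (fun i => b i g * Real.exp ((i:ℝ) / 4)) ⟨0, by simp⟩
    have hjE : g ∈ rlemE b j := by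
      intro i hi
      apply hmax
      simp only [Finset.mem_range] at hi hj ⊢
      omega
    have hbp : 0 < b n g := lt_of_lt_of_le (Real.exp_pos _) (hbd n g).1
    have h1 : b n g ≤ Real.exp (-((n:ℝ) / 4)) * Real.exp ((C0 + 1) * ((j:ℝ) + 1)) := by
      have h2 := hmax n (by simp)
      have h3 := (hbd j g).2
      have h4 : b n g = b n g * Real.exp ((n:ℝ) / 4) * Real.exp (-((n:ℝ) / 4)) := by
        rw [mul_assoc, ← Real.exp_add]; simp
      rw [h4, mul_comm]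
      apply mul_le_mul_of_nonneg_left _ (Real.exp_pos _).le
      refine h2.trans ?_
      calc b j g * Real.exp ((j:ℝ) / 4) ≤ Real.exp (C0 * ((j:ℝ) + 1)) * Real.exp ((j:ℝ) / 4) :=
            mul_le_mul_of_nonneg_right h3 (Real.exp_pos _).le
        _ = Real.exp (C0 * ((j:ℝ) + 1) + (j:ℝ) / 4) := by rw [Real.exp_add]
        _ ≤ _ := by
            apply Real.exp_le_exp.mpr
            have hj0 : (0:ℝ) ≤ j := by positivity
            nlinarith
    have h5 : b n g ^ s ≤ Real.exp (-(s * n / 4)) * Real.exp (((j:ℝ) + 1) / 16) := by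
      calc b n g ^ s ≤ (Real.exp (-((n:ℝ) / 4)) * Real.exp ((C0 + 1) * ((j:ℝ) + 1))) ^ s :=
            Real.rpow_le_rpow hbp.le h1 hsp.le
        _ = Real.exp (-(s * n / 4)) * Real.exp (((j:ℝ) + 1) / 16) := by
            rw [← Real.exp_add, ← Real.exp_mul, ← Real.exp_add]
            congr 1
            rw [hs]
            have : C0 + 1 ≠ 0 := by positivity
            field_simp
    calc ENNReal.ofReal (b n g ^ s)
        ≤ ENNReal.ofReal (Real.exp (-(s * n / 4)) * Real.exp (((j:ℝ) + 1) / 16)) :=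
          ENNReal.ofReal_le_ofReal h5
      _ = (rlemE b j).indicator
        (fun _ => ENNReal.ofReal (Real.exp (-(s * n / 4)) * Real.exp (((j:ℝ) + 1) / 16))) g := by
          rw [indicator_of_mem hjE]
      _ ≤ _ := Finset.single_le_sum (f := fun j => (rlemE b j).indicator
        (fun _ => ENNReal.ofReal (Real.exp (-(s * n / 4)) * Real.exp (((j:ℝ) + 1) / 16))) g)
          (fun i _ => bot_le) hj
  calc ∫⁻ g, ENNReal.ofReal (b n g ^ s) ∂ν
      ≤ ∫⁻ g, ∑ j ∈ Finset.range (n + 1), (rlemE b j).indicator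
        (fun _ => ENNReal.ofReal (Real.exp (-(s * n / 4)) * Real.exp (((j:ℝ) + 1) / 16))) g ∂ν :=
        lintegral_mono hpt
    _ = ∑ j ∈ Finset.range (n + 1), ∫⁻ g, (rlemE b j).indicator
        (fun _ => ENNReal.ofReal (Real.exp (-(s * n / 4)) * Real.exp (((j:ℝ) + 1) / 16))) g ∂ν := by
        rw [lintegral_finsetSum]
        intro j _
        exact measurable_const.indicator (rlem_measE b hb j)
    _ = ∑ j ∈ Finset.range (n + 1),
        ENNReal.ofReal (Real.exp (-(s * n / 4)) * Real.exp (((j:ℝ) + 1) / 16)) * ν (rlemE b j) := by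
        apply Finset.sum_congr rfl
        intro j _
        rw [lintegral_indicator_const (rlem_measE b hb j)]
    _ ≤ ∑ j ∈ Finset.range (n + 1),
        ENNReal.ofReal ((Real.exp (-(s * n / 4)) * Real.exp (((j:ℝ) + 1) / 16)) *
          ((2 * C0 + 2) * ((j:ℝ) + 1) * (A * Real.exp (-(j:ℝ) / 8)))) := by
        apply Finset.sum_le_sum
        intro j _
        rw [ENNReal.ofReal_mul (p := Real.exp (-(s * n / 4)) * Real.exp (((j:ℝ) + 1) / 16))
          (by positivity)]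
        gcongr
        exact rlem_E ν C0 c2 C1 r0 hc2 hC1 hr0 b hb hC0 hbd H j
    _ = ENNReal.ofReal (∑ j ∈ Finset.range (n + 1),
        ((Real.exp (-(s * n / 4)) * Real.exp (((j:ℝ) + 1) / 16)) *
          ((2 * C0 + 2) * ((j:ℝ) + 1) * (A * Real.exp (-(j:ℝ) / 8))))) := by
        rw [ENNReal.ofReal_sum_of_nonneg]
        intro j _; positivity
    _ ≤ _ := by
        apply ENNReal.ofReal_le_ofReal
        have e1 : ∀ j : ℕ, (Real.exp (-(s * n / 4)) * Real.exp (((j:ℝ) + 1) / 16)) *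
          ((2 * C0 + 2) * ((j:ℝ) + 1) * (A * Real.exp (-(j:ℝ) / 8))) =
          ((2 * C0 + 2) * A * Real.exp (1/16) * Real.exp (-(s * n / 4))) *
            (((j:ℝ) + 1) * Real.exp (-(1/16 : ℝ) * j)) := by
          intro j
          have : Real.exp (((j:ℝ) + 1) / 16) * Real.exp (-(j:ℝ) / 8) =
              Real.exp (1/16) * Real.exp (-(1/16 : ℝ) * j) := by
            rw [← Real.exp_add, ← Real.exp_add]; congr 1; ring
          calc _ = ((2 * C0 + 2) * A * Real.exp (-(s * n / 4))) * ((j:ℝ) + 1) *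
                (Real.exp (((j:ℝ) + 1) / 16) * Real.exp (-(j:ℝ) / 8)) := by ring
            _ = _ := by rw [this]; ring
        rw [Finset.sum_congr rfl (fun j _ => e1 j), ← Finset.mul_sum]
        have h6 : ∑ j ∈ Finset.range (n + 1), ((j:ℝ) + 1) * Real.exp (-(1/16 : ℝ) * j) ≤ T :=
          hsum.sum_le_tsum _ (fun j _ => by positivity)
        have h7 : Real.exp (-(s * n / 4)) = Real.exp (-(n:ℝ) / (64 * (C0 + 1))) := by
          congr 1; rw [hs]
          have : C0 + 1 ≠ 0 := by positivity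
          field_simp; ring
        rw [h7]
        calc (2 * C0 + 2) * A * Real.exp (1/16) * Real.exp (-(n:ℝ) / (64 * (C0 + 1))) *
              ∑ j ∈ Finset.range (n + 1), ((j:ℝ) + 1) * Real.exp (-(1/16 : ℝ) * j)
            ≤ (2 * C0 + 2) * A * Real.exp (1/16) * Real.exp (-(n:ℝ) / (64 * (C0 + 1))) * T :=
              mul_le_mul_of_nonneg_left h6 (by positivity)
          _ = ((2 * C0 + 2) * A * Real.exp (1/16) * T) * Real.exp (-(n:ℝ) / (64 * (C0 + 1))) := by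
              ring
          _ ≤ _ := by
              apply mul_le_mul_of_nonneg_right _ (Real.exp_pos _).le
              linarith

end Pool.Agent.H88.LF

end S_H88_LF_RLEM

section S_H88_LF_RATE

/-!
# RATE (blueprint section 6)
-/

set_option autoImplicit false

open MeasureTheory Set Filter
open scoped Topology ENNReal

namespace Pool.Agent.H88.LF

variable {X : Type} [MetricSpace X] [CompactSpace X] [MulAction G X] [ContinuousSMul G X]

variable [MeasurableSpace X] [BorelSpace X]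

theorem rate_sqrt_div {r : ℝ} (hr : 0 < r) (a : ℝ) : a * Real.sqrt r / r = a / Real.sqrt r := by
  have h1 : 0 < Real.sqrt r := Real.sqrt_pos.2 hr
  have h2 : r = Real.sqrt r * Real.sqrt r := (Real.mul_self_sqrt hr.le).symm
  rw [div_eq_div_iff hr.ne' h1.ne']
  nth_rewrite 3 [h2]
  ring

/-- averaging over `t` in `(0,r)` -/
theorem rate_avg {A : ℝ≥0∞} {I : ℝ → ℝ≥0∞} {r c B : ℝ} (hr : 0 < r) (hc : 0 ≤ c) (hB : 0 ≤ B)
    (h : ∀ t, 0 < t → t < r → A ≤ ENNReal.ofReal c * I t)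
    (hI : ∫⁻ t in Ioo 0 r, I t ≤ ENNReal.ofReal B) :
    A ≤ ENNReal.ofReal (c * B / r) := by
  have h1 : ∫⁻ _t in Ioo (0:ℝ) r, A ≤ ∫⁻ t in Ioo (0:ℝ) r, ENNReal.ofReal c * I t :=
    setLIntegral_mono' measurableSet_Ioo (fun t ht => h t ht.1 ht.2)
  rw [lintegral_const_mul' _ _ ENNReal.ofReal_ne_top, setLIntegral_const, Real.volume_Ioo,
    sub_zero] at h1
  have h2 : A * ENNReal.ofReal r ≤ ENNReal.ofReal (c * B) := by
    rw [ENNReal.ofReal_mul hc]
    exact h1.trans (mul_le_mul_right hI _)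
  rw [ENNReal.ofReal_div_of_pos hr]
  rw [ENNReal.le_div_iff_mul_le (Or.inl (by simpa using hr)) (Or.inl ENNReal.ofReal_ne_top)]
  exact h2

/-- RATE.  Fix `ρ`, `C` from `star2`, then `ρ' ≤ ρ`, `r0`, `c2` from `sh`.  For `0 < t < r ≤ min r0 r1` apply `sh` to `σt`, integrate over `t ∈ (0,r)` and use `star2`:
`r ∫_{good} √b_n ≤ C C' e^{-n/4} √r` (`‖n•θ‖ = n`), then `rlem` with `ν = hG.restrict (Bl ρ')` (the constant of `rlem` depends only on `C0,c2,C1,r0`). -/
theorem rate {S : FB X} {T : TN S} {μ : Measure X} (hμ : T.IsMu μ) (R : URep (Lp ℂ 2 μ))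
    (hR : hμ.kd.IsKoop R) (C0 : ℝ) (hC0 : T.Growth C0) (θ : ℝ × ℝ) (hθ : Reg θ) (hθ1 : ‖θ‖ = 1) :
    ∃ ρ' : ℝ, 0 < ρ' ∧ ρ' ≤ 1 ∧ ∀ r1 : ℝ, 0 < r1 → ∃ C : ℝ, 0 < C ∧
      ∀ (Ω : Set X), MeasurableSet Ω → (∀ (g : G), ∀ x ∈ Ω, g • x ∈ Ω) → NIV R Ω →
      ∀ (x : X) (σ : ℝ), (σ = 1 ∨ σ = -1) → (∀ t, 0 < t → t < r1 → S.cur x (σ * t) ∈ Ω) →
      ∀ n : ℕ, ∫⁻ g in Bl ρ',
        ENNReal.ofReal (T.J (D ((n:ℝ) • θ) * g) x ^ (1 / (16 * (C0 + 1)))) ∂hG ≤
        ENNReal.ofReal (C * Real.exp (-(n:ℝ) / (64 * (C0 + 1)))) := by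
  obtain ⟨ρ, hρ, hρ1, C1, hC1, hstar⟩ := star2 hμ R hR
  obtain ⟨ρ', hρ', hρρ, r0, hr0, hr04, c2, hc2, C2, hC2, hsh⟩ := sh T θ hθ ρ hρ
  refine ⟨ρ', hρ', hρρ.trans hρ1, ?_⟩
  intro r1 hr1
  have hfin : IsFiniteMeasure (hG.restrict (Bl ρ')) := by
    refine ⟨?_⟩
    rw [Measure.restrict_apply_univ]
    exact (isCompact_Bl ρ').measure_lt_top
  obtain ⟨C, hC, hrl⟩ := rlem (hG.restrict (Bl ρ')) C0 c2 (C2 * C1) (min r0 r1)
    (by linarith [hC0.1]) hc2 (by positivity) (lt_min hr0 hr1)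
  refine ⟨C, hC, ?_⟩
  intro Ω hΩm hΩ hniv x σ hσ hcur n
  -- the truncated functions
  set b : ℕ → G → ℝ := fun m g => max (Real.exp (-(C0 * ((m:ℝ) + 1))))
    (min (T.J (D ((m:ℝ) • θ) * g) x) (Real.exp (C0 * ((m:ℝ) + 1)))) with hb
  have hbJ : ∀ m, ∀ g ∈ Bl ρ', b m g = T.J (D ((m:ℝ) • θ) * g) x := by
    intro m g hg
    have hg1 : g ∈ Bl 1 := Bl_mono (hρρ.trans hρ1) hg
    have h1 := hC0.2 ((m:ℝ) • θ) g x hg1
    rw [norm_smul, hθ1, mul_one, Real.norm_of_nonneg (Nat.cast_nonneg m)] at h1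
    rw [hb]
    simp only
    rw [min_eq_left h1.2, max_eq_right h1.1]
  have hJc : ∀ m : ℕ, Continuous (fun g : G => T.J (D ((m:ℝ) • θ) * g) x) := by
    intro m
    exact T.continuous_J.comp ((continuous_const.mul continuous_id).prodMk continuous_const)
  have hbm : ∀ m, Measurable (b m) := by
    intro m
    exact measurable_const.max ((hJc m).measurable.min measurable_const)
  have hbb : ∀ (m : ℕ) (g : G), Real.exp (-(C0 * ((m:ℝ) + 1))) ≤ b m g ∧
      b m g ≤ Real.exp (C0 * ((m:ℝ) + 1)) := by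
    intro m g
    refine ⟨le_max_left _ _, max_le ?_ (min_le_right _ _)⟩
    apply Real.exp_le_exp.2
    have h1 : 0 ≤ C0 * ((m:ℝ) + 1) := mul_nonneg (by linarith [hC0.1]) (by positivity)
    linarith
  have hmain : ∀ (m : ℕ) (r : ℝ), 0 < r → r ≤ min r0 r1 →
      ∫⁻ g in {g | r * ∑ j ∈ Finset.range (m + 1), b j g ≤ c2},
        ENNReal.ofReal (Real.sqrt (b m g)) ∂(hG.restrict (Bl ρ')) ≤
      ENNReal.ofReal (C2 * C1 * Real.exp (-(m:ℝ) / 4) / Real.sqrt r) := by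
    intro m r hr hrr
    have hrr0 : r ≤ r0 := hrr.trans (min_le_left _ _)
    have hrr1 : r ≤ r1 := hrr.trans (min_le_right _ _)
    have hmeas : MeasurableSet {g : G | r * ∑ j ∈ Finset.range (m + 1), b j g ≤ c2} := by
      refine measurableSet_le ?_ measurable_const
      exact (Finset.measurable_fun_sum _ (fun j _ => hbm j)).const_mul r
    rw [Measure.restrict_restrict hmeas]
    set E : Set G := {g | g ∈ Bl ρ' ∧
      r * ∑ j ∈ Finset.range (m + 1), T.J ((D θ) ^ j * g) x ≤ c2} with hE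
    have hEeq : {g : G | r * ∑ j ∈ Finset.range (m + 1), b j g ≤ c2} ∩ Bl ρ' = E := by
      ext g
      rw [hE]
      constructor
      · rintro ⟨h1, h2⟩
        refine ⟨h2, ?_⟩
        rw [mem_ofPred_eq] at h1
        rw [Finset.sum_congr rfl (fun j _ => hbJ j g h2)] at h1
        simp only [D_nsmul] at h1
        exact h1
      · rintro ⟨h2, h1⟩
        refine ⟨?_, h2⟩
        rw [mem_ofPred_eq, Finset.sum_congr rfl (fun j _ => hbJ j g h2)]
        simp only [D_nsmul]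
        exact h1
    rw [hEeq]
    have hEm : MeasurableSet E := by
      rw [← hEeq]
      exact hmeas.inter (measurableSet_Bl ρ')
    have hA : ∫⁻ g in E, ENNReal.ofReal (Real.sqrt (b m g)) ∂hG =
        ∫⁻ g in E, ENNReal.ofReal (Real.sqrt (T.J ((D θ) ^ m * g) x)) ∂hG := by
      apply setLIntegral_congr_fun hEm
      intro g hg
      simp only
      rw [hbJ m g hg.1, D_nsmul]
    rw [hA]
    have hnorm : ‖(m:ℝ) • θ‖ = m := by
      rw [norm_smul, hθ1, mul_one, Real.norm_of_nonneg (Nat.cast_nonneg m)]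
    have h3 := hstar Ω hΩm hΩ hniv x σ hσ r hr (hrr0.trans hr04)
      (fun t ht1 ht2 => hcur t ht1 (ht2.trans_le hrr1)) ((m:ℝ) • θ)
    rw [hnorm] at h3
    have h4 := rate_avg (A := ∫⁻ g in E, ENNReal.ofReal (Real.sqrt (T.J ((D θ) ^ m * g) x)) ∂hG)
      (I := fun t => ∫⁻ h in Bl ρ,
        ENNReal.ofReal (Real.sqrt (T.J (D ((m:ℝ) • θ) * h) (S.cur x (σ * t)))) ∂hG)
      (c := C2) (B := C1 * Real.exp (-(m:ℝ) / 4) * Real.sqrt r) hr hC2.le (by positivity) (by
        intro t ht1 ht2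
        have habs : |σ * t| < r := by
          rcases hσ with rfl | rfl
          · rw [one_mul, abs_of_pos ht1]; exact ht2
          · rw [neg_one_mul, abs_neg, abs_of_pos ht1]; exact ht2
        have h5 := hsh x m r (σ * t) hr hrr0 habs
        simp only [D_nsmul]
        exact h5) h3
    refine h4.trans (le_of_eq ?_)
    congr 1
    rw [← rate_sqrt_div hr]
    ring
  have hfinal := hrl b hbm hbb hmain n
  refine le_trans (le_of_eq ?_) hfinal
  apply setLIntegral_congr_fun (measurableSet_Bl ρ')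
  intro g hg
  simp only
  rw [hbJ n g hg]

end Pool.Agent.H88.LF

end S_H88_LF_RATE

section S_H88_LF_CSTN

/-!
# CSTN (blueprint section 6)
-/

set_option autoImplicit false

open MeasureTheory Set Filter
open scoped Topology ENNReal

namespace Pool.Agent.H88.LF

variable {X : Type} [MetricSpace X] [CompactSpace X] [MulAction G X] [ContinuousSMul G X]

variable [MeasurableSpace X] [BorelSpace X]

/-- CSTN: `rate` for `Ω = univ` in the directions of a net with `δ = 1/(8(C0+1))`; for `v` take `θ` in the net near `v/‖v‖` and `n = ⌊‖v‖⌋`: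
`‖v - n•θ‖ ≤ δ‖v‖ + 1`, `J(D v g,x) = J(D(v-nθ),·) J(D(nθ)g,x) ≤ e^{C0(δ‖v‖+2)} J(D(nθ)g,x)`. -/
theorem cstar_of_niv {S : FB X} {T : TN S} {μ : Measure X} (hμ : T.IsMu μ)
    (R : URep (Lp ℂ 2 μ)) (hR : hμ.kd.IsKoop R) (h : NIV R univ) : T.CStar := by
  obtain ⟨C0, hC0⟩ := T.exists_growth
  have hC1 : (1 : ℝ) ≤ C0 := hC0.1
  obtain ⟨F, hF, hnet⟩ := exists_net (1 / (8 * (C0 + 1))) (by positivity)
  have h0 : ∀ θ, θ ∈ F → ∃ ρ' : ℝ, 0 < ρ' ∧ ∃ C : ℝ, 0 < C ∧ ∀ (x : X) (n : ℕ),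
      ∫⁻ g in Bl ρ', ENNReal.ofReal (T.J (D ((n:ℝ) • θ) * g) x ^ (1 / (16 * (C0 + 1)))) ∂hG ≤
        ENNReal.ofReal (C * Real.exp (-(n:ℝ) / (64 * (C0 + 1)))) := by
    intro θ hθ
    obtain ⟨ρ', hρ', -, hr⟩ := rate hμ R hR C0 hC0 θ (hF θ hθ).1 (hF θ hθ).2
    obtain ⟨C, hC, hr1⟩ := hr 1 one_pos
    refine ⟨ρ', hρ', C, hC, fun x n => ?_⟩
    exact hr1 univ MeasurableSet.univ (fun _ _ _ => mem_univ _) h x 1 (Or.inl rfl)
      (fun _ _ _ => mem_univ _) n
  choose! ρ hρ C hC hbd using h0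
  have hρs : 0 ≤ ∑ θ ∈ F, (ρ θ)⁻¹ := Finset.sum_nonneg fun θ hθ => (inv_pos.2 (hρ θ hθ)).le
  have hCs : 0 ≤ ∑ θ ∈ F, C θ := Finset.sum_nonneg fun θ hθ => (hC θ hθ).le
  set s : ℝ := 1 / (16 * (C0 + 1)) with hs
  have hs0 : 0 < s := by positivity
  refine ⟨s, hs0, 1 / (128 * (C0 + 1)), by positivity,
    Real.exp (s * (2 * C0)) * ((1 + ∑ θ ∈ F, C θ) * Real.exp (1 / (64 * (C0 + 1)))),
    by positivity, (1 + ∑ θ ∈ F, (ρ θ)⁻¹)⁻¹, by positivity, fun x v => ?_⟩
  obtain ⟨u, hu, hvu⟩ : ∃ u : ℝ × ℝ, ‖u‖ = 1 ∧ v = ‖v‖ • u := by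
    by_cases hv : v = 0
    · refine ⟨(1, 0), by simp [Prod.norm_def], ?_⟩
      rw [hv, norm_zero, zero_smul]
    · have hn : ‖v‖ ≠ 0 := norm_ne_zero_iff.2 hv
      refine ⟨‖v‖⁻¹ • v, ?_, ?_⟩
      · rw [norm_smul, norm_inv, norm_norm, inv_mul_cancel₀ hn]
      · rw [smul_smul, mul_inv_cancel₀ hn, one_smul]
  obtain ⟨θ, hθ, hθu⟩ := hnet u hu
  set n : ℕ := ⌊‖v‖⌋₊ with hn
  have hn1 : (n : ℝ) ≤ ‖v‖ := Nat.floor_le (norm_nonneg v)
  have hn2 : ‖v‖ < n + 1 := Nat.lt_floor_add_one ‖v‖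
  set w : ℝ × ℝ := v - (n : ℝ) • θ with hw
  have hwn : ‖w‖ ≤ 1 / (8 * (C0 + 1)) * ‖v‖ + 1 := by
    have h1 : w = ‖v‖ • (u - θ) + (‖v‖ - n) • θ := by
      rw [hw]
      nth_rewrite 1 [hvu]
      module
    rw [h1]
    refine (norm_add_le _ _).trans ?_
    rw [norm_smul, norm_smul, norm_norm, (hF θ hθ).2, mul_one]
    have h2 : ‖‖v‖ - (n : ℝ)‖ ≤ 1 := by
      rw [Real.norm_eq_abs, abs_le]
      constructor <;> linarith
    have h3 : ‖v‖ * ‖u - θ‖ ≤ ‖v‖ * (1 / (8 * (C0 + 1))) := by gcongr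
    linarith
  have hJ : ∀ g : G, T.J (D v * g) x ^ s ≤
      Real.exp (s * (C0 * (‖w‖ + 1))) * T.J (D ((n:ℝ) • θ) * g) x ^ s := by
    intro g
    have h1 : D v = D w * D ((n:ℝ) • θ) := by
      rw [← D_add, hw, sub_add_cancel]
    rw [h1, mul_assoc, T.J_mul]
    have h2 := (hC0.2 w 1 ((D ((n:ℝ) • θ) * g) • x) (by
      change nd 1 ≤ 1
      rw [nd_one]
      exact zero_le_one)).2
    rw [mul_one] at h2
    have h3 := (T.J_pos (D w) ((D ((n:ℝ) • θ) * g) • x)).le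
    have h4 := (T.J_pos (D ((n:ℝ) • θ) * g) x).le
    rw [Real.mul_rpow h3 h4]
    refine mul_le_mul_of_nonneg_right ?_ (Real.rpow_nonneg h4 s)
    calc T.J (D w) ((D ((n:ℝ) • θ) * g) • x) ^ s ≤ Real.exp (C0 * (‖w‖ + 1)) ^ s :=
          Real.rpow_le_rpow h3 h2 hs0.le
      _ = Real.exp (s * (C0 * (‖w‖ + 1))) := by rw [← Real.exp_mul, mul_comm]
  have hsub : Bl ((1 + ∑ θ ∈ F, (ρ θ)⁻¹)⁻¹) ⊆ Bl (ρ θ) := by
    refine Bl_mono ?_
    have h1 : (ρ θ)⁻¹ ≤ 1 + ∑ θ ∈ F, (ρ θ)⁻¹ := by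
      have := Finset.single_le_sum (f := fun θ => (ρ θ)⁻¹)
        (fun θ hθ => (inv_pos.2 (hρ θ hθ)).le) hθ
      linarith
    exact (inv_le_comm₀ (by positivity) (hρ θ hθ)).2 h1
  have hCθ : C θ ≤ 1 + ∑ θ ∈ F, C θ := by
    have := Finset.single_le_sum (f := fun θ => C θ) (fun θ hθ => (hC θ hθ).le) hθ
    linarith
  calc ∫⁻ g in Bl ((1 + ∑ θ ∈ F, (ρ θ)⁻¹)⁻¹), ENNReal.ofReal (T.J (D v * g) x ^ s) ∂hG
      ≤ ∫⁻ g in Bl (ρ θ), ENNReal.ofReal (T.J (D v * g) x ^ s) ∂hG := lintegral_mono_set hsub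
    _ ≤ ∫⁻ g in Bl (ρ θ), ENNReal.ofReal (Real.exp (s * (C0 * (‖w‖ + 1)))) *
          ENNReal.ofReal (T.J (D ((n:ℝ) • θ) * g) x ^ s) ∂hG := by
        refine lintegral_mono fun g => ?_
        rw [← ENNReal.ofReal_mul (Real.exp_pos _).le]
        exact ENNReal.ofReal_le_ofReal (hJ g)
    _ = ENNReal.ofReal (Real.exp (s * (C0 * (‖w‖ + 1)))) *
          ∫⁻ g in Bl (ρ θ), ENNReal.ofReal (T.J (D ((n:ℝ) • θ) * g) x ^ s) ∂hG :=
        lintegral_const_mul' _ _ ENNReal.ofReal_ne_top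
    _ ≤ ENNReal.ofReal (Real.exp (s * (C0 * (‖w‖ + 1)))) *
          ENNReal.ofReal (C θ * Real.exp (-(n:ℝ) / (64 * (C0 + 1)))) :=
        mul_le_mul_right (hbd θ hθ x n) _
    _ = ENNReal.ofReal (Real.exp (s * (C0 * (‖w‖ + 1))) *
          (C θ * Real.exp (-(n:ℝ) / (64 * (C0 + 1))))) :=
        (ENNReal.ofReal_mul (Real.exp_pos _).le).symm
    _ ≤ _ := by
        refine ENNReal.ofReal_le_ofReal ?_
        have hK : 0 < C0 + 1 := by linarith
        have hCθ0 : 0 ≤ C θ := (hC θ hθ).le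
        have e1 : s * (C0 * (‖w‖ + 1)) ≤ s * (2 * C0) + 1 / (128 * (C0 + 1)) * ‖v‖ := by
          have h1 : s * (C0 * (‖w‖ + 1)) ≤
              s * (C0 * (1 / (8 * (C0 + 1)) * ‖v‖ + 1 + 1)) := by gcongr
          refine h1.trans ?_
          have h2 : s * (C0 * (1 / (8 * (C0 + 1)) * ‖v‖ + 1 + 1))
              = s * (2 * C0) + (s * C0) * (1 / (8 * (C0 + 1))) * ‖v‖ := by ring
          rw [h2]
          have h3 : s * C0 ≤ 1 / 16 := by
            rw [hs, one_div, ← div_eq_inv_mul, div_le_iff₀ (by positivity)]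
            linarith
          have h4 : (s * C0) * (1 / (8 * (C0 + 1))) * ‖v‖ ≤
              1 / 16 * (1 / (8 * (C0 + 1))) * ‖v‖ := by gcongr
          have h5 : 1 / 16 * (1 / (8 * (C0 + 1))) * ‖v‖ = 1 / (128 * (C0 + 1)) * ‖v‖ := by
            field_simp
            ring
          linarith
        have e2 : -(n:ℝ) / (64 * (C0 + 1)) ≤ 1 / (64 * (C0 + 1)) +
            (-(1 / (64 * (C0 + 1))) * ‖v‖) := by
          have h1 : 1 / (64 * (C0 + 1)) + (-(1 / (64 * (C0 + 1))) * ‖v‖)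
              = (1 - ‖v‖) / (64 * (C0 + 1)) := by
            field_simp
            ring
          rw [h1]
          gcongr
          linarith
        calc Real.exp (s * (C0 * (‖w‖ + 1))) * (C θ * Real.exp (-(n:ℝ) / (64 * (C0 + 1))))
            ≤ Real.exp (s * (2 * C0) + 1 / (128 * (C0 + 1)) * ‖v‖) *
              ((1 + ∑ θ ∈ F, C θ) * Real.exp (1 / (64 * (C0 + 1)) +
                (-(1 / (64 * (C0 + 1))) * ‖v‖))) := by gcongr
          _ = Real.exp (s * (2 * C0)) *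
              ((1 + ∑ θ ∈ F, C θ) * Real.exp (1 / (64 * (C0 + 1)))) *
              (Real.exp (1 / (128 * (C0 + 1)) * ‖v‖) *
                Real.exp (-(1 / (64 * (C0 + 1))) * ‖v‖)) := by
              rw [Real.exp_add, Real.exp_add]
              ring
          _ = _ := by
              rw [← Real.exp_add]
              congr 2
              field_simp
              ring

end Pool.Agent.H88.LF

end S_H88_LF_CSTN

section S_H88_LF_INVH

/-!
# INVH: definition of heights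
-/

set_option autoImplicit false

open MeasureTheory Set Filter
open scoped Topology ENNReal

namespace Pool.Agent.H88.LF

variable {X : Type} [MetricSpace X] [CompactSpace X] [MulAction G X] [ContinuousSMul G X]

/-- A system of heights: along every arrow the heights change by an isometry, locally constant. -/
def FB.IsHeight (S : FB X) (N : Fin S.n → ℝ → ℝ) : Prop :=
  ∀ i j t0 τ0 k0, S.Arr i j t0 τ0 k0 → ∀ᶠ t in 𝓝 t0,
    N j (S.τf i j t0 τ0 k0 t) - N j τ0 = Real.sign (S.dτ i j t0 τ0 k0) * (N i t - N i t0)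

end Pool.Agent.H88.LF

end S_H88_LF_INVH

section S_H88_LF_INVA

/-!
# INVA (blueprint section 7)
-/

set_option autoImplicit false

open MeasureTheory Set Filter
open scoped Topology ENNReal

namespace Pool.Agent.H88.LF

/-- a nonnegative function vanishes where its primitive is constant -/
theorem INVA_flat {F : ℝ → ℝ} (hF0 : ∀ t, 0 ≤ F t) (hFi : Integrable F) (c : ℝ) :
    ∀ᵐ s : ℝ, |s| < 1 → (∫ x in (0 : ℝ)..s, F x) = c → F s = 0 := by
  have hint : ∀ a b : ℝ, IntervalIntegrable F volume a b := fun a b => hFi.intervalIntegrable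
  have hcont : Continuous (fun s : ℝ => ∫ x in (0 : ℝ)..s, F x) :=
    intervalIntegral.continuous_primitive hint 0
  set A : Set ℝ := Icc (-1) 1 ∩ {s | (∫ x in (0 : ℝ)..s, F x) = c} with hA
  have hAc : IsCompact A := isCompact_Icc.inter_right (isClosed_eq hcont continuous_const)
  rcases A.eq_empty_or_nonempty with h0 | hne
  · refine Eventually.of_forall fun s hs hc => ?_
    exfalso
    have : s ∈ A := ⟨⟨(abs_lt.1 hs).1.le, (abs_lt.1 hs).2.le⟩, hc⟩
    rw [h0] at this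
    exact this
  · obtain ⟨a, haA, ha⟩ := hAc.exists_isLeast hne
    obtain ⟨b, hbA, hb⟩ := hAc.exists_isGreatest hne
    have hab : a ≤ b := ha hbA
    have h1 : ∫ x in a..b, F x = 0 := by
      have := intervalIntegral.integral_interval_sub_left (hint 0 b) (hint 0 a)
      rw [← this, show (∫ x in (0 : ℝ)..b, F x) = c from hbA.2,
        show (∫ x in (0 : ℝ)..a, F x) = c from haA.2, sub_self]
    rw [intervalIntegral.integral_of_le hab] at h1
    rw [setIntegral_eq_zero_iff_of_nonneg_ae (Eventually.of_forall fun x => hF0 x)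
      hFi.integrableOn] at h1
    rw [EventuallyEq, ae_restrict_iff' measurableSet_Ioc] at h1
    have h2 : ∀ᵐ s : ℝ, s ≠ a := by
      rw [ae_iff]
      simp
    filter_upwards [h1, h2] with s hs hsa hs1 hsc
    have hsA : s ∈ A := ⟨⟨(abs_lt.1 hs1).1.le, (abs_lt.1 hs1).2.le⟩, hsc⟩
    exact hs ⟨lt_of_le_of_ne (ha hsA) (Ne.symm hsa), hb hsA⟩

/-- primitives and monotone changes of variable -/
theorem INVA_step {F H : ℝ → ℝ} (hFi : Integrable F)
    (hHi : Integrable H) {τ τ' : ℝ → ℝ} {t0 ε : ℝ}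
    (hder : ∀ t, |t - t0| < ε → HasDerivAt τ (τ' t) t)
    (hsgn : (∀ t, |t - t0| < ε → 0 < τ' t) ∨ (∀ t, |t - t0| < ε → τ' t < 0))
    (hFH : ∀ᵐ s : ℝ, |s - t0| < ε → F s = |τ' s| * H (τ s)) {t : ℝ} (ht : |t - t0| < ε) :
    (∫ x in (0 : ℝ)..(τ t), H x) - (∫ x in (0 : ℝ)..(τ t0), H x) =
      Real.sign (τ' t0) * ((∫ x in (0 : ℝ)..t, F x) - (∫ x in (0 : ℝ)..t0, F x)) := by
  have hε : 0 < ε := lt_of_le_of_lt (abs_nonneg _) ht
  have hintF : ∀ a b : ℝ, IntervalIntegrable F volume a b := fun a b => hFi.intervalIntegrable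
  have hintH : ∀ a b : ℝ, IntervalIntegrable H volume a b := fun a b => hHi.intervalIntegrable
  rw [intervalIntegral.integral_interval_sub_left (hintH _ _) (hintH _ _),
    intervalIntegral.integral_interval_sub_left (hintF _ _) (hintF _ _)]
  have hsub : ∀ s ∈ uIcc t0 t, |s - t0| < ε := by
    intro s hs
    have h1 : |s - t0| ≤ |t - t0| := by
      rcases le_total t0 t with h | h
      · rw [uIcc_of_le h] at hs
        rw [abs_of_nonneg (by linarith [hs.1]), abs_of_nonneg (by linarith)]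
        linarith [hs.2]
      · rw [uIcc_of_ge h] at hs
        rw [abs_of_nonpos (by linarith [hs.2]), abs_of_nonpos (by linarith)]
        linarith [hs.1]
    exact lt_of_le_of_lt h1 ht
  have hcont : ContinuousOn τ (uIcc t0 t) := fun s hs =>
    (hder s (hsub s hs)).continuousAt.continuousWithinAt
  have hint_sub : interior (uIcc t0 t) ⊆ uIcc t0 t := interior_subset
  have hmono : (StrictMonoOn τ (uIcc t0 t) ∧ 0 < τ' t0) ∨
      (StrictAntiOn τ (uIcc t0 t) ∧ τ' t0 < 0) := by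
    have h00 : |t0 - t0| < ε := by simpa using hε
    rcases hsgn with h | h
    · left
      refine ⟨strictMonoOn_of_deriv_pos (convex_uIcc _ _) hcont fun s hs => ?_, h t0 h00⟩
      rw [(hder s (hsub s (hint_sub hs))).deriv]
      exact h s (hsub s (hint_sub hs))
    · right
      refine ⟨strictAntiOn_of_deriv_neg (convex_uIcc _ _) hcont fun s hs => ?_, h t0 h00⟩
      rw [(hder s (hsub s (hint_sub hs))).deriv]
      exact h s (hsub s (hint_sub hs))
  have hinj : InjOn τ (uIcc t0 t) := by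
    rcases hmono with h | h
    · exact h.1.injOn
    · exact h.1.injOn
  have himg : τ '' uIcc t0 t = uIcc (τ t0) (τ t) := by
    refine Subset.antisymm ?_ (intermediate_value_uIcc hcont)
    rcases hmono with h | h
    · exact (h.1.monotoneOn.mapsTo_uIcc).image_subset
    · exact (h.1.antitoneOn.mapsTo_uIcc).image_subset
  have hch : ∫ x in uIcc (τ t0) (τ t), H x = ∫ x in uIcc t0 t, F x := by
    rw [← himg, integral_image_eq_integral_abs_deriv_smul measurableSet_uIcc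
      (fun s hs => (hder s (hsub s hs)).hasDerivWithinAt) hinj]
    refine setIntegral_congr_ae measurableSet_uIcc ?_
    filter_upwards [hFH] with s hs hs1
    rw [hs (hsub s hs1), smul_eq_mul]
  have habsF : ∀ a b : ℝ, a ≤ b → ∫ x in a..b, F x = ∫ x in uIcc a b, F x := by
    intro a b hab
    rw [intervalIntegral.integral_of_le hab, uIcc_of_le hab]
    exact setIntegral_congr_set Ioc_ae_eq_Icc
  have habsH : ∀ a b : ℝ, a ≤ b → ∫ x in a..b, H x = ∫ x in uIcc a b, H x := by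
    intro a b hab
    rw [intervalIntegral.integral_of_le hab, uIcc_of_le hab]
    exact setIntegral_congr_set Ioc_ae_eq_Icc
  rcases hmono with ⟨hm, hp⟩ | ⟨hm, hp⟩
  · rw [Real.sign_of_pos hp, one_mul]
    rcases le_total t0 t with h | h
    · rw [habsH _ _ (hm.monotoneOn left_mem_uIcc right_mem_uIcc h), habsF _ _ h, hch]
    · rw [intervalIntegral.integral_symm, intervalIntegral.integral_symm t,
        habsH _ _ (hm.monotoneOn right_mem_uIcc left_mem_uIcc h), habsF _ _ h,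
        uIcc_comm (τ t) (τ t0), hch, uIcc_comm t0 t]
  · rw [Real.sign_of_neg hp]
    rcases le_total t0 t with h | h
    · rw [intervalIntegral.integral_symm,
        habsH _ _ (hm.antitoneOn left_mem_uIcc right_mem_uIcc h), habsF _ _ h,
        uIcc_comm (τ t) (τ t0), hch]
      ring
    · rw [habsH _ _ (hm.antitoneOn right_mem_uIcc left_mem_uIcc h),
        intervalIntegral.integral_symm t, habsF _ _ h, hch, uIcc_comm t0 t]
      ring

variable {X : Type} [MetricSpace X] [CompactSpace X] [MulAction G X] [ContinuousSMul G X]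

/-- the density of the vector in a box -/
noncomputable def INVA_Ψ {S : FB X} (T : TN S) (φ : X → ℂ) (i : Fin S.n) (p : G × ℝ) : ℝ≥0∞ :=
  open Classical in
  if |p.2| < 1 then ENNReal.ofReal (‖φ (p.1 • S.c i p.2)‖ ^ 2 * T.W p.1 i p.2) else 0

theorem INVA_U_meas : MeasurableSet {p : G × ℝ | |p.2| < 1} :=
  (isOpen_lt (by fun_prop) continuous_const).measurableSet

section meas
variable [MeasurableSpace X] [BorelSpace X]

theorem INVA_meas {S : FB X} (T : TN S) {φ : X → ℂ} (hφ : Measurable φ) (i : Fin S.n) :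
    Measurable (INVA_Ψ T φ i) := by
  refine measurable_of_restrict_of_restrict_compl INVA_U_meas ?_ ?_
  · have h1 : Measurable (fun p : {p : G × ℝ | |p.2| < 1} => p.1.1 • S.c i p.1.2) :=
      (continuousOn_iff_continuous_domRestrict.1 (FB.continuousOn_map S i)).measurable
    have h2 : Measurable (fun p : {p : G × ℝ | |p.2| < 1} => T.W p.1.1 i p.1.2) :=
      (continuousOn_iff_continuous_domRestrict.1 (T.cont i)).measurable
    have h3 : Measurable (fun p : {p : G × ℝ | |p.2| < 1} =>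
        ENNReal.ofReal (‖φ (p.1.1 • S.c i p.1.2)‖ ^ 2 * T.W p.1.1 i p.1.2)) :=
      (((hφ.comp h1).norm.pow_const 2).mul h2).ennreal_ofReal
    have e : (({p : G × ℝ | |p.2| < 1}).domRestrict (INVA_Ψ T φ i)) = (fun p : {p : G × ℝ | |p.2| < 1} =>
        ENNReal.ofReal (‖φ (p.1.1 • S.c i p.1.2)‖ ^ 2 * T.W p.1.1 i p.1.2)) :=
      funext fun p => if_pos p.2
    rw [e]
    exact h3
  · have h3 : Measurable (fun _ : ({p : G × ℝ | |p.2| < 1}ᶜ : Set (G × ℝ)) => (0 : ℝ≥0∞)) :=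
      measurable_const
    have e : (({p : G × ℝ | |p.2| < 1}ᶜ).domRestrict (INVA_Ψ T φ i)) =
        (fun _ : ({p : G × ℝ | |p.2| < 1}ᶜ : Set (G × ℝ)) => (0 : ℝ≥0∞)) :=
      funext fun p => if_neg p.2
    rw [e]
    exact h3

theorem INVA_inv {S : FB X} {T : TN S} {μ : Measure X}
    (hμ : T.IsMu μ) (R : URep (Lp ℂ 2 μ)) (hR : hμ.kd.IsKoop R) (φ : Lp ℂ 2 μ)
    (hinv : ∀ g, R.π g φ = φ) (i : Fin S.n) (g : G) :
    ∀ᵐ p ∂(hG.prod volume), INVA_Ψ T φ i p = INVA_Ψ T φ i (g⁻¹ * p.1, p.2) := by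
  have h1 := hR g φ
  rw [hinv g] at h1
  filter_upwards [hμ.ae_pull i h1] with p hp
  unfold INVA_Ψ
  by_cases h2 : |p.2| < 1
  · rw [if_pos h2, if_pos h2]
    congr 1
    have h3 := hp h2
    have h4 : hμ.kd.J g⁻¹ (p.1 • S.c i p.2) = T.J g⁻¹ (p.1 • S.c i p.2) := rfl
    rw [h4] at h3
    rw [T.W_mul g⁻¹ p.1 i p.2 h2, h3, norm_mul, mul_pow, smul_smul, Complex.norm_real,
      Real.norm_eq_abs, sq_abs, Real.sq_sqrt (T.J_pos _ _).le]
    ring
  · rw [if_neg h2, if_neg h2]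

/-- along almost every transverse parameter the density is a.e. constant -/
theorem INVA_const {S : FB X} {T : TN S} {μ : Measure X}
    (hμ : T.IsMu μ) (R : URep (Lp ℂ 2 μ)) (hR : hμ.kd.IsKoop R) (φ : Lp ℂ 2 μ)
    (hφ : Measurable (φ : X → ℂ))
    (hinv : ∀ g, R.π g φ = φ) (i : Fin S.n) :
    ∀ᵐ t : ℝ, ∃ c : ℝ≥0∞, ∀ᵐ h ∂hG, INVA_Ψ T φ i (h, t) = c := by
  have hm := INVA_meas T hφ i
  have h1 : ∀ᵐ g ∂hG, ∀ᵐ p ∂(hG.prod (volume : Measure ℝ)),
      INVA_Ψ T φ i p = INVA_Ψ T φ i (g⁻¹ * p.1, p.2) :=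
    Eventually.of_forall fun g => INVA_inv hμ R hR φ hinv i g
  have hms : MeasurableSet {q : G × (G × ℝ) | INVA_Ψ T φ i q.2 =
      INVA_Ψ T φ i (q.1⁻¹ * q.2.1, q.2.2)} := by
    have c1 : Continuous (fun q : G × (G × ℝ) => (q.1⁻¹ * q.2.1, q.2.2)) := by fun_prop
    exact measurableSet_eq_fun (hm.comp measurable_snd) (hm.comp c1.measurable)
  rw [Measure.ae_ae_comm hms] at h1
  have h2 := (Measure.measurePreserving_swap (μ := (volume : Measure ℝ))
    (ν := hG)).quasiMeasurePreserving.ae h1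
  have h3 := Measure.ae_ae_of_ae_prod h2
  filter_upwards [h3] with t ht
  obtain ⟨h0, hh0⟩ := ht.exists
  refine ⟨INVA_Ψ T φ i (h0, t), ?_⟩
  have h4 : ∀ᵐ g ∂hG, INVA_Ψ T φ i (h0, t) = INVA_Ψ T φ i (g⁻¹ * h0, t) := hh0
  have h5 := ae_mul_left h0 h4
  have h6 := (quasiMeasurePreserving_inv hG).ae h5
  filter_upwards [h6] with h hh
  rw [hh]
  congr 2
  group

/-- the essential value -/
noncomputable def INVA_Fe {S : FB X} (T : TN S) (φ : X → ℂ) (i : Fin S.n) (t : ℝ) : ℝ≥0∞ :=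
  (hG (Bl 1))⁻¹ * ∫⁻ h in Bl 1, INVA_Ψ T φ i (h, t) ∂hG

theorem INVA_Fe_meas {S : FB X} (T : TN S) {φ : X → ℂ} (hφ : Measurable φ) (i : Fin S.n) :
    Measurable (INVA_Fe T φ i) := by
  have hm := INVA_meas T hφ i
  exact (Measurable.lintegral_prod_left' (μ := hG.restrict (Bl 1)) hm).const_mul _

omit [CompactSpace X] [ContinuousSMul G X] [MeasurableSpace X] [BorelSpace X] in
theorem INVA_Fe_out {S : FB X} (T : TN S) (φ : X → ℂ) (i : Fin S.n) {t : ℝ} (ht : ¬ |t| < 1) :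
    INVA_Fe T φ i t = 0 := by
  unfold INVA_Fe
  have : ∀ h : G, INVA_Ψ T φ i (h, t) = 0 := fun h => if_neg ht
  simp [this]

theorem INVA_Fe_ae {S : FB X} {T : TN S} {μ : Measure X}
    (hμ : T.IsMu μ) (R : URep (Lp ℂ 2 μ)) (hR : hμ.kd.IsKoop R) (φ : Lp ℂ 2 μ)
    (hφ : Measurable (φ : X → ℂ))
    (hinv : ∀ g, R.π g φ = φ) (i : Fin S.n) :
    ∀ᵐ t : ℝ, ∀ᵐ h ∂hG, INVA_Ψ T φ i (h, t) = INVA_Fe T φ i t := by
  filter_upwards [INVA_const hμ R hR φ hφ hinv i] with t ht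
  obtain ⟨c, hc⟩ := ht
  have h1 : INVA_Fe T φ i t = c := by
    unfold INVA_Fe
    have h2 : ∫⁻ h in Bl 1, INVA_Ψ T φ i (h, t) ∂hG = ∫⁻ h in Bl 1, c ∂hG :=
      lintegral_congr_ae (ae_restrict_of_ae hc)
    rw [h2, setLIntegral_const, mul_comm c, ← mul_assoc,
      ENNReal.inv_mul_cancel (hG_Bl_pos one_pos).ne' (hG_Bl_lt_top 1).ne, one_mul]
  rw [h1]
  exact hc

theorem INVA_Fe_int {S : FB X} {T : TN S} {μ : Measure X}
    (hμ : T.IsMu μ) (R : URep (Lp ℂ 2 μ)) (hR : hμ.kd.IsKoop R) (φ : Lp ℂ 2 μ)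
    (hφ : Measurable (φ : X → ℂ))
    (hinv : ∀ g, R.π g φ = φ) (i : Fin S.n) :
    ∫⁻ t, INVA_Fe T φ i t < ⊤ := by
  have hm := INVA_meas T hφ i
  have hρ0 : 0 < S.ρ0 := by have := S.hρ; have := S.hρ1; linarith
  set B : Set G := Bl (S.ρ0 / 2) with hB
  have hBm : MeasurableSet B := measurableSet_Bl _
  set E : Set (G × ℝ) := B ×ˢ Ioo (-1) 1 with hE
  have hEm : MeasurableSet E := hBm.prod measurableSet_Ioo
  have hE1 : ∀ p ∈ E, |p.2| < 1 := fun p hp => abs_lt.2 hp.2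
  have hinj : InjOn (fun p : G × ℝ => p.1 • S.c i p.2) E := by
    intro p hp q hq hpq
    have h1 : nd p.1 < S.ρ0 := lt_of_le_of_lt hp.1 (by linarith)
    have h2 : nd q.1 < S.ρ0 := lt_of_le_of_lt hq.1 (by linarith)
    obtain ⟨h3, h4⟩ := S.inj i p.1 q.1 p.2 q.2 (hE1 p hp) (hE1 q hq) h1 h2 hpq
    exact Prod.ext h3 h4
  have hf : Measurable (fun x : X => ENNReal.ofReal (‖(φ : X → ℂ) x‖ ^ 2)) :=
    (hφ.norm.pow_const 2).ennreal_ofReal
  obtain ⟨-, h1⟩ := hμ.lintegral_image i E hEm hE1 hinj _ hf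
  have h2 : ∫⁻ x in (fun p : G × ℝ => p.1 • S.c i p.2) '' E,
      ENNReal.ofReal (‖(φ : X → ℂ) x‖ ^ 2) ∂μ < ⊤ := by
    refine lt_of_le_of_lt (setLIntegral_le_lintegral _ _) ?_
    have h3 := (memLp_two_iff_integrable_sq_norm (Lp.aestronglyMeasurable φ)).1 (Lp.memLp φ)
    exact h3.lintegral_lt_top
  rw [h1] at h2
  have h3 : ∫⁻ p in E, ENNReal.ofReal (‖(φ : X → ℂ) (p.1 • S.c i p.2)‖ ^ 2) *
      ENNReal.ofReal (T.W p.1 i p.2) ∂(hG.prod volume) =
      ∫⁻ p in E, INVA_Ψ T φ i p ∂(hG.prod volume) := by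
    refine setLIntegral_congr_fun hEm fun p hp => ?_
    show _ = INVA_Ψ T φ i p
    unfold INVA_Ψ
    rw [if_pos (hE1 p hp), ENNReal.ofReal_mul (by positivity)]
  rw [h3, hE, ← Measure.prod_restrict] at h2
  rw [lintegral_prod_symm _ (hm.aemeasurable)] at h2
  have h4 : ∫⁻ t in Ioo (-1 : ℝ) 1, ∫⁻ h in B, INVA_Ψ T φ i (h, t) ∂hG =
      ∫⁻ t in Ioo (-1 : ℝ) 1, hG B * INVA_Fe T φ i t := by
    refine lintegral_congr_ae ?_
    filter_upwards [ae_restrict_of_ae (INVA_Fe_ae hμ R hR φ hφ hinv i)] with t ht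
    rw [lintegral_congr_ae (ae_restrict_of_ae ht), setLIntegral_const, mul_comm]
  rw [h4, lintegral_const_mul _ (INVA_Fe_meas T hφ i)] at h2
  have h5 : ∫⁻ t in Ioo (-1 : ℝ) 1, INVA_Fe T φ i t < ⊤ := by
    by_contra h6
    rw [not_lt, top_le_iff] at h6
    rw [h6, ENNReal.mul_top (hG_Bl_pos (by linarith)).ne'] at h2
    exact lt_irrefl _ h2
  have h6 : ∫⁻ t, INVA_Fe T φ i t = ∫⁻ t in Ioo (-1 : ℝ) 1, INVA_Fe T φ i t := by
    rw [← lintegral_indicator measurableSet_Ioo]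
    congr 1
    funext t
    by_cases ht : t ∈ Ioo (-1 : ℝ) 1
    · rw [indicator_of_mem ht]
    · rw [indicator_of_notMem ht]
      exact INVA_Fe_out T φ i (fun h => ht (abs_lt.1 h))
  rw [h6]
  exact h5

end meas

/-- preimages of null sets under an injective local diffeomorphism are null sets -/
theorem INVA_null {τ τ' : ℝ → ℝ} {I : Set ℝ} (hI : MeasurableSet I)
    (hder : ∀ s ∈ I, HasDerivAt τ (τ' s) s) (hinj : InjOn τ I) (hne : ∀ s ∈ I, τ' s ≠ 0)
    (hτ' : Measurable τ') {p : ℝ → Prop} (hp : ∀ᵐ t, p t) : ∀ᵐ s : ℝ, s ∈ I → p (τ s) := by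
  set N : Set ℝ := toMeasurable volume {t | ¬ p t} with hN
  have hNm : MeasurableSet N := measurableSet_toMeasurable _ _
  have hN0 : volume N = 0 := by
    rw [hN, measure_toMeasurable]
    exact hp
  have h1 := lintegral_image_eq_lintegral_abs_deriv_mul hI
    (fun s hs => (hder s hs).hasDerivWithinAt) hinj (N.indicator (fun _ => (1 : ℝ≥0∞)))
  have h2 : ∫⁻ x in τ '' I, N.indicator (fun _ => (1 : ℝ≥0∞)) x = 0 := by
    refine le_antisymm ((setLIntegral_le_lintegral _ _).trans ?_) bot_le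
    rw [lintegral_indicator hNm, setLIntegral_const, hN0, mul_zero]
  rw [h2] at h1
  have hc : ContinuousOn τ I := fun s hs => (hder s hs).continuousAt.continuousWithinAt
  have hm : AEMeasurable (fun s => ENNReal.ofReal |τ' s| *
      N.indicator (fun _ => (1 : ℝ≥0∞)) (τ s)) (volume.restrict I) := by
    refine AEMeasurable.mul ?_ ?_
    · exact (hτ'.abs.ennreal_ofReal).aemeasurable
    · exact (measurable_const.indicator hNm).comp_aemeasurable (hc.aemeasurable hI)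
  have h3 := (lintegral_eq_zero_iff' hm).1 h1.symm
  rw [EventuallyEq, ae_restrict_iff' hI] at h3
  filter_upwards [h3] with s hs hsI
  have h4 := hs hsI
  simp only [Pi.zero_apply, mul_eq_zero] at h4
  rcases h4 with h4 | h4
  · exfalso
    rw [ENNReal.ofReal_eq_zero] at h4
    exact hne s hsI (abs_eq_zero.1 (le_antisymm h4 (abs_nonneg _)))
  · have h5 : τ s ∉ N := by
      intro h6
      rw [indicator_of_mem h6] at h4
      exact one_ne_zero h4
    by_contra h6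
    exact h5 (subset_toMeasurable _ _ h6)

section meas2
variable [MeasurableSpace X] [BorelSpace X]

theorem INVA_match {S : FB X} {T : TN S} {μ : Measure X}
    (hμ : T.IsMu μ) (R : URep (Lp ℂ 2 μ)) (hR : hμ.kd.IsKoop R) (φ : Lp ℂ 2 μ)
    (hφ : Measurable (φ : X → ℂ)) (hinv : ∀ g, R.π g φ = φ) {i j : Fin S.n} {t0 ε : ℝ}
    {k : ℝ → G} {τ : ℝ → ℝ}
    (h1 : ∀ t, |t - t0| < ε → S.Arr i j t (τ t) (k t))
    (h2 : ∀ t, |t - t0| < ε → HasDerivAt τ (deriv τ t) t)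
    (h3 : ∀ t, |t - t0| < ε → deriv τ t ≠ 0)
    (h4 : ∀ t, |t - t0| < ε → S.dτ i j t (τ t) (k t) = deriv τ t)
    (hinj : InjOn τ {t | |t - t0| < ε}) :
    ∀ᵐ s : ℝ, |s - t0| < ε → (INVA_Fe T φ i s).toReal =
      |deriv τ s| * (INVA_Fe T φ j (τ s)).toReal := by
  have hI : MeasurableSet {t : ℝ | |t - t0| < ε} :=
    (isOpen_lt (by fun_prop) continuous_const).measurableSet
  have hi := INVA_Fe_ae hμ R hR φ hφ hinv i
  have hj := INVA_null hI h2 hinj h3 (measurable_deriv τ) (INVA_Fe_ae hμ R hR φ hφ hinv j)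
  filter_upwards [hi, hj] with s hs1 hs2 hs
  have hs3 := ae_mul_right (k s) (hs2 hs)
  obtain ⟨g, hg1, hg2⟩ := (hs1.and hs3).exists
  have harr := h1 s hs
  rw [← hg1, ← hg2]
  unfold INVA_Ψ
  rw [if_pos harr.1, if_pos harr.2.1]
  have hW := T.rule i j s (τ s) (k s) harr g
  rw [h4 s hs] at hW
  have hc : g • S.c i s = (g * k s) • S.c j (τ s) := by
    rw [harr.2.2, smul_smul]
  simp only
  rw [hW, hc, ENNReal.toReal_ofReal, ENNReal.toReal_ofReal]
  · ring
  · exact mul_nonneg (by positivity) (T.pos _ _ _ harr.2.1).le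
  · exact mul_nonneg (by positivity) (mul_nonneg (T.pos _ _ _ harr.2.1).le (abs_nonneg _))

theorem INVA_height {S : FB X} {T : TN S} {μ : Measure X}
    (hμ : T.IsMu μ) (R : URep (Lp ℂ 2 μ)) (hR : hμ.kd.IsKoop R) (φ : Lp ℂ 2 μ)
    (hφ : Measurable (φ : X → ℂ)) (hinv : ∀ g, R.π g φ = φ) :
    S.IsHeight (fun i t => ∫ x in (0 : ℝ)..t, (INVA_Fe T φ i x).toReal) := by
  have hint : ∀ i, Integrable (fun x => (INVA_Fe T φ i x).toReal) := fun i =>
    integrable_toReal_of_lintegral_ne_top (INVA_Fe_meas T hφ i).aemeasurable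
      (INVA_Fe_int hμ R hR φ hφ hinv i).ne
  intro i j t0 τ0 k0 h
  obtain ⟨-, hτ0, -, hcd, hne, -⟩ := S.kf_τf_spec h
  set τ : ℝ → ℝ := S.τf i j t0 τ0 k0 with hτdef
  set k : ℝ → G := S.kf i j t0 τ0 k0 with hkdef
  have e1 := S.eventually_arr h
  have e2 := S.eventually_contDiffAt h
  have e3 := S.eventually_dτ h
  have hdc : ContinuousAt (deriv τ) t0 := by
    have h5 : ContDiffAt ℝ 1 (fderiv ℝ τ) t0 := hcd.fderiv_right (by norm_num)
    have h6 : deriv τ = fun t => fderiv ℝ τ t 1 := by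
      funext t
      rfl
    rw [h6]
    exact h5.continuousAt.clm_apply continuousAt_const
  have e4 : ∀ᶠ t in 𝓝 t0, 0 < deriv τ t * deriv τ t0 := by
    have h5 : ContinuousAt (fun t => deriv τ t * deriv τ t0) t0 := hdc.mul continuousAt_const
    exact h5.eventually (lt_mem_nhds (mul_self_pos.2 hne))
  obtain ⟨ε, hε, hall⟩ := Metric.eventually_nhds_iff.1 (e1.and (e2.and (e3.and e4)))
  have hall' : ∀ t, |t - t0| < ε → _ := fun t ht => hall (y := t) (by rwa [Real.dist_eq])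
  have hder : ∀ t, |t - t0| < ε → HasDerivAt τ (deriv τ t) t := fun t ht =>
    ((hall' t ht).2.1.2.1.differentiableAt (by norm_num)).hasDerivAt
  have hsgn : (∀ t, |t - t0| < ε → 0 < deriv τ t) ∨ (∀ t, |t - t0| < ε → deriv τ t < 0) := by
    rcases lt_or_gt_of_ne hne with h5 | h5
    · right
      intro t ht
      have h6 := (hall' t ht).2.2.2
      by_contra h7
      rw [not_lt] at h7
      exact absurd h6 (not_lt.2 (mul_nonpos_of_nonneg_of_nonpos h7 h5.le))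
    · left
      intro t ht
      have h6 := (hall' t ht).2.2.2
      exact (pos_iff_pos_of_mul_pos h6).2 h5
  have hset : {t : ℝ | |t - t0| < ε} = Metric.ball t0 ε := by
    ext t
    rw [Metric.mem_ball, Real.dist_eq]
    rfl
  have hinj : InjOn τ {t : ℝ | |t - t0| < ε} := by
    have hcx : Convex ℝ {t : ℝ | |t - t0| < ε} := by rw [hset]; exact convex_ball _ _
    have hct : ContinuousOn τ {t : ℝ | |t - t0| < ε} := fun s hs =>
      (hder s hs).continuousAt.continuousWithinAt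
    have hsub0 : ∀ s ∈ interior {t : ℝ | |t - t0| < ε}, |s - t0| < ε := fun s hs => by
      have hs2 : s ∈ {t : ℝ | |t - t0| < ε} := interior_subset hs
      exact hs2
    rcases hsgn with h5 | h5
    · exact (strictMonoOn_of_deriv_pos hcx hct fun s hs =>
        h5 s (hsub0 s hs)).injOn
    · exact (strictAntiOn_of_deriv_neg hcx hct fun s hs =>
        h5 s (hsub0 s hs)).injOn
  have hm := INVA_match hμ R hR φ hφ hinv (i := i) (j := j) (t0 := t0) (ε := ε) (k := k) (τ := τ)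
    (fun t ht => (hall' t ht).1) hder
    (fun t ht => by
      rcases hsgn with h5 | h5
      · exact (h5 t ht).ne'
      · exact (h5 t ht).ne)
    (fun t ht => (hall' t ht).2.2.1.1) hinj
  rw [Metric.eventually_nhds_iff]
  refine ⟨ε, hε, fun t ht => ?_⟩
  rw [Real.dist_eq] at ht
  have h5 := INVA_step (hint i) (hint j) hder hsgn hm ht
  rw [hτ0] at h5
  exact h5

/-- INVA: heights from an invariant vector.  `|φ(h c i t)|² W(h;i,t) = F_i(t)` for a.e. `(h,t)`: for fixed `g` invariance gives `Ψ(gh,t) = Ψ(h,t)` for a.e. `(h,t)`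
(`ae_pull`, `W_mul`), so by Fubini for a.e. `t` the function `Ψ(·,t)` is a.e. constant.  `F_i` is measurable, `≥ 0`, locally integrable on `(-1,1)` (mass of a box is finite), and
`F_i(t) = F_j(τf t)|τf' t|` a.e. near `t0` for every arrow (change of variables; right translation by `kf t` preserves null sets).
`N_i(t) = ∫_0^t F_i` (put `N_i = 0` or anything outside `(-1,1)`).  If `N_i(t') = N_i(t)` with `t' ≠ t` then `t` lies in `I_q = {s : N_i(s) = N_i(q)}` for a rational `q` between,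
a nondegenerate interval on which `F_i = 0` a.e.; so `φ = 0` a.e. on the set of all `h c i s`, `s ∈ I_q`. -/
theorem heights {S : FB X} {T : TN S} {μ : Measure X}
    (hμ : T.IsMu μ) (R : URep (Lp ℂ 2 μ)) (hR : hμ.kd.IsKoop R) (φ : Lp ℂ 2 μ)
    (hinv : ∀ g, R.π g φ = φ) :
    ∃ N : Fin S.n → ℝ → ℝ, S.IsHeight N ∧
      ∀ᵐ x ∂μ, (φ : X → ℂ) x ≠ 0 → ∀ (i : Fin S.n) (h : G) (t t' : ℝ), |t| < 1 → |t'| < 1 →
        x = h • S.c i t → N i t' = N i t → t' = t := by
  have hφ : Measurable (φ : X → ℂ) := (Lp.stronglyMeasurable φ).measurable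
  have hint : ∀ i, Integrable (fun x => (INVA_Fe T φ i x).toReal) := fun i =>
    integrable_toReal_of_lintegral_ne_top (INVA_Fe_meas T hφ i).aemeasurable
      (INVA_Fe_int hμ R hR φ hφ hinv i).ne
  refine ⟨fun i t => ∫ x in (0 : ℝ)..t, (INVA_Fe T φ i x).toReal,
    INVA_height hμ R hR φ hφ hinv, ?_⟩
  set N : Fin S.n → ℝ → ℝ := fun i t => ∫ x in (0 : ℝ)..t, (INVA_Fe T φ i x).toReal with hN
  have hNc : ∀ i, Continuous (N i) := fun i =>
    intervalIntegral.continuous_primitive (fun a b => (hint i).intervalIntegrable) 0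
  have hNm : ∀ i, Monotone (N i) := by
    intro i a b hab
    have h1 : N i b - N i a = ∫ x in a..b, (INVA_Fe T φ i x).toReal :=
      intervalIntegral.integral_interval_sub_left (hint i).intervalIntegrable
        (hint i).intervalIntegrable
    have h2 : 0 ≤ ∫ x in a..b, (INVA_Fe T φ i x).toReal :=
      intervalIntegral.integral_nonneg_of_forall hab (fun _ => ENNReal.toReal_nonneg)
    linarith
  let E : Fin S.n → ℚ → Set (G × ℝ) := fun i q =>
    {p | N i p.2 = N i q ∧ INVA_Ψ T φ i p ≠ 0}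
  have hE1 : ∀ i q, ∀ p ∈ E i q, |p.2| < 1 := by
    intro i q p hp
    by_contra h1
    exact hp.2 (if_neg h1)
  have hEm : ∀ i q, MeasurableSet (E i q) := by
    intro i q
    have h1 : MeasurableSet {p : G × ℝ | N i p.2 = N i q} :=
      (isClosed_eq ((hNc i).comp continuous_snd) continuous_const).measurableSet
    have h2 : MeasurableSet {p : G × ℝ | INVA_Ψ T φ i p ≠ 0} :=
      (INVA_meas T hφ i (measurableSet_singleton 0)).compl
    exact h1.inter h2
  have hE0 : ∀ i q, (hG.prod (volume : Measure ℝ)) (E i q) = 0 := by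
    intro i q
    have h1 : ∀ᵐ t : ℝ, ∀ᵐ g ∂hG, (g, t) ∉ E i q := by
      filter_upwards [INVA_Fe_ae hμ R hR φ hφ hinv i,
        INVA_flat (fun t => ENNReal.toReal_nonneg) (hint i) (N i q),
        ae_lt_top (INVA_Fe_meas T hφ i) (INVA_Fe_int hμ R hR φ hφ hinv i).ne] with t ht1 ht2 ht3
      filter_upwards [ht1] with g hg hgE
      have h2 := ht2 (hE1 i q _ hgE) hgE.1
      have h3 : INVA_Fe T φ i t = 0 := by
        rcases (ENNReal.toReal_eq_zero_iff _).1 h2 with h4 | h4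
        · exact h4
        · exact absurd h4 ht3.ne
      rw [h3] at hg
      exact hgE.2 hg
    have h2 : MeasurableSet {x : ℝ × G | (x.2, x.1) ∉ E i q} :=
      ((hEm i q).preimage measurable_swap).compl
    rw [Measure.ae_ae_comm h2] at h1
    have h3 := (Measure.ae_prod_iff_ae_ae (μ := hG) (ν := (volume : Measure ℝ))
      (p := fun p => p ∉ E i q) (hEm i q).compl).2 h1
    have h4 := ae_iff.1 h3
    simpa using h4
  have hz : ∀ i q, μ ((fun p : G × ℝ => p.1 • S.c i p.2) '' (E i q)) = 0 := by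
    intro i q
    refine le_antisymm ((hμ.image_le i (E i q) (hEm i q) (hE1 i q)).trans (le_of_eq ?_)) bot_le
    exact setLIntegral_measure_zero _ _ (hE0 i q)
  have hae : ∀ᵐ x ∂μ, ∀ i q, x ∉ (fun p : G × ℝ => p.1 • S.c i p.2) '' (E i q) := by
    rw [ae_all_iff]
    intro i
    rw [ae_all_iff]
    intro q
    exact measure_eq_zero_iff_ae_notMem.1 (hz i q)
  filter_upwards [hae] with x hx hφx i h t t' ht ht' hxe hNt
  by_contra hne
  have hΨ : INVA_Ψ T φ i (h, t) ≠ 0 := by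
    unfold INVA_Ψ
    rw [if_pos ht]
    have h1 : 0 < ‖(φ : X → ℂ) (h • S.c i t)‖ ^ 2 * T.W h i t := by
      rw [← hxe]
      exact mul_pos (pow_pos (norm_pos_iff.2 hφx) 2) (T.pos _ _ _ ht)
    exact (ENNReal.ofReal_pos.2 h1).ne'
  obtain ⟨q, hq⟩ : ∃ q : ℚ, N i t = N i q := by
    rcases lt_or_gt_of_ne hne with h1 | h1
    · obtain ⟨q, hq1, hq2⟩ := exists_rat_btwn h1
      refine ⟨q, le_antisymm ?_ (hNm i hq2.le)⟩
      rw [← hNt]
      exact hNm i hq1.le
    · obtain ⟨q, hq1, hq2⟩ := exists_rat_btwn h1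
      refine ⟨q, le_antisymm (hNm i hq1.le) ?_⟩
      rw [← hNt]
      exact hNm i hq2.le
  exact hx i q ⟨(h, t), ⟨hq, hΨ⟩, hxe.symm⟩

end meas2

end Pool.Agent.H88.LF

end S_H88_LF_INVA

section S_H88_LF_INVB

/-!
# INVB (blueprint section 7)
-/

set_option autoImplicit false

open MeasureTheory Set Filter
open scoped Topology ENNReal

namespace Pool.Agent.H88.LF

variable {X : Type} [MetricSpace X] [CompactSpace X] [MulAction G X] [ContinuousSMul G X]

/-- The sign and the height change of an arrow. -/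
noncomputable def invbF {S : FB X} (N : Fin S.n → ℝ → ℝ) (i j : Fin S.n) (t τ : ℝ) (k : G) :
    ℝ × ℝ :=
  (Real.sign (S.dτ i j t τ k), N j τ - Real.sign (S.dτ i j t τ k) * N i t)

/-- The sign of the transverse derivative is locally constant along a continuation. -/
theorem invb_sign (S : FB X) {i j : Fin S.n} {t0 τ0 : ℝ} {k0 : G} (h : S.Arr i j t0 τ0 k0) :
    ∀ᶠ t in 𝓝 t0, Real.sign (S.dτ i j t (S.τf i j t0 τ0 k0 t) (S.kf i j t0 τ0 k0 t)) =
      Real.sign (S.dτ i j t0 τ0 k0) := by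
  have h3 : ContDiffAt ℝ 2 (S.τf i j t0 τ0 k0) t0 := (S.kf_τf_spec h).2.2.2.1
  have hne := S.dτ_ne_zero h
  have c1 : ContinuousAt (fderiv ℝ (S.τf i j t0 τ0 k0)) t0 :=
    (h3.fderiv_right (m := 1) (by norm_num)).continuousAt
  have c2 : ContinuousAt (fun t => deriv (S.τf i j t0 τ0 k0) t) t0 := by
    have : (fun t => deriv (S.τf i j t0 τ0 k0) t) = fun t => fderiv ℝ (S.τf i j t0 τ0 k0) t 1 :=
      rfl
    rw [this]
    exact c1.clm_apply continuousAt_const
  rcases lt_or_gt_of_ne hne with hlt | hgt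
  · have e1 : ∀ᶠ t in 𝓝 t0, deriv (S.τf i j t0 τ0 k0) t < 0 :=
      c2.eventually (gt_mem_nhds hlt)
    filter_upwards [e1, S.eventually_dτ h] with t h1 h2
    rw [h2.1, Real.sign_of_neg h1, Real.sign_of_neg hlt]
  · have e1 : ∀ᶠ t in 𝓝 t0, 0 < deriv (S.τf i j t0 τ0 k0) t :=
      c2.eventually (lt_mem_nhds hgt)
    filter_upwards [e1, S.eventually_dτ h] with t h1 h2
    rw [h2.1, Real.sign_of_pos h1, Real.sign_of_pos hgt]

/-- INVB: finitely many height changes over compact sets of arrows (`FB.finite_values`; sign and height change are constant along continuations). -/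
theorem height_steps_finite (S : FB X) (N : Fin S.n → ℝ → ℝ) (hN : S.IsHeight N) (Q : Set G)
    (hQ : IsCompact Q) :
    ∃ F : Finset (ℝ × ℝ), (∀ p ∈ F, p.1 = 1 ∨ p.1 = -1) ∧
      ∀ (i j : Fin S.n) (t τ : ℝ) (k : G), |t| ≤ 1 / 2 → |τ| ≤ 1 / 2 → k ∈ Q →
        S.Arr i j t τ k → ∃ p ∈ F, N j τ = p.1 * N i t + p.2 := by
  classical
  have hfin : ∀ i j : Fin S.n, Set.Finite {e : ℝ × ℝ | ∃ t τ k, |t| ≤ 1 / 2 ∧ |τ| ≤ 1 / 2 ∧
      k ∈ Q ∧ S.Arr i j t τ k ∧ e = invbF N i j t τ k} := by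
    intro i j
    refine S.finite_values i j (invbF N i j) ?_ (1 / 2) (by norm_num) Q hQ
    intro t0 τ0 k0 h
    filter_upwards [invb_sign S h, hN i j t0 τ0 k0 h] with t h1 h2
    unfold invbF
    rw [h1]
    refine Prod.ext rfl ?_
    show N j (S.τf i j t0 τ0 k0 t) - Real.sign (S.dτ i j t0 τ0 k0) * N i t =
      N j τ0 - Real.sign (S.dτ i j t0 τ0 k0) * N i t0
    linarith
  refine ⟨Finset.univ.biUnion fun i : Fin S.n => Finset.univ.biUnion fun j : Fin S.n =>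
    (hfin i j).toFinset, ?_, ?_⟩
  · intro p hp
    simp only [Finset.mem_biUnion, Finset.mem_univ, true_and, Set.Finite.mem_toFinset] at hp
    obtain ⟨i, j, t, τ, k, -, -, -, h, rfl⟩ := hp
    have hne := S.dτ_ne_zero h
    show Real.sign (S.dτ i j t τ k) = 1 ∨ Real.sign (S.dτ i j t τ k) = -1
    rcases lt_or_gt_of_ne hne with hlt | hgt
    · exact Or.inr (Real.sign_of_neg hlt)
    · exact Or.inl (Real.sign_of_pos hgt)
  · intro i j t τ k ht hτ hk h
    refine ⟨invbF N i j t τ k, ?_, ?_⟩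
    · simp only [Finset.mem_biUnion, Finset.mem_univ, true_and, Set.Finite.mem_toFinset]
      exact ⟨i, j, t, τ, k, ht, hτ, hk, h, rfl⟩
    · unfold invbF
      ring

end Pool.Agent.H88.LF

end S_H88_LF_INVB

section S_H88_LF_INVC

/-!
# INVC (blueprint section 7)
-/

set_option autoImplicit false

open Set Filter
open scoped Topology

namespace Pool.Agent.H88.LF

/-- the value with sign `e` and coefficients `c` -/
noncomputable def invcVal (F : Finset (ℝ × ℝ)) (a : ℝ) (x : ℤ × (F → ℤ)) : ℝ :=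
  (x.1 : ℝ) * a + ∑ q : F, (x.2 q : ℝ) * q.1.2

open Classical in
/-- the set of values with coefficients at most `n` -/
noncomputable def invcSet (F : Finset (ℝ × ℝ)) (a : ℝ) (n : ℕ) : Finset ℝ :=
  ((({1, -1} : Finset ℤ) ×ˢ Fintype.piFinset (fun _ : F => Finset.Icc (-(n:ℤ)) n))).image
    (invcVal F a)

theorem invcSet_card (F : Finset (ℝ × ℝ)) (a : ℝ) (n : ℕ) :
    ((invcSet F a n).card : ℝ) ≤ 2 * 2 ^ F.card * ((n:ℝ) + 1) ^ F.card := by
  classical
  have h1 : (invcSet F a n).card ≤ 2 * (2 * n + 1) ^ F.card := by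
    unfold invcSet
    refine Finset.card_image_le.trans ?_
    rw [Finset.card_product, Fintype.card_piFinset]
    simp only [Int.card_Icc, Finset.prod_const, Finset.card_univ, Fintype.card_coe]
    have h2 : (({1, -1} : Finset ℤ)).card ≤ 2 := Finset.card_le_two
    have h3 : ((n:ℤ) + 1 - -(n:ℤ)).toNat = 2 * n + 1 := by omega
    rw [h3]
    exact Nat.mul_le_mul_right _ h2
  have h2 : ((2 * n + 1 : ℕ) : ℝ) ≤ 2 * ((n:ℝ) + 1) := by
    push_cast
    linarith
  calc ((invcSet F a n).card : ℝ) ≤ ((2 * (2 * n + 1) ^ F.card : ℕ) : ℝ) := by exact_mod_cast h1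
    _ = 2 * ((2 * n + 1 : ℕ) : ℝ) ^ F.card := by push_cast; ring
    _ ≤ 2 * (2 * ((n:ℝ) + 1)) ^ F.card := by
        apply mul_le_mul_of_nonneg_left _ (by norm_num)
        exact pow_le_pow_left₀ (by positivity) h2 _
    _ = 2 * 2 ^ F.card * ((n:ℝ) + 1) ^ F.card := by rw [mul_pow]; ring

theorem invc_mem (F : Finset (ℝ × ℝ)) (a : ℝ) (n : ℕ) (y : ℝ) :
    y ∈ invcSet F a n ↔ ∃ (e : ℤ) (c : F → ℤ), (e = 1 ∨ e = -1) ∧
      (∀ q, -(n:ℤ) ≤ c q ∧ c q ≤ n) ∧ invcVal F a (e, c) = y := by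
  classical
  unfold invcSet
  rw [Finset.mem_image]
  constructor
  · rintro ⟨⟨e, c⟩, h1, h2⟩
    rw [Finset.mem_product, Fintype.mem_piFinset] at h1
    refine ⟨e, c, ?_, ?_, h2⟩
    · simpa using h1.1
    · intro q
      exact Finset.mem_Icc.1 (h1.2 q)
  · rintro ⟨e, c, h1, h2, h3⟩
    refine ⟨(e, c), ?_, h3⟩
    rw [Finset.mem_product, Fintype.mem_piFinset]
    exact ⟨by simpa using h1, fun q => Finset.mem_Icc.2 (h2 q)⟩

theorem invc_step (F : Finset (ℝ × ℝ)) (hF : ∀ p ∈ F, p.1 = 1 ∨ p.1 = -1) (a : ℝ) (n : ℕ)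
    (y : ℝ) (hy : y ∈ invcSet F a n) (p : ℝ × ℝ) (hp : p ∈ F) :
    p.1 * y + p.2 ∈ invcSet F a (n + 1) := by
  classical
  rw [invc_mem] at hy
  obtain ⟨e, c, he, hc, rfl⟩ := hy
  rw [invc_mem]
  have key : ∀ s : ℤ, (s = 1 ∨ s = -1) → (s : ℝ) = p.1 →
      ∃ (e' : ℤ) (c' : F → ℤ), (e' = 1 ∨ e' = -1) ∧
      (∀ q, -((n + 1 : ℕ):ℤ) ≤ c' q ∧ c' q ≤ ((n + 1 : ℕ) : ℤ)) ∧
        invcVal F a (e', c') = p.1 * invcVal F a (e, c) + p.2 := by
    intro s hs hsp
    refine ⟨s * e, fun q => s * c q + if q = ⟨p, hp⟩ then 1 else 0, ?_, ?_, ?_⟩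
    · rcases hs with rfl | rfl <;> rcases he with rfl | rfl <;> simp
    · intro q
      have h1 := hc q
      push_cast
      rcases hs with rfl | rfl <;> split_ifs <;> constructor <;> omega
    · unfold invcVal
      simp only [Int.cast_mul, Int.cast_add]
      rw [hsp]
      have h2 : ∑ q : F, (p.1 * (c q : ℝ) + ((if q = ⟨p, hp⟩ then (1:ℤ) else 0 : ℤ) : ℝ)) * q.1.2
          = p.1 * ∑ q : F, (c q : ℝ) * q.1.2 + p.2 := by
        rw [Finset.mul_sum]
        simp only [add_mul, Finset.sum_add_distrib]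
        congr 1
        · exact Finset.sum_congr rfl fun q _ => by ring
        · rw [Finset.sum_eq_single (⟨p, hp⟩ : F)]
          · simp
          · intro q _ hq
            simp [hq]
          · intro h
            exact absurd (Finset.mem_univ _) h
      rw [h2]
      ring
  rcases hF p hp with h | h
  · exact key 1 (Or.inl rfl) (by rw [h]; norm_num)
  · exact key (-1) (Or.inr rfl) (by rw [h]; norm_num)

theorem invc_mono (F : Finset (ℝ × ℝ)) (a : ℝ) (n : ℕ) : a ∈ invcSet F a n := by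
  rw [invc_mem]
  refine ⟨1, fun _ => 0, Or.inl rfl, fun q => ⟨by simp, by simp⟩, ?_⟩
  simp [invcVal]

/-- INVC1: counting.  Starting from the height `a` and applying at most `n` maps `y ↦ p.1 y + p.2`, `p ∈ F`, `p.1 = ±1`, one reaches at most `C (n+1)^p` values
(all are `± a + ∑ m_p p.2` with integers `|m_p| ≤ n`). -/
theorem count_heights (F : Finset (ℝ × ℝ)) (hF : ∀ p ∈ F, p.1 = 1 ∨ p.1 = -1) (a : ℝ) :
    ∃ (d : ℕ) (C : ℝ), ∀ n : ℕ, ∃ V : Finset ℝ, (V.card : ℝ) ≤ C * ((n:ℝ) + 1) ^ d ∧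
      ∀ y : ℕ → ℝ, y 0 = a → (∀ m, m < n → ∃ p ∈ F, y (m + 1) = p.1 * y m + p.2) → y n ∈ V := by
  refine ⟨F.card, 2 * 2 ^ F.card, fun n => ⟨invcSet F a n, invcSet_card F a n, ?_⟩⟩
  intro y hy0 hy
  have h : ∀ m, m ≤ n → y m ∈ invcSet F a m := by
    intro m
    induction m with
    | zero =>
      intro _
      rw [hy0]
      exact invc_mono F a 0
    | succ m ih =>
      intro hm
      obtain ⟨p, hp, h1⟩ := hy m (by omega)
      rw [h1]
      exact invc_step F hF a m _ (ih (by omega)) p hp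
  exact h n le_rfl

end Pool.Agent.H88.LF

end S_H88_LF_INVC

section S_H88_LF_INVE

/-!
# INVE (blueprint section 7)
-/

set_option autoImplicit false

open MeasureTheory Set Filter
open scoped Topology ENNReal

namespace Pool.Agent.H88.LF

variable {X : Type} [MetricSpace X] [CompactSpace X] [MulAction G X] [ContinuousSMul G X]

theorem inve_path (n : ℕ) (g : G) (hg : g ∈ BP 1 n) :
    ∃ s : ℕ → G, s 0 = 1 ∧ s n = g ∧ ∀ m, m < n → ∃ b ∈ Bl 1, s (m + 1) = b * s m := by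
  induction n generalizing g with
  | zero =>
    have h1 : g = 1 := hg
    exact ⟨fun _ => 1, rfl, h1.symm, fun m hm => absurd hm (Nat.not_lt_zero m)⟩
  | succ n ih =>
    obtain ⟨b, hb, g', hg', rfl⟩ := hg
    obtain ⟨s, h0, hn, hs⟩ := ih g' hg'
    refine ⟨fun m => if m ≤ n then s m else b * g', ?_, ?_, ?_⟩
    · simp only [Nat.zero_le, if_true]
      exact h0
    · have : ¬ n + 1 ≤ n := by omega
      simp only [this, if_false]
    · intro m hm
      rcases Nat.lt_or_ge m n with h | h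
      · obtain ⟨c, hc, hc'⟩ := hs m h
        refine ⟨c, hc, ?_⟩
        have h1 : m + 1 ≤ n := h
        have h2 : m ≤ n := h.le
        simp only [h1, h2, if_true]
        exact hc'
      · have h3 : m = n := by omega
        subst h3
        refine ⟨b, hb, ?_⟩
        have h1 : ¬ m + 1 ≤ m := by omega
        simp only [h1, if_false, le_refl, if_true]
        rw [hn]

theorem inve_compact : IsCompact {k : G | ∃ b ∈ Bl 1, ∃ h ∈ Bl 1, ∃ h' ∈ Bl 1,
    k = (b * h)⁻¹ * h'} := by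
  have h1 : IsCompact ((Bl 1) ×ˢ ((Bl 1) ×ˢ (Bl 1)) : Set (G × G × G)) :=
    (isCompact_Bl 1).prod ((isCompact_Bl 1).prod (isCompact_Bl 1))
  have h2 : Continuous (fun p : G × G × G => (p.1 * p.2.1)⁻¹ * p.2.2) := by fun_prop
  have h3 := h1.image h2
  refine h3.of_isClosed_subset ?_ ?_
  · have h4 : {k : G | ∃ b ∈ Bl 1, ∃ h ∈ Bl 1, ∃ h' ∈ Bl 1, k = (b * h)⁻¹ * h'} =
        (fun p : G × G × G => (p.1 * p.2.1)⁻¹ * p.2.2) '' ((Bl 1) ×ˢ ((Bl 1) ×ˢ (Bl 1))) := by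
      ext k
      constructor
      · rintro ⟨b, hb, h, hh, h', hh', rfl⟩
        exact ⟨(b, h, h'), ⟨hb, hh, hh'⟩, rfl⟩
      · rintro ⟨⟨b, h, h'⟩, ⟨hb, hh, hh'⟩, rfl⟩
        exact ⟨b, hb, h, hh, h', hh', rfl⟩
    rw [h4]
    exact h3.isClosed
  · rintro k ⟨b, hb, h, hh, h', hh', rfl⟩
    exact ⟨(b, h, h'), ⟨hb, hh, hh'⟩, rfl⟩

/-- INVC2: polynomial growth of the orbit of `x` modulo the stabiliser.  Go from `x` to `g • x`, `g ∈ BP 1 n`, through `x_m`, `x_{m+1} = b x_m`, `b ∈ Bl 1`; the normal representations of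
consecutive points are joined by arrows in a compact set `Q`; the last pair `(i,t)` is determined by `i` and the height `N i t`, so there are at most `n C(n+1)^d` such pairs; for each
fix `f` with `f • x = c i t`; then `g • x = h • c i t = (h f) • x`, `nd h < ρ1`.  (Case `n = 0` included.) -/
theorem poly_growth (S : FB X) (N : Fin S.n → ℝ → ℝ) (hN : S.IsHeight N) (x : X)
    (hx : ∀ (g : G) (i : Fin S.n) (t t' : ℝ), |t| < 1 → |t'| < 1 → g • x = S.c i t →
      N i t' = N i t → t' = t) :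
    ∃ (d : ℕ) (C : ℝ), ∀ n : ℕ, ∃ F : Finset G, (F.card : ℝ) ≤ C * ((n:ℝ) + 1) ^ d ∧
      ∀ g ∈ BP 1 n, ∃ b ∈ Bl 1, ∃ f ∈ F, ∃ γ ∈ MulAction.stabilizer G x, g = b * f * γ := by
  classical
  obtain ⟨F0, hF0, hstep⟩ := height_steps_finite S N hN _ inve_compact
  obtain ⟨d, C, hcount⟩ := count_heights F0 hF0 (N (S.ri x) (S.rt x))
  have hsmall : ∀ h : G, nd h < S.ρ1 → h ∈ Bl 1 := by
    intro h hh
    have h1 := S.hρ
    have h2 := S.hρ0
    have h3 := S.hρ1
    show nd h ≤ 1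
    linarith
  -- consecutive points
  have hcons : ∀ (y : X) (b : G), b ∈ Bl 1 → ∃ p ∈ F0,
      N (S.ri (b • y)) (S.rt (b • y)) = p.1 * N (S.ri y) (S.rt y) + p.2 := by
    intro y b hb
    obtain ⟨hy1, hy2, hy3⟩ := S.rep_spec y
    obtain ⟨hz1, hz2, hz3⟩ := S.rep_spec (b • y)
    refine hstep (S.ri y) (S.ri (b • y)) (S.rt y) (S.rt (b • y))
      ((b * S.rh y)⁻¹ * S.rh (b • y)) hy2.le hz2.le
      ⟨b, hb, S.rh y, hsmall _ hy1, S.rh (b • y), hsmall _ hz1, rfl⟩ ?_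
    refine ⟨by linarith, by linarith, ?_⟩
    rw [mul_smul, ← hz3, eq_inv_smul_iff, mul_smul, ← hy3]
  -- the chosen elements
  let f : Fin S.n × ℝ → G := fun q =>
    if h : ∃ g : G, ∃ t : ℝ, |t| < 1 ∧ N q.1 t = q.2 ∧ g • x = S.c q.1 t then h.choose else 1
  have hf : ∀ (i : Fin S.n) (t : ℝ) (g : G), |t| < 1 → g • x = S.c i t →
      f (i, N i t) • x = S.c i t := by
    intro i t g ht hg
    have h : ∃ g' : G, ∃ t' : ℝ, |t'| < 1 ∧ N i t' = N i t ∧ g' • x = S.c i t' :=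
      ⟨g, t, ht, rfl, hg⟩
    have h1 : f (i, N i t) = h.choose := by
      simp only [f]
      rw [dif_pos h]
    obtain ⟨t', ht', hN', hc'⟩ := h.choose_spec
    have h2 : t' = t := hx g i t t' ht ht' hg hN'
    rw [h1, hc', h2]
  refine ⟨d, S.n * C, fun n => ?_⟩
  obtain ⟨V, hV, hVmem⟩ := hcount n
  refine ⟨((Finset.univ : Finset (Fin S.n)) ×ˢ V).image f, ?_, ?_⟩
  · have h1 : ((((Finset.univ : Finset (Fin S.n)) ×ˢ V).image f).card : ℝ) ≤
        (((Finset.univ : Finset (Fin S.n)) ×ˢ V).card : ℝ) := by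
      exact_mod_cast Finset.card_image_le
    rw [Finset.card_product, Finset.card_univ, Fintype.card_fin, Nat.cast_mul] at h1
    refine h1.trans ?_
    rw [mul_assoc]
    exact mul_le_mul_of_nonneg_left hV (Nat.cast_nonneg _)
  · intro g hg
    obtain ⟨s, hs0, hsn, hs⟩ := inve_path n g hg
    have hmem : N (S.ri (g • x)) (S.rt (g • x)) ∈ V := by
      have h1 := hVmem (fun m => N (S.ri (s m • x)) (S.rt (s m • x))) (by
        simp only [hs0, one_smul]) (by
        intro m hm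
        obtain ⟨b, hb, hb'⟩ := hs m hm
        obtain ⟨p, hp, hp'⟩ := hcons (s m • x) b hb
        refine ⟨p, hp, ?_⟩
        simp only [hb', mul_smul]
        exact hp')
      simp only [hsn] at h1
      exact h1
    obtain ⟨hy1, hy2, hy3⟩ := S.rep_spec (g • x)
    have hfx : f (S.ri (g • x), N (S.ri (g • x)) (S.rt (g • x))) • x =
        S.c (S.ri (g • x)) (S.rt (g • x)) := by
      refine hf _ _ ((S.rh (g • x))⁻¹ * g) (by linarith) ?_
      rw [mul_smul, inv_smul_eq_iff]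
      exact hy3
    have hm : (S.ri (g • x), N (S.ri (g • x)) (S.rt (g • x))) ∈
        (Finset.univ : Finset (Fin S.n)) ×ˢ V := Finset.mem_product.2 ⟨Finset.mem_univ _, hmem⟩
    refine ⟨S.rh (g • x), hsmall _ hy1, _, Finset.mem_image_of_mem f hm,
      (S.rh (g • x) * f (S.ri (g • x), N (S.ri (g • x)) (S.rt (g • x))))⁻¹ * g, ?_, ?_⟩
    · rw [MulAction.mem_stabilizer_iff, mul_smul, inv_smul_eq_iff, mul_smul, hfx]
      exact hy3
    · rw [mul_inv_cancel_left]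

end Pool.Agent.H88.LF

end S_H88_LF_INVE

section S_H88_LF_INV

/-!
# INV (blueprint section 7): an invariant vector gives compact orbits
-/

set_option autoImplicit false

open MeasureTheory Set Filter
open scoped Topology ENNReal

namespace Pool.Agent.H88.LF

variable {X : Type} [MetricSpace X] [CompactSpace X] [MulAction G X] [ContinuousSMul G X]

/-- INVD: `heights`, `poly_growth`, `cocompact_of_poly` (`FB.ulf` for uniform discreteness: `g γ g⁻¹` fixes `g x`). -/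
theorem inv_co [MeasurableSpace X] [BorelSpace X] {S : FB X} {T : TN S} {μ : Measure X}
    (hμ : T.IsMu μ) (R : URep (Lp ℂ 2 μ)) (hR : hμ.kd.IsKoop R) (φ : Lp ℂ 2 μ)
    (hinv : ∀ g, R.π g φ = φ) : ∀ᵐ x ∂μ, (φ : X → ℂ) x ≠ 0 → CO x := by
  obtain ⟨N, hN, hae⟩ := heights hμ R hR φ hinv
  obtain ⟨ρ, hρ, hulf⟩ := S.ulf
  filter_upwards [hae] with x hx hne
  obtain ⟨d, C, hpoly⟩ := poly_growth S N hN x (by
    intro g i t t' ht ht' hg hNt
    refine hx hne i g⁻¹ t t' ht ht' ?_ hNt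
    rw [← hg, inv_smul_smul])
  obtain ⟨K, hK, hKG⟩ := cocompact_of_poly (MulAction.stabilizer G x) ρ hρ (by
    intro g γ hγ hnd
    have h1 : (g * γ * g⁻¹) • (g • x) = g • x := by
      rw [mul_smul, inv_smul_smul, mul_smul, MulAction.mem_stabilizer_iff.1 hγ]
    have h2 := hulf (g • x) (g * γ * g⁻¹) hnd h1
    have h3 : γ = g⁻¹ * (g * γ * g⁻¹) * g := by group
    rw [h3, h2]
    group) d C hpoly
  refine ⟨K, hK, fun g => ?_⟩
  obtain ⟨k, hk, γ, hγ, rfl⟩ := hKG g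
  exact ⟨k, hk, by rw [mul_smul, MulAction.mem_stabilizer_iff.1 hγ]⟩

theorem niv_of_no_co [MeasurableSpace X] [BorelSpace X] {S : FB X} {T : TN S} {μ : Measure X}
    (hμ : T.IsMu μ) (R : URep (Lp ℂ 2 μ)) (hR : hμ.kd.IsKoop R) (Ω : Set X)
    (hno : ∀ x ∈ Ω, ¬ CO x) : NIV R Ω := by
  intro φ hinv hΩ
  rw [Lp.eq_zero_iff_ae_eq_zero]
  filter_upwards [inv_co hμ R hR φ hinv, hΩ] with x h1 h2
  by_contra hne
  have hne' : (φ : X → ℂ) x ≠ 0 := hne
  by_cases hx : x ∈ Ω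
  · exact hno x hx (h1 hne')
  · exact hne' (h2 hx)

end Pool.Agent.H88.LF

end S_H88_LF_INV

section S_H88_LF_CST

/-!
# CST: (C*) for a flow box structure without compact orbits

Give `X` its Borel structure; `exists_mu`, `koop` (for `hμ.kd`), `niv_of_no_co` for `Ω = univ`, `cstar_of_niv`.
`contract_of_cstar`: if `J g x ≥ ε` for all `g` then the integral over `Bl ρ` is at least `ε^s hG(Bl ρ) > 0` for all `v`.
-/

set_option autoImplicit false

open MeasureTheory Set Filter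
open scoped Topology ENNReal

namespace Pool.Agent.H88.LF

variable {X : Type} [MetricSpace X] [CompactSpace X] [MulAction G X] [ContinuousSMul G X]

/-- CST -/
theorem cstar (S : FB X) (T : TN S) (hno : ∀ x : X, ¬ CO x) : T.CStar := by
  borelize X
  obtain ⟨μ, hμ⟩ := exists_mu T
  haveI : IsFiniteMeasure μ := hμ.1
  obtain ⟨R, hR⟩ := koop μ hμ.kd
  exact cstar_of_niv hμ R hR (niv_of_no_co hμ R hR univ (fun x _ => hno x))

/-- CTR -/
theorem contract_of_cstar (S : FB X) (T : TN S) (h : T.CStar) (x : X) (ε : ℝ) (hε : 0 < ε) :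
    ∃ g : G, T.J g x < ε := by
  obtain ⟨s, hs, ε', hε', C, hC, ρ, hρ, hb⟩ := h
  by_contra hcon
  push_neg at hcon
  have hBpos := hG_Bl_pos hρ
  have hBfin := hG_Bl_lt_top ρ
  have key : ∀ v : ℝ × ℝ, ENNReal.ofReal (ε ^ s) * hG (Bl ρ) ≤
      ENNReal.ofReal (C * Real.exp (-ε' * ‖v‖)) := by
    intro v
    refine le_trans ?_ (hb x v)
    rw [← setLIntegral_const]
    refine setLIntegral_mono' (measurableSet_Bl ρ) ?_
    intro g _
    exact ENNReal.ofReal_le_ofReal (Real.rpow_le_rpow hε.le (hcon _) hs.le)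
  have hlim : Tendsto (fun n : ℕ => ENNReal.ofReal (C * Real.exp (-ε' * ‖((n:ℝ), (0:ℝ))‖)))
      atTop (𝓝 0) := by
    rw [← ENNReal.ofReal_zero]
    refine ENNReal.tendsto_ofReal ?_
    have h1 : ∀ n : ℕ, ‖(((n:ℝ), (0:ℝ)) : ℝ × ℝ)‖ = n := by
      intro n
      simp [Prod.norm_def]
    simp_rw [h1]
    have h2 : Tendsto (fun n : ℕ => Real.exp (-ε' * (n:ℝ))) atTop (𝓝 0) := by
      refine Real.tendsto_exp_atBot.comp ?_
      exact tendsto_natCast_atTop_atTop.const_mul_atTop_of_neg (by linarith)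
    simpa using h2.const_mul C
  have h0 : ENNReal.ofReal (ε ^ s) * hG (Bl ρ) ≤ 0 :=
    ge_of_tendsto' hlim (fun n => key _)
  have h1 : ENNReal.ofReal (ε ^ s) ≠ 0 := by
    simpa using Real.rpow_pos_of_pos hε s
  exact absurd (le_antisymm h0 bot_le) (mul_ne_zero h1 hBpos.ne')

end Pool.Agent.H88.LF

end S_H88_LF_CST
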