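import Mathlib
import Pool.Agent.H88.LG.M01
import Pool.Agent.H88.LG.M04
import Pool.Agent.H88.LG.M07
import Pool.Agent.H88.LG.M08

set_option autoImplicit false

/-! Locally free actions of SL(3,R) on compact 9-manifolds, file M09: this file joins several modules to save build time. -/

section S_H88_LF_ORB

/-!
# ORB: the invariant measure on a compact orbit

`Γ = stabilizer of x`, discrete by `hdisc`, `G = K Γ`.  Choose `r > 0` with `nd(b⁻¹b') ≤ ρ` for `b,b' ∈ Bl r` and finitely many `f_1..f_m ∈ K` with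
`K ⊆ ∪ (Bl r) f_l`.  `F = ⋃_l (Bl r f_l ∖ ⋃_{l'<l} Bl r f_{l'} Γ)` is a Borel set which meets every coset `gΓ` in exactly one point (on `Bl r f_l` the cosets are
distinct: `b f_l γ = b' f_l` gives `f_l γ f_l⁻¹ = b⁻¹b'`; use a ball such that its conjugates by `f_l⁻¹` are still `≤ ρ`), contained in the compact set `K1 = ∪ Bl r f_l`.  `F` is a
fundamental domain for the right action of the countable group `Γ` on `G`.  `lam = map (· • x) (hG.restrict F)`.  Invariance: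
`lam (g⁻¹E) = hG {h ∈ F : g h x ∈ E} = hG (gF ∩ E')` with `E' = {h : h x ∈ E}` right `Γ`-invariant; `gF` is another fundamental domain, and the measure of
(fundamental domain) ∩ (right `Γ`-invariant set) does not depend on the fundamental domain (Mathlib: `IsFundamentalDomain.measure_set_eq`, for
the action of `Γ.op` or `Γᵐᵒᵖ`; or directly: decompose by `γ` and use right invariance of `hG`).
-/

set_option autoImplicit false

open MeasureTheory Set Filter
open scoped Topology ENNReal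

namespace Pool.Agent.H88.LF

section ORB

/-- The elements `b⁻¹ b'` for small `b, b'`. -/
theorem ORB_small {r : ℝ} (hr : 0 < r) (hr1 : r ≤ 1 / 2) {b b' : G} (hb : b ∈ Bl r)
    (hb' : b' ∈ Bl r) : nd (b⁻¹ * b') ≤ 9 * r := by
  have h1 : nd b ≤ r := hb
  have h2 : nd b' ≤ r := hb'
  have h3 := nd_inv_le_of_small b (h1.trans hr1)
  have h4 := nd_mul_le b⁻¹ b'
  have h5 := nrm_le_nd b'
  have h6 := nd_nonneg b⁻¹
  have h7 := nd_nonneg b'
  have h8 : nd b⁻¹ * nrm b'.1 ≤ (2 * r) * (3 + r) := by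
    apply mul_le_mul (h3.trans (by linarith)) (h5.trans (by linarith)) (nrm_nonneg _)
      (by positivity)
  nlinarith

/-- A discrete subgroup is countable. -/
theorem ORB_countable (Γ : Subgroup G) (ρ : ℝ) (hρ : 0 < ρ)
    (hdisc : ∀ k ∈ Γ, nd k ≤ ρ → k = 1) : Countable Γ := by
  have hd : DiscreteTopology Γ := by
    apply discreteTopology_of_isOpen_singleton_one
    have h1 : ({1} : Set Γ) = Subtype.val ⁻¹' {g : G | nd g < ρ} := by
      ext γ
      constructor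
      · intro h
        rw [mem_singleton_iff.1 h]
        change nd (1 : G) < ρ
        rw [nd_one]
        exact hρ
      · intro h
        have h2 : nd (γ : G) < ρ := h
        have h3 := hdisc γ γ.2 h2.le
        exact mem_singleton_iff.2 (Subtype.ext h3)
    rw [h1]
    exact (isOpen_nd_lt ρ).preimage continuous_subtype_val
  exact TopologicalSpace.separableSpace_iff_countable.1 inferInstance

/-- A compact Borel fundamental set for a cocompact discrete subgroup. -/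
theorem ORB_fund (Γ : Subgroup G) (K : Set G) (hK : IsCompact K)
    (hKG : ∀ g : G, ∃ γ ∈ Γ, g * γ ∈ K) (ρ : ℝ) (hρ : 0 < ρ)
    (hdisc : ∀ k ∈ Γ, nd k ≤ ρ → k = 1) :
    ∃ (F K1 : Set G), MeasurableSet F ∧ IsCompact K1 ∧ F ⊆ K1 ∧
      ∀ g : G, ∃ γ ∈ Γ, g * γ ∈ F ∧ ∀ γ' ∈ Γ, g * γ' ∈ F → γ' = γ := by
  classical
  have hcΓ := ORB_countable Γ ρ hρ hdisc
  obtain ⟨M, hM1, hM⟩ := exists_bound_of_isCompact hK
  set r : ℝ := min (1 / 2) (ρ / (9 * M ^ 2)) with hr
  have hr0 : 0 < r := lt_min (by norm_num) (by positivity)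
  have hr1 : r ≤ 1 / 2 := min_le_left _ _
  have hr2 : M * (9 * r) * M ≤ ρ := by
    have h1 : r ≤ ρ / (9 * M ^ 2) := min_le_right _ _
    rw [le_div_iff₀ (by positivity)] at h1
    nlinarith
  obtain ⟨T, hTK, hT⟩ := exists_finite_cover hK hr0
  let f : Fin T.card → G := fun i => (T.equivFin.symm i : G)
  have hfK : ∀ i, f i ∈ K := fun i => hTK _ (T.equivFin.symm i).2
  let P : Fin T.card → Set G := fun i => {g | g * (f i)⁻¹ ∈ Bl r}
  have hPc : ∀ i, IsCompact (P i) := by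
    intro i
    have : P i = (fun b => b * f i) '' Bl r := by
      ext g
      constructor
      · intro hg
        exact ⟨g * (f i)⁻¹, hg, by simp⟩
      · rintro ⟨b, hb, rfl⟩
        change b * f i * (f i)⁻¹ ∈ Bl r
        rwa [mul_inv_cancel_right]
    rw [this]
    exact (isCompact_Bl r).image (continuous_mul_const (f i))
  let Sat : Fin T.card → Set G := fun i => {g | ∃ γ ∈ Γ, g * γ ∈ P i}
  have hSatm : ∀ i, MeasurableSet (Sat i) := by
    intro i
    have : Sat i = ⋃ γ : Γ, (fun g => g * (γ : G)) ⁻¹' (P i) := by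
      ext g
      simp only [Sat, mem_iUnion, mem_preimage, Subtype.exists, exists_prop]
      rfl
    rw [this]
    refine MeasurableSet.iUnion fun γ => ?_
    exact (continuous_mul_const (γ : G)).measurable (hPc i).isClosed.measurableSet
  have hSatinv : ∀ i (g γ : G), γ ∈ Γ → (g * γ ∈ Sat i ↔ g ∈ Sat i) := by
    intro i g γ hγ
    constructor
    · rintro ⟨γ', h1, h2⟩
      exact ⟨γ * γ', Γ.mul_mem hγ h1, by rwa [← mul_assoc]⟩
    · rintro ⟨γ', h1, h2⟩
      exact ⟨γ⁻¹ * γ', Γ.mul_mem (Γ.inv_mem hγ) h1, by rwa [mul_assoc, mul_inv_cancel_left]⟩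
  have hcov : ∀ g : G, ∃ i, g ∈ Sat i := by
    intro g
    obtain ⟨γ, hγ, hgK⟩ := hKG g
    obtain ⟨t, ht, htb⟩ := hT _ hgK
    refine ⟨T.equivFin ⟨t, ht⟩, γ, hγ, ?_⟩
    change g * γ * (f _)⁻¹ ∈ Bl r
    have : f (T.equivFin ⟨t, ht⟩) = t := by simp [f]
    rw [this]
    exact htb
  -- points of one piece are inequivalent
  have hone : ∀ i (g γ : G), γ ∈ Γ → g ∈ P i → g * γ ∈ P i → γ = 1 := by
    intro i g γ hγ h1 h2
    apply hdisc γ hγ
    have h3 := ORB_small hr0 hr1 h1 h2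
    have h4 : (g * (f i)⁻¹)⁻¹ * (g * γ * (f i)⁻¹) = f i * γ * (f i)⁻¹ := by group
    rw [h4] at h3
    have h5 : γ = (f i)⁻¹ * (f i * γ * (f i)⁻¹) * ((f i)⁻¹)⁻¹ := by group
    rw [h5]
    refine (nd_conj_le _ _).trans (le_trans ?_ hr2)
    rw [inv_inv]
    have h6 := (hM _ (hfK i)).1
    have h7 := (hM _ (hfK i)).2
    have h8 := nd_nonneg (f i * γ * (f i)⁻¹)
    have hM0 : 0 ≤ M := by linarith
    exact mul_le_mul (mul_le_mul h7 h3 h8 hM0) h6 (nrm_nonneg _) (by positivity)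
  let F : Set G := ⋃ i, (P i \ ⋃ i' : Fin T.card, ⋃ (_ : i' < i), Sat i')
  have hmemF : ∀ g, g ∈ F ↔ ∃ i, g ∈ P i ∧ ∀ i' < i, g ∉ Sat i' := by
    intro g
    simp [F]
  refine ⟨F, ⋃ i, P i, ?_, isCompact_iUnion hPc, ?_, ?_⟩
  · refine MeasurableSet.iUnion fun i => (hPc i).isClosed.measurableSet.diff ?_
    exact MeasurableSet.iUnion fun i' => MeasurableSet.iUnion fun _ => hSatm i'
  · exact iUnion_mono fun i => sdiff_subset
  · intro g
    have hex := hcov g
    -- the least index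
    obtain ⟨i, hi, himin⟩ : ∃ i, g ∈ Sat i ∧ ∀ i' < i, g ∉ Sat i' := by
      obtain ⟨i, hi⟩ := WellFounded.has_min (wellFounded_lt (α := Fin T.card))
        {i | g ∈ Sat i} hex
      exact ⟨i, hi.1, fun i' hi' h => hi.2 i' h hi'⟩
    obtain ⟨γ, hγ, hgγ⟩ := hi
    refine ⟨γ, hγ, (hmemF _).2 ⟨i, hgγ, fun i' hi' => ?_⟩, ?_⟩
    · rw [hSatinv i' g γ hγ]
      exact himin i' hi'
    · intro γ' hγ' hF
      obtain ⟨j, hj1, hj2⟩ := (hmemF _).1 hF
      have hgj : g ∈ Sat j := ⟨γ', hγ', hj1⟩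
      have hij : i ≤ j := not_lt.1 fun h => himin j h hgj
      have hji : j ≤ i := by
        refine not_lt.1 fun h => ?_
        have := hj2 i h
        rw [hSatinv i g γ' hγ'] at this
        exact this ⟨γ, hγ, hgγ⟩
      have hijeq : i = j := le_antisymm hij hji
      subst hijeq
      have h1 : g * γ * (γ⁻¹ * γ') ∈ P i := by
        rw [mul_assoc, mul_inv_cancel_left]
        exact hj1
      have h2 := hone i (g * γ) (γ⁻¹ * γ') (Γ.mul_mem (Γ.inv_mem hγ) hγ') hgγ h1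
      rw [inv_mul_eq_one] at h2
      exact h2.symm

end ORB

/-- ORB -/
theorem orbit_measure {X : Type} [TopologicalSpace X] [T2Space X] [MeasurableSpace X]
    [BorelSpace X] [MulAction G X] [ContinuousSMul G X] (x : X) (hCO : CO x) (ρ : ℝ) (hρ : 0 < ρ)
    (hdisc : ∀ k : G, k • x = x → nd k ≤ ρ → k = 1) :
    ∃ (lam : Measure X) (K1 : Set G), IsCompact K1 ∧ IsFiniteMeasure lam ∧ lam univ ≠ 0 ∧
      (∀ g : G, Measure.map (fun y => g • y) lam = lam) ∧
      ∀ E : Set X, MeasurableSet E → lam E ≤ hG {k | k ∈ K1 ∧ k • x ∈ E} := by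
  classical
  obtain ⟨K, hK, hKG⟩ := hCO
  let Γ : Subgroup G := MulAction.stabilizer G x
  have hmemΓ : ∀ g, g ∈ Γ ↔ g • x = x := fun g => MulAction.mem_stabilizer_iff
  have hdisc' : ∀ k ∈ Γ, nd k ≤ ρ → k = 1 := fun k hk => hdisc k ((hmemΓ k).1 hk)
  have hcΓ := ORB_countable Γ ρ hρ hdisc'
  obtain ⟨F, K1, hFm, hK1, hFK, hF⟩ := ORB_fund Γ K hK (by
    intro g
    obtain ⟨k, hk, hgk⟩ := hKG g
    refine ⟨g⁻¹ * k, (hmemΓ _).2 ?_, by rwa [mul_inv_cancel_left]⟩
    rw [mul_smul, ← hgk, inv_smul_smul]) ρ hρ hdisc'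
  have hcont : Continuous (fun h : G => h • x) := continuous_id.smul continuous_const
  have hmeas : Measurable (fun h : G => h • x) := hcont.measurable
  have hdom : ∀ g : G, IsFundamentalDomain Γ.op ((fun h => g * h) ⁻¹' F) hG := by
    intro g
    refine IsFundamentalDomain.mk' ?_ ?_
    · exact ((continuous_const_mul g).measurable hFm).nullMeasurableSet
    · intro h
      obtain ⟨γ, hγ, h1, h2⟩ := hF (g * h)
      refine ⟨⟨MulOpposite.op γ, hγ⟩, ?_, ?_⟩
      · change g * (h * γ) ∈ F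
        rwa [← mul_assoc]
      · rintro ⟨γ', hγ'⟩ h3
        have h4 : g * (h * MulOpposite.unop γ') ∈ F := h3
        rw [← mul_assoc] at h4
        have h5 := h2 (MulOpposite.unop γ') hγ' h4
        apply Subtype.ext
        change γ' = MulOpposite.op γ
        rw [← h5, MulOpposite.op_unop]
  have hdom1 : IsFundamentalDomain Γ.op F hG := by
    have := hdom 1
    simpa using this
  have hΓop : Countable Γ.op := (Γ.equivOp).symm.countable_iff.2 hcΓ
  have hlam : ∀ E, MeasurableSet E → Measure.map (fun h : G => h • x) (hG.restrict F) E =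
      hG ((fun h : G => h • x) ⁻¹' E ∩ F) := by
    intro E hE
    rw [Measure.map_apply hmeas hE, Measure.restrict_apply (hmeas hE)]
  refine ⟨Measure.map (fun h : G => h • x) (hG.restrict F), K1, hK1, ?_, ?_, ?_, ?_⟩
  · have : IsFiniteMeasure (hG.restrict F) := by
      refine ⟨?_⟩
      rw [Measure.restrict_apply_univ]
      exact (measure_mono hFK).trans_lt hK1.measure_lt_top
    exact Measure.isFiniteMeasure_map _ _
  · rw [hlam univ MeasurableSet.univ, preimage_univ, univ_inter]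
    exact hdom1.measure_ne_zero (NeZero.ne _)
  · intro g
    have hgm : Measurable (fun y : X => g • y) := (continuous_const_smul g).measurable
    ext E hE
    rw [Measure.map_apply hgm hE, hlam _ (hgm hE), hlam _ hE]
    have h1 : hG ((fun h : G => h • x) ⁻¹' E ∩ F) =
        hG ((fun h : G => h • x) ⁻¹' E ∩ ((fun h => g⁻¹ * h) ⁻¹' F)) := by
      refine hdom1.measure_set_eq (hdom g⁻¹) (hmeas hE) ?_
      rintro ⟨γ, hγ⟩
      ext h
      change (h * MulOpposite.unop γ) • x ∈ E ↔ h • x ∈ E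
      have h2 : MulOpposite.unop γ • x = x := (hmemΓ _).1 hγ
      rw [mul_smul, h2]
    rw [h1]
    have h3 : (fun h : G => h • x) ⁻¹' ((fun y => g • y) ⁻¹' E) ∩ F =
        (fun h => g * h) ⁻¹' ((fun h : G => h • x) ⁻¹' E ∩ ((fun h => g⁻¹ * h) ⁻¹' F)) := by
      ext h
      simp only [mem_inter_iff, mem_preimage, mul_smul, inv_mul_cancel_left]
    rw [h3, measure_preimage_mul]
  · intro E hE
    rw [hlam E hE]
    refine measure_mono ?_
    rintro h ⟨h1, h2⟩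
    exact ⟨hFK h2, h1⟩

end Pool.Agent.H88.LF

end S_H88_LF_ORB

section S_H88_LF_E81

/-!
# E81 (blueprint 8.1): a compact orbit has no side free of compact orbits
-/

set_option autoImplicit false

open MeasureTheory Set Filter
open scoped Topology ENNReal

namespace Pool.Agent.H88.LF

variable {X : Type} [MetricSpace X] [CompactSpace X] [MulAction G X] [ContinuousSMul G X]

/-- all points of the orbit have the one-sided property -/
theorem e81_side (S : FB X) (i : Fin S.n) (t0 σ : ℝ) (ht0 : |t0| < 1)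
    (hσ : σ = 1 ∨ σ = -1) (Ω : Set X)
    (hΩ : ∀ (g : G), ∀ x ∈ Ω, g • x ∈ Ω)
    (h : ∃ r > 0, ∀ s, 0 < s → s < r → S.c i (t0 + σ * s) ∈ Ω) (g : G) :
    ∃ σ' : ℝ, (σ' = 1 ∨ σ' = -1) ∧ ∃ r > 0, ∀ s, 0 < s → s < r →
      S.cur (g • S.c i t0) (σ' * s) ∈ Ω := by
  obtain ⟨h1, h2, h3⟩ := S.rep_spec (g • S.c i t0)
  have harr : S.Arr i (S.ri (g • S.c i t0)) t0 (S.rt (g • S.c i t0))
      (g⁻¹ * S.rh (g • S.c i t0)) := by
    refine ⟨ht0, h2.trans (by norm_num), ?_⟩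
    rw [mul_smul, ← h3, inv_smul_smul]
  obtain ⟨σ', hσ', r, hr, hr'⟩ := S.one_sided harr Ω hΩ σ hσ h
  refine ⟨σ', hσ', r, hr, fun s hs hsr => ?_⟩
  unfold FB.cur
  exact hΩ _ _ (hr' s hs hsr)

theorem e81_union {α : Type} (F : Finset G) (A : G → Set G) (ψ : G → ℝ≥0∞) :
    ∫⁻ k in (⋃ f ∈ F, A f), ψ k ∂hG ≤ ∑ f ∈ F, ∫⁻ k in A f, ψ k ∂hG := by
  classical
  induction F using Finset.induction_on with
  | empty => simp
  | insert f F hf ih =>
    rw [Finset.set_biUnion_insert, Finset.sum_insert hf]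
    exact (lintegral_union_le _ _ _).trans (add_le_add le_rfl ih)

theorem e81_shift (ρ' : ℝ) (f : G) (ψ : G → ℝ≥0∞) :
    ∫⁻ k in {k : G | k * f⁻¹ ∈ Bl ρ'}, ψ k ∂hG = ∫⁻ b in Bl ρ', ψ (b * f) ∂hG := by
  have hA : MeasurableSet {k : G | k * f⁻¹ ∈ Bl ρ'} :=
    (measurableSet_Bl ρ').preimage (measurable_mul_const f⁻¹)
  rw [← lintegral_indicator hA, ← lintegral_indicator (measurableSet_Bl ρ'),
    ← lintegral_mul_right _ f]
  refine lintegral_congr fun b => ?_
  by_cases hb : b ∈ Bl ρ'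
  · rw [indicator_of_mem hb, indicator_of_mem]
    show b * f * f⁻¹ ∈ Bl ρ'
    rw [mul_inv_cancel_right]
    exact hb
  · rw [indicator_of_notMem hb, indicator_of_notMem]
    intro h
    have h' : b * f * f⁻¹ ∈ Bl ρ' := h
    rw [mul_inv_cancel_right] at h'
    exact hb h'

/-- the integral with respect to the orbit measure -/
theorem e81_orbit [MeasurableSpace X] [BorelSpace X] (x0 : X) (lam : Measure X) (K1 : Set G)
    (hlam : ∀ E : Set X, MeasurableSet E → lam E ≤ hG {k | k ∈ K1 ∧ k • x0 ∈ E})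
    (F : Finset G) (ρ' : ℝ) (hF : ∀ q ∈ K1, ∃ f ∈ F, q * f⁻¹ ∈ Bl ρ')
    (φ : X → ℝ≥0∞) (hφ : Measurable φ) :
    ∫⁻ y, φ y ∂lam ≤ ∑ f ∈ F, ∫⁻ b in Bl ρ', φ (b • f • x0) ∂hG := by
  have hcont : Continuous (fun k : G => k • x0) := continuous_id.smul continuous_const
  have h1 : lam ≤ (hG.restrict K1).map (fun k : G => k • x0) := by
    rw [Measure.le_iff]
    intro E hE
    rw [Measure.map_apply hcont.measurable hE, Measure.restrict_apply (hcont.measurable hE)]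
    refine (hlam E hE).trans (le_of_eq ?_)
    congr 1
    ext k
    exact and_comm
  have h2 : ∫⁻ y, φ y ∂lam ≤ ∫⁻ y, φ y ∂((hG.restrict K1).map (fun k : G => k • x0)) :=
    lintegral_mono' h1 le_rfl
  rw [lintegral_map hφ hcont.measurable] at h2
  refine h2.trans ?_
  have h3 : K1 ⊆ ⋃ f ∈ F, {k : G | k * f⁻¹ ∈ Bl ρ'} := by
    intro q hq
    obtain ⟨f, hf, hqf⟩ := hF q hq
    exact mem_biUnion (x := f) hf hqf
  refine (lintegral_mono_set h3).trans ((e81_union (α := G) F _ _).trans (le_of_eq ?_))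
  refine Finset.sum_congr rfl fun f _ => ?_
  rw [e81_shift]
  refine lintegral_congr fun b => ?_
  rw [mul_smul]

theorem e81_tendsto (B κ : ℝ) (hκ : 0 < κ) :
    Tendsto (fun n : ℕ => ENNReal.ofReal (B * Real.exp (-(n : ℝ) / κ))) atTop (𝓝 0) := by
  have h1 : Tendsto (fun n : ℕ => -(n : ℝ) / κ) atTop atBot := by
    have h2 : Tendsto (fun n : ℕ => (n : ℝ) / κ) atTop atTop :=
      tendsto_natCast_atTop_atTop.atTop_div_const hκ
    have h3 := tendsto_neg_atTop_atBot.comp h2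
    refine h3.congr fun n => ?_
    simp [neg_div]
  have h2 : Tendsto (fun n : ℕ => B * Real.exp (-(n : ℝ) / κ)) atTop (𝓝 (B * 0)) :=
    (Real.tendsto_exp_atBot.comp h1).const_mul B
  rw [mul_zero] at h2
  have h3 := ENNReal.tendsto_ofReal h2
  rwa [ENNReal.ofReal_zero] at h3

/-- E81.  Let `T`, `μ`, `R` be as provided by `exists_TN`, `exists_mu`, `koop` (Borel structure on `X`); `Ω` is NIV by `niv_of_no_co`.  Every point of the orbit of `c i t0` has
the same one-sided property: `g • c i t0 = h • c j τ` (normal representation) and `FB.one_sided` gives `cur (g • c i t0) (σ' s) ∈ Ω` for small `s > 0`.  Fix one regular `θ` of norm `1`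
(`exists_net`).  `orbit_measure` gives `lam` and `K1`; cover `K1` by finitely many `Bl ρ' * f_l` (`exists_finite_cover`), `x = c i t0`:
`∫ J(D(nθ),y)^s dlam(y) ≤ ∫_{K1} J(D(nθ),k x)^s dk ≤ ∑_l ∫_{Bl ρ'} J(D(nθ), b f_l x)^s db ≤ C ∑_l ∫_{Bl ρ'} J(D(nθ) b, f_l x)^s db → 0` by `rate` (`J(D(nθ)b,y) = J(D(nθ),by)J(b,y)`).
Contradiction to `lintegral_J_ge` for large `n`. -/
theorem no_one_sided_CO (S : FB X) (i : Fin S.n) (t0 σ : ℝ) (ht0 : |t0| < 1)
    (hσ : σ = 1 ∨ σ = -1) (hCO : CO (S.c i t0)) (Ω : Set X) (hΩo : IsOpen Ω)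
    (hΩ : ∀ (g : G), ∀ x ∈ Ω, g • x ∈ Ω) (hno : ∀ x ∈ Ω, ¬ CO x)
    (h : ∃ r > 0, ∀ s, 0 < s → s < r → S.c i (t0 + σ * s) ∈ Ω) : False := by
  letI : MeasurableSpace X := borel X
  haveI : BorelSpace X := ⟨rfl⟩
  obtain ⟨T⟩ := exists_TN S
  obtain ⟨μ, hμ⟩ := exists_mu T
  haveI : IsFiniteMeasure μ := hμ.1
  obtain ⟨R, hR⟩ := koop μ hμ.kd
  have hniv : NIV R Ω := niv_of_no_co hμ R hR Ω hno
  have hside := e81_side S i t0 σ ht0 hσ Ω hΩ h
  choose σ' hσ' r' hr' hcur using hside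
  obtain ⟨N, hN1, hN2⟩ := exists_net 1 one_pos
  obtain ⟨θ, hθN, -⟩ := hN2 (1, 0) (by simp [Prod.norm_def])
  obtain ⟨hθ, hθ1⟩ := hN1 θ hθN
  obtain ⟨C0, hC0⟩ := T.exists_growth
  have hC01 : 1 ≤ C0 := hC0.1
  obtain ⟨ρ', hρ', hρ'1, hrate⟩ := rate hμ R hR C0 hC0 θ hθ hθ1
  obtain ⟨ρ, hρ, hulf⟩ := S.ulf
  obtain ⟨lam, K1, hK1, hfin, hne, hinv, hlam⟩ := orbit_measure (S.c i t0) hCO ρ hρ
    (fun k hk hnd => hulf (S.c i t0) k hnd hk)
  obtain ⟨F, hFK, hF⟩ := exists_finite_cover hK1 hρ'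
  obtain ⟨C, hC1, hJC⟩ := T.J_bound (isCompact_Bl ρ')
  have hCpos : 0 < C := by linarith
  choose Cf hCf hCf' using fun g : G => hrate (r' g) (hr' g)
  obtain ⟨s, hs⟩ : ∃ s : ℝ, s = 1 / (16 * (C0 + 1)) := ⟨_, rfl⟩
  have hs0 : 0 < s := by rw [hs]; positivity
  -- the estimate
  have hmain : ∀ n : ℕ, lam univ ≤ ENNReal.ofReal
      ((C ^ s * ∑ f ∈ F, Cf f) * Real.exp (-(n : ℝ) / (64 * (C0 + 1)))) := by
    intro n
    refine (lintegral_J_ge T lam hinv (D ((n : ℝ) • θ)) s hs0).trans ?_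
    have hmeas : Measurable (fun y : X => ENNReal.ofReal (T.J (D ((n : ℝ) • θ)) y ^ s)) := by
      have h1 : Continuous (fun y : X => T.J (D ((n : ℝ) • θ)) y) :=
        T.continuous_J.comp (continuous_const.prodMk continuous_id)
      exact ENNReal.measurable_ofReal.comp
        ((h1.rpow_const fun y => Or.inl (T.J_pos _ y).ne').measurable)
    refine (e81_orbit (S.c i t0) lam K1 hlam F ρ' hF _ hmeas).trans ?_
    have h1 : ∀ f ∈ F, ∫⁻ b in Bl ρ', ENNReal.ofReal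
        (T.J (D ((n : ℝ) • θ)) (b • f • S.c i t0) ^ s) ∂hG ≤
        ENNReal.ofReal (C ^ s * Cf f * Real.exp (-(n : ℝ) / (64 * (C0 + 1)))) := by
      intro f _
      have h2 : ∀ b ∈ Bl ρ', ENNReal.ofReal (T.J (D ((n : ℝ) • θ)) (b • f • S.c i t0) ^ s) ≤
          ENNReal.ofReal (C ^ s) *
            ENNReal.ofReal (T.J (D ((n : ℝ) • θ) * b) (f • S.c i t0) ^ s) := by
        intro b hb
        rw [← ENNReal.ofReal_mul (Real.rpow_nonneg hCpos.le s),
          ← Real.mul_rpow hCpos.le (T.J_pos _ _).le]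
        refine ENNReal.ofReal_le_ofReal (Real.rpow_le_rpow (T.J_pos _ _).le ?_ hs0.le)
        have h3 := (hJC b hb (f • S.c i t0)).1
        rw [T.J_mul]
        have h4 := T.J_pos (D ((n : ℝ) • θ)) (b • f • S.c i t0)
        have h5 : T.J (D ((n : ℝ) • θ)) (b • f • S.c i t0) * C⁻¹ ≤
            T.J (D ((n : ℝ) • θ)) (b • f • S.c i t0) * T.J b (f • S.c i t0) :=
          mul_le_mul_of_nonneg_left h3 h4.le
        calc T.J (D ((n : ℝ) • θ)) (b • f • S.c i t0)
            = C * (T.J (D ((n : ℝ) • θ)) (b • f • S.c i t0) * C⁻¹) := by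
              field_simp
          _ ≤ C * (T.J (D ((n : ℝ) • θ)) (b • f • S.c i t0) * T.J b (f • S.c i t0)) :=
              mul_le_mul_of_nonneg_left h5 hCpos.le
      have h3 : ∫⁻ b in Bl ρ', ENNReal.ofReal
          (T.J (D ((n : ℝ) • θ)) (b • f • S.c i t0) ^ s) ∂hG ≤
          ∫⁻ b in Bl ρ', ENNReal.ofReal (C ^ s) *
            ENNReal.ofReal (T.J (D ((n : ℝ) • θ) * b) (f • S.c i t0) ^ s) ∂hG :=
        setLIntegral_mono' (measurableSet_Bl ρ') h2
      refine h3.trans ?_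
      rw [lintegral_const_mul' _ _ ENNReal.ofReal_ne_top, mul_assoc,
        ENNReal.ofReal_mul (Real.rpow_nonneg hCpos.le s)]
      refine mul_le_mul_right ?_ _
      rw [hs]
      exact hCf' f Ω hΩo.measurableSet hΩ hniv (f • S.c i t0) (σ' f) (hσ' f)
        (fun t ht1 ht2 => hcur f t ht1 ht2) n
    refine (Finset.sum_le_sum h1).trans (le_of_eq ?_)
    rw [← ENNReal.ofReal_sum_of_nonneg]
    · congr 1
      rw [Finset.mul_sum, Finset.sum_mul]
    · intro f _
      have := hCf f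
      have := Real.rpow_nonneg hCpos.le s
      positivity
  have hlim := e81_tendsto (C ^ s * ∑ f ∈ F, Cf f) (64 * (C0 + 1)) (by positivity)
  exact hne (le_antisymm (ge_of_tendsto' hlim hmain) zero_le)

end Pool.Agent.H88.LF

end S_H88_LF_E81

section S_H88_LF_D1B

/-!
# D1B (blueprint 8.2, second half)

Local dynamics.  `h_γ = τf i i t0 t0 γ` for `γ ∈ F`: strictly increasing and continuous on `[t0-δ1,t0+δ1]`, `h_γ(t0) = t0`, `h_{γ⁻¹}(h_γ t) = t` there (`FB.near`: composition of the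
continuations of `γ` and `γ⁻¹`), and `c i (h_γ t)` is in the orbit of `c i t`.  Take the right side; `Z = {t ∈ [t0,t0+δ] : h_γ t = t for all γ ∈ F}` is closed, `t0 ∈ Z`.  If some `t1 ∈ (t0,t0+δ]` is not in `Z` let
`p = sSup (Z ∩ [t0,t1]) ∈ Z`, `p < t1`, `(p,t1] ∩ Z = ∅`.  Claim: no `t ∈ (p,t1)` has `CO (c i t)`.  Otherwise `{s ∈ (p,t1) : c i s ∈ G c i t}` is finite (`finite_plaques`) and nonempty; let `p'` be its minimum.
For `γ ∈ F`: `h_γ p' > h_γ p = p`, and `h_γ p' < t1` would put it in the set, so `h_γ p' ≥ p'` in any case; the same for `γ⁻¹`, so `p' ≥ h_γ p'`, `h_γ p' = p'`, `p' ∈ Z`: contradiction.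
`Ω = {g • c i s : s ∈ (p,t1)}` is open (`isOpen_sat`), invariant, without CO points, and `CO (c i p)` by `d1a` (`p ∈ Z`): contradiction to `no_one_sided_CO` at `p`, `σ = 1`.
So `Z = [t0,t0+δ]`.  The left side is the same with `σ = -1`.  Then `d1a` gives the compact set.
-/

set_option autoImplicit false

open MeasureTheory Set Filter
open scoped Topology

namespace Pool.Agent.H88.LF

/-- The gap argument in dimension one. -/
theorem d1b_gap {ι : Type*} [DecidableEq ι] (F : Finset ι) (inv : ι → ι)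
    (hinv : ∀ γ ∈ F, inv γ ∈ F) (h : ι → ℝ → ℝ) (R : ℝ → ℝ → Prop) (δ δ1 : ℝ)
    (hδ1 : δ ≤ δ1)
    (h0 : ∀ γ ∈ F, h γ 0 = 0)
    (hmono : ∀ γ ∈ F, StrictMonoOn (h γ) (Icc 0 δ1))
    (hcont : ∀ γ ∈ F, ContinuousOn (h γ) (Icc 0 δ1))
    (hmaps : ∀ γ ∈ F, ∀ t ∈ Icc 0 δ, h γ t ≤ δ1)
    (hleft : ∀ γ ∈ F, ∀ t ∈ Icc 0 δ, h (inv γ) (h γ t) = t)
    (hRs : ∀ s t u, R s t → R t u → R s u) (hRr : ∀ s, R s s)
    (hR : ∀ γ ∈ F, ∀ t ∈ Icc 0 δ, R (h γ t) t)
    (hno : ∀ p t1 : ℝ, 0 ≤ p → p < t1 → t1 ≤ δ → (∀ γ ∈ F, h γ p = p) →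
      (∀ t, p < t → t < t1 → ¬ Set.Finite {s : ℝ | p < s ∧ s < t1 ∧ R s t}) → False) :
    ∀ t ∈ Icc 0 δ, ∀ γ ∈ F, h γ t = t := by
  by_contra hcon
  push Not at hcon
  obtain ⟨t1, ht1, γ1, hγ1, hne⟩ := hcon
  -- the closed set of common fixed points in `[0,t1]`
  set Z : Set ℝ := {t | t ∈ Icc 0 t1 ∧ ∀ γ ∈ F, h γ t = t} with hZ
  have hsub : Icc 0 t1 ⊆ Icc 0 δ1 := Icc_subset_Icc_right (ht1.2.trans hδ1)
  have hZc : IsClosed Z := by
    have h1 : Z = Icc 0 t1 ∩ ⋂ γ ∈ F, {t | t ∈ Icc 0 t1 ∧ h γ t = t} := by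
      ext t
      simp only [hZ, mem_ofPred_eq, mem_inter_iff, mem_iInter]
      constructor
      · rintro ⟨h1, h2⟩
        exact ⟨h1, fun γ hγ => ⟨h1, h2 γ hγ⟩⟩
      · rintro ⟨h1, h2⟩
        exact ⟨h1, fun γ hγ => (h2 γ hγ).2⟩
    rw [h1]
    refine isClosed_Icc.inter (isClosed_biInter (fun γ hγ => ?_))
    have h2 : ContinuousOn (fun t => h γ t - t) (Icc 0 t1) :=
      ((hcont γ hγ).mono hsub).sub continuousOn_id
    have h3 := h2.preimage_isClosed_of_isClosed isClosed_Icc (isClosed_singleton (x := (0 : ℝ)))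
    have h4 : {t | t ∈ Icc 0 t1 ∧ h γ t = t} = Icc 0 t1 ∩ (fun t => h γ t - t) ⁻¹' {0} := by
      ext t
      simp only [mem_ofPred_eq, mem_inter_iff, mem_preimage, mem_singleton_iff, sub_eq_zero]
    rw [h4]
    exact h3
  have hZ0 : (0 : ℝ) ∈ Z := ⟨⟨le_rfl, ht1.1⟩, fun γ hγ => h0 γ hγ⟩
  have hZb : BddAbove Z := ⟨t1, fun t ht => ht.1.2⟩
  set p : ℝ := sSup Z with hp
  have hpZ : p ∈ Z := hZc.csSup_mem ⟨0, hZ0⟩ hZb
  have hpt1 : p < t1 := by
    rcases lt_or_eq_of_le hpZ.1.2 with h1 | h1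
    · exact h1
    · exact absurd (h1 ▸ hpZ.2 γ1 hγ1) hne
  refine hno p t1 hpZ.1.1 hpt1 ht1.2 hpZ.2 ?_
  intro t ht htt1 hfin
  obtain ⟨p', hp'm, hmin⟩ := Set.exists_min_image _ id hfin ⟨t, ht, htt1, hRr t⟩
  obtain ⟨hp1, hp2, hp3⟩ := hp'm
  have hp0 : 0 ≤ p' := hpZ.1.1.trans hp1.le
  have hp'δ : p' ∈ Icc 0 δ := ⟨hp0, hp2.le.trans ht1.2⟩
  have hp'δ1 : p' ∈ Icc 0 δ1 := ⟨hp0, hp'δ.2.trans hδ1⟩
  have hpδ1 : p ∈ Icc 0 δ1 := hsub hpZ.1
  have hge : ∀ γ ∈ F, p' ≤ h γ p' := by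
    intro γ hγ
    by_contra hlt
    push Not at hlt
    have h1 : p < h γ p' := by
      have := hmono γ hγ hpδ1 hp'δ1 hp1
      rwa [hpZ.2 γ hγ] at this
    have h2 := hmin (h γ p') ⟨h1, hlt.trans hp2, hRs _ _ _ (hR γ hγ p' hp'δ) hp3⟩
    simp only [id] at h2
    linarith
  have hfix : ∀ γ ∈ F, h γ p' = p' := by
    intro γ hγ
    refine le_antisymm ?_ (hge γ hγ)
    by_contra hlt
    push Not at hlt
    have h1 : h γ p' ∈ Icc 0 δ1 := ⟨hp0.trans (hge γ hγ), hmaps γ hγ p' hp'δ⟩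
    have h2 := hmono (inv γ) (hinv γ hγ) hp'δ1 h1 hlt
    rw [hleft γ hγ p' hp'δ] at h2
    have h3 := hge (inv γ) (hinv γ hγ)
    linarith
  have h5 : p' ≤ p := le_csSup hZb ⟨⟨hp0, hp2.le⟩, hfix⟩
  linarith

variable {X : Type} [MetricSpace X] [CompactSpace X] [MulAction G X] [ContinuousSMul G X]

theorem d1b_local (S : FB X) (i : Fin S.n) (t0 : ℝ) (γ : G)
    (h : S.Arr i i t0 t0 γ) (hd : 0 < S.dτ i i t0 t0 γ) :
    (∀ᶠ t in 𝓝 t0, 0 < deriv (S.τf i i t0 t0 γ) t ∧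
      S.c i t = S.kf i i t0 t0 γ t • S.c i (S.τf i i t0 t0 γ t)) ∧
    (∀ᶠ t in 𝓝 t0, S.τf i i t0 t0 γ⁻¹ (S.τf i i t0 t0 γ t) = t) := by
  obtain ⟨h1, h2, h3, h4, h5, h6⟩ := S.kf_τf_spec h
  refine ⟨?_, ?_⟩
  · have e1 : ∀ᶠ t in 𝓝 t0, 0 < deriv (S.τf i i t0 t0 γ) t :=
      (FBA3_deriv_cont h4).eventually (lt_mem_nhds hd)
    filter_upwards [e1, h6] with t g1 g2
    exact ⟨g1, g2⟩
  · obtain ⟨ε, hε, hn⟩ := S.near (S.arr_symm h)
    have hkc := S.continuousAt_kf h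
    have hτc := fba_continuousAt_τf S h
    have e1 : ∀ᶠ t in 𝓝 t0, |S.τf i i t0 t0 γ t - t0| < ε := by
      have h7 : ContinuousAt (fun t => |S.τf i i t0 t0 γ t - t0|) t0 :=
        (hτc.sub continuousAt_const).abs
      refine h7.eventually_lt continuousAt_const ?_
      simp only [h2, sub_self, abs_zero]
      exact hε
    have e2 : ∀ᶠ t in 𝓝 t0, nd (γ⁻¹⁻¹ * (S.kf i i t0 t0 γ t)⁻¹) < ε := by
      have h8 := fba_eventually_nd hkc.inv hε
      simp only [Pi.inv_apply, h1] at h8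
      exact h8
    filter_upwards [e1, e2, S.eventually_arr h] with t g1 g2 g3
    exact ((hn _ t _ g1 g2 (S.arr_symm g3)).2).symm

/-- One side of `t0`. -/
theorem d1b_side (S : FB X) (i : Fin S.n) (t0 : ℝ) (ht0 : |t0| < 1)
    (F : Finset G) (hF : ∀ γ ∈ F, S.Arr i i t0 t0 γ ∧ 0 < S.dτ i i t0 t0 γ ∧ γ⁻¹ ∈ F)
    (K : Set G) (hK : IsCompact K) (δa : ℝ) (hδa : 0 < δa)
    (hKa : ∀ t, |t - t0| < δa →
        (∀ γ ∈ F, S.τf i i t0 t0 γ t = t) → ∀ g : G, ∃ k ∈ K, g • S.c i t = k • S.c i t)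
    (σ : ℝ) (hσ : σ = 1 ∨ σ = -1) :
    ∃ δ > 0, ∀ s ∈ Icc 0 δ, ∀ γ ∈ F, S.τf i i t0 t0 γ (t0 + σ * s) = t0 + σ * s := by
  classical
  have hσσ : σ * σ = 1 := by rcases hσ with h | h <;> rw [h] <;> norm_num
  have hσabs : |σ| = 1 := by rcases hσ with h | h <;> rw [h] <;> norm_num
  -- all the local statements on one interval
  have hr0 : 0 < (1 - |t0|) / 2 := by linarith
  have e1 : ∀ᶠ t in 𝓝 t0, ∀ γ ∈ F, 0 < deriv (S.τf i i t0 t0 γ) t ∧
      S.c i t = S.kf i i t0 t0 γ t • S.c i (S.τf i i t0 t0 γ t) := by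
    rw [Finset.eventually_all]
    exact fun γ hγ => (d1b_local S i t0 γ (hF γ hγ).1 (hF γ hγ).2.1).1
  obtain ⟨r1, hr1, hall1⟩ := Metric.eventually_nhds_iff.1 e1
  set δ1 : ℝ := min (r1 / 2) (min (δa / 2) ((1 - |t0|) / 2)) with hδ1def
  have hδ1 : 0 < δ1 := lt_min (by linarith) (lt_min (by linarith) hr0)
  have hδ1r : δ1 < r1 := lt_of_le_of_lt (min_le_left _ _) (by linarith)
  have hδ1a : δ1 < δa := lt_of_le_of_lt ((min_le_right _ _).trans (min_le_left _ _)) (by linarith)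
  have hδ1b : δ1 ≤ (1 - |t0|) / 2 := (min_le_right _ _).trans (min_le_right _ _)
  have e2 : ∀ᶠ t in 𝓝 t0, ∀ γ ∈ F, |S.τf i i t0 t0 γ t - t0| < δ1 ∧
      S.τf i i t0 t0 γ⁻¹ (S.τf i i t0 t0 γ t) = t := by
    rw [Finset.eventually_all]
    intro γ hγ
    have h1 := (S.kf_τf_spec (hF γ hγ).1).2.1
    have e3 : ∀ᶠ t in 𝓝 t0, |S.τf i i t0 t0 γ t - t0| < δ1 := by
      have h7 : ContinuousAt (fun t => |S.τf i i t0 t0 γ t - t0|) t0 :=
        ((fba_continuousAt_τf S (hF γ hγ).1).sub continuousAt_const).abs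
      refine h7.eventually_lt continuousAt_const ?_
      simp only [h1, sub_self, abs_zero]
      exact hδ1
    filter_upwards [e3, (d1b_local S i t0 γ (hF γ hγ).1 (hF γ hγ).2.1).2] with t g1 g2
    exact ⟨g1, g2⟩
  obtain ⟨r2, hr2, hall2⟩ := Metric.eventually_nhds_iff.1 e2
  set δ : ℝ := min (r2 / 2) δ1 with hδdef
  have hδ : 0 < δ := lt_min (by linarith) hδ1
  have hδr2 : δ < r2 := lt_of_le_of_lt (min_le_left _ _) (by linarith)
  have hδδ1 : δ ≤ δ1 := min_le_right _ _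
  have hdist : ∀ s : ℝ, 0 ≤ s → dist (t0 + σ * s) t0 = s := by
    intro s hs
    rw [Real.dist_eq, add_sub_cancel_left, abs_mul, hσabs, one_mul, abs_of_nonneg hs]
  have habs : ∀ s : ℝ, 0 ≤ s → |t0 + σ * s - t0| = s := by
    intro s hs
    rw [← Real.dist_eq]
    exact hdist s hs
  have hlt1 : ∀ s : ℝ, 0 ≤ s → s ≤ δ1 → |t0 + σ * s| ≤ (1 + |t0|) / 2 := by
    intro s hs hs1
    have h1 := abs_add_le t0 (σ * s)
    rw [abs_mul, hσabs, one_mul, abs_of_nonneg hs] at h1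
    linarith
  have hr : (1 + |t0|) / 2 < 1 := by linarith
  -- properties of the functions
  let h : G → ℝ → ℝ := fun γ s => σ * (S.τf i i t0 t0 γ (t0 + σ * s) - t0)
  have hback : ∀ γ s, t0 + σ * h γ s = S.τf i i t0 t0 γ (t0 + σ * s) := by
    intro γ s
    show t0 + σ * (σ * (S.τf i i t0 t0 γ (t0 + σ * s) - t0)) = _
    rw [← mul_assoc, hσσ]
    ring
  have hderiv : ∀ γ ∈ F, ∀ s ∈ Icc 0 δ1,
      HasDerivAt (h γ) (deriv (S.τf i i t0 t0 γ) (t0 + σ * s)) s := by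
    intro γ hγ s hs
    have h1 := (hall1 (y := t0 + σ * s) (by rw [hdist s hs.1]; linarith [hs.2]) γ hγ).1
    have h2 : DifferentiableAt ℝ (S.τf i i t0 t0 γ) (t0 + σ * s) :=
      differentiableAt_of_deriv_ne_zero h1.ne'
    have h3 : HasDerivAt (fun s => t0 + σ * s) σ s := by
      have := ((hasDerivAt_id s).const_mul σ).const_add t0
      simpa using this
    have h4 := (h2.hasDerivAt.comp s h3)
    have h5 := (h4.sub_const t0).const_mul σ
    have h6 : σ * (deriv (S.τf i i t0 t0 γ) (t0 + σ * s) * σ) =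
        deriv (S.τf i i t0 t0 γ) (t0 + σ * s) := by
      rw [mul_comm (deriv _ _) σ, ← mul_assoc, hσσ, one_mul]
    rw [h6] at h5
    exact h5
  have hmain := d1b_gap F (fun γ => γ⁻¹) (fun γ hγ => (hF γ hγ).2.2) h
    (fun s t => ∃ g : G, S.c i (t0 + σ * s) = g • S.c i (t0 + σ * t)) δ δ1 hδδ1
    (by
      intro γ hγ
      have h1 := (S.kf_τf_spec (hF γ hγ).1).2.1
      show σ * (S.τf i i t0 t0 γ (t0 + σ * 0) - t0) = 0
      rw [mul_zero, add_zero, h1, sub_self, mul_zero])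
    (by
      intro γ hγ
      refine strictMonoOn_of_deriv_pos (convex_Icc _ _)
        (fun s hs => (hderiv γ hγ s hs).continuousAt.continuousWithinAt) ?_
      intro s hs
      rw [interior_Icc] at hs
      have hs' : s ∈ Icc 0 δ1 := ⟨hs.1.le, hs.2.le⟩
      rw [(hderiv γ hγ s hs').deriv]
      exact (hall1 (y := t0 + σ * s) (by rw [hdist s hs'.1]; linarith [hs'.2]) γ hγ).1)
    (fun γ hγ s hs => (hderiv γ hγ s hs).continuousAt.continuousWithinAt)
    (by
      intro γ hγ s hs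
      have h1 := (hall2 (y := t0 + σ * s) (by rw [hdist s hs.1]; linarith [hs.2]) γ hγ).1
      refine (le_abs_self _).trans ?_
      show |σ * (S.τf i i t0 t0 γ (t0 + σ * s) - t0)| ≤ δ1
      rw [abs_mul, hσabs, one_mul]
      exact h1.le)
    (by
      intro γ hγ s hs
      have h1 := (hall2 (y := t0 + σ * s) (by rw [hdist s hs.1]; linarith [hs.2]) γ hγ).2
      show σ * (S.τf i i t0 t0 γ⁻¹ (t0 + σ * h γ s) - t0) = s
      rw [hback, h1, add_sub_cancel_left, ← mul_assoc, hσσ, one_mul])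
    (by
      rintro s t u ⟨g, hg⟩ ⟨g', hg'⟩
      exact ⟨g * g', by rw [hg, hg', mul_smul]⟩)
    (fun s => ⟨1, (one_smul _ _).symm⟩)
    (by
      intro γ hγ s hs
      have h1 := (hall1 (y := t0 + σ * s) (by rw [hdist s hs.1]; linarith [hs.2]) γ hγ).2
      refine ⟨(S.kf i i t0 t0 γ (t0 + σ * s))⁻¹, ?_⟩
      rw [hback, eq_inv_smul_iff]
      exact h1.symm)
    (by
      intro p s1 hp hps1 hs1 hfix hinf
      have hp1 : p ≤ δ1 := hps1.le.trans (hs1.trans hδδ1)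
      -- the parameter interval
      set I : Set ℝ := {t | ∃ s, p < s ∧ s < s1 ∧ t = t0 + σ * s} with hI
      have hIeq : I = (fun t => σ * (t - t0)) ⁻¹' (Ioo p s1) := by
        ext t
        constructor
        · rintro ⟨s, h1, h2, rfl⟩
          show σ * (t0 + σ * s - t0) ∈ Ioo p s1
          rw [add_sub_cancel_left, ← mul_assoc, hσσ, one_mul]
          exact ⟨h1, h2⟩
        · intro ht
          refine ⟨σ * (t - t0), ht.1, ht.2, ?_⟩
          rw [← mul_assoc, hσσ]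
          ring
      have hIo : IsOpen I := by
        rw [hIeq]
        exact isOpen_Ioo.preimage (by fun_prop)
      have hI1 : ∀ t ∈ I, |t| < 1 := by
        rintro t ⟨s, h1, h2, rfl⟩
        exact (hlt1 s (hp.trans h1.le) (h2.le.trans (hs1.trans hδδ1))).trans_lt hr
      have hCOp : CO (S.c i (t0 + σ * p)) := by
        refine ⟨K, hK, hKa _ ?_ ?_⟩
        · rw [habs p hp]
          linarith
        · intro γ hγ
          rw [← hback, hfix γ hγ]
      refine no_one_sided_CO S i (t0 + σ * p) σ ((hlt1 p hp hp1).trans_lt hr) hσ hCOp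
        {x : X | ∃ (g : G), ∃ t ∈ I, x = g • S.c i t} (S.isOpen_sat i I hIo hI1) ?_ ?_ ?_
      · rintro g x ⟨g', t, ht, rfl⟩
        exact ⟨g * g', t, ht, by rw [mul_smul]⟩
      · rintro x ⟨g', t, ⟨s, h1, h2, rfl⟩, rfl⟩ hCOx
        rw [CO_smul_iff] at hCOx
        obtain ⟨K', hK', hK'x⟩ := hCOx
        refine hinf s h1 h2 ?_
        have h3 := S.finite_plaques (S.c i (t0 + σ * s)) K' hK' i ((1 + |t0|) / 2) hr
        have h4 : Function.Injective (fun s : ℝ => t0 + σ * s) := by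
          intro a b hab
          have h5 : σ * a = σ * b := add_left_cancel hab
          have h6 : σ * (σ * a) = σ * (σ * b) := by rw [h5]
          rwa [← mul_assoc, ← mul_assoc, hσσ, one_mul, one_mul] at h6
        refine (h3.preimage h4.injOn).subset ?_
        rintro u ⟨hu1, hu2, g, hg⟩
        refine ⟨hlt1 u (hp.trans hu1.le) (hu2.le.trans (hs1.trans hδδ1)), ?_⟩
        obtain ⟨k, hk, hgk⟩ := hK'x g
        exact ⟨k, hk, hg.trans hgk⟩
      · refine ⟨s1 - p, by linarith, ?_⟩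
        intro s hs0 hs1'
        refine ⟨1, t0 + σ * p + σ * s, ⟨p + s, by linarith, by linarith, by ring⟩, ?_⟩
        rw [one_smul])
  refine ⟨δ, hδ, fun s hs γ hγ => ?_⟩
  rw [← hback, hmain s hs γ hγ]

/-- D1': orbits near a compact orbit are uniformly compact. -/
theorem d1 (S : FB X) (i : Fin S.n) (t0 : ℝ) (ht0 : |t0| < 1) (hCO : CO (S.c i t0)) :
    ∃ K : Set G, IsCompact K ∧ ∃ δ > 0, ∀ t, |t - t0| < δ →
      ∀ g : G, ∃ k ∈ K, g • S.c i t = k • S.c i t := by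
  obtain ⟨F, hF, K, hK, δa, hδa, hKa⟩ := d1a S i t0 ht0 hCO
  obtain ⟨δp, hδp, hp⟩ := d1b_side S i t0 ht0 F hF K hK δa hδa hKa 1 (Or.inl rfl)
  obtain ⟨δm, hδm, hm⟩ := d1b_side S i t0 ht0 F hF K hK δa hδa hKa (-1) (Or.inr rfl)
  refine ⟨K, hK, min δa (min δp δm), lt_min hδa (lt_min hδp hδm), ?_⟩
  intro t ht
  have h1 : |t - t0| < δa := ht.trans_le (min_le_left _ _)
  have h2 : |t - t0| < δp := ht.trans_le ((min_le_right _ _).trans (min_le_left _ _))
  have h3 : |t - t0| < δm := ht.trans_le ((min_le_right _ _).trans (min_le_right _ _))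
  refine hKa t h1 ?_
  intro γ hγ
  rcases le_total t0 t with h4 | h4
  · have h5 := hp (t - t0) ⟨by linarith, (le_abs_self _).trans h2.le⟩ γ hγ
    have h6 : t0 + 1 * (t - t0) = t := by ring
    rwa [h6] at h5
  · have h5 := hm (t0 - t) ⟨by linarith, by
      rw [abs_sub_comm] at h3
      exact (le_abs_self _).trans h3.le⟩ γ hγ
    have h6 : t0 + -1 * (t0 - t) = t := by ring
    rwa [h6] at h5

end Pool.Agent.H88.LF

end S_H88_LF_D1B

section S_H88_LF_NOB

/-!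
# NOB (blueprint 8.3)

`E_i = {t : |t|<1, CO (c i t)}` is open by `d1`; for an arrow `(i,t) → (j,τ)`: `t ∈ E_i ↔ τ ∈ E_j`.  Claim: `E_i` is closed in `(-1,1)`, so `∅` or everything; then `{CO}` and its complement are
unions of saturations of the open intervals (`isOpen_sat`), so `{CO}` is clopen.
Suppose `t0 ∉ E_i` is a limit of `E_i`, `|t0|<1`.  Then (changing `t0`) there are `t0 ∉ E_i`, `σ = ±1`, `δ > 0` with `t0 + σs ∈ E_i` for `0<s<δ`.  `x = c i t0` is not CO, so by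
`exists_infinite_plaques` there are `j` and infinitely many `s`, `|s| ≤ 1/2`, with `c j s = g_s • x`, i.e. an arrow `(i,t0) → (j,s)` (`g_s⁻¹`).  Its continuation maps a one-sided neighbourhood of `t0`
(side `σ`) onto a one-sided neighbourhood of `s` inside `E_j`, and `s ∉ E_j`.  Let `I_s` be the connected component of `E_j ∩ (-3/4,3/4)` adjacent to `s` on that side; `s` is an end point of
`I_s`, so infinitely many different (disjoint open) intervals occur; discard the at most two with an end point `±3/4`; for the others the end points are in `(-3/4,3/4)∖E_j`.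
For such `I`: `A_I = {u ∈ (0,δ) : c i (t0+σu) ∈ G c j I}` is nonempty (small `u`), open (`isOpen_sat`), closed in `(0,δ)`: `u_m → u`, `c j (w_m) ∈ G c i (t0+σu_m)`, by `d1` at `t0+σu` (CO) `c j w_m = k_m c i (t0+σu_m)` with
`k_m ∈ K` compact, limits `w ∈ closure I`, `c j w = k c i (t0+σu)` is CO, so `w ∈ E_j`, so `w ∈ I`.  Hence `A_I = (0,δ)` for infinitely many disjoint `I`: the orbit of `c i (t0+σδ/2)` (CO) contains `c j w` for infinitely
many `w ∈ [-3/4,3/4]`: contradiction to `finite_plaques`.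
-/

set_option autoImplicit false

open MeasureTheory Set Filter
open scoped Topology

namespace Pool.Agent.H88.LF

variable {X : Type} [MetricSpace X] [CompactSpace X] [MulAction G X] [ContinuousSMul G X]

/-- The set of parameters with compact orbit is open. -/
theorem nob_open (S : FB X) (j : Fin S.n) (t : ℝ) (ht : |t| < 1) (h : CO (S.c j t)) :
    ∃ δ > 0, ∀ t', |t' - t| < δ → CO (S.c j t') := by
  obtain ⟨K, hK, δ, hδ, h1⟩ := d1 S j t ht h
  exact ⟨δ, hδ, fun t' ht' => ⟨K, hK, h1 t' ht'⟩⟩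

/-- A one-sided neighbourhood of `t0` is mapped onto a one-sided neighbourhood of `s` by the continuation
of an arrow. -/
theorem nob_side (S : FB X) (i j : Fin S.n) (t0 s σ δ : ℝ) (hσ : σ = 1 ∨ σ = -1) (hδ : 0 < δ)
    (k0 : G) (h : S.Arr i j t0 s k0) :
    ∃ σ' : ℝ, (σ' = 1 ∨ σ' = -1) ∧ ∃ η > 0, ∀ v, 0 < v → v < η →
      ∃ u, 0 < u ∧ u < δ ∧ ∃ k : G, S.c i (t0 + σ * u) = k • S.c j (s + σ' * v) := by
  have hd := S.hasDerivAt_τf h
  have hne := S.dτ_ne_zero h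
  have hτ0 : S.τf i j t0 s k0 t0 = s := (S.kf_τf_spec h).2.1
  have hσ0 : σ ≠ 0 := by rcases hσ with h | h <;> rw [h] <;> norm_num
  have hσσ : σ * σ = 1 := by rcases hσ with h | h <;> rw [h] <;> norm_num
  obtain ⟨σ', hσ', hpos⟩ : ∃ σ' : ℝ, (σ' = 1 ∨ σ' = -1) ∧ 0 < σ' * (σ * S.dτ i j t0 s k0) := by
    rcases lt_or_gt_of_ne (mul_ne_zero hσ0 hne) with h1 | h1
    · exact ⟨-1, Or.inr rfl, by linarith⟩
    · exact ⟨1, Or.inl rfl, by linarith⟩
  have hσ'σ' : σ' * σ' = 1 := by rcases hσ' with h | h <;> rw [h] <;> norm_num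
  refine ⟨σ', hσ', ?_⟩
  let f : ℝ → ℝ := fun u => σ' * (S.τf i j t0 s k0 (t0 + σ * u) - s)
  have hf0 : f 0 = 0 := by
    show σ' * (S.τf i j t0 s k0 (t0 + σ * 0) - s) = 0
    rw [mul_zero, add_zero, hτ0, sub_self, mul_zero]
  have hfd : HasDerivAt f (σ' * (σ * S.dτ i j t0 s k0)) 0 := by
    have h1 : HasDerivAt (fun u : ℝ => t0 + σ * u) σ 0 := by
      simpa using ((hasDerivAt_id (0 : ℝ)).const_mul σ).const_add t0
    have h2 : HasDerivAt (S.τf i j t0 s k0) (S.dτ i j t0 s k0) (t0 + σ * 0) := by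
      rw [mul_zero, add_zero]; exact hd
    have h3 := ((h2.comp (0 : ℝ) h1).sub_const s).const_mul σ'
    have h4 : σ' * (σ * S.dτ i j t0 s k0) = σ' * (S.dτ i j t0 s k0 * σ) := by ring
    rw [h4]
    exact h3
  -- positivity to the right
  have hposr : ∀ᶠ u in 𝓝[>] (0 : ℝ), 0 < f u := by
    have h1 : ∀ᶠ u in 𝓝[≠] (0 : ℝ), 0 < slope f 0 u :=
      (hasDerivAt_iff_tendsto_slope.1 hfd).eventually (lt_mem_nhds hpos)
    have h2 : ∀ᶠ u in 𝓝[>] (0 : ℝ), 0 < slope f 0 u :=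
      h1.filter_mono (nhdsWithin_mono _ (fun x hx => ne_of_gt hx))
    filter_upwards [h2, self_mem_nhdsWithin] with u hu hu0
    have hu0' : (0 : ℝ) < u := hu0
    rw [slope_def_field, hf0, sub_zero, sub_zero] at hu
    exact (div_pos_iff_of_pos_right hu0').1 hu
  have hev : ∀ᶠ t in 𝓝 t0, S.Arr i j t (S.τf i j t0 s k0 t) (S.kf i j t0 s k0 t) ∧
      ContinuousAt (S.τf i j t0 s k0) t := by
    filter_upwards [S.eventually_arr h, S.eventually_contDiffAt h] with t h1 h2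
    exact ⟨h1, h2.2.1.continuousAt⟩
  obtain ⟨r, hr, hr'⟩ := Metric.eventually_nhds_iff.1 hev
  have hsmall : ∀ᶠ u in 𝓝[>] (0 : ℝ), u < min r δ :=
    (gt_mem_nhds (lt_min hr hδ)).filter_mono nhdsWithin_le_nhds
  obtain ⟨u0, hu1, hu2, hu3⟩ := (hposr.and (hsmall.and self_mem_nhdsWithin)).exists
  have hu3' : (0 : ℝ) < u0 := hu3
  refine ⟨f u0, hu1, fun v hv1 hv2 => ?_⟩
  have habs : ∀ u, 0 ≤ u → u ≤ u0 → dist (t0 + σ * u) t0 < r := by
    intro u h1 h2
    rw [Real.dist_eq]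
    have h3 : |t0 + σ * u - t0| = u := by
      rcases hσ with h | h <;> rw [h]
      · rw [show t0 + 1 * u - t0 = u by ring, abs_of_nonneg h1]
      · rw [show t0 + -1 * u - t0 = -u by ring, abs_neg, abs_of_nonneg h1]
    rw [h3]
    exact lt_of_le_of_lt h2 (hu2.trans_le (min_le_left _ _))
  have hfc : ContinuousOn f (Icc 0 u0) := by
    intro u hu
    refine ContinuousAt.continuousWithinAt ?_
    have h1 := (hr' (habs u hu.1 hu.2)).2
    have h2 : ContinuousAt (fun u : ℝ => t0 + σ * u) u := by fun_prop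
    exact ((ContinuousAt.comp (f := fun u : ℝ => t0 + σ * u) h1 h2).sub continuousAt_const).const_mul σ'
  obtain ⟨u, hu, hfu⟩ := intermediate_value_Icc hu3'.le hfc
    (show v ∈ Icc (f 0) (f u0) from ⟨by rw [hf0]; exact hv1.le, hv2.le⟩)
  have hu0 : 0 < u := by
    rcases hu.1.eq_or_lt with h1 | h1
    · rw [← h1, hf0] at hfu
      linarith
    · exact h1
  refine ⟨u, hu0, lt_of_le_of_lt hu.2 (hu2.trans_le (min_le_right _ _)),
    S.kf i j t0 s k0 (t0 + σ * u), ?_⟩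
  have h1 := (hr' (habs u hu.1 hu.2)).1
  have h2 : S.τf i j t0 s k0 (t0 + σ * u) = s + σ' * v := by
    have h3 : σ' * (S.τf i j t0 s k0 (t0 + σ * u) - s) = v := hfu
    rw [← h3]
    linear_combination (- (S.τf i j t0 s k0 (t0 + σ * u) - s)) * hσ'σ'
  rw [← h2]
  exact h1.2.2

/-- The maximal interval of compact orbits adjacent to `s` on the side `σ'`. -/
theorem nob_interval (S : FB X) (j : Fin S.n) (s σ' η : ℝ) (hσ' : σ' = 1 ∨ σ' = -1)
    (hs : |s| ≤ 1 / 2) (hη : 0 < η) (h : ∀ v, 0 < v → v < η → CO (S.c j (s + σ' * v))) :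
    ∃ b > 0, (∀ w, 0 < w → w < b → |s + σ' * w| < 3 / 4 ∧ CO (S.c j (s + σ' * w))) ∧
      ¬ (|s + σ' * b| < 3 / 4 ∧ CO (S.c j (s + σ' * b))) := by
  have habs : ∀ w : ℝ, |σ' * w| = |w| := by
    intro w
    rcases hσ' with h | h <;> rw [h]
    · rw [one_mul]
    · rw [neg_one_mul, abs_neg]
  let V : Set ℝ := {v | 0 < v ∧ ∀ w, 0 < w → w < v →
    |s + σ' * w| < 3 / 4 ∧ CO (S.c j (s + σ' * w))}
  have hbdd : BddAbove V := by
    refine ⟨3, fun v hv => ?_⟩
    by_contra hcon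
    push Not at hcon
    have h1 := (hv.2 2 (by norm_num) (by linarith)).1
    have h2 := abs_sub_abs_le_abs_sub (σ' * 2) (-s)
    rw [habs, abs_neg, abs_of_pos (by norm_num : (0 : ℝ) < 2), sub_neg_eq_add, add_comm (σ' * 2)] at h2
    linarith
  have hne : min η (1 / 4) ∈ V := by
    refine ⟨lt_min hη (by norm_num), fun w hw1 hw2 => ⟨?_, h w hw1 (hw2.trans_le (min_le_left _ _))⟩⟩
    have h1 := abs_add_le s (σ' * w)
    rw [habs, abs_of_pos hw1] at h1
    have h2 := hw2.trans_le (min_le_right η (1 / 4))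
    linarith
  have hpos : 0 < sSup V := lt_of_lt_of_le (lt_min hη (by norm_num)) (le_csSup hbdd hne)
  have hin : ∀ w, 0 < w → w < sSup V → |s + σ' * w| < 3 / 4 ∧ CO (S.c j (s + σ' * w)) := by
    intro w hw1 hw2
    obtain ⟨v, hv, hwv⟩ := exists_lt_of_lt_csSup ⟨_, hne⟩ hw2
    exact hv.2 w hw1 hwv
  refine ⟨sSup V, hpos, hin, ?_⟩
  rintro ⟨h1, h2⟩
  obtain ⟨δ, hδ, h3⟩ := nob_open S j (s + σ' * sSup V) (by linarith) h2
  let m : ℝ := min δ (3 / 4 - |s + σ' * sSup V|)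
  have hm : 0 < m := lt_min hδ (by linarith)
  have h4 : sSup V + m ∈ V := by
    refine ⟨by linarith, fun w hw1 hw2 => ?_⟩
    rcases lt_or_ge w (sSup V) with h5 | h5
    · exact hin w hw1 h5
    · have h6 : |s + σ' * w - (s + σ' * sSup V)| < m := by
        rw [show s + σ' * w - (s + σ' * sSup V) = σ' * (w - sSup V) by ring, habs,
          abs_of_nonneg (by linarith)]
        linarith
      refine ⟨?_, h3 _ (h6.trans_le (min_le_left _ _))⟩
      have h7 := abs_sub_abs_le_abs_sub (s + σ' * w) (s + σ' * sSup V)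
      have h8 := h6.trans_le (min_le_right δ (3 / 4 - |s + σ' * sSup V|))
      linarith
  have h5 := le_csSup hbdd h4
  linarith

/-- The orbits through `c i (t0 + σ u)` all meet the curve of an interval with non-compact ends. -/
theorem nob_all (S : FB X) (i j : Fin S.n) (t0 σ δ s σ' b : ℝ) (hσ'σ' : σ' * σ' = 1)
    (hδ1 : ∀ u, 0 < u → u < δ → |t0 + σ * u| < 1)
    (hCO : ∀ u, 0 < u → u < δ → CO (S.c i (t0 + σ * u)))
    (hs : |s| ≤ 1 / 2) (hb : |s + σ' * b| ≤ 3 / 4) (hb0 : 0 < b)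
    (hsn : ¬ CO (S.c j s)) (hbn : ¬ CO (S.c j (s + σ' * b)))
    (hin : ∀ w, 0 < w → w < b → |s + σ' * w| < 3 / 4)
    (h0 : ∃ u, 0 < u ∧ u < δ ∧ ∃ w, 0 < w ∧ w < b ∧ ∃ k : G,
      S.c i (t0 + σ * u) = k • S.c j (s + σ' * w)) :
    ∀ u, 0 < u → u < δ → ∃ w, 0 < w ∧ w < b ∧ ∃ k : G,
      S.c i (t0 + σ * u) = k • S.c j (s + σ' * w) := by
  let A : Set ℝ := {u | (0 < u ∧ u < δ) ∧ ∃ w, 0 < w ∧ w < b ∧ ∃ k : G,
      S.c i (t0 + σ * u) = k • S.c j (s + σ' * w)}
  have hle : ∀ w, 0 ≤ w → w ≤ b → |s + σ' * w| ≤ 3 / 4 := by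
    intro w h1 h2
    rcases h1.eq_or_lt with h3 | h3
    · rw [← h3, mul_zero, add_zero]; linarith
    · rcases h2.eq_or_lt with h4 | h4
      · rw [h4]; exact hb
      · exact (hin w h3 h4).le
  have hAo : IsOpen A := by
    rw [isOpen_iff_mem_nhds]
    rintro u ⟨⟨hu1, hu2⟩, w, hw1, hw2, k, hk⟩
    have hIo : IsOpen ((fun t : ℝ => σ' * (t - s)) ⁻¹' Ioo 0 b) :=
      isOpen_Ioo.preimage (by fun_prop)
    have hI1 : ∀ t ∈ (fun t : ℝ => σ' * (t - s)) ⁻¹' Ioo 0 b, t = s + σ' * (σ' * (t - s)) := by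
      intro t _
      linear_combination (s - t) * hσ'σ'
    have hsat := S.isOpen_sat j _ hIo (fun t ht => by
      rw [hI1 t ht]
      exact (hin _ ht.1 ht.2).trans (by norm_num))
    have hmem : S.c i (t0 + σ * u) ∈ {x : X | ∃ (g : G),
        ∃ t ∈ (fun t : ℝ => σ' * (t - s)) ⁻¹' Ioo 0 b, x = g • S.c j t} := by
      refine ⟨k, s + σ' * w, ?_, hk⟩
      show σ' * (s + σ' * w - s) ∈ Ioo 0 b
      rw [show σ' * (s + σ' * w - s) = σ' * σ' * w by ring, hσ'σ', one_mul]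
      exact ⟨hw1, hw2⟩
    have hcu : ContinuousAt (fun u : ℝ => S.c i (t0 + σ * u)) u :=
      ContinuousAt.comp (f := fun u : ℝ => t0 + σ * u) (g := S.c i)
        (S.cont i _ (hδ1 u hu1 hu2)) (by fun_prop)
    have h1 := hcu.preimage_mem_nhds (hsat.mem_nhds hmem)
    filter_upwards [h1, Ioo_mem_nhds hu1 hu2] with u' h2 h3
    obtain ⟨g, t, ht, h4⟩ := h2
    refine ⟨h3, σ' * (t - s), ht.1, ht.2, g, ?_⟩
    rw [← hI1 t ht]
    exact h4
  have hcl : closure A ∩ Ioo 0 δ ⊆ A := by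
    rintro u ⟨hu, hu1, hu2⟩
    obtain ⟨y, hyA, hy⟩ := mem_closure_iff_seq_limit.1 hu
    obtain ⟨K, hK, δ', hδ', hKd⟩ := d1 S i (t0 + σ * u) (hδ1 u hu1 hu2) (hCO u hu1 hu2)
    have hlim : Tendsto (fun n => t0 + σ * y n) atTop (𝓝 (t0 + σ * u)) :=
      (hy.const_mul σ).const_add t0
    have hev : ∀ᶠ n in atTop, |t0 + σ * y n - (t0 + σ * u)| < δ' := by
      have := hlim.eventually (Metric.ball_mem_nhds _ hδ')
      filter_upwards [this] with n hn
      rwa [Real.dist_eq] at hn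
    obtain ⟨N, hN⟩ := Filter.eventually_atTop.1 hev
    have hex : ∀ n, ∃ p : ℝ × G, p ∈ Icc 0 b ×ˢ K ∧
        S.c j (s + σ' * p.1) = p.2 • S.c i (t0 + σ * y (N + n)) := by
      intro n
      obtain ⟨-, w, hw1, hw2, k, hk⟩ := hyA (N + n)
      obtain ⟨k', hk', h1⟩ := hKd _ (hN (N + n) (Nat.le_add_right _ _)) k⁻¹
      refine ⟨(w, k'), ⟨⟨hw1.le, hw2.le⟩, hk'⟩, ?_⟩
      show S.c j (s + σ' * w) = k' • S.c i (t0 + σ * y (N + n))
      rw [← h1, hk, inv_smul_smul]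
    choose p hp hp' using hex
    obtain ⟨⟨w, k⟩, hwk, φ, hφ, hlimp⟩ := (isCompact_Icc.prod hK).tendsto_subseq hp
    have hw3 : |s + σ' * w| < 1 := lt_of_le_of_lt (hle w hwk.1.1 hwk.1.2) (by norm_num)
    have hl1 : Tendsto (fun n => S.c j (s + σ' * (p (φ n)).1)) atTop (𝓝 (S.c j (s + σ' * w))) := by
      have h1 : Tendsto (fun n => (p (φ n)).1) atTop (𝓝 w) :=
        (continuous_fst.tendsto _).comp hlimp
      have h2 : Tendsto (fun n => s + σ' * (p (φ n)).1) atTop (𝓝 (s + σ' * w)) :=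
        (h1.const_mul σ').const_add s
      exact (S.cont j _ hw3).tendsto.comp h2
    have hl2 : Tendsto (fun n => (p (φ n)).2 • S.c i (t0 + σ * y (N + φ n))) atTop
        (𝓝 (k • S.c i (t0 + σ * u))) := by
      have h1 : Tendsto (fun n => (p (φ n)).2) atTop (𝓝 k) :=
        (continuous_snd.tendsto _).comp hlimp
      have h2 : Tendsto (fun n => t0 + σ * y (N + φ n)) atTop (𝓝 (t0 + σ * u)) := by
        have h3 : Tendsto (fun n => N + φ n) atTop atTop :=
          tendsto_atTop_mono (fun n => Nat.le_add_left _ _) hφ.tendsto_atTop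
        exact hlim.comp h3
      exact h1.smul ((S.cont i _ (hδ1 u hu1 hu2)).tendsto.comp h2)
    have heq : S.c j (s + σ' * w) = k • S.c i (t0 + σ * u) := by
      refine tendsto_nhds_unique hl1 ?_
      refine hl2.congr (fun n => ?_)
      exact (hp' (φ n)).symm
    have hCOw : CO (S.c j (s + σ' * w)) := by
      rw [heq]; exact CO_smul (hCO u hu1 hu2) k
    have hw0 : 0 < w := by
      rcases hwk.1.1.eq_or_lt with h1 | h1
      · have h1' : w = 0 := h1.symm
        rw [h1', mul_zero, add_zero] at hCOw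
        exact absurd hCOw hsn
      · exact h1
    have hwb : w < b := by
      rcases hwk.1.2.eq_or_lt with h1 | h1
      · have h1' : w = b := h1
        rw [h1'] at hCOw
        exact absurd hCOw hbn
      · exact h1
    refine ⟨⟨hu1, hu2⟩, w, hw0, hwb, k⁻¹, ?_⟩
    rw [heq, inv_smul_smul]
  intro u hu1 hu2
  obtain ⟨u', hu1', hu2', h1⟩ := h0
  have h2 : Ioo 0 δ ⊆ A := isPreconnected_Ioo.subset_of_closure_inter_subset hAo
    ⟨u', ⟨hu1', hu2'⟩, ⟨hu1', hu2'⟩, h1⟩ hcl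
  exact (h2 ⟨hu1, hu2⟩).2

/-- The key point: no one-sided accumulation. -/
theorem no_boundary (S : FB X) (i : Fin S.n) (t0 σ δ : ℝ) (ht0 : |t0| < 1)
    (hσ : σ = 1 ∨ σ = -1) (hδ : 0 < δ) (hδ1 : ∀ s, 0 < s → s < δ → |t0 + σ * s| < 1)
    (hCO : ∀ s, 0 < s → s < δ → CO (S.c i (t0 + σ * s))) : CO (S.c i t0) := by
  by_contra hn
  obtain ⟨j, hj⟩ := S.exists_infinite_plaques (S.c i t0) hn
  -- the parameters with a good side `σ'`
  let P : ℝ → Set ℝ := fun σ' => {s | |s| ≤ 1 / 2 ∧ ¬ CO (S.c j s) ∧ ∃ η > 0, ∀ v, 0 < v → v < η →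
      ∃ u, 0 < u ∧ u < δ ∧ ∃ k : G, S.c i (t0 + σ * u) = k • S.c j (s + σ' * v)}
  have hcov : {s : ℝ | |s| ≤ 1 / 2 ∧ ∃ g : G, S.c j s = g • S.c i t0} ⊆ P 1 ∪ P (-1) := by
    rintro s ⟨hs, g, hg⟩
    have harr : S.Arr i j t0 s g⁻¹ := ⟨ht0, by linarith, by rw [hg, inv_smul_smul]⟩
    have hns : ¬ CO (S.c j s) := by
      rw [hg, CO_smul_iff]; exact hn
    obtain ⟨σ', hσ', hη⟩ := nob_side S i j t0 s σ δ hσ hδ _ harr
    rcases hσ' with h | h
    · left; rw [h] at hη; exact ⟨hs, hns, hη⟩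
    · right; rw [h] at hη; exact ⟨hs, hns, hη⟩
  have hinf : ∃ σ' : ℝ, (σ' = 1 ∨ σ' = -1) ∧ (P σ').Infinite := by
    rcases Set.infinite_union.1 (hj.mono hcov) with h | h
    · exact ⟨1, Or.inl rfl, h⟩
    · exact ⟨-1, Or.inr rfl, h⟩
  obtain ⟨σ', hσ', hinf⟩ := hinf
  have hσ'σ' : σ' * σ' = 1 := by rcases hσ' with h | h <;> rw [h] <;> norm_num
  have habs : ∀ w : ℝ, |σ' * w| = |w| := by
    intro w
    rcases hσ' with h | h <;> rw [h]
    · rw [one_mul]
    · rw [neg_one_mul, abs_neg]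
  have hint : ∀ s ∈ P σ', ∃ b > 0,
      (∀ w, 0 < w → w < b → |s + σ' * w| < 3 / 4 ∧ CO (S.c j (s + σ' * w))) ∧
      ¬ (|s + σ' * b| < 3 / 4 ∧ CO (S.c j (s + σ' * b))) := by
    rintro s ⟨hs, -, η, hη, h1⟩
    refine nob_interval S j s σ' η hσ' hs hη (fun v hv1 hv2 => ?_)
    obtain ⟨u, hu1, hu2, k, hk⟩ := h1 v hv1 hv2
    have h2 := hCO u hu1 hu2
    rw [hk] at h2
    exact (CO_smul_iff k).1 h2
  choose! b hb0 hb1 hb2 using hint
  -- disjointness
  have hdisj : ∀ s ∈ P σ', ∀ s' ∈ P σ', σ' * s < σ' * s' → b s ≤ σ' * s' - σ' * s := by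
    intro s hs s' hs' hlt
    by_contra hcon
    push Not at hcon
    have h1 := (hb1 s hs (σ' * s' - σ' * s) (by linarith) hcon).2
    have h2 : s + σ' * (σ' * s' - σ' * s) = s' := by
      linear_combination (s' - s) * hσ'σ'
    rw [h2] at h1
    exact hs'.2.1 h1
  let Q : Set ℝ := {s | s ∈ P σ' ∧ ∃ s' ∈ P σ', σ' * s < σ' * s'}
  have hQ : Q.Infinite := by
    intro hQf
    refine hinf ?_
    have hsub : (P σ' \ Q).Subsingleton := by
      rintro s ⟨hs, hsQ⟩ s' ⟨hs', hsQ'⟩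
      by_contra hne
      have h1 : ¬ σ' * s < σ' * s' := fun h => hsQ ⟨hs, s', hs', h⟩
      have h2 : ¬ σ' * s' < σ' * s := fun h => hsQ' ⟨hs', s, hs, h⟩
      have h3 : σ' * s = σ' * s' := le_antisymm (not_lt.1 h2) (not_lt.1 h1)
      have h4 : σ' ≠ 0 := by rcases hσ' with h | h <;> rw [h] <;> norm_num
      exact hne (mul_left_cancel₀ h4 h3)
    refine (hQf.union hsub.finite).subset ?_
    intro s hs
    by_cases h : s ∈ Q
    · exact Or.inl h
    · exact Or.inr ⟨hs, h⟩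
  have hend : ∀ s ∈ Q, |s + σ' * b s| < 3 / 4 := by
    rintro s ⟨hs, s', hs', hlt⟩
    have h1 := hdisj s hs s' hs' hlt
    have h2 := hb0 s hs
    have h3 : |s + σ' * b s| = |σ' * s + b s| := by
      rw [← habs (s + σ' * b s)]
      congr 1
      linear_combination (b s) * hσ'σ'
    have h4 : |σ' * s| ≤ 1 / 2 := by rw [habs]; exact hs.1
    have h5 : |σ' * s'| ≤ 1 / 2 := by rw [habs]; exact hs'.1
    have h6 := abs_le.1 h4
    have h7 := abs_le.1 h5
    rw [h3, abs_lt]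
    constructor <;> linarith
  have hall : ∀ s ∈ Q, ∃ w, 0 < w ∧ w < b s ∧ ∃ k : G,
      S.c i (t0 + σ * (δ / 2)) = k • S.c j (s + σ' * w) := by
    intro s hs
    refine nob_all S i j t0 σ δ s σ' (b s) hσ'σ' hδ1 hCO hs.1.1 (hend s hs).le (hb0 s hs.1) hs.1.2.1
      (fun h => hb2 s hs.1 ⟨hend s hs, h⟩) (fun w h1 h2 => (hb1 s hs.1 w h1 h2).1) ?_ (δ / 2)
      (by linarith) (by linarith)
    obtain ⟨-, -, η, hη, h1⟩ := hs.1
    have hb := hb0 s hs.1
    have hm : 0 < min η (b s) := lt_min hη hb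
    obtain ⟨u, hu1, hu2, k, hk⟩ := h1 (min η (b s) / 2) (by linarith)
      (by have := min_le_left η (b s); linarith)
    exact ⟨u, hu1, hu2, min η (b s) / 2, by linarith,
      by have := min_le_right η (b s); linarith, k, hk⟩
  choose! w hw0 hwb k hk using hall
  obtain ⟨K, hK, hKx⟩ := hCO (δ / 2) (by linarith) (by linarith)
  have hfin := S.finite_plaques (S.c i (t0 + σ * (δ / 2))) K hK j (3 / 4) (by norm_num)
  refine Set.infinite_of_injOn_mapsTo (f := fun s => s + σ' * w s) (s := Q) ?_ ?_ hQ hfin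
  · have key : ∀ s ∈ Q, ∀ s' ∈ Q, s + σ' * w s = s' + σ' * w s' → ¬ σ' * s < σ' * s' := by
      intro s hs s' hs' heq hlt
      have h1 := hdisj s hs.1 s' hs'.1 hlt
      have h2 : σ' * s' - σ' * s = w s - w s' := by
        linear_combination σ' * (-heq) + (w s - w s') * hσ'σ' 
      have h3 := hwb s hs
      have h4 := hw0 s' hs'
      linarith
    intro s hs s' hs' heq
    have heq' : s + σ' * w s = s' + σ' * w s' := heq
    have h1 := key s hs s' hs' heq'
    have h2 := key s' hs' s hs heq'.symm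
    have h3 : σ' * s = σ' * s' := le_antisymm (not_lt.1 h2) (not_lt.1 h1)
    have h4 : σ' ≠ 0 := by rcases hσ' with h | h <;> rw [h] <;> norm_num
    exact mul_left_cancel₀ h4 h3
  · intro s hs
    refine ⟨((hb1 s hs.1 (w s) (hw0 s hs) (hwb s hs)).1).le, ?_⟩
    obtain ⟨k', hk', h1⟩ := hKx (k s)⁻¹
    refine ⟨k', hk', ?_⟩
    show S.c j (s + σ' * w s) = k' • S.c i (t0 + σ * (δ / 2))
    rw [← h1, hk s hs, inv_smul_smul]

end Pool.Agent.H88.LF

end S_H88_LF_NOB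

section S_H88_LF_CLO

/-!
# CLO (blueprint 8.3): from `no_boundary` and `d1`; see the header of NOB
-/

set_option autoImplicit false

open MeasureTheory Set Filter
open scoped Topology

namespace Pool.Agent.H88.LF

variable {X : Type} [MetricSpace X] [CompactSpace X] [MulAction G X] [ContinuousSMul G X]

/-- Compactness of orbits propagates along a transversal. -/
theorem clo_line (S : FB X) (i : Fin S.n) (a σ L : ℝ) (hσ : σ = 1 ∨ σ = -1)
    (hin : ∀ s, 0 ≤ s → s ≤ L → |a + σ * s| < 1) (ha : CO (S.c i a)) :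
    ∀ s, 0 ≤ s → s ≤ L → CO (S.c i (a + σ * s)) := by
  by_contra hcon
  push Not at hcon
  obtain ⟨s0, hs0, hs0L, hn⟩ := hcon
  have hσa : |σ| = 1 := by rcases hσ with rfl | rfl <;> simp
  set B : Set ℝ := {s | 0 ≤ s ∧ s ≤ L ∧ ¬ CO (S.c i (a + σ * s))} with hB
  have hBne : B.Nonempty := ⟨s0, hs0, hs0L, hn⟩
  have hBb : BddBelow B := ⟨0, fun s hs => hs.1⟩
  set m := sInf B with hm
  have hm0 : 0 ≤ m := le_csInf hBne fun s hs => hs.1
  have hmL : m ≤ L := (csInf_le hBb ⟨hs0, hs0L, hn⟩).trans hs0L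
  have hlt : ∀ s, 0 ≤ s → s < m → CO (S.c i (a + σ * s)) := by
    intro s hs1 hs2
    by_contra hc
    exact absurd (csInf_le hBb (⟨hs1, hs2.le.trans hmL, hc⟩ : s ∈ B)) (not_le.2 hs2)
  have hCOm : CO (S.c i (a + σ * m)) := by
    rcases hm0.eq_or_lt with h0 | h0
    · rw [← h0, mul_zero, add_zero]; exact ha
    · refine no_boundary S i (a + σ * m) (-σ) m (hin m hm0 hmL) ?_ h0 ?_ ?_
      · rcases hσ with rfl | rfl
        · exact Or.inr rfl
        · exact Or.inl (by norm_num)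
      · intro s h1 h2
        have e1 : a + σ * m + -σ * s = a + σ * (m - s) := by ring
        rw [e1]
        exact hin _ (by linarith) (by linarith)
      · intro s h1 h2
        have e1 : a + σ * m + -σ * s = a + σ * (m - s) := by ring
        rw [e1]
        exact hlt _ (by linarith) (by linarith)
  obtain ⟨K, hK, δ, hδ, hd⟩ := d1 S i (a + σ * m) (hin m hm0 hmL) hCOm
  obtain ⟨b, hb, hbm⟩ := exists_lt_of_csInf_lt hBne (show sInf B < m + δ by linarith)
  have hmb : m ≤ b := csInf_le hBb hb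
  refine hb.2.2 ⟨K, hK, hd _ ?_⟩
  have e1 : a + σ * b - (a + σ * m) = σ * (b - m) := by ring
  rw [e1, abs_mul, hσa, one_mul, abs_of_nonneg (by linarith)]
  linarith

/-- All points of a transversal have compact orbits if one has. -/
theorem clo_all (S : FB X) (i : Fin S.n) (a b : ℝ) (ha : |a| < 1) (hb : |b| < 1)
    (hCO : CO (S.c i a)) : CO (S.c i b) := by
  rw [abs_lt] at ha hb
  rcases le_total a b with h | h
  · have := clo_line S i a 1 (b - a) (Or.inl rfl) (fun s h1 h2 => by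
      rw [abs_lt]; constructor <;> linarith [ha.1, hb.2]) hCO (b - a) (by linarith) le_rfl
    rwa [one_mul, add_sub_cancel] at this
  · have := clo_line S i a (-1) (a - b) (Or.inr rfl) (fun s h1 h2 => by
      rw [abs_lt]; constructor <;> linarith [ha.2, hb.1]) hCO (a - b) (by linarith) le_rfl
    have e1 : a + -1 * (a - b) = b := by ring
    rwa [e1] at this

/-- CLO -/
theorem isClopen_CO (S : FB X) : IsClopen {x : X | CO x} := by
  have key : ∀ p : Prop → Prop, (∀ (i : Fin S.n) (a : ℝ), |a| < 1 → p (CO (S.c i a)) →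
      ∀ b : ℝ, |b| < 1 → p (CO (S.c i b))) → IsOpen {x : X | p (CO x)} := by
    intro p hp
    rw [isOpen_iff_mem_nhds]
    intro x hx
    obtain ⟨-, ht, hxe⟩ := S.rep_spec x
    have hx' : p (CO (S.c (S.ri x) (S.rt x))) := by
      have h1 : p (CO x) := hx
      rw [hxe, CO_smul_iff] at h1
      exact h1
    have ho := S.isOpen_sat (S.ri x) {t | |t| < 1} (isOpen_lt continuous_abs continuous_const)
      (fun t ht => ht)
    refine Filter.mem_of_superset (ho.mem_nhds ⟨S.rh x, S.rt x, ?_, hxe⟩) ?_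
    · show |S.rt x| < 1
      linarith
    · rintro y ⟨g, t, ht', rfl⟩
      show p (CO (g • S.c (S.ri x) t))
      rw [CO_smul_iff]
      exact hp _ _ (by linarith) hx' t ht'
  constructor
  · rw [← isOpen_compl_iff]
    exact key (fun q => ¬ q) fun i a ha h b hb hc => h (clo_all S i b a hb ha hc)
  · exact key (fun q => q) fun i a ha h b hb => clo_all S i a b ha hb h

end Pool.Agent.H88.LF

end S_H88_LF_CLO
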