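import Mathlib
import Pool.Agent.H88.LG.M00

set_option autoImplicit false

/-! Locally free actions of SL(3,R) on compact 9-manifolds, file M10: this file joins several modules to save build time. -/

section S_H88_LF_ManDefs

/-!
# MAN: common definitions of the MAN modules (helper58)
-/

set_option autoImplicit false

open Set Filter
open scoped Topology Manifold

namespace Pool.Agent.H88.LF

/-- the model space -/
abbrev E9 : Type := EuclideanSpace ℝ (Fin 9)

/-- matrices as functions (with the sup norm) -/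
abbrev M9 : Type := Fin 3 → Fin 3 → ℝ

/-- the unit matrix as a function -/
def one9 : M9 := fun i j => if i = j then 1 else 0

theorem of_one9 : Matrix.of one9 = (1 : Mat) := by
  ext i j
  simp [one9, Matrix.one_apply]

/-- the action on `M` in charts: `A, z ↦ ψ (act A (φ⁻¹ z))` with `φ` the chart at `x` and `ψ` the
chart at `y` -/
noncomputable def chAct {M : Type} [TopologicalSpace M] [ChartedSpace E9 M] (act : Mat → M → M)
    (x y : M) (p : M9 × E9) : E9 :=
  chartAt E9 y (act (Matrix.of p.1) ((chartAt E9 x).symm p.2))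

/-- hypotheses on the action (those of S13902) -/
structure SmAct (M : Type) [TopologicalSpace M] [ChartedSpace E9 M] (act : Mat → M → M) :
    Prop where
  one : ∀ x : M, act 1 x = x
  mul : ∀ (A B : Mat) (x : M), A.det = 1 → B.det = 1 → act (A * B) x = act A (act B x)
  sm : ContMDiffOn ((𝓘(ℝ, Fin 3 → Fin 3 → ℝ)).prod (𝓡 9)) (𝓡 9) ((⊤ : ℕ∞) : WithTop ℕ∞)
          (fun p : (Fin 3 → Fin 3 → ℝ) × M => act (Matrix.of p.1) p.2)
          {p : (Fin 3 → Fin 3 → ℝ) × M | 0 < (Matrix.of p.1).det}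
  free : ∀ x : M, ∃ U ∈ 𝓝 (1 : Mat), ∀ A ∈ U, A.det = 1 → act A x = x → A = 1

end Pool.Agent.H88.LF

end S_H88_LF_ManDefs

section S_H88_LF_ManE

/-!
# MANE: the one-parameter group of a traceless matrix

`e s = exp (s ξ)` (`NormedSpace.exp` with the local instances `Matrix.linftyOpNormedRing`,
`Matrix.linftyOpNormedAlgebra`; derivative `hasDerivAt_exp_smul_const`; entrywise: compose with the
continuous linear maps `A ↦ A i j`; or any other construction, e.g. as solution of the linear ODE).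
`det (e s) = 1`: `f s = det (e s)` is multiplicative and `f' 0 = tr ξ = 0` (`Matrix.det_fin_three`),
so `f' s = f s * f' 0 = 0` and `f` is constant.
-/

set_option autoImplicit false

open Set Filter
open scoped Topology Manifold

namespace Pool.Agent.H88.LF

section

attribute [local instance] Matrix.linftyOpNormedRing Matrix.linftyOpNormedAlgebra

theorem manE_deriv (X : Matrix (Fin 3) (Fin 3) ℝ) (s : ℝ) :
    HasDerivAt (fun t : ℝ => NormedSpace.exp (t • X)) (NormedSpace.exp (s • X) * X) s := by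
  have := hasDerivAt_exp_smul_const (𝕂 := ℝ) X s
  exact this

end

theorem man_exp (ξ : M9) (htr : ξ 0 0 + ξ 1 1 + ξ 2 2 = 0) :
    ∃ e : ℝ → M9, e 0 = one9 ∧ (∀ s t, Matrix.of (e (s + t)) = Matrix.of (e s) * Matrix.of (e t)) ∧
      (∀ s, (Matrix.of (e s)).det = 1) ∧ HasDerivAt e ξ 0 ∧ Continuous e := by
  set X : Matrix (Fin 3) (Fin 3) ℝ := Matrix.of ξ with hX
  set e : ℝ → M9 := fun s => Matrix.of.symm (NormedSpace.exp (s • X)) with he
  have hof : ∀ s, Matrix.of (e s) = NormedSpace.exp (s • X) := fun s => rfl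
  have h0 : e 0 = one9 := by
    apply Matrix.of.injective
    rw [of_one9, hof, zero_smul, NormedSpace.exp_zero]
  have hadd : ∀ s t, Matrix.of (e (s + t)) = Matrix.of (e s) * Matrix.of (e t) := by
    intro s t
    rw [hof, hof, hof, add_smul]
    refine Matrix.exp_add_of_commute _ _ ?_
    exact (Commute.refl X).smul_left s |>.smul_right t
  have hder : HasDerivAt e ξ 0 := by
    have h1 := manE_deriv X 0
    rw [zero_smul, NormedSpace.exp_zero, one_mul] at h1
    exact h1
  have hcont : Continuous e := by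
    rw [continuous_iff_continuousAt]
    intro s
    have h1 : HasDerivAt e (Matrix.of.symm (NormedSpace.exp (s • X) * X) : M9) s :=
      manE_deriv X s
    exact h1.continuousAt
  have hdet : ∀ s, (Matrix.of (e s)).det = 1 := by
    have hmul : ∀ s t, (Matrix.of (e (s + t))).det = (Matrix.of (e s)).det * (Matrix.of (e t)).det :=
      fun s t => by rw [hadd, Matrix.det_mul]
    have h5 : ∀ i j : Fin 3, HasDerivAt (fun s : ℝ => e s i j) (ξ i j) 0 := by
      intro i j
      exact (hasDerivAt_pi.1 ((hasDerivAt_pi.1 hder) i)) j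
    have hf : ∀ A : M9, (Matrix.of A).det =
        A 0 0 * A 1 1 * A 2 2 - A 0 0 * A 1 2 * A 2 1 - A 0 1 * A 1 0 * A 2 2 +
          A 0 1 * A 1 2 * A 2 0 + A 0 2 * A 1 0 * A 2 1 - A 0 2 * A 1 1 * A 2 0 := by
      intro A
      rw [Matrix.det_fin_three]
      simp only [Matrix.of_apply]
    have h6 : HasDerivAt (fun s : ℝ => (Matrix.of (e s)).det) 0 0 := by
      simp only [hf]
      have := ((((((((h5 0 0).mul (h5 1 1)).mul (h5 2 2)).sub
        (((h5 0 0).mul (h5 1 2)).mul (h5 2 1))).sub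
        (((h5 0 1).mul (h5 1 0)).mul (h5 2 2))).add
        (((h5 0 1).mul (h5 1 2)).mul (h5 2 0))).add
        (((h5 0 2).mul (h5 1 0)).mul (h5 2 1))).sub
        (((h5 0 2).mul (h5 1 1)).mul (h5 2 0)))
      refine this.congr_deriv ?_
      simp [h0, one9]
      linarith
    have h7 : ∀ s, HasDerivAt (fun s : ℝ => (Matrix.of (e s)).det) 0 s := by
      intro s
      have h8 : HasDerivAt (fun r : ℝ => (Matrix.of (e (r - s))).det) 0 s := by
        have h9 : HasDerivAt (fun s : ℝ => (Matrix.of (e s)).det) 0 (s - s) := by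
          rw [sub_self]; exact h6
        exact h9.comp_sub_const s s
      have h10 := h8.const_mul (Matrix.of (e s)).det
      rw [mul_zero] at h10
      refine h10.congr_of_eventuallyEq (Filter.Eventually.of_forall fun r => ?_)
      show (Matrix.of (e r)).det = (Matrix.of (e s)).det * (Matrix.of (e (r - s))).det
      rw [← hmul, add_sub_cancel]
    intro s
    have h11 := is_const_of_deriv_eq_zero (f := fun s : ℝ => (Matrix.of (e s)).det)
      (fun s => (h7 s).differentiableAt) (fun s => (h7 s).deriv) s 0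
    rw [h11, h0, of_one9, Matrix.det_one]
  exact ⟨e, h0, hadd, hdet, hder, hcont⟩

end Pool.Agent.H88.LF

end S_H88_LF_ManE

section S_H88_LF_ManS

/-!
# MANS: smoothness of the action in charts, continuity

`man_sm`: `p ↦ ((p.1, φ.symm p.2) : M9 × M)` is `ContMDiffAt` at `(A0, z0)` (`contMDiffOn_chart_symm`),
compose with the action (`ContMDiffOn.contMDiffAt` on the open set `det > 0`) and with the chart at
`y` (`contMDiffOn_chart`); `contMDiffAt_iff_contDiffAt` with `modelWithCornersSelf_prod`,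
`chartedSpaceSelf_prod`.
`man_cont`: the action is continuous at all `(A0, x)` with `det A0 > 0`.
-/

set_option autoImplicit false

open Set Filter
open scoped Topology Manifold

namespace Pool.Agent.H88.LF

variable {M : Type} [TopologicalSpace M] [ChartedSpace E9 M]
  [IsManifold (𝓡 9) ((⊤ : ℕ∞) : WithTop ℕ∞) M]

omit [ChartedSpace E9 M] [IsManifold (𝓡 9) ((⊤ : ℕ∞) : WithTop ℕ∞) M] in
theorem manS_open : IsOpen {p : M9 × M | 0 < (Matrix.of p.1).det} := by
  have h1 : Continuous (fun p : M9 × M => (Matrix.of p.1).det) :=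
    Continuous.matrix_det (show Continuous (fun p : M9 × M => (Matrix.of p.1 : Mat)) from
      continuous_fst)
  exact isOpen_lt continuous_const h1


theorem man_cont {act : Mat → M → M} (h : SmAct M act) (A0 : Mat) (x : M) (hA : 0 < A0.det) :
    ContinuousAt (fun p : Mat × M => act p.1 p.2) (A0, x) := by
  have h1 := h.sm.continuousOn
  have h2 : ContinuousAt (fun p : M9 × M => act (Matrix.of p.1) p.2)
      ((Matrix.of.symm A0 : M9), x) :=
    h1.continuousAt (manS_open.mem_nhds hA)
  exact h2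

theorem man_sm {act : Mat → M → M} (h : SmAct M act) (x y : M) (A0 : M9) (z0 : E9)
    (hdet : 0 < (Matrix.of A0).det) (hz0 : z0 ∈ (chartAt E9 x).target)
    (hy : act (Matrix.of A0) ((chartAt E9 x).symm z0) ∈ (chartAt E9 y).source) :
    ContDiffAt ℝ 2 (chAct act x y) (A0, z0) := by
  have h1 : ContMDiffAt (𝓡 9) (𝓡 9) ((⊤ : ℕ∞) : WithTop ℕ∞) (chartAt E9 x).symm z0 :=
    (contMDiffOn_chart_symm (I := 𝓡 9) (x := x)).contMDiffAt
      ((chartAt E9 x).open_target.mem_nhds hz0)
  have h2 : ContMDiffAt ((𝓘(ℝ, Fin 3 → Fin 3 → ℝ)).prod (𝓡 9)) (𝓡 9) ((⊤ : ℕ∞) : WithTop ℕ∞)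
          (fun p : (Fin 3 → Fin 3 → ℝ) × M => act (Matrix.of p.1) p.2)
          (A0, (chartAt E9 x).symm z0) :=
    h.sm.contMDiffAt (manS_open.mem_nhds hdet)
  have h3 : ContMDiffAt (𝓡 9) (𝓡 9) ((⊤ : ℕ∞) : WithTop ℕ∞) (chartAt E9 y)
      (act (Matrix.of A0) ((chartAt E9 x).symm z0)) :=
    (contMDiffOn_chart (I := 𝓡 9) (x := y)).contMDiffAt
      ((chartAt E9 y).open_source.mem_nhds hy)
  have h4 : ContMDiffAt ((𝓘(ℝ, Fin 3 → Fin 3 → ℝ)).prod (𝓡 9))
      ((𝓘(ℝ, Fin 3 → Fin 3 → ℝ)).prod (𝓡 9)) ((⊤ : ℕ∞) : WithTop ℕ∞)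
      (fun p : M9 × E9 => (p.1, (chartAt E9 x).symm p.2)) (A0, z0) := by
    refine ContMDiffAt.prodMk contMDiffAt_fst ?_
    exact ContMDiffAt.comp (x := ((A0, z0) : M9 × E9)) (f := fun p : M9 × E9 => p.2)
      (g := (chartAt E9 x).symm) h1 contMDiffAt_snd
  have h5 := ContMDiffAt.comp (x := ((A0, z0) : M9 × E9))
    (f := fun p : M9 × E9 => (p.1, (chartAt E9 x).symm p.2))
    (g := fun p : (Fin 3 → Fin 3 → ℝ) × M => act (Matrix.of p.1) p.2) h2 h4
  have h6 := ContMDiffAt.comp (x := ((A0, z0) : M9 × E9))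
    (f := fun p : M9 × E9 => act (Matrix.of p.1) ((chartAt E9 x).symm p.2))
    (g := chartAt E9 y) h3 h5
  have h7 : ContMDiffAt ((𝓘(ℝ, Fin 3 → Fin 3 → ℝ)).prod (𝓡 9)) (𝓡 9) ((⊤ : ℕ∞) : WithTop ℕ∞)
      (chAct act x y) (A0, z0) := h6
  rw [← modelWithCornersSelf_prod, chartedSpaceSelf_prod] at h7
  exact (contMDiffAt_iff_contDiffAt.1 h7).of_le (WithTop.coe_le_coe.2 le_top)

end Pool.Agent.H88.LF

end S_H88_LF_ManS

section S_H88_LF_ManI

/-!
# MANI: the derivative of the orbit map is injective on traceless matrices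

Let `L (ξ, 0) = 0`, `tr ξ = 0`, `e` from `man_exp`, `u s = act (e s) x`, `φ` the chart at `x`.
* `φ (u ε)` has derivative `0` at `ε = 0`: chain rule for `ε ↦ chAct act x x (e ε, φ x)`.
* for every `s` and every `y` with `u s ∈ (chartAt y).source`: `u (s + ε) = act (e s) (u ε)`, so
  `(chartAt y) (u (s + ε)) = chAct act x y (e s, φ (u ε))` for small `ε` (`u ε` is in the source of
  `φ`), which has derivative `0` at `ε = 0` (chain rule, `man_sm` at `(e s, φ x)`).
* so `u` is locally constant (chart at `u s`, derivative zero on an interval: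
  `is_const_of_deriv_eq_zero` or the convex version; charts are injective on their source),
  so constant on `ℝ` (`IsLocallyConstant`, `ℝ` preconnected): `act (e s) x = x` for all `s`.
* `h.free x` and continuity of `e` at `0`: `e s = 1` for small `s`, so `ξ = 0`.
-/

set_option autoImplicit false

open Set Filter
open scoped Topology Manifold

namespace Pool.Agent.H88.LF

variable {M : Type} [TopologicalSpace M] [ChartedSpace E9 M]
  [IsManifold (𝓡 9) ((⊤ : ℕ∞) : WithTop ℕ∞) M]

theorem man_inj {act : Mat → M → M} (h : SmAct M act) (x : M) (L : M9 × E9 →L[ℝ] E9)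
    (hL : HasFDerivAt (chAct act x x) L (one9, chartAt E9 x x)) (ξ : M9)
    (htr : ξ 0 0 + ξ 1 1 + ξ 2 2 = 0) (h0 : L (ξ, 0) = 0) : ξ = 0 := by
  obtain ⟨e, e0, eadd, edet, eder, econt⟩ := man_exp ξ htr
  have hxx : (chartAt E9 x).symm (chartAt E9 x x) = x :=
    (chartAt E9 x).left_inv (mem_chart_source E9 x)
  set u : ℝ → M := fun s => act (Matrix.of (e s)) x with hu
  have hu0 : u 0 = x := by
    show act (Matrix.of (e 0)) x = x
    rw [e0, of_one9, h.one]
  have hucont : Continuous u := by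
    rw [continuous_iff_continuousAt]
    intro s
    have h1 := man_cont h (Matrix.of (e s)) x (by rw [edet]; exact one_pos)
    have h2 : Continuous (fun s : ℝ => ((Matrix.of (e s) : Mat), x)) :=
      (show Continuous (fun s : ℝ => (Matrix.of (e s) : Mat)) from econt).prodMk continuous_const
    exact ContinuousAt.comp (x := s) (f := fun s : ℝ => ((Matrix.of (e s) : Mat), x))
      (g := fun p : Mat × M => act p.1 p.2) h1 h2.continuousAt
  have hφu : HasDerivAt (fun ε => chartAt E9 x (u ε)) 0 0 := by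
    have h1 : HasDerivAt (fun s : ℝ => ((e s, chartAt E9 x x) : M9 × E9)) (ξ, 0) 0 :=
      eder.prodMk (hasDerivAt_const _ _)
    have h2 : HasFDerivAt (chAct act x x) L (e 0, chartAt E9 x x) := by rw [e0]; exact hL
    have h3 := h2.comp_hasDerivAt (0 : ℝ) h1
    rw [h0] at h3
    refine h3.congr_of_eventuallyEq (Eventually.of_forall fun s => ?_)
    show chartAt E9 x (act (Matrix.of (e s)) x) =
      chartAt E9 x (act (Matrix.of (e s)) ((chartAt E9 x).symm (chartAt E9 x x)))
    rw [hxx]
  have key : ∀ (s : ℝ) (y : M), u s ∈ (chartAt E9 y).source →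
      HasDerivAt (fun r => chartAt E9 y (u r)) 0 s := by
    intro s y hsy
    have h1 := man_sm h x y (e s) (chartAt E9 x x) (by rw [edet]; exact one_pos)
      (mem_chart_target E9 x) (by rw [hxx]; exact hsy)
    have h2 := (h1.differentiableAt (by norm_num)).hasFDerivAt
    have h3 : HasDerivAt (fun ε : ℝ => ((e s, chartAt E9 x (u ε)) : M9 × E9)) (0, 0) 0 :=
      (hasDerivAt_const _ _).prodMk hφu
    have h4 : HasFDerivAt (chAct act x y) (fderiv ℝ (chAct act x y) (e s, chartAt E9 x x))
        (e s, chartAt E9 x (u 0)) := by rw [hu0]; exact h2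
    have h5 := h4.comp_hasDerivAt (0 : ℝ) h3
    have h50 : (((0 : M9), (0 : E9)) : M9 × E9) = 0 := rfl
    rw [h50, map_zero] at h5
    have h6 : HasDerivAt (fun ε : ℝ => chartAt E9 y (u (s + ε))) 0 0 := by
      refine h5.congr_of_eventuallyEq ?_
      have h7 : ∀ᶠ ε in 𝓝 (0 : ℝ), u ε ∈ (chartAt E9 x).source := by
        have h8 := hucont.tendsto 0
        rw [hu0] at h8
        exact h8.eventually ((chartAt E9 x).open_source.mem_nhds (mem_chart_source E9 x))
      filter_upwards [h7] with ε hε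
      show chartAt E9 y (act (Matrix.of (e (s + ε))) x) =
        chartAt E9 y (act (Matrix.of (e s)) ((chartAt E9 x).symm (chartAt E9 x (u ε))))
      rw [(chartAt E9 x).left_inv hε, eadd, h.mul _ _ _ (edet s) (edet ε)]
    have h7 : HasDerivAt (fun r : ℝ => chartAt E9 y (u (s + (r - s)))) 0 s := by
      have h8 : HasDerivAt (fun ε : ℝ => chartAt E9 y (u (s + ε))) 0 (s - s) := by
        rw [sub_self]; exact h6
      exact h8.comp_sub_const s s
    refine h7.congr_of_eventuallyEq (Eventually.of_forall fun r => ?_)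
    show chartAt E9 y (u r) = chartAt E9 y (u (s + (r - s)))
    rw [add_sub_cancel]
  have hloc : IsLocallyConstant u := by
    rw [IsLocallyConstant.iff_eventually_eq]
    intro s
    have hopen : IsOpen (u ⁻¹' (chartAt E9 (u s)).source) :=
      (chartAt E9 (u s)).open_source.preimage hucont
    obtain ⟨r, hr, hball⟩ := Metric.isOpen_iff.1 hopen s (mem_chart_source E9 (u s))
    filter_upwards [Metric.ball_mem_nhds s hr] with t ht
    have h1 : chartAt E9 (u s) (u t) = chartAt E9 (u s) (u s) := by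
      refine Metric.isOpen_ball.is_const_of_deriv_eq_zero (s := Metric.ball s r)
        (f := fun r => chartAt E9 (u s) (u r)) (convex_ball s r).isPreconnected ?_ ?_ ht
        (Metric.mem_ball_self hr)
      · intro t' ht'
        exact (key t' (u s) (hball ht')).differentiableAt.differentiableWithinAt
      · intro t' ht'
        exact (key t' (u s) (hball ht')).deriv
    exact (chartAt E9 (u s)).injOn (hball ht) (mem_chart_source E9 (u s)) h1
  have hfix : ∀ s, act (Matrix.of (e s)) x = x := by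
    intro s
    have h1 : u s = u 0 := hloc.apply_eq_of_preconnectedSpace s 0
    rw [hu0] at h1
    exact h1
  obtain ⟨U, hU, hfree⟩ := h.free x
  have hev : ∀ᶠ s in 𝓝 (0 : ℝ), e s = one9 := by
    have h1 : Tendsto (fun s : ℝ => (Matrix.of (e s) : Mat)) (𝓝 0) (𝓝 (1 : Mat)) := by
      have h2 : Continuous (fun s : ℝ => (Matrix.of (e s) : Mat)) := econt
      have h3 := h2.tendsto 0
      rw [e0, of_one9] at h3
      exact h3
    filter_upwards [h1 hU] with s hs
    have h4 := hfree _ hs (edet s) (hfix s)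
    rw [← of_one9] at h4
    exact Matrix.of.injective h4
  have hd0 : HasDerivAt e 0 0 :=
    (hasDerivAt_const (0 : ℝ) one9).congr_of_eventuallyEq hev
  exact eder.unique hd0

end Pool.Agent.H88.LF

end S_H88_LF_ManI

section S_H88_LF_ManB

/-!
# MANB: the box at `x` (inverse function theorem)

`z0 = φ x`, `L` the derivative of `chAct act x x` at `(one9, z0)`.  `ξ ↦ L (ξ, 0)` on traceless
matrices (dimension `≤ 8`, injective or not) is not surjective: choose `e` not of the form `L (ξ,0)`,
`tr ξ = 0`.  `Θ (A,t) = (chAct act x x (A, z0 + t e), det A)`, `M9 × ℝ → E9 × ℝ`, is `C²` at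
`(one9, 0)` with derivative `(ξ, t) ↦ (L (ξ, t e), tr ξ)` at `(one9, 0)`; note
`L (0, w) = w` (as `chAct act x x (one9, z) = z` near `z0`).  Injective by `man_inj` and choice of
`e`, dimensions `10 = 10` (`LinearEquiv.ofInjectiveEndo`-like:
`LinearMap.linearEquivOfInjective`, `LinearEquiv.toContinuousLinearEquiv`).
`ContDiffAt.toOpenPartialHomeomorph`; the inverse is `C²` at `Θ (one9, 0)`
(`OpenPartialHomeomorph.contDiffAt_symm`, `ContDiffAt.to_localInverse`), hence near that point
(`ContDiffAt.eventually`); restrict to the open set of all good points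
(`OpenPartialHomeomorph.restrOpen` / `restr`).
-/

set_option autoImplicit false

open Set Filter
open scoped Topology Manifold

namespace Pool.Agent.H88.LF

variable {M : Type} [TopologicalSpace M] [ChartedSpace E9 M]
  [IsManifold (𝓡 9) ((⊤ : ℕ∞) : WithTop ℕ∞) M]

/-- the trace as a linear map -/
def manB_tr : M9 →ₗ[ℝ] ℝ where
  toFun ξ := ξ 0 0 + ξ 1 1 + ξ 2 2
  map_add' := by intro a b; simp only [Pi.add_apply]; ring
  map_smul' := by intro c a; simp only [Pi.smul_apply, smul_eq_mul, RingHom.id_apply]; ring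

theorem manB_det (A : M9) : (Matrix.of A).det =
    A 0 0 * A 1 1 * A 2 2 - A 0 0 * A 1 2 * A 2 1 - A 0 1 * A 1 0 * A 2 2 +
      A 0 1 * A 1 2 * A 2 0 + A 0 2 * A 1 0 * A 2 1 - A 0 2 * A 1 1 * A 2 0 := by
  rw [Matrix.det_fin_three]
  simp only [Matrix.of_apply]

theorem manB_det_smooth : ContDiff ℝ 2 (fun A : M9 => (Matrix.of A).det) := by
  simp only [manB_det]
  have hc : ∀ i j : Fin 3, ContDiff ℝ 2 (fun A : M9 => A i j) := fun i j =>
    contDiff_apply_apply (𝕜 := ℝ) (E := ℝ) i j
  exact ((((((((hc 0 0).mul (hc 1 1)).mul (hc 2 2)).sub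
    (((hc 0 0).mul (hc 1 2)).mul (hc 2 1))).sub
    (((hc 0 1).mul (hc 1 0)).mul (hc 2 2))).add
    (((hc 0 1).mul (hc 1 2)).mul (hc 2 0))).add
    (((hc 0 2).mul (hc 1 0)).mul (hc 2 1))).sub
    (((hc 0 2).mul (hc 1 1)).mul (hc 2 0)))

theorem manB_det_deriv (ξ : M9) :
    fderiv ℝ (fun A : M9 => (Matrix.of A).det) one9 ξ = manB_tr ξ := by
  have h1 : HasFDerivAt (fun A : M9 => (Matrix.of A).det)
      (fderiv ℝ (fun A : M9 => (Matrix.of A).det) one9) one9 :=
    (manB_det_smooth.differentiable (by norm_num)).differentiableAt.hasFDerivAt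
  have h2 : HasDerivAt (fun s : ℝ => one9 + s • ξ) ξ 0 := by
    simpa using ((hasDerivAt_id (0 : ℝ)).smul_const ξ).const_add one9
  have h3 : HasDerivAt (fun s : ℝ => (Matrix.of (one9 + s • ξ)).det)
      (fderiv ℝ (fun A : M9 => (Matrix.of A).det) one9 ξ) 0 := by
    have h4 : HasFDerivAt (fun A : M9 => (Matrix.of A).det)
      (fderiv ℝ (fun A : M9 => (Matrix.of A).det) one9) (one9 + (0 : ℝ) • ξ) := by
      rw [zero_smul, add_zero]; exact h1
    exact h4.comp_hasDerivAt (0 : ℝ) h2
  have h5 : ∀ i j : Fin 3, HasDerivAt (fun s : ℝ => (one9 + s • ξ) i j) (ξ i j) 0 := by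
    intro i j
    exact (hasDerivAt_pi.1 ((hasDerivAt_pi.1 h2) i)) j
  have h6 : HasDerivAt (fun s : ℝ => (Matrix.of (one9 + s • ξ)).det) (manB_tr ξ) 0 := by
    simp only [manB_det]
    have := ((((((((h5 0 0).mul (h5 1 1)).mul (h5 2 2)).sub
      (((h5 0 0).mul (h5 1 2)).mul (h5 2 1))).sub
      (((h5 0 1).mul (h5 1 0)).mul (h5 2 2))).add
      (((h5 0 1).mul (h5 1 2)).mul (h5 2 0))).add
      (((h5 0 2).mul (h5 1 0)).mul (h5 2 1))).sub
      (((h5 0 2).mul (h5 1 1)).mul (h5 2 0)))
    refine this.congr_deriv ?_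
    simp [one9, manB_tr]
  exact h3.unique h6

theorem manB_id {act : Mat → M → M} (h : SmAct M act) (x : M) (L : M9 × E9 →L[ℝ] E9)
    (hL : HasFDerivAt (chAct act x x) L (one9, chartAt E9 x x)) (w : E9) : L (0, w) = w := by
  have h1 : HasDerivAt (fun s : ℝ => ((one9, chartAt E9 x x + s • w) : M9 × E9)) (0, w) 0 := by
    refine (hasDerivAt_const (0 : ℝ) one9).prodMk ?_
    simpa using ((hasDerivAt_id (0 : ℝ)).smul_const w).const_add (chartAt E9 x x)
  have h2 : HasDerivAt (fun s : ℝ => chAct act x x (one9, chartAt E9 x x + s • w)) (L (0, w)) 0 := by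
    have h3 : HasFDerivAt (chAct act x x) L (one9, chartAt E9 x x + (0 : ℝ) • w) := by
      rw [zero_smul, add_zero]; exact hL
    exact h3.comp_hasDerivAt (0 : ℝ) h1
  have h4 : HasDerivAt (fun s : ℝ => chAct act x x (one9, chartAt E9 x x + s • w)) w 0 := by
    have h5 : HasDerivAt (fun s : ℝ => chartAt E9 x x + s • w) w 0 := by
      simpa using ((hasDerivAt_id (0 : ℝ)).smul_const w).const_add (chartAt E9 x x)
    refine h5.congr_of_eventuallyEq ?_
    have h6 : Tendsto (fun s : ℝ => chartAt E9 x x + s • w) (𝓝 0) (𝓝 (chartAt E9 x x)) := by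
      have := h5.continuousAt.tendsto
      simpa using this
    filter_upwards [h6.eventually ((chartAt E9 x).open_target.mem_nhds (mem_chart_target E9 x))]
      with s hs
    unfold chAct
    simp only [of_one9, h.one]
    exact (chartAt E9 x).right_inv hs
  exact h2.unique h4

theorem man_box {act : Mat → M → M} (h : SmAct M act) (x : M) :
    ∃ (e : E9) (Θ : OpenPartialHomeomorph (M9 × ℝ) (E9 × ℝ)) (δ ρ : ℝ), 0 < δ ∧ 0 < ρ ∧
      (∀ p ∈ Θ.source, Θ p =
        (chAct act x x (p.1, chartAt E9 x x + p.2 • e), (Matrix.of p.1).det)) ∧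
      (∀ p ∈ Θ.source, 0 < (Matrix.of p.1).det ∧
        chartAt E9 x x + p.2 • e ∈ (chartAt E9 x).target ∧
        act (Matrix.of p.1) ((chartAt E9 x).symm (chartAt E9 x x + p.2 • e)) ∈
          (chartAt E9 x).source) ∧
      (∀ q ∈ Θ.target, ContDiffAt ℝ 2 Θ.symm q) ∧
      (∀ (A : M9) (t : ℝ), nrm (Matrix.of A - 1) < ρ → |t| < δ → (A, t) ∈ Θ.source) := by
  have hdet1 : (Matrix.of one9).det = 1 := by rw [of_one9, Matrix.det_one]
  have hsm : ContDiffAt ℝ 2 (chAct act x x) (one9, chartAt E9 x x) := by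
    refine man_sm h x x one9 _ (by rw [hdet1]; exact one_pos) (mem_chart_target E9 x) ?_
    rw [of_one9, h.one, (chartAt E9 x).left_inv (mem_chart_source E9 x)]
    exact mem_chart_source E9 x
  have hL := (hsm.differentiableAt (by norm_num)).hasFDerivAt
  set L := fderiv ℝ (chAct act x x) (one9, chartAt E9 x x) with hLdef
  -- the transverse vector
  have hker : LinearMap.ker manB_tr ≠ ⊤ := by
    intro hk
    have h1 : one9 ∈ LinearMap.ker manB_tr := by rw [hk]; trivial
    rw [LinearMap.mem_ker] at h1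
    simp [manB_tr, one9] at h1
    norm_num at h1
  have hM9 : Module.finrank ℝ M9 = 9 := by
    rw [Module.finrank_pi_fintype]
    simp
  have hE9 : Module.finrank ℝ E9 = 9 := by simp [E9]
  have hkd : Module.finrank ℝ (LinearMap.ker manB_tr) < 9 := by
    rw [← hM9]; exact Submodule.finrank_lt hker
  set L1 : M9 →ₗ[ℝ] E9 := L.toLinearMap ∘ₗ LinearMap.inl ℝ M9 E9 with hL1
  have hL1a : ∀ ξ, L1 ξ = L (ξ, 0) := fun ξ => rfl
  have hmap : Submodule.map L1 (LinearMap.ker manB_tr) ≠ ⊤ := by
    intro ht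
    have h1 : Module.finrank ℝ (Submodule.map L1 (LinearMap.ker manB_tr)) ≤
        Module.finrank ℝ (LinearMap.ker manB_tr) := Submodule.finrank_map_le _ _
    rw [ht, finrank_top, hE9] at h1
    omega
  obtain ⟨e, he⟩ := SetLike.exists_not_mem_of_ne_top _ hmap rfl
  have he' : ∀ ξ : M9, manB_tr ξ = 0 → L (ξ, 0) ≠ e := by
    intro ξ hξ hc
    exact he ⟨ξ, hξ, hc⟩
  -- the map
  set Θ0 : M9 × ℝ → E9 × ℝ := fun p =>
    (chAct act x x (p.1, chartAt E9 x x + p.2 • e), (Matrix.of p.1).det) with hΘ0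
  have hin : ContDiff ℝ 2 (fun p : M9 × ℝ => ((p.1, chartAt E9 x x + p.2 • e) : M9 × E9)) :=
    contDiff_fst.prodMk (contDiff_const.add (contDiff_snd.smul contDiff_const))
  have hcomp : ContDiffAt ℝ 2 (fun p : M9 × ℝ => chAct act x x (p.1, chartAt E9 x x + p.2 • e))
      (one9, 0) := by
    refine ContDiffAt.comp (x := ((one9, 0) : M9 × ℝ))
      (f := fun p : M9 × ℝ => ((p.1, chartAt E9 x x + p.2 • e) : M9 × E9))
      (g := chAct act x x) ?_ hin.contDiffAt
    have hin1 : ((((one9, 0) : M9 × ℝ).1, chartAt E9 x x + ((one9, 0) : M9 × ℝ).2 • e) : M9 × E9) =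
        (one9, chartAt E9 x x) := by simp
    rw [hin1]; exact hsm
  have hΘs : ContDiffAt ℝ 2 Θ0 (one9, 0) :=
    hcomp.prodMk (manB_det_smooth.comp contDiff_fst).contDiffAt
  have hDin : HasFDerivAt (fun p : M9 × ℝ => ((p.1, chartAt E9 x x + p.2 • e) : M9 × E9))
      ((ContinuousLinearMap.fst ℝ M9 ℝ).prod
        ((ContinuousLinearMap.snd ℝ M9 ℝ).smulRight e)) (one9, 0) := by
    refine HasFDerivAt.prodMk hasFDerivAt_fst ?_
    have h1 : HasFDerivAt (fun p : M9 × ℝ => p.2) (ContinuousLinearMap.snd ℝ M9 ℝ) (one9, 0) :=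
      hasFDerivAt_snd
    exact (h1.smul_const e).const_add (chartAt E9 x x)
  have hD1 : HasFDerivAt (fun p : M9 × ℝ => chAct act x x (p.1, chartAt E9 x x + p.2 • e))
      (L.comp ((ContinuousLinearMap.fst ℝ M9 ℝ).prod
        ((ContinuousLinearMap.snd ℝ M9 ℝ).smulRight e))) (one9, 0) := by
    refine HasFDerivAt.comp (x := ((one9, 0) : M9 × ℝ))
      (f := fun p : M9 × ℝ => ((p.1, chartAt E9 x x + p.2 • e) : M9 × E9))
      (g := chAct act x x) ?_ hDin
    have hin1 : ((((one9, 0) : M9 × ℝ).1, chartAt E9 x x + ((one9, 0) : M9 × ℝ).2 • e) : M9 × E9) =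
        (one9, chartAt E9 x x) := by simp
    rw [hin1]; exact hL
  have hD2 : HasFDerivAt (fun p : M9 × ℝ => (Matrix.of p.1).det)
      ((fderiv ℝ (fun A : M9 => (Matrix.of A).det) one9).comp
        (ContinuousLinearMap.fst ℝ M9 ℝ)) (one9, 0) := by
    have h1 : HasFDerivAt (fun A : M9 => (Matrix.of A).det)
      (fderiv ℝ (fun A : M9 => (Matrix.of A).det) one9) one9 :=
      (manB_det_smooth.differentiable (by norm_num)).differentiableAt.hasFDerivAt
    exact HasFDerivAt.comp (x := ((one9, 0) : M9 × ℝ)) (f := fun p : M9 × ℝ => p.1)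
      (g := fun A : M9 => (Matrix.of A).det) h1 hasFDerivAt_fst
  set Dm : M9 × ℝ →L[ℝ] E9 × ℝ := (L.comp ((ContinuousLinearMap.fst ℝ M9 ℝ).prod
        ((ContinuousLinearMap.snd ℝ M9 ℝ).smulRight e))).prod
      ((fderiv ℝ (fun A : M9 => (Matrix.of A).det) one9).comp
        (ContinuousLinearMap.fst ℝ M9 ℝ)) with hDm
  have hD : HasFDerivAt Θ0 Dm (one9, 0) := hD1.prodMk hD2
  have hinj : Function.Injective Dm.toLinearMap := by
    rw [← LinearMap.ker_eq_bot, LinearMap.ker_eq_bot']
    rintro ⟨ξ, t⟩ h0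
    have h0' : Dm (ξ, t) = 0 := h0
    have h1 : L (ξ, t • e) = 0 := congrArg Prod.fst h0'
    have h2 : manB_tr ξ = 0 := by
      rw [← manB_det_deriv ξ]; exact congrArg Prod.snd h0'
    have h3 : L (ξ, t • e) = L (ξ, 0) + t • e := by
      have h4 : ((ξ, t • e) : M9 × E9) = (ξ, 0) + (0, t • e) := by simp
      rw [h4, map_add, manB_id h x L hL]
    rw [h3] at h1
    have ht : t = 0 := by
      by_contra ht
      refine he' (-t⁻¹ • ξ) (by rw [map_smul, h2, smul_zero]) ?_
      have h5 : (((-t⁻¹) • ξ, 0) : M9 × E9) = (-t⁻¹) • (ξ, 0) := by simp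
      rw [h5, map_smul, eq_neg_of_add_eq_zero_left h1, neg_smul, smul_neg, neg_neg, smul_smul,
        inv_mul_cancel₀ ht, one_smul]
    rw [ht, zero_smul, add_zero] at h1
    have h6 := man_inj h x L hL ξ h2 h1
    rw [h6, ht]
    rfl
  have hfr : Module.finrank ℝ (M9 × ℝ) = Module.finrank ℝ (E9 × ℝ) := by
    rw [Module.finrank_prod, Module.finrank_prod, hM9, hE9]
  set eqv : (M9 × ℝ) ≃L[ℝ] (E9 × ℝ) :=
    (LinearMap.linearEquivOfInjective Dm.toLinearMap hinj hfr).toContinuousLinearEquiv with heqv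
  have heq : (eqv : M9 × ℝ →L[ℝ] E9 × ℝ) = Dm := by
    refine ContinuousLinearMap.ext fun p => ?_
    rfl
  have hD' : HasFDerivAt Θ0 (eqv : M9 × ℝ →L[ℝ] E9 × ℝ) (one9, 0) := by rw [heq]; exact hD
  have hn2 : (2 : WithTop ℕ∞) ≠ 0 := by norm_num
  set P := hΘs.toOpenPartialHomeomorph Θ0 hD' hn2 with hP
  have hPsrc : (one9, (0 : ℝ)) ∈ P.source := hΘs.mem_toOpenPartialHomeomorph_source hD' hn2
  have hPc : ∀ p, P p = Θ0 p := fun p => rfl
  have hloc : ContDiffAt ℝ 2 P.symm (Θ0 (one9, 0)) := hΘs.to_localInverse hD' hn2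
  -- good points
  have g1 : ∀ᶠ p : M9 × ℝ in 𝓝 (one9, 0), 0 < (Matrix.of p.1).det := by
    have hc : Continuous (fun p : M9 × ℝ => (Matrix.of p.1).det) :=
      manB_det_smooth.continuous.comp continuous_fst
    have := (hc.tendsto (one9, 0)).eventually (lt_mem_nhds (a := 0) (by
      simp only; rw [hdet1]; exact one_pos))
    exact this
  have g2 : ∀ᶠ p : M9 × ℝ in 𝓝 (one9, 0), chartAt E9 x x + p.2 • e ∈ (chartAt E9 x).target := by
    have hc : Tendsto (fun p : M9 × ℝ => chartAt E9 x x + p.2 • e) (𝓝 (one9, 0))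
        (𝓝 (chartAt E9 x x)) := by
      have hc' : Continuous (fun p : M9 × ℝ => chartAt E9 x x + p.2 • e) := by fun_prop
      have := hc'.tendsto (one9, 0)
      simpa using this
    exact hc.eventually ((chartAt E9 x).open_target.mem_nhds (mem_chart_target E9 x))
  have g3 : ∀ᶠ p : M9 × ℝ in 𝓝 (one9, 0),
      act (Matrix.of p.1) ((chartAt E9 x).symm (chartAt E9 x x + p.2 • e)) ∈
        (chartAt E9 x).source := by
    have hc1 : Tendsto (fun p : M9 × ℝ => (chartAt E9 x).symm (chartAt E9 x x + p.2 • e))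
        (𝓝 (one9, 0)) (𝓝 x) := by
      have hc' : Continuous (fun p : M9 × ℝ => chartAt E9 x x + p.2 • e) := by fun_prop
      have h7 := hc'.tendsto (one9, 0)
      have h8 : (chartAt E9 x).symm (chartAt E9 x x) = x :=
        (chartAt E9 x).left_inv (mem_chart_source E9 x)
      have h9 := ((chartAt E9 x).symm.continuousAt (x := chartAt E9 x x)
        (by simp)).tendsto
      rw [h8] at h9
      refine h9.comp ?_
      simpa using h7
    have hc2 : Tendsto (fun p : M9 × ℝ => ((Matrix.of p.1 : Mat), (chartAt E9 x).symm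
        (chartAt E9 x x + p.2 • e))) (𝓝 (one9, 0)) (𝓝 ((1 : Mat), x)) := by
      refine Tendsto.prodMk_nhds ?_ hc1
      have hc' : Continuous (fun p : M9 × ℝ => (Matrix.of p.1 : Mat)) := continuous_fst
      have := hc'.tendsto (one9, 0)
      rw [of_one9] at this
      exact this
    have hc3 := (man_cont h 1 x (by rw [Matrix.det_one]; exact one_pos)).tendsto
    rw [h.one] at hc3
    exact (hc3.comp hc2).eventually ((chartAt E9 x).open_source.mem_nhds (mem_chart_source E9 x))
  have g4 : ∀ᶠ p : M9 × ℝ in 𝓝 (one9, 0), ContDiffAt ℝ 2 P.symm (Θ0 p) := by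
    have h10 : ∀ᶠ q in 𝓝 (Θ0 (one9, 0)), ContDiffAt ℝ 2 P.symm q :=
      hloc.eventually (by norm_num)
    exact (hΘs.continuousAt.tendsto).eventually h10
  obtain ⟨V, hV, hVo, hV0⟩ := mem_nhds_iff.1 (g1.and (g2.and (g3.and g4)))
  refine ⟨e, P.restrOpen V hVo, ?_⟩
  have hsrc : (P.restrOpen V hVo).source = P.source ∩ V := rfl
  have hmem : (one9, (0 : ℝ)) ∈ (P.restrOpen V hVo).source := ⟨hPsrc, hV0⟩
  obtain ⟨r, hr, hball⟩ := Metric.isOpen_iff.1 (P.restrOpen V hVo).open_source _ hmem
  refine ⟨r, r, hr, hr, fun p _ => rfl, ?_, ?_, ?_⟩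
  · intro p hp
    have := hV hp.2
    exact ⟨this.1, this.2.1, this.2.2.1⟩
  · intro q hq
    have h11 : (P.restrOpen V hVo).symm q ∈ (P.restrOpen V hVo).source :=
      (P.restrOpen V hVo).map_target hq
    have h12 := (hV h11.2).2.2.2
    have h13 : Θ0 ((P.restrOpen V hVo).symm q) = q := (P.restrOpen V hVo).right_inv hq
    rw [h13] at h12
    exact h12
  · intro A t hA ht
    refine hball ?_
    rw [Metric.mem_ball, Prod.dist_eq, max_lt_iff]
    constructor
    · rw [dist_pi_lt_iff hr]
      intro i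
      rw [dist_pi_lt_iff hr]
      intro j
      refine lt_of_le_of_lt ?_ hA
      have h14 : dist (A i j) (one9 i j) = |(Matrix.of A - 1) i j| := by
        rw [Real.dist_eq, Matrix.sub_apply, ← of_one9]
        rfl
      show dist (A i j) (one9 i j) ≤ nrm (Matrix.of A - 1)
      rw [h14]
      unfold nrm
      have h15 : |(Matrix.of A - 1) i j| ≤ ∑ j', |(Matrix.of A - 1) i j'| :=
        Finset.single_le_sum (f := fun j' => |(Matrix.of A - 1) i j'|)
          (fun _ _ => abs_nonneg _) (Finset.mem_univ j)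
      refine h15.trans ?_
      exact Finset.single_le_sum (f := fun i' => ∑ j', |(Matrix.of A - 1) i' j'|)
        (fun _ _ => Finset.sum_nonneg fun _ _ => abs_nonneg _) (Finset.mem_univ i)
    · show dist t 0 < r
      rw [Real.dist_eq, sub_zero]
      exact ht

end Pool.Agent.H88.LF

end S_H88_LF_ManB

section S_H88_LF_MAN

/-!
# MAN (blueprint section 13): from the manifold to a family of transverse curves

`E = EuclideanSpace ℝ (Fin 9)`, `φ = extChartAt x0`, `F(A,z) = φ(act A (φ.symm z))`, smooth near `(1, φ x0)` in `Mat × E` (open set `det > 0`).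
The box at `x` is `man_box`.  (M3) transitions `c a t0 = k0 • c b τ0`:
`(k0⁻¹ k t, δ τ t) = Θ_b⁻¹ (φ_b (act k0⁻¹ (c a t)), 1)`, smooth in `t` near `t0`.
-/

set_option autoImplicit false

open Set Filter
open scoped Topology Manifold

namespace Pool.Agent.H88.LF

/-- The action of `G` on `M` given by the function `act`. -/
@[reducible] def mkAct {M : Type} (act : Mat → M → M) (h1 : ∀ x : M, act 1 x = x)
    (hmul : ∀ (A B : Mat) (x : M), A.det = 1 → B.det = 1 → act (A * B) x = act A (act B x)) :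
    MulAction G M where
  smul g x := act g.1 x
  one_smul := fun x => h1 x
  mul_smul := fun g h x => hmul g.1 h.1 x g.2 h.2

/-- the parameter curve in the chart of `x` -/
noncomputable def manCrv {M : Type} [TopologicalSpace M] [ChartedSpace E9 M] (x : M) (e : E9)
    (s : ℝ) : M := (chartAt E9 x).symm (chartAt E9 x x + s • e)

/-- the group element of a matrix of determinant one -/
noncomputable def manG (A : M9) : G :=
  open Classical in if hd : (Matrix.of A).det = 1 then ⟨Matrix.of A, hd⟩ else 1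

theorem manG_val {A : M9} (hd : (Matrix.of A).det = 1) : (manG A).1 = Matrix.of A := by
  unfold manG
  rw [dif_pos hd]

theorem manG_one : manG one9 = 1 := by
  have h : (Matrix.of one9).det = 1 := by rw [of_one9, Matrix.det_one]
  apply Subtype.ext
  rw [manG_val h, of_one9]
  rfl

/-- the properties of the box of `man_box` -/
structure ManBox {M : Type} [TopologicalSpace M] [ChartedSpace E9 M] (act : Mat → M → M) (x : M)
    where
  e : E9
  Θ : OpenPartialHomeomorph (M9 × ℝ) (E9 × ℝ)
  δ : ℝ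
  ρ : ℝ
  hδ : 0 < δ
  hρ : 0 < ρ
  h1 : ∀ p ∈ Θ.source, Θ p =
        (chAct act x x (p.1, chartAt E9 x x + p.2 • e), (Matrix.of p.1).det)
  h2 : ∀ p ∈ Θ.source, 0 < (Matrix.of p.1).det ∧
        chartAt E9 x x + p.2 • e ∈ (chartAt E9 x).target ∧
        act (Matrix.of p.1) ((chartAt E9 x).symm (chartAt E9 x x + p.2 • e)) ∈
          (chartAt E9 x).source
  h3 : ∀ q ∈ Θ.target, ContDiffAt ℝ 2 Θ.symm q
  h4 : ∀ (A : M9) (t : ℝ), nrm (Matrix.of A - 1) < ρ → |t| < δ → (A, t) ∈ Θ.source

theorem man_nonempty_box {M : Type} [TopologicalSpace M] [ChartedSpace E9 M]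
    [IsManifold (𝓡 9) ((⊤ : ℕ∞) : WithTop ℕ∞) M] {act : Mat → M → M} (h : SmAct M act) (x : M) :
    Nonempty (ManBox act x) := by
  obtain ⟨e, Θ, δ, ρ, hδ, hρ, h1, h2, h3, h4⟩ := man_box h x
  exact ⟨⟨e, Θ, δ, ρ, hδ, hρ, h1, h2, h3, h4⟩⟩

section

variable {M : Type} [TopologicalSpace M] [ChartedSpace E9 M] {act : Mat → M → M} {x : M}

theorem ManBox.mem_one (B : ManBox act x) {s : ℝ} (hs : |s| < B.δ) : (one9, s) ∈ B.Θ.source := by
  refine B.h4 one9 s ?_ hs
  rw [of_one9, sub_self]
  have : nrm 0 = 0 := by simp [nrm]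
  rw [this]
  exact B.hρ

theorem ManBox.target (B : ManBox act x) {s : ℝ} (hs : |s| < B.δ) :
    chartAt E9 x x + s • B.e ∈ (chartAt E9 x).target := (B.h2 _ (B.mem_one hs)).2.1

theorem ManBox.source (B : ManBox act x) {s : ℝ} (hs : |s| < B.δ) :
    manCrv x B.e s ∈ (chartAt E9 x).source := (chartAt E9 x).map_target (B.target hs)

theorem ManBox.chart (B : ManBox act x) {s : ℝ} (hs : |s| < B.δ) :
    chartAt E9 x (manCrv x B.e s) = chartAt E9 x x + s • B.e :=
  (chartAt E9 x).right_inv (B.target hs)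

theorem ManBox.Θ_one (B : ManBox act x) (h : SmAct M act) {s : ℝ} (hs : |s| < B.δ) :
    B.Θ (one9, s) = (chartAt E9 x (manCrv x B.e s), 1) := by
  rw [B.h1 _ (B.mem_one hs)]
  simp only [chAct, of_one9, h.one, Matrix.det_one]
  rfl

theorem ManBox.Θ_apply (B : ManBox act x) {A : M9} {s : ℝ} (hp : (A, s) ∈ B.Θ.source) :
    B.Θ (A, s) = (chartAt E9 x (act (Matrix.of A) (manCrv x B.e s)), (Matrix.of A).det) :=
  B.h1 _ hp

/-- points near the curve have coordinates -/
theorem ManBox.lift (B : ManBox act x) (h : SmAct M act) {s : ℝ} (hs : |s| < B.δ) {ι : Type}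
    {F : Filter ι} {y : ι → M} (hy : Tendsto y F (𝓝 (manCrv x B.e s))) :
    Tendsto (fun i => B.Θ.symm (chartAt E9 x (y i), 1)) F (𝓝 (one9, s)) ∧
      ∀ᶠ i in F, (Matrix.of (B.Θ.symm (chartAt E9 x (y i), 1)).1).det = 1 ∧
        y i = act (Matrix.of (B.Θ.symm (chartAt E9 x (y i), 1)).1)
          (manCrv x B.e (B.Θ.symm (chartAt E9 x (y i), 1)).2) := by
  have hsrc := B.source hs
  have h1 : Tendsto (fun i => chartAt E9 x (y i)) F (𝓝 (chartAt E9 x (manCrv x B.e s))) :=
    ((chartAt E9 x).continuousAt hsrc).tendsto.comp hy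
  have h2 : Tendsto (fun i => (chartAt E9 x (y i), (1 : ℝ))) F (𝓝 (B.Θ (one9, s))) := by
    rw [B.Θ_one h hs]
    exact h1.prodMk_nhds tendsto_const_nhds
  have htar : B.Θ (one9, s) ∈ B.Θ.target := B.Θ.map_source (B.mem_one hs)
  have h3 : Tendsto (fun i => B.Θ.symm (chartAt E9 x (y i), 1)) F (𝓝 (one9, s)) := by
    have h4 := (B.Θ.symm.continuousAt (x := B.Θ (one9, s)) (by simpa using htar)).tendsto.comp h2
    rw [B.Θ.left_inv (B.mem_one hs)] at h4
    exact h4
  refine ⟨h3, ?_⟩
  have h5 : ∀ᶠ i in F, (chartAt E9 x (y i), (1 : ℝ)) ∈ B.Θ.target :=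
    h2.eventually (B.Θ.open_target.mem_nhds htar)
  have h6 : ∀ᶠ i in F, y i ∈ (chartAt E9 x).source :=
    hy.eventually ((chartAt E9 x).open_source.mem_nhds hsrc)
  filter_upwards [h5, h6] with i h5 h6
  have h7 : B.Θ.symm (chartAt E9 x (y i), 1) ∈ B.Θ.source := B.Θ.map_target h5
  have h8 : B.Θ (B.Θ.symm (chartAt E9 x (y i), 1)) = (chartAt E9 x (y i), 1) := B.Θ.right_inv h5
  have h9 := B.h1 _ h7
  rw [h8] at h9
  have h10 := Prod.mk.inj h9
  refine ⟨h10.2.symm, ?_⟩
  exact (chartAt E9 x).injOn h6 (B.h2 _ h7).2.2 h10.1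

theorem ManBox.inj (B : ManBox act x) {A A' : M9} {s s' : ℝ} (hA : nrm (Matrix.of A - 1) < B.ρ)
    (hA' : nrm (Matrix.of A' - 1) < B.ρ) (hs : |s| < B.δ) (hs' : |s'| < B.δ)
    (hd : (Matrix.of A).det = (Matrix.of A').det)
    (he : act (Matrix.of A) (manCrv x B.e s) = act (Matrix.of A') (manCrv x B.e s')) :
    A = A' ∧ s = s' := by
  have h1 := B.h4 A s hA hs
  have h2 := B.h4 A' s' hA' hs'
  have h3 : B.Θ (A, s) = B.Θ (A', s') := by
    rw [B.Θ_apply h1, B.Θ_apply h2, he, hd]
  exact Prod.mk.inj (B.Θ.injOn h1 h2 h3)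

theorem ManBox.cont (B : ManBox act x) {s : ℝ} (hs : |s| < B.δ) :
    ContinuousAt (manCrv x B.e) s := by
  have h1 : ContinuousAt (fun s : ℝ => chartAt E9 x x + s • B.e) s := by fun_prop
  exact ContinuousAt.comp (x := s) (f := fun s : ℝ => chartAt E9 x x + s • B.e)
    (g := (chartAt E9 x).symm) ((chartAt E9 x).symm.continuousAt (by simpa using B.target hs)) h1

end

/-- MAN -/
theorem man_preFB {M : Type} [TopologicalSpace M] [ChartedSpace (EuclideanSpace ℝ (Fin 9)) M]
    [IsManifold (𝓡 9) ((⊤ : ℕ∞) : WithTop ℕ∞) M] [T2Space M] [CompactSpace M]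
    (act : Mat → M → M) (h1 : ∀ x : M, act 1 x = x)
    (hmul : ∀ (A B : Mat) (x : M), A.det = 1 → B.det = 1 → act (A * B) x = act A (act B x))
    (hsm : ContMDiffOn ((𝓘(ℝ, Fin 3 → Fin 3 → ℝ)).prod (𝓡 9)) (𝓡 9) ((⊤ : ℕ∞) : WithTop ℕ∞)
          (fun p : (Fin 3 → Fin 3 → ℝ) × M => act (Matrix.of p.1) p.2)
          {p : (Fin 3 → Fin 3 → ℝ) × M | 0 < (Matrix.of p.1).det})
    (hfree : ∀ x : M, ∃ U ∈ 𝓝 (1 : Mat), ∀ A ∈ U, A.det = 1 → act A x = x → A = 1) :
    letI := mkAct act h1 hmul
    ContinuousSMul G M ∧ Nonempty (PreFB M) := by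
  have hS : SmAct M act := ⟨h1, hmul, hsm, hfree⟩
  letI : MulAction G M := mkAct act h1 hmul
  have hsmul : ∀ (g : G) (y : M), g • y = act g.1 y := fun _ _ => rfl
  have hcs : ContinuousSMul G M := by
    refine ⟨continuous_iff_continuousAt.2 fun p => ?_⟩
    have h2 := man_cont hS p.1.1 p.2 (by rw [p.1.2]; exact one_pos)
    exact ContinuousAt.comp (x := p) (f := fun p : G × M => ((p.1.1 : Mat), p.2))
      (g := fun p : Mat × M => act p.1 p.2) h2
      ((closedEmb_val.continuous.comp continuous_fst).prodMk continuous_snd).continuousAt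
  refine ⟨hcs, ⟨?_⟩⟩
  have B : ∀ x : M, ManBox act x := fun x => (man_nonempty_box hS x).some
  have hδt : ∀ (x : M) (t : ℝ), |t| < 1 → |(B x).δ * t| < (B x).δ := by
    intro x t ht
    rw [abs_mul, abs_of_pos (B x).hδ]
    have := mul_lt_mul_of_pos_left ht (B x).hδ
    rwa [mul_one] at this
  exact
    { A := M
      c := fun x t => manCrv x (B x).e ((B x).δ * t)
      ρ := fun x => (B x).ρ
      hρ := fun x => (B x).hρ
      cont := by
        intro x t ht
        exact ContinuousAt.comp (x := t) (f := fun t : ℝ => (B x).δ * t) (g := manCrv x (B x).e)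
          ((B x).cont (hδt x t ht)) (by fun_prop)
      inj := by
        intro x h h' t t' ht ht' hh hh' he
        have := (B x).inj (A := h.1) (A' := h'.1) (s := (B x).δ * t) (s' := (B x).δ * t') hh hh'
          (hδt x t ht) (hδt x t' ht') (h.2.trans h'.2.symm) he
        exact ⟨Subtype.ext this.1, mul_left_cancel₀ (B x).hδ.ne' this.2⟩
      opn := by
        intro x t ht ε hε
        obtain ⟨hl1, hl2⟩ := (B x).lift hS (hδt x t ht) (F := 𝓝 (manCrv x (B x).e ((B x).δ * t)))
          (y := fun y => y) tendsto_id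
        have hnr : Tendsto (fun y => nrm (Matrix.of ((B x).Θ.symm (chartAt E9 x y, 1)).1 - 1))
            (𝓝 (manCrv x (B x).e ((B x).δ * t))) (𝓝 0) := by
          have hc : Continuous (fun p : M9 × ℝ => nrm (Matrix.of p.1 - 1)) := by
            unfold nrm
            simp only [Matrix.sub_apply, Matrix.of_apply]
            fun_prop
          have h3 := (hc.tendsto (one9, (B x).δ * t)).comp hl1
          have h4 : nrm (Matrix.of (one9, (B x).δ * t).1 - 1) = 0 := by
            simp only
            rw [of_one9, sub_self]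
            simp [nrm]
          rw [h4] at h3
          exact h3
        have ht2 : Tendsto (fun y => ((B x).Θ.symm (chartAt E9 x y, 1)).2 / (B x).δ)
            (𝓝 (manCrv x (B x).e ((B x).δ * t))) (𝓝 t) := by
          have h3 := ((continuous_snd.tendsto (one9, (B x).δ * t)).comp hl1).div_const (B x).δ
          have h4 : (one9, (B x).δ * t).2 / (B x).δ = t := by
            simp only
            rw [mul_div_cancel_left₀ _ (B x).hδ.ne']
          rw [h4] at h3
          exact h3
        have ev1 := hnr.eventually (gt_mem_nhds hε)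
        have ev2 := ht2.eventually (Metric.ball_mem_nhds t hε)
        have ev3 := ht2.eventually ((continuous_abs.tendsto t).eventually (gt_mem_nhds ht))
        filter_upwards [hl2, ev1, ev2, ev3] with y hy e1 e2 e3
        refine ⟨manG ((B x).Θ.symm (chartAt E9 x y, 1)).1,
          ((B x).Θ.symm (chartAt E9 x y, 1)).2 / (B x).δ, ?_, ?_, e3, ?_⟩
        · unfold nd
          rw [manG_val hy.1]
          exact e1
        · exact e2
        · rw [mul_div_cancel₀ _ (B x).hδ.ne', hsmul, manG_val hy.1]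
          exact hy.2
      cover := by
        intro x
        refine ⟨x, 1, ?_⟩
        rw [one_smul, mul_zero]
        show x = (chartAt E9 x).symm (chartAt E9 x x + (0 : ℝ) • (B x).e)
        rw [zero_smul, add_zero, (chartAt E9 x).left_inv (mem_chart_source E9 x)]
      trans := by
        intro a b t0 τ0 k0 ht0 hτ0 hc
        have hc' : k0⁻¹ • manCrv a (B a).e ((B a).δ * t0) = manCrv b (B b).e ((B b).δ * τ0) := by
          rw [hc, inv_smul_smul]
        have hcontA : ContinuousAt (fun t : ℝ => manCrv a (B a).e ((B a).δ * t)) t0 :=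
          ContinuousAt.comp (x := t0) (f := fun t : ℝ => (B a).δ * t) (g := manCrv a (B a).e)
            ((B a).cont (hδt a t0 ht0)) (by fun_prop)
        have hy : Tendsto (fun t : ℝ => k0⁻¹ • manCrv a (B a).e ((B a).δ * t)) (𝓝 t0)
            (𝓝 (manCrv b (B b).e ((B b).δ * τ0))) := by
          rw [← hc']
          exact (hcontA.const_smul k0⁻¹).tendsto
        obtain ⟨hl1, hl2⟩ := (B b).lift hS (hδt b τ0 hτ0) hy
        set Q : ℝ → M9 × ℝ := fun t =>
          (B b).Θ.symm (chartAt E9 b (k0⁻¹ • manCrv a (B a).e ((B a).δ * t)), 1) with hQ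
        have hQ0 : Q t0 = (one9, (B b).δ * τ0) := by
          rw [hQ]
          simp only
          rw [hc', ← (B b).Θ_one hS (hδt b τ0 hτ0), (B b).Θ.left_inv ((B b).mem_one (hδt b τ0 hτ0))]
        have hQs : ContDiffAt ℝ 2 Q t0 := by
          have hin : ContDiffAt ℝ 2 (fun t : ℝ =>
              (chAct act a b (Matrix.of.symm (k0⁻¹).1, chartAt E9 a a + ((B a).δ * t) • (B a).e), (1 : ℝ))) t0 := by
            refine ContDiffAt.prodMk ?_ contDiffAt_const
            have h5 : ContDiffAt ℝ 2 (fun t : ℝ =>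
                ((Matrix.of.symm (k0⁻¹).1 : M9), chartAt E9 a a + ((B a).δ * t) • (B a).e)) t0 := by
              refine ContDiffAt.prodMk contDiffAt_const ?_
              exact contDiffAt_const.add ((contDiffAt_const.mul contDiffAt_id).smul
                contDiffAt_const)
            refine ContDiffAt.comp (x := t0) (f := fun t : ℝ =>
                ((Matrix.of.symm (k0⁻¹).1 : M9), chartAt E9 a a + ((B a).δ * t) • (B a).e))
                (g := chAct act a b) ?_ h5
            refine man_sm hS a b _ _ ?_ ((B a).target (hδt a t0 ht0)) ?_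
            · show 0 < (k0⁻¹).1.det
              rw [(k0⁻¹).2]; exact one_pos
            · show k0⁻¹ • manCrv a (B a).e ((B a).δ * t0) ∈ _
              rw [hc']
              exact (B b).source (hδt b τ0 hτ0)
          refine ContDiffAt.comp (x := t0) (f := fun t : ℝ =>
              (chAct act a b (Matrix.of.symm (k0⁻¹).1, chartAt E9 a a + ((B a).δ * t) • (B a).e), (1 : ℝ)))
              (g := (B b).Θ.symm) ?_ hin
          refine (B b).h3 _ ?_
          have h6 : (chAct act a b (Matrix.of.symm (k0⁻¹).1, chartAt E9 a a + ((B a).δ * t0) • (B a).e), (1 : ℝ))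
              = (B b).Θ (one9, (B b).δ * τ0) := by
            rw [(B b).Θ_one hS (hδt b τ0 hτ0), ← hc']
            rfl
          rw [h6]
          exact (B b).Θ.map_source ((B b).mem_one (hδt b τ0 hτ0))
        refine ⟨fun t => k0 * manG (Q t).1, fun t => (Q t).2 / (B b).δ, ?_, ?_, ?_, ?_, ?_⟩
        · simp only
          rw [hQ0]
          simp only
          rw [manG_one, mul_one]
        · simp only
          rw [hQ0]
          exact mul_div_cancel_left₀ _ (B b).hδ.ne'
        · intro i j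
          have h9 : ContDiffAt ℝ 2 (fun t => ∑ l, k0.1 i l * (Q t).1 l j) t0 := by
            refine ContDiffAt.sum fun l _ => contDiffAt_const.mul ?_
            have h10 : ContDiffAt ℝ 2 (fun t => (Q t).1) t0 := contDiffAt_fst.comp t0 hQs
            exact (contDiffAt_pi.1 ((contDiffAt_pi.1 h10) l)) j
          refine h9.congr_of_eventuallyEq ?_
          filter_upwards [hl2] with t ht
          show (k0.1 * (manG (Q t).1).1) i j = _
          rw [manG_val ht.1, Matrix.mul_apply]
          rfl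
        · exact (contDiffAt_snd.comp t0 hQs).div_const _
        · filter_upwards [hl2] with t ht
          rw [mul_smul, mul_div_cancel₀ _ (B b).hδ.ne', ← inv_smul_eq_iff, hsmul (manG _),
            manG_val ht.1]
          exact ht.2 }

end Pool.Agent.H88.LF

end S_H88_LF_MAN
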