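import Mathlib
import Pool.Agent.H88.LG.M02
import Pool.Agent.H88.LG.M04
import Pool.Agent.H88.LG.M05
import Pool.Agent.H88.LG.M06
import Pool.Agent.H88.LG.M08
import Pool.Agent.H88.LG.M09
import Pool.Agent.H88.LG.M10

set_option autoImplicit false

/-! Locally free actions of SL(3,R) on compact 9-manifolds, file M11: this file joins several modules to save build time. -/

section S_H88_LF_FIN

/-!
# FIN: assembly of S13902
-/

set_option autoImplicit false

open MeasureTheory Set Filter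
open scoped Topology ENNReal Manifold

namespace Pool.Agent.H88.LF

section
variable {X : Type} [MetricSpace X] [CompactSpace X] [MulAction G X] [ContinuousSMul G X]

theorem no_co_false [Nonempty X] (S : FB X) (hno : ∀ x : X, ¬ CO x) : False := by
  obtain ⟨T⟩ := exists_TN S
  have h1 := cstar S T hno
  obtain ⟨S1, hS1⟩ := straighten S T h1
  obtain ⟨T1⟩ := exists_TN S1
  have h2 := cstar S1 T1 hno
  obtain ⟨S2, hS2⟩ := affinize S1 hS1 T1 h2
  obtain ⟨T2⟩ := exists_TN S2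
  have h3 := cstar S2 T2 hno
  obtain ⟨Λ, A, hA, hmul, ⟨ρ, hρ, hi⟩, Q, hQ, R, hiii⟩ :=
    leaf S2 hS2 T2 (contract_of_cstar S2 T2 h3)
  exact alg Λ A hA hmul ρ hρ hi Q hQ R hiii

theorem all_CO (S : FB X) (x : X) : CO x := by
  by_contra hx
  obtain ⟨Y, i1, i2, i3, i4, i5, SY, hno⟩ := restrict S (isClopen_CO S) ⟨x, hx⟩
  exact no_co_false SY hno

end

theorem main :
    ¬ (∃ (M : Type) (_ : TopologicalSpace M) (_ : ChartedSpace (EuclideanSpace ℝ (Fin 9)) M),
      IsManifold (𝓡 9) ((⊤ : ℕ∞) : WithTop ℕ∞) M ∧ T2Space M ∧ CompactSpace M ∧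
      ∃ act : Matrix (Fin 3) (Fin 3) ℝ → M → M,
        (∀ x : M, act 1 x = x) ∧
        (∀ (A B : Matrix (Fin 3) (Fin 3) ℝ) (x : M), A.det = 1 → B.det = 1 →
            act (A * B) x = act A (act B x)) ∧
        ContMDiffOn ((𝓘(ℝ, Fin 3 → Fin 3 → ℝ)).prod (𝓡 9)) (𝓡 9) ((⊤ : ℕ∞) : WithTop ℕ∞)
          (fun p : (Fin 3 → Fin 3 → ℝ) × M => act (Matrix.of p.1) p.2)
          {p : (Fin 3 → Fin 3 → ℝ) × M | 0 < (Matrix.of p.1).det} ∧
        (∀ x : M, ∃ U ∈ 𝓝 (1 : Matrix (Fin 3) (Fin 3) ℝ),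
            ∀ A ∈ U, A.det = 1 → act A x = x → A = 1) ∧
        ∃ x : M, ¬ IsClosed {y : M | ∃ A : Matrix (Fin 3) (Fin 3) ℝ, A.det = 1 ∧ act A x = y}) := by
  rintro ⟨M, i1, i2, i3, i4, i5, act, h1, hmul, hsm, hfree, x, hx⟩
  haveI := i3; haveI := i4; haveI := i5
  apply hx
  obtain ⟨hc, ⟨P⟩⟩ := man_preFB act h1 hmul hsm hfree
  haveI : SigmaCompactSpace M := inferInstance
  haveI : SecondCountableTopology M :=
    ChartedSpace.secondCountable_of_sigmaCompact (EuclideanSpace ℝ (Fin 9)) M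
  haveI : TopologicalSpace.MetrizableSpace M := inferInstance
  letI : MetricSpace M := TopologicalSpace.metrizableSpaceMetric M
  letI : MulAction G M := mkAct act h1 hmul
  haveI : ContinuousSMul G M := hc
  obtain ⟨S, -⟩ := preFB_toFB P
  obtain ⟨K, hK, hKx⟩ := all_CO S x
  have : {y : M | ∃ A : Matrix (Fin 3) (Fin 3) ℝ, A.det = 1 ∧ act A x = y} =
      (fun g : G => g • x) '' K := by
    ext y
    constructor
    · rintro ⟨A, hA, rfl⟩
      obtain ⟨k, hk, hkx⟩ := hKx ⟨A, hA⟩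
      exact ⟨k, hk, hkx.symm⟩
    · rintro ⟨k, -, rfl⟩
      exact ⟨k.1, k.2, rfl⟩
  rw [this]
  exact (hK.image (by fun_prop)).isClosed

end Pool.Agent.H88.LF

end S_H88_LF_FIN
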